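import Mathlib

set_option autoImplicit false

open Filter Topology

/-! Lexicographic enumeration of `Σ c : ℕ, Fin (N c)`. -/

namespace Pool.Agent.R267.Lex

variable (N : ℕ → ℕ)

/-- the first index of the block `c` -/
def start (c : ℕ) : ℕ := ∑ d ∈ Finset.range c, N d

lemma start_succ (c : ℕ) : start N (c + 1) = start N c + N c := Finset.sum_range_succ _ _

lemma start_mono : Monotone (start N) := by
  apply monotone_nat_of_le_succ
  intro c
  rw [start_succ]
  omega

lemma le_start (hN : ∀ c, 0 < N c) (c : ℕ) : c ≤ start N c := by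
  induction c with
  | zero => exact Nat.zero_le _
  | succ c ih =>
    rw [start_succ]
    have := hN c
    omega

/-- position in the lexicographic order -/
def pos (i : Σ c, Fin (N c)) : ℕ := start N i.1 + i.2

lemma pos_lt (i : Σ c, Fin (N c)) : pos N i < start N (i.1 + 1) := by
  unfold pos
  rw [start_succ]
  have := i.2.2
  omega

lemma pos_lt_of {i j : Σ c, Fin (N c)} (h : i.1 < j.1) : pos N i < pos N j := by
  have h1 := pos_lt N i
  have h2 := start_mono N (Nat.succ_le_of_lt h)
  unfold pos at *
  simp only [Nat.succ_eq_add_one] at h2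
  omega

lemma pos_injective : Function.Injective (pos N) := by
  intro i j h
  rcases lt_trichotomy i.1 j.1 with h1 | h1 | h1
  · have := pos_lt_of N h1; omega
  · obtain ⟨c, k⟩ := i
    obtain ⟨d, l⟩ := j
    simp only at h1
    subst h1
    unfold pos at h
    simp only at h
    have : k = l := Fin.ext (by omega)
    rw [this]
  · have := pos_lt_of N h1; omega

lemma pos_surjective (hN : ∀ c, 0 < N c) : Function.Surjective (pos N) := by
  intro n
  have hex : ∃ c, n < start N (c + 1) := ⟨n, by have := le_start N hN (n + 1); omega⟩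
  set c := Nat.find hex with hc
  have h1 : n < start N (c + 1) := Nat.find_spec hex
  have h2 : start N c ≤ n := by
    rcases Nat.eq_zero_or_pos c with h0 | h0
    · rw [h0]
      unfold start
      simp
    · have := Nat.find_min hex (m := c - 1) (by omega)
      rw [show c - 1 + 1 = c from by omega] at this
      omega
  rw [start_succ] at h1
  exact ⟨⟨c, ⟨n - start N c, by omega⟩⟩, by unfold pos; simp only; omega⟩

/-- the lexicographic enumeration -/
noncomputable def lexE (hN : ∀ c, 0 < N c) : ℕ ≃ Σ c, Fin (N c) :=
  (Equiv.ofBijective (pos N) ⟨pos_injective N, pos_surjective N hN⟩).symm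

lemma lexE_symm (hN : ∀ c, 0 < N c) (i : Σ c, Fin (N c)) : (lexE N hN).symm i = pos N i := rfl

lemma pos_lexE (hN : ∀ c, 0 < N c) (n : ℕ) : pos N (lexE N hN n) = n :=
  (lexE N hN).symm_apply_apply n

lemma pos_lt_iff (hN : ∀ c, 0 < N c) (m : ℕ) (i : Σ c, Fin (N c)) :
    pos N i < m ↔ i.1 < (lexE N hN m).1 ∨
      (i.1 = (lexE N hN m).1 ∧ (i.2 : ℕ) < ((lexE N hN m).2 : ℕ)) := by
  have hm := pos_lexE N hN m
  set j := lexE N hN m with hj
  rcases lt_trichotomy i.1 j.1 with h | h | h
  · have := pos_lt_of N h
    constructor
    · intro _; exact Or.inl h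
    · intro _; omega
  · have hs : start N i.1 = start N j.1 := by rw [h]
    constructor
    · intro h'
      right
      refine ⟨h, ?_⟩
      unfold pos at *
      omega
    · rintro (h' | ⟨_, h'⟩)
      · omega
      · unfold pos at *
        omega
  · have := pos_lt_of N h
    constructor
    · intro h'; omega
    · rintro (h' | ⟨h', _⟩) <;> omega

/-- the block of `m` tends to infinity -/
lemma tendsto_block (hN : ∀ c, 0 < N c) : Tendsto (fun m => (lexE N hN m).1) atTop atTop := by
  rw [tendsto_atTop]
  intro b
  filter_upwards [eventually_ge_atTop (start N b)] with m hm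
  by_contra h
  push Not at h
  have h1 := pos_lt N (lexE N hN m)
  have h2 := start_mono N (Nat.succ_le_of_lt h)
  rw [pos_lexE] at h1
  simp only [Nat.succ_eq_add_one] at h2
  omega

end Pool.Agent.R267.Lex
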