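import Pool.Agent.R267.BlockSum
import Pool.Agent.R267.Lex

set_option autoImplicit false

open Filter Topology
open scoped ENNReal

/-! Series along enumerations of the basis of a block sum. -/

namespace Pool.Agent.R267.BS

open Pool.Agent.R267.Lex

variable {𝕜 : Type} [RCLike 𝕜] {V : ℕ → Type} [∀ c, NormedAddCommGroup (V c)]
  [∀ c, NormedSpace 𝕜 (V c)]

section general

variable {K : ℕ → Type} [∀ c, DecidableEq (K c)]
  (p : ℝ≥0∞) (T : ∀ c, (K c → 𝕜) ≃ₗ[𝕜] V c)

lemma psum_apply (σ : ℕ ≃ Σ c, K c) (β : (Σ c, K c) → 𝕜) (m c : ℕ) :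
    (∑ n ∈ Finset.range m, β (σ n) • vec p T (σ n) : lp V p) c =
      T c (fun k => if σ.symm ⟨c, k⟩ < m then β ⟨c, k⟩ else 0) := by
  have h : (∑ n ∈ Finset.range m, β (σ n) • vec p T (σ n) : lp V p) =
      ∑ i ∈ (Finset.range m).map σ.toEmbedding, β i • vec p T i := by
    rw [Finset.sum_map]
    rfl
  rw [h, sum_apply]
  congr 1
  funext k
  have : (⟨c, k⟩ : Σ c, K c) ∈ (Finset.range m).map σ.toEmbedding ↔ σ.symm ⟨c, k⟩ < m := by
    rw [Finset.mem_map]
    constructor
    · rintro ⟨n, hn, h⟩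
      rw [← h]
      change σ.symm (σ n) < m
      rw [Equiv.symm_apply_apply]
      exact Finset.mem_range.mp hn
    · intro hm
      exact ⟨σ.symm ⟨c, k⟩, Finset.mem_range.mpr hm, σ.apply_symm_apply _⟩
  simp only [this]

/-- coordinate functionals determine the coefficients of a convergent series -/
lemma coeff_unique [Fact (1 ≤ p)] (hcont : ∀ i, Continuous (fnl p T i)) (σ : ℕ ≃ Σ c, K c)
    (β : (Σ c, K c) → 𝕜) (y : lp V p)
    (h : Tendsto (fun m => ∑ n ∈ Finset.range m, β (σ n) • vec p T (σ n)) atTop (𝓝 y))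
    (i : Σ c, K c) : β i = fnl p T i y := by
  have h1 := ((hcont i).tendsto y).comp h
  have h2 : Tendsto (fun m => fnl p T i (∑ n ∈ Finset.range m, β (σ n) • vec p T (σ n)))
      atTop (𝓝 (β i)) := by
    apply tendsto_const_nhds.congr'
    filter_upwards [eventually_gt_atTop (σ.symm i)] with m hm
    rw [map_sum]
    simp only [map_smul, fnl_vec, smul_eq_mul, mul_ite, mul_one, mul_zero]
    rw [Finset.sum_eq_single (σ.symm i)]
    · rw [Equiv.apply_symm_apply, if_pos rfl]
    · intro n _ hn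
      rw [if_neg]
      intro h'
      apply hn
      rw [h', Equiv.symm_apply_apply]
    · intro hn
      exact absurd (Finset.mem_range.mpr hm) hn
  exact tendsto_nhds_unique h2 h1

lemma coeff_unique_enum [Fact (1 ≤ p)] (hcont : ∀ i, Continuous (fnl p T i)) (σ : ℕ ≃ Σ c, K c)
    (α : ℕ → 𝕜) (y : lp V p)
    (h : Tendsto (fun m => ∑ n ∈ Finset.range m, α n • vec p T (σ n)) atTop (𝓝 y))
    (n : ℕ) : α n = fnl p T (σ n) y := by
  have h1 : Tendsto (fun m => ∑ n ∈ Finset.range m, (fun i => α (σ.symm i)) (σ n) •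
      vec p T (σ n)) atTop (𝓝 y) := by
    simpa only [Equiv.symm_apply_apply] using h
  have h2 := coeff_unique p T hcont σ (fun i => α (σ.symm i)) y h1 (σ n)
  simpa only [Equiv.symm_apply_apply] using h2

end general

section lex

variable (N : ℕ → ℕ) (hN : ∀ c, 0 < N c) (p : ℝ≥0∞) [Fact (1 ≤ p)]
  (T : ∀ c, (Fin (N c) → 𝕜) ≃ₗ[𝕜] V c)

/-- block order, with a permutation inside each block -/
noncomputable def ordr (π : ∀ c, Equiv.Perm (Fin (N c))) : ℕ ≃ Σ c, Fin (N c) :=
  (lexE N hN).trans (Equiv.sigmaCongrRight π)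

lemma ordr_symm (π : ∀ c, Equiv.Perm (Fin (N c))) (c : ℕ) (k : Fin (N c)) :
    (ordr N hN π).symm ⟨c, k⟩ = pos N ⟨c, (π c).symm k⟩ := rfl

theorem tendsto_ordr (hp : p ≠ ⊤) (π : ∀ c, Equiv.Perm (Fin (N c))) (y : lp V p) (C : ℝ)
    (hC : 0 ≤ C)
    (hpre : ∀ c k', ‖T c (fun l => if ((π c).symm l : ℕ) < k' then fnl p T ⟨c, l⟩ y else 0)‖ ≤
      C * ‖y c‖) :
    Tendsto (fun m => ∑ n ∈ Finset.range m, fnl p T (ordr N hN π n) y • vec p T (ordr N hN π n))
      atTop (𝓝 y) := by
  have h1 := (lp.hasSum_single (E := V) hp y).tendsto_sum_nat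
  have h2 : Tendsto (fun m => ∑ d ∈ Finset.range ((lexE N hN m).1), lp.single p d (y d))
      atTop (𝓝 y) := h1.comp (tendsto_block N hN)
  rw [tendsto_iff_norm_sub_tendsto_zero] at h2 ⊢
  have h3 := h2.const_mul (1 + C)
  rw [mul_zero] at h3
  refine squeeze_zero (fun _ => norm_nonneg _) (fun m => ?_) h3
  have hnorm : ‖(((1 + C : ℝ) : ℝ) : 𝕜) • (∑ d ∈ Finset.range ((lexE N hN m).1),
      lp.single p d (y d) - y)‖ =
      (1 + C) * ‖∑ d ∈ Finset.range ((lexE N hN m).1), lp.single p d (y d) - y‖ := by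
    rw [norm_smul, RCLike.norm_ofReal, abs_of_nonneg (by positivity)]
  rw [← hnorm]
  have hp0 : p ≠ 0 := (zero_lt_one.trans_le Fact.out).ne'
  apply lp.norm_mono hp0
  intro d
  rw [lp.coeFn_sub, Pi.sub_apply, lp.coeFn_smul, Pi.smul_apply, norm_smul, RCLike.norm_ofReal,
    abs_of_nonneg (by positivity), lp.coeFn_sub, Pi.sub_apply,
    psum_apply p T (ordr N hN π) (fun i => fnl p T i y) m d]
  have hS : (∑ d ∈ Finset.range ((lexE N hN m).1), lp.single p d (y d) : lp V p) d =
      if d < (lexE N hN m).1 then y d else 0 := by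
    rw [lp.coeFn_sum, Finset.sum_apply]
    simp only [lp.single_apply]
    by_cases h : d < (lexE N hN m).1
    · rw [if_pos h, Finset.sum_eq_single d]
      · rw [Pi.single_eq_same]
      · intro b _ hb
        rw [Pi.single_eq_of_ne (Ne.symm hb)]
      · intro hd
        exact absurd (Finset.mem_range.mpr h) hd
    · rw [if_neg h, Finset.sum_eq_zero]
      intro b hb
      rw [Pi.single_eq_of_ne]
      intro hbd
      rw [Finset.mem_range] at hb
      omega
  rw [hS]
  rcases lt_trichotomy d (lexE N hN m).1 with h | h | h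
  · rw [if_pos h, sub_self, norm_zero, mul_zero]
    have : (fun k : Fin (N d) => if (ordr N hN π).symm ⟨d, k⟩ < m then fnl p T ⟨d, k⟩ y else 0) =
        fun k => fnl p T ⟨d, k⟩ y := by
      funext k
      rw [ordr_symm, if_pos]
      rw [pos_lt_iff N hN]
      exact Or.inl h
    rw [this, ← apply_eq p T y d, sub_self, norm_zero]
  · rw [if_neg (by omega), zero_sub, norm_neg]
    have : (fun k : Fin (N d) => if (ordr N hN π).symm ⟨d, k⟩ < m then fnl p T ⟨d, k⟩ y else 0) =
        fun k => if ((π d).symm k : ℕ) < ((lexE N hN m).2 : ℕ) then fnl p T ⟨d, k⟩ y else 0 := by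
      funext k
      have hiff : (ordr N hN π).symm ⟨d, k⟩ < m ↔
          ((π d).symm k : ℕ) < ((lexE N hN m).2 : ℕ) := by
        rw [ordr_symm, pos_lt_iff N hN]
        constructor
        · rintro (h' | h')
          · exact absurd h (ne_of_lt h')
          · exact h'.2
        · intro h'
          exact Or.inr ⟨h, h'⟩
      simp only [hiff]
    rw [this]
    have h4 := hpre d ((lexE N hN m).2 : ℕ)
    calc _ ≤ _ + ‖y d‖ := norm_sub_le _ _
      _ ≤ C * ‖y d‖ + ‖y d‖ := by linarith
      _ = (1 + C) * ‖y d‖ := by ring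
  · rw [if_neg (by omega), zero_sub, norm_neg]
    have : (fun k : Fin (N d) => if (ordr N hN π).symm ⟨d, k⟩ < m then fnl p T ⟨d, k⟩ y else 0) =
        0 := by
      funext k
      rw [ordr_symm, if_neg]
      · rfl
      · rw [pos_lt_iff N hN]
        rintro (h' | h')
        · change d < _ at h'
          omega
        · have h'' : d = (lexE N hN m).1 := h'.1
          omega
    rw [this, map_zero, zero_sub, norm_neg]
    nlinarith [norm_nonneg (y d)]

end lex

end Pool.Agent.R267.BS
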