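import Mathlib

set_option autoImplicit false

open Filter Topology
open scoped ENNReal

/-! `ℓ_p`-sums of finite-dimensional blocks with given bases. -/

namespace Pool.Agent.R267.BS

variable {𝕜 : Type} [RCLike 𝕜] {V : ℕ → Type} [∀ c, NormedAddCommGroup (V c)]
  [∀ c, NormedSpace 𝕜 (V c)] {K : ℕ → Type}
  (p : ℝ≥0∞) (T : ∀ c, (K c → 𝕜) ≃ₗ[𝕜] V c)

/-- the coordinate functionals -/
noncomputable def fnl (i : Σ c, K c) : lp V p →ₗ[𝕜] 𝕜 :=
  LinearMap.proj i.2 ∘ₗ (T i.1).symm.toLinearMap ∘ₗ lp.evalₗ V p i.1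

lemma fnl_apply (c : ℕ) (k : K c) (f : lp V p) : fnl p T ⟨c, k⟩ f = (T c).symm (f c) k := rfl

lemma ext_fnl {f g : lp V p} (h : ∀ i, fnl p T i f = fnl p T i g) : f = g := by
  ext c
  apply (T c).symm.injective
  funext k
  exact h ⟨c, k⟩

lemma comp_ext {f g : lp V p} (c : ℕ) (h : ∀ k, fnl p T ⟨c, k⟩ f = fnl p T ⟨c, k⟩ g) :
    f c = g c := by
  apply (T c).symm.injective
  funext k
  exact h k

lemma apply_eq (f : lp V p) (c : ℕ) : f c = T c (fun k => fnl p T ⟨c, k⟩ f) := by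
  apply (T c).symm.injective
  rw [LinearEquiv.symm_apply_apply]
  rfl

variable [∀ c, DecidableEq (K c)]

/-- the basis vectors -/
noncomputable def vec (i : Σ c, K c) : lp V p := lp.single p i.1 (T i.1 (Pi.single i.2 1))

lemma fnl_vec (i j : Σ c, K c) : fnl p T i (vec p T j) = if i = j then 1 else 0 := by
  obtain ⟨c, k⟩ := i
  obtain ⟨d, l⟩ := j
  unfold vec
  rw [fnl_apply, lp.single_apply]
  by_cases h : c = d
  · subst h
    rw [Pi.single_eq_same, LinearEquiv.symm_apply_apply, Pi.single_apply]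
    simp
  · rw [Pi.single_eq_of_ne h, map_zero, if_neg]
    · rfl
    · intro h'
      apply h
      exact (Sigma.mk.inj h').1

lemma fnl_sum (A : Finset (Σ c, K c)) (a : (Σ c, K c) → 𝕜) (i : Σ c, K c) :
    fnl p T i (∑ j ∈ A, a j • vec p T j) = if i ∈ A then a i else 0 := by
  rw [map_sum]
  simp only [map_smul, fnl_vec, smul_eq_mul, mul_ite, mul_one, mul_zero]
  rw [Finset.sum_ite_eq]

lemma sum_apply (A : Finset (Σ c, K c)) (a : (Σ c, K c) → 𝕜) (c : ℕ) :
    (∑ j ∈ A, a j • vec p T j : lp V p) c =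
      T c (fun k => if (⟨c, k⟩ : Σ c, K c) ∈ A then a ⟨c, k⟩ else 0) := by
  rw [apply_eq p T]
  congr 1
  funext k
  exact fnl_sum p T A a ⟨c, k⟩

lemma fnl_sum_enum (e : ℕ ≃ Σ c, K c) (A : Finset ℕ) (b : ℕ → 𝕜) (i : Σ c, K c) :
    fnl p T i (∑ n ∈ A, b n • vec p T (e n)) = if e.symm i ∈ A then b (e.symm i) else 0 := by
  rw [map_sum]
  simp only [map_smul, fnl_vec, smul_eq_mul, mul_ite, mul_one, mul_zero]
  have : ∀ n, (i = e n) ↔ (e.symm i = n) := fun n => (Equiv.symm_apply_eq e).symm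
  simp only [this]
  rw [Finset.sum_ite_eq]

lemma sum_enum_apply (e : ℕ ≃ Σ c, K c) (A : Finset ℕ) (b : ℕ → 𝕜) (c : ℕ) :
    (∑ n ∈ A, b n • vec p T (e n) : lp V p) c =
      T c (fun k => if e.symm ⟨c, k⟩ ∈ A then b (e.symm ⟨c, k⟩) else 0) := by
  rw [apply_eq p T]
  congr 1
  funext k
  exact fnl_sum_enum p T e A b ⟨c, k⟩

lemma single_eq_sum [∀ c, Fintype (K c)] (c : ℕ) (v : V c) :
    lp.single p c v = ∑ k : K c, (T c).symm v k • vec p T ⟨c, k⟩ := by
  apply ext_fnl p T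
  intro i
  rw [map_sum]
  simp only [map_smul, fnl_vec, smul_eq_mul, mul_ite, mul_one, mul_zero]
  obtain ⟨d, l⟩ := i
  rw [fnl_apply, lp.single_apply]
  by_cases h : d = c
  · subst h
    rw [Pi.single_eq_same]
    rw [Finset.sum_eq_single l]
    · simp
    · intro k _ hk
      rw [if_neg]
      intro h'
      apply hk
      simpa using h'.symm
    · simp
  · rw [Pi.single_eq_of_ne h, map_zero, Finset.sum_eq_zero]
    · rfl
    · intro k _
      rw [if_neg]
      intro h'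
      exact h (Sigma.mk.inj h').1

variable [Fact (1 ≤ p)]

lemma dense_span [∀ c, Fintype (K c)] (hp : p ≠ ⊤) (f : lp V p) :
    f ∈ closure ((Submodule.span 𝕜 (Set.range (vec p T)) : Submodule 𝕜 (lp V p)) : Set (lp V p)) := by
  have h := lp.hasSum_single (E := V) hp f
  apply mem_closure_of_tendsto h
  refine Eventually.of_forall fun s => ?_
  apply Submodule.sum_mem
  intro c _
  rw [single_eq_sum p T]
  apply Submodule.sum_mem
  intro k _
  exact Submodule.smul_mem _ _ (Submodule.subset_span ⟨_, rfl⟩)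

end Pool.Agent.R267.BS
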