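import Pool.Agent.R267.Trunc

set_option autoImplicit false

open Filter Topology

/-! The finite-dimensional blocks of a conditional basis with good truncations. -/

namespace Pool.Agent.R267.CB

open Pool.Agent.R267.TR

/-- harmonic numbers -/
noncomputable def har (K : ℕ) : ℝ := ∑ l ∈ Finset.range K, 1 / ((l : ℝ) + 1)

lemma har_nonneg (K : ℕ) : 0 ≤ har K := by
  unfold har
  exact Finset.sum_nonneg fun _ _ => by positivity

lemma har_mono {K L : ℕ} (h : K ≤ L) : har K ≤ har L := by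
  unfold har
  exact Finset.sum_le_sum_of_subset_of_nonneg (Finset.range_mono h) (fun _ _ _ => by positivity)

/-- normalization -/
noncomputable def gam (K : ℕ) : ℝ := 1 / Real.sqrt (har K)

lemma gam_nonneg (K : ℕ) : 0 ≤ gam K := by unfold gam; positivity

lemma gam_sq_mul (K : ℕ) : gam K ^ 2 * har K ≤ 1 := by
  unfold gam
  rcases eq_or_lt_of_le (har_nonneg K) with h | h
  · rw [← h, mul_zero]; exact zero_le_one
  · rw [div_pow, one_pow, Real.sq_sqrt h.le, one_div, inv_mul_cancel₀ h.ne']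

/-- the kernel -/
noncomputable def al (K l : ℕ) : ℝ := gam K / ((l : ℝ) + 1)

lemma al_nonneg (K l : ℕ) : 0 ≤ al K l := by
  unfold al
  have := gam_nonneg K
  positivity

lemma sum_al_sq (K L : ℕ) (h : L ≤ K) : ∑ l ∈ Finset.range L, al K l ^ 2 ≤ 1 := by
  refine le_trans ?_ (gam_sq_mul K)
  refine le_trans ?_ (mul_le_mul_of_nonneg_left (har_mono h) (sq_nonneg _))
  unfold har al
  rw [Finset.mul_sum]
  apply Finset.sum_le_sum
  intro l _
  rw [div_pow]
  have h1 : (1 : ℝ) ≤ (l : ℝ) + 1 := by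
    have : (0 : ℝ) ≤ l := by positivity
    linarith
  have h2 : (l : ℝ) + 1 ≤ ((l : ℝ) + 1) ^ 2 := by nlinarith
  rw [mul_one_div]
  apply div_le_div_of_nonneg_left (sq_nonneg _) (by linarith) h2

/-- telescoping estimate -/
lemma tele (i : ℕ) : ∀ m, m ≤ i →
    ∑ n ∈ Finset.range m, 1 / (((i - n : ℕ) : ℝ) + 1) ^ 2 ≤
      1 / (((i - m : ℕ) : ℝ) + 1) - 1 / ((i : ℝ) + 1) := by
  intro m
  induction m with
  | zero => intro _; simp
  | succ m ih =>
    intro hm
    rw [Finset.sum_range_succ]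
    have h1 := ih (by omega)
    obtain ⟨j, hj⟩ : ∃ j, i = m + 1 + j := ⟨i - (m + 1), by omega⟩
    have e1 : i - m = j + 1 := by omega
    have e2 : i - (m + 1) = j := by omega
    rw [e1] at h1 ⊢
    rw [e2]
    have hj0 : (0 : ℝ) ≤ j := by positivity
    have h2 : 1 / (((j + 1 : ℕ) : ℝ) + 1) ^ 2 ≤ 1 / ((j : ℝ) + 1) - 1 / (((j + 1 : ℕ) : ℝ) + 1) := by
      push_cast
      rw [div_sub_div _ _ (by positivity) (by positivity), div_le_div_iff₀ (by positivity)
        (by positivity)]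
      nlinarith
    linarith

lemma corner_row (K i m : ℕ) (h : m ≤ i) :
    ∑ n ∈ Finset.range m, al K (i - n) ^ 2 ≤ gam K ^ 2 * (1 / (((i - m : ℕ) : ℝ) + 1)) := by
  have h1 := tele i m h
  have h2 : ∑ n ∈ Finset.range m, al K (i - n) ^ 2 =
      gam K ^ 2 * ∑ n ∈ Finset.range m, 1 / (((i - n : ℕ) : ℝ) + 1) ^ 2 := by
    rw [Finset.mul_sum]
    apply Finset.sum_congr rfl
    intro n _
    unfold al
    rw [div_pow, mul_one_div]
  rw [h2]
  apply mul_le_mul_of_nonneg_left _ (sq_nonneg _)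
  have : (0 : ℝ) ≤ 1 / ((i : ℝ) + 1) := by positivity
  linarith

/-- the weights of the corner rows -/
noncomputable def cr (K m i : ℕ) : ℝ := if m ≤ i then gam K ^ 2 * (1 / (((i - m : ℕ) : ℝ) + 1)) else 0

lemma cr_nonneg (K m i : ℕ) : 0 ≤ cr K m i := by
  unfold cr
  split_ifs
  · positivity
  · exact le_refl _

lemma sum_cr (K m : ℕ) : ∑ i ∈ Finset.range K, cr K m i ≤ 1 := by
  unfold cr
  rw [← Finset.sum_filter]
  have h1 : (Finset.range K).filter (fun i => m ≤ i) = Finset.Ico m K := by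
    ext i
    simp only [Finset.mem_filter, Finset.mem_range, Finset.mem_Ico]
    tauto
  rw [h1, Finset.sum_Ico_eq_sum_range, ← Finset.mul_sum]
  refine le_trans (mul_le_mul_of_nonneg_left (le_trans (le_of_eq ?_) (har_mono (Nat.sub_le K m)))
    (sq_nonneg _)) (gam_sq_mul K)
  unfold har
  apply Finset.sum_congr rfl
  intro l _
  rw [Nat.add_sub_cancel_left]

variable {𝕜 : Type} [RCLike 𝕜]

lemma norm_al (K l : ℕ) : ‖((al K l : ℝ) : 𝕜)‖ = al K l := by
  rw [RCLike.norm_ofReal, abs_of_nonneg (al_nonneg _ _)]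

/-- Cauchy–Schwarz -/
lemma cs {ι : Type} (s : Finset ι) (f g : ι → 𝕜) :
    ‖∑ i ∈ s, f i * g i‖ ^ 2 ≤ (∑ i ∈ s, ‖f i‖ ^ 2) * ∑ i ∈ s, ‖g i‖ ^ 2 := by
  have h1 : ‖∑ i ∈ s, f i * g i‖ ≤ ∑ i ∈ s, ‖f i‖ * ‖g i‖ := by
    refine (norm_sum_le _ _).trans (le_of_eq ?_)
    exact Finset.sum_congr rfl fun i _ => norm_mul _ _
  calc _ ≤ (∑ i ∈ s, ‖f i‖ * ‖g i‖) ^ 2 := pow_le_pow_left₀ (norm_nonneg _) h1 2
    _ ≤ _ := Finset.sum_mul_sq_le_sq_mul_sq s _ _

/-- the triangular Toeplitz operator -/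
noncomputable def Aop (K : ℕ) (lam : ℕ → 𝕜) (i : ℕ) : 𝕜 :=
  ∑ n ∈ Finset.range (i + 1), ((al K (i - n) : ℝ) : 𝕜) * lam n

lemma Aop_add (K : ℕ) (l l' : ℕ → 𝕜) (i : ℕ) :
    Aop K (fun n => l n + l' n) i = Aop K l i + Aop K l' i := by
  unfold Aop
  rw [← Finset.sum_add_distrib]
  exact Finset.sum_congr rfl fun n _ => by ring

lemma Aop_smul (K : ℕ) (r : 𝕜) (l : ℕ → 𝕜) (i : ℕ) :
    Aop K (fun n => r * l n) i = r * Aop K l i := by
  unfold Aop
  rw [Finset.mul_sum]
  exact Finset.sum_congr rfl fun n _ => by ring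

/-- truncations of the row vector -/
def cut (m : ℕ) (lam : ℕ → 𝕜) (n : ℕ) : 𝕜 := if n < m then lam n else 0

lemma Aop_cut_le (K m : ℕ) (hm : m ≤ K) (lam : ℕ → 𝕜) :
    ∑ i ∈ Finset.range K, ‖Aop K (cut m lam) i‖ ^ 2 ≤
      ∑ i ∈ Finset.range K, ‖Aop K lam i‖ ^ 2 + ∑ n ∈ Finset.range K, ‖lam n‖ ^ 2 := by
  set L := ∑ n ∈ Finset.range K, ‖lam n‖ ^ 2 with hL
  have hL0 : 0 ≤ L := Finset.sum_nonneg fun _ _ => by positivity
  have key : ∀ i ∈ Finset.range K, ‖Aop K (cut m lam) i‖ ^ 2 ≤ ‖Aop K lam i‖ ^ 2 + cr K m i * L := by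
    intro i _
    by_cases h : m ≤ i
    · have h1 : Aop K (cut m lam) i = ∑ n ∈ Finset.range m, ((al K (i - n) : ℝ) : 𝕜) * lam n := by
        unfold Aop cut
        have h2 : Finset.range m ⊆ Finset.range (i + 1) := Finset.range_mono (by omega)
        rw [← Finset.sum_subset h2]
        · apply Finset.sum_congr rfl
          intro n hn
          rw [if_pos (Finset.mem_range.mp hn)]
        · intro n _ hn
          rw [Finset.mem_range] at hn
          rw [if_neg hn, mul_zero]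
      have h3 := cs (Finset.range m) (fun n => ((al K (i - n) : ℝ) : 𝕜)) lam
      simp only [norm_al] at h3
      have h4 := corner_row K i m h
      have h5 : ∑ n ∈ Finset.range m, ‖lam n‖ ^ 2 ≤ L :=
        Finset.sum_le_sum_of_subset_of_nonneg (Finset.range_mono hm) (fun _ _ _ => by positivity)
      have h6 : ‖Aop K (cut m lam) i‖ ^ 2 ≤ cr K m i * L := by
        rw [h1]
        refine h3.trans ?_
        unfold cr
        rw [if_pos h]
        exact mul_le_mul h4 h5 (Finset.sum_nonneg fun _ _ => by positivity)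
          (by positivity)
      have : 0 ≤ ‖Aop K lam i‖ ^ 2 := by positivity
      linarith
    · have h1 : Aop K (cut m lam) i = Aop K lam i := by
        unfold Aop cut
        apply Finset.sum_congr rfl
        intro n hn
        rw [Finset.mem_range] at hn
        rw [if_pos (by omega)]
      rw [h1]
      unfold cr
      rw [if_neg h, zero_mul, add_zero]
  refine (Finset.sum_le_sum key).trans ?_
  rw [Finset.sum_add_distrib, ← Finset.sum_mul]
  have h1 := mul_le_mul_of_nonneg_right (sum_cr K m) hL0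
  linarith

/-- the operator on a unit vector -/
lemma Aop_single_le (K r : ℕ) (ρ : 𝕜) :
    ∑ i ∈ Finset.range K, ‖Aop K (fun n => if n = r then ρ else 0) i‖ ^ 2 ≤ ‖ρ‖ ^ 2 := by
  have key : ∀ i ∈ Finset.range K, ‖Aop K (fun n => if n = r then ρ else 0) i‖ ^ 2 =
      if r ≤ i then al K (i - r) ^ 2 * ‖ρ‖ ^ 2 else 0 := by
    intro i _
    unfold Aop
    simp only [mul_ite, mul_zero]
    rw [Finset.sum_ite_eq']
    by_cases h : r ≤ i
    · rw [if_pos (Finset.mem_range.mpr (by omega)), if_pos h, norm_mul, norm_al, mul_pow]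
    · rw [if_neg (by rw [Finset.mem_range]; omega), if_neg h, norm_zero, zero_pow two_ne_zero]
  rw [Finset.sum_congr rfl key, ← Finset.sum_filter]
  have h1 : (Finset.range K).filter (fun i => r ≤ i) = Finset.Ico r K := by
    ext i
    simp only [Finset.mem_filter, Finset.mem_range, Finset.mem_Ico]
    tauto
  rw [h1, Finset.sum_Ico_eq_sum_range, ← Finset.sum_mul]
  have h2 : ∑ l ∈ Finset.range (K - r), al K (r + l - r) ^ 2 =
      ∑ l ∈ Finset.range (K - r), al K l ^ 2 := by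
    apply Finset.sum_congr rfl
    intro l _
    rw [Nat.add_sub_cancel_left]
  rw [h2]
  calc _ ≤ 1 * ‖ρ‖ ^ 2 := mul_le_mul_of_nonneg_right (sum_al_sq K _ (Nat.sub_le _ _)) (by positivity)
    _ = _ := one_mul _

/-- the transpose -/
noncomputable def mu (K : ℕ) (ν : ℕ → 𝕜) (k : ℕ) : 𝕜 :=
  ∑ i ∈ Finset.Ico k K, ((al K (i - k) : ℝ) : 𝕜) * ν i

lemma mu_sq_le (K : ℕ) (ν : ℕ → 𝕜) (k : ℕ) :
    ‖mu K ν k‖ ^ 2 ≤ ∑ i ∈ Finset.range K, ‖ν i‖ ^ 2 := by
  unfold mu
  refine (cs _ _ _).trans ?_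
  simp only [norm_al]
  have h1 : ∑ i ∈ Finset.Ico k K, al K (i - k) ^ 2 ≤ 1 := by
    rw [Finset.sum_Ico_eq_sum_range]
    have h2 : ∑ l ∈ Finset.range (K - k), al K (k + l - k) ^ 2 =
        ∑ l ∈ Finset.range (K - k), al K l ^ 2 := by
      apply Finset.sum_congr rfl
      intro l _
      rw [Nat.add_sub_cancel_left]
    rw [h2]
    exact sum_al_sq K _ (Nat.sub_le _ _)
  have h2 : ∑ i ∈ Finset.Ico k K, ‖ν i‖ ^ 2 ≤ ∑ i ∈ Finset.range K, ‖ν i‖ ^ 2 := by
    apply Finset.sum_le_sum_of_subset_of_nonneg _ (fun _ _ _ => by positivity)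
    intro i hi
    rw [Finset.mem_Ico] at hi
    exact Finset.mem_range.mpr hi.2
  calc _ ≤ 1 * ∑ i ∈ Finset.Ico k K, ‖ν i‖ ^ 2 :=
        mul_le_mul_of_nonneg_right h1 (Finset.sum_nonneg fun _ _ => by positivity)
    _ ≤ _ := by rw [one_mul]; exact h2

lemma pairing_rows (K : ℕ) (ν lam : ℕ → 𝕜) :
    ∑ k ∈ Finset.range K, mu K ν k * lam k = ∑ i ∈ Finset.range K, ν i * Aop K lam i := by
  unfold mu Aop
  simp only [Finset.sum_mul, Finset.mul_sum]
  rw [Finset.sum_comm' (t' := Finset.range K) (s' := fun i => Finset.range (i + 1))]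
  · apply Finset.sum_congr rfl
    intro i _
    apply Finset.sum_congr rfl
    intro n _
    ring
  · intro k i
    simp only [Finset.mem_range, Finset.mem_Ico]
    omega

/-- row of an index -/
def row (i : ℕ) : ℕ := Nat.log 4 (i + 1)

lemma row_lt_iff (i k : ℕ) : row i < k ↔ i + 1 < 4 ^ k := by
  unfold row
  rw [Nat.log_lt_iff_lt_pow (by norm_num) (by omega)]

lemma row_mono {i j : ℕ} (h : i ≤ j) : row i ≤ row j := by
  unfold row
  exact Nat.log_mono_right (by omega)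

/-- the weight -/
noncomputable def w (k : ℕ) : ℝ := (1 / 2) ^ (k + 1)

lemma w_pos (k : ℕ) : 0 < w k := by unfold w; positivity

lemma w_le (k : ℕ) : w k ≤ 1 / 2 := by
  unfold w
  rw [pow_succ]
  have : (1 / 2 : ℝ) ^ k ≤ 1 := pow_le_one₀ (by norm_num) (by norm_num)
  linarith

/-- the number of indices in rows below `k` -/
lemma card_rows {N : ℕ} (k : ℕ) :
    ((Finset.univ.filter (fun i : Fin N => row i < k)).card : ℝ) ≤ 4 ^ k := by
  have h : (Finset.univ.filter (fun i : Fin N => row i < k)).card ≤ (Finset.range (4 ^ k)).card := by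
    apply Finset.card_le_card_of_injOn (fun i : Fin N => (i : ℕ))
    · intro i hi
      have := (Finset.mem_filter.mp hi).2
      rw [row_lt_iff] at this
      exact Finset.mem_coe.mpr (Finset.mem_range.mpr (by change (i : ℕ) < 4 ^ k; omega))
    · intro i _ j _ hij
      exact Fin.ext hij
  rw [Finset.card_range] at h
  exact_mod_cast h

lemma card_row {N : ℕ} (k : ℕ) :
    ((Finset.univ.filter (fun i : Fin N => row i = k)).card : ℝ) ≤ 4 ^ (k + 1) := by
  refine le_trans ?_ (card_rows (N := N) (k + 1))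
  have : (Finset.univ.filter (fun i : Fin N => row i = k)) ⊆
      (Finset.univ.filter (fun i : Fin N => row i < k + 1)) := by
    intro i hi
    rw [Finset.mem_filter] at hi ⊢
    exact ⟨hi.1, by omega⟩
  exact_mod_cast Finset.card_le_card this

/-- the row averages -/
noncomputable def lamb {N : ℕ} (a : Fin N → 𝕜) (k : ℕ) : 𝕜 :=
  ((w k : ℝ) : 𝕜) * ∑ i : Fin N, if row i = k then a i else 0

lemma lamb_sq_le {N : ℕ} (a : Fin N → 𝕜) (k : ℕ) :
    ‖lamb a k‖ ^ 2 ≤ ∑ i : Fin N, if row i = k then ‖a i‖ ^ 2 else 0 := by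
  unfold lamb
  rw [norm_mul, RCLike.norm_ofReal, abs_of_pos (w_pos k), mul_pow]
  have h1 : ‖∑ i : Fin N, if row i = k then a i else 0‖ ^ 2 ≤
      ((Finset.univ.filter (fun i : Fin N => row i = k)).card : ℝ) *
        ∑ i : Fin N, if row i = k then ‖a i‖ ^ 2 else 0 := by
    rw [← Finset.sum_filter, ← Finset.sum_filter]
    have h2 := norm_sum_le (Finset.univ.filter (fun i : Fin N => row i = k)) a
    calc _ ≤ (∑ i ∈ Finset.univ.filter (fun i : Fin N => row i = k), ‖a i‖) ^ 2 :=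
          pow_le_pow_left₀ (norm_nonneg _) h2 2
      _ ≤ _ := sq_sum_le_card_mul_sum_sq
  set S := ∑ i : Fin N, if row i = k then ‖a i‖ ^ 2 else 0 with hS
  have hS0 : 0 ≤ S := Finset.sum_nonneg fun i _ => by split_ifs <;> positivity
  have h3 : w k ^ 2 * (4 : ℝ) ^ (k + 1) = 1 := by
    unfold w
    rw [← pow_mul, mul_comm (k + 1) 2, pow_mul, ← mul_pow]
    norm_num
  have hw : 0 ≤ w k ^ 2 := by positivity
  calc _ ≤ w k ^ 2 * (((Finset.univ.filter (fun i : Fin N => row i = k)).card : ℝ) * S) :=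
        mul_le_mul_of_nonneg_left h1 hw
    _ ≤ w k ^ 2 * (4 ^ (k + 1) * S) :=
        mul_le_mul_of_nonneg_left (mul_le_mul_of_nonneg_right (card_row k) hS0) hw
    _ = (w k ^ 2 * 4 ^ (k + 1)) * S := by ring
    _ = S := by rw [h3, one_mul]

lemma sum_lamb_sq_le {N : ℕ} (K : ℕ) (a : Fin N → 𝕜) :
    ∑ k ∈ Finset.range K, ‖lamb a k‖ ^ 2 ≤ ∑ i : Fin N, ‖a i‖ ^ 2 := by
  refine (Finset.sum_le_sum fun k _ => lamb_sq_le a k).trans ?_
  rw [Finset.sum_comm]
  apply Finset.sum_le_sum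
  intro i _
  rw [Finset.sum_ite_eq]
  split_ifs
  · exact le_refl _
  · positivity

end Pool.Agent.R267.CB
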