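import Pool.Agent.R267.CBlock

set_option autoImplicit false

open Filter Topology

namespace Pool.Agent.R267.CB

open Pool.Agent.R267.TR

/-- the size of the block with `K` rows -/
def NB (K : ℕ) : ℕ := 4 ^ K - 1

lemma NB_pos {K : ℕ} (hK : 0 < K) : 0 < NB K := by
  unfold NB
  have : 4 ^ 1 ≤ 4 ^ K := Nat.pow_le_pow_right (by norm_num) hK
  omega

lemma row_lt {K : ℕ} (n : Fin (NB K)) : row n < K := by
  rw [row_lt_iff]
  have := n.2
  unfold NB at this
  omega

variable {𝕜 : Type} [RCLike 𝕜] {K : ℕ}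

/-- the second component of the embedding of a block -/
noncomputable def Alam (K : ℕ) (a : Fin (NB K) → 𝕜) (i : ℕ) : 𝕜 := Aop K (lamb a) i

/-- the square of the norm of a block -/
noncomputable def Q (K : ℕ) (a : Fin (NB K) → 𝕜) : ℝ :=
  ∑ n, ‖a n‖ ^ 2 + ∑ i ∈ Finset.range K, ‖Alam K a i‖ ^ 2

/-- the square of the norm of a pair -/
noncomputable def P (K : ℕ) (h : Fin (NB K) → 𝕜) (ν : ℕ → 𝕜) : ℝ :=
  ∑ n, ‖h n‖ ^ 2 + ∑ i ∈ Finset.range K, ‖ν i‖ ^ 2

lemma Q_nonneg (a : Fin (NB K) → 𝕜) : 0 ≤ Q K a := by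
  unfold Q
  exact add_nonneg (Finset.sum_nonneg fun _ _ => by positivity)
    (Finset.sum_nonneg fun _ _ => by positivity)

lemma P_nonneg (h : Fin (NB K) → 𝕜) (ν : ℕ → 𝕜) : 0 ≤ P K h ν := by
  unfold P
  exact add_nonneg (Finset.sum_nonneg fun _ _ => by positivity)
    (Finset.sum_nonneg fun _ _ => by positivity)

/-- the coefficients of the functional of a pair -/
noncomputable def gf (K : ℕ) (h : Fin (NB K) → 𝕜) (ν : ℕ → 𝕜) (n : Fin (NB K)) : 𝕜 :=
  h n + ((w (row n) : ℝ) : 𝕜) * mu K ν (row n)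

lemma sum_rows_eq (m : ℕ → 𝕜) (a : Fin (NB K) → 𝕜) :
    ∑ n : Fin (NB K), (((w (row n) : ℝ) : 𝕜) * m (row n)) * a n =
      ∑ k ∈ Finset.range K, m k * lamb a k := by
  unfold lamb
  simp only [Finset.mul_sum]
  rw [Finset.sum_comm]
  apply Finset.sum_congr rfl
  intro n _
  rw [Finset.sum_eq_single (row n)]
  · rw [if_pos rfl]; ring
  · intro k _ hk
    rw [if_neg (Ne.symm hk), mul_zero, mul_zero]
  · intro h
    exact absurd (Finset.mem_range.mpr (row_lt n)) h

lemma pairing (h : Fin (NB K) → 𝕜) (ν : ℕ → 𝕜) (a : Fin (NB K) → 𝕜) :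
    ∑ n, gf K h ν n * a n = ∑ n, h n * a n + ∑ i ∈ Finset.range K, ν i * Alam K a i := by
  unfold gf
  simp only [add_mul]
  rw [Finset.sum_add_distrib, sum_rows_eq, pairing_rows]
  rfl

/-- the critical row -/
lemma exists_crit (K : ℕ) (b s : ℝ) (hb : 0 ≤ b) (hs : 0 ≤ s) : ∃ k0 ≤ K,
    (∀ n : Fin (NB K), k0 ≤ row n → w (row n) * b ≤ s) ∧
    ((Finset.univ.filter (fun n : Fin (NB K) => row n < k0)).card : ℝ) * s ^ 2 ≤ b ^ 2 := by
  classical
  obtain ⟨k0, hspec, hmin⟩ : ∃ k0, (K ≤ k0 ∨ w k0 * b ≤ s) ∧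
      ∀ j, j < k0 → ¬ (K ≤ j ∨ w j * b ≤ s) := by
    have hex : ∃ k, K ≤ k ∨ w k * b ≤ s := ⟨K, Or.inl le_rfl⟩
    exact ⟨Nat.find hex, Nat.find_spec hex, fun j hj => Nat.find_min hex hj⟩
  have hk0K : k0 ≤ K := by
    by_contra hcon
    push Not at hcon
    exact hmin K hcon (Or.inl le_rfl)
  refine ⟨k0, hk0K, ?_, ?_⟩
  · intro n hn
    rcases hspec with h | h
    · have := row_lt n
      omega
    · refine le_trans ?_ h
      apply mul_le_mul_of_nonneg_right _ hb
      unfold w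
      exact pow_le_pow_of_le_one (by norm_num) (by norm_num) (by omega)
  · rcases Nat.eq_zero_or_pos k0 with h0 | h0
    · rw [h0]
      simp only [Nat.not_lt_zero, Finset.filter_false, Finset.card_empty, Nat.cast_zero, zero_mul]
      positivity
    · obtain ⟨j, hj⟩ : ∃ j, k0 = j + 1 := ⟨k0 - 1, by omega⟩
      have h1 := hmin j (by omega)
      push Not at h1
      have h2 := card_rows (N := NB K) k0
      have h3 : s ^ 2 ≤ (w j * b) ^ 2 := pow_le_pow_left₀ hs h1.2.le 2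
      have h4 : (4 : ℝ) ^ (j + 1) * w j ^ 2 = 1 := by
        unfold w
        rw [← pow_mul, mul_comm (j + 1) 2, pow_mul, ← mul_pow]
        norm_num
      calc _ ≤ (4 : ℝ) ^ k0 * s ^ 2 := mul_le_mul_of_nonneg_right h2 (sq_nonneg _)
        _ ≤ (4 : ℝ) ^ k0 * (w j * b) ^ 2 := mul_le_mul_of_nonneg_left h3 (by positivity)
        _ = ((4 : ℝ) ^ (j + 1) * w j ^ 2) * b ^ 2 := by rw [hj]; ring
        _ = b ^ 2 := by rw [h4, one_mul]

lemma lamb_sub (a a' : Fin (NB K) → 𝕜) (k : ℕ) : lamb (a - a') k = lamb a k - lamb a' k := by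
  unfold lamb
  rw [← mul_sub, ← Finset.sum_sub_distrib]
  congr 1
  apply Finset.sum_congr rfl
  intro n _
  split_ifs
  · rfl
  · rw [sub_zero]

lemma norm_add_sq_le {E : Type} [SeminormedAddCommGroup E] (x y : E) :
    ‖x + y‖ ^ 2 ≤ 2 * (‖x‖ ^ 2 + ‖y‖ ^ 2) := by
  have h := norm_add_le x y
  have h1 : ‖x + y‖ ^ 2 ≤ (‖x‖ + ‖y‖) ^ 2 := pow_le_pow_left₀ (norm_nonneg _) h 2
  nlinarith [sq_nonneg (‖x‖ - ‖y‖)]

lemma norm_add3_sq_le {E : Type} [SeminormedAddCommGroup E] (x y z : E) :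
    ‖x + y + z‖ ^ 2 ≤ 3 * (‖x‖ ^ 2 + ‖y‖ ^ 2 + ‖z‖ ^ 2) := by
  have h : ‖x + y + z‖ ≤ ‖x‖ + ‖y‖ + ‖z‖ := norm_add₃_le
  have h1 : ‖x + y + z‖ ^ 2 ≤ (‖x‖ + ‖y‖ + ‖z‖) ^ 2 := pow_le_pow_left₀ (norm_nonneg _) h 2
  nlinarith [sq_nonneg (‖x‖ - ‖y‖), sq_nonneg (‖y‖ - ‖z‖), sq_nonneg (‖x‖ - ‖z‖)]

/-- the truncation bound on a block -/
lemma trunc_bound (h : Fin (NB K) → 𝕜) (ν : ℕ → 𝕜) (a : Fin (NB K) → 𝕜) (s : ℝ) (hs : 0 ≤ s) :
    ‖∑ n, tr s (gf K h ν n) * a n‖ ^ 2 ≤ 18 * (P K h ν * Q K a) := by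
  classical
  set b2 : ℝ := ∑ i ∈ Finset.range K, ‖ν i‖ ^ 2 with hb2
  have hb20 : 0 ≤ b2 := Finset.sum_nonneg fun _ _ => by positivity
  set b : ℝ := Real.sqrt b2 with hb
  have hb0 : 0 ≤ b := Real.sqrt_nonneg _
  have hbsq : b ^ 2 = b2 := Real.sq_sqrt hb20
  obtain ⟨k0, hk0, hcrit, hcard⟩ := exists_crit K b s hb0 hs
  set m : Fin (NB K) → 𝕜 := fun n => ((w (row n) : ℝ) : 𝕜) * mu K ν (row n) with hm
  have hmu : ∀ k, ‖mu K ν k‖ ≤ b := by
    intro k
    apply Real.le_sqrt_of_sq_le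
    exact mu_sq_le K ν k
  have hmn : ∀ n, ‖m n‖ ≤ w (row n) * b := by
    intro n
    rw [hm]
    simp only
    rw [norm_mul, RCLike.norm_ofReal, abs_of_pos (w_pos _)]
    exact mul_le_mul_of_nonneg_left (hmu _) (w_pos _).le
  set Ha := ∑ n, ‖h n‖ ^ 2 with hHa
  set Sa := ∑ n, ‖a n‖ ^ 2 with hSa
  set Ia := ∑ i ∈ Finset.range K, ‖Alam K a i‖ ^ 2 with hIa
  have hHa0 : 0 ≤ Ha := Finset.sum_nonneg fun _ _ => by positivity
  have hSa0 : 0 ≤ Sa := Finset.sum_nonneg fun _ _ => by positivity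
  have hIa0 : 0 ≤ Ia := Finset.sum_nonneg fun _ _ => by positivity
  -- first part
  set T1 := ∑ n, (tr s (h n + m n) - tr s (m n)) * a n with hT1
  have h1 : ‖T1‖ ^ 2 ≤ Ha * Sa := by
    refine (cs _ _ _).trans (mul_le_mul_of_nonneg_right ?_ hSa0)
    apply Finset.sum_le_sum
    intro n _
    apply pow_le_pow_left₀ (norm_nonneg _)
    refine (tr_lipschitz hs _ _).trans (le_of_eq ?_)
    rw [add_sub_cancel_right]
  -- second part
  set T2 := ∑ n : Fin (NB K), (if row n < k0 then tr s (m n) else 0) * a n with hT2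
  have h2 : ‖T2‖ ^ 2 ≤ b2 * Sa := by
    refine (cs _ _ _).trans (mul_le_mul_of_nonneg_right ?_ hSa0)
    rw [← hbsq]
    refine le_trans ?_ hcard
    rw [← nsmul_eq_mul, ← Finset.sum_const, Finset.sum_filter]
    apply Finset.sum_le_sum
    intro n _
    split_ifs
    · exact pow_le_pow_left₀ (norm_nonneg _) (norm_tr_le hs _) 2
    · rw [norm_zero, zero_pow two_ne_zero]
  -- third part
  set a'' : Fin (NB K) → 𝕜 := fun n => if row n < k0 then a n else 0 with ha''
  set T3 := ∑ n, m n * (a - a'') n with hT3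
  have hl : ∀ k, lamb a'' k = cut k0 (lamb a) k := by
    intro k
    unfold lamb cut
    by_cases hk : k < k0
    · rw [if_pos hk]
      congr 1
      apply Finset.sum_congr rfl
      intro n _
      rw [ha'']
      by_cases hr : row n = k
      · rw [if_pos hr, if_pos hr]
        simp only
        rw [if_pos (by omega)]
      · rw [if_neg hr, if_neg hr]
    · rw [if_neg hk, Finset.sum_eq_zero, mul_zero]
      intro n _
      by_cases hr : row n = k
      · rw [if_pos hr, ha'']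
        simp only
        rw [if_neg (by omega)]
      · rw [if_neg hr]
  have h3 : ‖T3‖ ^ 2 ≤ b2 * (2 * (2 * Ia + Sa)) := by
    have e1 : T3 = ∑ i ∈ Finset.range K, ν i * (Alam K a i - Aop K (cut k0 (lamb a)) i) := by
      rw [hT3, hm]
      rw [sum_rows_eq (fun k => mu K ν k) (a - a''), pairing_rows]
      apply Finset.sum_congr rfl
      intro i _
      congr 1
      have e2 : (lamb (a - a'') : ℕ → 𝕜) = fun k => lamb a k + (-1 : 𝕜) * cut k0 (lamb a) k := by
        funext k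
        rw [lamb_sub, hl]
        ring
      rw [e2, Aop_add, Aop_smul]
      unfold Alam
      ring
    rw [e1]
    refine (cs _ _ _).trans (mul_le_mul_of_nonneg_left ?_ hb20)
    have e3 : ∀ i ∈ Finset.range K, ‖Alam K a i - Aop K (cut k0 (lamb a)) i‖ ^ 2 ≤
        2 * (‖Alam K a i‖ ^ 2 + ‖Aop K (cut k0 (lamb a)) i‖ ^ 2) := by
      intro i _
      rw [sub_eq_add_neg]
      refine (norm_add_sq_le _ _).trans ?_
      rw [norm_neg]
    refine (Finset.sum_le_sum e3).trans ?_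
    rw [← Finset.mul_sum, Finset.sum_add_distrib]
    have e4 := Aop_cut_le K k0 hk0 (lamb a)
    have e5 := sum_lamb_sq_le K a
    have e6 : ∑ i ∈ Finset.range K, ‖Aop K (lamb a) i‖ ^ 2 = Ia := rfl
    rw [e6] at e4
    linarith
  have hsum : ∑ n, tr s (gf K h ν n) * a n = T1 + T2 + T3 := by
    rw [hT1, hT2, hT3, ← Finset.sum_add_distrib, ← Finset.sum_add_distrib]
    apply Finset.sum_congr rfl
    intro n _
    have e1 : gf K h ν n = h n + m n := rfl
    rw [e1]
    by_cases hr : row n < k0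
    · rw [if_pos hr]
      have e2 : (a - a'') n = 0 := by
        rw [ha'']
        simp only [Pi.sub_apply]
        rw [if_pos hr, sub_self]
      rw [e2]
      ring
    · rw [if_neg hr]
      have e2 : (a - a'') n = a n := by
        rw [ha'']
        simp only [Pi.sub_apply]
        rw [if_neg hr, sub_zero]
      have e3 : tr s (m n) = m n := tr_of_le ((hmn n).trans (hcrit n (by omega)))
      rw [e2, e3]
      ring
  rw [hsum]
  refine (norm_add3_sq_le T1 T2 T3).trans ?_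
  have hP : P K h ν = Ha + b2 := rfl
  have hQ : Q K a = Sa + Ia := rfl
  rw [hP, hQ]
  nlinarith [mul_nonneg hHa0 hSa0, mul_nonneg hHa0 hIa0, mul_nonneg hb20 hSa0,
    mul_nonneg hb20 hIa0]

/-- the weak-type bound on a block -/
lemma weak_bound (h : Fin (NB K) → 𝕜) (ν : ℕ → 𝕜) (τ : ℝ) (hτ : 0 < τ) :
    ((Finset.univ.filter (fun n => τ < ‖gf K h ν n‖)).card : ℝ) * τ ^ 2 ≤ 4 * P K h ν := by
  classical
  set b2 : ℝ := ∑ i ∈ Finset.range K, ‖ν i‖ ^ 2 with hb2
  have hb20 : 0 ≤ b2 := Finset.sum_nonneg fun _ _ => by positivity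
  set b : ℝ := Real.sqrt b2 with hb
  have hb0 : 0 ≤ b := Real.sqrt_nonneg _
  have hbsq : b ^ 2 = b2 := Real.sq_sqrt hb20
  obtain ⟨k0, hk0, hcrit, hcard⟩ := exists_crit K b (τ / 2) hb0 (by positivity)
  have hmu : ∀ k, ‖mu K ν k‖ ≤ b := by
    intro k
    apply Real.le_sqrt_of_sq_le
    exact mu_sq_le K ν k
  have hsub : Finset.univ.filter (fun n => τ < ‖gf K h ν n‖) ⊆
      Finset.univ.filter (fun n => τ / 2 < ‖h n‖) ∪
        Finset.univ.filter (fun n : Fin (NB K) => row n < k0) := by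
    intro n hn
    rw [Finset.mem_filter] at hn
    rw [Finset.mem_union, Finset.mem_filter, Finset.mem_filter]
    by_cases hr : row n < k0
    · exact Or.inr ⟨Finset.mem_univ _, hr⟩
    · left
      refine ⟨Finset.mem_univ _, ?_⟩
      have h1 := hcrit n (by omega)
      have h2 : ‖gf K h ν n‖ ≤ ‖h n‖ + w (row n) * b := by
        unfold gf
        refine (norm_add_le _ _).trans ?_
        rw [norm_mul, RCLike.norm_ofReal, abs_of_pos (w_pos _)]
        have := mul_le_mul_of_nonneg_left (hmu (row n)) (w_pos (row n)).le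
        linarith
      linarith [hn.2]
  have h1 : ((Finset.univ.filter (fun n => τ / 2 < ‖h n‖)).card : ℝ) * (τ / 2) ^ 2 ≤
      ∑ n, ‖h n‖ ^ 2 := by
    rw [← nsmul_eq_mul, ← Finset.sum_const]
    refine (Finset.sum_le_sum (g := fun n => ‖h n‖ ^ 2) fun n hn => ?_).trans
      (Finset.sum_le_sum_of_subset_of_nonneg (Finset.subset_univ _) (fun _ _ _ => by positivity))
    exact pow_le_pow_left₀ (by positivity) (Finset.mem_filter.mp hn).2.le 2
  have h2 : ((Finset.univ.filter (fun n => τ < ‖gf K h ν n‖)).card : ℝ) ≤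
      ((Finset.univ.filter (fun n => τ / 2 < ‖h n‖)).card : ℝ) +
        ((Finset.univ.filter (fun n : Fin (NB K) => row n < k0)).card : ℝ) := by
    exact_mod_cast (Finset.card_le_card hsub).trans (Finset.card_union_le _ _)
  have hP : P K h ν = ∑ n, ‖h n‖ ^ 2 + b2 := rfl
  rw [hP]
  rw [hbsq] at hcard
  have hτ2 : 0 < τ ^ 2 := by positivity
  nlinarith [mul_le_mul_of_nonneg_right h2 hτ2.le]

lemma gf_norm_le (h : Fin (NB K) → 𝕜) (ν : ℕ → 𝕜) (hP : P K h ν ≤ 1) (n : Fin (NB K)) :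
    ‖gf K h ν n‖ ≤ 2 := by
  have h1 : ‖h n‖ ^ 2 ≤ 1 := by
    have e1 : ‖h n‖ ^ 2 ≤ ∑ n, ‖h n‖ ^ 2 :=
      Finset.single_le_sum (f := fun n => ‖h n‖ ^ 2) (fun _ _ => by positivity) (Finset.mem_univ n)
    have e2 : 0 ≤ ∑ i ∈ Finset.range K, ‖ν i‖ ^ 2 := Finset.sum_nonneg fun _ _ => by positivity
    unfold P at hP
    linarith
  have h2 : ‖mu K ν (row n)‖ ^ 2 ≤ 1 := by
    have e1 := mu_sq_le K ν (row n)
    have e2 : 0 ≤ ∑ n, ‖h n‖ ^ 2 := Finset.sum_nonneg fun _ _ => by positivity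
    unfold P at hP
    linarith
  have h3 : ‖h n‖ ≤ 1 := by nlinarith [norm_nonneg (h n)]
  have h4 : ‖mu K ν (row n)‖ ≤ 1 := by nlinarith [norm_nonneg (mu K ν (row n))]
  unfold gf
  refine (norm_add_le _ _).trans ?_
  rw [norm_mul, RCLike.norm_ofReal, abs_of_pos (w_pos _)]
  have h5 := w_le (row n)
  have h6 := w_pos (row n)
  nlinarith [norm_nonneg (mu K ν (row n))]

/-- norming pairs -/
lemma norming (a : Fin (NB K) → 𝕜) :
    ∑ n, gf K (fun n => (starRingEnd 𝕜) (a n)) (fun i => (starRingEnd 𝕜) (Alam K a i)) n * a n =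
      ((Q K a : ℝ) : 𝕜) := by
  rw [pairing]
  unfold Q
  push_cast
  congr 1
  · apply Finset.sum_congr rfl
    intro n _
    rw [RCLike.conj_mul]
  · apply Finset.sum_congr rfl
    intro n _
    rw [RCLike.conj_mul]

lemma P_conj (a : Fin (NB K) → 𝕜) :
    P K (fun n => (starRingEnd 𝕜) (a n)) (fun i => (starRingEnd 𝕜) (Alam K a i)) = Q K a := by
  unfold P Q
  simp only [RCLike.norm_conj]

/-- prefixes -/
lemma prefix_bound (a : Fin (NB K) → 𝕜) (j : ℕ) :
    Q K (fun n => if (n : ℕ) < j then a n else 0) ≤ 5 * Q K a := by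
  classical
  by_cases hj : NB K ≤ j
  · have : (fun n : Fin (NB K) => if (n : ℕ) < j then a n else 0) = a := by
      funext n
      have := n.2
      rw [if_pos (by omega)]
    rw [this]
    have := Q_nonneg a
    linarith
  · push Not at hj
    set a' : Fin (NB K) → 𝕜 := fun n => if (n : ℕ) < j then a n else 0 with ha'
    set r := row j with hr
    have hrK : r < K := row_lt (⟨j, hj⟩ : Fin (NB K))
    set ρ : 𝕜 := lamb a' r with hρ
    have hSa : ∑ n, ‖a' n‖ ^ 2 ≤ ∑ n, ‖a n‖ ^ 2 := by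
      apply Finset.sum_le_sum
      intro n _
      rw [ha']
      simp only
      split_ifs
      · exact le_refl _
      · rw [norm_zero, zero_pow two_ne_zero]; positivity
    have hρle : ‖ρ‖ ^ 2 ≤ ∑ n, ‖a n‖ ^ 2 := by
      refine (lamb_sq_le a' r).trans (le_trans ?_ hSa)
      apply Finset.sum_le_sum
      intro n _
      split_ifs
      · exact le_refl _
      · positivity
    have hl : (lamb a' : ℕ → 𝕜) = fun k => cut r (lamb a) k + if k = r then ρ else 0 := by
      funext k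
      rcases lt_trichotomy k r with h | h | h
      · rw [if_neg (by omega), add_zero]
        unfold cut
        rw [if_pos h]
        unfold lamb
        congr 1
        apply Finset.sum_congr rfl
        intro n _
        by_cases hn : row n = k
        · rw [if_pos hn, if_pos hn, ha']
          simp only
          rw [if_pos]
          by_contra hcon
          push Not at hcon
          have := row_mono hcon
          omega
        · rw [if_neg hn, if_neg hn]
      · rw [if_pos h]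
        unfold cut
        rw [if_neg (by omega), zero_add, h]
      · rw [if_neg (by omega), add_zero]
        unfold cut
        rw [if_neg (by omega)]
        unfold lamb
        rw [Finset.sum_eq_zero, mul_zero]
        intro n _
        by_cases hn : row n = k
        · rw [if_pos hn, ha']
          simp only
          rw [if_neg]
          intro hcon
          have := row_mono hcon.le
          omega
        · rw [if_neg hn]
    have hI : ∑ i ∈ Finset.range K, ‖Alam K a' i‖ ^ 2 ≤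
        2 * (∑ i ∈ Finset.range K, ‖Alam K a i‖ ^ 2 + 2 * ∑ n, ‖a n‖ ^ 2) := by
      have e1 : ∀ i ∈ Finset.range K, ‖Alam K a' i‖ ^ 2 ≤
          2 * (‖Aop K (cut r (lamb a)) i‖ ^ 2 + ‖Aop K (fun k => if k = r then ρ else 0) i‖ ^ 2) := by
        intro i _
        unfold Alam
        rw [hl, Aop_add]
        exact norm_add_sq_le _ _
      refine (Finset.sum_le_sum e1).trans ?_
      rw [← Finset.mul_sum, Finset.sum_add_distrib]
      have e2 := Aop_cut_le K r hrK.le (lamb a)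
      have e3 := sum_lamb_sq_le K a
      have e4 := Aop_single_le K r ρ
      have e5 : ∑ i ∈ Finset.range K, ‖Aop K (lamb a) i‖ ^ 2 =
        ∑ i ∈ Finset.range K, ‖Alam K a i‖ ^ 2 := rfl
      rw [e5] at e2
      linarith
    have hQ : Q K a' = ∑ n, ‖a' n‖ ^ 2 + ∑ i ∈ Finset.range K, ‖Alam K a' i‖ ^ 2 := rfl
    have hQa : Q K a = ∑ n, ‖a n‖ ^ 2 + ∑ i ∈ Finset.range K, ‖Alam K a i‖ ^ 2 := rfl
    have hI0 : 0 ≤ ∑ i ∈ Finset.range K, ‖Alam K a i‖ ^ 2 :=
      Finset.sum_nonneg fun _ _ => by positivity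
    rw [hQ, hQa]
    linarith

end Pool.Agent.R267.CB
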