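import Pool.Agent.R267.CBlock2

set_option autoImplicit false

open Filter Topology

namespace Pool.Agent.R267.CB

variable {𝕜 : Type} [RCLike 𝕜] {K : ℕ}

lemma rowcard {k : ℕ} (hk : k < K) :
    ((Finset.univ.filter (fun n : Fin (NB K) => row n = k)).card : ℝ) = 3 * 4 ^ k := by
  have h : (Finset.univ.filter (fun n : Fin (NB K) => row n = k)).map Fin.valEmbedding =
      Finset.Ico (4 ^ k - 1) (4 ^ (k + 1) - 1) := by
    ext i
    rw [Finset.mem_map, Finset.mem_Ico]
    have hp : 0 < 4 ^ k := by positivity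
    have hle : 4 ^ (k + 1) ≤ 4 ^ K := Nat.pow_le_pow_right (by norm_num) hk
    constructor
    · rintro ⟨n, hn, rfl⟩
      have h1 := (Finset.mem_filter.mp hn).2
      change 4 ^ k - 1 ≤ (n : ℕ) ∧ (n : ℕ) < 4 ^ (k + 1) - 1
      have h2 : ¬ row n < k := by omega
      have h3 : row n < k + 1 := by omega
      rw [row_lt_iff] at h2 h3
      omega
    · rintro ⟨h1, h2⟩
      refine ⟨⟨i, by unfold NB; omega⟩, ?_, rfl⟩
      rw [Finset.mem_filter]
      refine ⟨Finset.mem_univ _, ?_⟩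
      change row i = k
      have h3 : ¬ row i < k := by rw [row_lt_iff]; omega
      have h4 : row i < k + 1 := by rw [row_lt_iff]; omega
      omega
  have h2 := congrArg Finset.card h
  rw [Finset.card_map, Nat.card_Ico] at h2
  have hp : 0 < 4 ^ k := by positivity
  have h3 : 4 ^ (k + 1) - 1 - (4 ^ k - 1) = 3 * 4 ^ k := by
    rw [pow_succ]; omega
  rw [h2, h3]
  push_cast
  rfl

/-- the spreading weights -/
noncomputable def qv (k : ℕ) : ℝ := 2 ^ (k + 1) / (3 * 4 ^ k)

/-- spreading a row vector over the rows -/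
noncomputable def spread (K : ℕ) (lam : ℕ → 𝕜) (n : Fin (NB K)) : 𝕜 :=
  ((qv (row n) : ℝ) : 𝕜) * lam (row n)

lemma lamb_spread (lam : ℕ → 𝕜) {k : ℕ} (hk : k < K) : lamb (spread K lam) k = lam k := by
  unfold lamb spread
  rw [← Finset.sum_filter]
  have h1 : ∑ n ∈ Finset.univ.filter (fun n : Fin (NB K) => row n = k),
      ((qv (row n) : ℝ) : 𝕜) * lam (row n) =
      ((3 * 4 ^ k : ℝ) : 𝕜) * (((qv k : ℝ) : 𝕜) * lam k) := by
    rw [Finset.sum_congr rfl (g := fun _ => ((qv k : ℝ) : 𝕜) * lam k)]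
    · rw [Finset.sum_const, nsmul_eq_mul, ← rowcard hk]
      norm_cast
    · intro n hn
      rw [(Finset.mem_filter.mp hn).2]
  rw [h1, ← mul_assoc, ← mul_assoc, ← RCLike.ofReal_mul, ← RCLike.ofReal_mul]
  have h2 : w k * (3 * 4 ^ k) * qv k = 1 := by
    unfold w qv
    have h3 : (1 / 2 : ℝ) ^ (k + 1) * 2 ^ (k + 1) = 1 := by rw [← mul_pow]; norm_num
    have h4 : (0 : ℝ) < 3 * 4 ^ k := by positivity
    rw [mul_assoc, mul_div_cancel₀ _ h4.ne', h3]
  rw [h2]
  simp

lemma Alam_spread (lam : ℕ → 𝕜) {i : ℕ} (hi : i < K) : Alam K (spread K lam) i = Aop K lam i := by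
  unfold Alam Aop
  apply Finset.sum_congr rfl
  intro n hn
  rw [Finset.mem_range] at hn
  rw [lamb_spread lam (by omega)]

lemma sum_spread (lam : ℕ → 𝕜) :
    ∑ n, ‖spread K lam n‖ ^ 2 = 4 / 3 * ∑ k ∈ Finset.range K, ‖lam k‖ ^ 2 := by
  have h1 : ∀ n : Fin (NB K), ‖spread K lam n‖ ^ 2 =
      ∑ k ∈ Finset.range K, if row n = k then qv k ^ 2 * ‖lam k‖ ^ 2 else 0 := by
    intro n
    rw [Finset.sum_ite_eq, if_pos (Finset.mem_range.mpr (row_lt n))]
    unfold spread
    have hq : 0 ≤ qv (row n) := by unfold qv; positivity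
    rw [norm_mul, RCLike.norm_ofReal, abs_of_nonneg hq, mul_pow]
  simp only [h1]
  rw [Finset.sum_comm, Finset.mul_sum]
  apply Finset.sum_congr rfl
  intro k hk
  rw [← Finset.sum_filter, Finset.sum_const, nsmul_eq_mul, rowcard (Finset.mem_range.mp hk),
    ← mul_assoc]
  congr 1
  unfold qv
  have h2 : ((2 : ℝ) ^ (k + 1)) ^ 2 = 4 * 4 ^ k := by
    rw [← pow_mul, mul_comm (k + 1) 2, pow_mul, pow_succ]
    norm_num
    ring
  rw [div_pow, h2, mul_pow]
  have h3 : (0 : ℝ) < 4 ^ k := by positivity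
  field_simp

lemma Aop_real (r : ℕ → ℝ) (i : ℕ) :
    ‖Aop K (fun n => ((r n : ℝ) : 𝕜)) i‖ = |∑ n ∈ Finset.range (i + 1), al K (i - n) * r n| := by
  unfold Aop
  rw [← RCLike.norm_ofReal (K := 𝕜)]
  congr 1
  push_cast
  rfl

lemma alt_bound : ∀ m : ℕ, (m % 2 = 0 → 0 ≤ ∑ l ∈ Finset.range m, (-1 : ℝ) ^ l / ((l : ℝ) + 1) ∧
      ∑ l ∈ Finset.range m, (-1 : ℝ) ^ l / ((l : ℝ) + 1) ≤ 1 - 1 / ((m : ℝ) + 1)) ∧
    (m % 2 = 1 → 1 / ((m : ℝ) + 1) ≤ ∑ l ∈ Finset.range m, (-1 : ℝ) ^ l / ((l : ℝ) + 1) ∧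
      ∑ l ∈ Finset.range m, (-1 : ℝ) ^ l / ((l : ℝ) + 1) ≤ 1) := by
  intro m
  induction m with
  | zero => simp
  | succ m ih =>
    have hlt : 1 / (((m + 1 : ℕ) : ℝ) + 1) ≤ 1 / ((m : ℝ) + 1) := by
      apply one_div_le_one_div_of_le (by positivity)
      push_cast
      linarith
    have hpos : 0 < 1 / (((m + 1 : ℕ) : ℝ) + 1) := by positivity
    rw [Finset.sum_range_succ]
    constructor
    · intro h
      obtain ⟨h1, h2⟩ := ih.2 (by omega)
      have h3 : (-1 : ℝ) ^ m = -1 := Odd.neg_one_pow (Nat.odd_iff.mpr (by omega))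
      rw [h3, neg_div]
      constructor <;> linarith
    · intro h
      obtain ⟨h1, h2⟩ := ih.1 (by omega)
      have h3 : (-1 : ℝ) ^ m = 1 := Even.neg_one_pow (Nat.even_iff.mpr (by omega))
      rw [h3]
      constructor <;> linarith

lemma alt_abs (m : ℕ) : |∑ l ∈ Finset.range m, (-1 : ℝ) ^ l / ((l : ℝ) + 1)| ≤ 1 := by
  have hpos : 0 < 1 / ((m : ℝ) + 1) := by positivity
  rw [abs_le]
  rcases Nat.mod_two_eq_zero_or_one m with h | h
  · obtain ⟨h1, h2⟩ := (alt_bound m).1 h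
    constructor <;> linarith
  · obtain ⟨h1, h2⟩ := (alt_bound m).2 h
    constructor <;> linarith

lemma Aop_alt (i : ℕ) (q : ℝ) :
    |∑ n ∈ Finset.range (i + 1), al K (i - n) * ((-1) ^ n * q)| ≤ gam K * |q| := by
  rw [← Finset.sum_range_reflect]
  have h1 : ∀ l ∈ Finset.range (i + 1), al K (i - (i + 1 - 1 - l)) * ((-1) ^ (i + 1 - 1 - l) * q) =
      (gam K * q * (-1) ^ i) * ((-1) ^ l / ((l : ℝ) + 1)) := by
    intro l hl
    rw [Finset.mem_range] at hl
    have e1 : i - (i + 1 - 1 - l) = l := by omega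
    have e2 : (-1 : ℝ) ^ (i + 1 - 1 - l) = (-1) ^ i * (-1) ^ l := by
      have : i + 1 - 1 - l + l = i := by omega
      have h3 : (-1 : ℝ) ^ i = (-1) ^ (i + 1 - 1 - l) * (-1) ^ l := by
        rw [← pow_add, this]
      rw [h3, mul_assoc, ← mul_pow]
      simp
    rw [e1, e2]
    unfold al
    ring
  rw [Finset.sum_congr rfl h1, ← Finset.mul_sum, abs_mul, abs_mul, abs_mul, abs_pow, abs_neg,
    abs_one, one_pow, mul_one, abs_of_nonneg (gam_nonneg K)]
  have := alt_abs (i + 1)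
  calc _ ≤ gam K * |q| * 1 :=
        mul_le_mul_of_nonneg_left this (mul_nonneg (gam_nonneg K) (abs_nonneg q))
    _ = _ := mul_one _

lemma Aop_even (i : ℕ) (q : ℝ) (hq : 0 ≤ q) :
    gam K * q / 2 * har (i / 2 + 1) ≤
      |∑ n ∈ Finset.range (i + 1), al K (i - n) * (if n % 2 = 0 then q else 0)| := by
  have hg := gam_nonneg K
  refine le_trans ?_ (le_abs_self _)
  have h1 : ∑ j ∈ Finset.range (i / 2 + 1), al K (i - 2 * j) * q ≤
      ∑ n ∈ Finset.range (i + 1), al K (i - n) * (if n % 2 = 0 then q else 0) := by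
    have h2 : ∑ j ∈ Finset.range (i / 2 + 1), al K (i - 2 * j) * q =
        ∑ n ∈ (Finset.range (i / 2 + 1)).image (fun j => 2 * j),
          al K (i - n) * (if n % 2 = 0 then q else 0) := by
      rw [Finset.sum_image]
      · apply Finset.sum_congr rfl
        intro j _
        rw [if_pos (by omega)]
      · intro a _ b _ h
        simp only at h
        omega
    rw [h2]
    apply Finset.sum_le_sum_of_subset_of_nonneg
    · intro n hn
      rw [Finset.mem_image] at hn
      obtain ⟨j, hj, rfl⟩ := hn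
      rw [Finset.mem_range] at hj ⊢
      omega
    · intro n _ _
      apply mul_nonneg (al_nonneg _ _)
      split_ifs
      · exact hq
      · exact le_refl _
  refine le_trans ?_ h1
  rw [← Finset.sum_range_reflect]
  unfold har
  rw [Finset.mul_sum]
  apply Finset.sum_le_sum
  intro l hl
  rw [Finset.mem_range] at hl
  unfold al
  have e1 : i - 2 * (i / 2 + 1 - 1 - l) ≤ 2 * l + 1 := by omega
  generalize i - 2 * (i / 2 + 1 - 1 - l) = d at e1 ⊢
  have e2 : (d : ℝ) + 1 ≤ 2 * ((l : ℝ) + 1) := by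
    have : (d : ℝ) ≤ ((2 * l + 1 : ℕ) : ℝ) := by exact_mod_cast e1
    push_cast at this
    linarith
  have e3 : (0 : ℝ) < (d : ℝ) + 1 := by positivity
  have e4 : gam K * q / 2 * (1 / ((l : ℝ) + 1)) = gam K * q / (2 * ((l : ℝ) + 1)) := by
    field_simp
  rw [e4, div_mul_eq_mul_div]
  exact div_le_div_of_nonneg_left (mul_nonneg hg hq) e3 e2

lemma har_four (M : ℕ) : har (4 * M) ≤ har M + 3 := by
  unfold har
  have h1 : ∑ l ∈ Finset.range (4 * M), 1 / ((l : ℝ) + 1) =
      ∑ l ∈ Finset.range M, 1 / ((l : ℝ) + 1) + ∑ l ∈ Finset.Ico M (4 * M), 1 / ((l : ℝ) + 1) := by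
    rw [Finset.range_eq_Ico, Finset.range_eq_Ico, Finset.sum_Ico_consecutive _ (Nat.zero_le _)
      (by omega)]
  rw [h1]
  have h2 : ∑ l ∈ Finset.Ico M (4 * M), 1 / ((l : ℝ) + 1) ≤ 3 := by
    have h3 : ∀ l ∈ Finset.Ico M (4 * M), 1 / ((l : ℝ) + 1) ≤ 1 / ((M : ℝ) + 1) := by
      intro l hl
      rw [Finset.mem_Ico] at hl
      apply one_div_le_one_div_of_le (by positivity)
      have : (M : ℝ) ≤ l := by exact_mod_cast hl.1
      linarith
    refine (Finset.sum_le_sum h3).trans ?_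
    rw [Finset.sum_const, Nat.card_Ico, nsmul_eq_mul, mul_one_div, div_le_iff₀ (by positivity)]
    have : 4 * M - M = 3 * M := by omega
    rw [this]
    push_cast
    linarith
  linarith

lemma one_le_har {M : ℕ} (hM : 0 < M) : 1 ≤ har M := by
  refine le_trans ?_ (har_mono hM)
  unfold har
  simp

/-- the conditional vectors -/
theorem conditional (R : ℝ) : ∃ K : ℕ, 0 < K ∧ ∃ a : Fin (NB K) → 𝕜, Q K a ≤ 3 ∧
    R ≤ Q K (fun n => if row n % 2 = 0 then a n else 0) := by
  have h := Real.tendsto_sum_range_one_div_nat_succ_atTop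
  obtain ⟨M, hM1, hM2⟩ := ((h.eventually_ge_atTop (32 * |R|)).and (eventually_gt_atTop 0)).exists
  change 32 * |R| ≤ har M at hM1
  set K := 4 * M with hK
  have hK0 : 0 < K := by omega
  have hKr : (0 : ℝ) < K := by exact_mod_cast hK0
  set q : ℝ := 1 / Real.sqrt K with hq
  have hq0 : 0 < q := by positivity
  have hq2 : q ^ 2 = 1 / K := by rw [hq, div_pow, one_pow, Real.sq_sqrt hKr.le]
  set r : ℕ → ℝ := fun k => (-1) ^ k * q with hr
  set re : ℕ → ℝ := fun k => if k % 2 = 0 then q else 0 with hre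
  have hg := gam_nonneg K
  have hharK : 1 ≤ har K := one_le_har hK0
  have hharM : 1 ≤ har M := one_le_har hM2
  have hg2 : gam K ^ 2 = 1 / har K := by
    unfold gam
    rw [div_pow, one_pow, Real.sq_sqrt (har_nonneg K)]
  refine ⟨K, hK0, spread K (fun k => ((r k : ℝ) : 𝕜)), ?_, ?_⟩
  · unfold Q
    rw [sum_spread]
    have h1 : ∑ k ∈ Finset.range K, ‖((r k : ℝ) : 𝕜)‖ ^ 2 = 1 := by
      have : ∀ k ∈ Finset.range K, ‖((r k : ℝ) : 𝕜)‖ ^ 2 = 1 / K := by
        intro k _
        rw [RCLike.norm_ofReal, hr]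
        simp only
        rw [abs_mul, abs_pow, abs_neg, abs_one, one_pow, one_mul, abs_of_pos hq0, hq2]
      rw [Finset.sum_congr rfl this, Finset.sum_const, Finset.card_range, nsmul_eq_mul,
        mul_one_div, div_self hKr.ne']
    have h2 : ∑ i ∈ Finset.range K, ‖Alam K (spread K (fun k => ((r k : ℝ) : 𝕜))) i‖ ^ 2 ≤ 1 := by
      have : ∀ i ∈ Finset.range K, ‖Alam K (spread K (fun k => ((r k : ℝ) : 𝕜))) i‖ ^ 2 ≤
          gam K ^ 2 * (1 / K) := by
        intro i hi
        rw [Alam_spread _ (Finset.mem_range.mp hi), Aop_real]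
        have h3 := Aop_alt (K := K) i q
        rw [abs_of_pos hq0] at h3
        calc _ ≤ (gam K * q) ^ 2 := pow_le_pow_left₀ (abs_nonneg _) h3 2
          _ = gam K ^ 2 * (1 / K) := by rw [mul_pow, hq2]
      refine (Finset.sum_le_sum this).trans ?_
      rw [Finset.sum_const, Finset.card_range, nsmul_eq_mul, hg2]
      have h4 : (K : ℝ) * (1 / har K * (1 / K)) = 1 / har K := by
        field_simp
      rw [h4, div_le_one (by linarith)]
      exact hharK
    rw [h1]
    linarith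
  · have h1 : (fun n : Fin (NB K) => if row n % 2 = 0 then
        spread K (fun k => ((r k : ℝ) : 𝕜)) n else 0) = spread K (fun k => ((re k : ℝ) : 𝕜)) := by
      funext n
      unfold spread
      rw [hre, hr]
      simp only
      split_ifs with h2
      · rw [Even.neg_one_pow (Nat.even_iff.mpr h2), one_mul]
      · simp
    rw [h1]
    unfold Q
    have h0 : 0 ≤ ∑ n, ‖spread K (fun k => ((re k : ℝ) : 𝕜)) n‖ ^ 2 :=
      Finset.sum_nonneg fun _ _ => by positivity
    have h2 : ∑ i ∈ Finset.Ico (2 * M) (4 * M), (gam K * q / 2 * har M) ^ 2 ≤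
        ∑ i ∈ Finset.range K, ‖Alam K (spread K (fun k => ((re k : ℝ) : 𝕜))) i‖ ^ 2 := by
      have hsub : Finset.Ico (2 * M) (4 * M) ⊆ Finset.range K := by
        intro i hi
        rw [Finset.mem_Ico] at hi
        exact Finset.mem_range.mpr hi.2
      refine (Finset.sum_le_sum fun i hi => ?_).trans
        (Finset.sum_le_sum_of_subset_of_nonneg hsub (fun _ _ _ => by positivity))
      rw [Alam_spread _ (Finset.mem_range.mp (hsub hi)), Aop_real]
      rw [Finset.mem_Ico] at hi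
      have h3 := Aop_even (K := K) i q hq0.le
      have h4 : har M ≤ har (i / 2 + 1) := har_mono (by omega)
      apply pow_le_pow_left₀ (by positivity)
      refine le_trans (mul_le_mul_of_nonneg_left h4 (by positivity)) h3
    have h3 : ∑ i ∈ Finset.Ico (2 * M) (4 * M), (gam K * q / 2 * har M) ^ 2 =
        har M ^ 2 / (8 * har K) := by
      rw [Finset.sum_const, Nat.card_Ico, nsmul_eq_mul]
      have e1 : 4 * M - 2 * M = 2 * M := by omega
      have e2 : (gam K * q / 2 * har M) ^ 2 = gam K ^ 2 * q ^ 2 / 4 * har M ^ 2 := by ring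
      rw [e1, e2, hg2, hq2]
      have hMr : (0 : ℝ) < M := by exact_mod_cast hM2
      rw [hK]
      push_cast
      have hK' : 0 < har (4 * M) := by rw [← hK]; linarith
      field_simp
      ring
    have h4 : har K ≤ 4 * har M := by
      have := har_four M
      rw [hK]
      linarith
    have h5 : |R| ≤ har M ^ 2 / (8 * har K) := by
      rw [le_div_iff₀ (by linarith)]
      nlinarith [abs_nonneg R]
    have h6 := le_abs_self R
    linarith

end Pool.Agent.R267.CB
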