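import Mathlib

set_option autoImplicit false

open Filter Topology Finset

/-! Cesaro sums of greedy orderings: basic facts. -/

namespace Pool.Agent.R267.CQ

universe u v

/-! ### Cesaro sums along lists -/

section lists

variable {X : Type v} [AddCommMonoid X]

/-- the sum of the partial sums of `v` along a list -/
def CS (w : ℕ → X) : List ℕ → X
  | [] => 0
  | a :: l => (l.length + 1) • w a + CS w l

lemma CS_append (w : ℕ → X) (l l' : List ℕ) :
    CS w (l ++ l') = CS w l + CS w l' + l'.length • (l.map w).sum := by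
  induction l with
  | nil => simp [CS]
  | cons a l ih =>
    simp only [List.cons_append, CS, ih, List.length_append, List.map_cons, List.sum_cons,
      smul_add, add_smul, one_smul]
    abel

lemma CS_concat (w : ℕ → X) (l : List ℕ) (a : ℕ) :
    CS w (l ++ [a]) = CS w l + ((l ++ [a]).map w).sum := by
  rw [CS_append]
  simp [CS]
  abel

lemma CS_reverse (w : ℕ → X) (l : List ℕ) :
    CS w l + CS w l.reverse = (l.length + 1) • (l.map w).sum := by
  induction l with
  | nil => simp [CS]
  | cons a l ih =>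
    rw [List.reverse_cons, CS_concat]
    simp only [CS, List.map_append, List.map_reverse, List.sum_append, List.length_cons,
      List.map_cons, List.map_nil, List.sum_cons, List.sum_nil, add_zero]
    have h1 : (l.map w).reverse.sum = (l.map w).sum := List.sum_reverse _
    rw [h1]
    have h2 : (l.length + 1) • w a + CS w l + (CS w l.reverse + ((l.map w).sum + w a)) =
        (CS w l + CS w l.reverse) + (l.map w).sum + ((l.length + 1) • w a + w a) := by abel
    rw [h2, ih]
    simp only [smul_add, add_smul, one_smul]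
    abel

lemma CS_congr (w w' : ℕ → X) (l : List ℕ) (h : ∀ a ∈ l, w a = w' a) : CS w l = CS w' l := by
  induction l with
  | nil => rfl
  | cons a l ih =>
    simp only [CS]
    rw [h a (by simp), ih (fun b hb => h b (by simp [hb]))]

lemma CS_range (w : ℕ → X) (k : ℕ → ℕ) (m : ℕ) :
    CS w ((List.range m).map k) = ∑ j ∈ Finset.range m, ∑ i ∈ Finset.range (j + 1), w (k i) := by
  induction m with
  | zero => simp [CS]
  | succ m ih =>
    rw [List.range_succ, List.map_append, List.map_singleton, CS_concat, ih,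
      Finset.sum_range_succ]
    congr 1
    rw [← List.map_singleton, ← List.map_append, ← List.range_succ, List.map_map]
    rw [Finset.sum_range]
    rw [← List.sum_ofFn]
    congr 1
    rw [List.ofFn_eq_map]
    apply List.ext_getElem
    · simp
    · intro i h1 h2
      simp

lemma CS_add (w w' : ℕ → X) (l : List ℕ) : CS (fun n => w n + w' n) l = CS w l + CS w' l := by
  induction l with
  | nil => simp [CS]
  | cons a l ih =>
    simp only [CS, ih, smul_add]
    abel

end lists

section norms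

variable {X : Type v} [NormedAddCommGroup X]

lemma norm_nsmul_le' (n : ℕ) (a : X) : ‖n • a‖ ≤ n * ‖a‖ := by
  induction n with
  | zero => simp
  | succ n ih =>
    rw [succ_nsmul]
    refine (norm_add_le _ _).trans ?_
    push_cast
    linarith

lemma CS_norm_le (w : ℕ → X) (l : List ℕ) (β : ℝ) (hβ : 0 ≤ β) (h : ∀ a ∈ l, ‖w a‖ ≤ β) :
    ‖CS w l‖ ≤ β * l.length * l.length := by
  induction l with
  | nil => simp [CS]
  | cons a l ih =>
    simp only [CS, List.length_cons]
    refine (norm_add_le _ _).trans ?_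
    have h1 := norm_nsmul_le' (l.length + 1) (w a)
    have h2 := h a (by simp)
    have h3 := ih (fun b hb => h b (by simp [hb]))
    have h4 : ((l.length + 1 : ℕ) : ℝ) * ‖w a‖ ≤ ((l.length + 1 : ℕ) : ℝ) * β :=
      mul_le_mul_of_nonneg_left h2 (by positivity)
    push_cast at h4 h1 ⊢
    have h5 : (0 : ℝ) ≤ l.length := by positivity
    nlinarith [mul_nonneg hβ h5]

lemma CS_filter (w : ℕ → X) (P : ℕ → Prop) [DecidablePred P] (l : List ℕ) (β : ℝ) (hβ : 0 ≤ β)
    (h : ∀ a ∈ l, ‖w a‖ ≤ β) :
    ‖CS w l - CS w (l.filter P)‖ ≤ 2 * β * l.length * (l.length - (l.filter P).length) := by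
  induction l with
  | nil => simp [CS]
  | cons a l ih =>
    have h2 := h a (by simp)
    have h3 := ih (fun b hb => h b (by simp [hb]))
    have hle : ((l.filter P).length : ℝ) ≤ l.length := by
      exact_mod_cast List.length_filter_le _ _
    have h5 : (0 : ℝ) ≤ l.length := by positivity
    have h6 : (0 : ℝ) ≤ (l.filter P).length := by positivity
    by_cases hP : P a
    · rw [List.filter_cons_of_pos (by simpa using hP)]
      simp only [CS, List.length_cons]
      have e1 : (l.length + 1) • w a + CS w l - (((l.filter P).length + 1) • w a +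
          CS w (l.filter P)) = (l.length - (l.filter P).length) • w a +
          (CS w l - CS w (l.filter P)) := by
        have e2 : l.length + 1 = (l.length - (l.filter P).length) + ((l.filter P).length + 1) := by
          have := List.length_filter_le (fun a => decide (P a)) l
          omega
        conv_lhs => rw [e2, add_smul]
        abel
      rw [e1]
      refine (norm_add_le _ _).trans ?_
      have h1 := norm_nsmul_le' (l.length - (l.filter P).length) (w a)
      rw [Nat.cast_sub (List.length_filter_le _ _)] at h1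
      have h4 : ((l.length : ℝ) - (l.filter P).length) * ‖w a‖ ≤
          ((l.length : ℝ) - (l.filter P).length) * β :=
        mul_le_mul_of_nonneg_left h2 (by linarith)
      push_cast
      have h7 : 0 ≤ β * ((l.length : ℝ) - (l.filter P).length) := mul_nonneg hβ (by linarith)
      nlinarith
    · rw [List.filter_cons_of_neg (by simpa using hP)]
      simp only [CS, List.length_cons]
      have e1 : (l.length + 1) • w a + CS w l - CS w (l.filter P) =
          (l.length + 1) • w a + (CS w l - CS w (l.filter P)) := by abel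
      rw [e1]
      refine (norm_add_le _ _).trans ?_
      have h1 := norm_nsmul_le' (l.length + 1) (w a)
      have h4 : ((l.length + 1 : ℕ) : ℝ) * ‖w a‖ ≤ ((l.length + 1 : ℕ) : ℝ) * β :=
        mul_le_mul_of_nonneg_left h2 (by positivity)
      push_cast at h1 h4 ⊢
      have h7 : 0 ≤ β * ((l.length : ℝ) - (l.filter P).length) := mul_nonneg hβ (by linarith)
      have h8 : 0 ≤ β * (l.length : ℝ) := mul_nonneg hβ h5
      nlinarith

lemma CS_hull (w : ℕ → X) (l : List ℕ) (M : ℝ) (hl : l.Nodup)
    (h : ∀ B : Finset ℕ, B ⊆ l.toFinset → ‖∑ n ∈ B, w n‖ ≤ M) : ‖CS w l‖ ≤ l.length * M := by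
  induction l using List.reverseRecOn with
  | nil => simp [CS]
  | append_singleton l a ih =>
    rw [CS_concat]
    have hl' : l.Nodup := (List.nodup_append.mp hl).1
    have h1 := ih hl' (fun B hB => h B (hB.trans (by
      intro n hn
      simp only [List.mem_toFinset, List.mem_append] at hn ⊢
      exact Or.inl hn)))
    have h2 : ((l ++ [a]).map w).sum = ∑ n ∈ (l ++ [a]).toFinset, w n := by
      rw [List.sum_toFinset _ hl]
    rw [h2]
    have h3 := h _ (Finset.Subset.refl _)
    refine (norm_add_le _ _).trans ?_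
    simp only [List.length_append, List.length_cons, List.length_nil]
    push_cast
    linarith

end norms

/-! ### Bases -/

/-- a basis with its coordinate functionals -/
structure Bas (𝕜 : Type u) [RCLike 𝕜] (X : Type v) [NormedAddCommGroup X] [NormedSpace 𝕜 X] where
  x : ℕ → X
  xs : ℕ → StrongDual 𝕜 X
  dense : (Submodule.span 𝕜 (Set.range x)).topologicalClosure = ⊤
  biorth : ∀ m n, xs m (x n) = if m = n then 1 else 0
  A1 : ℝ
  A2 : ℝ
  hA1 : ∀ n, ‖x n‖ ≤ A1
  hA2 : ∀ n, ‖xs n‖ ≤ A2
  one_le_A1 : 1 ≤ A1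
  one_le_A2 : 1 ≤ A2

variable {𝕜 : Type u} [RCLike 𝕜] {X : Type v} [NormedAddCommGroup X] [NormedSpace 𝕜 X]
  (D : Bas 𝕜 X)

/-- the terms of the expansion -/
noncomputable def vv (f : X) (n : ℕ) : X := D.xs n f • D.x n

lemma xs_le (n : ℕ) (f : X) : ‖D.xs n f‖ ≤ D.A2 * ‖f‖ :=
  ((D.xs n).le_opNorm f).trans (mul_le_mul_of_nonneg_right (D.hA2 n) (norm_nonneg _))

lemma vv_le (n : ℕ) (f : X) : ‖vv D f n‖ ≤ D.A1 * D.A2 * ‖f‖ := by
  unfold vv
  rw [norm_smul]
  have h1 := xs_le D n f
  have h2 := D.hA1 n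
  have h3 := D.one_le_A1
  calc ‖D.xs n f‖ * ‖D.x n‖ ≤ (D.A2 * ‖f‖) * D.A1 :=
        mul_le_mul h1 h2 (norm_nonneg _) (mul_nonneg (by linarith [D.one_le_A2]) (norm_nonneg _))
    _ = _ := by ring

lemma A12 : 1 ≤ D.A1 * D.A2 := by
  have h1 := D.one_le_A1
  have h2 := D.one_le_A2
  nlinarith

lemma xs_sum (F : Finset ℕ) (c : ℕ → 𝕜) (m : ℕ) :
    D.xs m (∑ n ∈ F, c n • D.x n) = if m ∈ F then c m else 0 := by
  rw [map_sum]
  simp only [map_smul, D.biorth, smul_eq_mul, mul_ite, mul_one, mul_zero]
  rw [Finset.sum_ite_eq]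

/-- finitely supported approximations, with prescribed coordinates -/
lemma exists_approx (f : X) (L : Finset ℕ) (η : ℝ) (hη : 0 < η) :
    ∃ h : X, ‖f - h‖ < η ∧ (∀ n ∈ L, D.xs n h = D.xs n f) ∧ {n | D.xs n h ≠ 0}.Finite := by
  set K : ℝ := 1 + L.card * (D.A1 * D.A2) with hK
  have hKpos : 0 < K := by
    have := A12 D
    positivity
  have hf : f ∈ (Submodule.span 𝕜 (Set.range D.x)).topologicalClosure := by
    rw [D.dense]; exact Submodule.mem_top
  rw [← SetLike.mem_coe, Submodule.topologicalClosure_coe, Metric.mem_closure_iff] at hf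
  obtain ⟨h0, hh0, hd⟩ := hf (η / K) (by positivity)
  rw [SetLike.mem_coe, Finsupp.mem_span_range_iff_exists_finsupp] at hh0
  obtain ⟨c, hc⟩ := hh0
  rw [Finsupp.sum] at hc
  rw [dist_eq_norm] at hd
  refine ⟨h0 + ∑ n ∈ L, D.xs n (f - h0) • D.x n, ?_, ?_, ?_⟩
  · have h1 : ‖∑ n ∈ L, D.xs n (f - h0) • D.x n‖ ≤ L.card * (D.A1 * D.A2 * ‖f - h0‖) := by
      refine (norm_sum_le _ _).trans ?_
      calc ∑ n ∈ L, ‖D.xs n (f - h0) • D.x n‖ ≤ ∑ n ∈ L, D.A1 * D.A2 * ‖f - h0‖ :=
            Finset.sum_le_sum fun n _ => vv_le D n (f - h0)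
        _ = _ := by rw [Finset.sum_const, nsmul_eq_mul]
    have h2 : f - (h0 + ∑ n ∈ L, D.xs n (f - h0) • D.x n) =
        (f - h0) - ∑ n ∈ L, D.xs n (f - h0) • D.x n := by abel
    rw [h2]
    calc ‖(f - h0) - ∑ n ∈ L, D.xs n (f - h0) • D.x n‖ ≤
          ‖f - h0‖ + L.card * (D.A1 * D.A2 * ‖f - h0‖) :=
            (norm_sub_le _ _).trans (by linarith)
      _ = K * ‖f - h0‖ := by rw [hK]; ring
      _ < K * (η / K) := mul_lt_mul_of_pos_left hd hKpos
      _ = η := by field_simp
  · intro n hn
    rw [map_add, xs_sum, if_pos hn, map_sub]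
    ring
  · refine ((c.support ∪ L).finite_toSet).subset ?_
    intro n hn
    simp only [Set.mem_ofPred_eq] at hn
    by_contra h1
    rw [Finset.mem_coe, Finset.mem_union] at h1
    push Not at h1
    apply hn
    rw [map_add, xs_sum, if_neg h1.2, ← hc, xs_sum, if_neg h1.1, add_zero]

lemma fin_level (f : X) (ε : ℝ) (hε : 0 < ε) : {n | ε ≤ ‖D.xs n f‖}.Finite := by
  have hA := D.one_le_A2
  obtain ⟨h, h1, _, h3⟩ := exists_approx D f ∅ (ε / D.A2) (by positivity)
  refine h3.subset ?_
  intro n hn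
  simp only [Set.mem_ofPred_eq] at hn ⊢
  intro h0
  have h4 : D.xs n f = D.xs n (f - h) := by rw [map_sub, h0, sub_zero]
  rw [h4] at hn
  have h5 := xs_le D n (f - h)
  have h6 : D.A2 * ‖f - h‖ < D.A2 * (ε / D.A2) := mul_lt_mul_of_pos_left h1 (by linarith)
  have h7 : D.A2 * (ε / D.A2) = ε := by field_simp
  linarith

lemma exists_max_out (f : X) (F : Finset ℕ) :
    ∃ n, n ∉ F ∧ ∀ m, m ∉ F → ‖D.xs m f‖ ≤ ‖D.xs n f‖ := by
  by_cases h : ∃ n, n ∉ F ∧ D.xs n f ≠ 0
  · obtain ⟨n0, hn0, hne⟩ := h
    have hpos : 0 < ‖D.xs n0 f‖ := norm_pos_iff.mpr hne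
    have hfin := fin_level D f _ hpos
    have hfin2 : {n | n ∉ F ∧ ‖D.xs n0 f‖ ≤ ‖D.xs n f‖}.Finite :=
      hfin.subset fun n hn => hn.2
    obtain ⟨n1, hn1, hmax⟩ := hfin2.toFinset.exists_max_image (fun n => ‖D.xs n f‖)
      ⟨n0, by rw [Set.Finite.mem_toFinset]; exact ⟨hn0, le_refl _⟩⟩
    rw [Set.Finite.mem_toFinset] at hn1
    refine ⟨n1, hn1.1, fun m hm => ?_⟩
    by_cases h2 : ‖D.xs n0 f‖ ≤ ‖D.xs m f‖
    · exact hmax m (by rw [Set.Finite.mem_toFinset]; exact ⟨hm, h2⟩)
    · push Not at h2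
      exact h2.le.trans hn1.2
  · push Not at h
    obtain ⟨n, hn⟩ := Infinite.exists_notMem_finset F
    exact ⟨n, hn, fun m hm => by rw [h m hm, norm_zero]; exact norm_nonneg _⟩

/-- greedy orderings -/
structure GO (f : X) (k : ℕ → ℕ) : Prop where
  inj : Function.Injective k
  supp : ∀ n, D.xs n f ≠ 0 → n ∈ Set.range k
  anti : ∀ i j, i ≤ j → ‖D.xs (k j) f‖ ≤ ‖D.xs (k i) f‖

lemma exists_GO (f : X) : ∃ k, GO D f k := by
  classical
  choose nx h1 h2 using exists_max_out D f
  set F : ℕ → Finset ℕ := fun n => Nat.rec ∅ (fun _ F => insert (nx F) F) n with hF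
  have hFs : ∀ n, F (n + 1) = insert (nx (F n)) (F n) := fun n => rfl
  have hmono : Monotone F := monotone_nat_of_le_succ fun n => by
    rw [hFs]; exact Finset.subset_insert _ _
  have hmem : ∀ i j, i < j → nx (F i) ∈ F j := by
    intro i j hij
    have : F (i + 1) ≤ F j := hmono hij
    apply this
    rw [hFs]
    exact Finset.mem_insert_self _ _
  have hinj : Function.Injective (fun n => nx (F n)) := by
    intro i j hij
    simp only at hij
    rcases lt_trichotomy i j with h | h | h
    · exact absurd (hmem i j h) (by rw [hij]; exact h1 _)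
    · exact h
    · exact absurd (hmem j i h) (by rw [← hij]; exact h1 _)
  refine ⟨fun n => nx (F n), hinj, ?_, ?_⟩
  · intro n hn
    by_contra hcon
    have hnF : ∀ m, n ∉ F m := by
      intro m
      induction m with
      | zero => simp [hF]
      | succ m ih =>
        rw [hFs, Finset.mem_insert]
        push Not
        exact ⟨fun h => hcon ⟨m, h.symm⟩, ih⟩
    have hpos : 0 < ‖D.xs n f‖ := norm_pos_iff.mpr hn
    have hfin := fin_level D f _ hpos
    have hsub : Set.range (fun m => nx (F m)) ⊆ {m | ‖D.xs n f‖ ≤ ‖D.xs m f‖} := by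
      rintro _ ⟨m, rfl⟩
      exact h2 (F m) n (hnF m)
    exact (Set.infinite_range_of_injective hinj) (hfin.subset hsub)
  · intro i j hij
    apply h2 (F i)
    intro h
    exact h1 (F j) (hmono hij h)

lemma GO.image_eq {D : Bas 𝕜 X} {f : X} {k : ℕ → ℕ} (hk : GO D f k) (H : Finset ℕ)
    (h : ∀ n ∈ H, ∀ m, m ∉ H → ‖D.xs m f‖ < ‖D.xs n f‖) :
    (Finset.range H.card).image k = H := by
  classical
  have hcard : ((Finset.range H.card).image k).card = H.card := by
    rw [Finset.card_image_of_injective _ hk.inj, Finset.card_range]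
  apply Finset.eq_of_subset_of_card_le _ hcard.ge
  intro a ha
  obtain ⟨j, hj, rfl⟩ := Finset.mem_image.mp ha
  by_contra hjH
  -- some element of `H` is missing
  have h1 : ∃ n ∈ H, n ∉ (Finset.range H.card).image k := by
    by_contra hcon
    push Not at hcon
    have h2 : H = (Finset.range H.card).image k :=
      Finset.eq_of_subset_of_card_le (fun n hn => hcon n hn) hcard.le
    exact hjH (by rw [h2]; exact ha)
  obtain ⟨n, hnH, hn⟩ := h1
  have h3 := h n hnH (k j) hjH
  have hne : D.xs n f ≠ 0 := by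
    intro h0
    rw [h0, norm_zero] at h3
    exact absurd h3 (not_lt.mpr (norm_nonneg _))
  obtain ⟨i, rfl⟩ := hk.supp n hne
  have hi : H.card ≤ i := by
    by_contra hcon
    push Not at hcon
    exact hn (Finset.mem_image.mpr ⟨i, Finset.mem_range.mpr hcon, rfl⟩)
  have h4 := hk.anti j i (by rw [Finset.mem_range] at hj; omega)
  linarith

/-- greedy lists -/
structure GLst (f : X) (l : List ℕ) : Prop where
  nodup : l.Nodup
  sorted : l.Pairwise (fun a b => ‖D.xs b f‖ ≤ ‖D.xs a f‖)
  out : ∀ a ∈ l, ∀ n, n ∉ l → ‖D.xs n f‖ ≤ ‖D.xs a f‖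

/-- strictly greedy lists -/
structure SGLst (f : X) (l : List ℕ) : Prop where
  nodup : l.Nodup
  sorted : l.Pairwise (fun a b => ‖D.xs b f‖ < ‖D.xs a f‖)
  out : ∀ a ∈ l, ∀ n, n ∉ l → ‖D.xs n f‖ < ‖D.xs a f‖

end Pool.Agent.R267.CQ
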