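import Pool.Agent.R267.CQ1

set_option autoImplicit false

open Filter Topology Finset

/-! Uniform boundedness of the Cesaro sums of greedy orderings. -/

namespace Pool.Agent.R267.CQ

universe u v

variable {𝕜 : Type u} [RCLike 𝕜] {X : Type v} [NormedAddCommGroup X] [NormedSpace 𝕜 X]
  (D : Bas 𝕜 X)

lemma CS_take {Z : Type v} [AddCommMonoid Z] (w : ℕ → Z) (l : List ℕ) :
    CS w l = ∑ i ∈ Finset.range l.length, ((l.take (i + 1)).map w).sum := by
  induction l using List.reverseRecOn with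
  | nil => simp [CS]
  | append_singleton l a ih =>
    rw [CS_concat, ih, List.length_append, List.length_singleton, Finset.sum_range_succ]
    congr 1
    · apply Finset.sum_congr rfl
      intro i hi
      rw [Finset.mem_range] at hi
      rw [List.take_append_of_le_length (by omega)]
    · rw [List.take_of_length_le (by simp)]

/-- phases -/
noncomputable def ph (z : 𝕜) : 𝕜 := if z = 0 then 1 else ((‖z‖ : ℝ) : 𝕜)⁻¹ * z

lemma norm_ph (z : 𝕜) : ‖ph z‖ = 1 := by
  unfold ph
  split_ifs with h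
  · exact norm_one
  · rw [norm_mul, norm_inv, RCLike.norm_ofReal, abs_norm]
    exact inv_mul_cancel₀ (norm_ne_zero_iff.mpr h)

lemma ph_mul (z : 𝕜) : ((‖z‖ : ℝ) : 𝕜) * ph z = z := by
  unfold ph
  split_ifs with h
  · rw [h]; simp
  · have : ((‖z‖ : ℝ) : 𝕜) ≠ 0 := by
      rw [Ne, RCLike.ofReal_eq_zero]
      exact norm_ne_zero_iff.mpr h
    rw [← mul_assoc, mul_inv_cancel₀ this, one_mul]

lemma xs_CS (c : ℕ → 𝕜) (l : List ℕ) (hl : l.Nodup) (n : ℕ) :
    D.xs n (CS (fun m => c m • D.x m) l) = ((l.length - l.idxOf n : ℕ) : 𝕜) * c n := by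
  induction l with
  | nil => simp [CS]
  | cons a l ih =>
    rw [List.nodup_cons] at hl
    simp only [CS]
    rw [map_add, map_nsmul, map_smul, D.biorth, ih hl.2, List.idxOf_cons]
    by_cases h : n = a
    · subst h
      rw [if_pos rfl]
      have h1 : l.length - l.idxOf n = 0 := by
        rw [List.idxOf_eq_length hl.1]; simp
      rw [h1]
      simp
    · have h2 : (a == n) = false := by
        simp [Ne.symm h]
      rw [h2, if_neg h]
      simp

lemma CS_smul (r : 𝕜) (w : ℕ → X) (l : List ℕ) : CS (fun n => r • w n) l = r • CS w l := by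
  induction l with
  | nil => simp [CS]
  | cons a l ih =>
    simp only [CS]
    rw [ih, smul_add, smul_comm]

/-- construction of the humps -/
lemma exists_hump
    (hU : ∀ c : ℝ, ∃ (f : X) (l : List ℕ), GLst D f l ∧ c * l.length * ‖f‖ < ‖CS (vv D f) l‖)
    (A : Finset ℕ) (δ R : ℝ) (hδ : 0 < δ) (hR : 0 ≤ R) :
    ∃ g : X, ‖g‖ ≤ δ ∧ (∀ n ∈ A, D.xs n g = 0) ∧ {n | D.xs n g ≠ 0}.Finite ∧
      ∃ l, SGLst D g l ∧ R * l.length < ‖CS (vv D g) l‖ := by
  classical
  have hα := A12 D
  have hA1 := D.one_le_A1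
  have hA2 := D.one_le_A2
  set α := D.A1 * D.A2 with hαdef
  set a : ℝ := (A.card : ℝ) with ha
  have ha0 : 0 ≤ a := by positivity
  set s : ℝ := δ / (2 + a * α) with hs
  have hspos : 0 < s := by positivity
  obtain ⟨f0, l0, hgl, hbig⟩ := hU (2 * a * α + 1 + R / s)
  have hc0 : 0 ≤ 2 * a * α + 1 + R / s := by positivity
  have hf0 : 0 < ‖f0‖ := by
    rw [norm_pos_iff]
    rintro rfl
    have h1 : CS (vv D (0 : X)) l0 = 0 := by
      have : vv D (0 : X) = fun n => (0 : 𝕜) • vv D (0 : X) n := by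
        funext n
        unfold vv
        simp
      rw [this, CS_smul, zero_smul]
    rw [h1] at hbig
    simp at hbig
  set r0 : 𝕜 := (((s / ‖f0‖ : ℝ)) : 𝕜) with hr0
  have hr0n : ‖r0‖ = s / ‖f0‖ := by
    rw [hr0, RCLike.norm_ofReal, abs_of_pos (by positivity)]
  set f := r0 • f0 with hf
  have hfn : ‖f‖ = s := by
    rw [hf, norm_smul, hr0n]
    field_simp
  have hvf : vv D f = fun n => r0 • vv D f0 n := by
    funext n
    unfold vv
    rw [hf, map_smul, smul_eq_mul, mul_smul]
  have hbig2 : (2 * a * α + 1 + R / s) * l0.length * s < ‖CS (vv D f) l0‖ := by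
    rw [hvf, CS_smul, norm_smul, hr0n]
    have h1 : (2 * a * α + 1 + R / s) * l0.length * s =
        s / ‖f0‖ * ((2 * a * α + 1 + R / s) * l0.length * ‖f0‖) := by
      field_simp
    rw [h1]
    exact mul_lt_mul_of_pos_left hbig (by positivity)
  have hxf : ∀ n, ‖D.xs n f‖ = s / ‖f0‖ * ‖D.xs n f0‖ := by
    intro n
    rw [hf, map_smul, smul_eq_mul, norm_mul, hr0n]
  have hsf : 0 ≤ s / ‖f0‖ := by positivity
  -- localization
  set f2 := f - ∑ n ∈ A, D.xs n f • D.x n with hf2
  have hx2A : ∀ n ∈ A, D.xs n f2 = 0 := by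
    intro n hn
    rw [hf2, map_sub, xs_sum, if_pos hn, sub_self]
  have hx2 : ∀ n, n ∉ A → D.xs n f2 = D.xs n f := by
    intro n hn
    rw [hf2, map_sub, xs_sum, if_neg hn, sub_zero]
  have hf2n : ‖f2‖ ≤ s * (1 + a * α) := by
    have h1 : ‖∑ n ∈ A, D.xs n f • D.x n‖ ≤ a * (α * s) := by
      refine (norm_sum_le _ _).trans ?_
      calc ∑ n ∈ A, ‖D.xs n f • D.x n‖ ≤ ∑ n ∈ A, α * s :=
            Finset.sum_le_sum fun n _ => by
              have := vv_le D n f
              rw [hfn] at this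
              exact this
        _ = _ := by rw [Finset.sum_const, nsmul_eq_mul]
    have h2 := norm_sub_le f (∑ n ∈ A, D.xs n f • D.x n)
    rw [← hf2, hfn] at h2
    linarith
  set l := l0.filter (fun n => n ∉ A) with hl
  have hlmem : ∀ n, n ∈ l ↔ n ∈ l0 ∧ n ∉ A := by
    intro n
    rw [hl, List.mem_filter]
    simp
  have hlnd : l.Nodup := hgl.nodup.filter _
  have hllen : (l0.length : ℝ) - l.length ≤ a := by
    have h1 : (l0.filter (fun n => n ∈ A)).length ≤ A.card := by
      rw [← List.toFinset_card_of_nodup (hgl.nodup.filter _)]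
      apply Finset.card_le_card
      intro n hn
      rw [List.mem_toFinset, List.mem_filter] at hn
      simpa using hn.2
    have h2 := List.length_eq_length_filter_add (l := l0) (fun n => decide (n ∈ A))
    have h3 : (l0.filter (fun n => !decide (n ∈ A))) = l := by
      rw [hl]
      congr 1
      funext n
      simp
    rw [h3] at h2
    have h4 : (l0.length : ℝ) = (l0.filter (fun n => decide (n ∈ A))).length + l.length := by
      exact_mod_cast h2
    have h5 : ((l0.filter (fun n => decide (n ∈ A))).length : ℝ) ≤ A.card := by exact_mod_cast h1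
    rw [ha]
    linarith
  have hlle : (l.length : ℝ) ≤ l0.length := by exact_mod_cast List.length_filter_le _ _
  have hl00 : (0 : ℝ) ≤ l0.length := by positivity
  have hdiff : ‖CS (vv D f) l0 - CS (vv D f) l‖ ≤ 2 * (α * s) * l0.length * a := by
    refine (CS_filter (vv D f) (fun n => n ∉ A) l0 (α * s) (by positivity) (fun b _ => by
      have := vv_le D b f
      rwa [hfn] at this)).trans ?_
    exact mul_le_mul_of_nonneg_left hllen (by positivity)
  have hcs2 : CS (vv D f2) l = CS (vv D f) l := by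
    apply CS_congr
    intro b hb
    unfold vv
    rw [hx2 b ((hlmem b).mp hb).2]
  have hbig3 : (1 + R / s) * l0.length * s < ‖CS (vv D f2) l‖ := by
    rw [hcs2]
    have h1 := norm_sub_norm_le (CS (vv D f) l0) (CS (vv D f) l)
    nlinarith
  have hlpos : 0 < l.length := by
    rw [List.length_pos_iff]
    intro h0
    rw [h0] at hbig3
    simp only [CS, norm_zero] at hbig3
    have : 0 ≤ (1 + R / s) * l0.length * s := by positivity
    linarith
  set r : ℝ := (l.length : ℝ) with hr
  have hr1 : 1 ≤ r := by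
    rw [hr]; exact_mod_cast hlpos
  -- perturbation
  set η' : ℝ := s / (2 * D.A1 * r ^ 2) with hη'
  have hη'pos : 0 < η' := by positivity
  have hη'eq : η' * (D.A1 * r ^ 2) = s / 2 := by
    rw [hη']
    field_simp
  obtain ⟨h, hh1, hh2, hh3⟩ := exists_approx D f2 (A ∪ l.toFinset) (η' / D.A2) (by positivity)
  set w : ℕ → X := fun n => ph (D.xs n f2) • D.x n with hw
  set g := h + ((η' : ℝ) : 𝕜) • CS w l with hg
  have hηn : ‖((η' : ℝ) : 𝕜)‖ = η' := by rw [RCLike.norm_ofReal, abs_of_pos hη'pos]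
  have hxg : ∀ n, D.xs n g = D.xs n h + ((η' : ℝ) : 𝕜) *
      (((l.length - l.idxOf n : ℕ) : 𝕜) * ph (D.xs n f2)) := by
    intro n
    rw [hg, map_add, map_smul, smul_eq_mul, hw, xs_CS D (fun n => ph (D.xs n f2)) l hlnd]
  have hxg1 : ∀ n, n ∉ l → D.xs n g = D.xs n h := by
    intro n hn
    rw [hxg, List.idxOf_eq_length hn]
    simp
  have hxg2 : ∀ n ∈ l, D.xs n g = (((‖D.xs n f2‖ + η' * ((l.length - l.idxOf n : ℕ) : ℝ) : ℝ)) : 𝕜) *
      ph (D.xs n f2) := by
    intro n hn
    rw [hxg, hh2 n (by simp [hn])]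
    push_cast
    rw [add_mul, ph_mul]
    ring
  have hxg3 : ∀ n ∈ l, ‖D.xs n g‖ = ‖D.xs n f2‖ + η' * ((l.length - l.idxOf n : ℕ) : ℝ) := by
    intro n hn
    rw [hxg2 n hn, norm_mul, norm_ph, mul_one, RCLike.norm_ofReal, abs_of_nonneg (by positivity)]
  refine ⟨g, ?_, ?_, ?_, l, ⟨hlnd, ?_, ?_⟩, ?_⟩
  · -- norm
    have h1 : ‖CS w l‖ ≤ D.A1 * r * r := by
      apply CS_norm_le w l D.A1 (by linarith)
      intro b _
      rw [hw]
      simp only
      rw [norm_smul, norm_ph, one_mul]
      exact D.hA1 b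
    have h2 : ‖h‖ ≤ ‖f2‖ + ‖f2 - h‖ := by
      have := norm_sub_le f2 (f2 - h)
      rwa [sub_sub_cancel] at this
    have h3 : ‖g‖ ≤ ‖h‖ + η' * ‖CS w l‖ := by
      rw [hg]
      refine (norm_add_le _ _).trans ?_
      rw [norm_smul, hηn]
    have h4 : η' * ‖CS w l‖ ≤ s / 2 := by
      rw [← hη'eq]
      refine mul_le_mul_of_nonneg_left (h1.trans (le_of_eq (by ring))) hη'pos.le
    have h5 : η' / D.A2 ≤ s / 2 := by
      have h6 : η' ≤ s / 2 := by
        rw [← hη'eq]
        have : 1 ≤ D.A1 * r ^ 2 := by nlinarith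
        nlinarith
      exact (div_le_self hη'pos.le hA2).trans h6
    have h6 : s * (2 + a * α) = δ := by
      rw [hs]; field_simp
    nlinarith
  · -- zero on `A`
    intro n hn
    have hnl : n ∉ l := fun h => ((hlmem n).mp h).2 hn
    rw [hxg1 n hnl, hh2 n (by simp [hn]), hx2A n hn]
  · -- finite support
    refine (hh3.union l.toFinset.finite_toSet).subset ?_
    intro n hn
    simp only [Set.mem_ofPred_eq, Set.mem_union] at hn ⊢
    by_cases h1 : n ∈ l
    · right
      simpa using h1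
    · left
      rwa [hxg1 n h1] at hn
  · -- strictly sorted
    rw [List.pairwise_iff_getElem]
    intro i j hi hj hij
    rw [hxg3 _ (List.getElem_mem hi), hxg3 _ (List.getElem_mem hj),
      hlnd.idxOf_getElem, hlnd.idxOf_getElem]
    have hs2 : l.Pairwise (fun a b => ‖D.xs b f0‖ ≤ ‖D.xs a f0‖) := hgl.sorted.filter _
    rw [List.pairwise_iff_getElem] at hs2
    have h1 := hs2 i j hi hj hij
    have h2 : ‖D.xs l[j] f2‖ ≤ ‖D.xs l[i] f2‖ := by
      rw [hx2 _ ((hlmem _).mp (List.getElem_mem hi)).2, hx2 _ ((hlmem _).mp (List.getElem_mem hj)).2,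
        hxf, hxf]
      exact mul_le_mul_of_nonneg_left h1 hsf
    have h3 : ((l.length - j : ℕ) : ℝ) < ((l.length - i : ℕ) : ℝ) := by
      exact_mod_cast (by omega : l.length - j < l.length - i)
    have h4 := mul_lt_mul_of_pos_left h3 hη'pos
    linarith
  · -- out
    intro b hb n hn
    rw [hxg1 n hn, hxg3 b hb]
    have h1 : ‖D.xs n f2‖ ≤ ‖D.xs b f2‖ := by
      rw [hx2 b ((hlmem b).mp hb).2, hxf]
      by_cases hnA : n ∈ A
      · rw [hx2A n hnA, norm_zero]
        exact mul_nonneg hsf (norm_nonneg _)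
      · rw [hx2 n hnA, hxf]
        refine mul_le_mul_of_nonneg_left (hgl.out b ((hlmem b).mp hb).1 n fun h => hn
          ((hlmem n).mpr ⟨h, hnA⟩)) hsf
    have h2 : ‖D.xs n h‖ ≤ ‖D.xs n f2‖ + D.A2 * ‖f2 - h‖ := by
      have h3 : D.xs n h = D.xs n f2 - D.xs n (f2 - h) := by
        have h4 := map_sub (D.xs n) f2 h
        rw [h4]; ring
      rw [h3]
      exact (norm_sub_le _ _).trans (by linarith [xs_le D n (f2 - h)])
    have h3 : D.A2 * ‖f2 - h‖ < η' := by
      calc D.A2 * ‖f2 - h‖ < D.A2 * (η' / D.A2) := mul_lt_mul_of_pos_left hh1 (by linarith)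
        _ = η' := by field_simp
    have h4 : (1 : ℝ) ≤ ((l.length - l.idxOf b : ℕ) : ℝ) := by
      have : l.idxOf b < l.length := List.idxOf_lt_length_of_mem hb
      exact_mod_cast (by omega : 1 ≤ l.length - l.idxOf b)
    have h5 : η' * 1 ≤ η' * ((l.length - l.idxOf b : ℕ) : ℝ) :=
      mul_le_mul_of_nonneg_left h4 hη'pos.le
    linarith
  · -- large
    have h1 : CS (vv D g) l = CS (vv D f2) l +
        CS (fun n => (((η' * ((l.length - l.idxOf n : ℕ) : ℝ) : ℝ) : 𝕜) * ph (D.xs n f2)) • D.x n) l := by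
      rw [← CS_add]
      apply CS_congr
      intro b hb
      unfold vv
      rw [← add_smul, hxg2 b hb]
      congr 1
      rw [RCLike.ofReal_add, add_mul, ph_mul]
    have h2 : ‖CS (fun n => (((η' * ((l.length - l.idxOf n : ℕ) : ℝ) : ℝ) : 𝕜) *
        ph (D.xs n f2)) • D.x n) l‖ ≤ (η' * r * D.A1) * l.length * l.length := by
      apply CS_norm_le _ _ _ (by positivity)
      intro b _
      rw [norm_smul, norm_mul, norm_ph, mul_one, RCLike.norm_ofReal, abs_of_nonneg (by positivity)]
      have h3 : ((l.length - l.idxOf b : ℕ) : ℝ) ≤ r := by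
        rw [hr]; exact_mod_cast Nat.sub_le _ _
      exact mul_le_mul (mul_le_mul_of_nonneg_left h3 hη'pos.le) (D.hA1 b) (norm_nonneg _)
        (by positivity)
    have h3 : (η' * r * D.A1) * l.length * l.length = s / 2 * r := by
      rw [← hη'eq, ← hr]; ring
    rw [h3] at h2
    have h4 : ‖CS (vv D f2) l‖ ≤ ‖CS (vv D g) l‖ + s / 2 * r := by
      have h5 : CS (vv D f2) l = CS (vv D g) l - CS (fun n => (((η' *
          ((l.length - l.idxOf n : ℕ) : ℝ) : ℝ) : 𝕜) * ph (D.xs n f2)) • D.x n) l := by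
        rw [h1]; abel
      rw [h5]
      exact (norm_sub_le _ _).trans (by linarith)
    have h5 : (1 + R / s) * r * s ≤ (1 + R / s) * l0.length * s := by
      have : 0 ≤ 1 + R / s := by positivity
      gcongr
    have h6 : (1 + R / s) * r * s = (s + R) * r := by
      field_simp
    nlinarith

end Pool.Agent.R267.CQ
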