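import Pool.Agent.R267.CQ2

set_option autoImplicit false

open Filter Topology Finset

/-! Uniform boundedness: the gliding hump. -/

namespace Pool.Agent.R267.CQ

universe u v

variable {𝕜 : Type u} [RCLike 𝕜] {X : Type v} [NormedAddCommGroup X] [NormedSpace 𝕜 X]
  (D : Bas 𝕜 X)

lemma final_arith (M r k B a y C : ℝ) (hM : 0 ≤ M) (hr : 1 ≤ r) (hk : 0 ≤ k) (hB : B < k)
    (ha0 : 0 ≤ a) (hay : a ≤ y) (h3 : C ≤ B * (M + r) + M * (M * a) + r * (M * a))
    (h4 : ((M + 1) * k + (M ^ 2 + M) * y) * r < C) : False := by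
  have h6 : B * (M + r) ≤ (M + 1) * k * r := by
    have hB0 : B * (M + r) ≤ k * (M + r) := mul_le_mul_of_nonneg_right hB.le (by linarith)
    have h7 : k * (M + r) ≤ (M + 1) * k * r := by
      have h9 : M + r ≤ (M + 1) * r := by nlinarith
      nlinarith [mul_le_mul_of_nonneg_left h9 hk]
    linarith
  have e1 : M * (M * a) ≤ M ^ 2 * y * r := by
    have e3 : M ^ 2 * a ≤ M ^ 2 * y := mul_le_mul_of_nonneg_left hay (by positivity)
    have e4 : 0 ≤ M ^ 2 * y := by
      have : 0 ≤ y := ha0.trans hay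
      positivity
    nlinarith
  have e2 : r * (M * a) ≤ r * (M * y) := by gcongr
  nlinarith

/-- states of the construction -/
structure St where
  Y : X
  μ : ℝ
  μpos : 0 < μ
  fin : {n | D.xs n Y ≠ 0}.Finite
  low : ∀ n, D.xs n Y ≠ 0 → μ ≤ ‖D.xs n Y‖

/-- the required size -/
noncomputable def RR (k : ℕ) (s : St D) : ℝ :=
  (s.fin.toFinset.card + 1) * k + (s.fin.toFinset.card ^ 2 + s.fin.toFinset.card) *
    (D.A1 * D.A2) * (‖s.Y‖ + 2)

lemma exists_next
    (hU : ∀ c : ℝ, ∃ (f : X) (l : List ℕ), GLst D f l ∧ c * l.length * ‖f‖ < ‖CS (vv D f) l‖)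
    (k : ℕ) (s : St D) : ∃ (s' : St D) (l : List ℕ), s'.μ ≤ s.μ ∧ ‖s'.Y - s.Y‖ ≤ (1 / 2) ^ k ∧
      D.A2 * ‖s'.Y - s.Y‖ ≤ s.μ / 2 ∧ (∀ n, D.xs n s.Y ≠ 0 → D.xs n (s'.Y - s.Y) = 0) ∧
      SGLst D (s'.Y - s.Y) l ∧ RR D k s * l.length < ‖CS (vv D (s'.Y - s.Y)) l‖ := by
  classical
  have hA2 := D.one_le_A2
  have hA1 := D.one_le_A1
  have hμ := s.μpos
  have hRR : 0 ≤ RR D k s := by
    unfold RR
    positivity
  obtain ⟨g, hg1, hg2, hg3, l, hl1, hl2⟩ := exists_hump D hU s.fin.toFinset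
    (min ((1 / 2) ^ k) (s.μ / 2 / D.A2)) (RR D k s) (lt_min (by positivity) (by positivity)) hRR
  have hfin : {n | D.xs n (s.Y + g) ≠ 0}.Finite := by
    refine (s.fin.union hg3).subset ?_
    intro n hn
    simp only [Set.mem_ofPred_eq, Set.mem_union] at hn ⊢
    by_contra hcon
    push Not at hcon
    apply hn
    rw [map_add, hcon.1, hcon.2, add_zero]
  obtain ⟨μ', hμ'pos, hμ'⟩ : ∃ μ' : ℝ, 0 < μ' ∧ ∀ n, D.xs n (s.Y + g) ≠ 0 →
      μ' ≤ ‖D.xs n (s.Y + g)‖ := by
    rcases hfin.toFinset.eq_empty_or_nonempty with he | hne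
    · refine ⟨1, one_pos, fun n hn => ?_⟩
      exfalso
      have : n ∈ hfin.toFinset := by rw [Set.Finite.mem_toFinset]; exact hn
      rw [he] at this
      simp at this
    · obtain ⟨m, hm, hmin⟩ := hfin.toFinset.exists_min_image (fun n => ‖D.xs n (s.Y + g)‖) hne
      rw [Set.Finite.mem_toFinset] at hm
      refine ⟨‖D.xs m (s.Y + g)‖, norm_pos_iff.mpr hm, fun n hn => ?_⟩
      exact hmin n (by rw [Set.Finite.mem_toFinset]; exact hn)
  have hsub : s.Y + g - s.Y = g := by abel
  refine ⟨⟨s.Y + g, min s.μ μ', lt_min hμ hμ'pos, hfin, fun n hn => (min_le_right _ _).trans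
    (hμ' n hn)⟩, l, min_le_left _ _, ?_, ?_, ?_, ?_, ?_⟩
  · simp only [hsub]
    exact hg1.trans (min_le_left _ _)
  · simp only [hsub]
    have h1 : ‖g‖ ≤ s.μ / 2 / D.A2 := hg1.trans (min_le_right _ _)
    calc D.A2 * ‖g‖ ≤ D.A2 * (s.μ / 2 / D.A2) := mul_le_mul_of_nonneg_left h1 (by linarith)
      _ = s.μ / 2 := by field_simp
  · intro n hn
    simp only [hsub]
    exact hg2 n (by rw [Set.Finite.mem_toFinset]; exact hn)
  · simp only [hsub]; exact hl1
  · simp only [hsub]; exact hl2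

/-- uniform boundedness -/
theorem uniform [CompleteSpace X] (hH : ∀ (f : X) (k : ℕ → ℕ), GO D f k → ∃ B : ℝ, ∀ m : ℕ,
      ‖∑ j ∈ Finset.range m, ∑ i ∈ Finset.range (j + 1), vv D f (k i)‖ ≤ B * m) :
    ∃ c : ℝ, 1 ≤ c ∧ ∀ (f : X) (l : List ℕ), GLst D f l →
      ‖CS (vv D f) l‖ ≤ c * l.length * ‖f‖ := by
  classical
  by_contra hcon
  push Not at hcon
  have hU : ∀ c : ℝ, ∃ (f : X) (l : List ℕ), GLst D f l ∧
      c * l.length * ‖f‖ < ‖CS (vv D f) l‖ := by
    intro c
    obtain ⟨f, l, h1, h2⟩ := hcon (max c 1) (le_max_right _ _)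
    refine ⟨f, l, h1, lt_of_le_of_lt ?_ h2⟩
    have : c ≤ max c 1 := le_max_left _ _
    gcongr
  choose nx L hn1 hn2 hn3 hn4 hn5 hn6 using exists_next D hU
  set s0 : St D := ⟨0, 1, one_pos, by simp, fun n hn => by simp at hn⟩ with hs0
  set s : ℕ → St D := fun n => Nat.rec s0 (fun k t => nx k t) n with hs
  have hss : ∀ k, s (k + 1) = nx k (s k) := fun k => rfl
  set g : ℕ → X := fun k => (s (k + 1)).Y - (s k).Y with hg
  set l : ℕ → List ℕ := fun k => L k (s k) with hl
  have g1 : ∀ k, ‖g k‖ ≤ (1 / 2) ^ k := fun k => hn2 k (s k)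
  have g2 : ∀ k, D.A2 * ‖g k‖ ≤ (s k).μ / 2 := fun k => hn3 k (s k)
  have g3 : ∀ k n, D.xs n (s k).Y ≠ 0 → D.xs n (g k) = 0 := fun k => hn4 k (s k)
  have g4 : ∀ k, SGLst D (g k) (l k) := fun k => hn5 k (s k)
  have g5 : ∀ k, RR D k (s k) * (l k).length < ‖CS (vv D (g k)) (l k)‖ := fun k => hn6 k (s k)
  have hμ : ∀ k, (s (k + 1)).μ ≤ (s k).μ := fun k => hn1 k (s k)
  have hμa : Antitone (fun k => (s k).μ) := antitone_nat_of_succ_le hμ
  have hY : ∀ k, (s (k + 1)).Y = (s k).Y + g k := fun k => by rw [hg]; simp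
  -- the limit
  have hdist : ∀ k, dist ((s k).Y) ((s (k + 1)).Y) ≤ 2 / 2 / 2 ^ k := by
    intro k
    rw [dist_comm, dist_eq_norm]
    refine (g1 k).trans (le_of_eq ?_)
    rw [one_div, inv_pow]
    field_simp
  have hcau : CauchySeq (fun k => (s k).Y) := cauchySeq_of_le_geometric_two hdist
  obtain ⟨x, hx⟩ := cauchySeq_tendsto_of_complete hcau
  have hxn : ∀ k, ‖x‖ ≤ ‖(s k).Y‖ + 2 := by
    intro k
    have h1 := dist_le_of_le_geometric_two_of_tendsto hdist hx k
    have h2 : (2 : ℝ) / 2 ^ k ≤ 2 := div_le_self (by norm_num) (one_le_pow₀ (by norm_num))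
    rw [dist_eq_norm] at h1
    have h3 : ‖x‖ ≤ ‖(s k).Y‖ + ‖(s k).Y - x‖ := by
      have := norm_sub_le (s k).Y ((s k).Y - x)
      rwa [sub_sub_cancel] at this
    linarith
  -- the coordinates
  have c1 : ∀ k j n, D.xs n (s k).Y ≠ 0 → D.xs n (s (k + j)).Y = D.xs n (s k).Y := by
    intro k j n hn
    induction j with
    | zero => rfl
    | succ j ih =>
      rw [← add_assoc, hY, map_add, g3 (k + j) n (by rw [ih]; exact hn), add_zero, ih]
  have c2 : ∀ k j n, D.xs n (s k).Y = 0 → ‖D.xs n (s (k + j)).Y‖ ≤ (s k).μ / 2 := by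
    intro k j n hn
    induction j with
    | zero =>
      rw [add_zero, hn, norm_zero]
      have := (s k).μpos
      positivity
    | succ j ih =>
      rw [← add_assoc, hY, map_add]
      by_cases h0 : D.xs n (s (k + j)).Y = 0
      · rw [h0, zero_add]
        refine (xs_le D n _).trans ((g2 (k + j)).trans ?_)
        have : (s (k + j)).μ ≤ (s k).μ := hμa (Nat.le_add_right k j)
        linarith
      · rw [g3 (k + j) n h0, add_zero]
        exact ih
  have hlim : ∀ k n, Tendsto (fun j => D.xs n (s (k + j)).Y) atTop (𝓝 (D.xs n x)) := by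
    intro k n
    have h1 : Tendsto (fun j => (s (k + j)).Y) atTop (𝓝 x) := by
      have := (tendsto_add_atTop_iff_nat k).mpr hx
      simpa only [add_comm] using this
    exact ((D.xs n).continuous.tendsto _).comp h1
  have c1' : ∀ k n, D.xs n (s k).Y ≠ 0 → D.xs n x = D.xs n (s k).Y := by
    intro k n hn
    refine tendsto_nhds_unique (hlim k n) ?_
    refine (tendsto_congr fun j => c1 k j n hn).mpr tendsto_const_nhds
  have c2' : ∀ k n, D.xs n (s k).Y = 0 → ‖D.xs n x‖ ≤ (s k).μ / 2 := by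
    intro k n hn
    exact le_of_tendsto (hlim k n).norm (Eventually.of_forall fun j => c2 k j n hn)
  obtain ⟨O, hO⟩ := exists_GO D x
  obtain ⟨B, hB⟩ := hH x O hO
  obtain ⟨k, hk⟩ := exists_nat_gt B
  -- the stage `k`
  set A := (s k).fin.toFinset with hA
  have hAm : ∀ n, n ∈ A ↔ D.xs n (s k).Y ≠ 0 := by
    intro n
    rw [hA, Set.Finite.mem_toFinset]
    rfl
  set M := A.card with hM
  set r := (l k).length with hr
  have hsg := g4 k
  have hrpos : 0 < r := by
    rw [hr, List.length_pos_iff]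
    intro h0
    have := g5 k
    rw [h0] at this
    simp [CS] at this
  -- coordinates on the list
  have hl1 : ∀ n ∈ l k, D.xs n (g k) ≠ 0 := by
    intro n hn h0
    obtain ⟨m, hm⟩ := Infinite.exists_notMem_finset (l k).toFinset
    rw [List.mem_toFinset] at hm
    have := hsg.out n hn m hm
    rw [h0, norm_zero] at this
    exact absurd this (not_lt.mpr (norm_nonneg _))
  have hl2 : ∀ n ∈ l k, D.xs n (s k).Y = 0 := by
    intro n hn
    by_contra h0
    exact hl1 n hn (g3 k n h0)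
  have hl3 : ∀ n ∈ l k, D.xs n (s (k + 1)).Y = D.xs n (g k) := by
    intro n hn
    rw [hY, map_add, hl2 n hn, zero_add]
  have hl4 : ∀ n ∈ l k, D.xs n x = D.xs n (g k) := by
    intro n hn
    rw [c1' (k + 1) n (by rw [hl3 n hn]; exact hl1 n hn), hl3 n hn]
  have hdisj : ∀ n ∈ l k, n ∉ A := by
    intro n hn
    rw [hAm, not_not]
    exact hl2 n hn
  -- the greedy sets
  set H : ℕ → Finset ℕ := fun i => A ∪ ((l k).take i).toFinset with hH'
  have hHcard : ∀ i, i ≤ r → (H i).card = M + i := by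
    intro i hi
    rw [hH']
    simp only
    rw [Finset.card_union_of_disjoint, List.toFinset_card_of_nodup (hsg.nodup.sublist
      (List.take_sublist _ _)), List.length_take]
    · rw [← hr]; omega
    · rw [Finset.disjoint_right]
      intro n hn
      rw [List.mem_toFinset] at hn
      exact hdisj n (List.mem_of_mem_take hn)
  have hμk := (s k).μpos
  have hμk1 := (s (k + 1)).μpos
  have hHs : ∀ i, ∀ n ∈ H i, ∀ m, m ∉ H i → ‖D.xs m x‖ < ‖D.xs n x‖ := by
    intro i n hn m hm
    rw [hH'] at hn hm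
    simp only [Finset.mem_union, List.mem_toFinset] at hn hm
    push Not at hm
    obtain ⟨hmA, hml⟩ := hm
    rw [hAm, not_not] at hmA
    rcases hn with hn | hn
    · rw [hAm] at hn
      have h1 := c2' k m hmA
      have h2 := (s k).low n hn
      rw [c1' k n hn]
      linarith
    · have hnl := List.mem_of_mem_take hn
      by_cases h0 : D.xs m (s (k + 1)).Y = 0
      · have h1 := c2' (k + 1) m h0
        have h2 := (s (k + 1)).low n (by rw [hl3 n hnl]; exact hl1 n hnl)
        rw [hl4 n hnl, ← hl3 n hnl]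
        linarith
      · have h1 : D.xs m x = D.xs m (g k) := by
          rw [c1' (k + 1) m h0, hY, map_add, hmA, zero_add]
        rw [h1, hl4 n hnl]
        by_cases h2 : m ∈ l k
        · have h3 := hsg.sorted
          rw [← List.take_append_drop i (l k), List.pairwise_append] at h3
          apply h3.2.2 n hn m
          rw [← List.take_append_drop i (l k), List.mem_append] at h2
          exact h2.resolve_left hml
        · exact hsg.out n hnl m h2
  have hHi : ∀ i, i ≤ r → (Finset.range (M + i)).image O = H i := by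
    intro i hi
    have := hO.image_eq (H i) (hHs i)
    rwa [hHcard i hi] at this
  have hsum : ∀ (m : ℕ), ∑ i ∈ Finset.range m, vv D x (O i) =
      ∑ n ∈ (Finset.range m).image O, vv D x n := by
    intro m
    rw [Finset.sum_image fun a _ b _ h => hO.inj h]
  -- the sum
  set α := D.A1 * D.A2 with hα
  have hα1 := A12 D
  rw [← hα] at hα1
  have hP : ∀ F : Finset ℕ, ‖∑ n ∈ F, vv D x n‖ ≤ F.card * (α * ‖x‖) := by
    intro F
    refine (norm_sum_le _ _).trans ?_
    calc ∑ n ∈ F, ‖vv D x n‖ ≤ ∑ n ∈ F, α * ‖x‖ := Finset.sum_le_sum fun n _ => vv_le D n x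
      _ = _ := by rw [Finset.sum_const, nsmul_eq_mul]
  have hS : ∑ j ∈ Finset.range (M + r), ∑ i ∈ Finset.range (j + 1), vv D x (O i) =
      ∑ j ∈ Finset.range M, ∑ i ∈ Finset.range (j + 1), vv D x (O i) +
        (r • ∑ n ∈ A, vv D x n + CS (vv D (g k)) (l k)) := by
    rw [Finset.sum_range_add]
    congr 1
    have h1 : ∀ i ∈ Finset.range r, ∑ i' ∈ Finset.range (M + i + 1), vv D x (O i') =
        ∑ n ∈ A, vv D x n + (((l k).take (i + 1)).map (vv D (g k))).sum := by
      intro i hi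
      rw [Finset.mem_range] at hi
      rw [hsum, add_assoc, hHi (i + 1) (by omega), hH']
      simp only
      rw [Finset.sum_union]
      · congr 1
        rw [List.sum_toFinset _ (hsg.nodup.sublist (List.take_sublist _ _))]
        congr 1
        apply List.map_congr_left
        intro n hn
        unfold vv
        rw [hl4 n (List.mem_of_mem_take hn)]
      · rw [Finset.disjoint_right]
        intro n hn
        rw [List.mem_toFinset] at hn
        exact hdisj n (List.mem_of_mem_take hn)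
    rw [Finset.sum_congr rfl h1, Finset.sum_add_distrib, Finset.sum_const, Finset.card_range,
      CS_take]
  have hbound := hB (M + r)
  rw [hS] at hbound
  have h1 : ‖∑ j ∈ Finset.range M, ∑ i ∈ Finset.range (j + 1), vv D x (O i)‖ ≤
      M * (M * (α * ‖x‖)) := by
    refine (norm_sum_le _ _).trans ?_
    calc ∑ j ∈ Finset.range M, ‖∑ i ∈ Finset.range (j + 1), vv D x (O i)‖ ≤
          ∑ j ∈ Finset.range M, M * (α * ‖x‖) := by
          refine Finset.sum_le_sum fun j hj => ?_
          rw [Finset.mem_range] at hj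
          rw [hsum]
          refine (hP _).trans ?_
          have h2 : (((Finset.range (j + 1)).image O).card : ℝ) ≤ M := by
            have : ((Finset.range (j + 1)).image O).card ≤ j + 1 := by
              refine Finset.card_image_le.trans ?_
              rw [Finset.card_range]
            exact_mod_cast (by omega : ((Finset.range (j + 1)).image O).card ≤ M)
          gcongr
      _ = _ := by rw [Finset.sum_const, nsmul_eq_mul, Finset.card_range]
  have h2 : ‖r • ∑ n ∈ A, vv D x n‖ ≤ r * (M * (α * ‖x‖)) :=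
    (norm_nsmul_le' _ _).trans (mul_le_mul_of_nonneg_left (hP A) (by positivity))
  have h3 : ‖CS (vv D (g k)) (l k)‖ ≤ B * ((M + r : ℕ) : ℝ) + M * (M * (α * ‖x‖)) +
      r * (M * (α * ‖x‖)) := by
    set a1 := ∑ j ∈ Finset.range M, ∑ i ∈ Finset.range (j + 1), vv D x (O i)
    set a2 := r • ∑ n ∈ A, vv D x n
    set a3 := CS (vv D (g k)) (l k)
    have h4 : a3 = (a1 + (a2 + a3)) - a1 - a2 := by abel
    rw [h4]
    refine (norm_sub_le _ _).trans ?_
    have h5 := norm_sub_le (a1 + (a2 + a3)) a1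
    linarith
  have h4 := g5 k
  unfold RR at h4
  rw [← hA, ← hM, ← hα, ← hr] at h4
  have h5 := hxn k
  have hr1 : (1 : ℝ) ≤ r := by exact_mod_cast hrpos
  have hM0 : (0 : ℝ) ≤ M := Nat.cast_nonneg M
  push_cast at h3
  have hxx : α * ‖x‖ ≤ α * (‖(s k).Y‖ + 2) := mul_le_mul_of_nonneg_left h5 (by linarith)
  have hx0 : 0 ≤ α * ‖x‖ := mul_nonneg (by linarith) (norm_nonneg _)
  refine final_arith (M : ℝ) r k B (α * ‖x‖) (α * (‖(s k).Y‖ + 2)) _ hM0 hr1 (Nat.cast_nonneg k)
    hk hx0 hxx h3 (lt_of_le_of_lt (le_of_eq ?_) h4)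
  ring

end Pool.Agent.R267.CQ
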