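import Pool.Agent.R267.CQ3

set_option autoImplicit false

open Filter Topology Finset

/-! Ties and near unconditionality. -/

namespace Pool.Agent.R267.CQ

universe u v

variable {𝕜 : Type u} [RCLike 𝕜] {X : Type v} [NormedAddCommGroup X] [NormedSpace 𝕜 X]
  (D : Bas 𝕜 X)

/-- the uniform bound -/
def UB (c : ℝ) : Prop := ∀ (f : X) (l : List ℕ), GLst D f l →
  ‖CS (vv D f) l‖ ≤ c * l.length * ‖f‖

variable {D}

lemma norm_nsmul_eq (n : ℕ) (a : X) (𝕜 : Type u) [RCLike 𝕜] [NormedSpace 𝕜 X] :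
    ‖n • a‖ = n * ‖a‖ := by
  rw [← Nat.cast_smul_eq_nsmul 𝕜, norm_smul, RCLike.norm_natCast]

lemma ties {c : ℝ} (hc : UB D c) (f : X) (B : Finset ℕ) (h1 : ∀ n, ‖D.xs n f‖ ≤ 1)
    (h2 : ∀ n ∈ B, ‖D.xs n f‖ = 1) (hc1 : 1 ≤ c) : ‖∑ n ∈ B, vv D f n‖ ≤ 2 * c * ‖f‖ := by
  set l := B.toList with hl
  have hmem : ∀ n, n ∈ l ↔ n ∈ B := fun n => by rw [hl, Finset.mem_toList]
  have hg : GLst D f l := by
    refine ⟨B.nodup_toList, ?_, ?_⟩
    · rw [List.pairwise_iff_getElem]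
      intro i j hi hj _
      rw [h2 _ ((hmem _).mp (List.getElem_mem hi)), h2 _ ((hmem _).mp (List.getElem_mem hj))]
    · intro a ha n _
      rw [h2 a ((hmem a).mp ha)]
      exact h1 n
  have hg' : GLst D f l.reverse := by
    refine ⟨List.nodup_reverse.mpr B.nodup_toList, ?_, ?_⟩
    · rw [List.pairwise_iff_getElem]
      intro i j hi hj _
      rw [h2 _ ((hmem _).mp (List.mem_reverse.mp (List.getElem_mem hi))),
        h2 _ ((hmem _).mp (List.mem_reverse.mp (List.getElem_mem hj)))]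
    · intro a ha n _
      rw [h2 a ((hmem a).mp (List.mem_reverse.mp ha))]
      exact h1 n
  have e1 := hc f l hg
  have e2 := hc f l.reverse hg'
  rw [List.length_reverse] at e2
  have e3 := CS_reverse (vv D f) l
  have e4 : (l.map (vv D f)).sum = ∑ n ∈ B, vv D f n := by
    rw [hl, Finset.sum_map_toList]
  rw [e4] at e3
  have e5 := norm_nsmul_eq (l.length + 1) (∑ n ∈ B, vv D f n) 𝕜
  rw [← e3] at e5
  have e6 := norm_add_le (CS (vv D f) l) (CS (vv D f) l.reverse)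
  rw [e5] at e6
  push_cast at e6
  have h0 : (0 : ℝ) ≤ l.length := Nat.cast_nonneg _
  have hf := norm_nonneg f
  set S := ‖∑ n ∈ B, vv D f n‖ with hS
  have e7 : ((l.length : ℝ) + 1) * S ≤ ((l.length : ℝ) + 1) * (2 * c * ‖f‖) := by
    have : 0 ≤ c * ‖f‖ := by positivity
    nlinarith
  exact le_of_mul_le_mul_left e7 (by linarith)

lemma hull_le (e : ℕ → X) (B : Finset ℕ) (M : ℝ) (lam : ℕ → ℝ) :
    ∀ w : X, (∀ n ∈ B, 0 ≤ lam n ∧ lam n ≤ 1) → (∀ B' ⊆ B, ‖w + ∑ n ∈ B', e n‖ ≤ M) →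
      ‖w + ∑ n ∈ B, ((lam n : ℝ) : 𝕜) • e n‖ ≤ M := by
  classical
  induction B using Finset.induction_on with
  | empty =>
    intro w _ h
    have := h ∅ (Finset.Subset.refl _)
    simpa using this
  | insert a B ha ih =>
    intro w hl h
    obtain ⟨hl0, hl1⟩ := hl a (Finset.mem_insert_self _ _)
    have h1 := ih w (fun n hn => hl n (Finset.mem_insert_of_mem hn))
      (fun B' hB' => h B' (hB'.trans (Finset.subset_insert _ _)))
    have h2 := ih (w + e a) (fun n hn => hl n (Finset.mem_insert_of_mem hn))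
      (fun B' hB' => by
        have h3 := h (insert a B') (Finset.insert_subset_insert _ hB')
        rw [Finset.sum_insert (fun h4 => ha (hB' h4))] at h3
        rw [add_assoc]
        exact h3)
    rw [Finset.sum_insert ha]
    set s := ∑ n ∈ B, ((lam n : ℝ) : 𝕜) • e n with hs
    have h3 : w + (((lam a : ℝ) : 𝕜) • e a + s) = (((1 - lam a : ℝ)) : 𝕜) • (w + s) +
        ((lam a : ℝ) : 𝕜) • (w + e a + s) := by
      push_cast
      rw [sub_smul, one_smul]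
      simp only [smul_add]
      abel
    rw [h3]
    refine (norm_add_le _ _).trans ?_
    rw [norm_smul, norm_smul, RCLike.norm_ofReal, RCLike.norm_ofReal, abs_of_nonneg hl0,
      abs_of_nonneg (by linarith)]
    have h4 : 0 ≤ 1 - lam a := by linarith
    nlinarith [mul_le_mul_of_nonneg_left h1 h4, mul_le_mul_of_nonneg_left h2 hl0]

lemma hull_le' (e : ℕ → X) (B : Finset ℕ) (M : ℝ) (lam : ℕ → ℝ)
    (hl : ∀ n ∈ B, 0 ≤ lam n ∧ lam n ≤ 1) (h : ∀ B' ⊆ B, ‖∑ n ∈ B', e n‖ ≤ M) :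
    ‖∑ n ∈ B, ((lam n : ℝ) : 𝕜) • e n‖ ≤ M := by
  have := hull_le (𝕜 := 𝕜) e B M lam 0 hl (fun B' hB' => by rw [zero_add]; exact h B' hB')
  rwa [zero_add] at this

variable (D) in
/-- unimodular multiples of the basis -/
noncomputable def ee (f : X) (n : ℕ) : X := ph (D.xs n f) • D.x n

lemma vv_eq (f : X) (n : ℕ) : vv D f n = ((‖D.xs n f‖ : ℝ) : 𝕜) • ee D f n := by
  unfold vv ee
  rw [← mul_smul, ph_mul]

lemma nu_step {c : ℝ} (hc : UB D c) (hc1 : 1 ≤ c) (f : X) (h1 : ∀ n, ‖D.xs n f‖ ≤ 1)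
    (B : Finset ℕ) (h2 : ∀ n ∈ B, 1 - 1 / (4 * c) ≤ ‖D.xs n f‖) (lam : ℕ → ℝ)
    (hl : ∀ n ∈ B, 0 ≤ lam n ∧ lam n ≤ 1) :
    ‖∑ n ∈ B, ((lam n : ℝ) : 𝕜) • ee D f n‖ ≤ 4 * c * ‖f‖ := by
  classical
  obtain ⟨B0, hB0, hmax⟩ := B.powerset.exists_max_image (fun B' => ‖∑ n ∈ B', ee D f n‖)
    ⟨∅, Finset.empty_mem_powerset _⟩
  rw [Finset.mem_powerset] at hB0
  set M := ‖∑ n ∈ B0, ee D f n‖ with hM
  have hmax' : ∀ B' ⊆ B, ‖∑ n ∈ B', ee D f n‖ ≤ M := fun B' hB' =>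
    hmax B' (Finset.mem_powerset.mpr hB')
  set τ : ℝ := 1 / (4 * c) with hτ
  have hτpos : 0 < τ := by positivity
  have hτc : c * τ = 1 / 4 := by rw [hτ]; field_simp
  set h : X := ∑ n ∈ B0, (((1 - ‖D.xs n f‖ : ℝ)) : 𝕜) • ee D f n with hh
  have hhn : ‖h‖ ≤ τ * M := by
    have h3 : h = ((τ : ℝ) : 𝕜) • ∑ n ∈ B0, ((((1 - ‖D.xs n f‖) / τ : ℝ)) : 𝕜) • ee D f n := by
      rw [hh, Finset.smul_sum]
      apply Finset.sum_congr rfl
      intro n _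
      rw [← mul_smul, ← RCLike.ofReal_mul]
      congr 2
      field_simp
    rw [h3, norm_smul, RCLike.norm_ofReal, abs_of_pos hτpos]
    refine mul_le_mul_of_nonneg_left ?_ hτpos.le
    apply hull_le' (𝕜 := 𝕜) (ee D f) B0 M
    · intro n hn
      have h4 := h2 n (hB0 hn)
      have h5 := h1 n
      constructor
      · exact div_nonneg (by linarith) hτpos.le
      · rw [div_le_one hτpos]; linarith
    · intro B' hB'
      exact hmax' B' (hB'.trans hB0)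
  have hxh : ∀ n, D.xs n (f + h) = D.xs n f + if n ∈ B0 then
      (((1 - ‖D.xs n f‖ : ℝ)) : 𝕜) * ph (D.xs n f) else 0 := by
    intro n
    rw [map_add, hh]
    congr 1
    unfold ee
    simp only [← mul_smul]
    rw [xs_sum D B0 (fun n => (((1 - ‖D.xs n f‖ : ℝ)) : 𝕜) * ph (D.xs n f))]
  have hxh1 : ∀ n ∈ B0, D.xs n (f + h) = ph (D.xs n f) := by
    intro n hn
    rw [hxh, if_pos hn]
    push_cast
    rw [sub_mul, one_mul, ph_mul]
    ring
  have hxh2 : ∀ n, n ∉ B0 → D.xs n (f + h) = D.xs n f := by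
    intro n hn
    rw [hxh, if_neg hn, add_zero]
  have h3 := ties hc (f + h) B0 (fun n => by
      by_cases hn : n ∈ B0
      · rw [hxh1 n hn, norm_ph]
      · rw [hxh2 n hn]; exact h1 n)
    (fun n hn => by rw [hxh1 n hn, norm_ph]) hc1
  have h4 : ∑ n ∈ B0, vv D (f + h) n = ∑ n ∈ B0, ee D f n := by
    apply Finset.sum_congr rfl
    intro n hn
    unfold vv ee
    rw [hxh1 n hn]
  rw [h4, ← hM] at h3
  have h5 : ‖f + h‖ ≤ ‖f‖ + τ * M := (norm_add_le _ _).trans (by linarith)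
  have h6 : 2 * c * ‖f + h‖ ≤ 2 * c * (‖f‖ + τ * M) := by gcongr
  have h7 : 2 * c * (‖f‖ + τ * M) = 2 * c * ‖f‖ + M / 2 := by
    have : 2 * c * (‖f‖ + τ * M) = 2 * c * ‖f‖ + 2 * (c * τ) * M := by ring
    rw [this, hτc]; ring
  have h8 : M ≤ 4 * c * ‖f‖ := by linarith
  exact (hull_le' (𝕜 := 𝕜) (ee D f) B M lam hl hmax').trans h8

lemma ph_mul_pos (r : ℝ) (hr : 0 < r) (z : 𝕜) : ph (((r : ℝ) : 𝕜) * z) = ph z := by
  have hr' : ((r : ℝ) : 𝕜) ≠ 0 := by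
    rw [Ne, RCLike.ofReal_eq_zero]; exact hr.ne'
  unfold ph
  by_cases h : z = 0
  · rw [h]; simp
  · rw [if_neg h, if_neg (mul_ne_zero hr' h), norm_mul, RCLike.norm_ofReal, abs_of_pos hr]
    push_cast
    have : ((‖z‖ : ℝ) : 𝕜) ≠ 0 := by
      rw [Ne, RCLike.ofReal_eq_zero]
      exact norm_ne_zero_iff.mpr h
    field_simp

lemma nu {c : ℝ} (hc : UB D c) (hc1 : 1 ≤ c) (j : ℕ) : ∃ φ : ℝ, 0 ≤ φ ∧ ∀ f : X,
    (∀ n, ‖D.xs n f‖ ≤ 1) → ∀ B : Finset ℕ, (∀ n ∈ B, (1 - 1 / (4 * c)) ^ j ≤ ‖D.xs n f‖) →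
    ∀ lam : ℕ → ℝ, (∀ n ∈ B, 0 ≤ lam n ∧ lam n ≤ 1) →
    ‖∑ n ∈ B, ((lam n : ℝ) : 𝕜) • ee D f n‖ ≤ φ * ‖f‖ := by
  classical
  set t : ℝ := 1 - 1 / (4 * c) with ht
  have h14 : 1 / (4 * c) ≤ 1 / 4 := by
    apply one_div_le_one_div_of_le (by norm_num); linarith
  have h140 : 0 < 1 / (4 * c) := by positivity
  have ht0 : 0 < t := by rw [ht]; linarith
  have ht1 : t ≤ 1 := by rw [ht]; linarith
  induction j with
  | zero =>
    refine ⟨4 * c, by positivity, fun f h1 B h2 lam hl => nu_step hc hc1 f h1 B (fun n hn => ?_)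
      lam hl⟩
    have := h2 n hn
    rw [pow_zero] at this
    linarith
  | succ j ih =>
    obtain ⟨φ, hφ, ih⟩ := ih
    refine ⟨4 * c + φ * (t⁻¹ * (1 + 4 * c)), by positivity, fun f h1 B h2 lam hl => ?_⟩
    set C1 := (fin_level D f t ht0).toFinset with hC1
    have hC1m : ∀ n, n ∈ C1 ↔ t ≤ ‖D.xs n f‖ := by
      intro n; rw [hC1, Set.Finite.mem_toFinset]; rfl
    set f1 := f - ∑ n ∈ C1, vv D f n with hf1
    have hf1n : ‖f1‖ ≤ (1 + 4 * c) * ‖f‖ := by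
      have h3 : ‖∑ n ∈ C1, vv D f n‖ ≤ 4 * c * ‖f‖ := by
        have h4 : ∑ n ∈ C1, vv D f n = ∑ n ∈ C1, ((‖D.xs n f‖ : ℝ) : 𝕜) • ee D f n :=
          Finset.sum_congr rfl fun n _ => vv_eq f n
        rw [h4]
        exact nu_step hc hc1 f h1 C1 (fun n hn => (hC1m n).mp hn) _
          (fun n _ => ⟨norm_nonneg _, h1 n⟩)
      have h4 := norm_sub_le f (∑ n ∈ C1, vv D f n)
      rw [← hf1] at h4
      linarith
    set f2 := ((t⁻¹ : ℝ) : 𝕜) • f1 with hf2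
    have hti : 0 < t⁻¹ := inv_pos.mpr ht0
    have hf2n : ‖f2‖ ≤ t⁻¹ * ((1 + 4 * c) * ‖f‖) := by
      rw [hf2, norm_smul, RCLike.norm_ofReal, abs_of_pos hti]
      exact mul_le_mul_of_nonneg_left hf1n hti.le
    have hxf1 : ∀ n, D.xs n f1 = if n ∈ C1 then 0 else D.xs n f := by
      intro n
      rw [hf1, map_sub]
      unfold vv
      rw [xs_sum D C1 (fun n => D.xs n f)]
      split_ifs
      · rw [sub_self]
      · rw [sub_zero]
    have hxf2 : ∀ n, D.xs n f2 = ((t⁻¹ : ℝ) : 𝕜) * D.xs n f1 := by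
      intro n
      rw [hf2, map_smul, smul_eq_mul]
    have hxf2n : ∀ n, n ∉ C1 → ‖D.xs n f2‖ = t⁻¹ * ‖D.xs n f‖ := by
      intro n hn
      rw [hxf2, hxf1, if_neg hn, norm_mul, RCLike.norm_ofReal, abs_of_pos hti]
    have hf2le : ∀ n, ‖D.xs n f2‖ ≤ 1 := by
      intro n
      by_cases hn : n ∈ C1
      · rw [hxf2, hxf1, if_pos hn, mul_zero, norm_zero]; exact zero_le_one
      · rw [hxf2n n hn]
        rw [hC1m] at hn
        push Not at hn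
        rw [inv_mul_le_iff₀ ht0, mul_one]
        exact hn.le
    have h3 := ih f2 hf2le (B.filter (fun n => n ∉ C1)) (fun n hn => by
        obtain ⟨hnB, hnC⟩ := Finset.mem_filter.mp hn
        rw [hxf2n n hnC]
        have := h2 n hnB
        rw [pow_succ] at this
        rw [le_inv_mul_iff₀ ht0]
        linarith) lam (fun n hn => hl n (Finset.mem_filter.mp hn).1)
    have h4 : ∑ n ∈ B.filter (fun n => n ∉ C1), ((lam n : ℝ) : 𝕜) • ee D f2 n =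
        ∑ n ∈ B.filter (fun n => n ∉ C1), ((lam n : ℝ) : 𝕜) • ee D f n := by
      apply Finset.sum_congr rfl
      intro n hn
      unfold ee
      rw [hxf2, hxf1, if_neg (Finset.mem_filter.mp hn).2, ph_mul_pos _ hti]
    rw [h4] at h3
    have h5 := nu_step hc hc1 f h1 (B.filter (fun n => n ∈ C1)) (fun n hn =>
      (hC1m n).mp (Finset.mem_filter.mp hn).2) lam (fun n hn => hl n (Finset.mem_filter.mp hn).1)
    rw [← Finset.sum_filter_add_sum_filter_not B (fun n => n ∈ C1)]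
    refine (norm_add_le _ _).trans ?_
    have h6 : φ * ‖f2‖ ≤ φ * (t⁻¹ * ((1 + 4 * c) * ‖f‖)) := mul_le_mul_of_nonneg_left hf2n hφ
    calc _ ≤ 4 * c * ‖f‖ + φ * (t⁻¹ * ((1 + 4 * c) * ‖f‖)) := add_le_add h5 (h3.trans h6)
      _ = _ := by ring

/-- near unconditionality -/
theorem NU {c : ℝ} (hc : UB D c) (hc1 : 1 ≤ c) (t : ℝ) (ht : 0 < t) : ∃ φ : ℝ, 0 ≤ φ ∧
    ∀ (f : X) (u : ℝ), 0 < u → (∀ n, ‖D.xs n f‖ ≤ u) → ∀ B : Finset ℕ,
    (∀ n ∈ B, t * u ≤ ‖D.xs n f‖) → ∀ lam : ℕ → ℝ, (∀ n ∈ B, 0 ≤ lam n ∧ lam n ≤ 1) →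
    u * ‖∑ n ∈ B, ((lam n : ℝ) : 𝕜) • ee D f n‖ ≤ φ * ‖f‖ := by
  have h140 : 0 < 1 / (4 * c) := by positivity
  have h14 : 1 / (4 * c) ≤ 1 / 4 := by
    apply one_div_le_one_div_of_le (by norm_num); linarith
  obtain ⟨j, hj⟩ := exists_pow_lt_of_lt_one ht (show 1 - 1 / (4 * c) < 1 by linarith)
  obtain ⟨φ, hφ, h⟩ := nu hc hc1 j
  refine ⟨φ, hφ, fun f u hu h1 B h2 lam hl => ?_⟩
  have hui : 0 < u⁻¹ := inv_pos.mpr hu
  have hx : ∀ n, D.xs n (((u⁻¹ : ℝ) : 𝕜) • f) = ((u⁻¹ : ℝ) : 𝕜) * D.xs n f := fun n => by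
    rw [map_smul, smul_eq_mul]
  have hxn : ∀ n, ‖D.xs n (((u⁻¹ : ℝ) : 𝕜) • f)‖ = u⁻¹ * ‖D.xs n f‖ := fun n => by
    rw [hx, norm_mul, RCLike.norm_ofReal, abs_of_pos hui]
  have h3 := h (((u⁻¹ : ℝ) : 𝕜) • f) (fun n => by
      rw [hxn, inv_mul_le_iff₀ hu, mul_one]; exact h1 n) B (fun n hn => by
      rw [hxn, le_inv_mul_iff₀ hu]
      have := h2 n hn
      nlinarith) lam hl
  have h4 : ∀ n, ee D (((u⁻¹ : ℝ) : 𝕜) • f) n = ee D f n := by
    intro n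
    unfold ee
    rw [hx, ph_mul_pos _ hui]
  simp only [h4] at h3
  rw [norm_smul, RCLike.norm_ofReal, abs_of_pos hui] at h3
  calc u * ‖∑ n ∈ B, ((lam n : ℝ) : 𝕜) • ee D f n‖ ≤ u * (φ * (u⁻¹ * ‖f‖)) := by gcongr
    _ = φ * ‖f‖ := by field_simp

end Pool.Agent.R267.CQ
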