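import Pool.Agent.R267.CQ4

set_option autoImplicit false

open Filter Topology Finset

/-! Ramps and cheap sets. -/

namespace Pool.Agent.R267.CQ

universe u v

variable {𝕜 : Type u} [RCLike 𝕜] {X : Type v} [NormedAddCommGroup X] [NormedSpace 𝕜 X]
  {D : Bas 𝕜 X}

lemma CS_range' {Z : Type v} [AddCommMonoid Z] (w : ℕ → Z) (k : ℕ → ℕ) (m : ℕ) :
    CS w ((List.range m).map k) = ∑ i ∈ Finset.range m, (m - i) • w (k i) := by
  induction m with
  | zero => simp [CS]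
  | succ m ih =>
    rw [CS_range] at ih ⊢
    rw [Finset.sum_range_succ, ih, Finset.sum_range_succ _ m, Finset.sum_range_succ _ m]
    rw [← add_assoc, ← Finset.sum_add_distrib]
    congr 1
    · apply Finset.sum_congr rfl
      intro i hi
      rw [Finset.mem_range] at hi
      have : m + 1 - i = (m - i) + 1 := by omega
      rw [this, add_smul, one_smul]
    · simp

lemma CS_range'' {Z : Type v} [AddCommMonoid Z] (w : ℕ → Z) (k : ℕ → ℕ) (m n : ℕ) (h : m ≤ n) :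
    CS w ((List.range m).map k) = ∑ i ∈ Finset.range n, (m - i) • w (k i) := by
  rw [CS_range']
  apply Finset.sum_subset (Finset.range_subset_range.mpr h)
  intro i _ hi
  rw [Finset.mem_range, not_lt] at hi
  rw [Nat.sub_eq_zero_of_le hi, zero_smul]

lemma GO.glst {f : X} {k : ℕ → ℕ} (hk : GO D f k) (m : ℕ) :
    GLst D f ((List.range m).map k) := by
  refine ⟨(List.nodup_range).map hk.inj, ?_, ?_⟩
  · rw [List.pairwise_map, List.pairwise_iff_getElem]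
    intro i j hi hj hij
    rw [List.getElem_range, List.getElem_range]
    exact hk.anti i j hij.le
  · intro a ha n hn
    rw [List.mem_map] at ha
    obtain ⟨i, hi, rfl⟩ := ha
    rw [List.mem_range] at hi
    by_cases h0 : D.xs n f = 0
    · rw [h0, norm_zero]; exact norm_nonneg _
    · obtain ⟨j, rfl⟩ := hk.supp n h0
      apply hk.anti
      by_contra hcon
      apply hn
      rw [List.mem_map]
      exact ⟨j, List.mem_range.mpr (by omega), rfl⟩

/-- weights of the complement of a ramp -/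
noncomputable def W (p q i : ℕ) : ℝ := 1 - (((q - i : ℕ) : ℝ) - ((p - i : ℕ) : ℝ)) / ((q : ℝ) - p)

lemma W_low {p q i : ℕ} (hpq : p < q) (hi : i ≤ p) : W p q i = 0 := by
  unfold W
  have h : (0 : ℝ) < (q : ℝ) - p := by
    have : (p : ℝ) < q := by exact_mod_cast hpq
    linarith
  rw [Nat.cast_sub (by omega), Nat.cast_sub hi]
  have : ((q : ℝ) - i - ((p : ℝ) - i)) / ((q : ℝ) - p) = 1 := by
    rw [show (q : ℝ) - i - ((p : ℝ) - i) = (q : ℝ) - p by ring]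
    exact div_self h.ne'
  rw [this, sub_self]

lemma W_mid {p q i : ℕ} (hpq : p < q) (hi : p ≤ i) (hi' : i ≤ q) :
    W p q i = ((i : ℝ) - p) / ((q : ℝ) - p) := by
  unfold W
  have h : (0 : ℝ) < (q : ℝ) - p := by
    have : (p : ℝ) < q := by exact_mod_cast hpq
    linarith
  rw [Nat.cast_sub hi', Nat.sub_eq_zero_of_le hi]
  field_simp
  push_cast
  ring

lemma W_high {p q i : ℕ} (hpq : p < q) (hi : q ≤ i) : W p q i = 1 := by
  unfold W
  rw [Nat.sub_eq_zero_of_le hi, Nat.sub_eq_zero_of_le (by omega)]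
  simp

lemma W_nonneg {p q : ℕ} (hpq : p < q) (i : ℕ) : 0 ≤ W p q i := by
  have h : (0 : ℝ) < (q : ℝ) - p := by
    have : (p : ℝ) < q := by exact_mod_cast hpq
    linarith
  rcases le_total i p with h1 | h1
  · rw [W_low hpq h1]
  · rcases le_total i q with h2 | h2
    · rw [W_mid hpq h1 h2]
      have : (p : ℝ) ≤ i := by exact_mod_cast h1
      exact div_nonneg (by linarith) h.le
    · rw [W_high hpq h2]; exact zero_le_one

lemma W_le_one {p q : ℕ} (hpq : p < q) (i : ℕ) : W p q i ≤ 1 := by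
  have h : (0 : ℝ) < (q : ℝ) - p := by
    have : (p : ℝ) < q := by exact_mod_cast hpq
    linarith
  rcases le_total i p with h1 | h1
  · rw [W_low hpq h1]; exact zero_le_one
  · rcases le_total i q with h2 | h2
    · rw [W_mid hpq h1 h2, div_le_one h]
      have : (i : ℝ) ≤ q := by exact_mod_cast h2
      linarith
    · rw [W_high hpq h2]

variable (D) in
/-- averages of the greedy sums -/
noncomputable def Tr (f : X) (k : ℕ → ℕ) (p q : ℕ) : X :=
  (((1 / ((q : ℝ) - p) : ℝ)) : 𝕜) • (CS (vv D f) ((List.range q).map k) -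
    CS (vv D f) ((List.range p).map k))

lemma Tr_norm {c : ℝ} (hc : UB D c) {f : X} {k : ℕ → ℕ} (hk : GO D f k) {p q : ℕ} (hpq : p < q) :
    ‖Tr D f k p q‖ ≤ c * (((q : ℝ) + p) / ((q : ℝ) - p)) * ‖f‖ := by
  have h : (0 : ℝ) < (q : ℝ) - p := by
    have : (p : ℝ) < q := by exact_mod_cast hpq
    linarith
  unfold Tr
  rw [norm_smul, RCLike.norm_ofReal, abs_of_pos (by positivity)]
  have h1 := hc f _ (hk.glst q)
  have h2 := hc f _ (hk.glst p)
  rw [List.length_map, List.length_range] at h1 h2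
  have h3 := norm_sub_le (CS (vv D f) ((List.range q).map k)) (CS (vv D f) ((List.range p).map k))
  calc 1 / ((q : ℝ) - p) * ‖CS (vv D f) ((List.range q).map k) -
        CS (vv D f) ((List.range p).map k)‖ ≤ 1 / ((q : ℝ) - p) * (c * q * ‖f‖ + c * p * ‖f‖) := by
        refine mul_le_mul_of_nonneg_left (h3.trans (add_le_add h1 h2)) (by positivity)
    _ = _ := by field_simp

lemma Tr_eq {f : X} {k : ℕ → ℕ} {p q n : ℕ} (hpq : p < q) (hqn : q ≤ n) :
    Tr D f k p q = ∑ i ∈ Finset.range n, (((1 - W p q i : ℝ)) : 𝕜) • vv D f (k i) := by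
  unfold Tr
  rw [CS_range'' _ _ q n hqn, CS_range'' _ _ p n (by omega), ← Finset.sum_sub_distrib,
    Finset.smul_sum]
  apply Finset.sum_congr rfl
  intro i _
  rw [← Nat.cast_smul_eq_nsmul 𝕜, ← Nat.cast_smul_eq_nsmul 𝕜, ← sub_smul, ← mul_smul]
  congr 1
  unfold W
  push_cast
  ring

lemma xs_Tr {f : X} {k : ℕ → ℕ} (hk : GO D f k) {p q : ℕ} (hpq : p < q) (i : ℕ) :
    D.xs (k i) (Tr D f k p q) = (((1 - W p q i : ℝ)) : 𝕜) * D.xs (k i) f := by
  rw [Tr_eq hpq (le_max_left q (i + 1)), map_sum]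
  have h1 : ∀ j ∈ Finset.range (max q (i + 1)),
      D.xs (k i) ((((1 - W p q j : ℝ)) : 𝕜) • vv D f (k j)) =
        if j = i then (((1 - W p q i : ℝ)) : 𝕜) * D.xs (k i) f else 0 := by
    intro j _
    unfold vv
    rw [map_smul, map_smul, D.biorth]
    by_cases h : j = i
    · subst h
      simp
    · rw [if_neg h, if_neg (fun h' => h (hk.inj h').symm)]
      simp
  rw [Finset.sum_congr rfl h1, Finset.sum_ite_eq', if_pos]
  rw [Finset.mem_range]
  omega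

lemma xs_Tr' {f : X} {k : ℕ → ℕ} {p q : ℕ} (hpq : p < q) (m : ℕ) (hm : m ∉ Set.range k) :
    D.xs m (Tr D f k p q) = 0 := by
  rw [Tr_eq hpq (le_refl q), map_sum]
  apply Finset.sum_eq_zero
  intro j _
  unfold vv
  rw [map_smul, map_smul, D.biorth, if_neg (fun h => hm ⟨j, h.symm⟩)]
  simp

variable (D) in
/-- the remainder -/
noncomputable def Yr (f : X) (k : ℕ → ℕ) (p q : ℕ) : X := f - Tr D f k p q

lemma xs_Yr {f : X} {k : ℕ → ℕ} (hk : GO D f k) {p q : ℕ} (hpq : p < q) (i : ℕ) :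
    D.xs (k i) (Yr D f k p q) = ((W p q i : ℝ) : 𝕜) * D.xs (k i) f := by
  unfold Yr
  rw [map_sub, xs_Tr hk hpq]
  push_cast
  ring

lemma xs_Yr' {f : X} {k : ℕ → ℕ} (hk : GO D f k) {p q : ℕ} (hpq : p < q) (m : ℕ)
    (hm : m ∉ Set.range k) : D.xs m (Yr D f k p q) = 0 := by
  unfold Yr
  rw [map_sub, xs_Tr' hpq m hm, sub_zero]
  by_contra h
  exact hm (hk.supp m h)

lemma Yr_norm {c : ℝ} (hc : UB D c) {f : X} {k : ℕ → ℕ} (hk : GO D f k) {p q : ℕ} (hpq : p < q) :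
    ‖Yr D f k p q‖ ≤ (1 + c * (((q : ℝ) + p) / ((q : ℝ) - p))) * ‖f‖ := by
  unfold Yr
  refine (norm_sub_le _ _).trans ?_
  have := Tr_norm hc hk hpq
  linarith

/-- near unconditionality along an ordering -/
lemma NU_index {k : ℕ → ℕ} (hk : Function.Injective k) {φ t : ℝ}
    (h : ∀ (f : X) (u : ℝ), 0 < u → (∀ n, ‖D.xs n f‖ ≤ u) → ∀ B : Finset ℕ,
      (∀ n ∈ B, t * u ≤ ‖D.xs n f‖) → ∀ lam : ℕ → ℝ, (∀ n ∈ B, 0 ≤ lam n ∧ lam n ≤ 1) →
      u * ‖∑ n ∈ B, ((lam n : ℝ) : 𝕜) • ee D f n‖ ≤ φ * ‖f‖) (g : X) (u : ℝ) (hu : 0 < u)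
    (h1 : ∀ n, ‖D.xs n g‖ ≤ u) (B : Finset ℕ) (h2 : ∀ i ∈ B, t * u ≤ ‖D.xs (k i) g‖)
    (lam : ℕ → ℝ) (hl : ∀ i ∈ B, 0 ≤ lam i ∧ lam i ≤ 1) :
    u * ‖∑ i ∈ B, ((lam i : ℝ) : 𝕜) • ee D g (k i)‖ ≤ φ * ‖g‖ := by
  classical
  have h3 := h g u hu h1 (B.image k) (fun n hn => by
    obtain ⟨i, hi, rfl⟩ := Finset.mem_image.mp hn
    exact h2 i hi) (Function.extend k lam 0) (fun n hn => by
    obtain ⟨i, hi, rfl⟩ := Finset.mem_image.mp hn
    rw [hk.extend_apply]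
    exact hl i hi)
  rw [Finset.sum_image (fun a _ b _ h => hk h)] at h3
  simp only [hk.extend_apply] at h3
  exact h3

/-- windows -/
lemma window {c φ : ℝ} (hc : UB D c) {t : ℝ} (hφ0 : 0 ≤ φ)
    (hφ : ∀ (f : X) (u : ℝ), 0 < u → (∀ n, ‖D.xs n f‖ ≤ u) → ∀ B : Finset ℕ,
      (∀ n ∈ B, t * u ≤ ‖D.xs n f‖) → ∀ lam : ℕ → ℝ, (∀ n ∈ B, 0 ≤ lam n ∧ lam n ≤ 1) →
      u * ‖∑ n ∈ B, ((lam n : ℝ) : 𝕜) • ee D f n‖ ≤ φ * ‖f‖)
    {f : X} {k : ℕ → ℕ} (hk : GO D f k) (p d : ℕ) (hd : 0 < d) (u : ℝ) (hu : 0 < u)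
    (hle : ∀ i, p < i → ‖D.xs (k i) f‖ ≤ u) (B : Finset ℕ)
    (hB : ∀ i ∈ B, p + d ≤ i ∧ t * u ≤ ‖D.xs (k i) f‖) (lam : ℕ → ℝ)
    (hl : ∀ i ∈ B, 0 ≤ lam i ∧ lam i ≤ 1) :
    u * ‖∑ i ∈ B, ((lam i : ℝ) : 𝕜) • ee D f (k i)‖ ≤
      φ * ((1 + c * ((2 * (p : ℝ) + d) / d)) * ‖f‖) := by
  have hpq : p < p + d := by omega
  have h1 := NU_index hk.inj hφ (Yr D f k p (p + d)) u hu (fun n => by
      by_cases hn : n ∈ Set.range k
      · obtain ⟨i, rfl⟩ := hn
        rw [xs_Yr hk hpq, norm_mul, RCLike.norm_ofReal, abs_of_nonneg (W_nonneg hpq i)]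
        rcases le_or_gt i p with h | h
        · rw [W_low hpq h, zero_mul]; exact hu.le
        · calc W p (p + d) i * ‖D.xs (k i) f‖ ≤ 1 * u :=
                mul_le_mul (W_le_one hpq i) (hle i h) (norm_nonneg _) zero_le_one
            _ = u := one_mul u
      · rw [xs_Yr' hk hpq n hn, norm_zero]; exact hu.le) B (fun i hi => by
      rw [xs_Yr hk hpq, W_high hpq (hB i hi).1]
      simp only [RCLike.ofReal_one, one_mul]
      exact (hB i hi).2) lam hl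
  have h2 : ∑ i ∈ B, ((lam i : ℝ) : 𝕜) • ee D (Yr D f k p (p + d)) (k i) =
      ∑ i ∈ B, ((lam i : ℝ) : 𝕜) • ee D f (k i) := by
    apply Finset.sum_congr rfl
    intro i hi
    unfold ee
    rw [xs_Yr hk hpq, W_high hpq (hB i hi).1]
    simp only [RCLike.ofReal_one, one_mul]
  rw [h2] at h1
  refine h1.trans (mul_le_mul_of_nonneg_left ?_ hφ0)
  have h3 := Yr_norm hc hk hpq
  push_cast at h3
  have e1 : ((p : ℝ) + d + p) / ((p : ℝ) + d - p) = (2 * (p : ℝ) + d) / d := by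
    congr 1 <;> ring
  rw [e1] at h3
  exact h3

end Pool.Agent.R267.CQ
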