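import Pool.Agent.R267.CQ5

set_option autoImplicit false

open Filter Topology Finset

/-! The greedy sums are bounded. -/

namespace Pool.Agent.R267.CQ

universe u v

variable {𝕜 : Type u} [RCLike 𝕜] {X : Type v} [NormedAddCommGroup X] [NormedSpace 𝕜 X]
  {D : Bas 𝕜 X}

/-- thresholds -/
lemma exists_thr {f : X} {k : ℕ → ℕ} (hk : GO D f k) (s : ℝ) (hs : 0 < s) :
    ∃ T : ℕ, ∀ i, i < T ↔ s ≤ ‖D.xs (k i) f‖ := by
  classical
  have h : ∃ i, ‖D.xs (k i) f‖ < s := by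
    by_contra hcon
    push Not at hcon
    have hsub : Set.range k ⊆ {m | s ≤ ‖D.xs m f‖} := by
      rintro _ ⟨i, rfl⟩
      exact hcon i
    exact (Set.infinite_range_of_injective hk.inj) ((fin_level D f s hs).subset hsub)
  refine ⟨Nat.find h, fun i => ⟨fun hi => ?_, fun hi => ?_⟩⟩
  · have := Nat.find_min h hi
    push Not at this
    exact this
  · by_contra hcon
    push Not at hcon
    have h1 := Nat.find_spec h
    have h2 := hk.anti _ _ hcon
    linarith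

/-- the near unconditionality statement with parameters `t`, `φ` -/
def NUs (D : Bas 𝕜 X) (t φ : ℝ) : Prop :=
  ∀ (f : X) (u : ℝ), 0 < u → (∀ n, ‖D.xs n f‖ ≤ u) → ∀ B : Finset ℕ,
    (∀ n ∈ B, t * u ≤ ‖D.xs n f‖) → ∀ lam : ℕ → ℝ, (∀ n ∈ B, 0 ≤ lam n ∧ lam n ≤ 1) →
    u * ‖∑ n ∈ B, ((lam n : ℝ) : 𝕜) • ee D f n‖ ≤ φ * ‖f‖

/-- cost of one level -/
lemma cheap_level {c φ : ℝ} (hc : UB D c) (hc1 : 1 ≤ c) (hφ0 : 0 ≤ φ) (hφ : NUs D (1 / 4) φ)
    {f : X} {k : ℕ → ℕ} (hk : GO D f k) (n : ℕ) (hn : 0 < n) (u : ℝ) (hu : 0 < u)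
    (hun : ‖D.xs (k (n - 1)) f‖ = u) (κ T : ℕ)
    (hT : ∀ i, i < T ↔ 4 ^ (κ + 1) * u ≤ ‖D.xs (k i) f‖) (B : Finset ℕ)
    (hB : ∀ i ∈ B, T + n / 2 ^ κ ≤ i ∧ i < n ∧ 4 ^ κ * u ≤ ‖D.xs (k i) f‖) (lam : ℕ → ℝ)
    (hl : ∀ i ∈ B, 0 ≤ lam i ∧ lam i ≤ 1) :
    u * ‖∑ i ∈ B, ((lam i : ℝ) : 𝕜) • ee D f (k i)‖ ≤
      ((2 * c * φ + D.A1 * D.A2) * ‖f‖) * (1 / 2) ^ κ := by
  have hA1 := D.one_le_A1
  have hA2 := D.one_le_A2
  have hf := norm_nonneg f
  have h2κ : (0 : ℝ) < 2 ^ κ := by positivity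
  have h4 : (4 : ℝ) ^ κ = 2 ^ κ * 2 ^ κ := by
    rw [← mul_pow]; norm_num
  have hhalf : (1 / 2 : ℝ) ^ κ = 1 / 2 ^ κ := by rw [one_div_pow]
  set S := ‖∑ i ∈ B, ((lam i : ℝ) : 𝕜) • ee D f (k i)‖ with hS
  have hS0 : 0 ≤ S := norm_nonneg _
  set d := n / 2 ^ κ with hd
  rcases Nat.eq_zero_or_pos d with hd0 | hdpos
  · -- few coordinates
    have hn2 : n < 2 ^ κ := by
      rw [hd] at hd0
      rcases Nat.div_eq_zero_iff.mp hd0 with h | h
      · have : 0 < 2 ^ κ := by positivity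
        omega
      · exact h
    rcases B.eq_empty_or_nonempty with hBe | ⟨i0, hi0⟩
    · rw [hS, hBe, Finset.sum_empty, norm_zero, mul_zero]
      positivity
    · have h1 : 4 ^ κ * u ≤ D.A2 * ‖f‖ := (hB i0 hi0).2.2.trans (xs_le D _ f)
      have h2 : S ≤ 2 ^ κ * D.A1 := by
        rw [hS]
        refine (norm_sum_le _ _).trans ?_
        calc ∑ i ∈ B, ‖((lam i : ℝ) : 𝕜) • ee D f (k i)‖ ≤ ∑ i ∈ B, D.A1 := by
              refine Finset.sum_le_sum fun i hi => ?_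
              unfold ee
              rw [norm_smul, norm_smul, norm_ph, one_mul, RCLike.norm_ofReal,
                abs_of_nonneg (hl i hi).1]
              calc lam i * ‖D.x (k i)‖ ≤ 1 * D.A1 :=
                    mul_le_mul (hl i hi).2 (D.hA1 _) (norm_nonneg _) zero_le_one
                _ = D.A1 := one_mul _
          _ = B.card * D.A1 := by rw [Finset.sum_const, nsmul_eq_mul]
          _ ≤ 2 ^ κ * D.A1 := by
              refine mul_le_mul_of_nonneg_right ?_ (by linarith)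
              have h3 : B.card ≤ n := by
                have : B ⊆ Finset.range n := fun i hi => Finset.mem_range.mpr (hB i hi).2.1
                have := Finset.card_le_card this
                rwa [Finset.card_range] at this
              have h4 : B.card ≤ 2 ^ κ := by omega
              exact_mod_cast h4
      have h3 : u * S ≤ (D.A1 * D.A2 * ‖f‖) * (1 / 2) ^ κ := by
        rw [hhalf, mul_one_div, le_div_iff₀ h2κ]
        calc u * S * 2 ^ κ ≤ u * (2 ^ κ * D.A1) * 2 ^ κ := by gcongr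
          _ = (4 ^ κ * u) * D.A1 := by rw [h4]; ring
          _ ≤ (D.A2 * ‖f‖) * D.A1 := by gcongr
          _ = _ := by ring
      refine h3.trans ?_
      refine mul_le_mul_of_nonneg_right ?_ (by positivity)
      refine mul_le_mul_of_nonneg_right ?_ hf
      have : 0 ≤ 2 * c * φ := by positivity
      linarith
  · -- window
    have hTn : T ≤ n := by
      by_contra hcon
      push Not at hcon
      have h1 := (hT (n - 1)).mp (by omega)
      rw [hun] at h1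
      have h2 : (1 : ℝ) < 4 ^ (κ + 1) := one_lt_pow₀ (by norm_num) (by omega)
      nlinarith
    have hTT : ‖D.xs (k T) f‖ < 4 ^ (κ + 1) * u := by
      by_contra hcon
      push Not at hcon
      exact lt_irrefl _ ((hT T).mpr hcon)
    have h1 := window hc hφ0 hφ hk T d hdpos (4 ^ (κ + 1) * u) (by positivity)
      (fun i hi => (hk.anti T i hi.le).trans hTT.le) B (fun i hi => ⟨(hB i hi).1, by
        have := (hB i hi).2.2
        rw [pow_succ]
        linarith⟩) lam hl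
    rw [← hS] at h1
    have hd1 : (0 : ℝ) < d := by exact_mod_cast hdpos
    have hnd : (n : ℝ) ≤ 2 ^ κ * (2 * d) := by
      have h2 : n < 2 ^ κ * (d + 1) := Nat.lt_mul_div_succ n (by positivity)
      have h3 : n ≤ 2 ^ κ * (2 * d) := by
        have : 2 ^ κ * (d + 1) ≤ 2 ^ κ * (2 * d) := Nat.mul_le_mul_left _ (by omega)
        omega
      exact_mod_cast h3
    have h2 : (2 * (T : ℝ) + d) / d ≤ 5 * 2 ^ κ := by
      rw [div_le_iff₀ hd1]
      have h3 : (T : ℝ) ≤ n := by exact_mod_cast hTn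
      have h5 : (1 : ℝ) ≤ 2 ^ κ := one_le_pow₀ (by norm_num)
      nlinarith
    have h3 : 1 + c * ((2 * (T : ℝ) + d) / d) ≤ 6 * c * 2 ^ κ := by
      have h5 : (1 : ℝ) ≤ 2 ^ κ := one_le_pow₀ (by norm_num)
      have h6 : c * ((2 * (T : ℝ) + d) / d) ≤ c * (5 * 2 ^ κ) := by gcongr
      have h7 : 1 ≤ c * 2 ^ κ := by nlinarith
      linarith
    have h5 : 4 ^ (κ + 1) * u * S ≤ φ * ((6 * c * 2 ^ κ) * ‖f‖) :=
      h1.trans (by gcongr)
    have h6 : u * S ≤ (2 * c * φ * ‖f‖) * (1 / 2) ^ κ := by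
      rw [hhalf, mul_one_div, le_div_iff₀ h2κ]
      rw [pow_succ, h4] at h5
      have h7 : 2 ^ κ * (4 * (u * S * 2 ^ κ)) ≤ 2 ^ κ * (6 * c * φ * ‖f‖) := by
        calc 2 ^ κ * (4 * (u * S * 2 ^ κ)) = 2 ^ κ * 2 ^ κ * 4 * u * S := by ring
          _ ≤ φ * ((6 * c * 2 ^ κ) * ‖f‖) := h5
          _ = _ := by ring
      have h8 := le_of_mul_le_mul_left h7 h2κ
      have h9 : 0 ≤ c * φ * ‖f‖ := by positivity
      linarith
    refine h6.trans ?_
    refine mul_le_mul_of_nonneg_right ?_ (by positivity)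
    refine mul_le_mul_of_nonneg_right ?_ hf
    have : 0 ≤ D.A1 * D.A2 := by positivity
    linarith

/-- cost of deep sets -/
lemma cheap {c φ : ℝ} (hc : UB D c) (hc1 : 1 ≤ c) (hφ0 : 0 ≤ φ) (hφ : NUs D (1 / 4) φ)
    {f : X} {k : ℕ → ℕ} (hk : GO D f k) (n : ℕ) (hn : 0 < n) (u : ℝ) (hu : 0 < u)
    (hun : ‖D.xs (k (n - 1)) f‖ = u) (T : ℕ → ℕ)
    (hT : ∀ κ i, i < T κ ↔ 4 ^ κ * u ≤ ‖D.xs (k i) f‖) (B : Finset ℕ)
    (hB : ∀ i ∈ B, ∃ κ, T (κ + 1) + n / 2 ^ κ ≤ i ∧ i < n ∧ 4 ^ κ * u ≤ ‖D.xs (k i) f‖)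
    (lam : ℕ → ℝ) (hl : ∀ i ∈ B, 0 ≤ lam i ∧ lam i ≤ 1) :
    u * ‖∑ i ∈ B, ((lam i : ℝ) : 𝕜) • ee D f (k i)‖ ≤
      2 * ((2 * c * φ + D.A1 * D.A2) * ‖f‖) := by
  classical
  set C := (2 * c * φ + D.A1 * D.A2) * ‖f‖ with hC
  have hA1 := D.one_le_A1
  have hA2 := D.one_le_A2
  have hC0 : 0 ≤ C := by positivity
  -- levels
  have hlev : ∃ lev : ℕ → ℕ, ∀ i ∈ B, T (lev i + 1) + n / 2 ^ (lev i) ≤ i ∧ i < n ∧
      4 ^ (lev i) * u ≤ ‖D.xs (k i) f‖ := by
    choose g hg using hB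
    refine ⟨fun i => if h : i ∈ B then g i h else 0, fun i hi => ?_⟩
    simp only [dif_pos hi]
    exact hg i hi
  obtain ⟨lev, hlev⟩ := hlev
  set K := B.sup lev + 1 with hK
  have hmaps : ∀ i ∈ B, lev i ∈ Finset.range K := by
    intro i hi
    rw [Finset.mem_range, hK]
    have : lev i ≤ B.sup lev := Finset.le_sup hi
    omega
  rw [← Finset.sum_fiberwise_of_maps_to hmaps]
  have h1 : ∀ κ ∈ Finset.range K, u * ‖∑ i ∈ B.filter (fun i => lev i = κ),
      ((lam i : ℝ) : 𝕜) • ee D f (k i)‖ ≤ C * (1 / 2) ^ κ := by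
    intro κ _
    apply cheap_level hc hc1 hφ0 hφ hk n hn u hu hun κ (T (κ + 1)) (hT (κ + 1))
    · intro i hi
      obtain ⟨hiB, hiκ⟩ := Finset.mem_filter.mp hi
      have := hlev i hiB
      rwa [hiκ] at this
    · intro i hi
      exact hl i (Finset.mem_filter.mp hi).1
  calc u * ‖∑ κ ∈ Finset.range K, ∑ i ∈ B.filter (fun i => lev i = κ),
        ((lam i : ℝ) : 𝕜) • ee D f (k i)‖
      ≤ u * ∑ κ ∈ Finset.range K, ‖∑ i ∈ B.filter (fun i => lev i = κ),
        ((lam i : ℝ) : 𝕜) • ee D f (k i)‖ := by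
        gcongr
        exact norm_sum_le _ _
    _ = ∑ κ ∈ Finset.range K, u * ‖∑ i ∈ B.filter (fun i => lev i = κ),
        ((lam i : ℝ) : 𝕜) • ee D f (k i)‖ := Finset.mul_sum _ _ _
    _ ≤ ∑ κ ∈ Finset.range K, C * (1 / 2) ^ κ := Finset.sum_le_sum h1
    _ = C * ∑ κ ∈ Finset.range K, (1 / 2 : ℝ) ^ κ := (Finset.mul_sum _ _ _).symm
    _ ≤ C * 2 := by
        gcongr
        exact sum_geometric_two_le K
    _ = 2 * C := by ring

/-! ### Counting -/

/-- the bad positions -/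
def Bad (T : ℕ → ℕ) (n : ℕ) : Finset ℕ :=
  (Finset.Ico 7 (n + 7)).biUnion
    (fun κ => Finset.Ico (T (κ + 1) - n / 4 ^ κ) (T (κ + 1) + n / 2 ^ κ))

lemma notMem_Bad {T : ℕ → ℕ} {n i : ℕ} (h : i ∉ Bad T n) (κ : ℕ) (hκ : 7 ≤ κ) :
    ¬ (i < T (κ + 1) + n / 2 ^ κ ∧ T (κ + 1) ≤ i + n / 4 ^ κ) := by
  rintro ⟨h1, h2⟩
  by_cases h3 : κ < n + 7
  · apply h
    unfold Bad
    rw [Finset.mem_biUnion]
    refine ⟨κ, Finset.mem_Ico.mpr ⟨hκ, h3⟩, Finset.mem_Ico.mpr ⟨?_, h1⟩⟩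
    omega
  · push Not at h3
    have h4 : n < 2 ^ κ := by
      calc n < 2 ^ n := Nat.lt_two_pow_self
        _ ≤ 2 ^ κ := Nat.pow_le_pow_right (by norm_num) (by omega)
    have h5 : n < 4 ^ κ := h4.trans_le (Nat.pow_le_pow_left (by norm_num) κ)
    rw [Nat.div_eq_of_lt h4] at h1
    rw [Nat.div_eq_of_lt h5] at h2
    omega

lemma card_Bad (T : ℕ → ℕ) (n : ℕ) : ((Bad T n).card : ℝ) ≤ n / 32 := by
  have h1 : (Bad T n).card ≤ ∑ κ ∈ Finset.Ico 7 (n + 7), 2 * (n / 2 ^ κ) := by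
    unfold Bad
    refine Finset.card_biUnion_le.trans (Finset.sum_le_sum fun κ _ => ?_)
    rw [Nat.card_Ico]
    have h2 : n / 4 ^ κ ≤ n / 2 ^ κ :=
      Nat.div_le_div_left (Nat.pow_le_pow_left (by norm_num) κ) (by positivity)
    omega
  have h2 : ((∑ κ ∈ Finset.Ico 7 (n + 7), 2 * (n / 2 ^ κ) : ℕ) : ℝ) ≤ n / 32 := by
    rw [Finset.sum_Ico_eq_sum_range]
    push_cast
    calc ∑ j ∈ Finset.range (n + 7 - 7), (2 : ℝ) * ((n / 2 ^ (7 + j) : ℕ) : ℝ)
        ≤ ∑ j ∈ Finset.range (n + 7 - 7), (n / 64 : ℝ) * (1 / 2) ^ j := by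
          refine Finset.sum_le_sum fun j _ => ?_
          have h3 : ((n / 2 ^ (7 + j) : ℕ) : ℝ) ≤ (n : ℝ) / ((2 ^ (7 + j) : ℕ) : ℝ) :=
            Nat.cast_div_le
          have h4 : (n : ℝ) / ((2 ^ (7 + j) : ℕ) : ℝ) = n / 128 * (1 / 2) ^ j := by
            push_cast
            rw [pow_add, one_div_pow]
            field_simp
            norm_num
          rw [h4] at h3
          linarith
      _ = (n / 64 : ℝ) * ∑ j ∈ Finset.range (n + 7 - 7), (1 / 2 : ℝ) ^ j :=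
          (Finset.mul_sum _ _ _).symm
      _ ≤ (n / 64 : ℝ) * 2 := by
          gcongr
          exact sum_geometric_two_le _
      _ = n / 32 := by ring
  exact le_trans (by exact_mod_cast h1) h2

lemma exists_p (n : ℕ) (hn : 64 ≤ n) (Bd : Finset ℕ) (hc : (Bd.card : ℝ) ≤ n / 32) :
    ∃ p, p ∉ Bd ∧ n / 8 < p ∧ p < n / 4 ∧
      (n : ℝ) / 16 ≤ ((Finset.range p).filter (fun i => i ∉ Bd)).card := by
  classical
  have hn' : (64 : ℝ) ≤ n := by exact_mod_cast hn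
  have h1 : Bd.card < (Finset.Ico (n / 8 + 1) (n / 4)).card := by
    rw [Nat.card_Ico]
    have h2 : 32 * Bd.card ≤ n := by
      have : (32 : ℝ) * Bd.card ≤ n := by linarith
      exact_mod_cast this
    omega
  obtain ⟨p, hp, hpB⟩ := Finset.exists_mem_notMem_of_card_lt_card h1
  rw [Finset.mem_Ico] at hp
  refine ⟨p, hpB, by omega, hp.2, ?_⟩
  have h2 : p ≤ ((Finset.range p).filter (fun i => i ∉ Bd)).card + Bd.card := by
    have h3 := Finset.card_filter_add_card_filter_not (s := Finset.range p) (fun i => i ∉ Bd)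
    rw [Finset.card_range] at h3
    have h4 : ((Finset.range p).filter (fun i => ¬ (i ∉ Bd))).card ≤ Bd.card := by
      apply Finset.card_le_card
      intro i hi
      have := (Finset.mem_filter.mp hi).2
      push Not at this
      exact this
    omega
  have h3 : (p : ℝ) ≤ ((Finset.range p).filter (fun i => i ∉ Bd)).card + Bd.card := by
    exact_mod_cast h2
  have h4 : (n : ℝ) / 8 < p := by
    have h5 : n < 8 * p := by omega
    have h6 : (n : ℝ) < 8 * p := by exact_mod_cast h5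
    linarith
  linarith

/-- sorted enumerations -/
lemma exists_sorted (g : ℕ → ℝ) (F : Finset ℕ) : ∃ l : List ℕ, l.Nodup ∧ (∀ n, n ∈ l ↔ n ∈ F) ∧
    l.Pairwise (fun a b => g b ≤ g a) := by
  classical
  induction hm : F.card generalizing F with
  | zero =>
    rw [Finset.card_eq_zero] at hm
    exact ⟨[], List.nodup_nil, fun n => by rw [hm]; simp, List.Pairwise.nil⟩
  | succ m ih =>
    have hne : F.Nonempty := by
      rw [← Finset.card_pos]; omega
    obtain ⟨a, ha, hmax⟩ := F.exists_max_image g hne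
    obtain ⟨l, h1, h2, h3⟩ := ih (F.erase a) (by rw [Finset.card_erase_of_mem ha]; omega)
    refine ⟨a :: l, ?_, ?_, ?_⟩
    · rw [List.nodup_cons]
      exact ⟨fun h => (Finset.notMem_erase a F) ((h2 a).mp h), h1⟩
    · intro n
      rw [List.mem_cons, h2, Finset.mem_erase]
      constructor
      · rintro (h | h)
        · rw [h]; exact ha
        · exact h.2
      · intro h
        by_cases hn : n = a
        · exact Or.inl hn
        · exact Or.inr ⟨hn, h⟩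
    · rw [List.pairwise_cons]
      exact ⟨fun b hb => hmax b (Finset.mem_of_mem_erase ((h2 b).mp hb)), h3⟩

end Pool.Agent.R267.CQ
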