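import Pool.Agent.R267.CQ6

set_option autoImplicit false

open Filter Topology Finset

/-! The greedy sums are bounded: the main estimates. -/

namespace Pool.Agent.R267.CQ

universe u v

variable {𝕜 : Type u} [RCLike 𝕜] {X : Type v} [NormedAddCommGroup X] [NormedSpace 𝕜 X]
  {D : Bas 𝕜 X}

lemma xs_sum_index {k : ℕ → ℕ} (hk : Function.Injective k) (F : Finset ℕ) (a : ℕ → 𝕜) (j : ℕ) :
    D.xs (k j) (∑ i ∈ F, a i • D.x (k i)) = if j ∈ F then a j else 0 := by
  rw [map_sum]
  have h1 : ∀ i ∈ F, D.xs (k j) (a i • D.x (k i)) = if j = i then a i else 0 := by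
    intro i _
    rw [map_smul, D.biorth]
    by_cases h : j = i
    · subst h; simp
    · rw [if_neg h, if_neg (fun h' => h (hk h'))]; simp
  rw [Finset.sum_congr rfl h1, Finset.sum_ite_eq]

lemma xs_sum_index' {k : ℕ → ℕ} (F : Finset ℕ) (a : ℕ → 𝕜) (m : ℕ) (hm : m ∉ Set.range k) :
    D.xs m (∑ i ∈ F, a i • D.x (k i)) = 0 := by
  rw [map_sum]
  apply Finset.sum_eq_zero
  intro i _
  rw [map_smul, D.biorth, if_neg (fun h => hm ⟨i, h.symm⟩)]
  simp

lemma exists_level {x u : ℝ} (hu : 0 < u) (h : 4 ^ 7 * u ≤ x) :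
    ∃ κ : ℕ, 7 ≤ κ ∧ 4 ^ κ * u ≤ x ∧ x < 4 ^ (κ + 1) * u := by
  have h1 : (1 : ℝ) ≤ x / u := by
    rw [le_div_iff₀ hu]
    have : (1 : ℝ) ≤ 4 ^ 7 := by norm_num
    nlinarith
  obtain ⟨κ, h2, h3⟩ := exists_nat_pow_near h1 (by norm_num : (1 : ℝ) < 4)
  rw [le_div_iff₀ hu] at h2
  rw [div_lt_iff₀ hu] at h3
  refine ⟨κ, ?_, h2, h3⟩
  by_contra hcon
  push Not at hcon
  have h4 : (4 : ℝ) ^ (κ + 1) ≤ 4 ^ 7 := pow_le_pow_right₀ (by norm_num) (by omega)
  nlinarith

lemma case2 {c φ : ℝ} (hc : UB D c) (hc1 : 1 ≤ c) (hφ0 : 0 ≤ φ) (hφ : NUs D (1 / 4) φ)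
    {f : X} {k : ℕ → ℕ} (hk : GO D f k) (n : ℕ) (hn : 64 ≤ n) (u : ℝ) (hu : 0 < u)
    (hun : ‖D.xs (k (n - 1)) f‖ = u) (hbig : ∀ i < n / 2, 4 ^ 7 * u ≤ ‖D.xs (k i) f‖) :
    ‖∑ i ∈ Finset.range n, vv D f (k i)‖ ≤
      (3 * c + 33 * c * (1 + 3 * c + 2 * (2 * c * φ + D.A1 * D.A2)) +
        4 * (2 * c * φ + D.A1 * D.A2)) * ‖f‖ := by
  classical
  have hA1 := D.one_le_A1
  have hA2 := D.one_le_A2
  have hf := norm_nonneg f
  set C1 := 2 * c * φ + D.A1 * D.A2 with hC1
  have hC10 : 0 ≤ C1 := by positivity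
  have hTex : ∀ κ : ℕ, ∃ T : ℕ, ∀ i, i < T ↔ 4 ^ κ * u ≤ ‖D.xs (k i) f‖ := fun κ =>
    exists_thr hk (4 ^ κ * u) (by positivity)
  choose T hT using hTex
  obtain ⟨p, hpB, hp1, hp2, hScard⟩ := exists_p n hn (Bad T n) (card_Bad T n)
  set S := (Finset.range p).filter (fun i => i ∉ Bad T n) with hS
  set q := n / 2 with hq
  have hpq : p < q := by omega
  have hqn : q ≤ n := by omega
  have hSm : ∀ i ∈ S, i < p ∧ i ∉ Bad T n := by
    intro i hi
    obtain ⟨h1, h2⟩ := Finset.mem_filter.mp hi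
    exact ⟨Finset.mem_range.mp h1, h2⟩
  -- the costs
  have hcheap := fun (B : Finset ℕ) => cheap hc hc1 hφ0 hφ hk n (by omega) u hu hun T hT B
  have hdeepS : ∀ i ∈ S, ∃ κ, T (κ + 1) + n / 2 ^ κ ≤ i ∧ i < n ∧
      4 ^ κ * u ≤ ‖D.xs (k i) f‖ := by
    intro i hi
    obtain ⟨h1, h2⟩ := hSm i hi
    obtain ⟨κ, h3, h4, h5⟩ := exists_level hu (hbig i (by omega))
    refine ⟨κ, ?_, by omega, h4⟩
    have h6 := notMem_Bad h2 κ h3
    have h7 : T (κ + 1) ≤ i := by
      by_contra hcon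
      push Not at hcon
      have := (hT (κ + 1) i).mp hcon
      linarith
    by_contra hcon
    push Not at hcon
    exact h6 ⟨hcon, h7.trans (Nat.le_add_right _ _)⟩
  have hM : ∀ B ⊆ S, u * ‖∑ i ∈ B, ee D f (k i)‖ ≤ 2 * (C1 * ‖f‖) := by
    intro B hB
    have h1 := hcheap B (fun i hi => hdeepS i (hB hi)) (fun _ => 1)
      (fun i _ => ⟨zero_le_one, le_refl _⟩)
    simp only [RCLike.ofReal_one, one_smul] at h1
    exact h1
  have hpqr : (0 : ℝ) < (q : ℝ) - p := by
    have : (p : ℝ) < q := by exact_mod_cast hpq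
    linarith
  have hratio : ((q : ℝ) + p) / ((q : ℝ) - p) ≤ 3 := by
    rw [div_le_iff₀ hpqr]
    have h1 : 2 * p ≤ q := by omega
    have h2 : 2 * (p : ℝ) ≤ q := by exact_mod_cast h1
    linarith
  -- the vector `z`
  set y := Yr D f k p q with hy
  set F := ∑ i ∈ S, ee D f (k i) with hF
  set z := y + ((u : ℝ) : 𝕜) • F with hz
  have hun' : ‖((u : ℝ) : 𝕜)‖ = u := by rw [RCLike.norm_ofReal, abs_of_pos hu]
  have hyn : ‖y‖ ≤ (1 + 3 * c) * ‖f‖ := by
    refine (Yr_norm hc hk hpq).trans ?_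
    refine mul_le_mul_of_nonneg_right ?_ hf
    have : c * (((q : ℝ) + p) / ((q : ℝ) - p)) ≤ c * 3 := by gcongr
    linarith
  have hzn : ‖z‖ ≤ (1 + 3 * c + 2 * C1) * ‖f‖ := by
    rw [hz]
    refine (norm_add_le _ _).trans ?_
    rw [norm_smul, hun']
    have := hM S (Finset.Subset.refl _)
    linarith
  have hxz : ∀ j, D.xs (k j) z = ((W p q j : ℝ) : 𝕜) * D.xs (k j) f +
      if j ∈ S then ((u : ℝ) : 𝕜) * ph (D.xs (k j) f) else 0 := by
    intro j
    rw [hz, map_add, hy, xs_Yr hk hpq, map_smul, smul_eq_mul, hF]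
    congr 1
    unfold ee
    rw [xs_sum_index hk.inj S (fun i => ph (D.xs (k i) f))]
    split_ifs
    · rfl
    · rw [mul_zero]
  have hxz' : ∀ m, m ∉ Set.range k → D.xs m z = 0 := by
    intro m hm
    rw [hz, map_add, hy, xs_Yr' hk hpq m hm, map_smul, hF]
    unfold ee
    rw [xs_sum_index' S (fun i => ph (D.xs (k i) f)) m hm]
    simp
  have hxzS : ∀ j ∈ S, D.xs (k j) z = ((u : ℝ) : 𝕜) * ph (D.xs (k j) f) := by
    intro j hj
    rw [hxz, if_pos hj, W_low hpq (hSm j hj).1.le]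
    simp
  have hxzn : ∀ j, j ∉ S → D.xs (k j) z = ((W p q j : ℝ) : 𝕜) * D.xs (k j) f := by
    intro j hj
    rw [hxz, if_neg hj, add_zero]
  have hnS : ∀ j ∈ S, ‖D.xs (k j) z‖ = u := by
    intro j hj
    rw [hxzS j hj, norm_mul, hun', norm_ph, mul_one]
  have hnN : ∀ j, j ∉ S → ‖D.xs (k j) z‖ = W p q j * ‖D.xs (k j) f‖ := by
    intro j hj
    rw [hxzn j hj, norm_mul, RCLike.norm_ofReal, abs_of_nonneg (W_nonneg hpq j)]
  -- the top set
  set T' := (Finset.range n).filter (fun i => u ≤ W p q i * ‖D.xs (k i) f‖) with hT'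
  have hT'm : ∀ i ∈ T', i < n ∧ p < i ∧ i ∉ S ∧ u ≤ W p q i * ‖D.xs (k i) f‖ := by
    intro i hi
    obtain ⟨h1, h2⟩ := Finset.mem_filter.mp hi
    have h3 : p < i := by
      by_contra hcon
      push Not at hcon
      rw [W_low hpq hcon, zero_mul] at h2
      linarith
    refine ⟨Finset.mem_range.mp h1, h3, fun h => ?_, h2⟩
    have := (hSm i h).1
    omega
  have hout : ∀ j, j ∉ T' → ‖D.xs (k j) z‖ ≤ u := by
    intro j hj
    by_cases hjS : j ∈ S
    · exact (hnS j hjS).le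
    · rw [hnN j hjS]
      by_cases hjn : j < n
      · by_contra hcon
        push Not at hcon
        exact hj (Finset.mem_filter.mpr ⟨Finset.mem_range.mpr hjn, hcon.le⟩)
      · have h1 : ‖D.xs (k j) f‖ ≤ u := by
          rw [← hun]
          exact hk.anti _ _ (by omega)
        calc W p q j * ‖D.xs (k j) f‖ ≤ 1 * u :=
              mul_le_mul (W_le_one hpq j) h1 (norm_nonneg _) zero_le_one
          _ = u := one_mul u
  have hin : ∀ j ∈ T', u ≤ ‖D.xs (k j) z‖ := by
    intro j hj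
    obtain ⟨_, _, h3, h4⟩ := hT'm j hj
    rw [hnN j h3]
    exact h4
  -- the lists
  obtain ⟨lT, hlT1, hlT2, hlT3⟩ := exists_sorted (fun m => ‖D.xs m z‖) (T'.image k)
  set lS := (S.image k).toList with hlS
  have hlSm : ∀ m, m ∈ lS ↔ m ∈ S.image k := fun m => by rw [hlS, Finset.mem_toList]
  have hg1 : GLst D z lT := by
    refine ⟨hlT1, hlT3, ?_⟩
    intro a ha m hm
    obtain ⟨i, hi, rfl⟩ := Finset.mem_image.mp ((hlT2 a).mp ha)
    refine le_trans ?_ (hin i hi)
    by_cases hmr : m ∈ Set.range k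
    · obtain ⟨j, rfl⟩ := hmr
      apply hout
      intro hj
      exact hm ((hlT2 _).mpr (Finset.mem_image_of_mem k hj))
    · rw [hxz' m hmr, norm_zero]; exact hu.le
  have hg2 : GLst D z (lT ++ lS) := by
    have hcross : ∀ a ∈ lT, ∀ b ∈ lS, ‖D.xs b z‖ ≤ ‖D.xs a z‖ := by
      intro a ha b hb
      obtain ⟨i, hi, rfl⟩ := Finset.mem_image.mp ((hlT2 a).mp ha)
      obtain ⟨j, hj, rfl⟩ := Finset.mem_image.mp ((hlSm b).mp hb)
      rw [hnS j hj]
      exact hin i hi
    refine ⟨?_, ?_, ?_⟩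
    · rw [List.nodup_append]
      refine ⟨hlT1, (S.image k).nodup_toList, ?_⟩
      rintro a ha _ hb rfl
      obtain ⟨i, hi, rfl⟩ := Finset.mem_image.mp ((hlT2 a).mp ha)
      obtain ⟨j, hj, hji⟩ := Finset.mem_image.mp ((hlSm _).mp hb)
      rw [hk.inj hji] at hj
      exact (hT'm i hi).2.2.1 hj
    · rw [List.pairwise_append]
      refine ⟨hlT3, ?_, hcross⟩
      rw [List.pairwise_iff_getElem]
      intro i j hi hj _
      obtain ⟨i', hi', hi2⟩ := Finset.mem_image.mp ((hlSm _).mp (List.getElem_mem hi))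
      obtain ⟨j', hj', hj2⟩ := Finset.mem_image.mp ((hlSm _).mp (List.getElem_mem hj))
      rw [← hi2, ← hj2, hnS i' hi', hnS j' hj']
    · intro a ha m hm
      rw [List.mem_append] at ha hm
      push Not at hm
      have h1 : u ≤ ‖D.xs a z‖ := by
        rcases ha with ha | ha
        · obtain ⟨i, hi, rfl⟩ := Finset.mem_image.mp ((hlT2 a).mp ha)
          exact hin i hi
        · obtain ⟨j, hj, rfl⟩ := Finset.mem_image.mp ((hlSm a).mp ha)
          exact (hnS j hj).ge
      refine le_trans ?_ h1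
      by_cases hmr : m ∈ Set.range k
      · obtain ⟨j, rfl⟩ := hmr
        apply hout
        intro hj
        exact hm.1 ((hlT2 _).mpr (Finset.mem_image_of_mem k hj))
      · rw [hxz' m hmr, norm_zero]; exact hu.le
  -- the projection onto the top set
  set P := ∑ i ∈ T', ((W p q i : ℝ) : 𝕜) • vv D f (k i) with hP
  have hsumT : (lT.map (vv D z)).sum = P := by
    rw [← List.sum_toFinset _ hlT1]
    have h1 : lT.toFinset = T'.image k := by
      ext m
      rw [List.mem_toFinset, hlT2]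
    rw [h1, Finset.sum_image (fun a _ b _ h => hk.inj h), hP]
    apply Finset.sum_congr rfl
    intro i hi
    unfold vv
    rw [hxzn i (hT'm i hi).2.2.1, mul_smul]
  have hlSlen : lS.length = S.card := by
    rw [hlS, Finset.length_toList, Finset.card_image_of_injective _ hk.inj]
  have hlTlen : lT.length ≤ n := by
    rw [← List.toFinset_card_of_nodup hlT1]
    have h1 : lT.toFinset = T'.image k := by
      ext m
      rw [List.mem_toFinset, hlT2]
    rw [h1, Finset.card_image_of_injective _ hk.inj]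
    have := Finset.card_le_card (Finset.filter_subset (fun i => u ≤ W p q i * ‖D.xs (k i) f‖)
      (Finset.range n))
    rwa [Finset.card_range] at this
  have hcsS : ‖CS (vv D z) lS‖ ≤ lS.length * (2 * (C1 * ‖f‖)) := by
    apply CS_hull _ _ _ (S.image k).nodup_toList
    intro B hB
    have hB' : B = (S.filter (fun i => k i ∈ B)).image k := by
      ext m
      rw [Finset.mem_image]
      constructor
      · intro hm
        have h1 := hB hm
        rw [List.mem_toFinset, hlSm] at h1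
        obtain ⟨i, hi, rfl⟩ := Finset.mem_image.mp h1
        exact ⟨i, Finset.mem_filter.mpr ⟨hi, hm⟩, rfl⟩
      · rintro ⟨i, hi, rfl⟩
        exact (Finset.mem_filter.mp hi).2
    rw [hB', Finset.sum_image (fun a _ b _ h => hk.inj h)]
    have h1 : ∑ i ∈ S.filter (fun i => k i ∈ B), vv D z (k i) =
        ((u : ℝ) : 𝕜) • ∑ i ∈ S.filter (fun i => k i ∈ B), ee D f (k i) := by
      rw [Finset.smul_sum]
      apply Finset.sum_congr rfl
      intro i hi
      unfold vv ee
      rw [hxzS i (Finset.mem_filter.mp hi).1, mul_smul]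
    rw [h1, norm_smul, hun']
    exact hM _ (Finset.filter_subset _ _)
  have hmain := CS_append (vv D z) lT lS
  rw [hsumT] at hmain
  have hPn : ‖P‖ ≤ 33 * c * ((1 + 3 * c + 2 * C1) * ‖f‖) + 2 * (C1 * ‖f‖) := by
    have h1 : lS.length • P = CS (vv D z) (lT ++ lS) - CS (vv D z) lT - CS (vv D z) lS := by
      rw [hmain]; abel
    have h2 := norm_nsmul_eq lS.length P 𝕜
    rw [h1] at h2
    have h3 := norm_sub_le (CS (vv D z) (lT ++ lS) - CS (vv D z) lT) (CS (vv D z) lS)
    have h4 := norm_sub_le (CS (vv D z) (lT ++ lS)) (CS (vv D z) lT)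
    have h5 := hc z _ hg2
    have h6 := hc z _ hg1
    rw [List.length_append] at h5
    push_cast at h5
    rw [h2] at h3
    have hs : (n : ℝ) / 16 ≤ lS.length := by rw [hlSlen]; exact hScard
    have hspos : (0 : ℝ) < lS.length := by
      have : (64 : ℝ) ≤ n := by exact_mod_cast hn
      linarith
    have ht : (lT.length : ℝ) ≤ 16 * lS.length := by
      have : (lT.length : ℝ) ≤ n := by exact_mod_cast hlTlen
      linarith
    have hz0 := norm_nonneg z
    have hcz : 0 ≤ c * ‖z‖ := by positivity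
    have h7 : (lS.length : ℝ) * ‖P‖ ≤ lS.length * (33 * (c * ‖z‖) + 2 * (C1 * ‖f‖)) := by
      have h8 : (lT.length : ℝ) * (c * ‖z‖) ≤ 16 * lS.length * (c * ‖z‖) :=
        mul_le_mul_of_nonneg_right ht hcz
      nlinarith
    have h8 := le_of_mul_le_mul_left h7 hspos
    have h9 : c * ‖z‖ ≤ c * ((1 + 3 * c + 2 * C1) * ‖f‖) := by gcongr
    linarith
  -- the remaining coordinates
  set R0 := (Finset.range n).filter (fun i => ¬ (u ≤ W p q i * ‖D.xs (k i) f‖)) with hR0
  have hsplit : ∑ i ∈ Finset.range n, ((W p q i : ℝ) : 𝕜) • vv D f (k i) =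
      P + ∑ i ∈ R0.filter (fun i => p < i), ((W p q i : ℝ) : 𝕜) • vv D f (k i) := by
    rw [hP, hT', ← Finset.sum_filter_add_sum_filter_not (Finset.range n)
      (fun i => u ≤ W p q i * ‖D.xs (k i) f‖)]
    congr 1
    symm
    apply Finset.sum_subset (Finset.filter_subset _ _)
    intro i hi hi'
    have : ¬ p < i := fun h => hi' (Finset.mem_filter.mpr ⟨hi, h⟩)
    rw [W_low hpq (by omega)]
    simp
  have hR0m : ∀ i ∈ R0.filter (fun i => p < i), p < i ∧ i < q ∧
      W p q i * ‖D.xs (k i) f‖ < u := by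
    intro i hi
    obtain ⟨h1, h2⟩ := Finset.mem_filter.mp hi
    obtain ⟨h3, h4⟩ := Finset.mem_filter.mp h1
    push Not at h4
    rw [Finset.mem_range] at h3
    refine ⟨h2, ?_, h4⟩
    by_contra hcon
    push Not at hcon
    rw [W_high hpq hcon, one_mul, ← hun] at h4
    have := hk.anti i (n - 1) (by omega)
    linarith
  have hRn : ‖∑ i ∈ R0.filter (fun i => p < i), ((W p q i : ℝ) : 𝕜) • vv D f (k i)‖ ≤
      2 * (C1 * ‖f‖) := by
    have h1 : ∑ i ∈ R0.filter (fun i => p < i), ((W p q i : ℝ) : 𝕜) • vv D f (k i) =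
        ((u : ℝ) : 𝕜) • ∑ i ∈ R0.filter (fun i => p < i),
          (((W p q i * ‖D.xs (k i) f‖ / u : ℝ)) : 𝕜) • ee D f (k i) := by
      rw [Finset.smul_sum]
      apply Finset.sum_congr rfl
      intro i _
      rw [vv_eq, ← mul_smul, ← mul_smul, ← RCLike.ofReal_mul, ← RCLike.ofReal_mul]
      congr 2
      field_simp
    rw [h1, norm_smul, hun']
    apply hcheap
    · intro i hi
      obtain ⟨h2, h3, h4⟩ := hR0m i hi
      obtain ⟨κ, h5, h6, h7⟩ := exists_level hu (hbig i h3)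
      refine ⟨κ, ?_, by omega, h6⟩
      have h8 : T (κ + 1) ≤ i := by
        by_contra hcon
        push Not at hcon
        have := (hT (κ + 1) i).mp hcon
        linarith
      have h9 : (i - p) * 4 ^ κ < n := by
        have h10 : ((i : ℝ) - p) * 4 ^ κ < q - p := by
          rw [W_mid hpq h2.le h3.le] at h4
          have h11 : (p : ℝ) < i := by exact_mod_cast h2
          have h12 : ((i : ℝ) - p) / ((q : ℝ) - p) * (4 ^ κ * u) < u :=
            lt_of_le_of_lt (mul_le_mul_of_nonneg_left h6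
              (div_nonneg (by linarith) hpqr.le)) h4
          have h13 : ((i : ℝ) - p) / ((q : ℝ) - p) * (4 ^ κ * u) =
              (((i : ℝ) - p) * 4 ^ κ / ((q : ℝ) - p)) * u := by ring
          rw [h13] at h12
          have h14 : ((i : ℝ) - p) * 4 ^ κ / ((q : ℝ) - p) < 1 := by
            by_contra hcon
            push Not at hcon
            nlinarith
          rw [div_lt_one hpqr] at h14
          exact h14
        have h11 : (((i - p) * 4 ^ κ : ℕ) : ℝ) < n := by
          push_cast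
          rw [Nat.cast_sub h2.le]
          have h12 : (q : ℝ) ≤ n := by exact_mod_cast hqn
          have h13 : (0 : ℝ) ≤ p := Nat.cast_nonneg p
          linarith
        exact_mod_cast h11
      have h10 : i - p ≤ n / 4 ^ κ := by
        rw [Nat.le_div_iff_mul_le (by positivity)]
        exact h9.le
      have h11 := notMem_Bad hpB κ h5
      by_contra hcon
      push Not at hcon
      exact h11 ⟨by omega, by omega⟩
    · intro i hi
      obtain ⟨h2, h3, h4⟩ := hR0m i hi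
      constructor
      · have := W_nonneg hpq i
        positivity
      · rw [div_le_one hu]
        exact h4.le
  -- conclusion
  have hTr := Tr_norm hc hk hpq
  have hTr' : ‖Tr D f k p q‖ ≤ 3 * c * ‖f‖ := by
    refine hTr.trans ?_
    refine mul_le_mul_of_nonneg_right ?_ hf
    have : c * (((q : ℝ) + p) / ((q : ℝ) - p)) ≤ c * 3 := by gcongr
    linarith
  have hdec : ∑ i ∈ Finset.range n, vv D f (k i) = Tr D f k p q +
      ∑ i ∈ Finset.range n, ((W p q i : ℝ) : 𝕜) • vv D f (k i) := by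
    rw [Tr_eq hpq hqn, ← Finset.sum_add_distrib]
    apply Finset.sum_congr rfl
    intro i _
    rw [← add_smul]
    push_cast
    rw [sub_add_cancel, one_smul]
  rw [hdec, hsplit]
  refine (norm_add_le _ _).trans ?_
  have h1 := norm_add_le P (∑ i ∈ R0.filter (fun i => p < i), ((W p q i : ℝ) : 𝕜) • vv D f (k i))
  nlinarith

lemma case1 {c ψ : ℝ} (hc : UB D c) (hc1 : 1 ≤ c) (hψ0 : 0 ≤ ψ) (hψ : NUs D (1 / 4 ^ 7) ψ)
    {f : X} {k : ℕ → ℕ} (hk : GO D f k) (n : ℕ) (hn : 64 ≤ n) (u : ℝ) (hu : 0 < u)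
    (hun : ‖D.xs (k (n - 1)) f‖ = u) (i0 : ℕ) (hi0 : i0 < n / 2)
    (hsmall : ‖D.xs (k i0) f‖ < 4 ^ 7 * u) :
    ‖∑ i ∈ Finset.range n, vv D f (k i)‖ ≤ (8 * c + ψ * (1 + 10 * c)) * ‖f‖ := by
  classical
  have hf := norm_nonneg f
  set q := n / 2 with hq
  set d := n / 4 with hd
  set r := q + d with hr
  have hdpos : 0 < d := by omega
  have hrn : r < n := by omega
  have hv : 0 < 4 ^ 7 * u := by positivity
  have hle : ∀ i, q < i → ‖D.xs (k i) f‖ ≤ 4 ^ 7 * u := fun i hi =>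
    (hk.anti i0 i (by omega)).trans hsmall.le
  have hge : ∀ i, i < n → u ≤ ‖D.xs (k i) f‖ := by
    intro i hi
    rw [← hun]
    exact hk.anti i (n - 1) (by omega)
  have hdr : (0 : ℝ) < d := by exact_mod_cast hdpos
  have hwin := window hc hψ0 hψ hk q d hdpos (4 ^ 7 * u) hv hle
    ((Finset.range n).filter (fun i => r ≤ i)) (fun i hi => by
      obtain ⟨h1, h2⟩ := Finset.mem_filter.mp hi
      rw [Finset.mem_range] at h1
      refine ⟨h2, ?_⟩
      have := hge i h1
      have e1 : (1 : ℝ) / 4 ^ 7 * (4 ^ 7 * u) = u := by field_simp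
      rw [e1]
      exact this) (fun i => W r n i * ‖D.xs (k i) f‖ / (4 ^ 7 * u)) (fun i hi => by
      obtain ⟨h1, h2⟩ := Finset.mem_filter.mp hi
      have h3 := W_nonneg hrn i
      have h4 := W_le_one hrn i
      have h5 := hle i (by omega)
      constructor
      · positivity
      · rw [div_le_one hv]
        calc W r n i * ‖D.xs (k i) f‖ ≤ 1 * (4 ^ 7 * u) :=
              mul_le_mul h4 h5 (norm_nonneg _) zero_le_one
          _ = _ := one_mul _)
  have hdec : ∑ i ∈ Finset.range n, vv D f (k i) = Tr D f k r n +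
      ∑ i ∈ Finset.range n, ((W r n i : ℝ) : 𝕜) • vv D f (k i) := by
    rw [Tr_eq hrn (le_refl n), ← Finset.sum_add_distrib]
    apply Finset.sum_congr rfl
    intro i _
    rw [← add_smul]
    push_cast
    rw [sub_add_cancel, one_smul]
  have hsub : ∑ i ∈ Finset.range n, ((W r n i : ℝ) : 𝕜) • vv D f (k i) =
      (((4 ^ 7 * u : ℝ)) : 𝕜) • ∑ i ∈ (Finset.range n).filter (fun i => r ≤ i),
        (((W r n i * ‖D.xs (k i) f‖ / (4 ^ 7 * u) : ℝ)) : 𝕜) • ee D f (k i) := by
    rw [Finset.smul_sum]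
    have h1 : ∀ i ∈ (Finset.range n).filter (fun i => r ≤ i),
        (((4 ^ 7 * u : ℝ)) : 𝕜) • (((W r n i * ‖D.xs (k i) f‖ / (4 ^ 7 * u) : ℝ)) : 𝕜) •
          ee D f (k i) = ((W r n i : ℝ) : 𝕜) • vv D f (k i) := by
      intro i _
      rw [vv_eq, ← mul_smul, ← mul_smul, ← RCLike.ofReal_mul, ← RCLike.ofReal_mul]
      congr 2
      field_simp
    rw [Finset.sum_congr rfl h1]
    symm
    apply Finset.sum_subset (Finset.filter_subset _ _)
    intro i hi hi'
    have : ¬ r ≤ i := fun h => hi' (Finset.mem_filter.mpr ⟨hi, h⟩)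
    rw [W_low hrn (by omega)]
    simp
  rw [hdec, hsub]
  refine (norm_add_le _ _).trans ?_
  rw [norm_smul, RCLike.norm_ofReal, abs_of_pos hv]
  have h1 : ‖Tr D f k r n‖ ≤ 8 * c * ‖f‖ := by
    refine (Tr_norm hc hk hrn).trans ?_
    refine mul_le_mul_of_nonneg_right ?_ hf
    have h2 : ((n : ℝ) + r) / ((n : ℝ) - r) ≤ 8 := by
      have h3 : (0 : ℝ) < (n : ℝ) - r := by
        have : (r : ℝ) < n := by exact_mod_cast hrn
        linarith
      rw [div_le_iff₀ h3]
      have h4 : n ≤ 4 * (n - r) := by omega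
      have h5 : (n : ℝ) ≤ 4 * ((n : ℝ) - r) := by
        have : (n : ℝ) ≤ ((4 * (n - r) : ℕ) : ℝ) := by exact_mod_cast h4
        push_cast at this
        rwa [Nat.cast_sub hrn.le] at this
      linarith
    have : c * (((n : ℝ) + r) / ((n : ℝ) - r)) ≤ c * 8 := by gcongr
    linarith
  have h2 : (1 + c * ((2 * (q : ℝ) + d) / d)) ≤ 1 + 10 * c := by
    have h3 : (2 * (q : ℝ) + d) / d ≤ 10 := by
      rw [div_le_iff₀ hdr]
      have h4 : 2 * q + d ≤ 10 * d := by omega
      have h5 : ((2 * q + d : ℕ) : ℝ) ≤ ((10 * d : ℕ) : ℝ) := by exact_mod_cast h4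
      push_cast at h5
      exact h5
    have : c * ((2 * (q : ℝ) + d) / d) ≤ c * 10 := by gcongr
    linarith
  have h3 : ψ * ((1 + c * ((2 * (q : ℝ) + d) / d)) * ‖f‖) ≤ ψ * ((1 + 10 * c) * ‖f‖) := by
    gcongr
  linarith

/-- the greedy sums are bounded -/
theorem quasi_greedy {c : ℝ} (hc : UB D c) (hc1 : 1 ≤ c) : ∃ C : ℝ, ∀ (f : X) (k : ℕ → ℕ),
    GO D f k → ∀ n : ℕ, ‖∑ i ∈ Finset.range n, vv D f (k i)‖ ≤ C * ‖f‖ := by
  obtain ⟨φ, hφ0, hφ⟩ := NU hc hc1 (1 / 4) (by norm_num)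
  obtain ⟨ψ, hψ0, hψ⟩ := NU hc hc1 (1 / 4 ^ 7) (by norm_num)
  have hA1 := D.one_le_A1
  have hA2 := D.one_le_A2
  set a := 3 * c + 33 * c * (1 + 3 * c + 2 * (2 * c * φ + D.A1 * D.A2)) +
        4 * (2 * c * φ + D.A1 * D.A2) with ha
  set b := 8 * c + ψ * (1 + 10 * c) with hb
  set e := 64 * (D.A1 * D.A2) with he
  have ha0 : 0 ≤ a := by positivity
  have hb0 : 0 ≤ b := by positivity
  have he0 : 0 ≤ e := by positivity
  refine ⟨a + b + e, fun f k hk n => ?_⟩
  have hf := norm_nonneg f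
  induction n with
  | zero =>
    simp
    positivity
  | succ n ih =>
    by_cases h0 : D.xs (k n) f = 0
    · rw [Finset.sum_range_succ]
      have : vv D f (k n) = 0 := by
        unfold vv
        rw [h0, zero_smul]
      rw [this, add_zero]
      exact ih
    · have hu : 0 < ‖D.xs (k (n + 1 - 1)) f‖ := by
        rw [Nat.add_sub_cancel]
        exact norm_pos_iff.mpr h0
      by_cases h64 : 64 ≤ n + 1
      · by_cases hbig : ∀ i < (n + 1) / 2, 4 ^ 7 * ‖D.xs (k (n + 1 - 1)) f‖ ≤ ‖D.xs (k i) f‖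
        · have h1 := case2 hc hc1 hφ0 hφ hk (n + 1) h64 _ hu rfl hbig
          refine h1.trans ?_
          rw [← ha]
          nlinarith [mul_nonneg hb0 hf, mul_nonneg he0 hf]
        · push Not at hbig
          obtain ⟨i0, hi0, hs⟩ := hbig
          have h1 := case1 hc hc1 hψ0 hψ hk (n + 1) h64 _ hu rfl i0 hi0 hs
          refine h1.trans ?_
          rw [← hb]
          nlinarith [mul_nonneg ha0 hf, mul_nonneg he0 hf]
      · have h1 : ‖∑ i ∈ Finset.range (n + 1), vv D f (k i)‖ ≤ e * ‖f‖ := by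
          refine (norm_sum_le _ _).trans ?_
          calc ∑ i ∈ Finset.range (n + 1), ‖vv D f (k i)‖ ≤
                ∑ i ∈ Finset.range (n + 1), D.A1 * D.A2 * ‖f‖ :=
                Finset.sum_le_sum fun i _ => vv_le D (k i) f
            _ = (n + 1 : ℕ) * (D.A1 * D.A2 * ‖f‖) := by
                rw [Finset.sum_const, nsmul_eq_mul, Finset.card_range]
            _ ≤ 64 * (D.A1 * D.A2 * ‖f‖) := by
                have : ((n + 1 : ℕ) : ℝ) ≤ 64 := by exact_mod_cast (by omega : n + 1 ≤ 64)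
                gcongr
            _ = e * ‖f‖ := by rw [he]; ring
        refine h1.trans ?_
        nlinarith [mul_nonneg ha0 hf, mul_nonneg hb0 hf]

end Pool.Agent.R267.CQ
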