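import Pool.Agent.R267.ChSpace

set_option autoImplicit false
set_option synthInstance.maxHeartbeats 400000

/-! The Chebyshev greedy bound. -/

namespace Pool.Agent.R267.CH

variable {𝕜 : Type} [RCLike 𝕜]

/-- coordinates of a residual -/
lemma es_res (f : C0 𝕜) (A : Finset ℕ) (ρ : ℕ → 𝕜) (i : ℕ) :
    es i (f - ∑ n ∈ A, (es n f - ρ n) • e n) = if i ∈ A then ρ i else es i f := by
  rw [map_sub, es_sum]
  split_ifs
  · ring
  · ring

lemma pow_sq (i : ℕ) : ((-1 : 𝕜) ^ i) * (-1) ^ i = 1 := by
  rw [← pow_add, ← two_mul]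
  exact Even.neg_one_pow (even_two_mul i)

lemma norm_pow' (i : ℕ) : ‖(-1 : 𝕜) ^ i‖ = 1 := by
  rw [norm_pow, norm_neg, norm_one, one_pow]

/-- the residual with compensation -/
lemma res_bound {t : ℕ} (f w : C0 𝕜) (A B : Finset ℕ) (α σ : ℝ) (β : 𝕜) (k : ℕ)
    (hw : ∀ i ∉ B, es i w = es i f) (hα : ∀ j ∉ A, ‖es j f‖ ≤ α) (hασ : α ≤ σ)
    (hσ : q t w ≤ σ) (hk : (B \ A).card ≤ k) :
    let R := f - ∑ n ∈ A, (es n f - (es n w + if n < NN t then β * (-1) ^ n else 0)) • e n
    (∀ i, ‖es i R‖ ≤ σ + ‖β‖) ∧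
    (∀ D : Finset ℕ, D.card = t → (∀ i ∈ D, NN t ≤ i) → ∑ i ∈ D, ‖es i R‖ ≤ σ + t * σ) ∧
    F t R = F t w + ∑ i ∈ (Finset.range (NN t)).filter (fun i => i ∈ B \ A),
      (-1) ^ i * (es i f - es i w) + β * (A.filter (fun i => i < NN t)).card ∧
    ‖∑ i ∈ (Finset.range (NN t)).filter (fun i => i ∈ B \ A),
      (-1) ^ i * (es i f - es i w)‖ ≤ 2 * k * σ := by
  classical
  intro R
  have hσ0 : 0 ≤ σ := (q_nonneg t w).trans hσ
  have hR : ∀ i, es i R = if i ∈ A then es i w + (if i < NN t then β * (-1) ^ i else 0)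
      else es i f := fun i => es_res f A _ i
  have hwσ : ∀ i, ‖es i w‖ ≤ σ := fun i => (es_le_q t i w).trans hσ
  refine ⟨?_, ?_, ?_, ?_⟩
  · intro i
    rw [hR]
    split_ifs
    · refine (norm_add_le _ _).trans (add_le_add (hwσ i) ?_)
      rw [norm_mul, norm_pow', mul_one]
    · rw [add_zero]
      have := hwσ i
      have := norm_nonneg β
      linarith
    · rename_i h
      have := hα i h
      have := norm_nonneg β
      linarith
  · intro D hD hD2
    have h1 : ∀ i ∈ D, ‖es i R‖ ≤ ‖es i w‖ + σ := by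
      intro i hi
      rw [hR]
      have h2 := norm_nonneg (es i w)
      split_ifs with h3 h4
      · exact absurd h4 (not_lt.mpr (hD2 i hi))
      · rw [add_zero]; linarith
      · have := hα i h3
        linarith
    refine (Finset.sum_le_sum h1).trans ?_
    rw [Finset.sum_add_distrib, Finset.sum_const, nsmul_eq_mul, hD]
    have := (sum_le_q t w D hD hD2).trans hσ
    linarith
  · unfold F
    have h1 : ∀ i ∈ Finset.range (NN t), (-1) ^ i * es i R = (-1) ^ i * es i w +
        (if i ∈ B \ A then (-1) ^ i * (es i f - es i w) else 0) + (if i ∈ A then β else 0) := by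
      intro i hi
      rw [hR]
      rw [Finset.mem_range] at hi
      by_cases hA : i ∈ A
      · have hBA : i ∉ B \ A := fun h => (Finset.mem_sdiff.mp h).2 hA
        rw [if_pos hA, if_pos hi, if_neg hBA, if_pos hA, mul_add, add_zero]
        congr 1
        rw [mul_comm β, ← mul_assoc, pow_sq, one_mul]
      · rw [if_neg hA, if_neg hA, add_zero]
        by_cases hB : i ∈ B
        · rw [if_pos (Finset.mem_sdiff.mpr ⟨hB, hA⟩)]
          ring
        · rw [if_neg (fun h => hB (Finset.mem_sdiff.mp h).1), add_zero, hw i hB]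
    rw [Finset.sum_congr rfl h1, Finset.sum_add_distrib, Finset.sum_add_distrib]
    congr 1
    · congr 1
      rw [Finset.sum_filter]
    · rw [← Finset.sum_filter, Finset.sum_const, nsmul_eq_mul, mul_comm]
      congr 2
      congr 1
      ext i
      simp [and_comm]
  · refine (norm_sum_le _ _).trans ?_
    have h1 : ∀ i ∈ (Finset.range (NN t)).filter (fun i => i ∈ B \ A),
        ‖(-1) ^ i * (es i f - es i w)‖ ≤ 2 * σ := by
      intro i hi
      have hi2 := (Finset.mem_filter.mp hi).2
      rw [norm_mul, norm_pow', one_mul]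
      refine (norm_sub_le _ _).trans ?_
      have := hα i (Finset.mem_sdiff.mp hi2).2
      have := hwσ i
      linarith
    refine (Finset.sum_le_sum h1).trans ?_
    rw [Finset.sum_const, nsmul_eq_mul]
    have h2 : ((Finset.range (NN t)).filter (fun i => i ∈ B \ A)).card ≤ k := by
      refine le_trans (Finset.card_le_card ?_) hk
      intro i hi
      exact (Finset.mem_filter.mp hi).2
    have h3 : (((Finset.range (NN t)).filter (fun i => i ∈ B \ A)).card : ℝ) ≤ k := by
      exact_mod_cast h2
    nlinarith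

/-- **The Chebyshev greedy bound**: constant `5 t` for all orders. -/
theorem cheb {t : ℕ} (ht : 2 ≤ t) (f : C0 𝕜) (A B : Finset ℕ) (b : ℕ → 𝕜)
    (hG : ∀ i ∈ A, ∀ j ∉ A, ‖es j f‖ ≤ ‖es i f‖) (hAB : B.card ≤ A.card) :
    ∃ a : ℕ → 𝕜, q t (f - ∑ n ∈ A, a n • e n) ≤ 5 * t * q t (f - ∑ n ∈ B, b n • e n) := by
  classical
  set w := f - ∑ n ∈ B, b n • e n with hwdef
  set σ := q t w with hσdef
  have ht' : (2 : ℝ) ≤ t := by exact_mod_cast ht
  have hσ0 : 0 ≤ σ := q_nonneg t w
  have hwσ : ∀ i, ‖es i w‖ ≤ σ := fun i => es_le_q t i w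
  have hw : ∀ i ∉ B, es i w = es i f := by
    intro i hi
    rw [hwdef, map_sub, es_sum, if_neg hi, sub_zero]
  have hcard : (B \ A).card ≤ (A \ B).card := by
    have h1 := Finset.card_sdiff_add_card_inter B A
    have h2 := Finset.card_sdiff_add_card_inter A B
    rw [Finset.inter_comm] at h2
    omega
  rcases Finset.eq_empty_or_nonempty (A \ B) with hemp | hne
  · -- `A = B`
    have h1 : B \ A = ∅ := by
      rw [← Finset.card_eq_zero]
      rw [hemp, Finset.card_empty] at hcard
      omega
    have h2 : A = B := by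
      apply Finset.Subset.antisymm
      · exact Finset.sdiff_eq_empty_iff_subset.mp hemp
      · exact Finset.sdiff_eq_empty_iff_subset.mp h1
    refine ⟨b, ?_⟩
    rw [h2]
    change σ ≤ 5 * t * σ
    nlinarith
  · obtain ⟨i0, hi0, hmin⟩ := Finset.exists_min_image (A \ B) (fun i => ‖es i f‖) hne
    set α := ‖es i0 f‖ with hα
    have hi0A := (Finset.mem_sdiff.mp hi0).1
    have hi0B := (Finset.mem_sdiff.mp hi0).2
    have hout : ∀ j ∉ A, ‖es j f‖ ≤ α := fun j hj => hG i0 hi0A j hj
    have hασ : α ≤ σ := by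
      rw [hα, ← hw i0 hi0B]
      exact hwσ i0
    set k := (A \ B).card with hk
    have hk1 : 1 ≤ k := Finset.card_pos.mpr hne
    have hk1' : (1 : ℝ) ≤ k := by exact_mod_cast hk1
    set a := (A.filter (fun i => i < NN t)).card with ha
    by_cases hcase : k ≤ a * t
    · -- compensation
      have ha0 : 0 < a := by
        rcases Nat.eq_zero_or_pos a with h | h
        · rw [h] at hcase; omega
        · exact h
      have ha0' : (0 : ℝ) < a := by exact_mod_cast ha0
      set T := ∑ i ∈ (Finset.range (NN t)).filter (fun i => i ∈ B \ A),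
        (-1) ^ i * (es i f - es i w) with hT
      obtain ⟨h1, h2, h3, h4⟩ := res_bound (t := t) f w A B α σ (-T / a) k hw hout hασ le_rfl hcard
      refine ⟨_, q_le t _ _ (by positivity) (fun i => (h1 i).trans ?_) ?_
        (fun D hD hD2 => (h2 D hD hD2).trans ?_)⟩
      · have h5 : ‖-T / (a : 𝕜)‖ ≤ 2 * t * σ := by
          rw [norm_div, norm_neg, RCLike.norm_natCast, div_le_iff₀ ha0']
          refine h4.trans ?_
          have h6 : (k : ℝ) ≤ a * t := by exact_mod_cast hcase
          nlinarith
        nlinarith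
      · rw [h3, ← ha]
        have h5 : F t w + T + -T / (a : 𝕜) * (a : 𝕜) = F t w := by
          have : (a : 𝕜) ≠ 0 := by exact_mod_cast ha0.ne'
          field_simp
          ring
        rw [h5]
        refine (F_le_q t w).trans ?_
        nlinarith
      · nlinarith
    · push Not at hcase
      by_cases hk2 : k ≤ 2 * t
      · -- few terms
        obtain ⟨h1, h2, h3, h4⟩ := res_bound (t := t) f w A B α σ 0 k hw hout hασ le_rfl hcard
        refine ⟨_, q_le t _ _ (by positivity) (fun i => (h1 i).trans ?_) ?_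
          (fun D hD hD2 => (h2 D hD hD2).trans ?_)⟩
        · rw [norm_zero]
          nlinarith
        · rw [h3, zero_mul, add_zero]
          refine (norm_add_le _ _).trans ?_
          have h5 := F_le_q t w
          have h6 : (k : ℝ) ≤ 2 * t := by exact_mod_cast hk2
          nlinarith
        · nlinarith
      · -- many far terms
        push Not at hk2
        have h1 : t ≤ ((A \ B).filter (fun i => ¬ i < NN t)).card := by
          have h2 := Finset.card_filter_add_card_filter_not (s := A \ B) (fun i => i < NN t)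
          have h3 : ((A \ B).filter (fun i => i < NN t)).card ≤ a :=
            Finset.card_le_card (Finset.filter_subset_filter _ Finset.sdiff_subset)
          have h4 : a * 2 ≤ a * t := Nat.mul_le_mul_left _ ht
          omega
        obtain ⟨D, hD1, hD2⟩ := Finset.exists_subset_card_eq h1
        have hfar : ∀ i ∈ D, NN t ≤ i := fun i hi =>
          not_lt.mp (Finset.mem_filter.mp (hD1 hi)).2
        have h5 : t * α ≤ σ := by
          refine le_trans ?_ (sum_le_q t w D hD2 hfar)
          rw [← hD2, ← nsmul_eq_mul, ← Finset.sum_const]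
          apply Finset.sum_le_sum
          intro i hi
          have hi2 := (Finset.mem_filter.mp (hD1 hi)).1
          rw [hw i (Finset.mem_sdiff.mp hi2).2]
          exact hmin i hi2
        have hα0 : 0 ≤ α := norm_nonneg _
        have hR := es_res f A (fun _ => (0 : 𝕜))
        have hRα : ∀ i, ‖es i (f - ∑ n ∈ A, (es n f - (fun _ => (0 : 𝕜)) n) • e n)‖ ≤ α := by
          intro i
          rw [hR i]
          split_ifs with h
          · rw [norm_zero]; exact hα0
          · exact hout i h
        refine ⟨_, q_le t _ _ (by positivity) (fun i => (hRα i).trans ?_) ?_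
          (fun D' hD' _ => (Finset.sum_le_sum fun i _ => hRα i).trans ?_)⟩
        · nlinarith
        · unfold F
          refine (norm_sum_le _ _).trans ?_
          have h6 : ∀ i ∈ Finset.range (NN t), ‖(-1) ^ i * es i (f - ∑ n ∈ A,
              (es n f - (fun _ => (0 : 𝕜)) n) • e n)‖ ≤ α := by
            intro i _
            rw [norm_mul, norm_pow', one_mul]
            exact hRα i
          refine (Finset.sum_le_sum h6).trans ?_
          rw [Finset.sum_const, Finset.card_range, nsmul_eq_mul]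
          have h7 : ((NN t : ℕ) : ℝ) = 2 * t ^ 2 := by unfold NN; push_cast; ring
          rw [h7]
          nlinarith
        · rw [Finset.sum_const, nsmul_eq_mul, hD']
          nlinarith

/-- the even positions -/
def EV (t : ℕ) : Finset ℕ := (Finset.range (t ^ 2)).image (fun j => 2 * j)

lemma EV_card (t : ℕ) : (EV t).card = t ^ 2 := by
  unfold EV
  rw [Finset.card_image_of_injective _ (fun a b h => by simpa using h), Finset.card_range]

lemma EV_sub (t : ℕ) : EV t ⊆ Finset.range (NN t) := by
  intro i hi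
  unfold EV at hi
  obtain ⟨j, hj, rfl⟩ := Finset.mem_image.mp hi
  rw [Finset.mem_range] at hj ⊢
  unfold NN
  omega

/-- the test vector -/
noncomputable def tv (𝕜 : Type) [RCLike 𝕜] (t : ℕ) : C0 𝕜 :=
  ∑ i ∈ Finset.range (NN t), (1 : 𝕜) • e i

lemma es_tv (t i : ℕ) : es i (tv 𝕜 t) = if i ∈ Finset.range (NN t) then 1 else 0 :=
  es_sum (Finset.range (NN t)) (fun _ => (1 : 𝕜)) i

lemma q_tv (t : ℕ) : q t (tv 𝕜 t) ≤ 1 := by
  apply q_le t _ _ zero_le_one
  · intro i
    rw [es_tv]
    split_ifs
    · rw [norm_one]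
    · rw [norm_zero]; exact zero_le_one
  · unfold F
    have h : ∑ i ∈ Finset.range (NN t), (-1 : 𝕜) ^ i * es i (tv 𝕜 t) =
        ∑ i ∈ Finset.range (NN t), (-1 : 𝕜) ^ i := by
      apply Finset.sum_congr rfl
      intro i hi
      rw [es_tv, if_pos hi, mul_one]
    rw [h, neg_one_geom_sum, if_pos (by unfold NN; exact even_two_mul _), norm_zero]
    exact zero_le_one
  · intro D _ hD2
    have : ∀ i ∈ D, ‖es i (tv 𝕜 t)‖ = 0 := by
      intro i hi
      rw [es_tv, if_neg, norm_zero]
      rw [Finset.mem_range, not_lt]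
      exact hD2 i hi
    rw [Finset.sum_eq_zero this]
    exact zero_le_one

lemma q_EV (t : ℕ) : (t : ℝ) ^ 2 ≤ q t (∑ i ∈ EV t, (1 : 𝕜) • e i : C0 𝕜) := by
  refine le_trans ?_ (F_le_q t _)
  unfold F
  have h : ∑ i ∈ Finset.range (NN t), (-1 : 𝕜) ^ i * es i (∑ i ∈ EV t, (1 : 𝕜) • e i : C0 𝕜) =
      ((t ^ 2 : ℕ) : 𝕜) := by
    have h1 : ∀ i ∈ Finset.range (NN t), (-1 : 𝕜) ^ i *
        es i (∑ i ∈ EV t, (1 : 𝕜) • e i : C0 𝕜) = if i ∈ EV t then (-1 : 𝕜) ^ i else 0 := by
      intro i _
      rw [es_sum (EV t) (fun _ => (1 : 𝕜)) i, mul_ite, mul_one, mul_zero]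
    rw [Finset.sum_congr rfl h1, ← Finset.sum_filter]
    have h2 : (Finset.range (NN t)).filter (fun i => i ∈ EV t) = EV t := by
      ext i
      rw [Finset.mem_filter]
      exact ⟨fun h => h.2, fun h => ⟨EV_sub t h, h⟩⟩
    rw [h2]
    have h3 : ∀ i ∈ EV t, (-1 : 𝕜) ^ i = 1 := by
      intro i hi
      unfold EV at hi
      obtain ⟨j, _, rfl⟩ := Finset.mem_image.mp hi
      exact Even.neg_one_pow (even_two_mul j)
    rw [Finset.sum_congr rfl h3, Finset.sum_const, EV_card, nsmul_eq_mul, mul_one]
  rw [h, RCLike.norm_natCast]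
  push_cast
  exact le_rfl

end Pool.Agent.R267.CH
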