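import Mathlib

set_option autoImplicit false
set_option synthInstance.maxHeartbeats 400000

open scoped ENNReal

/-! The space `c₀` with a norm for which the Chebyshev greedy parameter is much smaller than the
quasi-greedy parameter. -/

namespace Pool.Agent.R267.CH

/-- bounded sequences -/
abbrev LI (𝕜 : Type) [RCLike 𝕜] : Type := lp (fun _ : ℕ => 𝕜) ∞

/-- `c₀` as the closed span of the unit vectors -/
noncomputable def C0 (𝕜 : Type) [RCLike 𝕜] : Submodule 𝕜 (LI 𝕜) :=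
  (Submodule.span 𝕜 (Set.range fun i : ℕ => (lp.single ∞ i (1 : 𝕜) : LI 𝕜))).topologicalClosure

variable {𝕜 : Type} [RCLike 𝕜]

instance : CompleteSpace (C0 𝕜) :=
  (Submodule.isClosed_topologicalClosure
    (Submodule.span 𝕜 (Set.range fun i : ℕ => (lp.single ∞ i (1 : 𝕜) : LI 𝕜)))).completeSpace_coe

/-- unit vectors -/
noncomputable def e (i : ℕ) : C0 𝕜 :=
  ⟨lp.single ∞ i (1 : 𝕜), Submodule.le_topologicalClosure _ (Submodule.subset_span ⟨i, rfl⟩)⟩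

/-- coordinates -/
noncomputable def es (i : ℕ) : C0 𝕜 →ₗ[𝕜] 𝕜 :=
  (lp.evalₗ (fun _ : ℕ => 𝕜) ∞ i).comp (C0 𝕜).subtype

lemma es_apply (i : ℕ) (x : C0 𝕜) : es i x = (x : LI 𝕜) i := rfl

lemma es_e (i j : ℕ) : es i (e j : C0 𝕜) = if i = j then 1 else 0 := by
  have : es i (e j : C0 𝕜) = Pi.single (M := fun _ : ℕ => 𝕜) j 1 i := rfl
  rw [this, Pi.single_apply]

lemma es_le (i : ℕ) (x : C0 𝕜) : ‖es i x‖ ≤ ‖x‖ :=
  lp.norm_apply_le_norm (by norm_num) (x : LI 𝕜) i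

lemma norm_le_of (x : C0 𝕜) (C : ℝ) (hC : 0 ≤ C) (h : ∀ i, ‖es i x‖ ≤ C) : ‖x‖ ≤ C :=
  lp.norm_le_of_forall_le (f := (x : LI 𝕜)) hC h

lemma ext' {x y : C0 𝕜} (h : ∀ i, es i x = es i y) : x = y := by
  apply Subtype.ext
  ext i
  exact h i

lemma es_sum (A : Finset ℕ) (c : ℕ → 𝕜) (j : ℕ) :
    es j (∑ i ∈ A, c i • e i : C0 𝕜) = if j ∈ A then c j else 0 := by
  classical
  simp only [map_sum, map_smul, es_e, smul_eq_mul, mul_ite, mul_one, mul_zero]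
  rw [Finset.sum_ite_eq]

lemma dense : (Submodule.span 𝕜 (Set.range (e (𝕜 := 𝕜)))).topologicalClosure = ⊤ := by
  rw [eq_top_iff]
  rintro ⟨x, hx⟩ -
  have hx' : x ∈ closure (Submodule.span 𝕜 (Set.range fun i : ℕ =>
    (lp.single ∞ i (1 : 𝕜) : LI 𝕜)) : Set (LI 𝕜)) := hx
  rw [← SetLike.mem_coe, Submodule.topologicalClosure_coe, Metric.mem_closure_iff]
  intro ε hε
  rw [Metric.mem_closure_iff] at hx'
  obtain ⟨y, hy, hxy⟩ := hx' ε hε
  refine ⟨⟨y, Submodule.le_topologicalClosure _ hy⟩, ?_, hxy⟩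
  have h1 : Submodule.span 𝕜 (Set.range fun i : ℕ => (lp.single ∞ i (1 : 𝕜) : LI 𝕜)) =
      (Submodule.span 𝕜 (Set.range (e (𝕜 := 𝕜)))).map (C0 𝕜).subtype := by
    rw [Submodule.map_span]
    congr 1
    ext z
    constructor
    · rintro ⟨i, rfl⟩
      exact ⟨e i, ⟨i, rfl⟩, rfl⟩
    · rintro ⟨_, ⟨i, rfl⟩, rfl⟩
      exact ⟨i, rfl⟩
  have h2 : y ∈ (Submodule.span 𝕜 (Set.range (e (𝕜 := 𝕜)))).map (C0 𝕜).subtype := by
    rw [← h1]; exact hy
  obtain ⟨z, hz, rfl⟩ := h2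
  exact hz

/-- the length of the block -/
def NN (t : ℕ) : ℕ := 2 * t ^ 2

/-- the conditional functional -/
noncomputable def F (t : ℕ) (x : C0 𝕜) : 𝕜 := ∑ i ∈ Finset.range (NN t), (-1) ^ i * es i x

/-- the sets used in the third part of the norm -/
abbrev DS (t : ℕ) : Type := {D : Finset ℕ // D.card = t ∧ ∀ i ∈ D, NN t ≤ i}

/-- the third part of the norm -/
noncomputable def W (t : ℕ) (x : C0 𝕜) : ℝ := ⨆ D : DS t, ∑ i ∈ D.1, ‖es i x‖

/-- the norm -/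
noncomputable def q (t : ℕ) (x : C0 𝕜) : ℝ := max ‖x‖ (max ‖F t x‖ (W t x))

instance (t : ℕ) : Nonempty (DS t) :=
  ⟨⟨Finset.Ico (NN t) (NN t + t), by simp, fun i hi => (Finset.mem_Ico.mp hi).1⟩⟩

lemma sum_le_norm (t : ℕ) (x : C0 𝕜) (D : DS t) : ∑ i ∈ D.1, ‖es i x‖ ≤ t * ‖x‖ := by
  refine (Finset.sum_le_sum fun i _ => es_le i x).trans ?_
  rw [Finset.sum_const, nsmul_eq_mul, D.2.1]

lemma W_bdd (t : ℕ) (x : C0 𝕜) : BddAbove (Set.range fun D : DS t => ∑ i ∈ D.1, ‖es i x‖) :=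
  ⟨t * ‖x‖, by rintro _ ⟨D, rfl⟩; exact sum_le_norm t x D⟩

lemma le_W (t : ℕ) (x : C0 𝕜) (D : Finset ℕ) (hD : D.card = t) (hD2 : ∀ i ∈ D, NN t ≤ i) :
    ∑ i ∈ D, ‖es i x‖ ≤ W t x := le_ciSup (W_bdd t x) ⟨D, hD, hD2⟩

lemma q_le (t : ℕ) (x : C0 𝕜) (C : ℝ) (hC : 0 ≤ C) (h1 : ∀ i, ‖es i x‖ ≤ C) (h2 : ‖F t x‖ ≤ C)
    (h3 : ∀ D : Finset ℕ, D.card = t → (∀ i ∈ D, NN t ≤ i) → ∑ i ∈ D, ‖es i x‖ ≤ C) :
    q t x ≤ C :=
  max_le (norm_le_of x C hC h1) (max_le h2 (ciSup_le fun D => h3 D.1 D.2.1 D.2.2))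

lemma norm_le_q (t : ℕ) (x : C0 𝕜) : ‖x‖ ≤ q t x := le_max_left _ _

lemma es_le_q (t i : ℕ) (x : C0 𝕜) : ‖es i x‖ ≤ q t x := (es_le i x).trans (norm_le_q t x)

lemma F_le_q (t : ℕ) (x : C0 𝕜) : ‖F t x‖ ≤ q t x :=
  (le_max_left _ _).trans (le_max_right _ _)

lemma sum_le_q (t : ℕ) (x : C0 𝕜) (D : Finset ℕ) (hD : D.card = t) (hD2 : ∀ i ∈ D, NN t ≤ i) :
    ∑ i ∈ D, ‖es i x‖ ≤ q t x :=
  (le_W t x D hD hD2).trans ((le_max_right _ _).trans (le_max_right _ _))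

lemma q_nonneg (t : ℕ) (x : C0 𝕜) : 0 ≤ q t x := (norm_nonneg x).trans (norm_le_q t x)

lemma F_add (t : ℕ) (x y : C0 𝕜) : F t (x + y) = F t x + F t y := by
  unfold F
  rw [← Finset.sum_add_distrib]
  exact Finset.sum_congr rfl fun i _ => by rw [map_add, mul_add]

lemma F_smul (t : ℕ) (c : 𝕜) (x : C0 𝕜) : F t (c • x) = c * F t x := by
  unfold F
  rw [Finset.mul_sum]
  exact Finset.sum_congr rfl fun i _ => by rw [map_smul, smul_eq_mul]; ring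

lemma F_le (t : ℕ) (x : C0 𝕜) : ‖F t x‖ ≤ NN t * ‖x‖ := by
  unfold F
  refine (norm_sum_le _ _).trans ?_
  have : ∀ i ∈ Finset.range (NN t), ‖(-1) ^ i * es i x‖ ≤ ‖x‖ := by
    intro i _
    rw [norm_mul, norm_pow, norm_neg, norm_one, one_pow, one_mul]
    exact es_le i x
  refine (Finset.sum_le_sum this).trans ?_
  rw [Finset.sum_const, Finset.card_range, nsmul_eq_mul]

lemma q_add (t : ℕ) (x y : C0 𝕜) : q t (x + y) ≤ q t x + q t y := by
  apply q_le t _ _ (add_nonneg (q_nonneg t x) (q_nonneg t y))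
  · intro i
    rw [map_add]
    exact (norm_add_le _ _).trans (add_le_add (es_le_q t i x) (es_le_q t i y))
  · rw [F_add]
    exact (norm_add_le _ _).trans (add_le_add (F_le_q t x) (F_le_q t y))
  · intro D hD hD2
    refine le_trans (Finset.sum_le_sum fun i _ => ?_)
      (le_trans (le_of_eq Finset.sum_add_distrib) (add_le_add (sum_le_q t x D hD hD2)
        (sum_le_q t y D hD hD2)))
    rw [map_add]
    exact norm_add_le _ _

lemma q_smul_le (t : ℕ) (c : 𝕜) (x : C0 𝕜) : q t (c • x) ≤ ‖c‖ * q t x := by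
  apply q_le t _ _ (mul_nonneg (norm_nonneg _) (q_nonneg t x))
  · intro i
    rw [map_smul, smul_eq_mul, norm_mul]
    exact mul_le_mul_of_nonneg_left (es_le_q t i x) (norm_nonneg _)
  · rw [F_smul, norm_mul]
    exact mul_le_mul_of_nonneg_left (F_le_q t x) (norm_nonneg _)
  · intro D hD hD2
    have : ∀ i ∈ D, ‖es i (c • x)‖ = ‖c‖ * ‖es i x‖ := by
      intro i _
      rw [map_smul, smul_eq_mul, norm_mul]
    rw [Finset.sum_congr rfl this, ← Finset.mul_sum]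
    exact mul_le_mul_of_nonneg_left (sum_le_q t x D hD hD2) (norm_nonneg _)

lemma q_smul (t : ℕ) (c : 𝕜) (x : C0 𝕜) : q t (c • x) = ‖c‖ * q t x := by
  apply le_antisymm (q_smul_le t c x)
  by_cases hc : c = 0
  · rw [hc, norm_zero, zero_mul]
    exact q_nonneg t _
  · have h := q_smul_le t c⁻¹ (c • x)
    rw [smul_smul, inv_mul_cancel₀ hc, one_smul, norm_inv] at h
    have hc' : 0 < ‖c‖ := norm_pos_iff.mpr hc
    rw [← div_eq_inv_mul, le_div_iff₀ hc'] at h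
    linarith

lemma q_upper {t : ℕ} (ht : 1 ≤ t) (x : C0 𝕜) : q t x ≤ NN t * ‖x‖ := by
  have h1 : (t : ℝ) ≤ NN t := by
    have : t ≤ NN t := by unfold NN; nlinarith
    exact_mod_cast this
  have h2 : (1 : ℝ) ≤ NN t := by
    have : 1 ≤ NN t := by unfold NN; nlinarith
    exact_mod_cast this
  have h0 := norm_nonneg x
  apply q_le t _ _ (by positivity)
  · intro i
    exact (es_le i x).trans (by nlinarith)
  · exact F_le t x
  · intro D hD hD2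
    exact (sum_le_norm t x ⟨D, hD, hD2⟩).trans (by nlinarith)

end Pool.Agent.R267.CH
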