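import Mathlib

set_option autoImplicit false

open Filter Topology
open scoped ENNReal

namespace Pool.Agent.R267.HI

variable {𝕜 : Type} [RCLike 𝕜]

/-- a Hilbert space with a linearly independent fundamental sequence is isometric to `ℓ₂` -/
theorem exists_iso {H : Type} [NormedAddCommGroup H] [InnerProductSpace 𝕜 H] [CompleteSpace H]
    (x : ℕ → H) (hli : LinearIndependent 𝕜 x)
    (hd : ∀ f : H, f ∈ closure ((Submodule.span 𝕜 (Set.range x) : Submodule 𝕜 H) : Set H)) :
    Nonempty (H ≃ₗᵢ[𝕜] lp (fun _ : ℕ => 𝕜) 2) := by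
  have h1 := InnerProductSpace.gramSchmidtNormed_orthonormal hli
  have h2 := InnerProductSpace.span_gramSchmidtNormed_range (𝕜 := 𝕜) x
  refine ⟨(HilbertBasis.mk h1 ?_).repr⟩
  rw [h2, InnerProductSpace.span_gramSchmidt]
  intro f _
  exact hd f

lemma linearIndependent_of_biorth {E : Type} [AddCommGroup E] [Module 𝕜 E] (x : ℕ → E)
    (f : ℕ → E →ₗ[𝕜] 𝕜) (hbi : ∀ m n, f m (x n) = if m = n then 1 else 0) :
    LinearIndependent 𝕜 x := by
  rw [linearIndependent_iff']
  intro s g hg i hi
  have h := congrArg (f i) hg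
  rw [map_sum, map_zero] at h
  simp only [map_smul, hbi, smul_eq_mul, mul_ite, mul_one, mul_zero] at h
  rwa [Finset.sum_ite_eq, if_pos hi] at h

end Pool.Agent.R267.HI
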