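import Pool.Agent.R267.Trunc

set_option autoImplicit false

open Filter Topology

/-! Renormings with Property (A). -/

namespace Pool.Agent.R267.PA

open Pool.Agent.R267.TR

/-- `√(m+1) - √m` -/
noncomputable def dd (m : ℕ) : ℝ := Real.sqrt (m + 1) - Real.sqrt m

/-- `1/√m` -/
noncomputable def uu (m : ℕ) : ℝ := 1 / Real.sqrt m

lemma dd_pos (m : ℕ) : 0 < dd m := by
  unfold dd
  have : Real.sqrt m < Real.sqrt (m + 1) := Real.sqrt_lt_sqrt (by positivity) (by linarith)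
  linarith

lemma dd_mul (m : ℕ) : dd m * (Real.sqrt (m + 1) + Real.sqrt m) = 1 := by
  unfold dd
  have h1 : Real.sqrt ((m : ℝ) + 1) ^ 2 = m + 1 := Real.sq_sqrt (by positivity)
  have h2 : Real.sqrt (m : ℝ) ^ 2 = m := Real.sq_sqrt (by positivity)
  nlinarith

lemma dd_eq (m : ℕ) : dd m = 1 / (Real.sqrt (m + 1) + Real.sqrt m) := by
  have h : 0 < Real.sqrt ((m : ℝ) + 1) + Real.sqrt m := by positivity
  rw [eq_div_iff h.ne', dd_mul]

lemma dd_zero : dd 0 = 1 := by
  unfold dd; simp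

lemma dd_succ_le (m : ℕ) : dd (m + 1) ≤ dd m := by
  rw [dd_eq, dd_eq]
  apply one_div_le_one_div_of_le (by positivity)
  have h1 : Real.sqrt (m : ℝ) ≤ Real.sqrt ((m + 1 : ℕ) : ℝ) := Real.sqrt_le_sqrt (by push_cast; linarith)
  have h2 : Real.sqrt ((m : ℝ) + 1) ≤ Real.sqrt (((m + 1 : ℕ) : ℝ) + 1) :=
    Real.sqrt_le_sqrt (by push_cast; linarith)
  linarith

lemma dd_le_three (m : ℕ) : dd m ≤ 3 * dd (m + 1) := by
  rw [dd_eq, dd_eq, mul_one_div, div_le_div_iff₀ (by positivity) (by positivity), one_mul]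
  have h0 : 0 ≤ Real.sqrt (m : ℝ) := Real.sqrt_nonneg _
  have h1 : Real.sqrt (((m + 1 : ℕ) : ℝ) + 1) ≤ 2 * Real.sqrt ((m : ℝ) + 1) := by
    rw [Real.sqrt_le_left (by positivity), mul_pow, Real.sq_sqrt (by positivity)]
    push_cast
    have : (0 : ℝ) ≤ m := by positivity
    linarith
  have h2 : Real.sqrt ((m + 1 : ℕ) : ℝ) = Real.sqrt ((m : ℝ) + 1) := by push_cast; rfl
  rw [h2]
  linarith

lemma dd_diff (m : ℕ) : dd m - dd (m + 1) = dd m * dd (m + 1) * (dd m + dd (m + 1)) := by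
  have h1 := dd_mul m
  have h2 := dd_mul (m + 1)
  have h3 : Real.sqrt ((m + 1 : ℕ) : ℝ) = Real.sqrt ((m : ℝ) + 1) := by push_cast; rfl
  have h4 : dd m + dd (m + 1) = (Real.sqrt (((m + 1 : ℕ) : ℝ) + 1) + Real.sqrt ((m + 1 : ℕ) : ℝ)) -
      (Real.sqrt ((m : ℝ) + 1) + Real.sqrt m) := by
    unfold dd
    rw [h3]
    ring
  rw [h4]
  linear_combination (dd (m + 1)) * h1 - (dd m) * h2

/-- the basic numerical inequality -/
lemma num (m : ℕ) (N κ : ℝ) (hκ : κ ≤ 1 / 16) (hN0 : 0 ≤ N)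
    (hN : N * (dd (m + 1) / 2) ^ 2 ≤ κ) :
    N * ((dd m - dd (m + 1)) / 2) ≤ dd m / 2 := by
  have hp := dd_pos m
  have hp1 := dd_pos (m + 1)
  have h3 := dd_le_three m
  rw [dd_diff]
  have h4 : N * dd (m + 1) ^ 2 ≤ 1 / 4 := by nlinarith
  have h5 : N * (dd (m + 1) * (dd m + dd (m + 1))) ≤ 1 := by
    have : dd (m + 1) * (dd m + dd (m + 1)) ≤ 4 * dd (m + 1) ^ 2 := by nlinarith
    nlinarith
  nlinarith

lemma uu_mul (m : ℕ) : (m : ℝ) * uu m = Real.sqrt m := by
  unfold uu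
  rcases Nat.eq_zero_or_pos m with rfl | hm
  · simp
  · have h1 : 0 < Real.sqrt (m : ℝ) := Real.sqrt_pos.mpr (by exact_mod_cast hm)
    have h2 : Real.sqrt (m : ℝ) * Real.sqrt m = m := Real.mul_self_sqrt (by positivity)
    rw [mul_one_div, div_eq_iff h1.ne', h2]

lemma uu_nonneg (m : ℕ) : 0 ≤ uu m := by unfold uu; positivity

/-- the gain in the first term -/
lemma gain (m : ℕ) (S t : ℝ) (hS0 : 0 ≤ S) (hS : S ≤ m * t) :
    uu m * S + dd m * t ≤ uu (m + 1) * (S + t) := by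
  have h1 := uu_mul m
  have h2 := uu_mul (m + 1)
  rcases Nat.eq_zero_or_pos m with rfl | hm
  · have : S = 0 := le_antisymm (by simpa using hS) hS0
    subst this
    rw [dd_zero]
    unfold uu
    simp
  · have hle : uu (m + 1) ≤ uu m := by
      unfold uu
      apply one_div_le_one_div_of_le
      · exact Real.sqrt_pos.mpr (by exact_mod_cast hm)
      · exact Real.sqrt_le_sqrt (by push_cast; linarith)
    have h3 : dd m = ((m : ℝ) + 1) * uu (m + 1) - m * uu m := by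
      unfold dd
      rw [h1]
      push_cast at h2
      rw [h2]
    rw [h3]
    nlinarith [mul_le_mul_of_nonneg_left hS (sub_nonneg.mpr hle)]

variable {𝕜 : Type} [RCLike 𝕜] {X : Type} [NormedAddCommGroup X] [NormedSpace 𝕜 X]

/-- the data and hypotheses of the renorming -/
structure Data (𝕜 : Type) [RCLike 𝕜] (X : Type) [NormedAddCommGroup X] [NormedSpace 𝕜 X] where
  xs : ℕ → X →ₗ[𝕜] 𝕜
  G : Set (Finset ℕ × (ℕ → 𝕜))
  C1 : ℝ
  C2 : ℝ
  C3 : ℝ
  κ : ℝ
  C1_nonneg : 0 ≤ C1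
  C2_pos : 0 < C2
  C3_nonneg : 0 ≤ C3
  hκ : κ ≤ 1 / 16
  trunc : ∀ B g, (B, g) ∈ G → ∀ s : ℝ, 0 ≤ s → (B, fun n => tr s (g n)) ∈ G
  bdd : ∀ B g, (B, g) ∈ G → ∀ f : X, ‖∑ n ∈ B, g n * xs n f‖ ≤ C1 * ‖f‖
  norming : ∀ f : X, ∃ B g, (B, g) ∈ G ∧ ‖f‖ ≤ C2 * ‖∑ n ∈ B, g n * xs n f‖
  weak : ∀ B g, (B, g) ∈ G → ∀ τ : ℝ, 0 < τ →
    ((B.filter (fun n => τ < ‖g n‖)).card : ℝ) * τ ^ 2 ≤ κ
  bessel : ∀ (A : Finset ℕ) (f : X), ∑ n ∈ A, ‖xs n f‖ ^ 2 ≤ (C3 * ‖f‖) ^ 2
  small : ∀ B g, (B, g) ∈ G → ∀ n, ‖g n‖ ≤ 1 / 2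

variable (D : Data 𝕜 X)

/-- admissible triples -/
def Adm (A : Finset ℕ) (B : Finset ℕ) (g : ℕ → 𝕜) : Prop :=
  (B, g) ∈ D.G ∧ ∀ n, ‖g n‖ ≤ dd A.card / 2

/-- the value of a triple -/
noncomputable def val (A : Finset ℕ) (B : Finset ℕ) (g : ℕ → 𝕜) (f : X) : ℝ :=
  uu A.card * ∑ n ∈ A, ‖D.xs n f‖ + ‖∑ n ∈ B \ A, g n * D.xs n f‖

lemma sum_le_sqrt (A : Finset ℕ) (f : X) :
    ∑ n ∈ A, ‖D.xs n f‖ ≤ Real.sqrt A.card * (D.C3 * ‖f‖) := by
  have h1 : (∑ n ∈ A, ‖D.xs n f‖) ^ 2 ≤ A.card * ∑ n ∈ A, ‖D.xs n f‖ ^ 2 :=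
    sq_sum_le_card_mul_sum_sq
  have h2 := D.bessel A f
  have h3 : (∑ n ∈ A, ‖D.xs n f‖) ^ 2 ≤ (Real.sqrt A.card * (D.C3 * ‖f‖)) ^ 2 := by
    rw [mul_pow, Real.sq_sqrt (by positivity)]
    exact h1.trans (mul_le_mul_of_nonneg_left h2 (by positivity))
  have h4 := D.C3_nonneg
  exact (sq_le_sq₀ (Finset.sum_nonneg fun _ _ => norm_nonneg _) (by positivity)).mp h3

lemma val_le (A B : Finset ℕ) (g : ℕ → 𝕜) (h : Adm D A B g) (f : X) :
    val D A B g f ≤ (D.C1 + 2 * D.C3) * ‖f‖ := by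
  classical
  unfold val
  have hC3 := D.C3_nonneg
  have h1 := sum_le_sqrt D A f
  have h2 : uu A.card * ∑ n ∈ A, ‖D.xs n f‖ ≤ D.C3 * ‖f‖ := by
    rcases Nat.eq_zero_or_pos A.card with h0 | h0
    · rw [Finset.card_eq_zero] at h0
      subst h0
      simp only [Finset.sum_empty, mul_zero]
      positivity
    · have hs : 0 < Real.sqrt (A.card : ℝ) := Real.sqrt_pos.mpr (by exact_mod_cast h0)
      unfold uu
      rw [one_div_mul_eq_div, div_le_iff₀ hs, mul_comm]
      exact h1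
  have h3 : ‖∑ n ∈ B \ A, g n * D.xs n f‖ ≤ D.C1 * ‖f‖ + D.C3 * ‖f‖ := by
    have h4 : ∑ n ∈ B, g n * D.xs n f =
        ∑ n ∈ B \ A, g n * D.xs n f + ∑ n ∈ B ∩ A, g n * D.xs n f := by
      rw [add_comm, Finset.sum_inter_add_sum_sdiff]
    have h5 : ∑ n ∈ B \ A, g n * D.xs n f =
        ∑ n ∈ B, g n * D.xs n f - ∑ n ∈ B ∩ A, g n * D.xs n f := by
      rw [h4, add_sub_cancel_right]
    rw [h5]
    refine (norm_sub_le _ _).trans (add_le_add (D.bdd B g h.1 f) ?_)
    have h6 : ‖∑ n ∈ B ∩ A, g n * D.xs n f‖ ≤ dd A.card / 2 * ∑ n ∈ A, ‖D.xs n f‖ := by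
      refine (norm_sum_le _ _).trans ?_
      rw [Finset.mul_sum]
      refine le_trans ?_ (Finset.sum_le_sum_of_subset_of_nonneg
        (Finset.inter_subset_right : B ∩ A ⊆ A)
        (fun n _ _ => mul_nonneg (by have := dd_pos A.card; positivity) (norm_nonneg _)))
      apply Finset.sum_le_sum
      intro n _
      rw [norm_mul]
      exact mul_le_mul_of_nonneg_right (h.2 n) (norm_nonneg _)
    refine h6.trans ?_
    have h7 : dd A.card * Real.sqrt A.card ≤ 1 := by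
      have h8 := dd_mul A.card
      have h9 := dd_pos A.card
      have h10 : 0 ≤ Real.sqrt ((A.card : ℝ) + 1) := Real.sqrt_nonneg _
      nlinarith
    have h11 := dd_pos A.card
    have h12 : 0 ≤ D.C3 * ‖f‖ := by positivity
    calc dd A.card / 2 * ∑ n ∈ A, ‖D.xs n f‖
        ≤ dd A.card / 2 * (Real.sqrt A.card * (D.C3 * ‖f‖)) :=
          mul_le_mul_of_nonneg_left h1 (by positivity)
      _ = (dd A.card * Real.sqrt A.card) / 2 * (D.C3 * ‖f‖) := by ring
      _ ≤ 1 * (D.C3 * ‖f‖) := mul_le_mul_of_nonneg_right (by linarith) h12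
      _ = D.C3 * ‖f‖ := one_mul _
  linarith

/-- index type of the supremum -/
abbrev Ix : Type := {p : Finset ℕ × Finset ℕ × (ℕ → 𝕜) // Adm D p.1 p.2.1 p.2.2}

instance : Nonempty (Ix D) := by
  obtain ⟨B, g, h, _⟩ := D.norming 0
  refine ⟨⟨(∅, B, g), h, fun n => ?_⟩⟩
  rw [Finset.card_empty, dd_zero]
  exact D.small B g h n

/-- the value at an index -/
noncomputable def vl (i : Ix D) (f : X) : ℝ := val D i.1.1 i.1.2.1 i.1.2.2 f

lemma bddAbove (f : X) : BddAbove (Set.range (fun i : Ix D => vl D i f)) :=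
  ⟨_, by rintro _ ⟨i, rfl⟩; exact val_le D _ _ _ i.2 f⟩

lemma vl_add (i : Ix D) (f f' : X) : vl D i (f + f') ≤ vl D i f + vl D i f' := by
  unfold vl val
  have h1 : ∑ n ∈ i.1.1, ‖D.xs n (f + f')‖ ≤ ∑ n ∈ i.1.1, ‖D.xs n f‖ + ∑ n ∈ i.1.1, ‖D.xs n f'‖ := by
    rw [← Finset.sum_add_distrib]
    apply Finset.sum_le_sum
    intro n _
    rw [map_add]
    exact norm_add_le _ _
  have h2 : ‖∑ n ∈ i.1.2.1 \ i.1.1, i.1.2.2 n * D.xs n (f + f')‖ ≤
      ‖∑ n ∈ i.1.2.1 \ i.1.1, i.1.2.2 n * D.xs n f‖ +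
      ‖∑ n ∈ i.1.2.1 \ i.1.1, i.1.2.2 n * D.xs n f'‖ := by
    have : ∑ n ∈ i.1.2.1 \ i.1.1, i.1.2.2 n * D.xs n (f + f') =
        ∑ n ∈ i.1.2.1 \ i.1.1, i.1.2.2 n * D.xs n f +
        ∑ n ∈ i.1.2.1 \ i.1.1, i.1.2.2 n * D.xs n f' := by
      rw [← Finset.sum_add_distrib]
      apply Finset.sum_congr rfl
      intro n _
      rw [map_add]; ring
    rw [this]
    exact norm_add_le _ _
  have h3 := mul_le_mul_of_nonneg_left h1 (uu_nonneg i.1.1.card)
  linarith

lemma vl_smul (i : Ix D) (r : 𝕜) (f : X) : vl D i (r • f) = ‖r‖ * vl D i f := by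
  unfold vl val
  have h1 : ∑ n ∈ i.1.1, ‖D.xs n (r • f)‖ = ‖r‖ * ∑ n ∈ i.1.1, ‖D.xs n f‖ := by
    rw [Finset.mul_sum]
    apply Finset.sum_congr rfl
    intro n _
    rw [map_smul, norm_smul]
  have h2 : ∑ n ∈ i.1.2.1 \ i.1.1, i.1.2.2 n * D.xs n (r • f) =
      r * ∑ n ∈ i.1.2.1 \ i.1.1, i.1.2.2 n * D.xs n f := by
    rw [Finset.mul_sum]
    apply Finset.sum_congr rfl
    intro n _
    rw [map_smul, smul_eq_mul]; ring
  rw [h1, h2, norm_mul]
  ring

/-- the new norm -/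
noncomputable def nn : Seminorm 𝕜 X :=
  Seminorm.of (fun f => ⨆ i : Ix D, vl D i f)
    (fun f f' => by
      apply ciSup_le
      intro i
      exact (vl_add D i f f').trans (add_le_add (le_ciSup (bddAbove D f) i)
        (le_ciSup (bddAbove D f') i)))
    (fun r f => by
      simp only [vl_smul]
      rw [Real.mul_iSup_of_nonneg (norm_nonneg r)])

lemma nn_apply (f : X) : nn D f = ⨆ i : Ix D, vl D i f := rfl

lemma le_nn (A B : Finset ℕ) (g : ℕ → 𝕜) (h : Adm D A B g) (f : X) : val D A B g f ≤ nn D f := by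
  rw [nn_apply]
  exact le_ciSup (bddAbove D f) ⟨(A, B, g), h⟩

lemma nn_le (f : X) (C : ℝ) (hC : ∀ A B g, Adm D A B g → val D A B g f ≤ C) : nn D f ≤ C := by
  rw [nn_apply]
  exact ciSup_le fun i => hC _ _ _ i.2

lemma nn_upper (f : X) : nn D f ≤ (D.C1 + 2 * D.C3) * ‖f‖ :=
  nn_le D f _ fun A B g h => val_le D A B g h f

lemma nn_lower (f : X) : D.C2⁻¹ * ‖f‖ ≤ nn D f := by
  obtain ⟨B, g, h, hf⟩ := D.norming f
  have hadm : Adm D ∅ B g := by
    refine ⟨h, fun n => ?_⟩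
    rw [Finset.card_empty, dd_zero]
    exact D.small B g h n
  refine le_trans ?_ (le_nn D ∅ B g hadm f)
  unfold val
  rw [Finset.sum_empty, mul_zero, zero_add, Finset.sdiff_empty, inv_mul_le_iff₀ D.C2_pos]
  exact hf

/-- adding a coordinate of maximal modulus -/
lemma add_one (A B : Finset ℕ) (g : ℕ → 𝕜) (h : Adm D A B g) (f : X) (t : ℝ)
    (ht : ∀ n, ‖D.xs n f‖ ≤ t) (n0 : ℕ) (hn0 : n0 ∉ A) (hn0t : ‖D.xs n0 f‖ = t) :
    ∃ g', Adm D (insert n0 A) B g' ∧ val D A B g f ≤ val D (insert n0 A) B g' f := by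
  classical
  have ht0 : 0 ≤ t := by rw [← hn0t]; exact norm_nonneg _
  set m := A.card with hm
  have hcard : (insert n0 A).card = m + 1 := Finset.card_insert_of_notMem hn0
  set s : ℝ := dd (m + 1) / 2 with hs
  have hs0 : 0 < s := by have := dd_pos (m + 1); positivity
  have hsm : s ≤ dd m / 2 := by have := dd_succ_le m; rw [hs]; linarith
  refine ⟨fun n => tr s (g n), ⟨D.trunc B g h.1 s hs0.le, fun n => ?_⟩, ?_⟩
  · rw [hcard]
    exact norm_tr_le hs0.le _
  unfold val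
  rw [hcard, Finset.sum_insert hn0, hn0t, ← hm]
  -- the sum over `A`
  have hS : ∑ n ∈ A, ‖D.xs n f‖ ≤ m * t := by
    refine (Finset.sum_le_sum fun n _ => ht n).trans ?_
    rw [Finset.sum_const, nsmul_eq_mul]
  have hg := gain m (∑ n ∈ A, ‖D.xs n f‖) t (Finset.sum_nonneg fun _ _ => norm_nonneg _) hS
  -- the comparison of the second terms
  have h1 : ‖∑ n ∈ B \ A, g n * D.xs n f‖ ≤
      ‖∑ n ∈ B \ insert n0 A, tr s (g n) * D.xs n f‖ + dd m * t := by
    have h2 : ∑ n ∈ B \ A, g n * D.xs n f = ∑ n ∈ B \ insert n0 A, tr s (g n) * D.xs n f +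
        (∑ n ∈ B \ insert n0 A, (g n - tr s (g n)) * D.xs n f +
          if n0 ∈ B then g n0 * D.xs n0 f else 0) := by
      rw [← add_assoc, ← Finset.sum_add_distrib]
      have h3 : ∀ n, tr s (g n) * D.xs n f + (g n - tr s (g n)) * D.xs n f = g n * D.xs n f := by
        intro n; ring
      simp only [h3]
      by_cases hB : n0 ∈ B
      · rw [if_pos hB]
        have h4 : B \ A = insert n0 (B \ insert n0 A) := by
          ext n
          simp only [Finset.mem_sdiff, Finset.mem_insert]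
          constructor
          · rintro ⟨h5, h6⟩
            by_cases h7 : n = n0
            · exact Or.inl h7
            · exact Or.inr ⟨h5, by rintro (h8 | h8); exacts [h7 h8, h6 h8]⟩
          · rintro (h5 | ⟨h5, h6⟩)
            · rw [h5]; exact ⟨hB, hn0⟩
            · exact ⟨h5, fun h7 => h6 (Or.inr h7)⟩
        rw [h4, Finset.sum_insert (by simp), add_comm]
      · rw [if_neg hB, add_zero]
        congr 1
        ext n
        simp only [Finset.mem_sdiff, Finset.mem_insert]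
        constructor
        · rintro ⟨h5, h6⟩
          refine ⟨h5, ?_⟩
          rintro (h7 | h7)
          · rw [h7] at h5; exact hB h5
          · exact h6 h7
        · rintro ⟨h5, h6⟩
          exact ⟨h5, fun h7 => h6 (Or.inr h7)⟩
    rw [h2]
    refine (norm_add_le _ _).trans (add_le_add_right ?_ _)
    refine (norm_add_le _ _).trans ?_
    have h5 : ‖(if n0 ∈ B then g n0 * D.xs n0 f else 0)‖ ≤ dd m / 2 * t := by
      split_ifs
      · rw [norm_mul, hn0t]
        exact mul_le_mul_of_nonneg_right (h.2 n0) ht0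
      · rw [norm_zero]
        have := dd_pos m
        positivity
    have h6 : ‖∑ n ∈ B \ insert n0 A, (g n - tr s (g n)) * D.xs n f‖ ≤ dd m / 2 * t := by
      refine (norm_sum_le _ _).trans ?_
      have h7 : ∀ n ∈ B, ‖(g n - tr s (g n)) * D.xs n f‖ ≤
          if s < ‖g n‖ then (dd m / 2 - s) * t else 0 := by
        intro n _
        rw [norm_mul]
        have h8 := norm_sub_tr hs0.le (g n) (dd m / 2) (h.2 n) hsm
        split_ifs at h8 ⊢
        · exact mul_le_mul h8 (ht n) (norm_nonneg _) (by linarith)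
        · have : ‖g n - tr s (g n)‖ = 0 := le_antisymm h8 (norm_nonneg _)
          rw [this, zero_mul]
      have h9 : ∑ n ∈ B \ insert n0 A, ‖(g n - tr s (g n)) * D.xs n f‖ ≤
          ∑ n ∈ B, if s < ‖g n‖ then (dd m / 2 - s) * t else 0 := by
        refine (Finset.sum_le_sum_of_subset_of_nonneg Finset.sdiff_subset
          (fun _ _ _ => norm_nonneg _)).trans (Finset.sum_le_sum h7)
      refine h9.trans ?_
      rw [Finset.sum_ite, Finset.sum_const_zero, add_zero, Finset.sum_const, nsmul_eq_mul]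
      have h10 := D.weak B g h.1 s hs0
      have h11 := num m ((B.filter (fun n => s < ‖g n‖)).card : ℝ) D.κ D.hκ (by positivity) h10
      calc ((B.filter (fun n => s < ‖g n‖)).card : ℝ) * ((dd m / 2 - s) * t)
          = (((B.filter (fun n => s < ‖g n‖)).card : ℝ) * ((dd m - dd (m + 1)) / 2)) * t := by
            rw [hs]; ring
        _ ≤ dd m / 2 * t := mul_le_mul_of_nonneg_right h11 ht0
    linarith
  linarith [add_comm t (∑ n ∈ A, ‖D.xs n f‖)]

/-- adding all the coordinates of maximal modulus of a finite set -/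
lemma add_all (f : X) (t : ℝ) (ht : ∀ n, ‖D.xs n f‖ ≤ t) (M : Finset ℕ)
    (hM : ∀ n ∈ M, ‖D.xs n f‖ = t) (A B : Finset ℕ) (g : ℕ → 𝕜) (h : Adm D A B g) :
    ∃ A' g', M ⊆ A' ∧ Adm D A' B g' ∧ val D A B g f ≤ val D A' B g' f := by
  classical
  induction M using Finset.induction_on with
  | empty => exact ⟨A, g, Finset.empty_subset _, h, le_refl _⟩
  | insert n0 M hn0 ih =>
    obtain ⟨A', g', hMA, hadm, hle⟩ := ih (fun n hn => hM n (Finset.mem_insert_of_mem hn))
    by_cases hn : n0 ∈ A'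
    · refine ⟨A', g', ?_, hadm, hle⟩
      intro n hn'
      rcases Finset.mem_insert.mp hn' with h1 | h1
      · rw [h1]; exact hn
      · exact hMA h1
    · obtain ⟨g'', hadm', hle'⟩ := add_one D A' B g' hadm f t ht n0 hn
        (hM n0 (Finset.mem_insert_self _ _))
      exact ⟨insert n0 A', g'', Finset.insert_subset_insert _ hMA, hadm', hle.trans hle'⟩

/-- greedy rearrangements -/
def GreedyRearr (a b : ℕ → 𝕜) : Prop :=
  ∃ π : Equiv.Perm ℕ, (∀ n, ‖b (π n)‖ = ‖a n‖) ∧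
    ∀ k, 0 < ‖a k‖ → (∃ n, ‖a k‖ < ‖a n‖) → π k = k ∧ b k = a k

lemma GreedyRearr.symm {a b : ℕ → 𝕜} (h : GreedyRearr a b) : GreedyRearr b a := by
  obtain ⟨π, h1, h2⟩ := h
  refine ⟨π.symm, fun n => ?_, fun k hk hn => ?_⟩
  · have := h1 (π.symm n)
    rw [Equiv.apply_symm_apply] at this
    exact this.symm
  · obtain ⟨n, hn⟩ := hn
    set j := π.symm k with hj
    have hjk : π j = k := π.apply_symm_apply k
    have hja : ‖b k‖ = ‖a j‖ := by rw [← hjk]; exact h1 j
    have h3 := h2 j (by rw [← hja]; exact hk) ⟨π.symm n, by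
      rw [← hja, ← h1 (π.symm n), Equiv.apply_symm_apply]; exact hn⟩
    have h4 : j = k := by rw [← hjk]; exact h3.1.symm
    refine ⟨h4, ?_⟩
    rw [← h4]
    exact h3.2.symm

lemma bdd_coord (f : X) : ∃ t : ℝ, (∀ n, ‖D.xs n f‖ ≤ t) ∧
    (t = 0 ∨ (0 < t ∧ {n | ‖D.xs n f‖ = t}.Finite ∧ ∃ n, ‖D.xs n f‖ = t)) := by
  -- the set of coordinates of modulus at least a given positive number is finite
  have hfin : ∀ ε : ℝ, 0 < ε → {n | ε ≤ ‖D.xs n f‖}.Finite := by
    intro ε hε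
    by_contra hinf
    obtain ⟨m, hm⟩ := exists_nat_gt ((D.C3 * ‖f‖) ^ 2 / ε ^ 2)
    obtain ⟨A, hA, hAc⟩ := Set.Infinite.exists_subset_card_eq hinf m
    have h1 := D.bessel A f
    have h2 : (m : ℝ) * ε ^ 2 ≤ ∑ n ∈ A, ‖D.xs n f‖ ^ 2 := by
      rw [← hAc, ← nsmul_eq_mul, ← Finset.sum_const]
      apply Finset.sum_le_sum
      intro n hn
      exact pow_le_pow_left₀ hε.le (hA hn) 2
    rw [div_lt_iff₀ (by positivity)] at hm
    linarith
  by_cases hz : ∀ n, D.xs n f = 0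
  · exact ⟨0, fun n => by rw [hz n, norm_zero], Or.inl rfl⟩
  · push Not at hz
    obtain ⟨n1, hn1⟩ := hz
    have hε : 0 < ‖D.xs n1 f‖ := norm_pos_iff.mpr hn1
    have hF := hfin _ hε
    obtain ⟨n2, hn2, hmax⟩ := hF.toFinset.exists_max_image (fun n => ‖D.xs n f‖)
      ⟨n1, by rw [Set.Finite.mem_toFinset]; exact le_refl ‖D.xs n1 f‖⟩
    rw [Set.Finite.mem_toFinset] at hn2
    have hn2' : ‖D.xs n1 f‖ ≤ ‖D.xs n2 f‖ := hn2
    have hle : ∀ n, ‖D.xs n f‖ ≤ ‖D.xs n2 f‖ := by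
      intro n
      by_cases h : ‖D.xs n1 f‖ ≤ ‖D.xs n f‖
      · exact hmax n (by rw [Set.Finite.mem_toFinset]; exact h)
      · push Not at h
        linarith
    refine ⟨‖D.xs n2 f‖, hle, Or.inr ⟨hε.trans_le hn2', ?_, n2, rfl⟩⟩
    refine (hfin ‖D.xs n2 f‖ (hε.trans_le hn2')).subset ?_
    intro n hn
    exact (Eq.symm hn).le

lemma nn_mono (f f' : X) (h : GreedyRearr (fun n => D.xs n f) (fun n => D.xs n f')) :
    nn D f ≤ nn D f' := by
  classical
  obtain ⟨π, h1, h2⟩ := h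
  obtain ⟨t, ht, hcase⟩ := bdd_coord D f
  rcases hcase with h0 | ⟨htpos, hfin, hex⟩
  · -- all coordinates vanish
    subst h0
    apply nn_le
    intro A B g hadm
    have hz : ∀ n, D.xs n f = 0 := fun n => norm_le_zero_iff.mp (ht n)
    unfold val
    simp only [hz, norm_zero, Finset.sum_const_zero, mul_zero, add_zero]
    exact apply_nonneg _ _
  · apply nn_le
    intro A B g hadm
    obtain ⟨A', g', hMA, hadm', hle⟩ := add_all D f t ht hfin.toFinset
      (fun n hn => by rw [Set.Finite.mem_toFinset] at hn; exact hn) A B g hadm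
    refine hle.trans (le_trans (le_of_eq ?_) (le_nn D (A'.map π.toEmbedding) B g'
      ⟨hadm'.1, by rw [Finset.card_map]; exact hadm'.2⟩ f'))
    unfold val
    rw [Finset.card_map, Finset.sum_map]
    have h3 : ∑ n ∈ A', ‖D.xs n f‖ = ∑ n ∈ A', ‖D.xs (π.toEmbedding n) f'‖ := by
      apply Finset.sum_congr rfl
      intro n _
      exact (h1 n).symm
    -- outside `A'` the nonzero coordinates are not maximal
    have h4 : ∀ n, n ∉ A' → D.xs n f ≠ 0 → π n = n ∧ D.xs n f' = D.xs n f := by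
      intro n hn hne
      apply h2 n (norm_pos_iff.mpr hne)
      obtain ⟨n1, hn1⟩ := hex
      refine ⟨n1, ?_⟩
      change ‖D.xs n f‖ < ‖D.xs n1 f‖
      rw [hn1]
      refine lt_of_le_of_ne (ht n) ?_
      intro h5
      exact hn (hMA (by rw [Set.Finite.mem_toFinset]; exact h5))
    have h5 : ∑ n ∈ B \ A', g' n * D.xs n f =
        ∑ n ∈ B \ A'.map π.toEmbedding, g' n * D.xs n f' := by
      rw [Finset.sdiff_eq_filter, Finset.sdiff_eq_filter, Finset.sum_filter, Finset.sum_filter]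
      apply Finset.sum_congr rfl
      intro n _
      have hmem : n ∈ A'.map π.toEmbedding ↔ π.symm n ∈ A' := by
        rw [Finset.mem_map]
        constructor
        · rintro ⟨k, hk, hkn⟩
          have : π.symm n = k := by
            rw [← hkn]
            exact π.symm_apply_apply k
          rw [this]; exact hk
        · intro hk
          exact ⟨_, hk, π.apply_symm_apply n⟩
      by_cases hn : n ∉ A' ∧ D.xs n f ≠ 0
      · obtain ⟨h6, h7⟩ := h4 n hn.1 hn.2
        have h8 : π.symm n = n := by rw [Equiv.symm_apply_eq]; exact h6.symm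
        rw [if_pos hn.1, if_pos (by rw [hmem, h8]; exact hn.1), h7]
      · have hL : (if n ∉ A' then g' n * D.xs n f else 0) = 0 := by
          by_cases h9 : n ∉ A'
          · have : D.xs n f = 0 := by
              by_contra h10
              exact hn ⟨h9, h10⟩
            rw [if_pos h9, this, mul_zero]
          · rw [if_neg h9]
        rw [hL]
        symm
        by_cases h9 : n ∉ A'.map π.toEmbedding
        · rw [if_pos h9]
          rw [hmem] at h9
          by_cases h10 : D.xs (π.symm n) f = 0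
          · have h11 := h1 (π.symm n)
            rw [Equiv.apply_symm_apply] at h11
            have h12 : ‖D.xs n f'‖ = 0 := by
              rw [h11]
              change ‖D.xs (π.symm n) f‖ = 0
              rw [h10, norm_zero]
            rw [norm_eq_zero.mp h12, mul_zero]
          · exfalso
            obtain ⟨h11, h12⟩ := h4 _ h9 h10
            rw [Equiv.apply_symm_apply] at h11
            rw [← h11] at h9 h10
            exact hn ⟨h9, h10⟩
        · rw [if_neg h9]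
    rw [h3, h5]

/-- Property (A) of the new norm -/
theorem nn_eq (f f' : X) (h : GreedyRearr (fun n => D.xs n f) (fun n => D.xs n f')) :
    nn D f = nn D f' :=
  le_antisymm (nn_mono D f f' h) (nn_mono D f' f h.symm)

end Pool.Agent.R267.PA
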