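import Pool.Agent.R267.CBlock3
import Pool.Agent.R267.PropA
import Pool.Agent.R267.BlockSeries
import Pool.Agent.R267.HilbertIso

set_option autoImplicit false

open Filter Topology
open scoped ENNReal

namespace Pool.Agent.R267.CA

open Pool.Agent.R267 Pool.Agent.R267.Lex Pool.Agent.R267.CB Pool.Agent.R267.TR

variable (𝕜 : Type) [RCLike 𝕜]

/-- the number of rows of the blocks -/
noncomputable def KK (c : ℕ) : ℕ := (conditional (𝕜 := 𝕜) ((4 : ℝ) ^ c)).choose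

lemma KK_pos (c : ℕ) : 0 < KK 𝕜 c := (conditional (𝕜 := 𝕜) ((4 : ℝ) ^ c)).choose_spec.1

/-- the conditional vectors -/
noncomputable def aa (c : ℕ) : Fin (NB (KK 𝕜 c)) → 𝕜 :=
  (conditional (𝕜 := 𝕜) ((4 : ℝ) ^ c)).choose_spec.2.choose

lemma aa_le (c : ℕ) : Q (KK 𝕜 c) (aa 𝕜 c) ≤ 3 :=
  (conditional (𝕜 := 𝕜) ((4 : ℝ) ^ c)).choose_spec.2.choose_spec.1

lemma le_aa (c : ℕ) : (4 : ℝ) ^ c ≤ Q (KK 𝕜 c) (fun n => if row n % 2 = 0 then aa 𝕜 c n else 0) :=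
  (conditional (𝕜 := 𝕜) ((4 : ℝ) ^ c)).choose_spec.2.choose_spec.2

/-- sizes of the blocks -/
noncomputable def NN (c : ℕ) : ℕ := NB (KK 𝕜 c)

lemma NN_pos (c : ℕ) : 0 < NN 𝕜 c := NB_pos (KK_pos 𝕜 c)

lemma lamb_add {K : ℕ} (a b : Fin (NB K) → 𝕜) (k : ℕ) :
    lamb (a + b) k = lamb a k + lamb b k := by
  unfold lamb
  rw [← mul_add, ← Finset.sum_add_distrib]
  congr 1
  apply Finset.sum_congr rfl
  intro n _
  split_ifs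
  · rfl
  · rw [add_zero]

lemma lamb_smul {K : ℕ} (r : 𝕜) (a : Fin (NB K) → 𝕜) (k : ℕ) :
    lamb (r • a) k = r * lamb a k := by
  unfold lamb
  have h : ∑ i : Fin (NB K), (if row i = k then (r • a) i else 0) =
      r * ∑ i : Fin (NB K), (if row i = k then a i else 0) := by
    rw [Finset.mul_sum]
    apply Finset.sum_congr rfl
    intro n _
    split_ifs
    · rfl
    · rw [mul_zero]
  rw [h]
  ring

lemma Alam_add {K : ℕ} (a b : Fin (NB K) → 𝕜) (i : ℕ) :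
    Alam K (a + b) i = Alam K a i + Alam K b i := by
  unfold Alam
  have : (lamb (a + b) : ℕ → 𝕜) = fun k => lamb a k + lamb b k := by
    funext k; exact lamb_add 𝕜 a b k
  rw [this, Aop_add]

lemma Alam_smul {K : ℕ} (r : 𝕜) (a : Fin (NB K) → 𝕜) (i : ℕ) :
    Alam K (r • a) i = r * Alam K a i := by
  unfold Alam
  have : (lamb (r • a) : ℕ → 𝕜) = fun k => r * lamb a k := by
    funext k; exact lamb_smul 𝕜 r a k
  rw [this, Aop_smul]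

/-- the embedding of a block -/
noncomputable def phi (c : ℕ) : (Fin (NN 𝕜 c) → 𝕜) →ₗ[𝕜]
    EuclideanSpace 𝕜 (Fin (NN 𝕜 c) ⊕ Fin (KK 𝕜 c)) where
  toFun a := WithLp.toLp 2 (Sum.elim a (fun i => Alam (KK 𝕜 c) a i))
  map_add' a b := by
    apply WithLp.ofLp_injective
    funext o
    rcases o with k | i
    · rfl
    · exact Alam_add 𝕜 a b i
  map_smul' r a := by
    apply WithLp.ofLp_injective
    funext o
    rcases o with k | i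
    · rfl
    · exact Alam_smul 𝕜 r a i

variable {𝕜}

lemma phi_injective (c : ℕ) : Function.Injective (phi 𝕜 c) := by
  intro a b h
  have h1 := congrArg WithLp.ofLp h
  funext k
  exact congrFun h1 (Sum.inl k)

variable (𝕜)

/-- the block -/
abbrev VV (c : ℕ) : Type := ↥(LinearMap.range (phi 𝕜 c))

/-- the coordinates of the block -/
noncomputable def TT (c : ℕ) : (Fin (NN 𝕜 c) → 𝕜) ≃ₗ[𝕜] VV 𝕜 c :=
  LinearEquiv.ofInjective (phi 𝕜 c) (phi_injective c)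

variable {𝕜}

lemma norm_TT_sq (c : ℕ) (a : Fin (NN 𝕜 c) → 𝕜) : ‖TT 𝕜 c a‖ ^ 2 = Q (KK 𝕜 c) a := by
  have h : ‖TT 𝕜 c a‖ = ‖phi 𝕜 c a‖ := rfl
  rw [h, EuclideanSpace.norm_sq_eq, Fintype.sum_sum_type]
  unfold Q
  congr 1
  exact Fin.sum_univ_eq_sum_range (fun i => ‖Alam (KK 𝕜 c) a i‖ ^ 2) (KK 𝕜 c)

lemma complete_VV (c : ℕ) : CompleteSpace (VV 𝕜 c) := by
  have : FiniteDimensional 𝕜 (VV 𝕜 c) := Module.Finite.equiv (TT 𝕜 c)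
  exact FiniteDimensional.complete 𝕜 (VV 𝕜 c)

variable (𝕜)

/-- the space -/
abbrev XX : Type := lp (fun c => VV 𝕜 c) 2

/-- the enumeration -/
noncomputable def en : ℕ ≃ Σ c, Fin (NN 𝕜 c) := lexE (NN 𝕜) (NN_pos 𝕜)

/-- the basis -/
noncomputable def bx (n : ℕ) : XX 𝕜 := BS.vec 2 (TT 𝕜) (en 𝕜 n)

/-- the functionals -/
noncomputable def bf (n : ℕ) : XX 𝕜 →ₗ[𝕜] 𝕜 := BS.fnl 2 (TT 𝕜) (en 𝕜 n)

variable {𝕜}

lemma bf_bx (m n : ℕ) : bf 𝕜 m (bx 𝕜 n) = if m = n then 1 else 0 := by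
  unfold bf bx
  rw [BS.fnl_vec]
  simp only [EmbeddingLike.apply_eq_iff_eq]

lemma two_toReal : ((2 : ℝ≥0∞).toReal) = 2 := by norm_num

lemma norm_sq_ge (f : XX 𝕜) (s : Finset ℕ) : ∑ c ∈ s, ‖f c‖ ^ 2 ≤ ‖f‖ ^ 2 := by
  have := lp.sum_rpow_le_norm_rpow (p := 2) (by norm_num) f s
  simpa only [two_toReal, Real.rpow_two] using this

lemma hasSum_norm_sq (f : XX 𝕜) : HasSum (fun c => ‖f c‖ ^ 2) (‖f‖ ^ 2) := by
  have := lp.hasSum_norm (p := 2) (by norm_num) f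
  simpa only [two_toReal, Real.rpow_two] using this

/-- coordinates of a vector in a block -/
noncomputable def crd (f : XX 𝕜) (c : ℕ) : Fin (NN 𝕜 c) → 𝕜 := fun k => BS.fnl 2 (TT 𝕜) ⟨c, k⟩ f

lemma norm_comp_sq (f : XX 𝕜) (c : ℕ) : ‖f c‖ ^ 2 = Q (KK 𝕜 c) (crd f c) := by
  rw [BS.apply_eq 2 (TT 𝕜) f c, norm_TT_sq]
  rfl

/-- Bessel -/
lemma bessel (A : Finset ℕ) (f : XX 𝕜) : ∑ n ∈ A, ‖bf 𝕜 n f‖ ^ 2 ≤ ‖f‖ ^ 2 := by
  classical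
  set g : (Σ c, Fin (NN 𝕜 c)) → ℝ := fun i => ‖BS.fnl 2 (TT 𝕜) i f‖ ^ 2 with hg
  have h1 : ∑ n ∈ A, ‖bf 𝕜 n f‖ ^ 2 = ∑ i ∈ A.map (en 𝕜).toEmbedding, g i := by
    rw [Finset.sum_map]
    rfl
  set s : Finset ℕ := A.image (fun n => (en 𝕜 n).1) with hs
  have h2 : A.map (en 𝕜).toEmbedding ⊆ s.sigma (fun c => (Finset.univ : Finset (Fin (NN 𝕜 c)))) := by
    intro i hi
    obtain ⟨n, hn, rfl⟩ := Finset.mem_map.mp hi
    rw [Finset.mem_sigma]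
    exact ⟨Finset.mem_image.mpr ⟨n, hn, rfl⟩, Finset.mem_univ _⟩
  rw [h1]
  refine (Finset.sum_le_sum_of_subset_of_nonneg h2 (fun i _ _ => by positivity)).trans ?_
  rw [Finset.sum_sigma]
  refine le_trans ?_ (norm_sq_ge f s)
  apply Finset.sum_le_sum
  intro c _
  rw [norm_comp_sq]
  unfold Q
  have : 0 ≤ ∑ i ∈ Finset.range (KK 𝕜 c), ‖Alam (KK 𝕜 c) (crd f c) i‖ ^ 2 :=
    Finset.sum_nonneg fun _ _ => by positivity
  have h3 : ∑ k : Fin (NN 𝕜 c), g ⟨c, k⟩ = ∑ n : Fin (NB (KK 𝕜 c)), ‖crd f c n‖ ^ 2 := rfl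
  rw [h3]
  linarith

lemma norm_bf_le (n : ℕ) (f : XX 𝕜) : ‖bf 𝕜 n f‖ ≤ 1 * ‖f‖ := by
  have h := bessel {n} f
  rw [Finset.sum_singleton] at h
  rw [one_mul]
  exact (sq_le_sq₀ (norm_nonneg _) (norm_nonneg _)).mp h

/-- indices of finitely many blocks -/
noncomputable def blks (𝕜 : Type) [RCLike 𝕜] (S : Finset ℕ) : Finset ℕ :=
  (S.sigma (fun c => (Finset.univ : Finset (Fin (NN 𝕜 c))))).map (en 𝕜).symm.toEmbedding

lemma sum_blks {M : Type} [AddCommMonoid M] (S : Finset ℕ) (F : ℕ → M) :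
    ∑ n ∈ blks 𝕜 S, F n = ∑ c ∈ S, ∑ k : Fin (NN 𝕜 c), F ((en 𝕜).symm ⟨c, k⟩) := by
  unfold blks
  rw [Finset.sum_map, Finset.sum_sigma]
  rfl

lemma mem_blks (S : Finset ℕ) (n : ℕ) : n ∈ blks 𝕜 S ↔ (en 𝕜 n).1 ∈ S := by
  unfold blks
  rw [Finset.mem_map]
  constructor
  · rintro ⟨i, hi, rfl⟩
    rw [Finset.mem_sigma] at hi
    have : en 𝕜 ((en 𝕜).symm.toEmbedding i) = i := (en 𝕜).apply_symm_apply i
    rw [this]
    exact hi.1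
  · intro h
    exact ⟨en 𝕜 n, Finset.mem_sigma.mpr ⟨h, Finset.mem_univ _⟩, (en 𝕜).symm_apply_apply n⟩

/-- the functional with given pairs on finitely many blocks, truncated at level `s` -/
noncomputable def gfun (S : Finset ℕ) (h : ∀ c, Fin (NB (KK 𝕜 c)) → 𝕜) (ν : ℕ → ℕ → 𝕜) (s : ℝ)
    (n : ℕ) : 𝕜 :=
  open Classical in
  if (en 𝕜 n).1 ∈ S then
    tr s (((1 / 8 : ℝ) : 𝕜) * gf (KK 𝕜 (en 𝕜 n).1) (h (en 𝕜 n).1) (ν (en 𝕜 n).1) (en 𝕜 n).2)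
  else 0

lemma gfun_symm (S : Finset ℕ) (h : ∀ c, Fin (NB (KK 𝕜 c)) → 𝕜) (ν : ℕ → ℕ → 𝕜) (s : ℝ)
    (c : ℕ) (hc : c ∈ S) (k : Fin (NN 𝕜 c)) :
    gfun S h ν s ((en 𝕜).symm ⟨c, k⟩) =
      tr s (((1 / 8 : ℝ) : 𝕜) * gf (KK 𝕜 c) (h c) (ν c) k) := by
  unfold gfun
  rw [Equiv.apply_symm_apply, if_pos hc]

/-- the class of functionals -/
def GG (𝕜 : Type) [RCLike 𝕜] : Set (Finset ℕ × (ℕ → 𝕜)) :=
  {p | ∃ (S : Finset ℕ) (h : ∀ c, Fin (NB (KK 𝕜 c)) → 𝕜) (ν : ℕ → ℕ → 𝕜) (s : ℝ),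
    ∑ c ∈ S, P (KK 𝕜 c) (h c) (ν c) ≤ 1 ∧ 0 ≤ s ∧ p = (blks 𝕜 S, gfun S h ν s)}

lemma GG_trunc (B : Finset ℕ) (g : ℕ → 𝕜) (hg : (B, g) ∈ GG 𝕜) (s : ℝ) (hs : 0 ≤ s) :
    (B, fun n => tr s (g n)) ∈ GG 𝕜 := by
  obtain ⟨S, h, ν, s', hP, hs', he⟩ := hg
  rw [Prod.mk.injEq] at he
  obtain ⟨rfl, rfl⟩ := he
  refine ⟨S, h, ν, min s s', hP, le_min hs hs', ?_⟩
  rw [Prod.mk.injEq]
  refine ⟨rfl, ?_⟩
  funext n
  unfold gfun
  split_ifs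
  · rw [tr_tr hs hs']
  · exact tr_zero s

lemma pair_block (S : Finset ℕ) (h : ∀ c, Fin (NB (KK 𝕜 c)) → 𝕜) (ν : ℕ → ℕ → 𝕜) (s : ℝ)
    (f : XX 𝕜) : ∑ n ∈ blks 𝕜 S, gfun S h ν s n * bf 𝕜 n f =
      ∑ c ∈ S, ((1 / 8 : ℝ) : 𝕜) *
        ∑ k : Fin (NB (KK 𝕜 c)), tr (s / (1 / 8)) (gf (KK 𝕜 c) (h c) (ν c) k) * crd f c k := by
  rw [sum_blks]
  apply Finset.sum_congr rfl
  intro c hc
  rw [Finset.mul_sum]
  apply Finset.sum_congr rfl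
  intro k _
  rw [gfun_symm S h ν s c hc k, tr_mul (by norm_num)]
  unfold bf
  rw [Equiv.apply_symm_apply, mul_assoc]
  rfl

lemma GG_bdd (B : Finset ℕ) (g : ℕ → 𝕜) (hg : (B, g) ∈ GG 𝕜) (f : XX 𝕜) :
    ‖∑ n ∈ B, g n * bf 𝕜 n f‖ ≤ Real.sqrt 18 * ‖f‖ := by
  obtain ⟨S, h, ν, s, hP, hs, he⟩ := hg
  rw [Prod.mk.injEq] at he
  obtain ⟨rfl, rfl⟩ := he
  rw [pair_block]
  have h1 : ∀ c ∈ S, ‖((1 / 8 : ℝ) : 𝕜) *
      ∑ k : Fin (NB (KK 𝕜 c)), tr (s / (1 / 8)) (gf (KK 𝕜 c) (h c) (ν c) k) * crd f c k‖ ≤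
      Real.sqrt 18 * (Real.sqrt (P (KK 𝕜 c) (h c) (ν c)) * Real.sqrt (‖f c‖ ^ 2)) := by
    intro c _
    have h2 := trunc_bound (h c) (ν c) (crd f c) (s / (1 / 8)) (by positivity)
    rw [← norm_comp_sq] at h2
    have h3 := Real.le_sqrt_of_sq_le h2
    rw [Real.sqrt_mul (by norm_num), Real.sqrt_mul (P_nonneg _ _)] at h3
    rw [norm_mul, RCLike.norm_ofReal, abs_of_pos (by norm_num : (0 : ℝ) < 1 / 8)]
    have h4 := norm_nonneg (∑ k : Fin (NB (KK 𝕜 c)),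
      tr (s / (1 / 8)) (gf (KK 𝕜 c) (h c) (ν c) k) * crd f c k)
    linarith
  refine (norm_sum_le _ _).trans ((Finset.sum_le_sum h1).trans ?_)
  rw [← Finset.mul_sum]
  apply mul_le_mul_of_nonneg_left _ (Real.sqrt_nonneg _)
  refine (Real.sum_sqrt_mul_sqrt_le S (fun c => P_nonneg _ _) (fun c => by positivity)).trans ?_
  have h2 : Real.sqrt (∑ c ∈ S, P (KK 𝕜 c) (h c) (ν c)) ≤ 1 := by
    rw [Real.sqrt_le_one]
    exact hP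
  have h3 : Real.sqrt (∑ c ∈ S, ‖f c‖ ^ 2) ≤ ‖f‖ := by
    rw [Real.sqrt_le_left (norm_nonneg _)]
    exact norm_sq_ge f S
  calc _ ≤ 1 * ‖f‖ := mul_le_mul h2 h3 (Real.sqrt_nonneg _) zero_le_one
    _ = ‖f‖ := one_mul _

lemma gf_smul {K : ℕ} (r : 𝕜) (h : Fin (NB K) → 𝕜) (ν : ℕ → 𝕜) (n : Fin (NB K)) :
    gf K (fun n => r * h n) (fun i => r * ν i) n = r * gf K h ν n := by
  unfold gf mu
  have : ∑ i ∈ Finset.Ico (row n) K, ((al K (i - row n) : ℝ) : 𝕜) * (r * ν i) =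
      r * ∑ i ∈ Finset.Ico (row n) K, ((al K (i - row n) : ℝ) : 𝕜) * ν i := by
    rw [Finset.mul_sum]
    exact Finset.sum_congr rfl fun i _ => by ring
  rw [this]
  ring

lemma P_smul {K : ℕ} (r : 𝕜) (h : Fin (NB K) → 𝕜) (ν : ℕ → 𝕜) :
    P K (fun n => r * h n) (fun i => r * ν i) = ‖r‖ ^ 2 * P K h ν := by
  unfold P
  simp only [norm_mul, mul_pow]
  rw [← Finset.mul_sum, ← Finset.mul_sum, mul_add]

lemma P_le_one (S : Finset ℕ) (h : ∀ c, Fin (NB (KK 𝕜 c)) → 𝕜) (ν : ℕ → ℕ → 𝕜)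
    (hP : ∑ c ∈ S, P (KK 𝕜 c) (h c) (ν c) ≤ 1) (c : ℕ) (hc : c ∈ S) :
    P (KK 𝕜 c) (h c) (ν c) ≤ 1 :=
  (Finset.single_le_sum (f := fun c => P (KK 𝕜 c) (h c) (ν c)) (fun _ _ => P_nonneg _ _) hc).trans hP

lemma GG_norming (f : XX 𝕜) : ∃ B g, (B, g) ∈ GG 𝕜 ∧
    ‖f‖ ≤ 16 * ‖∑ n ∈ B, g n * bf 𝕜 n f‖ := by
  rcases eq_or_ne f 0 with rfl | hf
  · refine ⟨blks 𝕜 ∅, gfun ∅ (fun _ _ => 0) (fun _ _ => 0) 0, ⟨∅, _, _, 0, by simp, le_rfl, rfl⟩, ?_⟩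
    rw [norm_zero]
    positivity
  · have hf0 : 0 < ‖f‖ := norm_pos_iff.mpr hf
    -- a finite set of blocks carrying half of the norm
    obtain ⟨S, hS⟩ : ∃ S : Finset ℕ, ‖f‖ ^ 2 / 2 ≤ ∑ c ∈ S, ‖f c‖ ^ 2 := by
      have h1 := hasSum_norm_sq f
      have h2 : ‖f‖ ^ 2 / 2 < ‖f‖ ^ 2 := by
        have : 0 < ‖f‖ ^ 2 := by positivity
        linarith
      obtain ⟨S, hS⟩ := (h1.eventually (lt_mem_nhds h2)).exists
      exact ⟨S, hS.le⟩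
    set r : 𝕜 := (((‖f‖)⁻¹ : ℝ) : 𝕜) with hr
    have hrn : ‖r‖ = ‖f‖⁻¹ := by
      rw [hr, RCLike.norm_ofReal, abs_of_pos (by positivity)]
    set h : ∀ c, Fin (NB (KK 𝕜 c)) → 𝕜 := fun c n => r * (starRingEnd 𝕜) (crd f c n) with hh
    set ν : ℕ → ℕ → 𝕜 := fun c i => r * (starRingEnd 𝕜) (Alam (KK 𝕜 c) (crd f c) i) with hν
    have hPc : ∀ c, P (KK 𝕜 c) (h c) (ν c) = ‖f‖⁻¹ ^ 2 * ‖f c‖ ^ 2 := by
      intro c
      rw [hh, hν]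
      simp only
      rw [P_smul, P_conj, hrn, norm_comp_sq]
    have hP : ∑ c ∈ S, P (KK 𝕜 c) (h c) (ν c) ≤ 1 := by
      simp only [hPc]
      rw [← Finset.mul_sum]
      have h1 := norm_sq_ge f S
      calc _ ≤ ‖f‖⁻¹ ^ 2 * ‖f‖ ^ 2 := mul_le_mul_of_nonneg_left h1 (by positivity)
        _ = 1 := by rw [← mul_pow, inv_mul_cancel₀ hf0.ne', one_pow]
    refine ⟨blks 𝕜 S, gfun S h ν (1 / 2), ⟨S, h, ν, 1 / 2, hP, by norm_num, rfl⟩, ?_⟩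
    rw [pair_block]
    have h1 : ∀ c ∈ S, ((1 / 8 : ℝ) : 𝕜) * ∑ k : Fin (NB (KK 𝕜 c)),
        tr (1 / 2 / (1 / 8)) (gf (KK 𝕜 c) (h c) (ν c) k) * crd f c k =
        ((1 / 8 * (‖f‖⁻¹ * ‖f c‖ ^ 2) : ℝ) : 𝕜) := by
      intro c hc
      have h2 : ∑ k : Fin (NB (KK 𝕜 c)),
          tr (1 / 2 / (1 / 8)) (gf (KK 𝕜 c) (h c) (ν c) k) * crd f c k =
          ((‖f‖⁻¹ * ‖f c‖ ^ 2 : ℝ) : 𝕜) := by
        have h3 : ∀ k : Fin (NB (KK 𝕜 c)), tr (1 / 2 / (1 / 8)) (gf (KK 𝕜 c) (h c) (ν c) k) =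
            r * gf (KK 𝕜 c) (fun n => (starRingEnd 𝕜) (crd f c n))
              (fun i => (starRingEnd 𝕜) (Alam (KK 𝕜 c) (crd f c) i)) k := by
          intro k
          rw [tr_of_le]
          · rw [hh, hν]
            simp only
            rw [gf_smul]
          · refine (gf_norm_le (h c) (ν c) (P_le_one S h ν hP c hc) k).trans (by norm_num)
        simp only [h3, mul_assoc]
        rw [← Finset.mul_sum, norming, norm_comp_sq, hr]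
        push_cast
        rfl
      rw [h2]
      push_cast
      rfl
    rw [Finset.sum_congr rfl h1, ← RCLike.ofReal_sum, RCLike.norm_ofReal]
    refine le_trans ?_ (mul_le_mul_of_nonneg_left (le_abs_self _) (by norm_num))
    rw [← Finset.mul_sum, ← Finset.mul_sum]
    have h2 : ‖f‖⁻¹ * (‖f‖ ^ 2 / 2) ≤ ‖f‖⁻¹ * ∑ c ∈ S, ‖f c‖ ^ 2 :=
      mul_le_mul_of_nonneg_left hS (by positivity)
    have h3 : ‖f‖⁻¹ * (‖f‖ ^ 2 / 2) = ‖f‖ / 2 := by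
      field_simp
    rw [h3] at h2
    linarith

lemma gfun_norm_le (S : Finset ℕ) (h : ∀ c, Fin (NB (KK 𝕜 c)) → 𝕜) (ν : ℕ → ℕ → 𝕜) (s : ℝ)
    (hs : 0 ≤ s) (c : ℕ) (hc : c ∈ S) (k : Fin (NN 𝕜 c)) :
    ‖gfun S h ν s ((en 𝕜).symm ⟨c, k⟩)‖ ≤ 1 / 8 * ‖gf (KK 𝕜 c) (h c) (ν c) k‖ := by
  rw [gfun_symm S h ν s c hc k]
  refine (norm_tr_le' hs _).trans ?_
  rw [norm_mul, RCLike.norm_ofReal, abs_of_pos (by norm_num : (0 : ℝ) < 1 / 8)]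

lemma GG_small (B : Finset ℕ) (g : ℕ → 𝕜) (hg : (B, g) ∈ GG 𝕜) (n : ℕ) : ‖g n‖ ≤ 1 / 2 := by
  obtain ⟨S, h, ν, s, hP, hs, he⟩ := hg
  rw [Prod.mk.injEq] at he
  obtain ⟨rfl, rfl⟩ := he
  obtain ⟨⟨c, k⟩, rfl⟩ := (en 𝕜).symm.surjective n
  by_cases hc : c ∈ S
  · refine (gfun_norm_le S h ν s hs c hc k).trans ?_
    have := gf_norm_le (h c) (ν c) (P_le_one S h ν hP c hc) k
    linarith
  · unfold gfun
    rw [Equiv.apply_symm_apply, if_neg hc, norm_zero]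
    norm_num

lemma GG_weak (B : Finset ℕ) (g : ℕ → 𝕜) (hg : (B, g) ∈ GG 𝕜) (τ : ℝ) (hτ : 0 < τ) :
    ((B.filter (fun n => τ < ‖g n‖)).card : ℝ) * τ ^ 2 ≤ 1 / 16 := by
  classical
  obtain ⟨S, h, ν, s, hP, hs, he⟩ := hg
  rw [Prod.mk.injEq] at he
  obtain ⟨rfl, rfl⟩ := he
  have h1 : (((blks 𝕜 S).filter (fun n => τ < ‖gfun S h ν s n‖)).card : ℝ) * τ ^ 2 =
      ∑ n ∈ blks 𝕜 S, if τ < ‖gfun S h ν s n‖ then τ ^ 2 else 0 := by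
    rw [← nsmul_eq_mul, ← Finset.sum_const, Finset.sum_filter]
  rw [h1, sum_blks]
  have h2 : ∀ c ∈ S, ∑ k : Fin (NN 𝕜 c),
      (if τ < ‖gfun S h ν s ((en 𝕜).symm ⟨c, k⟩)‖ then τ ^ 2 else 0) ≤
      1 / 16 * P (KK 𝕜 c) (h c) (ν c) := by
    intro c hc
    have h3 := weak_bound (h c) (ν c) (8 * τ) (by positivity)
    have h4 : ∑ k : Fin (NN 𝕜 c),
        (if τ < ‖gfun S h ν s ((en 𝕜).symm ⟨c, k⟩)‖ then τ ^ 2 else 0) ≤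
        ∑ k : Fin (NB (KK 𝕜 c)),
          (if 8 * τ < ‖gf (KK 𝕜 c) (h c) (ν c) k‖ then τ ^ 2 else 0) := by
      apply Finset.sum_le_sum
      intro k _
      have h5 := gfun_norm_le S h ν s hs c hc k
      by_cases h6 : τ < ‖gfun S h ν s ((en 𝕜).symm ⟨c, k⟩)‖
      · rw [if_pos h6, if_pos (by linarith)]
      · rw [if_neg h6]
        split_ifs
        · positivity
        · exact le_refl _
    refine h4.trans ?_
    rw [← Finset.sum_filter, Finset.sum_const, nsmul_eq_mul]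
    nlinarith
  refine (Finset.sum_le_sum h2).trans ?_
  rw [← Finset.mul_sum]
  linarith

variable (𝕜)

/-- the data of the renorming -/
noncomputable def DD : PA.Data 𝕜 (XX 𝕜) where
  xs := bf 𝕜
  G := GG 𝕜
  C1 := Real.sqrt 18
  C2 := 16
  C3 := 1
  κ := 1 / 16
  C1_nonneg := Real.sqrt_nonneg _
  C2_pos := by norm_num
  C3_nonneg := zero_le_one
  hκ := le_refl _
  trunc := GG_trunc
  bdd := GG_bdd
  norming := GG_norming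
  weak := GG_weak
  bessel A f := by rw [one_mul]; exact bessel A f
  small := GG_small


end Pool.Agent.R267.CA
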