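import Pool.Agent.R267.CondA

set_option autoImplicit false

open Filter Topology
open scoped ENNReal

namespace Pool.Agent.R267.CA

open Pool.Agent.R267 Pool.Agent.R267.Lex Pool.Agent.R267.CB Pool.Agent.R267.TR


variable {𝕜 : Type} [RCLike 𝕜]

/-- the basis expansion -/
lemma expansion (y : XX 𝕜) :
    Tendsto (fun m => ∑ n ∈ Finset.range m, bf 𝕜 n y • bx 𝕜 n) atTop (𝓝 y) := by
  have h := BS.tendsto_ordr (NN 𝕜) (NN_pos 𝕜) 2 (TT 𝕜) (by norm_num)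
    (fun _ => Equiv.refl _) y 3 (by norm_num) (fun c k' => ?_)
  · refine h.congr fun m => ?_
    rfl
  · have h1 := prefix_bound (crd y c) k'
    have h2 : ‖TT 𝕜 c (fun l => if (l : ℕ) < k' then crd y c l else 0)‖ ^ 2 ≤ 5 * ‖y c‖ ^ 2 := by
      rw [norm_TT_sq, norm_comp_sq]
      exact h1
    change ‖TT 𝕜 c (fun l => if (l : ℕ) < k' then crd y c l else 0)‖ ≤ 3 * ‖y c‖
    have h3 : ‖TT 𝕜 c (fun l => if (l : ℕ) < k' then crd y c l else 0)‖ ^ 2 ≤ (3 * ‖y c‖) ^ 2 := by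
      have : 0 ≤ ‖y c‖ ^ 2 := by positivity
      nlinarith
    exact (sq_le_sq₀ (norm_nonneg _) (by positivity)).mp h3

lemma continuous_fnl (i : Σ c, Fin (NN 𝕜 c)) : Continuous (BS.fnl 2 (TT 𝕜) i) := by
  refine AddMonoidHomClass.continuous_of_bound (BS.fnl 2 (TT 𝕜) i) 1 (fun f => ?_)
  have h := norm_bf_le ((en 𝕜).symm i) f
  unfold bf at h
  rwa [Equiv.apply_symm_apply] at h

lemma expansion_unique (y : XX 𝕜) (α : ℕ → 𝕜)
    (h : Tendsto (fun m => ∑ n ∈ Finset.range m, α n • bx 𝕜 n) atTop (𝓝 y)) (n : ℕ) :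
    α n = bf 𝕜 n y := by
  exact BS.coeff_unique_enum 2 (TT 𝕜) continuous_fnl (en 𝕜) α y h n

/-- the vector whose expansion is not unconditionally convergent -/
lemma exists_cond : ∃ y : XX 𝕜, ¬ Summable (fun n => bf 𝕜 n y • bx 𝕜 n) := by
  classical
  set b : ∀ c, Fin (NN 𝕜 c) → 𝕜 := fun c => (((1 / 2 : ℝ) ^ c : ℝ) : 𝕜) • aa 𝕜 c with hb
  have hQs : ∀ c (r : 𝕜) (a : Fin (NN 𝕜 c) → 𝕜), Q (KK 𝕜 c) (r • a) = ‖r‖ ^ 2 * Q (KK 𝕜 c) a := by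
    intro c r a
    rw [← norm_TT_sq, ← norm_TT_sq, map_smul, norm_smul, mul_pow]
  have hr : ∀ c : ℕ, ‖(((1 / 2 : ℝ) ^ c : ℝ) : 𝕜)‖ ^ 2 = (1 / 4 : ℝ) ^ c := by
    intro c
    rw [RCLike.norm_ofReal, abs_of_pos (by positivity), ← pow_mul, mul_comm c 2, pow_mul]
    norm_num
  have hnb : ∀ c, ‖TT 𝕜 c (b c)‖ ^ 2 ≤ (1 / 4 : ℝ) ^ c * 3 := by
    intro c
    have h0 : Q (KK 𝕜 c) (b c) = ‖(((1 / 2 : ℝ) ^ c : ℝ) : 𝕜)‖ ^ 2 * Q (KK 𝕜 c) (aa 𝕜 c) :=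
      hQs c _ _
    rw [norm_TT_sq, h0, hr]
    exact mul_le_mul_of_nonneg_left (aa_le 𝕜 c) (by positivity)
  have hmem : Memℓp (fun c => TT 𝕜 c (b c)) 2 := by
    apply memℓp_gen
    simp only [two_toReal, Real.rpow_two]
    refine Summable.of_nonneg_of_le (fun _ => by positivity) hnb ?_
    exact (summable_geometric_of_lt_one (by norm_num) (by norm_num)).mul_right 3
  set y : XX 𝕜 := ⟨fun c => TT 𝕜 c (b c), hmem⟩ with hy
  have hfy : ∀ c k, BS.fnl 2 (TT 𝕜) ⟨c, k⟩ y = b c k := by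
    intro c k
    rw [BS.fnl_apply]
    change (TT 𝕜 c).symm (TT 𝕜 c (b c)) k = b c k
    rw [LinearEquiv.symm_apply_apply]
  refine ⟨y, fun hsum => ?_⟩
  rw [summable_iff_vanishing_norm] at hsum
  obtain ⟨s, hs⟩ := hsum 1 one_pos
  -- a block not meeting `s`
  obtain ⟨c, hc⟩ : ∃ c, ∀ n ∈ s, (en 𝕜 n).1 ≠ c := by
    obtain ⟨c, hc⟩ := Infinite.exists_notMem_finset (s.image (fun n => (en 𝕜 n).1))
    exact ⟨c, fun n hn h => hc (Finset.mem_image.mpr ⟨n, hn, h⟩)⟩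
  set t : Finset ℕ := (Finset.univ.filter (fun k : Fin (NN 𝕜 c) => row k % 2 = 0)).map
    ⟨fun k => (en 𝕜).symm ⟨c, k⟩, fun k l hkl => by
      have := (en 𝕜).symm.injective hkl
      simpa using this⟩ with ht
  have hmt : ∀ k : Fin (NN 𝕜 c), (en 𝕜).symm ⟨c, k⟩ ∈ t ↔ row k % 2 = 0 := by
    intro k
    rw [ht, Finset.mem_map]
    constructor
    · rintro ⟨l, hl, h⟩
      have h1 : l = k := by
        have := (en 𝕜).symm.injective h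
        simpa using this
      rw [← h1]
      exact (Finset.mem_filter.mp hl).2
    · intro h
      exact ⟨k, Finset.mem_filter.mpr ⟨Finset.mem_univ _, h⟩, rfl⟩
  have hdisj : Disjoint t s := by
    rw [Finset.disjoint_left]
    intro n hn hns
    rw [ht, Finset.mem_map] at hn
    obtain ⟨k, _, rfl⟩ := hn
    apply hc _ hns
    exact congrArg Sigma.fst ((en 𝕜).apply_symm_apply ⟨c, k⟩)
  have h1 := hs t hdisj
  have h2 := lp.norm_apply_le_norm two_ne_zero (∑ n ∈ t, bf 𝕜 n y • bx 𝕜 n : XX 𝕜) c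
  have h3 : (∑ n ∈ t, bf 𝕜 n y • bx 𝕜 n : XX 𝕜) c =
      TT 𝕜 c ((((1 / 2 : ℝ) ^ c : ℝ) : 𝕜) •
        (fun k : Fin (NN 𝕜 c) => if row k % 2 = 0 then aa 𝕜 c k else 0)) := by
    unfold bx
    rw [BS.sum_enum_apply 2 (TT 𝕜) (en 𝕜) t (fun n => bf 𝕜 n y) c]
    congr 1
    funext k
    have h4 := hmt k
    by_cases h5 : row k % 2 = 0
    · rw [if_pos (h4.mpr h5)]
      unfold bf
      rw [Equiv.apply_symm_apply, hfy, hb]
      change (((1 / 2 : ℝ) ^ c : ℝ) : 𝕜) • aa 𝕜 c k =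
        (((1 / 2 : ℝ) ^ c : ℝ) : 𝕜) • (if row k % 2 = 0 then aa 𝕜 c k else 0)
      rw [if_pos h5]
    · rw [if_neg (fun h => h5 (h4.mp h))]
      simp only [Pi.smul_apply]
      rw [if_neg h5, smul_zero]
  have h4 : 1 ≤ ‖(∑ n ∈ t, bf 𝕜 n y • bx 𝕜 n : XX 𝕜) c‖ ^ 2 := by
    rw [h3, norm_TT_sq, hQs, hr]
    have h5 := le_aa 𝕜 c
    calc (1 : ℝ) = (1 / 4 : ℝ) ^ c * 4 ^ c := by rw [← mul_pow]; norm_num
      _ ≤ _ := mul_le_mul_of_nonneg_left h5 (by positivity)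
  have h5 : ‖(∑ n ∈ t, bf 𝕜 n y • bx 𝕜 n : XX 𝕜) c‖ < 1 := lt_of_le_of_lt h2 h1
  nlinarith [norm_nonneg ((∑ n ∈ t, bf 𝕜 n y • bx 𝕜 n : XX 𝕜) c)]

end Pool.Agent.R267.CA
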