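import Pool.Agent.R267.CondA2

set_option autoImplicit false

open Filter Topology
open scoped ENNReal

namespace Pool.Agent.R267.CA

open Pool.Agent.R267 Pool.Agent.R267.Lex Pool.Agent.R267.CB Pool.Agent.R267.TR

variable {𝕜 : Type} [RCLike 𝕜]

lemma Q_unit {K : ℕ} (k : Fin (NB K)) : Q K (Pi.single k (1 : 𝕜)) ≤ 2 := by
  classical
  unfold Q
  have h1 : ∑ n, ‖(Pi.single k (1 : 𝕜) : Fin (NB K) → 𝕜) n‖ ^ 2 = 1 := by
    rw [Finset.sum_eq_single k]
    · rw [Pi.single_eq_same, norm_one, one_pow]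
    · intro n _ hn
      rw [Pi.single_eq_of_ne hn, norm_zero, zero_pow two_ne_zero]
    · intro h; exact absurd (Finset.mem_univ _) h
  have h2 : (lamb (Pi.single k (1 : 𝕜) : Fin (NB K) → 𝕜)) =
      fun r => if r = row k then ((w (row k) : ℝ) : 𝕜) else 0 := by
    funext r
    unfold lamb
    by_cases h : r = row k
    · rw [if_pos h, Finset.sum_eq_single k]
      · rw [if_pos h.symm, Pi.single_eq_same, mul_one, h]
      · intro n _ hn
        rw [Pi.single_eq_of_ne hn, ite_self]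
      · intro h; exact absurd (Finset.mem_univ _) h
    · rw [if_neg h, Finset.sum_eq_zero, mul_zero]
      intro n _
      by_cases hn : n = k
      · rw [hn, if_neg (fun h' => h h'.symm)]
      · rw [Pi.single_eq_of_ne hn, ite_self]
  have h3 := Aop_single_le K (row k) ((w (row k) : ℝ) : 𝕜)
  have h4 : ‖((w (row k) : ℝ) : 𝕜)‖ ^ 2 ≤ 1 := by
    rw [RCLike.norm_ofReal, abs_of_pos (w_pos _)]
    have h5 := w_le (row k)
    have h6 := w_pos (row k)
    nlinarith
  rw [h1]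
  unfold Alam
  rw [h2]
  linarith

lemma norm_bx_le (n : ℕ) : ‖bx 𝕜 n‖ ≤ 2 := by
  classical
  have h1 : ‖bx 𝕜 n‖ ^ 2 ≤ 2 := by
    have h2 : ‖bx 𝕜 n‖ = ‖TT 𝕜 (en 𝕜 n).1 (Pi.single (en 𝕜 n).2 1)‖ := by
      unfold bx BS.vec
      exact lp.norm_single (by norm_num) _ _
    rw [h2, norm_TT_sq]
    exact Q_unit _
  have h3 := norm_nonneg (bx 𝕜 n)
  nlinarith

end Pool.Agent.R267.CA
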