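import Pool.Agent.R267.CondTransfer
import Pool.Agent.R267.CondA2

set_option autoImplicit false

open Filter Topology
open scoped ENNReal

/-! A conditional basis of `ℓ₂` and an equivalent norm with Property (A). -/

namespace Pool.Agent.R267.CF

open Pool.Agent.R267 Pool.Agent.R267.CA

variable (𝕜 : Type) [RCLike 𝕜]

theorem iso_XX : Nonempty (XX 𝕜 ≃ₗᵢ[𝕜] lp (fun _ : ℕ => 𝕜) 2) := by
  have : ∀ c, CompleteSpace (VV 𝕜 c) := complete_VV (𝕜 := 𝕜)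
  exact CT.exists_iso (𝕜 := 𝕜) (H := XX 𝕜) (bx 𝕜) (bf 𝕜) (fun m n => bf_bx (𝕜 := 𝕜) m n)
    (fun y => expansion (𝕜 := 𝕜) y)

theorem exists_l2 :
    ∃ (N : Seminorm 𝕜 (lp (fun _ : ℕ => 𝕜) 2)) (x : ℕ → lp (fun _ : ℕ => 𝕜) 2)
      (xs : ℕ → lp (fun _ : ℕ => 𝕜) 2 →ₗ[𝕜] 𝕜),
      (∃ c C : ℝ, 0 < c ∧ 0 < C ∧ ∀ y, c * ‖y‖ ≤ N y ∧ N y ≤ C * ‖y‖) ∧
      (∀ m n, xs m (x n) = if m = n then 1 else 0) ∧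
      (∀ y, Tendsto (fun m => ∑ n ∈ Finset.range m, xs n y • x n) atTop (𝓝 y)) ∧
      (∀ (y : lp (fun _ : ℕ => 𝕜) 2) (α : ℕ → 𝕜),
        Tendsto (fun m => ∑ n ∈ Finset.range m, α n • x n) atTop (𝓝 y) → ∀ n, α n = xs n y) ∧
      (∃ y, ¬ Summable (fun n => xs n y • x n)) ∧
      (∀ y z, PA.GreedyRearr (fun n => xs n y) (fun n => xs n z) → N y = N z) ∧
      (∀ n y, ‖xs n y‖ ≤ (DD 𝕜).C3 * ‖y‖) ∧ (∀ n, ‖x n‖ = ‖bx 𝕜 n‖) := by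
  obtain ⟨Φ⟩ := iso_XX 𝕜
  exact CT.transfer (𝕜 := 𝕜) (H := XX 𝕜) Φ (bx 𝕜) (DD 𝕜) (fun m n => bf_bx (𝕜 := 𝕜) m n)
    (fun y => expansion (𝕜 := 𝕜) y) (fun y α h n => expansion_unique (𝕜 := 𝕜) y α h n)
    (exists_cond (𝕜 := 𝕜))

end Pool.Agent.R267.CF
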