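import Pool.Agent.R267.PropA
import Pool.Agent.R267.HilbertIso

set_option autoImplicit false

open Filter Topology
open scoped ENNReal

/-! Transfer of a conditional basis with Property (A) data from a Hilbert space to `ℓ₂`. -/

namespace Pool.Agent.R267.CT

open Pool.Agent.R267

variable {𝕜 : Type} [RCLike 𝕜]

theorem exists_iso {H : Type} [NormedAddCommGroup H] [InnerProductSpace 𝕜 H] [CompleteSpace H]
    (b : ℕ → H) (f : ℕ → H →ₗ[𝕜] 𝕜)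
    (hbi : ∀ m n, f m (b n) = if m = n then 1 else 0)
    (hexp : ∀ y : H, Tendsto (fun m => ∑ n ∈ Finset.range m, f n y • b n) atTop (𝓝 y)) :
    Nonempty (H ≃ₗᵢ[𝕜] lp (fun _ : ℕ => 𝕜) 2) := by
  have hli : LinearIndependent 𝕜 b := HI.linearIndependent_of_biorth b f hbi
  refine HI.exists_iso b hli fun y => ?_
  refine mem_closure_of_tendsto (hexp y) (Eventually.of_forall fun m => ?_)
  exact Submodule.sum_mem _ fun n _ => Submodule.smul_mem _ _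
    (Submodule.subset_span (Set.mem_range_self n))

theorem transfer {H : Type} [NormedAddCommGroup H] [NormedSpace 𝕜 H]
    (Φ : H ≃ₗᵢ[𝕜] lp (fun _ : ℕ => 𝕜) 2) (b : ℕ → H) (D : PA.Data 𝕜 H)
    (hbi : ∀ m n, D.xs m (b n) = if m = n then 1 else 0)
    (hexp : ∀ y : H, Tendsto (fun m => ∑ n ∈ Finset.range m, D.xs n y • b n) atTop (𝓝 y))
    (huniq : ∀ (y : H) (α : ℕ → 𝕜),
      Tendsto (fun m => ∑ n ∈ Finset.range m, α n • b n) atTop (𝓝 y) → ∀ n, α n = D.xs n y)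
    (hcond : ∃ y : H, ¬ Summable (fun n => D.xs n y • b n)) :
    ∃ (N : Seminorm 𝕜 (lp (fun _ : ℕ => 𝕜) 2)) (x : ℕ → lp (fun _ : ℕ => 𝕜) 2)
      (xs : ℕ → lp (fun _ : ℕ => 𝕜) 2 →ₗ[𝕜] 𝕜),
      (∃ c C : ℝ, 0 < c ∧ 0 < C ∧ ∀ y, c * ‖y‖ ≤ N y ∧ N y ≤ C * ‖y‖) ∧
      (∀ m n, xs m (x n) = if m = n then 1 else 0) ∧
      (∀ y, Tendsto (fun m => ∑ n ∈ Finset.range m, xs n y • x n) atTop (𝓝 y)) ∧
      (∀ (y : lp (fun _ : ℕ => 𝕜) 2) (α : ℕ → 𝕜),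
        Tendsto (fun m => ∑ n ∈ Finset.range m, α n • x n) atTop (𝓝 y) → ∀ n, α n = xs n y) ∧
      (∃ y, ¬ Summable (fun n => xs n y • x n)) ∧
      (∀ y z, PA.GreedyRearr (fun n => xs n y) (fun n => xs n z) → N y = N z) ∧
      (∀ n y, ‖xs n y‖ ≤ D.C3 * ‖y‖) ∧ (∀ n, ‖x n‖ = ‖b n‖) := by
  have hΦt : ∀ (u : ℕ → H) (y : H), Tendsto u atTop (𝓝 y) →
      Tendsto (fun m => Φ (u m)) atTop (𝓝 (Φ y)) := fun u y h =>
    (Φ.continuous.tendsto y).comp h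
  have hΨt : ∀ (u : ℕ → lp (fun _ : ℕ => 𝕜) 2) (y : lp (fun _ : ℕ => 𝕜) 2),
      Tendsto u atTop (𝓝 y) →
      Tendsto (fun m => Φ.symm (u m)) atTop (𝓝 (Φ.symm y)) := fun u y h =>
    (Φ.symm.continuous.tendsto y).comp h
  refine ⟨(PA.nn D).comp (Φ.symm.toLinearEquiv : lp (fun _ : ℕ => 𝕜) 2 →ₗ[𝕜] H),
    fun n => Φ (b n), fun n => (D.xs n).comp (Φ.symm.toLinearEquiv : lp (fun _ : ℕ => 𝕜) 2 →ₗ[𝕜] H),
    ⟨D.C2⁻¹, D.C1 + 2 * D.C3 + 1, inv_pos.mpr D.C2_pos, ?_, fun y => ⟨?_, ?_⟩⟩, ?_, ?_, ?_, ?_, ?_,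
    ?_, ?_⟩
  · have h1 := D.C1_nonneg
    have h3 := D.C3_nonneg
    positivity
  · have h1 := PA.nn_lower D (Φ.symm y)
    rw [Φ.symm.norm_map] at h1
    exact h1
  · have h1 := PA.nn_upper D (Φ.symm y)
    rw [Φ.symm.norm_map] at h1
    have h2 : (D.C1 + 2 * D.C3) * ‖y‖ ≤ (D.C1 + 2 * D.C3 + 1) * ‖y‖ :=
      mul_le_mul_of_nonneg_right (by linarith) (norm_nonneg _)
    exact h1.trans h2
  · intro m n
    change D.xs m (Φ.symm (Φ (b n))) = _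
    rw [Φ.symm_apply_apply]
    exact hbi m n
  · intro y
    have h1 := hΦt _ _ (hexp (Φ.symm y))
    rw [Φ.apply_symm_apply] at h1
    refine h1.congr fun m => ?_
    rw [map_sum]
    refine Finset.sum_congr rfl fun n _ => ?_
    rw [map_smul]
    rfl
  · intro y α h n
    have h1 := hΨt _ _ h
    refine huniq (Φ.symm y) α (h1.congr fun m => ?_) n
    rw [map_sum]
    refine Finset.sum_congr rfl fun k _ => ?_
    rw [map_smul, Φ.symm_apply_apply]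
  · obtain ⟨y, hy⟩ := hcond
    refine ⟨Φ y, fun hs => hy ?_⟩
    have h1 := hs.map (Φ.symm.toLinearEquiv : lp (fun _ : ℕ => 𝕜) 2 →ₗ[𝕜] H) Φ.symm.continuous
    refine h1.congr fun n => ?_
    change Φ.symm (D.xs n (Φ.symm (Φ y)) • Φ (b n)) = _
    rw [map_smul, Φ.symm_apply_apply, Φ.symm_apply_apply]
  · intro y z h
    exact PA.nn_eq D (Φ.symm y) (Φ.symm z) h
  · intro n y
    change ‖D.xs n (Φ.symm y)‖ ≤ _
    have h1 := D.bessel {n} (Φ.symm y)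
    rw [Finset.sum_singleton, Φ.symm.norm_map] at h1
    have h3 := D.C3_nonneg
    exact (sq_le_sq₀ (norm_nonneg _) (by positivity)).mp h1
  · intro n
    exact Φ.norm_map _

end Pool.Agent.R267.CT
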