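import Mathlib

set_option autoImplicit false

/-! Combinatorics of the weights for partially greedy bases along sequences. -/

namespace Pool.Agent.R267.FC

lemma sum_inv_sqrt {ι : Type} [DecidableEq ι] (h : ι → ℕ) (n : ℕ) : ∀ A : Finset ι, A.card = n →
    (∀ m : ℕ, (A.filter (fun u => h u ≤ m)).card ≤ 2 * m) →
    ∑ u ∈ A, 1 / Real.sqrt (h u) ≤ 3 * Real.sqrt n := by
  induction n with
  | zero =>
    intro A hA _
    rw [Finset.card_eq_zero] at hA
    simp [hA]
  | succ n ih =>
    intro A hA hc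
    have hne : A.Nonempty := by
      rw [← Finset.card_pos, hA]; omega
    obtain ⟨u0, hu0, hmax⟩ := Finset.exists_max_image A h hne
    have h1 : (A.filter (fun u => h u ≤ h u0)) = A := Finset.filter_true_of_mem hmax
    have h2 := hc (h u0)
    rw [h1, hA] at h2
    have h3 : (A.erase u0).card = n := by
      rw [Finset.card_erase_of_mem hu0, hA]; rfl
    have h4 := ih (A.erase u0) h3 (fun m =>
      (Finset.card_le_card (Finset.filter_subset_filter _ (Finset.erase_subset _ _))).trans (hc m))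
    rw [← Finset.add_sum_erase A _ hu0]
    have hs0 : 0 < Real.sqrt ((n + 1 : ℕ) : ℝ) := Real.sqrt_pos.mpr (by positivity)
    have hs : Real.sqrt ((n + 1 : ℕ) : ℝ) ^ 2 = n + 1 := by
      rw [Real.sq_sqrt (by positivity)]; push_cast; ring
    have ht : Real.sqrt (n : ℝ) ^ 2 = n := Real.sq_sqrt (by positivity)
    have ht0 := Real.sqrt_nonneg (n : ℝ)
    set s := Real.sqrt ((n + 1 : ℕ) : ℝ) with hsdef
    set t := Real.sqrt (n : ℝ) with htdef
    have h5 : (n + 1 : ℝ) ≤ 2 * (h u0 : ℝ) := by exact_mod_cast h2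
    have h6 : s / (3 / 2) ≤ Real.sqrt (h u0) := by
      apply Real.le_sqrt_of_sq_le
      rw [div_pow, hs]
      rw [div_le_iff₀ (by norm_num)]
      nlinarith
    have h7 : 1 / Real.sqrt (h u0) ≤ (3 / 2) / s := by
      rw [div_le_div_iff₀ (lt_of_lt_of_le (by positivity) h6) hs0]
      rw [div_le_iff₀ (by norm_num)] at h6
      linarith
    have h8 : (3 / 2) / s + 3 * t ≤ 3 * s := by
      rw [← sub_nonneg]
      have : 3 * s - (3 / 2 / s + 3 * t) = (3 * s ^ 2 - 3 / 2 - 3 * t * s) / s := by
        field_simp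
        ring
      rw [this]
      apply div_nonneg _ hs0.le
      nlinarith [sq_nonneg (s - t)]
    linarith

/-- the reciprocal squared weights -/
def hh (a q u : ℕ) : ℕ :=
  if u % (q + 2) = 0 then a + u / (q + 2) else (a + u / (q + 2)) * (q + 1)

/-- the length of a block -/
def Nn (a q : ℕ) : ℕ := a * q * (q + 2)

/-- the signs -/
noncomputable def sg (q u : ℕ) : ℝ := if u % (q + 2) = 0 then 1 else -1

/-- the greedy part of a block -/
def DD (a q : ℕ) : Finset ℕ := (Finset.range (Nn a q)).filter (fun u => u % (q + 2) = 0)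

/-- the weights -/
noncomputable def gg (a q u : ℕ) : ℝ := if u < Nn a q then 1 / Real.sqrt (hh a q u) else 0

lemma hh_ge (a q u : ℕ) : a ≤ hh a q u := by
  unfold hh
  split_ifs
  · exact Nat.le_add_right _ _
  · nlinarith [Nat.zero_le (u / (q + 2)), Nat.zero_le (a * q), Nat.zero_le (u / (q + 2) * q)]

lemma hh_pos {a : ℕ} (ha : 0 < a) (q u : ℕ) : 0 < hh a q u := lt_of_lt_of_le ha (hh_ge a q u)

lemma mul_add_div_aux (j q s : ℕ) (hs : s < q + 1) : (j * (q + 1) + s) / (q + 1) = j := by
  rw [Nat.add_comm, Nat.add_mul_div_right _ _ (by omega), Nat.div_eq_of_lt hs, Nat.zero_add]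

lemma count {a : ℕ} (ha : 0 < a) (q : ℕ) (A : Finset ℕ) (m : ℕ) :
    (A.filter (fun u => hh a q u ≤ m)).card ≤ 2 * m := by
  classical
  have h1 : A.filter (fun u => hh a q u ≤ m) ⊆
      (A.filter (fun u => hh a q u ≤ m)).filter (fun u => u % (q + 2) = 0) ∪
      (A.filter (fun u => hh a q u ≤ m)).filter (fun u => ¬ u % (q + 2) = 0) := by
    rw [Finset.filter_union_filter_not_eq]
  refine (Finset.card_le_card h1).trans ((Finset.card_union_le _ _).trans ?_)
  have h2 : ((A.filter (fun u => hh a q u ≤ m)).filter (fun u => u % (q + 2) = 0)).card ≤ m := by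
    have := Finset.card_le_card_of_injOn (fun u => u / (q + 2))
      (s := (A.filter (fun u => hh a q u ≤ m)).filter (fun u => u % (q + 2) = 0))
      (t := Finset.range m) (by
        intro u hu
        simp only [Finset.coe_filter, Finset.mem_filter, Set.mem_ofPred_eq] at hu
        obtain ⟨⟨_, h3⟩, h4⟩ := hu
        unfold hh at h3
        rw [if_pos h4] at h3
        simp only [Finset.coe_range, Set.mem_Iio]
        omega) (by
        intro u hu v hv huv
        simp only [Finset.coe_filter, Finset.mem_filter, Set.mem_ofPred_eq] at hu hv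
        dsimp only at huv
        rw [← Nat.div_add_mod u (q + 2), ← Nat.div_add_mod v (q + 2), huv, hu.2, hv.2])
    rwa [Finset.card_range] at this
  have h5 : ((A.filter (fun u => hh a q u ≤ m)).filter (fun u => ¬ u % (q + 2) = 0)).card ≤ m := by
    have := Finset.card_le_card_of_injOn (fun u => (u / (q + 2)) * (q + 1) + (u % (q + 2) - 1))
      (s := (A.filter (fun u => hh a q u ≤ m)).filter (fun u => ¬ u % (q + 2) = 0))
      (t := Finset.range m) (by
        intro u hu
        simp only [Finset.coe_filter, Finset.mem_filter, Set.mem_ofPred_eq] at hu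
        obtain ⟨⟨_, h3⟩, h4⟩ := hu
        unfold hh at h3
        rw [if_neg h4] at h3
        simp only [Finset.coe_range, Set.mem_Iio]
        have h5 : u % (q + 2) < q + 2 := Nat.mod_lt _ (by omega)
        have h6 : (u / (q + 2) + 1) * (q + 1) ≤ (a + u / (q + 2)) * (q + 1) :=
          Nat.mul_le_mul_right _ (by omega)
        have h7 : (u / (q + 2) + 1) * (q + 1) = u / (q + 2) * (q + 1) + (q + 1) := by ring
        omega) (by
        intro u hu v hv huv
        simp only [Finset.coe_filter, Finset.mem_filter, Set.mem_ofPred_eq] at hu hv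
        dsimp only at huv
        have h5 : u % (q + 2) < q + 2 := Nat.mod_lt _ (by omega)
        have h6 : v % (q + 2) < q + 2 := Nat.mod_lt _ (by omega)
        have h7 : ((u / (q + 2)) * (q + 1) + (u % (q + 2) - 1)) / (q + 1) = u / (q + 2) := by
          exact mul_add_div_aux _ _ _ (by omega)
        have h8 : ((v / (q + 2)) * (q + 1) + (v % (q + 2) - 1)) / (q + 1) = v / (q + 2) := by
          exact mul_add_div_aux _ _ _ (by omega)
        have h9 : u / (q + 2) = v / (q + 2) := by rw [← h7, ← h8, huv]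
        have h10 : u % (q + 2) = v % (q + 2) := by
          rw [h9] at huv
          have := hu.2
          have := hv.2
          omega
        rw [← Nat.div_add_mod u (q + 2), ← Nat.div_add_mod v (q + 2), h9, h10])
    rwa [Finset.card_range] at this
  omega

lemma sum_gg {a : ℕ} (ha : 0 < a) (q : ℕ) (A : Finset ℕ) :
    ∑ u ∈ A, gg a q u ≤ 3 * Real.sqrt A.card := by
  classical
  refine le_trans (Finset.sum_le_sum fun u _ => ?_)
    (sum_inv_sqrt (hh a q) A.card A rfl (fun m => count ha q A m))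
  unfold gg
  split_ifs
  · exact le_rfl
  · positivity

/-- closed form of the signed partial sums -/
lemma psum_eq {a : ℕ} (ha : 0 < a) (q M : ℕ) :
    ∑ u ∈ Finset.range M, sg q u * (1 / (hh a q u : ℝ)) =
      if M % (q + 2) = 0 then 0 else
        (1 / ((a : ℝ) + (M / (q + 2) : ℕ))) * (1 - ((M % (q + 2) : ℕ) - 1) / ((q : ℝ) + 1)) := by
  have ha' : (0 : ℝ) < a := by exact_mod_cast ha
  induction M with
  | zero => simp
  | succ M ih =>
    rw [Finset.sum_range_succ, ih]
    have hlt : M % (q + 2) < q + 2 := Nat.mod_lt _ (by omega)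
    have hdm := Nat.div_add_mod M (q + 2)
    set j := M / (q + 2) with hj
    set t := M % (q + 2) with ht
    have hq : (0 : ℝ) < (q : ℝ) + 1 := by positivity
    have haj : (0 : ℝ) < (a : ℝ) + j := by positivity
    by_cases h0 : t = 0
    · have h1 : (M + 1) % (q + 2) = 1 := by
        rw [← hdm, h0, add_zero, Nat.mul_add_mod]
        exact Nat.mod_eq_of_lt (by omega)
      have h2 : (M + 1) / (q + 2) = j := by
        rw [← hdm, h0, add_zero, Nat.mul_add_div (by omega), Nat.div_eq_of_lt (by omega), add_zero]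
      rw [h1, h2]
      have h3 : sg q M = 1 := by unfold sg; rw [← ht, if_pos h0]
      have h4 : hh a q M = a + j := by unfold hh; rw [← ht, if_pos h0]
      rw [h3, h4, if_pos h0, if_neg one_ne_zero]
      push_cast
      simp
    · have h3 : sg q M = -1 := by unfold sg; rw [← ht, if_neg h0]
      have h4 : hh a q M = (a + j) * (q + 1) := by unfold hh; rw [← ht, if_neg h0]
      rw [h3, h4, if_neg h0]
      by_cases h5 : t = q + 1
      · have h1 : (M + 1) % (q + 2) = 0 := by
          rw [← hdm, h5, add_assoc, Nat.mul_add_mod]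
          exact Nat.mod_self _
        rw [h1, if_pos rfl, h5]
        push_cast
        field_simp
        ring
      · have h1 : (M + 1) % (q + 2) = t + 1 := by
          rw [← hdm, add_assoc, Nat.mul_add_mod]
          exact Nat.mod_eq_of_lt (by omega)
        have h2 : (M + 1) / (q + 2) = j := by
          rw [← hdm, add_assoc, Nat.mul_add_div (by omega), Nat.div_eq_of_lt (by omega), add_zero]
        rw [h1, h2, if_neg (by omega)]
        push_cast
        field_simp
        ring

lemma psum_bound {a : ℕ} (ha : 0 < a) (q M : ℕ) :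
    |∑ u ∈ Finset.range M, sg q u * (1 / (hh a q u : ℝ))| ≤ 1 := by
  rw [psum_eq ha]
  have ha' : (1 : ℝ) ≤ a := by exact_mod_cast ha
  split_ifs with h
  · simp
  · have hlt : M % (q + 2) < q + 2 := Nat.mod_lt _ (by omega)
    have h1 : (1 : ℝ) ≤ ((M % (q + 2) : ℕ) : ℝ) := by
      have : 1 ≤ M % (q + 2) := by omega
      exact_mod_cast this
    have h2 : ((M % (q + 2) : ℕ) : ℝ) ≤ q + 1 := by
      have : M % (q + 2) ≤ q + 1 := by omega
      exact_mod_cast this
    have hq : (0 : ℝ) < (q : ℝ) + 1 := by positivity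
    have h3 : 0 ≤ 1 - (((M % (q + 2) : ℕ) : ℝ) - 1) / ((q : ℝ) + 1) := by
      rw [sub_nonneg, div_le_one hq]; linarith
    have h4 : 1 - (((M % (q + 2) : ℕ) : ℝ) - 1) / ((q : ℝ) + 1) ≤ 1 := by
      have : 0 ≤ (((M % (q + 2) : ℕ) : ℝ) - 1) / ((q : ℝ) + 1) := by
        apply div_nonneg _ hq.le; linarith
      linarith
    have h5 : (0 : ℝ) ≤ ((M / (q + 2) : ℕ) : ℝ) := Nat.cast_nonneg _
    have h6 : 1 / ((a : ℝ) + ((M / (q + 2) : ℕ) : ℝ)) ≤ 1 := by
      rw [div_le_one (by linarith)]; linarith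
    have h7 : 0 ≤ 1 / ((a : ℝ) + ((M / (q + 2) : ℕ) : ℝ)) := by positivity
    rw [abs_of_nonneg (mul_nonneg h7 h3)]
    exact mul_le_one₀ h6 h3 h4

/-- the mass of the greedy part -/
noncomputable def mass (a q : ℕ) : ℝ := ∑ u ∈ DD a q, 1 / (hh a q u : ℝ)

lemma psum_N {a : ℕ} (ha : 0 < a) (q : ℕ) :
    ∑ u ∈ Finset.range (Nn a q), sg q u * (1 / (hh a q u : ℝ)) = 0 := by
  rw [psum_eq ha, if_pos]
  unfold Nn
  exact Nat.mul_mod_left _ _

lemma sum_compl {a : ℕ} (ha : 0 < a) (q : ℕ) :
    ∑ u ∈ (Finset.range (Nn a q)).filter (fun u => ¬ u % (q + 2) = 0), 1 / (hh a q u : ℝ) =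
      mass a q := by
  have h := psum_N ha q
  rw [← Finset.sum_filter_add_sum_filter_not (Finset.range (Nn a q)) (fun u => u % (q + 2) = 0)] at h
  have h1 : ∑ u ∈ (Finset.range (Nn a q)).filter (fun u => u % (q + 2) = 0),
      sg q u * (1 / (hh a q u : ℝ)) = mass a q := by
    unfold mass DD
    apply Finset.sum_congr rfl
    intro u hu
    unfold sg
    rw [if_pos (Finset.mem_filter.mp hu).2, one_mul]
  have h2 : ∑ u ∈ (Finset.range (Nn a q)).filter (fun u => ¬ u % (q + 2) = 0),
      sg q u * (1 / (hh a q u : ℝ)) =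
      - ∑ u ∈ (Finset.range (Nn a q)).filter (fun u => ¬ u % (q + 2) = 0),
        1 / (hh a q u : ℝ) := by
    rw [← Finset.sum_neg_distrib]
    apply Finset.sum_congr rfl
    intro u hu
    unfold sg
    rw [if_neg (Finset.mem_filter.mp hu).2, neg_one_mul]
  rw [h1, h2] at h
  linarith

lemma sum_total {a : ℕ} (ha : 0 < a) (q : ℕ) :
    ∑ u ∈ Finset.range (Nn a q), 1 / (hh a q u : ℝ) = 2 * mass a q := by
  rw [← Finset.sum_filter_add_sum_filter_not (Finset.range (Nn a q)) (fun u => u % (q + 2) = 0),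
    sum_compl ha]
  unfold mass DD
  ring

lemma log_le_sum {a : ℕ} (ha : 0 < a) (J : ℕ) :
    Real.log ((a : ℝ) + J) - Real.log a ≤ ∑ j ∈ Finset.range J, 1 / ((a : ℝ) + j) := by
  have ha' : (0 : ℝ) < a := by exact_mod_cast ha
  induction J with
  | zero => simp
  | succ J ih =>
    rw [Finset.sum_range_succ]
    have h1 : (0 : ℝ) < (a : ℝ) + J := by positivity
    have h2 : (0 : ℝ) < (a : ℝ) + (J + 1 : ℕ) := by positivity
    have h3 := Real.log_le_sub_one_of_pos (show 0 < ((a : ℝ) + (J + 1 : ℕ)) / (a + J) by positivity)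
    rw [Real.log_div h2.ne' h1.ne'] at h3
    have h4 : ((a : ℝ) + (J + 1 : ℕ)) / (a + J) - 1 = 1 / ((a : ℝ) + J) := by
      push_cast
      field_simp
      ring
    rw [h4] at h3
    linarith

lemma log_le_mass {a : ℕ} (ha : 0 < a) (q : ℕ) : Real.log (q + 1) ≤ mass a q := by
  have ha' : (0 : ℝ) < a := by exact_mod_cast ha
  have h1 := log_le_sum ha (a * q)
  have h2 : Real.log ((a : ℝ) + (a * q : ℕ)) - Real.log a = Real.log (q + 1) := by
    have : (a : ℝ) + (a * q : ℕ) = a * (q + 1) := by push_cast; ring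
    rw [this, Real.log_mul ha'.ne' (by positivity)]
    ring
  rw [h2] at h1
  refine h1.trans ?_
  unfold mass
  have h3 : ∑ j ∈ Finset.range (a * q), 1 / ((a : ℝ) + j) =
      ∑ u ∈ (Finset.range (a * q)).image (fun j => j * (q + 2)), 1 / (hh a q u : ℝ) := by
    rw [Finset.sum_image]
    · apply Finset.sum_congr rfl
      intro j _
      unfold hh
      rw [if_pos (Nat.mul_mod_left _ _), Nat.mul_div_cancel _ (by omega)]
      push_cast
      rfl
    · intro i _ j _ hij
      exact Nat.eq_of_mul_eq_mul_right (by omega : 0 < q + 2) hij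
  rw [h3]
  apply Finset.sum_le_sum_of_subset_of_nonneg
  · intro u hu
    obtain ⟨j, hj, rfl⟩ := Finset.mem_image.mp hu
    unfold DD Nn
    rw [Finset.mem_filter, Finset.mem_range]
    exact ⟨Nat.mul_lt_mul_of_pos_right (Finset.mem_range.mp hj) (by omega), Nat.mul_mod_left _ _⟩
  · intro u _ _
    positivity

lemma hh_D {a q u : ℕ} (hu : u < Nn a q) (h : u % (q + 2) = 0) : hh a q u ≤ a * (q + 1) := by
  unfold hh
  rw [if_pos h]
  unfold Nn at hu
  have : u / (q + 2) < a * q := (Nat.div_lt_iff_lt_mul (by omega)).mpr hu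
  nlinarith

lemma hh_Dc {a q u : ℕ} (h : ¬ u % (q + 2) = 0) : a * (q + 1) ≤ hh a q u := by
  unfold hh
  rw [if_neg h]
  exact Nat.mul_le_mul_right _ (Nat.le_add_right _ _)

lemma gg_nonneg (a q u : ℕ) : 0 ≤ gg a q u := by
  unfold gg
  split_ifs
  · positivity
  · exact le_rfl

lemma gg_sq_le {a : ℕ} (ha : 0 < a) (q u : ℕ) : gg a q u ^ 2 ≤ 1 / a := by
  have ha' : (0 : ℝ) < a := by exact_mod_cast ha
  unfold gg
  split_ifs
  · rw [div_pow, one_pow, Real.sq_sqrt (Nat.cast_nonneg _)]
    apply one_div_le_one_div_of_le ha'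
    exact_mod_cast hh_ge a q u
  · rw [zero_pow two_ne_zero]
    positivity

lemma gg_le_one {a : ℕ} (ha : 0 < a) (q u : ℕ) : gg a q u ≤ 1 := by
  have h1 := gg_sq_le ha q u
  have h2 : (1 : ℝ) / a ≤ 1 := by
    rw [div_le_one (by exact_mod_cast ha)]
    exact_mod_cast ha
  have h3 := gg_nonneg a q u
  nlinarith

lemma gg_sq {a q u : ℕ} (hu : u < Nn a q) : gg a q u ^ 2 = 1 / (hh a q u : ℝ) := by
  unfold gg
  rw [if_pos hu, div_pow, one_pow, Real.sq_sqrt (Nat.cast_nonneg _)]

lemma sg_abs (q u : ℕ) : |sg q u| = 1 := by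
  unfold sg
  split_ifs <;> simp

end Pool.Agent.R267.FC
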