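import Pool.Agent.R267.FSpace
import Pool.Agent.R267.FComb

set_option autoImplicit false
set_option synthInstance.maxHeartbeats 400000

/-! A basis that is quasi-greedy and order-conservative along a sequence with large gaps but not
partially greedy along it. -/

namespace Pool.Agent.R267.FM

open FS FC

/-- the data: a sequence and positions of large gaps -/
structure Dat where
  n : ℕ → ℕ
  κ : ℕ → ℕ
  hn : StrictMono n
  hn0 : ∀ k, 0 < n k
  hκ : StrictMono κ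
  hgap : ∀ l, (l + 2) ^ 2 * n (κ l) ≤ n (κ l + 1)

variable (D : Dat)

/-- left end of the gap -/
def Dat.a (l : ℕ) : ℕ := D.n (D.κ l)

/-- right end of the gap -/
def Dat.b (l : ℕ) : ℕ := D.n (D.κ l + 1)

/-- block length -/
def Dat.N (l : ℕ) : ℕ := Nn (D.a l) (l + 1)

/-- the functionals -/
noncomputable def Dat.F (l i : ℕ) : ℝ := if D.b l ≤ i then gg (D.a l) (l + 1) (i - D.b l) else 0

lemma a_pos (l : ℕ) : 0 < D.a l := D.hn0 _

lemma N_le (l : ℕ) : D.N l ≤ D.b l := by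
  refine le_trans ?_ (D.hgap l)
  unfold Dat.N Nn Dat.a
  nlinarith [Nat.zero_le (D.n (D.κ l))]

lemma b_disj {k l : ℕ} (h : k < l) : D.b k + D.N k ≤ D.b l := by
  have h1 := N_le D k
  have h2 : D.b k ≤ D.n (D.κ l) := D.hn.monotone (D.hκ h)
  have h3 := D.hgap l
  have h4 : 4 * D.n (D.κ l) ≤ (l + 2) ^ 2 * D.n (D.κ l) := Nat.mul_le_mul_right _ (by nlinarith)
  have h5 : D.b l = D.n (D.κ l + 1) := rfl
  omega

lemma F_nonneg (l i : ℕ) : 0 ≤ D.F l i := by
  unfold Dat.F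
  split_ifs
  · exact gg_nonneg _ _ _
  · exact le_rfl

lemma F_abs (l i : ℕ) : |D.F l i| ≤ 1 := by
  rw [abs_of_nonneg (F_nonneg D l i)]
  unfold Dat.F
  split_ifs
  · exact gg_le_one (a_pos D l) _ _
  · exact zero_le_one

lemma F_sq_le (l i : ℕ) : D.F l i ^ 2 ≤ 1 / (D.a l : ℝ) := by
  unfold Dat.F
  split_ifs
  · exact gg_sq_le (a_pos D l) _ _
  · rw [zero_pow two_ne_zero]; positivity

lemma F_zero {l i : ℕ} (h : i ∉ Finset.Ico (D.b l) (D.b l + D.N l)) : D.F l i = 0 := by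
  unfold Dat.F
  split_ifs with h1
  · unfold gg
    rw [if_neg]
    intro h2
    apply h
    rw [Finset.mem_Ico]
    refine ⟨h1, ?_⟩
    have : D.N l = Nn (D.a l) (l + 1) := rfl
    omega
  · rfl

lemma F_sum (l : ℕ) (A : Finset ℕ) : ∑ i ∈ A, D.F l i ≤ 3 * Real.sqrt A.card := by
  classical
  have h1 : ∑ i ∈ A, D.F l i =
      ∑ u ∈ (A.filter (fun i => D.b l ≤ i)).image (fun i => i - D.b l), gg (D.a l) (l + 1) u := by
    rw [Finset.sum_image]
    · rw [Finset.sum_filter]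
      rfl
    · intro i hi j hj hij
      have h2 := (Finset.mem_filter.mp hi).2
      have h3 := (Finset.mem_filter.mp hj).2
      dsimp only at hij
      omega
  rw [h1]
  refine (sum_gg (a_pos D l) (l + 1) _).trans ?_
  have h2 : ((A.filter (fun i => D.b l ≤ i)).image (fun i => i - D.b l)).card ≤ A.card :=
    Finset.card_image_le.trans (Finset.card_le_card (Finset.filter_subset _ _))
  gcongr

lemma F_total (l : ℕ) (A : Finset ℕ) : ∑ i ∈ A, D.F l i ≤ 3 * Real.sqrt (D.b l) := by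
  classical
  have h1 : ∑ i ∈ A, D.F l i = ∑ i ∈ A ∩ Finset.Ico (D.b l) (D.b l + D.N l), D.F l i := by
    symm
    apply Finset.sum_subset Finset.inter_subset_left
    intro i hi hi'
    exact F_zero D (fun h => hi' (Finset.mem_inter.mpr ⟨hi, h⟩))
  rw [h1]
  refine (F_sum D l _).trans ?_
  have h2 : (A ∩ Finset.Ico (D.b l) (D.b l + D.N l)).card ≤ D.b l := by
    refine (Finset.card_le_card Finset.inter_subset_right).trans ?_
    rw [Nat.card_Ico]
    have := N_le D l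
    omega
  gcongr

variable (𝕜 : Type) [RCLike 𝕜]

/-- the space -/
noncomputable abbrev Dat.X : Submodule 𝕜 (EE 𝕜) := XX 𝕜 (F_abs D)

variable {𝕜}

lemma row_small (x : D.X 𝕜) (l : ℕ) (A : Finset ℕ) (hA : A.card ≤ D.a l) :
    ‖∑ i ∈ A, (D.F l i : 𝕜) * es (F_abs D) i x‖ ≤ ‖x‖ := by
  have h1 : ‖∑ i ∈ A, (D.F l i : 𝕜) * es (F_abs D) i x‖ ≤
      ∑ i ∈ A, D.F l i * ‖es (F_abs D) i x‖ := by
    refine (norm_sum_le _ _).trans (le_of_eq ?_)
    apply Finset.sum_congr rfl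
    intro i _
    rw [norm_mul, RCLike.norm_ofReal, abs_of_nonneg (F_nonneg D l i)]
  refine h1.trans ?_
  have h2 := Finset.sum_mul_sq_le_sq_mul_sq A (D.F l) (fun i => ‖es (F_abs D) i x‖)
  have h3 : ∑ i ∈ A, D.F l i ^ 2 ≤ 1 := by
    refine (Finset.sum_le_sum fun i _ => F_sq_le D l i).trans ?_
    rw [Finset.sum_const, nsmul_eq_mul, mul_one_div, div_le_one (by exact_mod_cast a_pos D l)]
    exact_mod_cast hA
  have h4 := sum_sq_le (F_abs D) x A
  have h5 : (∑ i ∈ A, D.F l i * ‖es (F_abs D) i x‖) ^ 2 ≤ ‖x‖ ^ 2 := by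
    refine h2.trans ?_
    have h6 : 0 ≤ ∑ i ∈ A, ‖es (F_abs D) i x‖ ^ 2 := Finset.sum_nonneg fun i _ => by positivity
    nlinarith
  exact (pow_le_pow_iff_left₀ (Finset.sum_nonneg fun i _ =>
    mul_nonneg (F_nonneg D l i) (norm_nonneg _)) (norm_nonneg _) two_ne_zero).mp h5

lemma row_large (x : D.X 𝕜) (l : ℕ) (A : Finset ℕ) (hA : D.b l ≤ A.card)
    (hG : ∀ i ∈ A, ∀ j ∉ A, ‖es (F_abs D) j x‖ ≤ ‖es (F_abs D) i x‖) (M : ℕ) :
    ‖∑ i ∈ A.filter (· < M), (D.F l i : 𝕜) * es (F_abs D) i x‖ ≤ 4 * ‖x‖ := by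
  classical
  have hb : 0 < D.b l := D.hn0 _
  have hAc : (0 : ℝ) < (A.card : ℝ) := by exact_mod_cast lt_of_lt_of_le hb hA
  have hs : 0 < Real.sqrt (A.card : ℝ) := Real.sqrt_pos.mpr hAc
  have hout : ∀ j ∉ A, ‖es (F_abs D) j x‖ ≤ ‖x‖ / Real.sqrt (A.card : ℝ) := by
    intro j hj
    rw [le_div_iff₀ hs]
    have h1 : (A.card : ℝ) * ‖es (F_abs D) j x‖ ^ 2 ≤ ‖x‖ ^ 2 := by
      refine le_trans ?_ (sum_sq_le (F_abs D) x A)
      rw [← nsmul_eq_mul, ← Finset.sum_const]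
      apply Finset.sum_le_sum
      intro i hi
      have := hG i hi j hj
      gcongr
    have h2 : (‖es (F_abs D) j x‖ * Real.sqrt (A.card : ℝ)) ^ 2 ≤ ‖x‖ ^ 2 := by
      rw [mul_pow, Real.sq_sqrt hAc.le]
      linarith
    exact (pow_le_pow_iff_left₀ (by positivity) (norm_nonneg _) two_ne_zero).mp h2
  have h1 : ∑ i ∈ Finset.range M, (D.F l i : 𝕜) * es (F_abs D) i x =
      ∑ i ∈ A.filter (· < M), (D.F l i : 𝕜) * es (F_abs D) i x +
      ∑ i ∈ Finset.range M \ A, (D.F l i : 𝕜) * es (F_abs D) i x := by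
    have h2 : A.filter (· < M) = Finset.range M ∩ A := by
      ext i
      simp [and_comm]
    rw [h2, Finset.sum_inter_add_sum_sdiff]
  have h3 := psum_le (F_abs D) x l M
  have h4 : ‖∑ i ∈ Finset.range M \ A, (D.F l i : 𝕜) * es (F_abs D) i x‖ ≤ 3 * ‖x‖ := by
    refine (norm_sum_le _ _).trans ?_
    have h5 : ∑ i ∈ Finset.range M \ A, ‖(D.F l i : 𝕜) * es (F_abs D) i x‖ ≤
        ∑ i ∈ Finset.range M \ A, D.F l i * (‖x‖ / Real.sqrt (A.card : ℝ)) := by
      apply Finset.sum_le_sum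
      intro i hi
      rw [norm_mul, RCLike.norm_ofReal, abs_of_nonneg (F_nonneg D l i)]
      exact mul_le_mul_of_nonneg_left (hout i (Finset.mem_sdiff.mp hi).2) (F_nonneg D l i)
    refine h5.trans ?_
    rw [← Finset.sum_mul]
    have h6 := F_total D l (Finset.range M \ A)
    have h7 : Real.sqrt (D.b l : ℝ) ≤ Real.sqrt (A.card : ℝ) :=
      Real.sqrt_le_sqrt (by exact_mod_cast hA)
    have h8 : ∑ i ∈ Finset.range M \ A, D.F l i ≤ 3 * Real.sqrt (A.card : ℝ) := by linarith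
    calc (∑ i ∈ Finset.range M \ A, D.F l i) * (‖x‖ / Real.sqrt (A.card : ℝ))
        ≤ 3 * Real.sqrt (A.card : ℝ) * (‖x‖ / Real.sqrt (A.card : ℝ)) :=
          mul_le_mul_of_nonneg_right h8 (by positivity)
      _ = 3 * ‖x‖ := by field_simp
  have h9 : ∑ i ∈ A.filter (· < M), (D.F l i : 𝕜) * es (F_abs D) i x =
      ∑ i ∈ Finset.range M, (D.F l i : 𝕜) * es (F_abs D) i x -
      ∑ i ∈ Finset.range M \ A, (D.F l i : 𝕜) * es (F_abs D) i x := by
    rw [h1]; ring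
  rw [h9]
  refine (norm_sub_le _ _).trans ?_
  linarith

/-- quasi-greedy along the sequence -/
theorem quasi_greedy (x : D.X 𝕜) (j : ℕ) (A : Finset ℕ) (hA : A.card = D.n j)
    (hG : ∀ i ∈ A, ∀ j ∉ A, ‖es (F_abs D) j x‖ ≤ ‖es (F_abs D) i x‖) :
    ‖∑ i ∈ A, es (F_abs D) i x • e (𝕜 := 𝕜) (F_abs D) i‖ ≤ 4 * ‖x‖ := by
  have hx := norm_nonneg x
  apply sum_upper (F_abs D) A _ _ (by positivity)
  · have h1 := sum_sq_le (F_abs D) x A
    nlinarith
  · intro l M
    rcases Nat.lt_or_ge (D.κ l) j with h | h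
    · apply row_large D x l A _ hG
      rw [hA]
      exact D.hn.monotone h
    · have h1 : (A.filter (· < M)).card ≤ D.a l := by
        refine (Finset.card_le_card (Finset.filter_subset _ _)).trans ?_
        rw [hA]
        exact D.hn.monotone h
      have h2 := row_small D x l _ h1
      linarith

lemma ind_upper (A : Finset ℕ) (ε : ℕ → 𝕜) (hε : ∀ i, ‖ε i‖ = 1) :
    ‖∑ i ∈ A, ε i • e (𝕜 := 𝕜) (F_abs D) i‖ ≤ 3 * Real.sqrt A.card := by
  apply sum_upper (F_abs D) A _ _ (by positivity)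
  · simp only [hε, one_pow, Finset.sum_const, nsmul_eq_mul, mul_one]
    rw [mul_pow, Real.sq_sqrt (Nat.cast_nonneg _)]
    have : (0 : ℝ) ≤ A.card := Nat.cast_nonneg _
    linarith
  · intro l M
    refine (norm_sum_le _ _).trans ?_
    have h1 : ∑ i ∈ A.filter (· < M), ‖(D.F l i : 𝕜) * ε i‖ = ∑ i ∈ A.filter (· < M), D.F l i := by
      apply Finset.sum_congr rfl
      intro i _
      rw [norm_mul, RCLike.norm_ofReal, abs_of_nonneg (F_nonneg D l i), hε, mul_one]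
    rw [h1]
    refine (F_sum D l _).trans ?_
    have h2 : (A.filter (· < M)).card ≤ A.card := Finset.card_le_card (Finset.filter_subset _ _)
    gcongr

lemma ind_lower (A : Finset ℕ) (ε : ℕ → 𝕜) (hε : ∀ i, ‖ε i‖ = 1) :
    Real.sqrt A.card ≤ ‖∑ i ∈ A, ε i • e (𝕜 := 𝕜) (F_abs D) i‖ := by
  have h := sum_lower (F_abs D) A ε
  simp only [hε, one_pow, Finset.sum_const, nsmul_eq_mul, mul_one] at h
  exact (Real.sqrt_le_left (norm_nonneg _)).mpr h

end Pool.Agent.R267.FM
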