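import Pool.Agent.R267.FMain

set_option autoImplicit false
set_option synthInstance.maxHeartbeats 400000

/-! The failure of partial greediness. -/

namespace Pool.Agent.R267.FM

open FS FC

variable (D : Dat) {𝕜 : Type} [RCLike 𝕜]

/-- real coefficients of the bad vector -/
noncomputable def Dat.cr (l i : ℕ) : ℝ :=
  sg (l + 1) (i - D.b l) * gg (D.a l) (l + 1) (i - D.b l)

/-- the support of the bad vector -/
def Dat.I (l : ℕ) : Finset ℕ := Finset.Ico (D.b l) (D.b l + D.N l)

/-- the greedy part of the support -/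
def Dat.Dp (l : ℕ) : Finset ℕ := (D.I l).filter (fun i => (i - D.b l) % (l + 1 + 2) = 0)

/-- sums over `I` are sums over `range N` -/
lemma sum_I (l : ℕ) (g : ℕ → ℝ) (P : ℕ → Prop) [DecidablePred P] :
    ∑ i ∈ (D.I l).filter (fun i => P (i - D.b l)), g (i - D.b l) =
      ∑ u ∈ (Finset.range (D.N l)).filter P, g u := by
  unfold Dat.I
  rw [Finset.sum_filter, Finset.sum_filter, Finset.sum_Ico_eq_sum_range, Nat.add_sub_cancel_left]
  apply Finset.sum_congr rfl
  intro u _
  rw [Nat.add_sub_cancel_left]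

lemma cr_sq {l i : ℕ} (hi : i ∈ D.I l) : D.cr l i ^ 2 = 1 / (hh (D.a l) (l + 1) (i - D.b l) : ℝ) := by
  unfold Dat.cr
  unfold Dat.I at hi
  rw [Finset.mem_Ico] at hi
  have h1 : i - D.b l < Nn (D.a l) (l + 1) := by
    have : D.N l = Nn (D.a l) (l + 1) := rfl
    omega
  rw [mul_pow, ← sq_abs (sg _ _), sg_abs, one_pow, one_mul, gg_sq h1]

lemma F_cr {l i : ℕ} (hi : i ∈ D.I l) : D.F l i * D.cr l i =
    sg (l + 1) (i - D.b l) * (1 / (hh (D.a l) (l + 1) (i - D.b l) : ℝ)) := by
  unfold Dat.I at hi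
  rw [Finset.mem_Ico] at hi
  have h1 : i - D.b l < Nn (D.a l) (l + 1) := by
    have : D.N l = Nn (D.a l) (l + 1) := rfl
    omega
  unfold Dat.F Dat.cr
  rw [if_pos hi.1, ← gg_sq h1]
  ring

lemma sum_sq_I (l : ℕ) : ∑ i ∈ D.I l, D.cr l i ^ 2 = 2 * mass (D.a l) (l + 1) := by
  rw [← sum_total (a_pos D l)]
  have h := sum_I D l (fun u => 1 / (hh (D.a l) (l + 1) u : ℝ)) (fun _ => True)
  simp only [Finset.filter_true] at h
  have h2 : Finset.range (D.N l) = Finset.range (Nn (D.a l) (l + 1)) := rfl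
  rw [← h2, ← h]
  exact Finset.sum_congr rfl fun i hi => cr_sq D hi

lemma row_cr_same (l M : ℕ) : |∑ i ∈ (D.I l).filter (· < M), D.F l i * D.cr l i| ≤ 1 := by
  have h1 : ∑ i ∈ (D.I l).filter (· < M), D.F l i * D.cr l i =
      ∑ u ∈ Finset.range (min (D.N l) (M - D.b l)), sg (l + 1) u *
        (1 / (hh (D.a l) (l + 1) u : ℝ)) := by
    have h2 : ∑ i ∈ (D.I l).filter (· < M), D.F l i * D.cr l i =
        ∑ i ∈ (D.I l).filter (fun i => i - D.b l < M - D.b l),
          (fun u => sg (l + 1) u * (1 / (hh (D.a l) (l + 1) u : ℝ))) (i - D.b l) := by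
      apply Finset.sum_congr
      · apply Finset.filter_congr
        intro i hi
        unfold Dat.I at hi
        rw [Finset.mem_Ico] at hi
        omega
      · intro i hi
        exact F_cr D (Finset.mem_filter.mp hi).1
    have h3 := sum_I D l (fun u => sg (l + 1) u * (1 / (hh (D.a l) (l + 1) u : ℝ)))
      (fun u => u < M - D.b l)
    rw [h2]
    refine h3.trans ?_
    apply Finset.sum_congr _ (fun _ _ => rfl)
    ext u
    simp
  rw [h1]
  exact psum_bound (a_pos D l) _ _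

lemma row_cr_other {k l : ℕ} (hkl : k ≠ l) (A : Finset ℕ) (hA : A ⊆ D.I l) :
    ∑ i ∈ A, D.F k i * D.cr l i = 0 := by
  apply Finset.sum_eq_zero
  intro i hi
  rw [F_zero D, zero_mul]
  intro h
  have h2 := hA hi
  unfold Dat.I at h2
  rw [Finset.mem_Ico] at h h2
  rcases Nat.lt_or_gt_of_ne hkl with h3 | h3
  · have := b_disj D h3
    omega
  · have := b_disj D h3
    omega

lemma cast_sum (k l : ℕ) (A : Finset ℕ) :
    ‖∑ i ∈ A, (D.F k i : 𝕜) * (D.cr l i : 𝕜)‖ = |∑ i ∈ A, D.F k i * D.cr l i| := by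
  rw [← RCLike.norm_ofReal (K := 𝕜)]
  congr 1
  push_cast
  rfl

lemma norm_y (l : ℕ) (hm : 1 ≤ mass (D.a l) (l + 1)) :
    ‖∑ i ∈ D.I l, (D.cr l i : 𝕜) • e (𝕜 := 𝕜) (F_abs D) i‖ ≤
      Real.sqrt (2 * mass (D.a l) (l + 1)) := by
  apply sum_upper (F_abs D) (D.I l) _ _ (Real.sqrt_nonneg _)
  · rw [Real.sq_sqrt (by linarith)]
    simp only [RCLike.norm_ofReal, sq_abs]
    exact (sum_sq_I D l).le
  · intro k M
    rw [cast_sum]
    by_cases h : k = l
    · subst h
      refine (row_cr_same D k M).trans ?_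
      apply Real.le_sqrt_of_sq_le
      linarith
    · rw [row_cr_other D h _ (Finset.filter_subset _ _), abs_zero]
      exact Real.sqrt_nonneg _

/-- norm of the part left by the greedy algorithm -/
lemma norm_z (l : ℕ) :
    mass (D.a l) (l + 1) ≤
      ‖∑ i ∈ (D.I l).filter (fun i => ¬ (i - D.b l) % (l + 1 + 2) = 0),
        (D.cr l i : 𝕜) • e (𝕜 := 𝕜) (F_abs D) i‖ := by
  classical
  set A := (D.I l).filter (fun i => ¬ (i - D.b l) % (l + 1 + 2) = 0) with hA
  have h1 := psum_le (F_abs D) (∑ i ∈ A, (D.cr l i : 𝕜) • e (𝕜 := 𝕜) (F_abs D) i) l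
    (D.b l + D.N l)
  refine le_trans ?_ h1
  have h2 : ∑ i ∈ Finset.range (D.b l + D.N l), (D.F l i : 𝕜) *
      es (F_abs D) i (∑ i ∈ A, (D.cr l i : 𝕜) • e (𝕜 := 𝕜) (F_abs D) i) =
      ∑ i ∈ A, (D.F l i : 𝕜) * (D.cr l i : 𝕜) := by
    simp only [es_sum, mul_ite, mul_zero]
    rw [← Finset.sum_filter]
    apply Finset.sum_congr _ (fun _ _ => rfl)
    ext i
    rw [Finset.mem_filter, Finset.mem_range]
    constructor
    · exact fun h => h.2
    · intro h
      refine ⟨?_, h⟩
      have h3 := (Finset.mem_filter.mp h).1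
      unfold Dat.I at h3
      exact (Finset.mem_Ico.mp h3).2
  rw [h2, cast_sum]
  have h3 : ∑ i ∈ A, D.F l i * D.cr l i = - mass (D.a l) (l + 1) := by
    rw [← sum_compl (a_pos D l), ← Finset.sum_neg_distrib]
    have h4 := sum_I D l (fun u => -(1 / (hh (D.a l) (l + 1) u : ℝ)))
      (fun u => ¬ u % (l + 1 + 2) = 0)
    have h5 : Finset.range (D.N l) = Finset.range (Nn (D.a l) (l + 1)) := rfl
    rw [← h5, ← h4]
    apply Finset.sum_congr rfl
    intro i hi
    rw [F_cr D (Finset.mem_filter.mp hi).1]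
    unfold sg
    rw [if_neg (Finset.mem_filter.mp hi).2, neg_one_mul]
  rw [h3, abs_neg]
  exact le_abs_self _

/-- The failure of partial greediness, in terms of the bad vector. -/
theorem not_partially_greedy (C : ℝ)
    (h : ∀ (x : D.X 𝕜) (j : ℕ) (A : Finset ℕ), A.card = D.n j →
      (∀ i ∈ A, ∀ j ∉ A, ‖es (F_abs D) j x‖ ≤ ‖es (F_abs D) i x‖) →
      ‖x - ∑ i ∈ A, es (F_abs D) i x • e (𝕜 := 𝕜) (F_abs D) i‖ ≤
        C * ‖x - ∑ i ∈ Finset.range (D.n j), es (F_abs D) i x • e (𝕜 := 𝕜) (F_abs D) i‖) :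
    False := by
  classical
  -- choose `l`
  obtain ⟨l, hl⟩ : ∃ l : ℕ, Real.exp (1 + 2 * C ^ 2) ≤ l := exists_nat_ge _
  have hm0 : 1 + 2 * C ^ 2 ≤ mass (D.a l) (l + 1) := by
    refine le_trans ?_ (log_le_mass (a_pos D l) (l + 1))
    rw [Real.le_log_iff_exp_le (by positivity)]
    push_cast
    linarith
  have hm1 : 1 ≤ mass (D.a l) (l + 1) := by nlinarith [sq_nonneg C]
  set m := mass (D.a l) (l + 1) with hm
  -- the vector
  let c : ℕ → 𝕜 := fun i => if i < D.b l then 1 else (D.cr l i : 𝕜)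
  let R : Finset ℕ := Finset.range (D.b l - (D.Dp l).card)
  have hDp : (D.Dp l).card ≤ D.b l := by
    refine (Finset.card_le_card (Finset.filter_subset _ _)).trans ?_
    unfold Dat.I
    rw [Nat.card_Ico]
    have := N_le D l
    omega
  have hI : ∀ i ∈ D.I l, D.b l ≤ i ∧ i - D.b l < Nn (D.a l) (l + 1) := by
    intro i hi
    unfold Dat.I at hi
    rw [Finset.mem_Ico] at hi
    have : D.N l = Nn (D.a l) (l + 1) := rfl
    omega
  have hR : ∀ i ∈ R, i < D.b l := by
    intro i hi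
    have := Finset.mem_range.mp hi
    omega
  have hdisj : Disjoint R (D.I l) := by
    rw [Finset.disjoint_left]
    intro i hi hi'
    have := hR i hi
    have := (hI i hi').1
    omega
  have hdisj2 : Disjoint R (D.Dp l) := hdisj.mono_right (Finset.filter_subset _ _)
  let S : Finset ℕ := R ∪ D.I l
  let x : D.X 𝕜 := ∑ i ∈ S, c i • e (𝕜 := 𝕜) (F_abs D) i
  let A : Finset ℕ := R ∪ D.Dp l
  have hAcard : A.card = D.n (D.κ l + 1) := by
    change (R ∪ D.Dp l).card = D.b l
    rw [Finset.card_union_of_disjoint hdisj2, Finset.card_range]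
    omega
  have hes : ∀ i, es (F_abs D) i x = if i ∈ S then c i else 0 := fun i => es_sum (F_abs D) S c i
  have hAS : A ⊆ S := Finset.union_subset_union_right (Finset.filter_subset _ _)
  have hapos : (0 : ℝ) < D.a l := by exact_mod_cast a_pos D l
  have hG : ∀ i ∈ A, ∀ j ∉ A, ‖es (F_abs D) j x‖ ≤ ‖es (F_abs D) i x‖ := by
    intro i hi j hj
    rw [hes, hes, if_pos (hAS hi)]
    by_cases hjS : j ∈ S
    · rw [if_pos hjS]
      have hjI : j ∈ D.I l := by
        rcases Finset.mem_union.mp hjS with h1 | h1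
        · exact absurd (Finset.mem_union_left _ h1) hj
        · exact h1
      have hjD : ¬ (j - D.b l) % (l + 1 + 2) = 0 := by
        intro h1
        exact hj (Finset.mem_union_right _ (Finset.mem_filter.mpr ⟨hjI, h1⟩))
      have hjc : ‖c j‖ ^ 2 ≤ 1 / ((D.a l : ℝ) * (l + 2)) := by
        have h1 : c j = (D.cr l j : 𝕜) := by
          simp only [c]
          rw [if_neg (by have := (hI j hjI).1; omega)]
        rw [h1, RCLike.norm_ofReal, sq_abs, cr_sq D hjI]
        apply one_div_le_one_div_of_le (by positivity)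
        have h2 := hh_Dc (a := D.a l) hjD
        have h3 : ((D.a l * (l + 1 + 1) : ℕ) : ℝ) ≤ (hh (D.a l) (l + 1) (j - D.b l) : ℝ) := by
          exact_mod_cast h2
        push_cast at h3
        linarith
      have hic : 1 / ((D.a l : ℝ) * (l + 2)) ≤ ‖c i‖ ^ 2 := by
        rcases Finset.mem_union.mp hi with h1 | h1
        · have h2 : c i = 1 := by
            simp only [c]
            rw [if_pos (hR i h1)]
          rw [h2, norm_one, one_pow, div_le_one (by positivity)]
          have h3 : (1 : ℝ) ≤ D.a l := by exact_mod_cast a_pos D l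
          have h4 : (0 : ℝ) ≤ l := Nat.cast_nonneg _
          nlinarith
        · have h1' := Finset.mem_filter.mp h1
          have h2 : c i = (D.cr l i : 𝕜) := by
            simp only [c]
            rw [if_neg (by have := (hI i h1'.1).1; omega)]
          rw [h2, RCLike.norm_ofReal, sq_abs, cr_sq D h1'.1]
          have h3 := hh_D (a := D.a l) (q := l + 1) (hI i h1'.1).2 h1'.2
          apply one_div_le_one_div_of_le
          · exact_mod_cast hh_pos (a_pos D l) _ _
          · have h4 : (hh (D.a l) (l + 1) (i - D.b l) : ℝ) ≤ ((D.a l * (l + 1 + 1) : ℕ) : ℝ) := by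
              exact_mod_cast h3
            push_cast at h4
            linarith
      exact (pow_le_pow_iff_left₀ (norm_nonneg _) (norm_nonneg _) two_ne_zero).mp (hjc.trans hic)
    · rw [if_neg hjS, norm_zero]
      exact norm_nonneg _
  have key := h x (D.κ l + 1) A hAcard hG
  -- compute both sides
  have hleft : x - ∑ i ∈ A, es (F_abs D) i x • e (𝕜 := 𝕜) (F_abs D) i =
      ∑ i ∈ (D.I l).filter (fun i => ¬ (i - D.b l) % (l + 1 + 2) = 0),
        (D.cr l i : 𝕜) • e (𝕜 := 𝕜) (F_abs D) i := by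
    have h1 : ∑ i ∈ A, es (F_abs D) i x • e (𝕜 := 𝕜) (F_abs D) i =
        ∑ i ∈ A, c i • e (𝕜 := 𝕜) (F_abs D) i := by
      apply Finset.sum_congr rfl
      intro i hi
      rw [hes, if_pos (hAS hi)]
    rw [h1]
    have h2 : S \ A = (D.I l).filter (fun i => ¬ (i - D.b l) % (l + 1 + 2) = 0) := by
      ext i
      simp only [S, A, Finset.mem_sdiff, Finset.mem_union, not_or, Finset.mem_filter, Dat.Dp]
      constructor
      · rintro ⟨h3 | h3, h4, h5⟩
        · exact absurd h3 h4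
        · exact ⟨h3, fun h6 => h5 ⟨h3, h6⟩⟩
      · rintro ⟨h3, h4⟩
        exact ⟨Or.inr h3, fun h5 => Finset.disjoint_left.mp hdisj h5 h3, fun h5 => h4 h5.2⟩
    rw [← h2]
    have h3 := Finset.sum_sdiff (f := fun i => c i • e (𝕜 := 𝕜) (F_abs D) i) hAS
    change ∑ i ∈ S, c i • e (𝕜 := 𝕜) (F_abs D) i - _ = _
    rw [← h3, add_sub_cancel_right]
    apply Finset.sum_congr rfl
    intro i hi
    rw [h2] at hi
    have h4 := (hI i (Finset.mem_filter.mp hi).1).1
    simp only [c]
    rw [if_neg (by omega)]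
  have hright : x - ∑ i ∈ Finset.range (D.n (D.κ l + 1)), es (F_abs D) i x •
      e (𝕜 := 𝕜) (F_abs D) i = ∑ i ∈ D.I l, (D.cr l i : 𝕜) • e (𝕜 := 𝕜) (F_abs D) i := by
    have h1 : ∑ i ∈ Finset.range (D.n (D.κ l + 1)), es (F_abs D) i x •
        e (𝕜 := 𝕜) (F_abs D) i = ∑ i ∈ R, c i • e (𝕜 := 𝕜) (F_abs D) i := by
      symm
      have h2 : ∑ i ∈ R, c i • e (𝕜 := 𝕜) (F_abs D) i =
          ∑ i ∈ R, es (F_abs D) i x • e (𝕜 := 𝕜) (F_abs D) i := by
        apply Finset.sum_congr rfl
        intro i hi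
        rw [hes, if_pos (Finset.mem_union_left _ hi)]
      rw [h2]
      apply Finset.sum_subset
      · intro i hi
        rw [Finset.mem_range]
        exact hR i hi
      · intro i hi hi'
        rw [hes, if_neg, zero_smul]
        intro h3
        rcases Finset.mem_union.mp h3 with h4 | h4
        · exact hi' h4
        · have h5 := (hI i h4).1
          have h6 : i < D.b l := Finset.mem_range.mp hi
          omega
    rw [h1]
    change ∑ i ∈ R ∪ D.I l, c i • e (𝕜 := 𝕜) (F_abs D) i - _ = _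
    rw [Finset.sum_union hdisj, add_sub_cancel_left]
    apply Finset.sum_congr rfl
    intro i hi
    have h4 := (hI i hi).1
    simp only [c]
    rw [if_neg (by omega)]
  rw [hleft, hright] at key
  have hz := norm_z (𝕜 := 𝕜) D l
  have hy := norm_y (𝕜 := 𝕜) D l hm1
  set Z := ‖∑ i ∈ (D.I l).filter (fun i => ¬ (i - D.b l) % (l + 1 + 2) = 0),
        (D.cr l i : 𝕜) • e (𝕜 := 𝕜) (F_abs D) i‖
  set Y := ‖∑ i ∈ D.I l, (D.cr l i : 𝕜) • e (𝕜 := 𝕜) (F_abs D) i‖
  have hY0 : 0 ≤ Y := norm_nonneg _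
  rw [← hm] at hz hy
  have hs : Real.sqrt (2 * m) ^ 2 = 2 * m := Real.sq_sqrt (by linarith)
  set s := Real.sqrt (2 * m)
  have hs0 : 0 ≤ s := Real.sqrt_nonneg _
  have h1 : m ≤ C * Y := hz.trans key
  have hC : 0 < C := by
    by_contra hC
    push Not at hC
    nlinarith
  have h2 : m ≤ C * s := h1.trans (mul_le_mul_of_nonneg_left hy hC.le)
  have h3 : m ^ 2 ≤ C ^ 2 * (2 * m) := by
    rw [← hs, ← mul_pow]
    exact pow_le_pow_left₀ (by linarith) h2 2
  nlinarith

end Pool.Agent.R267.FM
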