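import Mathlib

set_option autoImplicit false
set_option synthInstance.maxHeartbeats 400000

open scoped ENNReal

/-! The closed span of `(e_i, partial sums of functionals)` in `ℓ₂ × ℓ_∞`. -/

namespace Pool.Agent.R267.FS

variable {𝕜 : Type} [RCLike 𝕜] {F : ℕ → ℕ → ℝ}

/-- the ambient space -/
abbrev EE (𝕜 : Type) [RCLike 𝕜] : Type :=
  lp (fun _ : ℕ => 𝕜) 2 × lp (fun _ : ℕ × ℕ => 𝕜) ∞

/-- partial sums of the functionals at the unit vectors -/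
noncomputable def fv (hF : ∀ k i, |F k i| ≤ 1) (i : ℕ) : lp (fun _ : ℕ × ℕ => 𝕜) ∞ :=
  ⟨fun km => if i < km.2 then (F km.1 i : 𝕜) else 0, memℓp_infty ⟨1, by
    rintro _ ⟨km, rfl⟩
    dsimp only
    split_ifs
    · rw [RCLike.norm_ofReal]
      exact hF _ _
    · rw [norm_zero]; exact zero_le_one⟩⟩

/-- the basis vectors in the ambient space -/
noncomputable def te (𝕜 : Type) [RCLike 𝕜] (hF : ∀ k i, |F k i| ≤ 1) (i : ℕ) : EE 𝕜 :=
  (lp.single 2 i 1, fv hF i)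

/-- the closed submodule of pairs whose second coordinate is determined by the first -/
noncomputable def KK (𝕜 : Type) [RCLike 𝕜] (F : ℕ → ℕ → ℝ) : Submodule 𝕜 (EE 𝕜) where
  carrier := {x | ∀ k M, x.2 (k, M) = ∑ i ∈ Finset.range M, (F k i : 𝕜) * x.1 i}
  add_mem' := by
    intro x y hx hy k M
    have h1 : (x + y).2 (k, M) = x.2 (k, M) + y.2 (k, M) := rfl
    rw [h1, hx, hy, ← Finset.sum_add_distrib]
    apply Finset.sum_congr rfl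
    intro i _
    have h2 : (x + y).1 i = x.1 i + y.1 i := rfl
    rw [h2, mul_add]
  zero_mem' := by
    intro k M
    have h1 : (0 : EE 𝕜).2 (k, M) = 0 := rfl
    have h2 : ∀ i, (0 : EE 𝕜).1 i = 0 := fun i => rfl
    rw [h1]
    simp
  smul_mem' := by
    intro c x hx k M
    have h1 : (c • x).2 (k, M) = c * x.2 (k, M) := rfl
    rw [h1, hx, Finset.mul_sum]
    apply Finset.sum_congr rfl
    intro i _
    have h2 : (c • x).1 i = c * x.1 i := rfl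
    rw [h2]; ring

lemma KK_closed : IsClosed (KK 𝕜 F : Set (EE 𝕜)) := by
  have h : (KK 𝕜 F : Set (EE 𝕜)) = ⋂ k : ℕ, ⋂ M : ℕ,
      {x : EE 𝕜 | x.2 (k, M) = ∑ i ∈ Finset.range M, (F k i : 𝕜) * x.1 i} := by
    ext x
    simp only [Set.mem_iInter]
    rfl
  rw [h]
  refine isClosed_iInter fun k => isClosed_iInter fun M => ?_
  apply isClosed_eq
  · exact (lp.evalCLM 𝕜 (fun _ : ℕ × ℕ => 𝕜) ∞ (k, M)).continuous.comp continuous_snd
  · apply continuous_finsetSum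
    intro i _
    exact continuous_const.mul
      ((lp.evalCLM 𝕜 (fun _ : ℕ => 𝕜) 2 i).continuous.comp continuous_fst)

lemma te_mem (hF : ∀ k i, |F k i| ≤ 1) (i : ℕ) : te 𝕜 hF i ∈ KK 𝕜 F := by
  intro k M
  have h1 : (te 𝕜 hF i).2 (k, M) = if i < M then (F k i : 𝕜) else 0 := rfl
  have h2 : ∀ j, (te 𝕜 hF i).1 j = if j = i then 1 else 0 := by
    intro j
    have : (te 𝕜 hF i).1 j = Pi.single (M := fun _ : ℕ => 𝕜) i 1 j := rfl
    rw [this, Pi.single_apply]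
  rw [h1]
  simp only [h2, mul_ite, mul_one, mul_zero, Finset.sum_ite_eq', Finset.mem_range]

/-- the space -/
noncomputable def XX (𝕜 : Type) [RCLike 𝕜] (hF : ∀ k i, |F k i| ≤ 1) : Submodule 𝕜 (EE 𝕜) :=
  (Submodule.span 𝕜 (Set.range (te 𝕜 hF))).topologicalClosure

variable (hF : ∀ k i, |F k i| ≤ 1)

lemma XX_le : XX 𝕜 hF ≤ KK 𝕜 F := by
  apply Submodule.topologicalClosure_minimal _ _ KK_closed
  rw [Submodule.span_le]
  rintro _ ⟨i, rfl⟩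
  exact te_mem hF i

instance : CompleteSpace (XX 𝕜 hF) :=
  (Submodule.isClosed_topologicalClosure
    (Submodule.span 𝕜 (Set.range (te 𝕜 hF)))).completeSpace_coe

/-- the basis -/
noncomputable def e (i : ℕ) : XX 𝕜 hF :=
  ⟨te 𝕜 hF i, Submodule.le_topologicalClosure _ (Submodule.subset_span ⟨i, rfl⟩)⟩

/-- the coordinate functionals -/
noncomputable def es (i : ℕ) : XX 𝕜 hF →L[𝕜] 𝕜 :=
  ((lp.evalCLM 𝕜 (fun _ : ℕ => 𝕜) 2 i).comp
    (ContinuousLinearMap.fst 𝕜 (lp (fun _ : ℕ => 𝕜) 2) (lp (fun _ : ℕ × ℕ => 𝕜) ∞))).comp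
    (XX 𝕜 hF).subtypeL

lemma es_apply (i : ℕ) (x : XX 𝕜 hF) : es hF i x = (x : EE 𝕜).1 i := rfl

lemma es_e (i j : ℕ) : es hF i (e hF j : XX 𝕜 hF) = if i = j then 1 else 0 := by
  have : es hF i (e hF j : XX 𝕜 hF) = Pi.single (M := fun _ : ℕ => 𝕜) j 1 i := rfl
  rw [this, Pi.single_apply]

lemma snd_apply (x : XX 𝕜 hF) (k M : ℕ) :
    (x : EE 𝕜).2 (k, M) = ∑ i ∈ Finset.range M, (F k i : 𝕜) * es hF i x :=
  XX_le hF x.2 k M

lemma fst_le (x : XX 𝕜 hF) : ‖(x : EE 𝕜).1‖ ≤ ‖x‖ := norm_fst_le (x : EE 𝕜)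

lemma es_le (x : XX 𝕜 hF) (i : ℕ) : ‖es hF i x‖ ≤ ‖x‖ :=
  (lp.norm_apply_le_norm (by norm_num) _ i).trans (fst_le hF x)

lemma psum_le (x : XX 𝕜 hF) (k M : ℕ) :
    ‖∑ i ∈ Finset.range M, (F k i : 𝕜) * es hF i x‖ ≤ ‖x‖ := by
  rw [← snd_apply]
  exact (lp.norm_apply_le_norm (by norm_num) _ (k, M)).trans (norm_snd_le (x : EE 𝕜))

lemma norm_le_of (x : XX 𝕜 hF) (C : ℝ) (hC : 0 ≤ C) (h1 : ‖(x : EE 𝕜).1‖ ≤ C)
    (h2 : ∀ k M, ‖∑ i ∈ Finset.range M, (F k i : 𝕜) * es hF i x‖ ≤ C) : ‖x‖ ≤ C := by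
  have h3 : ‖(x : EE 𝕜).2‖ ≤ C := by
    apply lp.norm_le_of_forall_le hC
    rintro ⟨k, M⟩
    rw [snd_apply]
    exact h2 k M
  have h4 : ‖x‖ = max ‖(x : EE 𝕜).1‖ ‖(x : EE 𝕜).2‖ := rfl
  rw [h4]
  exact max_le h1 h3

lemma total (x : XX 𝕜 hF) (h : ∀ i, es hF i x = 0) : x = 0 := by
  have h1 : ‖x‖ ≤ 0 := by
    apply norm_le_of hF x 0 le_rfl
    · have : (x : EE 𝕜).1 = 0 := by
        ext i
        exact h i
      rw [this, norm_zero]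
    · intro k M
      simp [h]
  exact norm_le_zero_iff.mp h1

lemma sum_sq_le (x : XX 𝕜 hF) (A : Finset ℕ) : ∑ i ∈ A, ‖es hF i x‖ ^ 2 ≤ ‖x‖ ^ 2 := by
  have h := lp.sum_rpow_le_norm_rpow (p := 2) (by norm_num) (x : EE 𝕜).1 A
  simp only [ENNReal.toReal_ofNat, Real.rpow_ofNat] at h
  have h2 := fst_le hF x
  have h3 : ‖(x : EE 𝕜).1‖ ^ 2 ≤ ‖x‖ ^ 2 := by gcongr
  exact h.trans h3

lemma es_sum (A : Finset ℕ) (c : ℕ → 𝕜) (j : ℕ) :
    es hF j (∑ i ∈ A, c i • e hF i : XX 𝕜 hF) = if j ∈ A then c j else 0 := by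
  classical
  simp only [map_sum, map_smul, es_e, smul_eq_mul, mul_ite, mul_one, mul_zero]
  rw [Finset.sum_ite_eq]

lemma fst_sum (A : Finset ℕ) (c : ℕ → 𝕜) :
    ‖((∑ i ∈ A, c i • e hF i : XX 𝕜 hF) : EE 𝕜).1‖ ^ 2 = ∑ i ∈ A, ‖c i‖ ^ 2 := by
  classical
  have h1 : ((∑ i ∈ A, c i • e hF i : XX 𝕜 hF) : EE 𝕜).1 =
      ∑ i ∈ A, lp.single (E := fun _ : ℕ => 𝕜) 2 i (c i) := by
    ext j
    have h2 := es_sum hF A c j
    rw [es_apply] at h2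
    rw [h2]
    simp only [lp.coeFn_sum, Finset.sum_apply, lp.single_apply, Pi.single_apply]
    rw [Finset.sum_ite_eq]
  rw [h1]
  have h := lp.norm_sum_single (p := 2) (E := fun _ : ℕ => 𝕜) (by norm_num) c A
  simp only [ENNReal.toReal_ofNat, Real.rpow_ofNat] at h
  exact h

/-- norm of a finite combination, lower bound -/
lemma sum_lower (A : Finset ℕ) (c : ℕ → 𝕜) :
    ∑ i ∈ A, ‖c i‖ ^ 2 ≤ ‖(∑ i ∈ A, c i • e hF i : XX 𝕜 hF)‖ ^ 2 := by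
  rw [← fst_sum hF]
  have h2 := fst_le hF (∑ i ∈ A, c i • e hF i : XX 𝕜 hF)
  gcongr

/-- norm of a finite combination, upper bound -/
lemma sum_upper (A : Finset ℕ) (c : ℕ → 𝕜) (C : ℝ) (hC : 0 ≤ C)
    (h1 : ∑ i ∈ A, ‖c i‖ ^ 2 ≤ C ^ 2)
    (h2 : ∀ k M, ‖∑ i ∈ A.filter (· < M), (F k i : 𝕜) * c i‖ ≤ C) :
    ‖(∑ i ∈ A, c i • e hF i : XX 𝕜 hF)‖ ≤ C := by
  classical
  apply norm_le_of hF _ C hC
  · rw [← fst_sum hF] at h1
    exact (pow_le_pow_iff_left₀ (norm_nonneg _) hC two_ne_zero).mp h1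
  · intro k M
    have h3 : ∑ i ∈ Finset.range M, (F k i : 𝕜) * es hF i (∑ i ∈ A, c i • e hF i : XX 𝕜 hF) =
        ∑ i ∈ A.filter (· < M), (F k i : 𝕜) * c i := by
      simp only [es_sum, mul_ite, mul_zero]
      rw [← Finset.sum_filter]
      apply Finset.sum_congr _ (fun _ _ => rfl)
      ext i
      simp [and_comm]
    rw [h3]
    exact h2 k M

lemma dense : (Submodule.span 𝕜 (Set.range (e (𝕜 := 𝕜) hF))).topologicalClosure = ⊤ := by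
  rw [eq_top_iff]
  rintro ⟨x, hx⟩ -
  have hx' : x ∈ closure (Submodule.span 𝕜 (Set.range (te 𝕜 hF)) : Set (EE 𝕜)) := hx
  rw [← SetLike.mem_coe, Submodule.topologicalClosure_coe, Metric.mem_closure_iff]
  intro ε hε
  rw [Metric.mem_closure_iff] at hx'
  obtain ⟨y, hy, hxy⟩ := hx' ε hε
  refine ⟨⟨y, Submodule.le_topologicalClosure _ hy⟩, ?_, hxy⟩
  have h1 : Submodule.span 𝕜 (Set.range (te 𝕜 hF)) =
      (Submodule.span 𝕜 (Set.range (e (𝕜 := 𝕜) hF))).map (XX 𝕜 hF).subtype := by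
    rw [Submodule.map_span]
    congr 1
    ext z
    constructor
    · rintro ⟨i, rfl⟩
      exact ⟨e hF i, ⟨i, rfl⟩, rfl⟩
    · rintro ⟨_, ⟨i, rfl⟩, rfl⟩
      exact ⟨i, rfl⟩
  have h2 : y ∈ (Submodule.span 𝕜 (Set.range (e (𝕜 := 𝕜) hF))).map (XX 𝕜 hF).subtype := by
    rw [← h1]; exact hy
  obtain ⟨z, hz, rfl⟩ := h2
  exact hz

end Pool.Agent.R267.FS
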