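import Mathlib

/-!
# Truncated gap integrals in dimension one

A smoothed jump has logarithmically divergent truncated gap integrals, at all thresholds below its height
and with comparable leading coefficients.
-/

set_option autoImplicit false

namespace Pool.Agent.R267.Gap

open MeasureTheory Set
open scoped ENNReal Topology

/-- the ramp from `0` to `h` on `[0, w]` -/
noncomputable def ramp (h w x : ℝ) : ℝ := h * max 0 (min 1 (x / w))

theorem ramp_of_nonpos {h w x : ℝ} (hw : 0 < w) (hx : x ≤ 0) : ramp h w x = 0 := by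
  unfold ramp
  have : x / w ≤ 0 := div_nonpos_of_nonpos_of_nonneg hx hw.le
  rw [min_eq_right (by linarith), max_eq_left this, mul_zero]

theorem ramp_of_ge {h w x : ℝ} (hw : 0 < w) (hx : w ≤ x) : ramp h w x = h := by
  unfold ramp
  have : 1 ≤ x / w := by rw [le_div_iff₀ hw]; linarith
  rw [min_eq_left this, max_eq_right (by norm_num), mul_one]

theorem ramp_mem {h w x : ℝ} (hh : 0 ≤ h) : ramp h w x ∈ Icc 0 h := by
  unfold ramp
  have h1 : 0 ≤ max 0 (min 1 (x / w)) := le_max_left _ _
  have h2 : max 0 (min 1 (x / w)) ≤ 1 := max_le (by norm_num) (min_le_left _ _)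
  exact ⟨mul_nonneg hh h1, by nlinarith⟩

theorem ramp_lip {h w x y : ℝ} (hh : 0 ≤ h) (hw : 0 < w) :
    |ramp h w x - ramp h w y| ≤ h / w * |x - y| := by
  unfold ramp
  rw [← mul_sub, abs_mul, abs_of_nonneg hh, div_mul_eq_mul_div, mul_div_assoc]
  apply mul_le_mul_of_nonneg_left _ hh
  have h1 : |max 0 (min 1 (x / w)) - max 0 (min 1 (y / w))| ≤ |min 1 (x / w) - min 1 (y / w)| := by
    have := abs_max_sub_max_le_abs (min 1 (x / w)) (min 1 (y / w)) 0
    rwa [max_comm (min 1 (x / w)), max_comm (min 1 (y / w))] at this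
  have h2 : |min 1 (x / w) - min 1 (y / w)| ≤ |x / w - y / w| := by
    have := abs_min_sub_min_le_max 1 (x / w) 1 (y / w)
    simpa using this
  refine h1.trans (h2.trans ?_)
  rw [← sub_div, abs_div, abs_of_pos hw]

theorem ramp_continuous (h w : ℝ) : Continuous (ramp h w) := by
  unfold ramp
  fun_prop

/-- if the ramp differs by at least `δ` then the points are at distance at least `w δ / h` -/
theorem dist_mid {h w x y δ : ℝ} (hh : 0 < h) (hw : 0 < w)
    (hd : δ ≤ |ramp h w y - ramp h w x|) : w * δ / h ≤ |y - x| := by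
  have := hd.trans (ramp_lip (x := y) (y := x) hh.le hw)
  rw [div_mul_eq_mul_div, le_div_iff₀ hw] at this
  rw [div_le_iff₀ hh]
  linarith

theorem dist_left {h w x y δ : ℝ} (hh : 0 < h) (hw : 0 < w) (hδ : 0 < δ) (hx : x ≤ 0)
    (hd : δ ≤ |ramp h w y - ramp h w x|) : w * δ / h - x ≤ y - x := by
  rw [ramp_of_nonpos hw hx, sub_zero, abs_of_nonneg (ramp_mem hh.le).1] at hd
  have hy : 0 < y := by
    by_contra hy
    rw [ramp_of_nonpos hw (not_lt.1 hy)] at hd
    linarith
  have h0 := ramp_lip (x := y) (y := 0) hh.le hw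
  rw [ramp_of_nonpos hw le_rfl, sub_zero, sub_zero, abs_of_nonneg (ramp_mem hh.le).1,
    abs_of_pos hy] at h0
  have h1 := hd.trans h0
  rw [div_mul_eq_mul_div, le_div_iff₀ hw] at h1
  have h2 : w * δ / h ≤ y := by rw [div_le_iff₀ hh]; linarith
  linarith

theorem dist_right {h w x y δ : ℝ} (hh : 0 < h) (hw : 0 < w) (hδ : 0 < δ) (hx : w ≤ x)
    (hd : δ ≤ |ramp h w y - ramp h w x|) : w * δ / h - w + x ≤ x - y := by
  rw [ramp_of_ge hw hx] at hd
  have hle : ramp h w y ≤ h := (ramp_mem hh.le).2
  rw [abs_sub_comm, abs_of_nonneg (by linarith)] at hd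
  have hy : y < w := by
    by_contra hy
    rw [ramp_of_ge hw (not_lt.1 hy)] at hd
    linarith
  have h0 := ramp_lip (x := w) (y := y) hh.le hw
  rw [ramp_of_ge hw le_rfl, abs_of_nonneg (by linarith), abs_of_pos (by linarith)] at h0
  have h1 := hd.trans h0
  rw [div_mul_eq_mul_div, le_div_iff₀ hw] at h1
  have h2 : w * δ / h ≤ w - y := by rw [div_le_iff₀ hh]; linarith
  linarith

theorem meas_sq : Measurable (fun z : ℝ => ENNReal.ofReal (1 / z ^ 2)) := by fun_prop

/-- `∫ 1/z^2` over `z ≥ r` is `1 / r` -/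
theorem tail {r : ℝ} (hr : 0 < r) :
    ∫⁻ z, (Ici r).indicator (fun z : ℝ => ENNReal.ofReal (1 / z ^ 2)) z =
      ENNReal.ofReal (1 / r) := by
  rw [lintegral_indicator measurableSet_Ici, setLIntegral_congr Ioi_ae_eq_Ici.symm]
  have hint : IntegrableOn (fun z : ℝ => z ^ (-2 : ℝ)) (Ioi r) :=
    integrableOn_Ioi_rpow_of_lt (by norm_num) hr
  have hval : ∫ z in Ioi r, z ^ (-2 : ℝ) = 1 / r := by
    rw [integral_Ioi_rpow_of_lt (by norm_num) hr]
    rw [show (-2 : ℝ) + 1 = -1 by norm_num, Real.rpow_neg_one]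
    field_simp
  have hcongr : ∫⁻ z in Ioi r, ENNReal.ofReal (1 / z ^ 2) =
      ∫⁻ z in Ioi r, ENNReal.ofReal (z ^ (-2 : ℝ)) := by
    apply setLIntegral_congr_fun measurableSet_Ioi
    intro z hz
    have hz0 : 0 < z := lt_trans hr hz
    simp only
    rw [Real.rpow_neg hz0.le, one_div]
    norm_cast
  rw [hcongr, ← ofReal_integral_eq_lintegral_ofReal hint, hval]
  filter_upwards [ae_restrict_mem measurableSet_Ioi] with z hz
  exact Real.rpow_nonneg (lt_trans hr hz).le _

theorem inner_right {x r : ℝ} (hr : 0 < r) :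
    ∫⁻ y, (Ici r).indicator (fun z : ℝ => ENNReal.ofReal (1 / z ^ 2)) (y - x) =
      ENNReal.ofReal (1 / r) := by
  rw [lintegral_sub_right_eq_self (μ := volume)
      (fun z : ℝ => (Ici r).indicator (fun z : ℝ => ENNReal.ofReal (1 / z ^ 2)) z) x, tail hr]

theorem inner_left {x r : ℝ} (hr : 0 < r) :
    ∫⁻ y, (Ici r).indicator (fun z : ℝ => ENNReal.ofReal (1 / z ^ 2)) (x - y) =
      ENNReal.ofReal (1 / r) := by
  rw [lintegral_sub_left_eq_self
      (fun z : ℝ => (Ici r).indicator (fun z : ℝ => ENNReal.ofReal (1 / z ^ 2)) z) x, tail hr]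

/-- `∫_a^b 1/(c + x) dx` as a lower integral -/
theorem lint_inv {a b c : ℝ} (hab : a ≤ b) (hc : 0 < c + a) :
    ∫⁻ x in Ioc a b, ENNReal.ofReal (1 / (c + x)) = ENNReal.ofReal (Real.log ((c + b) / (c + a))) := by
  have hcont : ContinuousOn (fun x : ℝ => 1 / (c + x)) (Icc a b) := by
    apply ContinuousOn.div continuousOn_const (by fun_prop)
    intro x hx
    have := hx.1
    linarith
  have hint : IntegrableOn (fun x : ℝ => 1 / (c + x)) (Ioc a b) :=
    (hcont.integrableOn_Icc).mono_set Ioc_subset_Icc_self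
  rw [← ofReal_integral_eq_lintegral_ofReal hint]
  · congr 1
    rw [← intervalIntegral.integral_of_le hab]
    have := intervalIntegral.integral_comp_add_left (a := a) (b := b) (fun x : ℝ => 1 / x) c
    rw [this, integral_one_div_of_pos hc (by linarith)]
  · filter_upwards [ae_restrict_mem measurableSet_Ioc] with x hx
    have := hx.1
    show 0 ≤ 1 / (c + x)
    apply div_nonneg zero_le_one
    linarith

/-- `∫_a^b 1/(y-x)^2 dy` for `x < a ≤ b` -/
theorem lint_inv_sq {a b x : ℝ} (hab : a ≤ b) (hx : x < a) :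
    ∫⁻ y in Ioc a b, ENNReal.ofReal (1 / (y - x) ^ 2) =
      ENNReal.ofReal (1 / (a - x) - 1 / (b - x)) := by
  have hcont : ContinuousOn (fun y : ℝ => 1 / (y - x) ^ 2) (Icc a b) := by
    apply ContinuousOn.div continuousOn_const (by fun_prop)
    intro y hy
    have := hy.1
    have : y - x ≠ 0 := by
      intro h
      linarith
    positivity
  have hint : IntegrableOn (fun y : ℝ => 1 / (y - x) ^ 2) (Ioc a b) :=
    (hcont.integrableOn_Icc).mono_set Ioc_subset_Icc_self
  rw [← ofReal_integral_eq_lintegral_ofReal hint]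
  · congr 1
    rw [← intervalIntegral.integral_of_le hab]
    have hderiv : ∀ y ∈ uIcc a b, HasDerivAt (fun y : ℝ => -(1 / (y - x))) (1 / (y - x) ^ 2) y := by
      intro y hy
      rw [uIcc_of_le hab] at hy
      have hne : y - x ≠ 0 := by
        have := hy.1
        intro h
        linarith
      have h1 : HasDerivAt (fun y : ℝ => y - x) 1 y := (hasDerivAt_id y).sub_const x
      have h2 := (h1.inv hne).neg
      simp only [one_div]
      exact h2.congr_deriv (by rw [neg_div, neg_neg, one_div])
    rw [intervalIntegral.integral_eq_sub_of_hasDerivAt hderiv]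
    · ring
    · rw [intervalIntegrable_iff_integrableOn_Ioc_of_le hab]
      exact hint
  · filter_upwards with y
    positivity

/-- the integrand -/
noncomputable def F (h w p t x y : ℝ) : ℝ≥0∞ :=
  if t ≤ |ramp h w y - ramp h w x| then
    ENNReal.ofReal ((|ramp h w y - ramp h w x| - t) ^ p / (y - x) ^ 2) else 0

theorem ramp_diff_le {h w x y : ℝ} (hh : 0 ≤ h) : |ramp h w y - ramp h w x| ≤ h := by
  have h1 := ramp_mem (h := h) (w := w) (x := x) hh
  have h2 := ramp_mem (h := h) (w := w) (x := y) hh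
  rw [abs_le]
  constructor <;> [linarith [h1.2, h2.1]; linarith [h1.1, h2.2]]

theorem F_le {h w p t x y : ℝ} (hh : 0 ≤ h) (hp : 0 ≤ p) (hd : t ≤ |ramp h w y - ramp h w x|) :
    F h w p t x y ≤ ENNReal.ofReal ((h - t) ^ p) * ENNReal.ofReal (1 / (y - x) ^ 2) := by
  unfold F
  rw [if_pos hd, ← ENNReal.ofReal_mul (by
    apply Real.rpow_nonneg
    linarith [ramp_diff_le (h := h) (w := w) (x := x) (y := y) hh])]
  apply ENNReal.ofReal_le_ofReal
  rw [mul_one_div]
  apply div_le_div_of_nonneg_right _ (sq_nonneg _)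
  apply Real.rpow_le_rpow (by linarith) _ hp
  linarith [ramp_diff_le (h := h) (w := w) (x := x) (y := y) hh]

theorem inner_le_left {h w p δ x : ℝ} (hh : 0 < h) (hw : 0 < w) (hδ : 0 < δ) (hp : 0 ≤ p)
    (hx : x ≤ 0) : ∫⁻ y in Ioo (-1 : ℝ) 1, F h w p δ x y ≤
      ENNReal.ofReal ((h - δ) ^ p) * ENNReal.ofReal (1 / (w * δ / h - x)) := by
  have hr : 0 < w * δ / h - x := by
    have : 0 < w * δ / h := by positivity
    linarith
  calc ∫⁻ y in Ioo (-1 : ℝ) 1, F h w p δ x y ≤ ∫⁻ y, F h w p δ x y := setLIntegral_le_lintegral _ _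
    _ ≤ ∫⁻ y, ENNReal.ofReal ((h - δ) ^ p) *
        (Ici (w * δ / h - x)).indicator (fun z : ℝ => ENNReal.ofReal (1 / z ^ 2)) (y - x) := by
        apply lintegral_mono
        intro y
        by_cases hd : δ ≤ |ramp h w y - ramp h w x|
        · refine (F_le hh.le hp hd).trans ?_
          simp only
          rw [indicator_of_mem (show y - x ∈ Ici (w * δ / h - x) from dist_left hh hw hδ hx hd)]
        · simp only [F]
          rw [if_neg hd]
          exact zero_le
    _ = _ := by
        rw [lintegral_const_mul _ (by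
          apply Measurable.comp (meas_sq.indicator measurableSet_Ici) (by fun_prop)),
          inner_right hr]

theorem inner_le_right {h w p δ x : ℝ} (hh : 0 < h) (hw : 0 < w) (hδ : 0 < δ) (hp : 0 ≤ p)
    (hx : w ≤ x) : ∫⁻ y in Ioo (-1 : ℝ) 1, F h w p δ x y ≤
      ENNReal.ofReal ((h - δ) ^ p) * ENNReal.ofReal (1 / (w * δ / h - w + x)) := by
  have hr : 0 < w * δ / h - w + x := by
    have : 0 < w * δ / h := by positivity
    linarith
  calc ∫⁻ y in Ioo (-1 : ℝ) 1, F h w p δ x y ≤ ∫⁻ y, F h w p δ x y := setLIntegral_le_lintegral _ _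
    _ ≤ ∫⁻ y, ENNReal.ofReal ((h - δ) ^ p) *
        (Ici (w * δ / h - w + x)).indicator (fun z : ℝ => ENNReal.ofReal (1 / z ^ 2)) (x - y) := by
        apply lintegral_mono
        intro y
        by_cases hd : δ ≤ |ramp h w y - ramp h w x|
        · refine (F_le hh.le hp hd).trans ?_
          simp only
          rw [indicator_of_mem (show x - y ∈ Ici (w * δ / h - w + x) from
            dist_right hh hw hδ hx hd)]
          rw [show (y - x) ^ 2 = (x - y) ^ 2 by ring]
        · simp only [F]
          rw [if_neg hd]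
          exact zero_le
    _ = _ := by
        rw [lintegral_const_mul _ (by
          apply Measurable.comp (meas_sq.indicator measurableSet_Ici) (by fun_prop)),
          inner_left hr]

theorem inner_le_mid {h w p δ x : ℝ} (hh : 0 < h) (hw : 0 < w) (hδ : 0 < δ) (hp : 0 ≤ p) :
    ∫⁻ y in Ioo (-1 : ℝ) 1, F h w p δ x y ≤
      ENNReal.ofReal ((h - δ) ^ p) * ENNReal.ofReal (2 * h / (w * δ)) := by
  have hr : 0 < w * δ / h := by positivity
  calc ∫⁻ y in Ioo (-1 : ℝ) 1, F h w p δ x y ≤ ∫⁻ y, F h w p δ x y := setLIntegral_le_lintegral _ _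
    _ ≤ ∫⁻ y, (ENNReal.ofReal ((h - δ) ^ p) *
        (Ici (w * δ / h)).indicator (fun z : ℝ => ENNReal.ofReal (1 / z ^ 2)) (x - y) +
        ENNReal.ofReal ((h - δ) ^ p) *
        (Ici (w * δ / h)).indicator (fun z : ℝ => ENNReal.ofReal (1 / z ^ 2)) (y - x)) := by
        apply lintegral_mono
        intro y
        by_cases hd : δ ≤ |ramp h w y - ramp h w x|
        · refine (F_le hh.le hp hd).trans ?_
          simp only
          have := dist_mid hh hw hd
          rcases le_abs.1 this with h1 | h1
          · rw [indicator_of_mem (show y - x ∈ Ici (w * δ / h) from h1)]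
            exact le_add_self
          · rw [neg_sub] at h1
            rw [indicator_of_mem (show x - y ∈ Ici (w * δ / h) from h1)]
            rw [show (y - x) ^ 2 = (x - y) ^ 2 by ring]
            exact le_self_add
        · simp only [F]
          rw [if_neg hd]
          exact zero_le
    _ = ENNReal.ofReal ((h - δ) ^ p) * ENNReal.ofReal (1 / (w * δ / h)) +
        ENNReal.ofReal ((h - δ) ^ p) * ENNReal.ofReal (1 / (w * δ / h)) := by
        rw [lintegral_add_left (by
          apply Measurable.const_mul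
          apply Measurable.comp (meas_sq.indicator measurableSet_Ici) (by fun_prop)),
          lintegral_const_mul _ (by
          apply Measurable.comp (meas_sq.indicator measurableSet_Ici) (by fun_prop)),
          lintegral_const_mul _ (by
          apply Measurable.comp (meas_sq.indicator measurableSet_Ici) (by fun_prop)),
          inner_left hr, inner_right hr]
    _ = _ := by
        rw [← mul_add, ← ENNReal.ofReal_add (by positivity) (by positivity)]
        congr 2
        field_simp
        ring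

/-- upper bound of the gap integral -/
theorem upper {h w p δ : ℝ} (hh : 0 < h) (hw : 0 < w) (hw1 : w < 1) (hδ : 0 < δ) (hδh : δ ≤ h)
    (hp : 0 ≤ p) : ∫⁻ x in Ioo (-1 : ℝ) 1, ∫⁻ y in Ioo (-1 : ℝ) 1, F h w p δ x y ≤
      ENNReal.ofReal ((h - δ) ^ p * (2 * Real.log (2 * h / (w * δ)) + 2 * h / δ)) := by
  have hρ : 0 < w * δ / h := by positivity
  have hρ1 : w * δ / h ≤ 1 := by
    rw [div_le_one hh]
    nlinarith
  have hcov : Ioo (-1 : ℝ) 1 ⊆ Ioc (-1 : ℝ) 0 ∪ (Ioc 0 w ∪ Ioc w 1) := by
    intro x hx
    rcases le_or_gt x 0 with h1 | h1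
    · exact Or.inl ⟨hx.1, h1⟩
    · rcases le_or_gt x w with h2 | h2
      · exact Or.inr (Or.inl ⟨h1, h2⟩)
      · exact Or.inr (Or.inr ⟨h2, hx.2.le⟩)
  have hA : 0 ≤ (h - δ) ^ p := Real.rpow_nonneg (by linarith) _
  have hlog : 0 ≤ Real.log (2 * h / (w * δ)) := by
    apply Real.log_nonneg
    rw [le_div_iff₀ (by positivity)]
    nlinarith
  calc ∫⁻ x in Ioo (-1 : ℝ) 1, ∫⁻ y in Ioo (-1 : ℝ) 1, F h w p δ x y
      ≤ ∫⁻ x in Ioc (-1 : ℝ) 0 ∪ (Ioc 0 w ∪ Ioc w 1), ∫⁻ y in Ioo (-1 : ℝ) 1, F h w p δ x y :=
        lintegral_mono_set hcov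
    _ ≤ (∫⁻ x in Ioc (-1 : ℝ) 0, ∫⁻ y in Ioo (-1 : ℝ) 1, F h w p δ x y) +
        ((∫⁻ x in Ioc (0 : ℝ) w, ∫⁻ y in Ioo (-1 : ℝ) 1, F h w p δ x y) +
          ∫⁻ x in Ioc w 1, ∫⁻ y in Ioo (-1 : ℝ) 1, F h w p δ x y) :=
        (lintegral_union_le _ _ _).trans (add_le_add le_rfl (lintegral_union_le _ _ _))
    _ ≤ ENNReal.ofReal ((h - δ) ^ p) * ENNReal.ofReal (Real.log (2 * h / (w * δ))) +
        (ENNReal.ofReal ((h - δ) ^ p) * ENNReal.ofReal (2 * h / δ) +
          ENNReal.ofReal ((h - δ) ^ p) * ENNReal.ofReal (Real.log (2 * h / (w * δ)))) := by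
        refine add_le_add ?_ (add_le_add ?_ ?_)
        · -- left part
          calc ∫⁻ x in Ioc (-1 : ℝ) 0, ∫⁻ y in Ioo (-1 : ℝ) 1, F h w p δ x y
              ≤ ∫⁻ x in Ioc (-1 : ℝ) 0, ENNReal.ofReal ((h - δ) ^ p) *
                ENNReal.ofReal (1 / (w * δ / h - x)) := by
                apply setLIntegral_mono' measurableSet_Ioc
                intro x hx
                exact inner_le_left hh hw hδ hp hx.2
            _ = ENNReal.ofReal ((h - δ) ^ p) * ∫⁻ x in Ioc (-1 : ℝ) 0,
                ENNReal.ofReal (1 / (w * δ / h - x)) := by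
                rw [lintegral_const_mul _ (by fun_prop)]
            _ = ENNReal.ofReal ((h - δ) ^ p) * ∫⁻ x in Ico (0 : ℝ) 1,
                ENNReal.ofReal (1 / (w * δ / h + x)) := by
                congr 1
                rw [← lintegral_indicator measurableSet_Ioc, ← lintegral_indicator measurableSet_Ico,
                  ← lintegral_neg_eq_self]
                apply lintegral_congr
                intro x
                by_cases hx : x ∈ Ico (0 : ℝ) 1
                · rw [indicator_of_mem hx, indicator_of_mem (show -x ∈ Ioc (-1 : ℝ) 0 from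
                    ⟨by linarith [hx.2], by linarith [hx.1]⟩), sub_neg_eq_add]
                · rw [indicator_of_notMem hx, indicator_of_notMem]
                  intro h1
                  exact hx ⟨by linarith [h1.2], by linarith [h1.1]⟩
            _ = ENNReal.ofReal ((h - δ) ^ p) *
                ENNReal.ofReal (Real.log ((w * δ / h + 1) / (w * δ / h + 0))) := by
                rw [setLIntegral_congr (Ico_ae_eq_Ioc (μ := volume)),
                  lint_inv zero_le_one (by linarith)]
            _ ≤ _ := by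
                refine mul_le_mul_right (ENNReal.ofReal_le_ofReal
                  (Real.log_le_log (by positivity) ?_)) _
                have : w * δ / h + 1 ≤ 2 := by linarith
                rw [add_zero, div_le_div_iff₀ hρ (by positivity)]
                have e : 2 * h * (w * δ / h) = 2 * (w * δ) := by field_simp
                rw [e]
                nlinarith [mul_pos hw hδ]
        · calc ∫⁻ x in Ioc (0 : ℝ) w, ∫⁻ y in Ioo (-1 : ℝ) 1, F h w p δ x y
              ≤ ∫⁻ x in Ioc (0 : ℝ) w, ENNReal.ofReal ((h - δ) ^ p) *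
                ENNReal.ofReal (2 * h / (w * δ)) := by
                apply lintegral_mono
                intro x
                exact inner_le_mid hh hw hδ hp
            _ = _ := by
                rw [setLIntegral_const, Real.volume_Ioc, sub_zero, mul_assoc,
                  ← ENNReal.ofReal_mul (by positivity)]
                congr 2
                field_simp
        · calc ∫⁻ x in Ioc w (1 : ℝ), ∫⁻ y in Ioo (-1 : ℝ) 1, F h w p δ x y
              ≤ ∫⁻ x in Ioc w (1 : ℝ), ENNReal.ofReal ((h - δ) ^ p) *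
                ENNReal.ofReal (1 / (w * δ / h - w + x)) := by
                apply setLIntegral_mono' measurableSet_Ioc
                intro x hx
                exact inner_le_right hh hw hδ hp hx.1.le
            _ = ENNReal.ofReal ((h - δ) ^ p) *
                ENNReal.ofReal (Real.log ((w * δ / h - w + 1) / (w * δ / h - w + w))) := by
                rw [lintegral_const_mul _ (by fun_prop), lint_inv hw1.le (by linarith)]
            _ ≤ _ := by
                refine mul_le_mul_right (ENNReal.ofReal_le_ofReal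
                  (Real.log_le_log (div_pos (by linarith) (by linarith)) ?_)) _
                have : w * δ / h - w + 1 ≤ 2 := by linarith
                rw [sub_add_cancel, div_le_div_iff₀ hρ (by positivity)]
                have e : 2 * h * (w * δ / h) = 2 * (w * δ) := by field_simp
                rw [e]
                nlinarith [mul_pos hw hδ]
    _ = _ := by
        rw [← ENNReal.ofReal_mul hA, ← ENNReal.ofReal_mul hA,
          ← ENNReal.ofReal_add (by positivity) (by positivity),
          ← ENNReal.ofReal_add (by positivity) (by positivity)]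
        congr 1
        ring

theorem F_eq {h w p t x y : ℝ} (hh : 0 < h) (hw : 0 < w) (ht : t ≤ h)
    (hxy : (x ≤ 0 ∧ w ≤ y) ∨ (y ≤ 0 ∧ w ≤ x)) :
    F h w p t x y = ENNReal.ofReal ((h - t) ^ p) * ENNReal.ofReal (1 / (y - x) ^ 2) := by
  have e : |ramp h w y - ramp h w x| = h := by
    rcases hxy with ⟨h1, h2⟩ | ⟨h1, h2⟩
    · rw [ramp_of_nonpos hw h1, ramp_of_ge hw h2, sub_zero, abs_of_pos hh]
    · rw [ramp_of_nonpos hw h1, ramp_of_ge hw h2, zero_sub, abs_neg, abs_of_pos hh]
  unfold F
  rw [e, if_pos ht, ← ENNReal.ofReal_mul (Real.rpow_nonneg (by linarith) _), mul_one_div]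

/-- lower bound of the gap integral -/
theorem lower {h w p t : ℝ} (hh : 0 < h) (hw : 0 < w) (hw1 : w < 1) (ht : t ≤ h) :
    ENNReal.ofReal ((h - t) ^ p * (2 * (Real.log (1 / w) - 1))) ≤
      ∫⁻ x in Ioo (-1 : ℝ) 1, ∫⁻ y in Ioo (-1 : ℝ) 1, F h w p t x y := by
  have hA : 0 ≤ (h - t) ^ p := Real.rpow_nonneg (by linarith) _
  have hdisj : Disjoint (Ioo (-1 : ℝ) 0) (Ioo w 1) := by
    rw [Set.disjoint_left]
    intro x hx hx'
    linarith [hx.2, hx'.1]
  have hsub : Ioo (-1 : ℝ) 0 ∪ Ioo w 1 ⊆ Ioo (-1 : ℝ) 1 := by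
    intro x hx
    rcases hx with hx | hx
    · exact ⟨hx.1, by linarith [hx.2]⟩
    · exact ⟨by linarith [hx.1], hx.2⟩
  -- first part
  have key1 : ENNReal.ofReal ((h - t) ^ p * (Real.log (1 / w) - 1)) ≤
      ∫⁻ x in Ioo (-1 : ℝ) 0, ∫⁻ y in Ioo (-1 : ℝ) 1, F h w p t x y := by
    have i1 : ∀ x ∈ Ioo (-1 : ℝ) 0, ENNReal.ofReal ((h - t) ^ p) *
        ENNReal.ofReal (1 / (w - x) - 1) ≤ ∫⁻ y in Ioo (-1 : ℝ) 1, F h w p t x y := by
      intro x hx
      calc ENNReal.ofReal ((h - t) ^ p) * ENNReal.ofReal (1 / (w - x) - 1)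
          ≤ ENNReal.ofReal ((h - t) ^ p) * ∫⁻ y in Ioc w 1, ENNReal.ofReal (1 / (y - x) ^ 2) := by
            rw [lint_inv_sq hw1.le (by linarith [hx.2])]
            gcongr
            rw [div_le_one (by linarith [hx.2])]
            linarith [hx.2]
        _ = ∫⁻ y in Ioo w 1, F h w p t x y := by
            rw [← lintegral_const_mul _ (by fun_prop), setLIntegral_congr (Ioo_ae_eq_Ioc (μ := volume)).symm]
            apply setLIntegral_congr_fun measurableSet_Ioo
            intro y hy
            exact (F_eq hh hw ht (Or.inl ⟨hx.2.le, hy.1.le⟩)).symm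
        _ ≤ ∫⁻ y in Ioo (-1 : ℝ) 1, F h w p t x y :=
            lintegral_mono_set (fun y hy => ⟨by linarith [hy.1], hy.2⟩)
    calc ENNReal.ofReal ((h - t) ^ p * (Real.log (1 / w) - 1))
        ≤ ENNReal.ofReal ((h - t) ^ p) * ∫⁻ x in Ioo (-1 : ℝ) 0, ENNReal.ofReal (1 / (w - x) - 1) := by
          rw [ENNReal.ofReal_mul hA]
          gcongr
          have e1 : ∫⁻ x in Ioo (-1 : ℝ) 0, ENNReal.ofReal (1 / (w - x)) =
              ENNReal.ofReal (Real.log ((w + 1) / (w + 0))) := by
            rw [← lint_inv zero_le_one (by linarith), setLIntegral_congr (Ioo_ae_eq_Ioc (μ := volume)).symm,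
              ← lintegral_indicator measurableSet_Ioo, ← lintegral_indicator measurableSet_Ioo,
              ← lintegral_neg_eq_self]
            apply lintegral_congr
            intro x
            by_cases hx : x ∈ Ioo (0 : ℝ) 1
            · rw [indicator_of_mem hx, indicator_of_mem (show -x ∈ Ioo (-1 : ℝ) 0 from
                ⟨by linarith [hx.2], by linarith [hx.1]⟩), sub_neg_eq_add]
            · rw [indicator_of_notMem hx, indicator_of_notMem]
              intro h1
              exact hx ⟨by linarith [h1.2], by linarith [h1.1]⟩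
          have e2 : ENNReal.ofReal (Real.log (1 / w)) ≤
              ∫⁻ x in Ioo (-1 : ℝ) 0, ENNReal.ofReal (1 / (w - x)) := by
            rw [e1]
            apply ENNReal.ofReal_le_ofReal
            apply Real.log_le_log (by positivity)
            rw [add_zero]
            gcongr
            linarith
          have e3 : ∫⁻ x in Ioo (-1 : ℝ) 0, ENNReal.ofReal (1 / (w - x)) ≤
              (∫⁻ x in Ioo (-1 : ℝ) 0, ENNReal.ofReal (1 / (w - x) - 1)) + 1 := by
            calc ∫⁻ x in Ioo (-1 : ℝ) 0, ENNReal.ofReal (1 / (w - x))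
                ≤ ∫⁻ x in Ioo (-1 : ℝ) 0, (ENNReal.ofReal (1 / (w - x) - 1) + 1) := by
                  apply lintegral_mono
                  intro x
                  have := ENNReal.ofReal_add_le (p := 1 / (w - x) - 1) (q := 1)
                  rw [sub_add_cancel, ENNReal.ofReal_one] at this
                  exact this
              _ = _ := by
                  rw [lintegral_add_right _ measurable_const, setLIntegral_const, Real.volume_Ioo]
                  norm_num
          rw [ENNReal.ofReal_sub _ zero_le_one, ENNReal.ofReal_one]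
          exact tsub_le_iff_right.2 (e2.trans e3)
      _ = ∫⁻ x in Ioo (-1 : ℝ) 0, ENNReal.ofReal ((h - t) ^ p) *
          ENNReal.ofReal (1 / (w - x) - 1) := by
          rw [lintegral_const_mul _ (by fun_prop)]
      _ ≤ _ := setLIntegral_mono' measurableSet_Ioo i1
  -- second part, by reflection x -> w - x
  have key2 : ENNReal.ofReal ((h - t) ^ p * (Real.log (1 / w) - 1)) ≤
      ∫⁻ x in Ioo w 1, ∫⁻ y in Ioo (-1 : ℝ) 1, F h w p t x y := by
    have i1 : ∀ x ∈ Ioo w 1, ENNReal.ofReal ((h - t) ^ p) *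
        ENNReal.ofReal (1 / x - 1) ≤ ∫⁻ y in Ioo (-1 : ℝ) 1, F h w p t x y := by
      intro x hx
      have hx0 : 0 < x := lt_trans hw hx.1
      have e0 : ∫⁻ y in Ioo (-1 : ℝ) 0, ENNReal.ofReal (1 / (y - x) ^ 2) =
          ENNReal.ofReal (1 / (0 - -x) - 1 / (1 - -x)) := by
        rw [← lint_inv_sq zero_le_one (by linarith), setLIntegral_congr (Ioo_ae_eq_Ioc (μ := volume)).symm,
          ← lintegral_indicator measurableSet_Ioo, ← lintegral_indicator measurableSet_Ioo,
          ← lintegral_neg_eq_self]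
        apply lintegral_congr
        intro y
        by_cases hy : y ∈ Ioo (0 : ℝ) 1
        · rw [indicator_of_mem hy, indicator_of_mem (show -y ∈ Ioo (-1 : ℝ) 0 from
            ⟨by linarith [hy.2], by linarith [hy.1]⟩)]
          congr 2
          ring
        · rw [indicator_of_notMem hy, indicator_of_notMem]
          intro h1
          exact hy ⟨by linarith [h1.2], by linarith [h1.1]⟩
      calc ENNReal.ofReal ((h - t) ^ p) * ENNReal.ofReal (1 / x - 1)
          ≤ ENNReal.ofReal ((h - t) ^ p) *
            ∫⁻ y in Ioo (-1 : ℝ) 0, ENNReal.ofReal (1 / (y - x) ^ 2) := by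
            rw [e0]
            refine mul_le_mul_right (ENNReal.ofReal_le_ofReal ?_) _
            have h1 : 1 / (1 - -x) ≤ 1 := by
              rw [div_le_one (by linarith)]
              linarith
            have h2 : 1 / (0 - -x) = 1 / x := by rw [zero_sub, neg_neg]
            rw [h2]
            linarith
        _ = ∫⁻ y in Ioo (-1 : ℝ) 0, F h w p t x y := by
            rw [← lintegral_const_mul _ (by fun_prop)]
            apply setLIntegral_congr_fun measurableSet_Ioo
            intro y hy
            exact (F_eq hh hw ht (Or.inr ⟨hy.2.le, hx.1.le⟩)).symm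
        _ ≤ ∫⁻ y in Ioo (-1 : ℝ) 1, F h w p t x y :=
            lintegral_mono_set (fun y hy => ⟨hy.1, by linarith [hy.2]⟩)
    calc ENNReal.ofReal ((h - t) ^ p * (Real.log (1 / w) - 1))
        ≤ ENNReal.ofReal ((h - t) ^ p) * ∫⁻ x in Ioo w 1, ENNReal.ofReal (1 / x - 1) := by
          rw [ENNReal.ofReal_mul hA]
          gcongr
          have e1 : ∫⁻ x in Ioo w 1, ENNReal.ofReal (1 / x) =
              ENNReal.ofReal (Real.log (1 / w)) := by
            have := lint_inv (a := w) (b := 1) (c := 0) hw1.le (by linarith)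
            rw [setLIntegral_congr (Ioo_ae_eq_Ioc (μ := volume))]
            simpa using this
          have e3 : ∫⁻ x in Ioo w 1, ENNReal.ofReal (1 / x) ≤
              (∫⁻ x in Ioo w 1, ENNReal.ofReal (1 / x - 1)) + 1 := by
            calc ∫⁻ x in Ioo w 1, ENNReal.ofReal (1 / x)
                ≤ ∫⁻ x in Ioo w 1, (ENNReal.ofReal (1 / x - 1) + 1) := by
                  apply lintegral_mono
                  intro x
                  have := ENNReal.ofReal_add_le (p := 1 / x - 1) (q := 1)
                  rw [sub_add_cancel, ENNReal.ofReal_one] at this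
                  exact this
              _ ≤ _ := by
                  rw [lintegral_add_right _ measurable_const, setLIntegral_const, Real.volume_Ioo]
                  gcongr
                  rw [one_mul]
                  exact ENNReal.ofReal_le_one.2 (by linarith)
          rw [ENNReal.ofReal_sub _ zero_le_one, ENNReal.ofReal_one, ← e1]
          exact tsub_le_iff_right.2 e3
      _ = ∫⁻ x in Ioo w 1, ENNReal.ofReal ((h - t) ^ p) * ENNReal.ofReal (1 / x - 1) := by
          rw [lintegral_const_mul _ (by fun_prop)]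
      _ ≤ _ := setLIntegral_mono' measurableSet_Ioo i1
  calc ENNReal.ofReal ((h - t) ^ p * (2 * (Real.log (1 / w) - 1)))
      ≤ ENNReal.ofReal ((h - t) ^ p * (Real.log (1 / w) - 1)) +
        ENNReal.ofReal ((h - t) ^ p * (Real.log (1 / w) - 1)) := by
        rw [show (h - t) ^ p * (2 * (Real.log (1 / w) - 1)) =
          (h - t) ^ p * (Real.log (1 / w) - 1) + (h - t) ^ p * (Real.log (1 / w) - 1) by ring]
        exact ENNReal.ofReal_add_le
    _ ≤ _ := add_le_add key1 key2
    _ = ∫⁻ x in Ioo (-1 : ℝ) 0 ∪ Ioo w 1, ∫⁻ y in Ioo (-1 : ℝ) 1, F h w p t x y := by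
        rw [lintegral_union measurableSet_Ioo hdisj]
    _ ≤ _ := lintegral_mono_set hsub

/-- for small `w` the ratio of the two gap integrals is larger than `c` -/
theorem compare {h p δ ε c : ℝ} (hp : 0 ≤ p) (hδ : 0 < δ) (hδε : δ < ε) (hε : ε < h)
    (hc0 : 0 ≤ c) (hc : c < ((h - ε) / (h - δ)) ^ p) :
    ∃ w : ℝ, 0 < w ∧ w < 1 ∧
      ENNReal.ofReal c * ∫⁻ x in Ioo (-1 : ℝ) 1, ∫⁻ y in Ioo (-1 : ℝ) 1, F h w p δ x y <
        ∫⁻ x in Ioo (-1 : ℝ) 1, ∫⁻ y in Ioo (-1 : ℝ) 1, F h w p ε x y := by
  have hh : 0 < h := by linarith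
  set A := (h - ε) ^ p with hA
  set B := (h - δ) ^ p with hB
  have hA0 : 0 < A := Real.rpow_pos_of_pos (by linarith) _
  have hB0 : 0 < B := Real.rpow_pos_of_pos (by linarith) _
  have hcAB : c * B < A := by
    rw [Real.div_rpow (by linarith) (by linarith), lt_div_iff₀ hB0] at hc
    exact hc
  obtain ⟨K, hK⟩ : ∃ K, K = 2 * Real.log (2 * h / δ) + 2 * h / δ := ⟨_, rfl⟩
  have hKpos : 0 < K := by
    have : 0 < Real.log (2 * h / δ) := by
      apply Real.log_pos
      rw [lt_div_iff₀ hδ]
      linarith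
    rw [hK]
    positivity
  obtain ⟨L, hL⟩ : ∃ L, L = (c * B * K + 2 * A) / (2 * (A - c * B)) + 1 := ⟨_, rfl⟩
  have hL0 : 0 < L := by
    have : 0 ≤ (c * B * K + 2 * A) / (2 * (A - c * B)) := by
      apply div_nonneg
      · positivity
      · linarith
    linarith
  have hLk : c * B * K + 2 * A < (2 * (A - c * B)) * L := by
    have hne : (2 * (A - c * B)) ≠ 0 := by
      have : 0 < A - c * B := by linarith
      positivity
    have : (2 * (A - c * B)) * L = (c * B * K + 2 * A) + 2 * (A - c * B) := by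
      rw [hL, mul_add, mul_div_cancel₀ _ hne, mul_one]
    rw [this]
    linarith
  refine ⟨Real.exp (-L), Real.exp_pos _, ?_, ?_⟩
  · rw [Real.exp_lt_one_iff]
    linarith
  have hw := Real.exp_pos (-L)
  have hw1 : Real.exp (-L) < 1 := by
    rw [Real.exp_lt_one_iff]
    linarith
  have hup := upper (p := p) hh hw hw1 hδ (by linarith) hp
  have hlo := lower (p := p) (t := ε) hh hw hw1 (by linarith)
  refine lt_of_le_of_lt (mul_le_mul_right hup _) (lt_of_lt_of_le ?_ hlo)
  rw [← ENNReal.ofReal_mul hc0]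
  have e1 : Real.log (2 * h / (Real.exp (-L) * δ)) = L + Real.log (2 * h / δ) := by
    rw [show 2 * h / (Real.exp (-L) * δ) = (Real.exp (-L))⁻¹ * (2 * h / δ) by
      field_simp]
    rw [Real.log_mul (by positivity) (by positivity), Real.log_inv, Real.log_exp, neg_neg]
  have e2 : Real.log (1 / Real.exp (-L)) = L := by
    rw [one_div, Real.log_inv, Real.log_exp, neg_neg]
  rw [e1, e2]
  have hineq : c * (B * (2 * (L + Real.log (2 * h / δ)) + 2 * h / δ)) < A * (2 * (L - 1)) := by
    have : c * (B * (2 * (L + Real.log (2 * h / δ)) + 2 * h / δ)) = c * B * (2 * L) + c * B * K := by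
      rw [hK]; ring
    rw [this]
    nlinarith
  apply (ENNReal.ofReal_lt_ofReal_iff _).2 hineq
  refine lt_of_le_of_lt ?_ hineq
  have hlog : 0 < Real.log (2 * h / δ) := by
    apply Real.log_pos
    rw [lt_div_iff₀ hδ]
    linarith
  positivity

end Pool.Agent.R267.Gap
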