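import Pool.Agent.R267.GreedyRenorm

set_option autoImplicit false

open Filter Topology

/-! The dual of the isometrically greedy renorming is isometrically greedy. -/

namespace Pool.Agent.R267.GR

open Pool.Agent.R267

variable {𝕜 : Type} [RCLike 𝕜]

section abs

variable {V : Type} [AddCommGroup V] [Module 𝕜 V]

lemma coord_sum (ys : ℕ → V →ₗ[𝕜] 𝕜) (v : ℕ → V)
    (hbi : ∀ m n, ys m (v n) = if m = n then 1 else 0) (S : Finset ℕ) (a : ℕ → 𝕜) (k : ℕ) :
    ys k (∑ n ∈ S, a n • v n) = if k ∈ S then a k else 0 := by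
  classical
  rw [map_sum]
  simp only [map_smul, hbi, smul_eq_mul, mul_ite, mul_one, mul_zero]
  rw [Finset.sum_ite_eq]

/-- greedy rearrangements by exchanging two sets of coordinates at the same level -/
lemma greedyRearr_of_swap' (a b : ℕ → 𝕜) (A B : Finset ℕ) (t : ℝ) (hc : A.card = B.card)
    (hd : Disjoint A B) (h1 : ∀ n, ‖a n‖ ≤ t) (ha : ∀ n ∈ A, ‖a n‖ = t) (hb : ∀ n ∈ B, ‖b n‖ = t)
    (ha0 : ∀ n ∈ B, a n = 0) (hb0 : ∀ n ∈ A, b n = 0)
    (hab : ∀ n, n ∉ A → n ∉ B → b n = a n) : PA.GreedyRearr a b := by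
  obtain ⟨π, hA, hB, ho⟩ := SW.exists_swap A B hc hd
  refine ⟨π, fun n => ?_, fun k hk ⟨n, hn⟩ => ?_⟩
  · by_cases h : n ∈ A
    · rw [hb _ (hA n h), ha n h]
    · by_cases h' : n ∈ B
      · rw [hb0 _ (hB n h'), ha0 n h']
      · rw [ho n h h', hab n h h']
  · have hkA : k ∉ A := by
      intro h
      rw [ha k h] at hn
      exact absurd (h1 n) (not_le.mpr hn)
    have hkB : k ∉ B := by
      intro h
      rw [ha0 k h, norm_zero] at hk
      exact absurd hk (lt_irrefl _)
    exact ⟨ho k hkA hkB, hab k hkA hkB⟩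

/-- lattice property and Property (A) imply that the basis is isometrically greedy -/
theorem one_greedy (ys : ℕ → V →ₗ[𝕜] 𝕜) (v : ℕ → V)
    (hbi : ∀ m n, ys m (v n) = if m = n then 1 else 0) (N : V → ℝ)
    (hL : ∀ f f' : V, (∀ n, ‖ys n f‖ ≤ ‖ys n f'‖) → N f ≤ N f')
    (hA : ∀ f f' : V, PA.GreedyRearr (fun n => ys n f) (fun n => ys n f') → N f = N f')
    (f : V) (A B : Finset ℕ) (b : ℕ → 𝕜) (hgr : ∀ n ∈ A, ∀ k, k ∉ A → ‖ys k f‖ ≤ ‖ys n f‖)
    (hBA : B.card ≤ A.card) :
    N (f - ∑ n ∈ A, ys n f • v n) ≤ N (f - ∑ n ∈ B, b n • v n) := by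
  classical
  have hu : ∀ k, ys k (f - ∑ n ∈ A, ys n f • v n) = if k ∈ A then 0 else ys k f := by
    intro k
    rw [map_sub, coord_sum ys v hbi]
    split_ifs <;> simp
  have hv : ∀ k, ys k (f - ∑ n ∈ B, b n • v n) = if k ∈ B then ys k f - b k else ys k f := by
    intro k
    rw [map_sub, coord_sum ys v hbi]
    split_ifs <;> simp
  rcases A.eq_empty_or_nonempty with hAe | hAne
  · subst hAe
    have : B = ∅ := by
      rw [← Finset.card_eq_zero]
      simpa using hBA
    subst this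
    simp
  · obtain ⟨n0, hn0, hmin⟩ := A.exists_min_image (fun n => ‖ys n f‖) hAne
    set t := ‖ys n0 f‖ with ht
    have ht0 : 0 ≤ t := norm_nonneg _
    -- the sets
    have hcard : (B \ A).card ≤ (A \ B).card := by
      have h1 := Finset.card_sdiff_add_card_inter B A
      have h2 := Finset.card_sdiff_add_card_inter A B
      rw [Finset.inter_comm] at h2
      omega
    obtain ⟨E, hE, hEc⟩ := Finset.exists_subset_card_eq hcard
    set z := f - ∑ n ∈ A ∪ B, ys n f • v n with hz
    have hzc : ∀ k, ys k z = if k ∈ A ∪ B then 0 else ys k f := by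
      intro k
      rw [hz, map_sub, coord_sum ys v hbi]
      split_ifs <;> simp
    set p := z + ∑ n ∈ B \ A, ((t : ℝ) : 𝕜) • v n with hp
    set q := z + ∑ n ∈ E, ((t : ℝ) : 𝕜) • v n with hq
    have hpc : ∀ k, ys k p = (if k ∈ A ∪ B then 0 else ys k f) +
        if k ∈ B \ A then ((t : ℝ) : 𝕜) else 0 := by
      intro k
      rw [hp, map_add, hzc, coord_sum ys v hbi]
    have hqc : ∀ k, ys k q = (if k ∈ A ∪ B then 0 else ys k f) +
        if k ∈ E then ((t : ℝ) : 𝕜) else 0 := by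
      intro k
      rw [hq, map_add, hzc, coord_sum ys v hbi]
    have hEA : ∀ k ∈ E, k ∈ A ∧ k ∉ B := fun k hk => Finset.mem_sdiff.mp (hE hk)
    have hnt : ‖((t : ℝ) : 𝕜)‖ = t := by rw [RCLike.norm_ofReal, abs_of_nonneg ht0]
    have hout : ∀ k, k ∉ A → ‖ys k f‖ ≤ t := fun k hk => hgr n0 hn0 k hk
    have h1 : N (f - ∑ n ∈ A, ys n f • v n) ≤ N p := by
      apply hL
      intro k
      rw [hu, hpc]
      by_cases hkA : k ∈ A
      · rw [if_pos hkA, norm_zero]; exact norm_nonneg _
      · by_cases hkB : k ∈ B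
        · rw [if_neg hkA, if_pos (Finset.mem_union_right _ hkB),
            if_pos (Finset.mem_sdiff.mpr ⟨hkB, hkA⟩), zero_add, hnt]
          exact hout k hkA
        · rw [if_neg hkA, if_neg (by simp [hkA, hkB]), if_neg (by simp [hkB]), add_zero]
    have h2 : N p = N q := by
      apply hA
      have hdisj : Disjoint (B \ A) E := by
        rw [Finset.disjoint_left]
        intro k hk hkE
        exact (Finset.mem_sdiff.mp hk).2 (hEA k hkE).1
      apply greedyRearr_of_swap' _ _ (B \ A) E t hEc.symm hdisj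
      · intro n
        change ‖ys n p‖ ≤ t
        rw [hpc]
        by_cases h3 : n ∈ B \ A
        · rw [if_pos h3, if_pos (Finset.mem_union_right _ (Finset.mem_sdiff.mp h3).1), zero_add,
            hnt]
        · rw [if_neg h3, add_zero]
          by_cases h4 : n ∈ A ∪ B
          · rw [if_pos h4, norm_zero]; exact ht0
          · rw [if_neg h4]
            exact hout n (fun h5 => h4 (Finset.mem_union_left _ h5))
      · intro n hn
        change ‖ys n p‖ = t
        rw [hpc, if_pos hn, if_pos (Finset.mem_union_right _ (Finset.mem_sdiff.mp hn).1), zero_add,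
          hnt]
      · intro n hn
        change ‖ys n q‖ = t
        rw [hqc, if_pos hn, if_pos (Finset.mem_union_left _ (hEA n hn).1), zero_add, hnt]
      · intro n hn
        change ys n p = 0
        rw [hpc, if_pos (Finset.mem_union_left _ (hEA n hn).1),
          if_neg (fun h => (Finset.mem_sdiff.mp h).2 (hEA n hn).1), add_zero]
      · intro n hn
        change ys n q = 0
        have h3 := Finset.mem_sdiff.mp hn
        rw [hqc, if_pos (Finset.mem_union_right _ h3.1), if_neg (fun h => h3.2 (hEA n h).1),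
          add_zero]
      · intro n hn hn'
        change ys n q = ys n p
        rw [hpc, hqc, if_neg hn, if_neg hn']
    have h3 : N q ≤ N (f - ∑ n ∈ B, b n • v n) := by
      apply hL
      intro k
      rw [hqc, hv]
      by_cases hkE : k ∈ E
      · obtain ⟨h4, h5⟩ := hEA k hkE
        rw [if_pos hkE, if_pos (Finset.mem_union_left _ h4), zero_add, hnt, if_neg h5]
        exact hmin k h4
      · rw [if_neg hkE, add_zero]
        by_cases h4 : k ∈ A ∪ B
        · rw [if_pos h4, norm_zero]; exact norm_nonneg _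
        · rw [if_neg h4, if_neg (fun h => h4 (Finset.mem_union_right _ h))]
    linarith

end abs

variable {X : Type} [NormedAddCommGroup X] [NormedSpace 𝕜 X] (D : Data 𝕜 X)

/-- averaging over a set containing the largest coordinates does not increase the norm -/
lemma nn_push (h h' : X) (E : Finset ℕ) (r : ℝ) (h1 : ∀ n, ‖D.xs n h'‖ ≤ r)
    (h2 : ∀ n ∈ E, ‖D.xs n h'‖ = r) (h3 : ∀ n, n ∉ E → ‖D.xs n h'‖ = ‖D.xs n h‖)
    (h4 : ∑ n ∈ E, ‖D.xs n h'‖ ≤ ∑ n ∈ E, ‖D.xs n h‖) : nn D h' ≤ nn D h := by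
  classical
  apply nn_le
  intro A B g c hadm
  obtain ⟨A', c', hMA, hadm', hle⟩ := add_all D h' r h1 E h2 A B g c hadm
  refine hle.trans (le_trans ?_ (le_nn D A' B g c' hadm' h))
  unfold val
  have h5 : ∑ n ∈ A', ‖D.xs n h'‖ ≤ ∑ n ∈ A', ‖D.xs n h‖ := by
    rw [← Finset.sum_sdiff hMA, ← Finset.sum_sdiff hMA]
    refine add_le_add (le_of_eq ?_) h4
    exact Finset.sum_congr rfl fun n hn => h3 n (Finset.mem_sdiff.mp hn).2
  have h6 : ∑ n ∈ B \ A', min (g n) c' * ‖D.xs n h'‖ = ∑ n ∈ B \ A', min (g n) c' * ‖D.xs n h‖ :=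
    Finset.sum_congr rfl fun n hn => by
      rw [h3 n (fun h7 => (Finset.mem_sdiff.mp hn).2 (hMA h7))]
  rw [h6]
  have := mul_le_mul_of_nonneg_left h5 (u_nonneg D A'.card)
  linarith

lemma exists_level (S T : Finset ℕ) (hTS : T ⊆ S) (b : ℕ → ℝ) (hb : ∀ n, 0 ≤ b n) :
    ∃ r, 0 ≤ r ∧ ∑ n ∈ T, (r - b n) = ∑ n ∈ S \ T, max (b n - r) 0 := by
  set ρ : ℝ → ℝ := fun r => ∑ n ∈ T, (r - b n) - ∑ n ∈ S \ T, max (b n - r) 0 with hρ
  have hcont : Continuous ρ := by
    rw [hρ]
    fun_prop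
  set R := ∑ n ∈ S, b n with hR
  have hR0 : 0 ≤ R := Finset.sum_nonneg fun n _ => hb n
  have hle : ∀ n ∈ S, b n ≤ R := fun n hn => Finset.single_le_sum (fun k _ => hb k) hn
  have h1 : ρ 0 ≤ 0 := by
    rw [hρ]
    simp only
    have h2 : ∑ n ∈ T, (0 - b n) ≤ 0 := Finset.sum_nonpos fun n _ => by have := hb n; linarith
    have h3 : 0 ≤ ∑ n ∈ S \ T, max (b n - 0) 0 := Finset.sum_nonneg fun _ _ => le_max_right _ _
    linarith
  have h2 : 0 ≤ ρ R := by
    rw [hρ]
    simp only
    have h2 : 0 ≤ ∑ n ∈ T, (R - b n) := Finset.sum_nonneg fun n hn => by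
      have := hle n (hTS hn); linarith
    have h3 : ∑ n ∈ S \ T, max (b n - R) 0 = 0 := by
      apply Finset.sum_eq_zero
      intro n hn
      apply max_eq_right
      have := hle n (Finset.mem_sdiff.mp hn).1
      linarith
    linarith
  obtain ⟨r, ⟨hr0, _⟩, hr⟩ := intermediate_value_Icc hR0 hcont.continuousOn ⟨h1, h2⟩
  refine ⟨r, hr0, ?_⟩
  have h3 : ∑ n ∈ T, (r - b n) - ∑ n ∈ S \ T, max (b n - r) 0 = 0 := hr
  linarith

/-- the dual norm -/
noncomputable def dn (φ : StrongDual 𝕜 X) : ℝ := ⨆ f : {f : X // nn D f ≤ 1}, ‖φ f‖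

lemma dn_bdd (φ : StrongDual 𝕜 X) : BddAbove (Set.range (fun f : {f : X // nn D f ≤ 1} => ‖φ f‖)) := by
  refine ⟨‖φ‖ * D.C2, ?_⟩
  rintro _ ⟨f, rfl⟩
  refine (φ.le_opNorm _).trans (mul_le_mul_of_nonneg_left ?_ (norm_nonneg _))
  have h1 := (nn_lower D (f : X)).trans f.2
  rwa [inv_mul_le_iff₀ D.C2_pos, mul_one] at h1

lemma le_dn (φ : StrongDual 𝕜 X) (f : X) (hf : nn D f ≤ 1) : ‖φ f‖ ≤ dn D φ :=
  le_ciSup (dn_bdd D φ) ⟨f, hf⟩

variable (x : ℕ → X) (hbi : ∀ m n, D.xs m (x n) = if m = n then 1 else 0)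
  (hexp : ∀ f : X, Tendsto (fun m => ∑ n ∈ Finset.range m, D.xs n f • x n) atTop (𝓝 f))

include hbi hexp

/-- the dual norm is computed on finitely supported vectors -/
lemma dn_le (φ : StrongDual 𝕜 X) (C : ℝ)
    (hC : ∀ (S : Finset ℕ) (a : ℕ → 𝕜), nn D (∑ n ∈ S, a n • x n) ≤ 1 →
      ‖φ (∑ n ∈ S, a n • x n)‖ ≤ C) : dn D φ ≤ C := by
  have : Nonempty {f : X // nn D f ≤ 1} := ⟨⟨0, by rw [map_zero]; exact zero_le_one⟩⟩
  apply ciSup_le
  rintro ⟨f, hf⟩
  have h1 : Tendsto (fun m => ‖φ (∑ n ∈ Finset.range m, D.xs n f • x n)‖) atTop (𝓝 ‖φ f‖) :=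
    ((φ.continuous.tendsto _).comp (hexp f)).norm
  refine le_of_tendsto h1 (Eventually.of_forall fun m => ?_)
  apply hC
  refine le_trans (nn_lattice D _ _ fun k => ?_) hf
  rw [coord_sum D.xs x hbi]
  split_ifs
  · exact le_refl _
  · rw [norm_zero]; exact norm_nonneg _

lemma dn_lattice (φ φ' : StrongDual 𝕜 X) (h : ∀ n, ‖φ (x n)‖ ≤ ‖φ' (x n)‖) :
    dn D φ ≤ dn D φ' := by
  apply dn_le D x hbi hexp
  intro S a ha
  -- the vector with the phases adapted to `φ'`
  have hph : ∀ z : 𝕜, ∃ ε : 𝕜, ‖ε‖ = 1 ∧ ε * z = ((‖z‖ : ℝ) : 𝕜) := by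
    intro z
    by_cases hz : z = 0
    · exact ⟨1, norm_one, by rw [hz]; simp⟩
    · have hz' : ‖z‖ ≠ 0 := norm_ne_zero_iff.mpr hz
      refine ⟨((‖z‖ : ℝ) : 𝕜) * z⁻¹, ?_, ?_⟩
      · rw [norm_mul, RCLike.norm_ofReal, abs_norm, norm_inv, mul_inv_cancel₀ hz']
      · rw [mul_assoc, inv_mul_cancel₀ hz, mul_one]
  choose ε hε1 hε2 using fun n => hph (φ' (x n))
  set f' : X := ∑ n ∈ S, (ε n * ((‖a n‖ : ℝ) : 𝕜)) • x n with hf'
  have h1 : nn D f' ≤ 1 := by
    refine le_trans (nn_lattice D _ _ fun k => ?_) ha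
    rw [hf', coord_sum D.xs x hbi, coord_sum D.xs x hbi]
    split_ifs
    · rw [norm_mul, hε1, one_mul, RCLike.norm_ofReal, abs_norm]
    · exact le_refl _
  have h2 := le_dn D φ' f' h1
  refine le_trans ?_ h2
  have h3 : φ' f' = ((∑ n ∈ S, ‖a n‖ * ‖φ' (x n)‖ : ℝ) : 𝕜) := by
    rw [hf', map_sum]
    push_cast
    apply Finset.sum_congr rfl
    intro n _
    rw [map_smul, smul_eq_mul]
    calc ε n * ((‖a n‖ : ℝ) : 𝕜) * φ' (x n) = (ε n * φ' (x n)) * ((‖a n‖ : ℝ) : 𝕜) := by ring
      _ = _ := by rw [hε2 n]; ring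
  rw [h3, RCLike.norm_ofReal, abs_of_nonneg (Finset.sum_nonneg fun _ _ => by positivity), map_sum]
  refine (norm_sum_le _ _).trans (Finset.sum_le_sum fun n _ => ?_)
  rw [map_smul, smul_eq_mul, norm_mul]
  exact mul_le_mul_of_nonneg_left (h n) (norm_nonneg _)

lemma dn_mono (φ φ' : StrongDual 𝕜 X)
    (hg : PA.GreedyRearr (fun n => φ (x n)) (fun n => φ' (x n))) : dn D φ ≤ dn D φ' := by
  classical
  obtain ⟨π, hπ1, hπ2⟩ := hg
  apply dn_le D x hbi hexp
  intro S a ha
  set p : ℕ → ℝ := fun n => ‖φ (x n)‖ with hp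
  set b : ℕ → ℝ := fun n => ‖a n‖ with hb
  set T := S.filter (fun n => ∀ k, p k ≤ p n) with hT
  have hTS : T ⊆ S := Finset.filter_subset _ _
  obtain ⟨r, hr0, hr⟩ := exists_level S T hTS b (fun n => norm_nonneg _)
  -- the new coefficients
  set c : ℕ → ℝ := fun n => if n ∈ T then r else if n ∈ S then min (b n) r else 0 with hc
  have hc0 : ∀ n, 0 ≤ c n := by
    intro n
    rw [hc]
    simp only
    split_ifs
    · exact hr0
    · exact le_min (norm_nonneg _) hr0
    · exact le_refl _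
  have hcr : ∀ n, c n ≤ r := by
    intro n
    rw [hc]
    simp only
    split_ifs
    · exact le_refl _
    · exact min_le_right _ _
    · exact hr0
  have hcn : ∀ n, ‖((c n : ℝ) : 𝕜)‖ = c n := fun n => by
    rw [RCLike.norm_ofReal, abs_of_nonneg (hc0 n)]
  set h : X := ∑ n ∈ S, a n • x n with hh
  set h' : X := ∑ n ∈ S, ((c n : ℝ) : 𝕜) • x n with hh'
  have hxh : ∀ k, ‖D.xs k h‖ = if k ∈ S then b k else 0 := by
    intro k
    rw [hh, coord_sum D.xs x hbi]
    split_ifs
    · rfl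
    · exact norm_zero
  have hxh' : ∀ k, ‖D.xs k h'‖ = c k := by
    intro k
    rw [hh', coord_sum D.xs x hbi]
    by_cases hk : k ∈ S
    · rw [if_pos hk, hcn]
    · rw [if_neg hk, norm_zero, hc]
      simp only
      rw [if_neg (fun h => hk (hTS h)), if_neg hk]
  -- the push
  have hpush : nn D h' ≤ nn D h := by
    set E := T ∪ S.filter (fun n => r < b n) with hE
    have hES : E ⊆ S := Finset.union_subset hTS (Finset.filter_subset _ _)
    have hcE : ∀ n ∈ E, c n = r := by
      intro n hn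
      rw [hc]
      simp only
      by_cases hnT : n ∈ T
      · rw [if_pos hnT]
      · rw [if_neg hnT, if_pos (hES hn)]
        apply min_eq_right
        rcases Finset.mem_union.mp hn with h1 | h1
        · exact absurd h1 hnT
        · exact (Finset.mem_filter.mp h1).2.le
    apply nn_push D h h' E r
    · intro n; rw [hxh']; exact hcr n
    · intro n hn
      rw [hxh']
      exact hcE n hn
    · intro n hn
      rw [hxh', hxh, hc]
      simp only
      have hnT : n ∉ T := fun h => hn (Finset.mem_union_left _ h)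
      rw [if_neg hnT]
      by_cases hnS : n ∈ S
      · rw [if_pos hnS, if_pos hnS]
        apply min_eq_left
        by_contra h1
        push Not at h1
        exact hn (Finset.mem_union_right _ (Finset.mem_filter.mpr ⟨hnS, h1⟩))
      · rw [if_neg hnS, if_neg hnS]
    · -- the sums over `E` agree
      have h1 : ∑ n ∈ E, ‖D.xs n h‖ = ∑ n ∈ E, b n :=
        Finset.sum_congr rfl fun n hn => by rw [hxh, if_pos (hES hn)]
      have h2 : ∑ n ∈ E, ‖D.xs n h'‖ = ∑ n ∈ E, r :=
        Finset.sum_congr rfl fun n hn => by rw [hxh', hcE n hn]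
      rw [h1, h2]
      have h3 : E = T ∪ (S \ T).filter (fun n => r < b n) := by
        rw [hE]
        ext n
        simp only [Finset.mem_union, Finset.mem_filter, Finset.mem_sdiff]
        tauto
      have h4 : Disjoint T ((S \ T).filter (fun n => r < b n)) := by
        rw [Finset.disjoint_left]
        intro n h5 h6
        exact (Finset.mem_sdiff.mp (Finset.mem_filter.mp h6).1).2 h5
      rw [h3, Finset.sum_union h4, Finset.sum_union h4]
      have h5 : ∑ n ∈ S \ T, max (b n - r) 0 =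
          ∑ n ∈ (S \ T).filter (fun n => r < b n), (b n - r) := by
        rw [Finset.sum_filter]
        apply Finset.sum_congr rfl
        intro n _
        split_ifs with h6
        · exact max_eq_left (by linarith)
        · exact max_eq_right (by push Not at h6; linarith)
      rw [h5, Finset.sum_sub_distrib, Finset.sum_sub_distrib] at hr
      linarith
  -- the pairing does not decrease
  have hpair : ∑ n ∈ S, p n * b n ≤ ∑ n ∈ S, p n * c n := by
    rcases T.eq_empty_or_nonempty with hTe | ⟨n1, hn1⟩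
    · -- no push
      rw [hTe, Finset.sum_empty, Finset.sdiff_empty] at hr
      apply Finset.sum_le_sum
      intro n hn
      apply le_of_eq
      congr 1
      have h1 : max (b n - r) 0 = 0 :=
        (Finset.sum_eq_zero_iff_of_nonneg (fun _ _ => le_max_right _ _)).mp hr.symm n hn
      have h2 : b n ≤ r := by
        have := le_max_left (b n - r) 0
        rw [h1] at this
        linarith
      rw [hc]
      simp only
      rw [if_neg (by rw [hTe]; simp), if_pos hn, min_eq_left h2]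
    · set t := p n1 with ht
      have htop : ∀ k, p k ≤ t := (Finset.mem_filter.mp hn1).2
      have hTt : ∀ n ∈ T, p n = t := fun n hn =>
        le_antisymm (htop n) ((Finset.mem_filter.mp hn).2 n1)
      rw [← Finset.sum_sdiff hTS, ← Finset.sum_sdiff hTS]
      have h1 : ∑ n ∈ T, p n * c n - ∑ n ∈ T, p n * b n = t * ∑ n ∈ T, (r - b n) := by
        rw [← Finset.sum_sub_distrib, Finset.mul_sum]
        apply Finset.sum_congr rfl
        intro n hn
        rw [hTt n hn, hc]
        simp only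
        rw [if_pos hn]
        ring
      have h2 : ∑ n ∈ S \ T, p n * b n - ∑ n ∈ S \ T, p n * c n ≤
          t * ∑ n ∈ S \ T, max (b n - r) 0 := by
        rw [← Finset.sum_sub_distrib, Finset.mul_sum]
        apply Finset.sum_le_sum
        intro n hn
        obtain ⟨hnS, hnT⟩ := Finset.mem_sdiff.mp hn
        rw [hc]
        simp only
        rw [if_neg hnT, if_pos hnS, min_eq]
        have h3 : p n * b n - p n * (b n - max (b n - r) 0) = p n * max (b n - r) 0 := by ring
        rw [h3]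
        exact mul_le_mul_of_nonneg_right (htop n) (le_max_right _ _)
      rw [← hr] at h2
      linarith
  -- the coordinates where `φ` does not vanish
  set S' := S.filter (fun n => p n ≠ 0) with hS'
  set h1 : X := ∑ n ∈ S', ((c n : ℝ) : 𝕜) • x n with hh1
  set h2 : X := ∑ n ∈ S', ((c n : ℝ) : 𝕜) • x (π n) with hh2
  have hxh1 : ∀ k, D.xs k h1 = if k ∈ S' then ((c k : ℝ) : 𝕜) else 0 := by
    intro k
    rw [hh1, coord_sum D.xs x hbi]
  have hh2' : h2 = ∑ n ∈ S'.map π.toEmbedding, ((c (π.symm n) : ℝ) : 𝕜) • x n := by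
    rw [hh2, Finset.sum_map]
    apply Finset.sum_congr rfl
    intro n _
    change _ = ((c (π.symm (π n)) : ℝ) : 𝕜) • x (π n)
    rw [Equiv.symm_apply_apply]
  have hmem : ∀ n, n ∈ S'.map π.toEmbedding ↔ π.symm n ∈ S' := by
    intro n
    rw [Finset.mem_map]
    constructor
    · rintro ⟨k, hk, hkn⟩
      have : π.symm n = k := by
        rw [← hkn]
        exact π.symm_apply_apply k
      rw [this]; exact hk
    · intro hk
      exact ⟨_, hk, π.apply_symm_apply n⟩
  have hxh2 : ∀ k, D.xs k h2 = if π.symm k ∈ S' then ((c (π.symm k) : ℝ) : 𝕜) else 0 := by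
    intro k
    rw [hh2', coord_sum D.xs x hbi]
    by_cases hk : π.symm k ∈ S'
    · rw [if_pos hk, if_pos ((hmem k).mpr hk)]
    · rw [if_neg hk, if_neg (fun h => hk ((hmem k).mp h))]
  have hle1 : nn D h1 ≤ nn D h' := by
    apply nn_lattice
    intro k
    rw [hxh1, hxh']
    split_ifs
    · rw [hcn]
    · rw [norm_zero]; exact hc0 k
  have heq : nn D h1 = nn D h2 := by
    apply nn_eq
    refine ⟨π, fun n => ?_, fun k hk ⟨n, hn⟩ => ?_⟩
    · change ‖D.xs (π n) h2‖ = ‖D.xs n h1‖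
      rw [hxh2, hxh1, Equiv.symm_apply_apply]
    · change 0 < ‖D.xs k h1‖ at hk
      change ‖D.xs k h1‖ < ‖D.xs n h1‖ at hn
      change π k = k ∧ D.xs k h2 = D.xs k h1
      have hkS' : k ∈ S' := by
        by_contra h3
        rw [hxh1, if_neg h3, norm_zero] at hk
        exact lt_irrefl _ hk
      have hkS := (Finset.mem_filter.mp hkS').1
      have hpk := (Finset.mem_filter.mp hkS').2
      have hkT : k ∉ T := by
        intro h3
        have h4 : ‖D.xs k h1‖ = r := by
          rw [hxh1, if_pos hkS', hcn, hc]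
          simp only
          rw [if_pos h3]
        rw [h4, hxh1] at hn
        split_ifs at hn
        · rw [hcn] at hn
          exact absurd (hcr n) (not_le.mpr hn)
        · rw [norm_zero] at hn
          linarith
      have hlt : ∃ j, p k < p j := by
        by_contra h3
        push Not at h3
        exact hkT (Finset.mem_filter.mpr ⟨hkS, h3⟩)
      have h5 := (hπ2 k (lt_of_le_of_ne (norm_nonneg _) (Ne.symm hpk)) hlt).1
      have h6 : π.symm k = k := by rw [Equiv.symm_apply_eq]; exact h5.symm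
      refine ⟨h5, ?_⟩
      rw [hxh2, hxh1, h6]
  -- the phases
  have hph : ∀ z : 𝕜, ∃ ε : 𝕜, ‖ε‖ = 1 ∧ ε * z = ((‖z‖ : ℝ) : 𝕜) := by
    intro z
    by_cases hz : z = 0
    · exact ⟨1, norm_one, by rw [hz]; simp⟩
    · have hz' : ‖z‖ ≠ 0 := norm_ne_zero_iff.mpr hz
      refine ⟨((‖z‖ : ℝ) : 𝕜) * z⁻¹, ?_, ?_⟩
      · rw [norm_mul, RCLike.norm_ofReal, abs_norm, norm_inv, mul_inv_cancel₀ hz']
      · rw [mul_assoc, inv_mul_cancel₀ hz, mul_one]
  choose ε hε1 hε2 using fun n => hph (φ' (x n))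
  set h3 : X := ∑ n ∈ S'.map π.toEmbedding, (ε n * ((c (π.symm n) : ℝ) : 𝕜)) • x n with hh3
  have hle3 : nn D h3 ≤ nn D h2 := by
    apply nn_lattice
    intro k
    rw [hh2', hh3, coord_sum D.xs x hbi, coord_sum D.xs x hbi]
    split_ifs
    · rw [norm_mul, hε1, one_mul]
    · exact le_refl _
  have hfin : nn D h3 ≤ 1 := by linarith
  have h4 := le_dn D φ' h3 hfin
  refine le_trans ?_ h4
  have h5 : φ' h3 = ((∑ n ∈ S', p n * c n : ℝ) : 𝕜) := by
    rw [hh3, map_sum, Finset.sum_map]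
    push_cast
    apply Finset.sum_congr rfl
    intro n _
    rw [map_smul, smul_eq_mul]
    change ε (π n) * ((c (π.symm (π n)) : ℝ) : 𝕜) * φ' (x (π n)) = _
    rw [Equiv.symm_apply_apply]
    have h6 := hε2 (π n)
    have h7 := hπ1 n
    simp only at h7
    rw [h7] at h6
    calc ε (π n) * ((c n : ℝ) : 𝕜) * φ' (x (π n)) = (ε (π n) * φ' (x (π n))) * ((c n : ℝ) : 𝕜) := by
          ring
      _ = _ := by rw [h6]
  have h6 : ∑ n ∈ S', p n * c n = ∑ n ∈ S, p n * c n := by
    rw [hS', Finset.sum_filter]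
    apply Finset.sum_congr rfl
    intro n _
    split_ifs with h7
    · rfl
    · push Not at h7
      rw [h7, zero_mul]
  rw [h5, RCLike.norm_ofReal, h6, abs_of_nonneg
    (Finset.sum_nonneg fun n _ => mul_nonneg (norm_nonneg _) (hc0 n))]
  refine le_trans ?_ hpair
  rw [hh, map_sum]
  refine (norm_sum_le _ _).trans (Finset.sum_le_sum fun n _ => ?_)
  rw [map_smul, smul_eq_mul, norm_mul, mul_comm]

/-- Property (A) of the dual norm -/
theorem dn_eq (φ φ' : StrongDual 𝕜 X)
    (hg : PA.GreedyRearr (fun n => φ (x n)) (fun n => φ' (x n))) : dn D φ = dn D φ' :=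
  le_antisymm (dn_mono D x hbi hexp φ φ' hg) (dn_mono D x hbi hexp φ' φ hg.symm)

end Pool.Agent.R267.GR
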