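import Pool.Agent.R267.PropA

set_option autoImplicit false

open Filter Topology

namespace Pool.Agent.R267.SW

open Pool.Agent.R267

variable {𝕜 : Type} [RCLike 𝕜]

/-- a permutation exchanging two disjoint finite sets of the same cardinality -/
lemma exists_swap (A B : Finset ℕ) (hc : A.card = B.card) (hd : Disjoint A B) :
    ∃ π : Equiv.Perm ℕ, (∀ n ∈ A, π n ∈ B) ∧ (∀ n ∈ B, π n ∈ A) ∧
      ∀ n, n ∉ A → n ∉ B → π n = n := by
  classical
  set e : A ≃ B := Finset.equivOfCardEq hc with he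
  set f : ℕ → ℕ := fun n => if h : n ∈ A then (e ⟨n, h⟩ : ℕ) else
    if h : n ∈ B then (e.symm ⟨n, h⟩ : ℕ) else n with hf
  have hfA : ∀ n (h : n ∈ A), f n = (e ⟨n, h⟩ : ℕ) := fun n h => by rw [hf]; simp only [dif_pos h]
  have hAB : ∀ n, n ∈ B → n ∉ A := fun n hB hA => (Finset.disjoint_left.mp hd hA) hB
  have hfB : ∀ n (h : n ∈ B), f n = (e.symm ⟨n, h⟩ : ℕ) := fun n h => by
    rw [hf]; simp only [dif_neg (hAB n h), dif_pos h]
  have hfo : ∀ n, n ∉ A → n ∉ B → f n = n := fun n h h' => by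
    rw [hf]; simp only [dif_neg h, dif_neg h']
  have hinv : Function.Involutive f := by
    intro n
    by_cases h : n ∈ A
    · rw [hfA n h, hfB _ (e ⟨n, h⟩).2, Subtype.coe_eta, Equiv.symm_apply_apply]
    · by_cases h' : n ∈ B
      · rw [hfB n h', hfA _ (e.symm ⟨n, h'⟩).2, Subtype.coe_eta, Equiv.apply_symm_apply]
      · rw [hfo n h h', hfo n h h']
  refine ⟨hinv.toPerm, fun n h => ?_, fun n h => ?_, fun n h h' => hfo n h h'⟩
  · change f n ∈ B
    rw [hfA n h]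
    exact (e ⟨n, h⟩).2
  · change f n ∈ A
    rw [hfB n h]
    exact (e.symm ⟨n, h⟩).2

lemma greedyRearr_of_swap (a b : ℕ → 𝕜) (A B : Finset ℕ) (hc : A.card = B.card)
    (hd : Disjoint A B) (h1 : ∀ n, ‖a n‖ ≤ 1) (ha : ∀ n ∈ A, ‖a n‖ = 1) (hb : ∀ n ∈ B, ‖b n‖ = 1)
    (ha0 : ∀ n ∈ B, a n = 0) (hb0 : ∀ n ∈ A, b n = 0)
    (hab : ∀ n, n ∉ A → n ∉ B → b n = a n) : PA.GreedyRearr a b := by
  obtain ⟨π, hA, hB, ho⟩ := exists_swap A B hc hd
  refine ⟨π, fun n => ?_, fun k hk ⟨n, hn⟩ => ?_⟩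
  · by_cases h : n ∈ A
    · rw [hb _ (hA n h), ha n h]
    · by_cases h' : n ∈ B
      · rw [hb0 _ (hB n h'), ha0 n h']
      · rw [ho n h h', hab n h h']
  · have hkA : k ∉ A := by
      intro h
      rw [ha k h] at hn
      exact absurd (h1 n) (not_le.mpr hn)
    have hkB : k ∉ B := by
      intro h
      rw [ha0 k h, norm_zero] at hk
      exact absurd hk (lt_irrefl _)
    exact ⟨ho k hkA hkB, hab k hkA hkB⟩

end Pool.Agent.R267.SW
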