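import Pool.Agent.R267.PropA
import Pool.Agent.R267.SwapPerm

set_option autoImplicit false

open Filter Topology

/-! Isometrically greedy renormings. -/

namespace Pool.Agent.R267.GR

open Pool.Agent.R267

/-- the part of `g` over the level `c` -/
noncomputable def chop (B : Finset ℕ) (g : ℕ → ℝ) (c : ℝ) : ℝ := ∑ n ∈ B, max (g n - c) 0

lemma continuous_chop (B : Finset ℕ) (g : ℕ → ℝ) : Continuous (chop B g) := by
  unfold chop
  fun_prop

lemma min_eq (x c : ℝ) : min x c = x - max (x - c) 0 := by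
  rcases le_total x c with h | h
  · rw [min_eq_left h, max_eq_right (by linarith), sub_zero]
  · rw [min_eq_right h, max_eq_left (by linarith)]; ring

variable {𝕜 : Type} [RCLike 𝕜] {X : Type} [NormedAddCommGroup X] [NormedSpace 𝕜 X]

/-- the data of the renorming -/
structure Data (𝕜 : Type) [RCLike 𝕜] (X : Type) [NormedAddCommGroup X] [NormedSpace 𝕜 X] where
  xs : ℕ → X →ₗ[𝕜] 𝕜
  G : Set (Finset ℕ × (ℕ → ℝ))
  ψ : ℕ → ℝ
  C1 : ℝ
  C2 : ℝ
  C3 : ℝ
  ψ_zero : ψ 0 = 0
  ψ_mono : ∀ m, ψ m ≤ ψ (m + 1)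
  ψ_conc : ∀ m, ψ (m + 2) - ψ (m + 1) ≤ ψ (m + 1) - ψ m
  C1_nonneg : 0 ≤ C1
  C2_pos : 0 < C2
  C3_nonneg : 0 ≤ C3
  nonneg : ∀ B g, (B, g) ∈ G → ∀ n, 0 ≤ g n
  bdd : ∀ B g, (B, g) ∈ G → ∀ f : X, ∑ n ∈ B, g n * ‖xs n f‖ ≤ C1 * ‖f‖
  norming : ∀ f : X, ∃ B g, (B, g) ∈ G ∧ ‖f‖ ≤ C2 * ∑ n ∈ B, g n * ‖xs n f‖
  dem : ∀ B g, (B, g) ∈ G → ∀ F : Finset ℕ, F ⊆ B → ∑ n ∈ F, g n ≤ ψ F.card / 2
  first : ∀ (A : Finset ℕ) (f : X), ψ A.card / A.card * ∑ n ∈ A, ‖xs n f‖ ≤ C3 * ‖f‖
  fin : ∀ (f : X) (ε : ℝ), 0 < ε → {n | ε ≤ ‖xs n f‖}.Finite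

variable (D : Data 𝕜 X)

/-- increments -/
noncomputable def Data.d (m : ℕ) : ℝ := D.ψ (m + 1) - D.ψ m

/-- averages -/
noncomputable def Data.u (m : ℕ) : ℝ := D.ψ m / m

lemma d_nonneg (m : ℕ) : 0 ≤ D.d m := by
  have := D.ψ_mono m
  unfold Data.d; linarith

lemma ψ_nonneg (m : ℕ) : 0 ≤ D.ψ m := by
  induction m with
  | zero => rw [D.ψ_zero]
  | succ k ih => exact ih.trans (D.ψ_mono k)

lemma u_nonneg (m : ℕ) : 0 ≤ D.u m := by
  unfold Data.u
  exact div_nonneg (ψ_nonneg D m) (Nat.cast_nonneg m)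

lemma ψ_monotone : Monotone D.ψ := monotone_nat_of_le_succ D.ψ_mono

lemma d_antitone : Antitone D.d := antitone_nat_of_succ_le (fun m => D.ψ_conc m)

lemma ψ_le_line (m N : ℕ) : D.ψ N ≤ D.ψ m + N * D.d m := by
  rcases le_total N m with h | h
  · have h1 := ψ_monotone D h
    have h2 := d_nonneg D m
    have h3 : (0 : ℝ) ≤ N := Nat.cast_nonneg N
    nlinarith
  · obtain ⟨k, rfl⟩ := Nat.exists_eq_add_of_le h
    have h1 : ∀ k : ℕ, D.ψ (m + k) ≤ D.ψ m + k * D.d m := by
      intro k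
      induction k with
      | zero => simp
      | succ j ih =>
        have h2 : D.ψ (m + (j + 1)) = D.ψ (m + j) + D.d (m + j) := by
          unfold Data.d
          rw [← add_assoc]; ring
        have h3 := d_antitone D (Nat.le_add_right m j)
        rw [h2]
        push_cast
        linarith
    refine (h1 k).trans ?_
    have h2 := d_nonneg D m
    push_cast
    have h3 : (0 : ℝ) ≤ m := Nat.cast_nonneg m
    nlinarith

lemma mul_u (m : ℕ) : (m : ℝ) * D.u m = D.ψ m := by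
  unfold Data.u
  rcases Nat.eq_zero_or_pos m with rfl | h
  · simp [D.ψ_zero]
  · have : (m : ℝ) ≠ 0 := by exact_mod_cast h.ne'
    field_simp

/-- concavity: `m d_m ≤ ψ m` -/
lemma mul_d_le (m : ℕ) : (m : ℝ) * D.d m ≤ D.ψ m := by
  induction m with
  | zero => simp [D.ψ_zero]
  | succ k ih =>
    have h1 := d_antitone D (Nat.le_succ k)
    have h2 : D.ψ (k + 1) = D.ψ k + D.d k := by unfold Data.d; ring
    rw [h2]
    push_cast
    have h3 : (0 : ℝ) ≤ k := Nat.cast_nonneg k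
    have h4 : D.d (k + 1) ≤ D.d k := h1
    nlinarith

lemma u_anti (m : ℕ) (hm : 0 < m) : D.u (m + 1) ≤ D.u m := by
  unfold Data.u
  have h1 : (0 : ℝ) < m := by exact_mod_cast hm
  rw [div_le_div_iff₀ (by positivity) h1]
  have h2 := mul_d_le D m
  have h3 : D.ψ (m + 1) = D.ψ m + D.d m := by unfold Data.d; ring
  rw [h3]
  push_cast
  nlinarith

/-- the gain in the first term -/
lemma gain (m : ℕ) (S t : ℝ) (hS0 : 0 ≤ S) (hS : S ≤ m * t) :
    D.u m * S + D.d m * t ≤ D.u (m + 1) * (S + t) := by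
  have h1 := mul_u D m
  have h2 := mul_u D (m + 1)
  have h3 : D.ψ (m + 1) = D.ψ m + D.d m := by unfold Data.d; ring
  rcases Nat.eq_zero_or_pos m with rfl | hm
  · have : S = 0 := le_antisymm (by simpa using hS) hS0
    subst this
    have h4 : D.u (0 + 1) = D.d 0 := by
      unfold Data.u Data.d
      rw [D.ψ_zero]
      simp
    rw [h4]
    simp
  · have hle := u_anti D m hm
    have h4 : D.d m = ((m : ℝ) + 1) * D.u (m + 1) - m * D.u m := by
      push_cast at h2
      linarith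
    rw [h4]
    nlinarith [mul_le_mul_of_nonneg_left hS (sub_nonneg.mpr hle)]

/-- the main estimate of the truncation -/
lemma chop_le (B : Finset ℕ) (g : ℕ → ℝ) (h : (B, g) ∈ D.G) (m : ℕ) :
    chop B g (D.d m / 2) ≤ D.ψ m / 2 := by
  classical
  set F := B.filter (fun n => D.d m / 2 < g n) with hF
  have h1 : chop B g (D.d m / 2) = ∑ n ∈ F, (g n - D.d m / 2) := by
    unfold chop
    rw [hF, Finset.sum_filter]
    apply Finset.sum_congr rfl
    intro n _
    split_ifs with hn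
    · exact max_eq_left (by linarith)
    · exact max_eq_right (by push Not at hn; linarith)
  rw [h1, Finset.sum_sub_distrib, Finset.sum_const, nsmul_eq_mul]
  have h2 := D.dem B g h F (Finset.filter_subset _ _)
  have h3 := ψ_le_line D m F.card
  linarith

/-- admissible levels -/
def Adm (m : ℕ) (B : Finset ℕ) (g : ℕ → ℝ) (c : ℝ) : Prop :=
  (B, g) ∈ D.G ∧ 0 ≤ c ∧ 2 * c ≤ D.d m ∧ (c = 0 ∨ D.ψ m / 2 ≤ chop B g c)

lemma adm_zero (B : Finset ℕ) (g : ℕ → ℝ) (h : (B, g) ∈ D.G) : Adm D 0 B g (D.d 0 / 2) := by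
  refine ⟨h, by have := d_nonneg D 0; linarith, by linarith, Or.inr ?_⟩
  rw [D.ψ_zero, zero_div]
  unfold chop
  exact Finset.sum_nonneg fun _ _ => le_max_right _ _

/-- the next level -/
lemma adm_succ (m : ℕ) (B : Finset ℕ) (g : ℕ → ℝ) (c : ℝ) (h : Adm D m B g c) :
    ∃ c', Adm D (m + 1) B g c' ∧ chop B g c' - chop B g c ≤ D.d m / 2 := by
  obtain ⟨hG, hc0, hcd, hcase⟩ := h
  have hd0 := d_nonneg D m
  have hd1 := d_nonneg D (m + 1)
  rcases hcase with h0 | h0
  · subst h0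
    refine ⟨0, ⟨hG, le_refl _, by linarith, Or.inl rfl⟩, by linarith⟩
  · by_cases hz : chop B g 0 ≤ D.ψ (m + 1) / 2
    · refine ⟨0, ⟨hG, le_refl _, by linarith, Or.inl rfl⟩, ?_⟩
      unfold Data.d
      linarith
    · push Not at hz
      have h1 := chop_le D B g hG (m + 1)
      have h2 : D.ψ (m + 1) / 2 ∈ chop B g '' Set.Icc 0 (D.d (m + 1) / 2) :=
        intermediate_value_Icc' (by linarith) (continuous_chop B g).continuousOn ⟨h1, hz.le⟩
      obtain ⟨c', ⟨hc'0, hc'1⟩, hc'⟩ := h2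
      refine ⟨c', ⟨hG, hc'0, by linarith, Or.inr hc'.ge⟩, ?_⟩
      rw [hc']
      unfold Data.d
      linarith

/-- the value of a quadruple -/
noncomputable def val (A : Finset ℕ) (B : Finset ℕ) (g : ℕ → ℝ) (c : ℝ) (f : X) : ℝ :=
  D.u A.card * ∑ n ∈ A, ‖D.xs n f‖ + ∑ n ∈ B \ A, min (g n) c * ‖D.xs n f‖

lemma val_le (A B : Finset ℕ) (g : ℕ → ℝ) (c : ℝ) (h : Adm D A.card B g c) (f : X) :
    val D A B g c f ≤ (D.C3 + D.C1) * ‖f‖ := by
  unfold val
  have h1 := D.first A f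
  have h2 : ∑ n ∈ B \ A, min (g n) c * ‖D.xs n f‖ ≤ D.C1 * ‖f‖ := by
    refine le_trans ?_ (D.bdd B g h.1 f)
    refine (Finset.sum_le_sum (fun n _ => mul_le_mul_of_nonneg_right (min_le_left _ _)
      (norm_nonneg _))).trans ?_
    exact Finset.sum_le_sum_of_subset_of_nonneg Finset.sdiff_subset
      (fun n _ _ => mul_nonneg (D.nonneg B g h.1 n) (norm_nonneg _))
  have h3 : D.u A.card * ∑ n ∈ A, ‖D.xs n f‖ ≤ D.C3 * ‖f‖ := h1
  linarith

/-- index type of the supremum -/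
abbrev Ix : Type :=
  {p : Finset ℕ × Finset ℕ × (ℕ → ℝ) × ℝ // Adm D p.1.card p.2.1 p.2.2.1 p.2.2.2}

instance : Nonempty (Ix D) := by
  obtain ⟨B, g, h, _⟩ := D.norming 0
  exact ⟨⟨(∅, B, g, D.d 0 / 2), adm_zero D B g h⟩⟩

/-- the value at an index -/
noncomputable def vl (i : Ix D) (f : X) : ℝ := val D i.1.1 i.1.2.1 i.1.2.2.1 i.1.2.2.2 f

lemma bddAbove (f : X) : BddAbove (Set.range (fun i : Ix D => vl D i f)) :=
  ⟨_, by rintro _ ⟨i, rfl⟩; exact val_le D _ _ _ _ i.2 f⟩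

lemma min_nonneg' {B : Finset ℕ} {g : ℕ → ℝ} {c : ℝ} {m : ℕ} (h : Adm D m B g c) (n : ℕ) :
    0 ≤ min (g n) c := le_min (D.nonneg B g h.1 n) h.2.1

/-- monotonicity of the values -/
lemma val_mono (A B : Finset ℕ) (g : ℕ → ℝ) (c : ℝ) (h : Adm D A.card B g c) (f f' : X)
    (hff : ∀ n, ‖D.xs n f‖ ≤ ‖D.xs n f'‖) : val D A B g c f ≤ val D A B g c f' := by
  unfold val
  have h1 := mul_le_mul_of_nonneg_left (Finset.sum_le_sum (fun n (_ : n ∈ A) => hff n))
    (u_nonneg D A.card)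
  have h2 : ∑ n ∈ B \ A, min (g n) c * ‖D.xs n f‖ ≤ ∑ n ∈ B \ A, min (g n) c * ‖D.xs n f'‖ :=
    Finset.sum_le_sum (fun n _ => mul_le_mul_of_nonneg_left (hff n) (min_nonneg' D h n))
  linarith

lemma vl_add (i : Ix D) (f f' : X) : vl D i (f + f') ≤ vl D i f + vl D i f' := by
  unfold vl val
  have h1 : ∑ n ∈ i.1.1, ‖D.xs n (f + f')‖ ≤ ∑ n ∈ i.1.1, ‖D.xs n f‖ + ∑ n ∈ i.1.1, ‖D.xs n f'‖ := by
    rw [← Finset.sum_add_distrib]
    apply Finset.sum_le_sum
    intro n _
    rw [map_add]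
    exact norm_add_le _ _
  have h2 : ∑ n ∈ i.1.2.1 \ i.1.1, min (i.1.2.2.1 n) i.1.2.2.2 * ‖D.xs n (f + f')‖ ≤
      ∑ n ∈ i.1.2.1 \ i.1.1, min (i.1.2.2.1 n) i.1.2.2.2 * ‖D.xs n f‖ +
      ∑ n ∈ i.1.2.1 \ i.1.1, min (i.1.2.2.1 n) i.1.2.2.2 * ‖D.xs n f'‖ := by
    rw [← Finset.sum_add_distrib]
    apply Finset.sum_le_sum
    intro n _
    rw [map_add, ← mul_add]
    exact mul_le_mul_of_nonneg_left (norm_add_le _ _) (min_nonneg' D i.2 n)
  have h3 := mul_le_mul_of_nonneg_left h1 (u_nonneg D i.1.1.card)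
  linarith

lemma vl_smul (i : Ix D) (r : 𝕜) (f : X) : vl D i (r • f) = ‖r‖ * vl D i f := by
  unfold vl val
  have h1 : ∑ n ∈ i.1.1, ‖D.xs n (r • f)‖ = ‖r‖ * ∑ n ∈ i.1.1, ‖D.xs n f‖ := by
    rw [Finset.mul_sum]
    apply Finset.sum_congr rfl
    intro n _
    rw [map_smul, norm_smul]
  have h2 : ∑ n ∈ i.1.2.1 \ i.1.1, min (i.1.2.2.1 n) i.1.2.2.2 * ‖D.xs n (r • f)‖ =
      ‖r‖ * ∑ n ∈ i.1.2.1 \ i.1.1, min (i.1.2.2.1 n) i.1.2.2.2 * ‖D.xs n f‖ := by
    rw [Finset.mul_sum]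
    apply Finset.sum_congr rfl
    intro n _
    rw [map_smul, norm_smul]; ring
  rw [h1, h2]
  ring

/-- the new norm -/
noncomputable def nn : Seminorm 𝕜 X :=
  Seminorm.of (fun f => ⨆ i : Ix D, vl D i f)
    (fun f f' => by
      apply ciSup_le
      intro i
      exact (vl_add D i f f').trans (add_le_add (le_ciSup (bddAbove D f) i)
        (le_ciSup (bddAbove D f') i)))
    (fun r f => by
      simp only [vl_smul]
      rw [Real.mul_iSup_of_nonneg (norm_nonneg r)])

lemma nn_apply (f : X) : nn D f = ⨆ i : Ix D, vl D i f := rfl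

lemma le_nn (A B : Finset ℕ) (g : ℕ → ℝ) (c : ℝ) (h : Adm D A.card B g c) (f : X) :
    val D A B g c f ≤ nn D f := by
  rw [nn_apply]
  exact le_ciSup (bddAbove D f) ⟨(A, B, g, c), h⟩

lemma nn_le (f : X) (C : ℝ) (hC : ∀ A B g c, Adm D A.card B g c → val D A B g c f ≤ C) :
    nn D f ≤ C := by
  rw [nn_apply]
  exact ciSup_le fun i => hC _ _ _ _ i.2

lemma nn_upper (f : X) : nn D f ≤ (D.C3 + D.C1) * ‖f‖ :=
  nn_le D f _ fun A B g c h => val_le D A B g c h f

lemma nn_lower (f : X) : D.C2⁻¹ * ‖f‖ ≤ nn D f := by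
  obtain ⟨B, g, h, hf⟩ := D.norming f
  refine le_trans ?_ (le_nn D ∅ B g (D.d 0 / 2) (adm_zero D B g h) f)
  unfold val
  rw [Finset.sum_empty, mul_zero, zero_add, Finset.sdiff_empty, inv_mul_le_iff₀ D.C2_pos]
  refine hf.trans (le_of_eq ?_)
  congr 1
  apply Finset.sum_congr rfl
  intro n hn
  rw [min_eq_left]
  have h1 := D.dem B g h {n} (Finset.singleton_subset_iff.mpr hn)
  rw [Finset.sum_singleton, Finset.card_singleton] at h1
  unfold Data.d
  rw [D.ψ_zero]
  simpa using h1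

/-- lattice property -/
lemma nn_lattice (f f' : X) (hff : ∀ n, ‖D.xs n f‖ ≤ ‖D.xs n f'‖) : nn D f ≤ nn D f' :=
  nn_le D f _ fun A B g c h => (val_mono D A B g c h f f' hff).trans (le_nn D A B g c h f')

/-- adding a coordinate of maximal modulus -/
lemma add_one (A B : Finset ℕ) (g : ℕ → ℝ) (c : ℝ) (h : Adm D A.card B g c) (f : X) (t : ℝ)
    (ht : ∀ n, ‖D.xs n f‖ ≤ t) (n0 : ℕ) (hn0 : n0 ∉ A) (hn0t : ‖D.xs n0 f‖ = t) :
    ∃ c', Adm D (insert n0 A).card B g c' ∧ val D A B g c f ≤ val D (insert n0 A) B g c' f := by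
  classical
  have ht0 : 0 ≤ t := by rw [← hn0t]; exact norm_nonneg _
  set m := A.card with hm
  have hcard : (insert n0 A).card = m + 1 := Finset.card_insert_of_notMem hn0
  obtain ⟨c', hadm', hloss⟩ := adm_succ D m B g c h
  refine ⟨c', by rw [hcard]; exact hadm', ?_⟩
  unfold val
  rw [hcard, Finset.sum_insert hn0, hn0t, ← hm]
  have hS : ∑ n ∈ A, ‖D.xs n f‖ ≤ m * t := by
    refine (Finset.sum_le_sum fun n _ => ht n).trans ?_
    rw [Finset.sum_const, nsmul_eq_mul]
  have hg := gain D m (∑ n ∈ A, ‖D.xs n f‖) t (Finset.sum_nonneg fun _ _ => norm_nonneg _) hS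
  -- the comparison of the second terms
  have hcd : c ≤ D.d m / 2 := by have := h.2.2.1; linarith
  have h1 : ∑ n ∈ B \ A, min (g n) c * ‖D.xs n f‖ ≤
      ∑ n ∈ B \ insert n0 A, min (g n) c' * ‖D.xs n f‖ + D.d m * t := by
    have h2 : ∑ n ∈ B \ A, min (g n) c * ‖D.xs n f‖ ≤
        ∑ n ∈ B \ insert n0 A, min (g n) c * ‖D.xs n f‖ + c * t := by
      by_cases hB : n0 ∈ B
      · have h4 : B \ A = insert n0 (B \ insert n0 A) := by
          ext n
          simp only [Finset.mem_sdiff, Finset.mem_insert]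
          constructor
          · rintro ⟨h5, h6⟩
            by_cases h7 : n = n0
            · exact Or.inl h7
            · exact Or.inr ⟨h5, by rintro (h8 | h8); exacts [h7 h8, h6 h8]⟩
          · rintro (h5 | ⟨h5, h6⟩)
            · rw [h5]; exact ⟨hB, hn0⟩
            · exact ⟨h5, fun h7 => h6 (Or.inr h7)⟩
        rw [h4, Finset.sum_insert (by simp), hn0t, add_comm]
        have := mul_le_mul_of_nonneg_right (min_le_right (g n0) c) ht0
        linarith
      · have h4 : B \ A = B \ insert n0 A := by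
          ext n
          simp only [Finset.mem_sdiff, Finset.mem_insert]
          constructor
          · rintro ⟨h5, h6⟩
            refine ⟨h5, ?_⟩
            rintro (h7 | h7)
            · rw [h7] at h5; exact hB h5
            · exact h6 h7
          · rintro ⟨h5, h6⟩
            exact ⟨h5, fun h7 => h6 (Or.inr h7)⟩
        rw [h4]
        have := mul_nonneg h.2.1 ht0
        linarith
    have h3 : ∑ n ∈ B \ insert n0 A, min (g n) c * ‖D.xs n f‖ ≤
        ∑ n ∈ B \ insert n0 A, min (g n) c' * ‖D.xs n f‖ + D.d m / 2 * t := by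
      rcases le_total c c' with hcc | hcc
      · have h5 : ∑ n ∈ B \ insert n0 A, min (g n) c * ‖D.xs n f‖ ≤
            ∑ n ∈ B \ insert n0 A, min (g n) c' * ‖D.xs n f‖ :=
          Finset.sum_le_sum fun n _ => mul_le_mul_of_nonneg_right
            (min_le_min_left _ hcc) (norm_nonneg _)
        have h6 := mul_nonneg (d_nonneg D m) ht0
        linarith
      · have h5 : ∑ n ∈ B \ insert n0 A, min (g n) c * ‖D.xs n f‖ -
            ∑ n ∈ B \ insert n0 A, min (g n) c' * ‖D.xs n f‖ ≤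
            ∑ n ∈ B, (min (g n) c - min (g n) c') * t := by
          rw [← Finset.sum_sub_distrib]
          refine le_trans ?_ (Finset.sum_le_sum_of_subset_of_nonneg
            (Finset.sdiff_subset : B \ insert n0 A ⊆ B) (fun n _ _ =>
              mul_nonneg (sub_nonneg.mpr (min_le_min_left _ hcc)) ht0))
          apply Finset.sum_le_sum
          intro n _
          rw [← sub_mul]
          exact mul_le_mul_of_nonneg_left (ht n) (sub_nonneg.mpr (min_le_min_left _ hcc))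
        have h6 : ∑ n ∈ B, (min (g n) c - min (g n) c') * t = (chop B g c' - chop B g c) * t := by
          rw [← Finset.sum_mul]
          congr 1
          unfold chop
          rw [← Finset.sum_sub_distrib]
          apply Finset.sum_congr rfl
          intro n _
          rw [min_eq, min_eq]
          ring
        have h7 := mul_le_mul_of_nonneg_right hloss ht0
        linarith
    have h8 := mul_le_mul_of_nonneg_right hcd ht0
    linarith
  linarith [add_comm t (∑ n ∈ A, ‖D.xs n f‖)]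

/-- adding all the coordinates of maximal modulus of a finite set -/
lemma add_all (f : X) (t : ℝ) (ht : ∀ n, ‖D.xs n f‖ ≤ t) (M : Finset ℕ)
    (hM : ∀ n ∈ M, ‖D.xs n f‖ = t) (A B : Finset ℕ) (g : ℕ → ℝ) (c : ℝ)
    (h : Adm D A.card B g c) :
    ∃ A' c', M ⊆ A' ∧ Adm D A'.card B g c' ∧ val D A B g c f ≤ val D A' B g c' f := by
  classical
  induction M using Finset.induction_on with
  | empty => exact ⟨A, c, Finset.empty_subset _, h, le_refl _⟩
  | insert n0 M hn0 ih =>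
    obtain ⟨A', c', hMA, hadm, hle⟩ := ih (fun n hn => hM n (Finset.mem_insert_of_mem hn))
    by_cases hn : n0 ∈ A'
    · refine ⟨A', c', ?_, hadm, hle⟩
      intro n hn'
      rcases Finset.mem_insert.mp hn' with h1 | h1
      · rw [h1]; exact hn
      · exact hMA h1
    · obtain ⟨c'', hadm', hle'⟩ := add_one D A' B g c' hadm f t ht n0 hn
        (hM n0 (Finset.mem_insert_self _ _))
      exact ⟨insert n0 A', c'', Finset.insert_subset_insert _ hMA, hadm', hle.trans hle'⟩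

lemma bdd_coord (f : X) : ∃ t : ℝ, (∀ n, ‖D.xs n f‖ ≤ t) ∧
    (t = 0 ∨ (0 < t ∧ {n | ‖D.xs n f‖ = t}.Finite ∧ ∃ n, ‖D.xs n f‖ = t)) := by
  by_cases hz : ∀ n, D.xs n f = 0
  · exact ⟨0, fun n => by rw [hz n, norm_zero], Or.inl rfl⟩
  · push Not at hz
    obtain ⟨n1, hn1⟩ := hz
    have hε : 0 < ‖D.xs n1 f‖ := norm_pos_iff.mpr hn1
    have hF := D.fin f _ hε
    obtain ⟨n2, hn2, hmax⟩ := hF.toFinset.exists_max_image (fun n => ‖D.xs n f‖)
      ⟨n1, by rw [Set.Finite.mem_toFinset]; exact le_refl ‖D.xs n1 f‖⟩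
    rw [Set.Finite.mem_toFinset] at hn2
    have hn2' : ‖D.xs n1 f‖ ≤ ‖D.xs n2 f‖ := hn2
    have hle : ∀ n, ‖D.xs n f‖ ≤ ‖D.xs n2 f‖ := by
      intro n
      by_cases h : ‖D.xs n1 f‖ ≤ ‖D.xs n f‖
      · exact hmax n (by rw [Set.Finite.mem_toFinset]; exact h)
      · push Not at h
        linarith
    refine ⟨‖D.xs n2 f‖, hle, Or.inr ⟨hε.trans_le hn2', ?_, n2, rfl⟩⟩
    refine (D.fin f ‖D.xs n2 f‖ (hε.trans_le hn2')).subset ?_
    intro n hn
    exact (Eq.symm hn).le

lemma nn_mono (f f' : X) (h : PA.GreedyRearr (fun n => D.xs n f) (fun n => D.xs n f')) :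
    nn D f ≤ nn D f' := by
  classical
  obtain ⟨π, h1, h2⟩ := h
  obtain ⟨t, ht, hcase⟩ := bdd_coord D f
  rcases hcase with h0 | ⟨htpos, hfin, hex⟩
  · subst h0
    apply nn_lattice
    intro n
    rw [le_antisymm (ht n) (norm_nonneg _)]
    exact norm_nonneg _
  · apply nn_le
    intro A B g c hadm
    obtain ⟨A', c', hMA, hadm', hle⟩ := add_all D f t ht hfin.toFinset
      (fun n hn => by rw [Set.Finite.mem_toFinset] at hn; exact hn) A B g c hadm
    refine hle.trans (le_trans (le_of_eq ?_) (le_nn D (A'.map π.toEmbedding) B g c'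
      (by rw [Finset.card_map]; exact hadm') f'))
    unfold val
    rw [Finset.card_map, Finset.sum_map]
    have h3 : ∑ n ∈ A', ‖D.xs n f‖ = ∑ n ∈ A', ‖D.xs (π.toEmbedding n) f'‖ := by
      apply Finset.sum_congr rfl
      intro n _
      exact (h1 n).symm
    have h4 : ∀ n, n ∉ A' → D.xs n f ≠ 0 → π n = n ∧ D.xs n f' = D.xs n f := by
      intro n hn hne
      apply h2 n (norm_pos_iff.mpr hne)
      obtain ⟨n1, hn1⟩ := hex
      refine ⟨n1, ?_⟩
      change ‖D.xs n f‖ < ‖D.xs n1 f‖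
      rw [hn1]
      refine lt_of_le_of_ne (ht n) ?_
      intro h5
      exact hn (hMA (by rw [Set.Finite.mem_toFinset]; exact h5))
    have h5 : ∑ n ∈ B \ A', min (g n) c' * ‖D.xs n f‖ =
        ∑ n ∈ B \ A'.map π.toEmbedding, min (g n) c' * ‖D.xs n f'‖ := by
      rw [Finset.sdiff_eq_filter, Finset.sdiff_eq_filter, Finset.sum_filter, Finset.sum_filter]
      apply Finset.sum_congr rfl
      intro n _
      have hmem : n ∈ A'.map π.toEmbedding ↔ π.symm n ∈ A' := by
        rw [Finset.mem_map]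
        constructor
        · rintro ⟨k, hk, hkn⟩
          have : π.symm n = k := by
            rw [← hkn]
            exact π.symm_apply_apply k
          rw [this]; exact hk
        · intro hk
          exact ⟨_, hk, π.apply_symm_apply n⟩
      by_cases hn : n ∉ A' ∧ D.xs n f ≠ 0
      · obtain ⟨h6, h7⟩ := h4 n hn.1 hn.2
        have h8 : π.symm n = n := by rw [Equiv.symm_apply_eq]; exact h6.symm
        rw [if_pos hn.1, if_pos (by rw [hmem, h8]; exact hn.1), h7]
      · have hL : (if n ∉ A' then min (g n) c' * ‖D.xs n f‖ else 0) = 0 := by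
          by_cases h9 : n ∉ A'
          · have : D.xs n f = 0 := by
              by_contra h10
              exact hn ⟨h9, h10⟩
            rw [if_pos h9, this, norm_zero, mul_zero]
          · rw [if_neg h9]
        rw [hL]
        symm
        by_cases h9 : n ∉ A'.map π.toEmbedding
        · rw [if_pos h9]
          rw [hmem] at h9
          by_cases h10 : D.xs (π.symm n) f = 0
          · have h11 := h1 (π.symm n)
            rw [Equiv.apply_symm_apply] at h11
            have h12 : ‖D.xs n f'‖ = 0 := by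
              rw [h11]
              change ‖D.xs (π.symm n) f‖ = 0
              rw [h10, norm_zero]
            rw [h12, mul_zero]
          · exfalso
            obtain ⟨h11, h12⟩ := h4 _ h9 h10
            rw [Equiv.apply_symm_apply] at h11
            rw [← h11] at h9 h10
            exact hn ⟨h9, h10⟩
        · rw [if_neg h9]
    rw [h3, h5]

/-- Property (A) of the new norm -/
theorem nn_eq (f f' : X) (h : PA.GreedyRearr (fun n => D.xs n f) (fun n => D.xs n f')) :
    nn D f = nn D f' :=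
  le_antisymm (nn_mono D f f' h) (nn_mono D f' f h.symm)

end Pool.Agent.R267.GR
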