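import Pool.Agent.R267.GreedyDual
import Pool.Agent.R221.HG.Fin

set_option autoImplicit false

/-! The Haar system of `L_p` and the isometrically greedy renorming. -/

open MeasureTheory Finset Filter Topology Pool.Agent.H66R3.PG
open scoped ENNReal NNReal

namespace Pool.Agent.R267.HD

open Pool.Agent.R221.HG

variable {𝕜 : Type} [RCLike 𝕜]

/-- unconditionality -/
theorem unc {p : ℝ} (hp : 1 < p) [Fact (1 ≤ ENNReal.ofReal p)] : ∃ C : ℝ, 0 < C ∧
    ∀ f f' : Lp 𝕜 (ENNReal.ofReal p) mu, (∀ j, ‖coef p j f‖ ≤ ‖coef p j f'‖) →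
      ‖f‖ ≤ C * ‖f'‖ := by
  obtain ⟨C, hC⟩ := equiv_all (𝕜 := 𝕜) hp
  obtain ⟨D, hM⟩ := latNorm hp
  refine ⟨2 * C + 1, by positivity, fun f f' h => ?_⟩
  have h1 : MM p (ab p f) ≤ MM p (ab p f') := hM.mono _ _ fun j => by
    simp only [ab]
    exact_mod_cast h j
  have h2 : ENNReal.ofReal ‖f‖ ≤ 2 * (C * ENNReal.ofReal ‖f'‖) :=
    (hC f).2.trans (by gcongr; exact h1.trans (hC f').1)
  have h3 := ENNReal.toReal_mono
    (ENNReal.mul_ne_top (by simp) (ENNReal.mul_ne_top (by simp) ENNReal.ofReal_ne_top)) h2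
  rw [ENNReal.toReal_ofReal (norm_nonneg _), ENNReal.toReal_mul, ENNReal.toReal_mul,
    ENNReal.toReal_ofReal (norm_nonneg _)] at h3
  simp only [ENNReal.toReal_ofNat, ENNReal.coe_toReal] at h3
  have h4 := norm_nonneg f'
  nlinarith

/-- democracy -/
theorem dem {p : ℝ} (hp : 1 < p) [Fact (1 ≤ ENNReal.ofReal p)] : ∃ C : ℝ, 0 < C ∧
    ∀ (A : Finset Idx) (ε : Idx → 𝕜), (∀ j, ‖ε j‖ ≤ 1) →
      ‖∑ j ∈ A, ε j • hv 𝕜 p j‖ ≤ C * (A.card : ℝ) ^ (1 / p) := by
  obtain ⟨C0, hC0⟩ := equiv_all (𝕜 := 𝕜) hp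
  obtain ⟨D, hM⟩ := latNorm hp
  obtain ⟨C, hC, hdem⟩ := HA_norm hp
  refine ⟨2 * C, by positivity, fun A ε hε => ?_⟩
  set z : Lp 𝕜 (ENNReal.ofReal p) mu := ∑ j ∈ A, ε j • hv 𝕜 p j with hz
  have h1 : MM p (ab p z) ≤ MM p (ind A) := hM.mono _ _ fun j => by
    simp only [ab, ind]
    rw [hz, coef_comb hp]
    split_ifs
    · exact_mod_cast hε j
    · rw [nnnorm_zero]
  have h2 : MM p (ind A) ≤ ENNReal.ofReal (nm p (HA p A)) :=
    MM_le fun F θ hθ => ENNReal.ofReal_le_ofReal (norm_HA_le hp A F θ hθ)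
  have h3 : ENNReal.ofReal ‖z‖ ≤ 2 * ENNReal.ofReal (C * (A.card : ℝ) ^ (1 / p)) :=
    (hC0 z).2.trans (by
      gcongr
      exact h1.trans (h2.trans (ENNReal.ofReal_le_ofReal (hdem A))))
  have h4 := ENNReal.toReal_mono (ENNReal.mul_ne_top (by simp) ENNReal.ofReal_ne_top) h3
  rw [ENNReal.toReal_ofReal (norm_nonneg _), ENNReal.toReal_mul,
    ENNReal.toReal_ofReal (by positivity)] at h4
  simp only [ENNReal.toReal_ofNat] at h4
  linarith

/-- coefficients of the remainders -/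
lemma coef_rem {p : ℝ} (hp : 1 < p) (A : Finset Idx) (f : Lp 𝕜 (ENNReal.ofReal p) mu) (i : Idx) :
    coef p i (f - ∑ j ∈ A, coef p j f • hv 𝕜 p j) = if i ∈ A then 0 else coef p i f := by
  rw [coef_sub hp, coef_comb hp A (fun j => coef p j f) i]
  split_ifs
  · rw [sub_self]
  · rw [sub_zero]

/-- the partial sums of the real functions -/
theorem rem_small {p : ℝ} (hp : 1 < p) [Fact (1 ≤ ENNReal.ofReal p)]
    (f : Lp ℝ (ENNReal.ofReal p) mu) (ε : ℝ) (hε : 0 < ε) :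
    ∃ G : Finset Idx, ∀ A : Finset Idx, G ⊆ A → ‖f - ∑ j ∈ A, coef p j f • hv ℝ p j‖ < ε := by
  obtain ⟨C, hC, hunc⟩ := unc (𝕜 := ℝ) hp
  obtain ⟨G, b, hG⟩ := exists_comb hp f (ε := ε / C) (by positivity)
  refine ⟨G, fun A hA => ?_⟩
  have h1 : ‖f - ∑ j ∈ A, coef p j f • hv ℝ p j‖ ≤ C * ‖f - ∑ j ∈ G, b j • hv ℝ p j‖ := by
    apply hunc
    intro j
    rw [coef_rem hp, coef_sub hp, coef_comb hp]
    split_ifs with h1 h2 h2
    · rw [norm_zero]; exact norm_nonneg _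
    · rw [norm_zero]; exact norm_nonneg _
    · exact absurd (hA h2) h1
    · rw [sub_zero]
  calc _ ≤ C * ‖f - ∑ j ∈ G, b j • hv ℝ p j‖ := h1
    _ < C * (ε / C) := by gcongr
    _ = ε := by field_simp

/-- the partial sums, general scalars -/
theorem rem_small' {p : ℝ} (hp : 1 < p) [Fact (1 ≤ ENNReal.ofReal p)]
    (f : Lp 𝕜 (ENNReal.ofReal p) mu) (ε : ℝ) (hε : 0 < ε) :
    ∃ G : Finset Idx, ∀ A : Finset Idx, G ⊆ A → ‖f - ∑ j ∈ A, coef p j f • hv 𝕜 p j‖ < ε := by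
  obtain ⟨C, hC, hunc⟩ := unc (𝕜 := ℝ) hp
  obtain ⟨G1, hG1⟩ := rem_small hp (reP f) (ε / (2 * C)) (by positivity)
  obtain ⟨G2, hG2⟩ := rem_small hp (imP f) (ε / (2 * C)) (by positivity)
  refine ⟨G1 ∪ G2, fun A hA => ?_⟩
  set z : Lp 𝕜 (ENNReal.ofReal p) mu := f - ∑ j ∈ A, coef p j f • hv 𝕜 p j with hz
  have h1 : ‖reP z‖ ≤ C * ‖reP f - ∑ j ∈ A, coef p j (reP f) • hv ℝ p j‖ := by
    apply hunc
    intro j
    rw [coef_rem hp, coef_re hp, coef_re hp, hz, coef_rem hp]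
    split_ifs
    · simp
    · exact le_rfl
  have h2 : ‖imP z‖ ≤ C * ‖imP f - ∑ j ∈ A, coef p j (imP f) • hv ℝ p j‖ := by
    apply hunc
    intro j
    rw [coef_rem hp, coef_im hp, coef_im hp, hz, coef_rem hp]
    split_ifs
    · simp
    · exact le_rfl
  have h3 := hG1 A (subset_union_left.trans hA)
  have h4 := hG2 A (subset_union_right.trans hA)
  have h5 := norm_le_reP_imP z
  have h6 : C * (ε / (2 * C)) = ε / 2 := by field_simp
  have h7 : C * ‖reP f - ∑ j ∈ A, coef p j (reP f) • hv ℝ p j‖ < C * (ε / (2 * C)) := by gcongr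
  have h8 : C * ‖imP f - ∑ j ∈ A, coef p j (imP f) • hv ℝ p j‖ < C * (ε / (2 * C)) := by gcongr
  rw [h6] at h7 h8
  linarith

/-- expansions along an enumeration -/
theorem expand {p : ℝ} (hp : 1 < p) [Fact (1 ≤ ENNReal.ofReal p)] (e : ℕ ≃ Idx)
    (f : Lp 𝕜 (ENNReal.ofReal p) mu) :
    Tendsto (fun m => ∑ n ∈ Finset.range m, coef p (e n) f • hv 𝕜 p (e n)) atTop (𝓝 f) := by
  classical
  rw [Metric.tendsto_atTop]
  intro ε hε
  obtain ⟨G, hG⟩ := rem_small' hp f ε hε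
  refine ⟨(G.sup fun j => e.symm j) + 1, fun m hm => ?_⟩
  have h1 := hG ((Finset.range m).map e.toEmbedding) (fun j hj => by
    rw [Finset.mem_map]
    refine ⟨e.symm j, ?_, e.apply_symm_apply j⟩
    rw [Finset.mem_range]
    have : e.symm j ≤ G.sup fun j => e.symm j := Finset.le_sup (f := fun j => e.symm j) hj
    omega)
  rw [Finset.sum_map] at h1
  rw [dist_comm, dist_eq_norm]
  exact h1

/-- concavity of the power function on the natural numbers -/
lemma rpow_conc (s : ℝ) (hs0 : 0 ≤ s) (hs1 : s ≤ 1) (m : ℕ) :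
    ((m + 2 : ℕ) : ℝ) ^ s - ((m + 1 : ℕ) : ℝ) ^ s ≤ ((m + 1 : ℕ) : ℝ) ^ s - (m : ℝ) ^ s := by
  have hm0 : (m : ℝ) ∈ Set.Ici (0 : ℝ) := Set.mem_Ici.mpr (Nat.cast_nonneg m)
  have hm2 : (m : ℝ) + 2 ∈ Set.Ici (0 : ℝ) := by
    rw [Set.mem_Ici]; positivity
  have h := (Real.concaveOn_rpow hs0 hs1).2 hm0 hm2 (by norm_num : (0 : ℝ) ≤ 1 / 2)
    (by norm_num : (0 : ℝ) ≤ 1 / 2) (by norm_num)
  simp only [smul_eq_mul] at h
  have e1 : 1 / 2 * (m : ℝ) + 1 / 2 * ((m : ℝ) + 2) = m + 1 := by ring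
  rw [e1] at h
  push_cast
  linarith

lemma phase (z : 𝕜) : ∃ ε : 𝕜, ‖ε‖ = 1 ∧ ε * z = ((‖z‖ : ℝ) : 𝕜) := by
  by_cases hz : z = 0
  · exact ⟨1, norm_one, by rw [hz]; simp⟩
  · have hz' : ‖z‖ ≠ 0 := norm_ne_zero_iff.mpr hz
    refine ⟨((‖z‖ : ℝ) : 𝕜) * z⁻¹, ?_, ?_⟩
    · rw [norm_mul, RCLike.norm_ofReal, abs_norm, norm_inv, mul_inv_cancel₀ hz']
    · rw [mul_assoc, inv_mul_cancel₀ hz, mul_one]

/-- the data of the renorming -/
theorem exists_data {p : ℝ} (hp : 1 < p) [Fact (1 ≤ ENNReal.ofReal p)] (e : ℕ ≃ Idx) :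
    ∃ D : GR.Data 𝕜 (Lp 𝕜 (ENNReal.ofReal p) mu), ∀ n f, D.xs n f = coef p (e n) f := by
  classical
  obtain ⟨K, hK, hunc⟩ := unc (𝕜 := 𝕜) hp
  obtain ⟨Cd, hCd, hdem⟩ := dem (𝕜 := 𝕜) hp
  obtain ⟨Ch, hCh, hfirst⟩ := HA_norm (conj_exp hp).symm.lt
  have hp0 : 0 < p := by linarith
  have hs0 : (0 : ℝ) ≤ 1 / p := by positivity
  have hs1 : 1 / p ≤ 1 := by rw [div_le_one hp0]; linarith
  set xs : ℕ → Lp 𝕜 (ENNReal.ofReal p) mu →ₗ[𝕜] 𝕜 := fun n =>
    { toFun := fun f => coef p (e n) f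
      map_add' := fun f g => coef_add hp _ f g
      map_smul' := fun c f => coef_smul _ c f } with hxs
  have hxs' : ∀ n f, xs n f = coef p (e n) f := fun n f => rfl
  set ψ : ℕ → ℝ := fun m => 2 * Cd * (m : ℝ) ^ (1 / p) with hψ
  have hhalf : ∀ m, ψ m / 2 = Cd * (m : ℝ) ^ (1 / p) := fun m => by rw [hψ]; ring
  refine ⟨{ xs := xs
            G := {q | (∀ n, 0 ≤ q.2 n) ∧ (∀ f : Lp 𝕜 (ENNReal.ofReal p) mu,
              ∑ n ∈ q.1, q.2 n * ‖xs n f‖ ≤ K * ‖f‖) ∧
              (∀ F : Finset ℕ, F ⊆ q.1 → ∑ n ∈ F, q.2 n ≤ ψ F.card / 2)}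
            ψ := ψ
            C1 := K
            C2 := 2
            C3 := 2 * Cd * Ch
            ψ_zero := by
              rw [hψ]
              simp only
              rw [Nat.cast_zero, Real.zero_rpow (by positivity), mul_zero]
            ψ_mono := fun m => by
              rw [hψ]
              simp only
              have : (m : ℝ) ^ (1 / p) ≤ ((m + 1 : ℕ) : ℝ) ^ (1 / p) :=
                Real.rpow_le_rpow (by positivity) (by push_cast; linarith) hs0
              gcongr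
            ψ_conc := fun m => by
              rw [hψ]
              simp only
              have := rpow_conc (1 / p) hs0 hs1 m
              have h2 : 0 < 2 * Cd := by positivity
              nlinarith
            C1_nonneg := hK.le
            C2_pos := by norm_num
            C3_nonneg := by positivity
            nonneg := fun B g h => h.1
            bdd := fun B g h => h.2.1
            norming := ?_
            dem := fun B g h => h.2.2
            first := ?_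
            fin := ?_ }, hxs'⟩
  · -- norming
    intro f
    by_cases hf : f = 0
    · refine ⟨∅, fun _ => 0, ⟨fun _ => le_rfl, fun f => ?_, fun F hF => ?_⟩, ?_⟩
      · simp; positivity
      · rw [hhalf]; simp; positivity
      · rw [hf]; simp
    · obtain ⟨φ, hφ1, hφ2⟩ := exists_dual_vector 𝕜 f (norm_ne_zero_iff.mpr hf)
      have hfpos : 0 < ‖f‖ := norm_pos_iff.mpr hf
      have h1 : Tendsto (fun m => ‖φ (∑ n ∈ Finset.range m, coef p (e n) f • hv 𝕜 p (e n))‖) atTop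
          (𝓝 ‖φ f‖) := ((φ.continuous.tendsto _).comp (expand hp e f)).norm
      have h2 : ‖φ f‖ = ‖f‖ := by
        rw [hφ2, RCLike.norm_ofReal, abs_norm]
      rw [h2] at h1
      obtain ⟨m, hm⟩ := (h1.eventually (lt_mem_nhds (show ‖f‖ / 2 < ‖f‖ by linarith))).exists
      choose ε hε1 hε2 using fun j : Idx => phase (φ (hv 𝕜 p j))
      have hφle : ∀ z : Lp 𝕜 (ENNReal.ofReal p) mu, ‖φ z‖ ≤ ‖z‖ := fun z => by
        have := φ.le_opNorm z
        rwa [hφ1, one_mul] at this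
      refine ⟨Finset.range m, fun n => ‖φ (hv 𝕜 p (e n))‖,
        ⟨fun _ => norm_nonneg _, fun f' => ?_, fun F hF => ?_⟩, ?_⟩
      · -- bounded
        simp only [hxs']
        set z : Lp 𝕜 (ENNReal.ofReal p) mu :=
          ∑ j ∈ (Finset.range m).map e.toEmbedding, (ε j * ((‖coef p j f'‖ : ℝ) : 𝕜)) • hv 𝕜 p j
          with hz
        have h3 : φ z = ((∑ n ∈ Finset.range m, ‖φ (hv 𝕜 p (e n))‖ * ‖coef p (e n) f'‖ : ℝ) : 𝕜) := by
          rw [hz, map_sum, Finset.sum_map]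
          push_cast
          apply Finset.sum_congr rfl
          intro n _
          rw [map_smul, smul_eq_mul]
          change ε (e n) * ((‖coef p (e n) f'‖ : ℝ) : 𝕜) * φ (hv 𝕜 p (e n)) = _
          have h4 := hε2 (e n)
          calc ε (e n) * ((‖coef p (e n) f'‖ : ℝ) : 𝕜) * φ (hv 𝕜 p (e n)) =
              (ε (e n) * φ (hv 𝕜 p (e n))) * ((‖coef p (e n) f'‖ : ℝ) : 𝕜) := by ring
            _ = _ := by rw [h4]
        have h4 : ‖z‖ ≤ K * ‖f'‖ := by
          apply hunc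
          intro j
          rw [hz, coef_comb hp]
          split_ifs
          · rw [norm_mul, hε1, one_mul, RCLike.norm_ofReal, abs_norm]
          · rw [norm_zero]; exact norm_nonneg _
        have h5 := hφle z
        rw [h3, RCLike.norm_ofReal, abs_of_nonneg
          (Finset.sum_nonneg fun _ _ => by positivity)] at h5
        exact h5.trans h4
      · -- democracy
        rw [hhalf]
        simp only
        set z : Lp 𝕜 (ENNReal.ofReal p) mu :=
          ∑ j ∈ F.map e.toEmbedding, ε j • hv 𝕜 p j with hz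
        have h3 : φ z = ((∑ n ∈ F, ‖φ (hv 𝕜 p (e n))‖ : ℝ) : 𝕜) := by
          rw [hz, map_sum, Finset.sum_map]
          push_cast
          apply Finset.sum_congr rfl
          intro n _
          rw [map_smul, smul_eq_mul]
          exact hε2 (e n)
        have h4 := hdem (F.map e.toEmbedding) ε (fun j => (hε1 j).le)
        rw [Finset.card_map] at h4
        have h5 := hφle z
        rw [h3, RCLike.norm_ofReal, abs_of_nonneg
          (Finset.sum_nonneg fun _ _ => norm_nonneg _)] at h5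
        exact h5.trans h4
      · -- norming
        simp only [hxs']
        rw [map_sum] at hm
        have h3 := norm_sum_le (Finset.range m)
          (fun n => φ (coef p (e n) f • hv 𝕜 p (e n)))
        have h4 : ∑ n ∈ Finset.range m, ‖φ (coef p (e n) f • hv 𝕜 p (e n))‖ =
            ∑ n ∈ Finset.range m, ‖φ (hv 𝕜 p (e n))‖ * ‖coef p (e n) f‖ := by
          apply Finset.sum_congr rfl
          intro n _
          rw [map_smul, smul_eq_mul, norm_mul, mul_comm]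
        rw [h4] at h3
        linarith
  · -- first
    intro A f
    simp only [hxs']
    rcases A.eq_empty_or_nonempty with hA | hA
    · subst hA
      simp
      positivity
    have hA0 : (0 : ℝ) < A.card := by exact_mod_cast hA.card_pos
    have h1 := sum_coef_le hp (A.map e.toEmbedding) f
    have h2 := hfirst (A.map e.toEmbedding)
    rw [Finset.sum_map] at h1
    rw [Finset.card_map] at h2
    have h3 : ∑ n ∈ A, ‖coef p (e n) f‖ ≤ Ch * (A.card : ℝ) ^ (1 / (p / (p - 1))) * ‖f‖ :=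
      h1.trans (mul_le_mul_of_nonneg_right h2 (norm_nonneg _))
    have h4 : ψ A.card / A.card * (Ch * (A.card : ℝ) ^ (1 / (p / (p - 1))) * ‖f‖) =
        2 * Cd * Ch * ‖f‖ := by
      have h5 : (A.card : ℝ) ^ (1 / p) * (A.card : ℝ) ^ (1 / (p / (p - 1))) = A.card := by
        rw [← Real.rpow_add hA0]
        have : 1 / p + 1 / (p / (p - 1)) = 1 := by
          have h3 : p ≠ 0 := by linarith
          have h4 : p - 1 ≠ 0 := by linarith
          field_simp
          ring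
        rw [this, Real.rpow_one]
      rw [hψ]
      simp only
      calc 2 * Cd * (A.card : ℝ) ^ (1 / p) / A.card *
            (Ch * (A.card : ℝ) ^ (1 / (p / (p - 1))) * ‖f‖)
          = 2 * Cd * Ch * ‖f‖ * (((A.card : ℝ) ^ (1 / p) * (A.card : ℝ) ^ (1 / (p / (p - 1)))) /
              A.card) := by ring
        _ = 2 * Cd * Ch * ‖f‖ := by rw [h5, div_self hA0.ne', mul_one]
    rw [← h4]
    refine mul_le_mul_of_nonneg_left h3 ?_
    rw [hψ]
    positivity
  · -- finite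
    intro f ε hε
    have h1 := finL_ab hp f ε.toNNReal (Real.toNNReal_pos.mpr hε)
    have h2 : {n | ε ≤ ‖xs n f‖} = e ⁻¹' {j | ε.toNNReal ≤ ab p f j} := by
      ext n
      simp only [Set.mem_ofPred_eq, Set.mem_preimage, ab]
      rw [← NNReal.coe_le_coe, hxs', Real.coe_toNNReal _ hε.le, coe_nnnorm]
    rw [h2]
    exact h1.preimage e.injective.injOn

/-- the pairing -/
noncomputable def pr {p q : ℝ} (f : Lp 𝕜 (ENNReal.ofReal p) mu) (g : Lp 𝕜 (ENNReal.ofReal q) mu) :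
    𝕜 := ∫ x, f x * g x ∂mu

lemma pr_comm {p q : ℝ} (f : Lp 𝕜 (ENNReal.ofReal p) mu) (g : Lp 𝕜 (ENNReal.ofReal q) mu) :
    pr f g = pr g f := by
  unfold pr
  exact integral_congr_ae (Filter.Eventually.of_forall fun x => mul_comm _ _)

lemma coef_pr (q : ℝ) (j : Idx) (f : Lp 𝕜 (ENNReal.ofReal q) mu) :
    coef q j f = pr f (hv 𝕜 (q / (q - 1)) j) := by
  unfold coef pr hv
  refine integral_congr_ae ?_
  filter_upwards [(memLp_haarFun 𝕜 (q / (q - 1)) j).coeFn_toLp] with x hx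
  rw [hx, mul_comm]

lemma exists_enum : Nonempty (ℕ ≃ Idx) := by
  have : Infinite (Σ n : ℕ, Fin (2 ^ n)) :=
    Infinite.of_injective (fun n : ℕ => (⟨n, ⟨0, by positivity⟩⟩ : Σ n : ℕ, Fin (2 ^ n)))
      (fun a b h => by
        have := congrArg Sigma.fst h
        exact this)
  exact nonempty_equiv_of_countable

/-- reindexing along an enumeration -/
lemma transfer (e : ℕ ≃ Idx) {V : Type} [AddCommGroup V] [Module 𝕜 V] (ys : Idx → V → 𝕜)
    (v : Idx → V) (N : V → ℝ)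
    (h : ∀ (f : V) (A B : Finset ℕ) (b : ℕ → 𝕜),
      (∀ n ∈ A, ∀ k, k ∉ A → ‖ys (e k) f‖ ≤ ‖ys (e n) f‖) → B.card ≤ A.card →
      N (f - ∑ n ∈ A, ys (e n) f • v (e n)) ≤ N (f - ∑ n ∈ B, b n • v (e n)))
    (f : V) (A : Finset Idx) (hA : ∀ j ∈ A, ∀ i ∉ A, ‖ys i f‖ ≤ ‖ys j f‖)
    (B : Finset Idx) (b : Idx → 𝕜) (hBA : B.card ≤ A.card) :
    N (f - ∑ j ∈ A, ys j f • v j) ≤ N (f - ∑ j ∈ B, b j • v j) := by
  have h1 := h f (A.map e.symm.toEmbedding) (B.map e.symm.toEmbedding) (fun n => b (e n))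
    (fun n hn k hk => by
      rw [Finset.mem_map_equiv] at hn hk
      rw [Equiv.symm_symm] at hn hk
      exact hA _ hn _ hk)
    (by rw [Finset.card_map, Finset.card_map]; exact hBA)
  rw [Finset.sum_map, Finset.sum_map] at h1
  simp only [Equiv.coe_toEmbedding, Equiv.apply_symm_apply] at h1
  exact h1

theorem main {p : ℝ} (hp : 1 < p) [Fact (1 ≤ ENNReal.ofReal p)] :
    ∃ N : Seminorm 𝕜 (Lp 𝕜 (ENNReal.ofReal p) mu),
      (∃ c C : ℝ, 0 < c ∧ ∀ f : Lp 𝕜 (ENNReal.ofReal p) mu, c * ‖f‖ ≤ N f ∧ N f ≤ C * ‖f‖) ∧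
      (∀ (f : Lp 𝕜 (ENNReal.ofReal p) mu) (A : Finset Idx),
        (∀ j ∈ A, ∀ i ∉ A, ‖coef p i f‖ ≤ ‖coef p j f‖) →
        ∀ (B : Finset Idx) (b : Idx → 𝕜), B.card ≤ A.card →
        N (f - ∑ j ∈ A, coef p j f • hv 𝕜 p j) ≤ N (f - ∑ j ∈ B, b j • hv 𝕜 p j)) ∧
      ∃ M : Lp 𝕜 (ENNReal.ofReal (p / (p - 1))) mu → ℝ,
        (∀ g, IsLUB {r : ℝ | ∃ f : Lp 𝕜 (ENNReal.ofReal p) mu, N f ≤ 1 ∧ r = ‖pr f g‖} (M g)) ∧
        (∀ (g : Lp 𝕜 (ENNReal.ofReal (p / (p - 1))) mu) (A : Finset Idx),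
        (∀ j ∈ A, ∀ i ∉ A, ‖coef (p / (p - 1)) i g‖ ≤ ‖coef (p / (p - 1)) j g‖) →
        ∀ (B : Finset Idx) (b : Idx → 𝕜), B.card ≤ A.card →
        M (g - ∑ j ∈ A, coef (p / (p - 1)) j g • hv 𝕜 (p / (p - 1)) j) ≤
          M (g - ∑ j ∈ B, b j • hv 𝕜 (p / (p - 1)) j)) := by
  obtain ⟨e⟩ := exists_enum
  obtain ⟨D, hD⟩ := exists_data (𝕜 := 𝕜) hp e
  have hpq := conj_exp hp
  have hq1 : 1 < p / (p - 1) := hpq.symm.lt
  have : ENNReal.HolderConjugate (ENNReal.ofReal p) (ENNReal.ofReal (p / (p - 1))) :=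
    hpq.ennrealOfReal
  have : ENNReal.HolderConjugate (ENNReal.ofReal (p / (p - 1))) (ENNReal.ofReal p) :=
    hpq.symm.ennrealOfReal
  have : Fact (1 ≤ ENNReal.ofReal (p / (p - 1))) := ⟨ENNReal.one_le_ofReal.2 hq1.le⟩
  -- the functionals of the elements of the conjugate space
  set Φ : Lp 𝕜 (ENNReal.ofReal (p / (p - 1))) mu →L[𝕜] (Lp 𝕜 (ENNReal.ofReal p) mu →L[𝕜] 𝕜) :=
    (ContinuousLinearMap.mul 𝕜 𝕜).lpPairing mu
      (ENNReal.ofReal (p / (p - 1))) (ENNReal.ofReal p) with hΦ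
  have hΦ' : ∀ (g : Lp 𝕜 (ENNReal.ofReal (p / (p - 1))) mu) (f : Lp 𝕜 (ENNReal.ofReal p) mu),
      Φ g f = pr f g := by
    intro g f
    rw [hΦ, ContinuousLinearMap.lpPairing_eq_integral]
    unfold pr
    refine integral_congr_ae (Filter.Eventually.of_forall fun x => ?_)
    simp only [ContinuousLinearMap.mul_apply']
    rw [mul_comm]
  have hqq : p / (p - 1) / (p / (p - 1) - 1) = p := by
    have h1 : p - 1 ≠ 0 := by linarith
    field_simp
    ring
  have hbi : ∀ m n, D.xs m (hv 𝕜 p (e n)) = if m = n then 1 else 0 := by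
    intro m n
    rw [hD, coef_hv hp]
    by_cases h : m = n
    · rw [if_pos h, if_pos (by rw [h])]
    · rw [if_neg h, if_neg fun h' => h (e.injective h')]
  have hexp : ∀ f : Lp 𝕜 (ENNReal.ofReal p) mu,
      Tendsto (fun m => ∑ n ∈ Finset.range m, D.xs n f • hv 𝕜 p (e n)) atTop (𝓝 f) := by
    intro f
    simp only [hD]
    exact expand hp e f
  have hco : ∀ (g : Lp 𝕜 (ENNReal.ofReal (p / (p - 1))) mu) (j : Idx),
      Φ g (hv 𝕜 p j) = coef (p / (p - 1)) j g := by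
    intro g j
    rw [hΦ', coef_pr, pr_comm, hqq]
  refine ⟨GR.nn D, ?_, ?_, fun g => GR.dn D (Φ g), ?_, ?_⟩
  · exact ⟨D.C2⁻¹, D.C3 + D.C1, inv_pos.mpr D.C2_pos, fun f =>
      ⟨GR.nn_lower D f, GR.nn_upper D f⟩⟩
  · intro f A hA B b hBA
    refine transfer e (fun j f => coef p j f) (fun j => hv 𝕜 p j) (GR.nn D) ?_ f A hA B b hBA
    intro f A B b hgr hBA
    have h := GR.one_greedy D.xs (fun n => hv 𝕜 p (e n)) hbi (fun f => GR.nn D f)
      (fun f f' h => GR.nn_lattice D f f' h) (fun f f' h => GR.nn_eq D f f' h) f A B b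
      (by simp only [hD]; exact hgr) hBA
    simp only [hD] at h
    exact h
  · intro g
    constructor
    · rintro r ⟨f, hf, rfl⟩
      rw [← hΦ']
      exact GR.le_dn D (Φ g) f hf
    · intro C hC
      have : Nonempty {f : Lp 𝕜 (ENNReal.ofReal p) mu // GR.nn D f ≤ 1} :=
        ⟨⟨0, by rw [map_zero]; exact zero_le_one⟩⟩
      refine ciSup_le fun f => ?_
      apply hC
      exact ⟨f.1, f.2, by rw [hΦ']⟩
  · intro g A hA B b hBA
    refine transfer e (fun j f => coef (p / (p - 1)) j f) (fun j => hv 𝕜 (p / (p - 1)) j)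
      (fun g => GR.dn D (Φ g)) ?_ g A hA B b hBA
    intro g A B b hgr hBA
    set ys : ℕ → Lp 𝕜 (ENNReal.ofReal (p / (p - 1))) mu →ₗ[𝕜] 𝕜 := fun n =>
      { toFun := fun g => coef (p / (p - 1)) (e n) g
        map_add' := fun f g => coef_add hq1 _ f g
        map_smul' := fun c f => coef_smul _ c f } with hys
    have hys' : ∀ n g, ys n g = coef (p / (p - 1)) (e n) g := fun n g => rfl
    have h := GR.one_greedy ys (fun n => hv 𝕜 (p / (p - 1)) (e n))
      (fun m n => by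
        rw [hys', coef_hv hq1]
        by_cases h : m = n
        · rw [if_pos h, if_pos (by rw [h])]
        · rw [if_neg h, if_neg fun h' => h (e.injective h')])
      (fun g => GR.dn D (Φ g))
      (fun g g' h => GR.dn_lattice D _ hbi hexp _ _ fun n => by
        rw [hco, hco]; exact h n)
      (fun g g' h => GR.dn_eq D _ hbi hexp _ _ (by
        simp only [hco]; exact h)) g A B b (by simp only [hys']; exact hgr) hBA
    simp only [hys'] at h
    exact h

end Pool.Agent.R267.HD
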