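import Pool.Agent.R267.BlockSum
import Pool.Agent.R267.Lex
import Pool.Agent.R267.HilbertIso

set_option autoImplicit false

open Filter Topology
open scoped ENNReal

namespace Pool.Agent.R267.LZ

open Pool.Agent.R267 Pool.Agent.R267.Lex

/-- block sizes -/
def NN (c : ℕ) : ℕ := c + 1

lemma NN_pos (c : ℕ) : 0 < NN c := by unfold NN; positivity

/-- the weight -/
noncomputable def w (k : ℕ) : ℝ := 1 / Real.sqrt (k + 1)

lemma w_pos (k : ℕ) : 0 < w k := by unfold w; positivity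

lemma w_anti {k l : ℕ} (h : k ≤ l) : w l ≤ w k := by
  unfold w
  apply one_div_le_one_div_of_le (by positivity)
  apply Real.sqrt_le_sqrt
  have : (k : ℝ) ≤ l := by exact_mod_cast h
  linarith

lemma w_le (m : ℕ) : w m ≤ 2 * Real.sqrt (m + 1) - 2 * Real.sqrt m := by
  unfold w
  have h1 : 0 < Real.sqrt ((m : ℝ) + 1) := by positivity
  have h0 : 0 ≤ Real.sqrt (m : ℝ) := Real.sqrt_nonneg _
  rw [div_le_iff₀ h1]
  have h2 : Real.sqrt ((m : ℝ) + 1) ^ 2 = m + 1 := Real.sq_sqrt (by positivity)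
  have h3 : Real.sqrt (m : ℝ) ^ 2 = m := Real.sq_sqrt (by positivity)
  nlinarith [sq_nonneg (Real.sqrt ((m : ℝ) + 1) - Real.sqrt (m : ℝ))]

lemma sum_w_le (S : Finset ℕ) : ∑ k ∈ S, w k ≤ 2 * Real.sqrt S.card := by
  induction S using Finset.induction_on_max with
  | empty => simp
  | insert a s hmax ih =>
    have ha : a ∉ s := fun h => lt_irrefl _ (hmax a h)
    rw [Finset.sum_insert ha, Finset.card_insert_of_notMem ha]
    have hc : s.card ≤ a := by
      have : s ⊆ Finset.range a := fun x hx => Finset.mem_range.mpr (hmax x hx)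
      simpa using Finset.card_le_card this
    have h1 := w_anti hc
    have h2 := w_le s.card
    push_cast
    linarith

variable (𝕜 : Type) [RCLike 𝕜]

/-- the embedding of a block -/
noncomputable def phi (c : ℕ) :
    (Fin (NN c) → 𝕜) →ₗ[𝕜] EuclideanSpace 𝕜 (Option (Fin (NN c))) where
  toFun a := WithLp.toLp 2 (fun o => o.elim (∑ k : Fin (NN c), (w k : 𝕜) * a k) (fun k => a k))
  map_add' a b := by
    apply WithLp.ofLp_injective
    funext o
    rcases o with _ | k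
    · change ∑ k : Fin (NN c), (w k : 𝕜) * (a k + b k) = ∑ k : Fin (NN c), (w k : 𝕜) * a k + ∑ k : Fin (NN c), (w k : 𝕜) * b k
      rw [← Finset.sum_add_distrib]
      exact Finset.sum_congr rfl fun k _ => mul_add _ _ _
    · rfl
  map_smul' r a := by
    apply WithLp.ofLp_injective
    funext o
    rcases o with _ | k
    · change ∑ k : Fin (NN c), (w k : 𝕜) * (r * a k) = r * ∑ k : Fin (NN c), (w k : 𝕜) * a k
      rw [Finset.mul_sum]
      exact Finset.sum_congr rfl fun k _ => by ring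
    · rfl

variable {𝕜}

lemma phi_injective (c : ℕ) : Function.Injective (phi 𝕜 c) := by
  intro a b h
  have h1 := congrArg WithLp.ofLp h
  funext k
  exact congrFun h1 (some k)

variable (𝕜)

/-- the block -/
abbrev VV (c : ℕ) : Type := ↥(LinearMap.range (phi 𝕜 c))

/-- the coordinates of the block -/
noncomputable def TT (c : ℕ) : (Fin (NN c) → 𝕜) ≃ₗ[𝕜] VV 𝕜 c :=
  LinearEquiv.ofInjective (phi 𝕜 c) (phi_injective c)

variable {𝕜}

lemma norm_TT_sq (c : ℕ) (a : Fin (NN c) → 𝕜) :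
    ‖TT 𝕜 c a‖ ^ 2 = ‖∑ k : Fin (NN c), (w k : 𝕜) * a k‖ ^ 2 + ∑ k : Fin (NN c), ‖a k‖ ^ 2 := by
  have h : ‖TT 𝕜 c a‖ = ‖phi 𝕜 c a‖ := rfl
  rw [h, EuclideanSpace.norm_sq_eq, Fintype.sum_option]
  rfl

variable (𝕜)

/-- the space -/
abbrev XX : Type := lp (fun c => VV 𝕜 c) 2

/-- the enumeration -/
noncomputable def en : ℕ ≃ Σ c, Fin (NN c) := lexE NN NN_pos

/-- the basis -/
noncomputable def bx (n : ℕ) : XX 𝕜 := BS.vec 2 (TT 𝕜) (en n)

/-- the functionals -/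
noncomputable def bf (n : ℕ) : XX 𝕜 →ₗ[𝕜] 𝕜 := BS.fnl 2 (TT 𝕜) (en n)

variable {𝕜}

lemma bf_bx (m n : ℕ) : bf 𝕜 m (bx 𝕜 n) = if m = n then 1 else 0 := by
  unfold bf bx
  rw [BS.fnl_vec]
  simp only [EmbeddingLike.apply_eq_iff_eq]

lemma two_toReal : ((2 : ℝ≥0∞).toReal) = 2 := by norm_num

lemma norm_sq_ge (f : XX 𝕜) (s : Finset ℕ) : ∑ c ∈ s, ‖f c‖ ^ 2 ≤ ‖f‖ ^ 2 := by
  have := lp.sum_rpow_le_norm_rpow (p := 2) (by norm_num) f s
  simpa only [two_toReal, Real.rpow_two] using this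

lemma norm_le_of_sq (f : XX 𝕜) (C : ℝ) (hC : 0 ≤ C) (h : ∀ s : Finset ℕ, ∑ c ∈ s, ‖f c‖ ^ 2 ≤ C ^ 2) :
    ‖f‖ ≤ C := by
  apply lp.norm_le_of_forall_sum_le (p := 2) (by norm_num) hC
  simpa only [two_toReal, Real.rpow_two] using h

/-- Bessel -/
lemma bessel (f : XX 𝕜) (A : Finset ℕ) : ∑ n ∈ A, ‖bf 𝕜 n f‖ ^ 2 ≤ ‖f‖ ^ 2 := by
  classical
  set g : (Σ c, Fin (NN c)) → ℝ := fun i => ‖BS.fnl 2 (TT 𝕜) i f‖ ^ 2 with hg
  have h1 : ∑ n ∈ A, ‖bf 𝕜 n f‖ ^ 2 = ∑ i ∈ A.map en.toEmbedding, g i := by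
    rw [Finset.sum_map]
    rfl
  set s : Finset ℕ := A.image (fun n => (en n).1) with hs
  have h2 : A.map en.toEmbedding ⊆ s.sigma (fun c => (Finset.univ : Finset (Fin (NN c)))) := by
    intro i hi
    obtain ⟨n, hn, rfl⟩ := Finset.mem_map.mp hi
    rw [Finset.mem_sigma]
    exact ⟨Finset.mem_image.mpr ⟨n, hn, rfl⟩, Finset.mem_univ _⟩
  rw [h1]
  refine (Finset.sum_le_sum_of_subset_of_nonneg h2 (fun i _ _ => by positivity)).trans ?_
  rw [Finset.sum_sigma]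
  refine le_trans ?_ (norm_sq_ge f s)
  apply Finset.sum_le_sum
  intro c _
  have h3 := norm_TT_sq c (fun k => BS.fnl 2 (TT 𝕜) ⟨c, k⟩ f)
  rw [← BS.apply_eq 2 (TT 𝕜) f c] at h3
  rw [h3]
  have : 0 ≤ ‖∑ k : Fin (NN c), (w k : 𝕜) * BS.fnl 2 (TT 𝕜) ⟨c, k⟩ f‖ ^ 2 := by positivity
  linarith

lemma norm_bf_le (n : ℕ) (f : XX 𝕜) : ‖bf 𝕜 n f‖ ≤ 1 * ‖f‖ := by
  have h := bessel f {n}
  rw [Finset.sum_singleton] at h
  rw [one_mul]
  exact (sq_le_sq₀ (norm_nonneg _) (norm_nonneg _)).mp h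

/-- the upper estimate for constant coefficients -/
lemma upper (A : Finset ℕ) (ε : ℕ → 𝕜) (hε : ∀ n ∈ A, ‖ε n‖ = 1) :
    ‖∑ n ∈ A, ε n • bx 𝕜 n‖ ≤ Real.sqrt (5 * A.card) := by
  classical
  apply norm_le_of_sq _ _ (Real.sqrt_nonneg _)
  intro s
  rw [Real.sq_sqrt (by positivity)]
  have key : ∀ c, ‖(∑ n ∈ A, ε n • bx 𝕜 n : XX 𝕜) c‖ ^ 2 ≤
      ∑ n ∈ A, if (en n).1 = c then (5 : ℝ) else 0 := by
    intro c
    unfold bx
    rw [BS.sum_enum_apply 2 (TT 𝕜) en A ε c, norm_TT_sq]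
    set S : Finset (Fin (NN c)) := Finset.univ.filter (fun k => en.symm ⟨c, k⟩ ∈ A) with hS
    have h1 : ∑ k : Fin (NN c), ‖(if en.symm ⟨c, k⟩ ∈ A then ε (en.symm ⟨c, k⟩) else 0)‖ ^ 2 =
        S.card := by
      have : ∀ k : Fin (NN c), ‖(if en.symm ⟨c, k⟩ ∈ A then ε (en.symm ⟨c, k⟩) else 0)‖ ^ 2 =
          if en.symm ⟨c, k⟩ ∈ A then 1 else 0 := by
        intro k
        split_ifs with h
        · rw [hε _ h, one_pow]
        · rw [norm_zero, zero_pow two_ne_zero]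
      simp only [this]
      rw [Finset.sum_ite, Finset.sum_const_zero, add_zero, Finset.sum_const, nsmul_eq_mul, mul_one]
    have h2 : ‖∑ k : Fin (NN c), (w k : 𝕜) *
        (if en.symm ⟨c, k⟩ ∈ A then ε (en.symm ⟨c, k⟩) else 0)‖ ≤ 2 * Real.sqrt S.card := by
      refine (norm_sum_le _ _).trans ?_
      have : ∀ k : Fin (NN c), ‖(w k : 𝕜) *
          (if en.symm ⟨c, k⟩ ∈ A then ε (en.symm ⟨c, k⟩) else 0)‖ =
          if en.symm ⟨c, k⟩ ∈ A then w k else 0 := by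
        intro k
        split_ifs with h
        · rw [norm_mul, hε _ h, mul_one, RCLike.norm_ofReal, abs_of_pos (w_pos _)]
        · rw [mul_zero, norm_zero]
      simp only [this]
      rw [← Finset.sum_filter, ← hS]
      have h3 := sum_w_le (S.map Fin.valEmbedding)
      rw [Finset.sum_map, Finset.card_map] at h3
      exact h3
    have h3 : ‖∑ k : Fin (NN c), (w k : 𝕜) *
        (if en.symm ⟨c, k⟩ ∈ A then ε (en.symm ⟨c, k⟩) else 0)‖ ^ 2 ≤ 4 * S.card := by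
      calc _ ≤ (2 * Real.sqrt S.card) ^ 2 := pow_le_pow_left₀ (norm_nonneg _) h2 2
        _ = 4 * S.card := by
          rw [mul_pow, Real.sq_sqrt (by positivity)]
          norm_num
    have h4 : S.card ≤ (A.filter (fun n => (en n).1 = c)).card := by
      apply Finset.card_le_card_of_injOn (fun k => en.symm ⟨c, k⟩)
      · intro k hk
        have hk' := (Finset.mem_filter.mp hk).2
        rw [Finset.mem_coe, Finset.mem_filter]
        refine ⟨hk', ?_⟩
        rw [Equiv.apply_symm_apply]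
      · intro k _ l _ hkl
        have := en.symm.injective hkl
        simpa using this
    have h5 : ∑ n ∈ A, (if (en n).1 = c then (5 : ℝ) else 0) =
        5 * (A.filter (fun n => (en n).1 = c)).card := by
      rw [Finset.sum_ite, Finset.sum_const_zero, add_zero, Finset.sum_const, nsmul_eq_mul, mul_comm]
    have h6 : (S.card : ℝ) ≤ (A.filter (fun n => (en n).1 = c)).card := by exact_mod_cast h4
    rw [h1, h5]
    linarith
  refine (Finset.sum_le_sum fun c _ => key c).trans ?_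
  rw [Finset.sum_comm]
  have : ∀ n ∈ A, ∑ c ∈ s, (if (en n).1 = c then (5 : ℝ) else 0) ≤ 5 := by
    intro n _
    rw [Finset.sum_ite_eq]
    split_ifs <;> norm_num
  refine (Finset.sum_le_sum this).trans ?_
  rw [Finset.sum_const, nsmul_eq_mul, mul_comm]

/-- the dual upper estimate -/
lemma upper_dual (A : Finset ℕ) (ε : ℕ → 𝕜) (hε : ∀ n ∈ A, ‖ε n‖ = 1) (f : XX 𝕜) :
    ‖∑ n ∈ A, ε n * bf 𝕜 n f‖ ≤ Real.sqrt A.card * ‖f‖ := by
  have h1 : ‖∑ n ∈ A, ε n * bf 𝕜 n f‖ ≤ ∑ n ∈ A, ‖bf 𝕜 n f‖ := by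
    refine (norm_sum_le _ _).trans (Finset.sum_le_sum fun n hn => ?_)
    rw [norm_mul, hε n hn, one_mul]
  have h2 : (∑ n ∈ A, ‖bf 𝕜 n f‖) ^ 2 ≤ A.card * ∑ n ∈ A, ‖bf 𝕜 n f‖ ^ 2 :=
    sq_sum_le_card_mul_sum_sq
  have h3 := bessel f A
  have h4 : ‖∑ n ∈ A, ε n * bf 𝕜 n f‖ ^ 2 ≤ (Real.sqrt A.card * ‖f‖) ^ 2 := by
    rw [mul_pow, Real.sq_sqrt (by positivity)]
    calc _ ≤ (∑ n ∈ A, ‖bf 𝕜 n f‖) ^ 2 := pow_le_pow_left₀ (norm_nonneg _) h1 2
      _ ≤ _ := h2.trans (mul_le_mul_of_nonneg_left h3 (by positivity))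
  exact (sq_le_sq₀ (norm_nonneg _) (by positivity)).mp h4

/-- harmonic numbers -/
noncomputable def har (m : ℕ) : ℝ := ∑ k ∈ Finset.range m, 1 / ((k : ℝ) + 1)

lemma w_sq (k : ℕ) : w k * w k = 1 / ((k : ℝ) + 1) := by
  unfold w
  rw [div_mul_div_comm, one_mul, Real.mul_self_sqrt (by positivity)]

/-- the coefficients of the extremal vector of a block -/
noncomputable def coef (c : ℕ) (n : ℕ) : 𝕜 :=
  if (en n).1 = c then ((w (en n).2 : ℝ) : 𝕜) else 0

/-- the set of indices of a block -/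
noncomputable def blk (c : ℕ) : Finset ℕ :=
  (Finset.univ : Finset (Fin (NN c))).image (fun k => en.symm ⟨c, k⟩)

lemma mem_blk (c n : ℕ) : n ∈ blk c ↔ (en n).1 = c := by
  unfold blk
  rw [Finset.mem_image]
  constructor
  · rintro ⟨k, _, rfl⟩
    rw [Equiv.apply_symm_apply]
  · intro h
    subst h
    exact ⟨(en n).2, Finset.mem_univ _, by rw [Sigma.eta, Equiv.symm_apply_apply]⟩

/-- lower estimate for the extremal vector of a block -/
lemma lower (c : ℕ) : har (NN c) ≤ ‖∑ n ∈ blk c, (coef c n : 𝕜) • bx 𝕜 n‖ := by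
  refine le_trans ?_ (lp.norm_apply_le_norm two_ne_zero _ c)
  unfold bx
  rw [BS.sum_enum_apply 2 (TT 𝕜) en (blk c) (coef c) c]
  have h1 : (fun k : Fin (NN c) => if en.symm ⟨c, k⟩ ∈ blk c then
      (coef c (en.symm ⟨c, k⟩) : 𝕜) else 0) = fun k : Fin (NN c) => ((w k : ℝ) : 𝕜) := by
    funext k
    have h2 : en.symm ⟨c, k⟩ ∈ blk c := by
      rw [mem_blk, Equiv.apply_symm_apply]
    rw [if_pos h2]
    unfold coef
    rw [Equiv.apply_symm_apply, if_pos rfl]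
  rw [h1]
  have h2 := norm_TT_sq c (fun k : Fin (NN c) => ((w k : ℝ) : 𝕜))
  have h3 : ∑ k : Fin (NN c), ((w k : ℝ) : 𝕜) * ((w k : ℝ) : 𝕜) = ((har (NN c) : ℝ) : 𝕜) := by
    unfold har
    rw [← Fin.sum_univ_eq_sum_range (fun k => 1 / ((k : ℝ) + 1))]
    rw [RCLike.ofReal_sum]
    apply Finset.sum_congr rfl
    intro k _
    rw [← RCLike.ofReal_mul, w_sq]
  have h4 : 0 ≤ har (NN c) := by
    unfold har
    exact Finset.sum_nonneg fun _ _ => by positivity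
  rw [h3, RCLike.norm_ofReal, abs_of_nonneg h4] at h2
  have h5 : har (NN c) ^ 2 ≤ ‖TT 𝕜 c (fun k : Fin (NN c) => ((w k : ℝ) : 𝕜))‖ ^ 2 := by
    rw [h2]
    have : 0 ≤ ∑ k : Fin (NN c), ‖((w k : ℝ) : 𝕜)‖ ^ 2 :=
      Finset.sum_nonneg fun _ _ => by positivity
    linarith
  exact (sq_le_sq₀ h4 (norm_nonneg _)).mp h5


/-- the non-increasing rearrangement of `|a|`, indexed from `0` -/
noncomputable def rearr (a : ℕ → 𝕜) (n : ℕ) : ℝ :=
  sInf {t : ℝ | 0 ≤ t ∧ {k | t < ‖a k‖}.encard ≤ n}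

/-- the Lorentz quasi-norm `‖·‖_{2,q}` -/
noncomputable def lor (q : ℝ) (a : ℕ → 𝕜) : ℝ :=
  (∑' n : ℕ, rearr a n ^ q * ((n : ℝ) + 1) ^ (q / 2 - 1)) ^ (1 / q)

lemma rearr_nonneg (a : ℕ → 𝕜) (n : ℕ) : 0 ≤ rearr a n :=
  Real.sInf_nonneg fun _ h => h.1

lemma rearr_le (a : ℕ → 𝕜) (n : ℕ) (t : ℝ) (ht : 0 ≤ t)
    (h : {k | t < ‖a k‖}.encard ≤ n) : rearr a n ≤ t :=
  csInf_le ⟨0, fun _ h => h.1⟩ ⟨ht, h⟩

lemma norm_coef (c n : ℕ) : ‖(coef c n : 𝕜)‖ = if (en n).1 = c then w (en n).2 else 0 := by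
  unfold coef
  split_ifs
  · rw [RCLike.norm_ofReal, abs_of_pos (w_pos _)]
  · exact norm_zero

lemma rearr_coef (c n : ℕ) : rearr (coef c : ℕ → 𝕜) n ≤ w n := by
  classical
  apply rearr_le _ _ _ (w_pos n).le
  have hsub : {k | w n < ‖(coef c k : 𝕜)‖} ⊆
      (((Finset.univ : Finset (Fin (NN c))).filter (fun j : Fin (NN c) => (j : ℕ) < n)).image
        (fun j => en.symm ⟨c, j⟩) : Finset ℕ) := by
    intro k hk
    rw [Set.mem_ofPred_eq, norm_coef] at hk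
    split_ifs at hk with h
    · subst h
      rw [Finset.mem_coe, Finset.mem_image]
      refine ⟨(en k).2, ?_, by rw [Sigma.eta, Equiv.symm_apply_apply]⟩
      rw [Finset.mem_filter]
      refine ⟨Finset.mem_univ _, ?_⟩
      by_contra hcon
      push Not at hcon
      exact absurd (w_anti hcon) (not_le.mpr hk)
    · exact absurd hk (not_lt.mpr (w_pos n).le)
  refine (Set.encard_le_encard hsub).trans ?_
  rw [Set.encard_coe_eq_coe_finsetCard]
  have h1 : (((Finset.univ : Finset (Fin (NN c))).filter (fun j : Fin (NN c) => (j : ℕ) < n)).image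
        (fun j => en.symm ⟨c, j⟩)).card ≤ n := by
    refine Finset.card_image_le.trans ?_
    have : ((Finset.univ : Finset (Fin (NN c))).filter (fun j : Fin (NN c) => (j : ℕ) < n)).card ≤
        (Finset.range n).card := by
      apply Finset.card_le_card_of_injOn (fun j : Fin (NN c) => (j : ℕ))
      · intro j hj
        have := (Finset.mem_filter.mp hj).2
        exact Finset.mem_coe.mpr (Finset.mem_range.mpr this)
      · intro a _ b _ h
        exact Fin.ext h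
    simpa using this
  exact_mod_cast h1

lemma rearr_coef_zero (c n : ℕ) (hn : NN c ≤ n) : rearr (coef c : ℕ → 𝕜) n = 0 := by
  refine le_antisymm ?_ (rearr_nonneg _ _)
  apply rearr_le _ _ _ le_rfl
  have hsub : {k | 0 < ‖(coef c k : 𝕜)‖} ⊆ (blk c : Finset ℕ) := by
    intro k hk
    rw [Set.mem_ofPred_eq, norm_coef] at hk
    rw [Finset.mem_coe, mem_blk]
    by_contra hcon
    rw [if_neg hcon] at hk
    exact lt_irrefl _ hk
  refine (Set.encard_le_encard hsub).trans ?_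
  rw [Set.encard_coe_eq_coe_finsetCard]
  have h1 : (blk c).card ≤ n := by
    unfold blk
    refine Finset.card_image_le.trans ?_
    rw [Finset.card_univ, Fintype.card_fin]
    exact hn
  exact_mod_cast h1

lemma lor_coef (c : ℕ) (q : ℝ) (hq : 1 < q) : lor q (coef c : ℕ → 𝕜) ≤ har (NN c) ^ (1 / q) := by
  unfold lor
  have hq0 : 0 < q := by linarith
  have h1 : ∑' n : ℕ, rearr (coef c : ℕ → 𝕜) n ^ q * ((n : ℝ) + 1) ^ (q / 2 - 1) =
      ∑ n ∈ Finset.range (NN c), rearr (coef c : ℕ → 𝕜) n ^ q * ((n : ℝ) + 1) ^ (q / 2 - 1) := by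
    apply tsum_eq_sum
    intro n hn
    rw [Finset.mem_range, not_lt] at hn
    rw [rearr_coef_zero c n hn, Real.zero_rpow hq0.ne', zero_mul]
  have h2 : ∑ n ∈ Finset.range (NN c), rearr (coef c : ℕ → 𝕜) n ^ q *
      ((n : ℝ) + 1) ^ (q / 2 - 1) ≤ har (NN c) := by
    unfold har
    apply Finset.sum_le_sum
    intro n _
    have hn : (0 : ℝ) < (n : ℝ) + 1 := by positivity
    have h3 : rearr (coef c : ℕ → 𝕜) n ^ q ≤ w n ^ q :=
      Real.rpow_le_rpow (rearr_nonneg _ _) (rearr_coef c n) hq0.le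
    have h4 : w n ^ q * ((n : ℝ) + 1) ^ (q / 2 - 1) = 1 / ((n : ℝ) + 1) := by
      unfold w
      rw [Real.sqrt_eq_rpow, one_div, ← Real.rpow_neg hn.le, ← Real.rpow_mul hn.le,
        ← Real.rpow_add hn, one_div ((n : ℝ) + 1), ← Real.rpow_neg_one]
      congr 1
      ring
    rw [← h4]
    exact mul_le_mul_of_nonneg_right h3 (by positivity)
  rw [h1]
  apply Real.rpow_le_rpow _ h2 (by positivity)
  exact Finset.sum_nonneg fun n _ => mul_nonneg (Real.rpow_nonneg (rearr_nonneg _ _) _)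
    (by positivity)

lemma tendsto_har : Tendsto (fun c => har (NN c)) atTop atTop := by
  have h := Real.tendsto_sum_range_one_div_nat_succ_atTop
  exact h.comp (tendsto_add_atTop_nat 1)

/-- the failure of the first embedding -/
lemma fails (q : ℝ) (hq : 1 < q) (C : ℝ) : ∃ c : ℕ,
    C * lor q (coef c : ℕ → 𝕜) < ‖∑ n ∈ blk c, (coef c n : 𝕜) • bx 𝕜 n‖ := by
  have hq0 : 0 < q := by linarith
  have hexp : 0 < 1 - 1 / q := by
    have : 1 / q < 1 := by rw [div_lt_one hq0]; exact hq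
    linarith
  have h1 := (tendsto_rpow_atTop hexp).comp tendsto_har
  obtain ⟨c, hc1, hc2⟩ := ((h1.eventually_gt_atTop |C|).and (tendsto_har.eventually_gt_atTop 0)).exists
  refine ⟨c, lt_of_lt_of_le ?_ (lower c)⟩
  have h2 := lor_coef (𝕜 := 𝕜) c q hq
  have h0 : 0 ≤ lor q (coef c : ℕ → 𝕜) := by
    unfold lor
    apply Real.rpow_nonneg
    exact tsum_nonneg fun n => mul_nonneg (Real.rpow_nonneg (rearr_nonneg _ _) _) (by positivity)
  change |C| < har (NN c) ^ (1 - 1 / q) at hc1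
  have hpos : 0 < har (NN c) ^ (1 / q) := Real.rpow_pos_of_pos hc2 _
  calc C * lor q (coef c : ℕ → 𝕜) ≤ |C| * lor q (coef c : ℕ → 𝕜) :=
        mul_le_mul_of_nonneg_right (le_abs_self C) h0
    _ ≤ |C| * har (NN c) ^ (1 / q) := mul_le_mul_of_nonneg_left h2 (abs_nonneg C)
    _ < har (NN c) ^ (1 - 1 / q) * har (NN c) ^ (1 / q) := mul_lt_mul_of_pos_right hc1 hpos
    _ = har (NN c) := by
      rw [← Real.rpow_add hc2]
      simp

lemma dense_bx (f : XX 𝕜) :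
    f ∈ closure ((Submodule.span 𝕜 (Set.range (bx 𝕜)) : Submodule 𝕜 (XX 𝕜)) : Set (XX 𝕜)) := by
  have h : Set.range (bx 𝕜) = Set.range (BS.vec 2 (TT 𝕜)) := by
    ext v
    constructor
    · rintro ⟨n, rfl⟩
      exact ⟨en n, rfl⟩
    · rintro ⟨i, rfl⟩
      exact ⟨en.symm i, by unfold bx; rw [Equiv.apply_symm_apply]⟩
  rw [h]
  exact BS.dense_span 2 (TT 𝕜) (by norm_num) f

lemma norm_bx_le (n : ℕ) : ‖bx 𝕜 n‖ ≤ Real.sqrt 5 := by
  have := upper (𝕜 := 𝕜) {n} (fun _ => 1) (fun _ _ => norm_one)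
  rw [Finset.sum_singleton, one_smul, Finset.card_singleton, Nat.cast_one, mul_one] at this
  exact this


lemma total (f : XX 𝕜) (hf : ∀ n, bf 𝕜 n f = 0) : f = 0 := by
  apply BS.ext_fnl 2 (TT 𝕜)
  intro i
  have := hf (en.symm i)
  unfold bf at this
  rw [Equiv.apply_symm_apply] at this
  rw [this, map_zero]

lemma coef_supp {c : ℕ} (n : ℕ) (hn : (coef c n : 𝕜) ≠ 0) : n ∈ blk c := by
  rw [mem_blk]
  by_contra h
  apply hn
  unfold coef
  rw [if_neg h]


lemma complete_VV (c : ℕ) : CompleteSpace (VV 𝕜 c) := by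
  have : FiniteDimensional 𝕜 (VV 𝕜 c) := Module.Finite.equiv (TT 𝕜 c)
  exact FiniteDimensional.complete 𝕜 (VV 𝕜 c)

end Pool.Agent.R267.LZ
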