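import Pool.Agent.R267.BlockSum
import Pool.Agent.R267.Lex

set_option autoImplicit false

open Filter Topology
open scoped ENNReal

namespace Pool.Agent.R267.LU

open Pool.Agent.R267 Pool.Agent.R267.Lex

/-- block sizes -/
def NN (c : ℕ) : ℕ := 2 * (c + 1)

lemma NN_pos (c : ℕ) : 0 < NN c := by unfold NN; positivity

variable (𝕜 : Type) [RCLike 𝕜]

/-- the differences of the coordinates -/
noncomputable def diff (c : ℕ) : (Fin (NN c) → 𝕜) →ₗ[𝕜] (Fin (NN c) × Fin (NN c) → 𝕜) where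
  toFun a q := (((NN c : ℝ)⁻¹ : ℝ) : 𝕜) * (a q.1 - a q.2)
  map_add' a b := by
    funext q
    simp only [Pi.add_apply]
    ring
  map_smul' r a := by
    funext q
    simp only [Pi.smul_apply, smul_eq_mul, RingHom.id_apply]
    ring

/-- the embedding of a block -/
noncomputable def phi (c : ℕ) : (Fin (NN c) → 𝕜) →ₗ[𝕜]
    ((Fin (NN c) → 𝕜) × PiLp 1 (fun _ : Fin (NN c) × Fin (NN c) => 𝕜)) :=
  LinearMap.prod LinearMap.id
    ((WithLp.linearEquiv 1 𝕜 (Fin (NN c) × Fin (NN c) → 𝕜)).symm.toLinearMap ∘ₗ diff 𝕜 c)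

variable {𝕜}

lemma phi_injective (c : ℕ) : Function.Injective (phi 𝕜 c) := by
  intro a b h
  exact congrArg Prod.fst h

variable (𝕜)

/-- the block -/
abbrev VV (c : ℕ) : Type := ↥(LinearMap.range (phi 𝕜 c))

/-- the coordinates of the block -/
noncomputable def TT (c : ℕ) : (Fin (NN c) → 𝕜) ≃ₗ[𝕜] VV 𝕜 c :=
  LinearEquiv.ofInjective (phi 𝕜 c) (phi_injective c)

variable {𝕜}

lemma norm_TT (c : ℕ) (a : Fin (NN c) → 𝕜) :
    ‖TT 𝕜 c a‖ = max ‖a‖ (∑ q : Fin (NN c) × Fin (NN c), (NN c : ℝ)⁻¹ * ‖a q.1 - a q.2‖) := by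
  have h : ‖TT 𝕜 c a‖ = ‖phi 𝕜 c a‖ := rfl
  rw [h]
  change max ‖a‖ ‖(WithLp.toLp 1 (diff 𝕜 c a) : PiLp 1 (fun _ : Fin (NN c) × Fin (NN c) => 𝕜))‖ = _
  rw [PiLp.norm_eq_of_L1]
  congr 1
  apply Finset.sum_congr rfl
  intro q _
  change ‖(((NN c : ℝ)⁻¹ : ℝ) : 𝕜) * (a q.1 - a q.2)‖ = _
  rw [norm_mul, RCLike.norm_ofReal, abs_of_nonneg (by positivity)]

lemma coord_le (c : ℕ) (a : Fin (NN c) → 𝕜) (k : Fin (NN c)) : ‖a k‖ ≤ ‖TT 𝕜 c a‖ := by
  rw [norm_TT]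
  exact (norm_le_pi_norm a k).trans (le_max_left _ _)

/-- a block vector dominated in coordinates and in differences is dominated in norm -/
lemma TT_mono (c : ℕ) (a b : Fin (NN c) → 𝕜) (h1 : ∀ k, ‖a k‖ ≤ ‖b k‖)
    (h2 : ∀ k l, ‖a k - a l‖ ≤ ‖b k - b l‖) : ‖TT 𝕜 c a‖ ≤ ‖TT 𝕜 c b‖ := by
  rw [norm_TT, norm_TT]
  apply max_le_max
  · rw [pi_norm_le_iff_of_nonneg (norm_nonneg _)]
    intro k
    exact (h1 k).trans (norm_le_pi_norm b k)
  · apply Finset.sum_le_sum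
    intro q _
    exact mul_le_mul_of_nonneg_left (h2 _ _) (by positivity)

/-- the radial retraction is non-expansive on the relevant points -/
lemma radial (ε δ : 𝕜) (hε : ‖ε‖ = 1) (hδ : ‖δ‖ = 1) (a b : ℝ) (ha : 1 ≤ a) (hb : 1 ≤ b) :
    ‖ε - δ‖ ≤ ‖ε * (a : 𝕜) - δ * (b : 𝕜)‖ := by
  have key : ‖ε - δ‖ ^ 2 ≤ ‖ε * (a : 𝕜) - δ * (b : 𝕜)‖ ^ 2 := by
    have e1 : ∀ z w : 𝕜, ‖z - w‖ ^ 2 = ‖z‖ ^ 2 + ‖w‖ ^ 2 - 2 * RCLike.re (z * (starRingEnd 𝕜) w) := by
      intro z w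
      rw [← RCLike.normSq_eq_def', RCLike.normSq_sub, RCLike.normSq_eq_def', RCLike.normSq_eq_def']
    rw [e1, e1, norm_mul, norm_mul, hε, hδ, RCLike.norm_ofReal, RCLike.norm_ofReal,
      abs_of_nonneg (by linarith : 0 ≤ a), abs_of_nonneg (by linarith : 0 ≤ b)]
    have e2 : RCLike.re (ε * (a : 𝕜) * (starRingEnd 𝕜) (δ * (b : 𝕜))) =
        a * b * RCLike.re (ε * (starRingEnd 𝕜) δ) := by
      have : ε * (a : 𝕜) * (starRingEnd 𝕜) (δ * (b : 𝕜)) =
          ((a * b : ℝ) : 𝕜) * (ε * (starRingEnd 𝕜) δ) := by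
        rw [map_mul, RCLike.conj_ofReal]
        push_cast
        ring
      rw [this, RCLike.re_ofReal_mul]
    rw [e2]
    have e3 : RCLike.re (ε * (starRingEnd 𝕜) δ) ≤ 1 := by
      refine (RCLike.re_le_norm _).trans ?_
      rw [norm_mul, RCLike.norm_conj, hε, hδ, mul_one]
    nlinarith [sq_nonneg (a - b), mul_nonneg (by nlinarith : (0 : ℝ) ≤ a * b - 1)
      (by linarith : (0 : ℝ) ≤ 1 - RCLike.re (ε * (starRingEnd 𝕜) δ))]
  exact (sq_le_sq₀ (norm_nonneg _) (norm_nonneg _)).mp key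

variable (𝕜)

/-- the space -/
abbrev XX : Type := lp (fun c => VV 𝕜 c) 1

/-- the enumeration -/
noncomputable def en : ℕ ≃ Σ c, Fin (NN c) := lexE NN NN_pos

/-- the basis -/
noncomputable def bx (n : ℕ) : XX 𝕜 := BS.vec 1 (TT 𝕜) (en n)

/-- the functionals -/
noncomputable def bf (n : ℕ) : XX 𝕜 →ₗ[𝕜] 𝕜 := BS.fnl 1 (TT 𝕜) (en n)

variable {𝕜}

lemma bf_bx (m n : ℕ) : bf 𝕜 m (bx 𝕜 n) = if m = n then 1 else 0 := by
  unfold bf bx
  rw [BS.fnl_vec]
  simp only [EmbeddingLike.apply_eq_iff_eq]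

lemma norm_bf_le (n : ℕ) (f : XX 𝕜) : ‖bf 𝕜 n f‖ ≤ 1 * ‖f‖ := by
  unfold bf
  obtain ⟨c, k⟩ := en n
  rw [one_mul]
  refine le_trans ?_ (lp.norm_apply_le_norm one_ne_zero f c)
  have := coord_le c ((TT 𝕜 c).symm (f c)) k
  rw [LinearEquiv.apply_symm_apply] at this
  exact this

lemma norm_bx_le (n : ℕ) : ‖bx 𝕜 n‖ ≤ 2 := by
  unfold bx BS.vec
  obtain ⟨c, k⟩ := en n
  rw [lp.norm_single (by norm_num), norm_TT]
  have hN : (0 : ℝ) < NN c := by exact_mod_cast NN_pos c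
  apply max_le
  · rw [pi_norm_le_iff_of_nonneg (by norm_num)]
    intro l
    rw [Pi.single_apply]
    split_ifs <;> simp
  · have h1 : ∀ q : Fin (NN c) × Fin (NN c),
        (NN c : ℝ)⁻¹ * ‖(Pi.single k (1 : 𝕜) : Fin (NN c) → 𝕜) q.1 -
          (Pi.single k (1 : 𝕜) : Fin (NN c) → 𝕜) q.2‖ ≤
        (if q.1 = k then (NN c : ℝ)⁻¹ else 0) + (if q.2 = k then (NN c : ℝ)⁻¹ else 0) := by
      intro q
      have hN' : 0 ≤ (NN c : ℝ)⁻¹ := by positivity
      rw [Pi.single_apply, Pi.single_apply]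
      split_ifs <;> simp
    refine (Finset.sum_le_sum fun q _ => h1 q).trans ?_
    rw [Finset.sum_add_distrib, Fintype.sum_prod_type, Fintype.sum_prod_type_right]
    have h2 : ∀ x : Fin (NN c), ∑ _y : Fin (NN c), (if x = k then (NN c : ℝ)⁻¹ else 0) =
        if x = k then 1 else 0 := by
      intro x
      split_ifs
      · rw [Finset.sum_const, Finset.card_univ, Fintype.card_fin, nsmul_eq_mul,
          mul_inv_cancel₀ hN.ne']
      · rw [Finset.sum_const_zero]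
    simp only [h2]
    rw [Finset.sum_ite_eq', if_pos (Finset.mem_univ _)]
    norm_num

lemma one_le_norm_bx (n : ℕ) : 1 ≤ ‖bx 𝕜 n‖ := by
  have := norm_bf_le n (bx 𝕜 n)
  rw [bf_bx, if_pos rfl, norm_one, one_mul] at this
  exact this

lemma dense_bx (f : XX 𝕜) :
    f ∈ closure ((Submodule.span 𝕜 (Set.range (bx 𝕜)) : Submodule 𝕜 (XX 𝕜)) : Set (XX 𝕜)) := by
  have h : Set.range (bx 𝕜) = Set.range (BS.vec 1 (TT 𝕜)) := by
    ext v
    constructor
    · rintro ⟨n, rfl⟩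
      exact ⟨en n, rfl⟩
    · rintro ⟨i, rfl⟩
      exact ⟨en.symm i, by unfold bx; rw [Equiv.apply_symm_apply]⟩
  rw [h]
  exact BS.dense_span 1 (TT 𝕜) (by norm_num) f

theorem lucc (A : Finset ℕ) (ε : ℕ → 𝕜) (hε : ∀ n ∈ A, ‖ε n‖ = 1) (a : ℕ → ℝ)
    (ha : ∀ n ∈ A, 1 ≤ a n) :
    ‖∑ n ∈ A, ε n • bx 𝕜 n‖ ≤ ‖∑ n ∈ A, (ε n * (a n : 𝕜)) • bx 𝕜 n‖ := by
  apply lp.norm_mono one_ne_zero
  intro c
  unfold bx
  rw [BS.sum_enum_apply 1 (TT 𝕜) en A ε c,
    BS.sum_enum_apply 1 (TT 𝕜) en A (fun n => ε n * (a n : 𝕜)) c]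
  apply TT_mono
  · intro k
    split_ifs with h
    · rw [norm_mul, hε _ h, one_mul, RCLike.norm_ofReal]
      exact (ha _ h).trans (le_abs_self _)
    · exact le_refl _
  · intro k l
    split_ifs with h h' h'
    · exact radial _ _ (hε _ h) (hε _ h') _ _ (ha _ h) (ha _ h')
    · rw [sub_zero, sub_zero, norm_mul, hε _ h, one_mul, RCLike.norm_ofReal]
      exact (ha _ h).trans (le_abs_self _)
    · rw [zero_sub, zero_sub, norm_neg, norm_neg, norm_mul, hε _ h', one_mul, RCLike.norm_ofReal]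
      exact (ha _ h').trans (le_abs_self _)
    · exact le_refl _

/-- the part of a block given by a predicate -/
noncomputable def part (c : ℕ) (P : Fin (NN c) → Prop) [DecidablePred P] : Finset ℕ :=
  (Finset.univ.filter P).image (fun k => en.symm ⟨c, k⟩)

lemma mem_part (c : ℕ) (P : Fin (NN c) → Prop) [DecidablePred P] (d : ℕ) (k : Fin (NN d)) :
    en.symm ⟨d, k⟩ ∈ part c P ↔ ∃ h : d = c, P (h ▸ k) := by
  unfold part
  simp only [Finset.mem_image, Finset.mem_filter, Finset.mem_univ, true_and,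
    EmbeddingLike.apply_eq_iff_eq]
  constructor
  · rintro ⟨k', hP, h⟩
    have hcd := (Sigma.mk.inj h).1
    subst hcd
    simp only [Sigma.mk.injEq, heq_eq_eq, true_and] at h
    exact ⟨rfl, h ▸ hP⟩
  · rintro ⟨h, hP⟩
    subst h
    exact ⟨k, hP, rfl⟩

lemma sum_part (c : ℕ) (P : Fin (NN c) → Prop) [DecidablePred P] :
    ∑ n ∈ part c P, (1 : 𝕜) • bx 𝕜 n = lp.single 1 c (TT 𝕜 c (fun k => if P k then 1 else 0)) := by
  unfold bx
  apply BS.ext_fnl 1 (TT 𝕜)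
  rintro ⟨d, k⟩
  rw [BS.fnl_sum_enum 1 (TT 𝕜) en (part c P) (fun _ => 1) ⟨d, k⟩, BS.fnl_apply, lp.single_apply]
  by_cases h : d = c
  · subst h
    rw [Pi.single_eq_same, LinearEquiv.symm_apply_apply]
    have := mem_part d P d k
    by_cases hP : P k
    · rw [if_pos hP, if_pos (this.mpr ⟨rfl, hP⟩)]
    · rw [if_neg hP, if_neg]
      intro hm
      exact hP (this.mp hm).2
  · rw [Pi.single_eq_of_ne h, map_zero, if_neg]
    · rfl
    · intro hm
      exact h ((mem_part c P d k).mp hm).1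

lemma part_mono (c : ℕ) (P Q : Fin (NN c) → Prop) [DecidablePred P] [DecidablePred Q]
    (h : ∀ k, P k → Q k) : part c P ⊆ part c Q := by
  unfold part
  apply Finset.image_subset_image
  intro k hk
  rw [Finset.mem_filter] at hk ⊢
  exact ⟨hk.1, h k hk.2⟩

lemma norm_full (c : ℕ) : ‖∑ n ∈ part c (fun _ => True), (1 : 𝕜) • bx 𝕜 n‖ ≤ 1 := by
  rw [sum_part, lp.norm_single (by norm_num), norm_TT]
  apply max_le
  · rw [pi_norm_le_iff_of_nonneg (by norm_num)]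
    intro k
    simp
  · simp

lemma norm_half (c : ℕ) :
    ((c : ℝ) + 1) / 2 ≤ ‖∑ n ∈ part c (fun k => (k : ℕ) < c + 1), (1 : 𝕜) • bx 𝕜 n‖ := by
  rw [sum_part, lp.norm_single (by norm_num), norm_TT]
  refine le_trans ?_ (le_max_right _ _)
  set P : Finset (Fin (NN c)) := Finset.univ.filter (fun k => (k : ℕ) < c + 1) with hP
  set Q : Finset (Fin (NN c)) := Finset.univ.filter (fun k => ¬ (k : ℕ) < c + 1) with hQ
  have hPc : P.card = c + 1 := by
    rw [hP, Fin.card_filter_val_lt]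
    unfold NN
    omega
  have hQc : Q.card = c + 1 := by
    have h1 := Finset.card_filter_add_card_filter_not (s := (Finset.univ : Finset (Fin (NN c))))
      (fun k => (k : ℕ) < c + 1)
    rw [← hP, ← hQ, hPc, Finset.card_univ, Fintype.card_fin] at h1
    unfold NN at *
    omega
  have h1 : ∑ q ∈ P ×ˢ Q, (NN c : ℝ)⁻¹ = ((c : ℝ) + 1) / 2 := by
    rw [Finset.sum_const, Finset.card_product, hPc, hQc, nsmul_eq_mul]
    unfold NN
    push_cast
    have : (0 : ℝ) < (c : ℝ) + 1 := by positivity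
    field_simp
  rw [← h1]
  refine le_trans (le_of_eq ?_) (Finset.sum_le_sum_of_subset_of_nonneg
    (Finset.subset_univ (P ×ˢ Q)) (fun q _ _ => by positivity))
  apply Finset.sum_congr rfl
  intro q hq
  rw [Finset.mem_product, hP, hQ, Finset.mem_filter, Finset.mem_filter] at hq
  rw [if_pos hq.1.2, if_neg hq.2.2, sub_zero, norm_one, mul_one]

end Pool.Agent.R267.LU
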