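import Mathlib

set_option autoImplicit false

open Filter Topology

namespace Pool.Agent.R267.NU

/-! Component spaces: `J+1` blocks of `g^J` coordinates, the `j`-th block with the norm
`max (sup norm, g^j * average of the moduli)`, and the sup of the block norms. -/

section B

variable (𝕜 : Type) [RCLike 𝕜]

/-- one block -/
def BB (g J _j : ℕ) : Type := Fin (g ^ J) → 𝕜

variable {𝕜}

instance (g J j : ℕ) : AddCommGroup (BB 𝕜 g J j) := inferInstanceAs (AddCommGroup (Fin (g ^ J) → 𝕜))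
instance (g J j : ℕ) : Module 𝕜 (BB 𝕜 g J j) := inferInstanceAs (Module 𝕜 (Fin (g ^ J) → 𝕜))
instance (g J j : ℕ) : FiniteDimensional 𝕜 (BB 𝕜 g J j) :=
  inferInstanceAs (FiniteDimensional 𝕜 (Fin (g ^ J) → 𝕜))

/-- the coordinates of an element of a block -/
def BB.fn {g J j : ℕ} (b : BB 𝕜 g J j) : Fin (g ^ J) → 𝕜 := b

/-- the weight of a coordinate of the `j`-th block -/
noncomputable def wt (g J j : ℕ) : ℝ := (g : ℝ) ^ j / (g : ℝ) ^ J

lemma wt_nonneg (g J j : ℕ) : 0 ≤ wt g J j := by unfold wt; positivity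

/-- the norm of a block, as a function -/
noncomputable def bn (g J j : ℕ) (b : Fin (g ^ J) → 𝕜) : ℝ := max ‖b‖ (wt g J j * ∑ n, ‖b n‖)

/-- the norm of a block -/
noncomputable def bnorm (g J j : ℕ) : AddGroupNorm (BB 𝕜 g J j) where
  toFun b := bn g J j b.fn
  map_zero' := by
    change max ‖(0 : Fin (g ^ J) → 𝕜)‖ (wt g J j * ∑ n, ‖(0 : Fin (g ^ J) → 𝕜) n‖) = 0
    simp
  add_le' a b := by
    change bn g J j (a.fn + b.fn) ≤ bn g J j a.fn + bn g J j b.fn
    unfold bn
    apply max_le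
    · exact (norm_add_le _ _).trans (add_le_add (le_max_left _ _) (le_max_left _ _))
    · refine le_trans ?_ (add_le_add (le_max_right _ _) (le_max_right _ _))
      rw [← mul_add, ← Finset.sum_add_distrib]
      apply mul_le_mul_of_nonneg_left _ (wt_nonneg _ _ _)
      exact Finset.sum_le_sum fun n _ => norm_add_le _ _
  neg' a := by
    change bn g J j (-a.fn) = bn g J j a.fn
    unfold bn
    simp only [norm_neg, Pi.neg_apply]
  eq_zero_of_map_eq_zero' a h := by
    have h1 : ‖a.fn‖ ≤ 0 := (le_max_left _ _).trans h.le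
    exact norm_le_zero_iff.mp h1

noncomputable instance (g J j : ℕ) : NormedAddCommGroup (BB 𝕜 g J j) :=
  (bnorm g J j).toNormedAddCommGroup

lemma bb_norm (g J j : ℕ) (b : BB 𝕜 g J j) :
    ‖b‖ = max ‖b.fn‖ (wt g J j * ∑ n, ‖b.fn n‖) := rfl

noncomputable instance (g J j : ℕ) : NormedSpace 𝕜 (BB 𝕜 g J j) where
  norm_smul_le r b := by
    rw [bb_norm, bb_norm]
    change max ‖r • b.fn‖ (wt g J j * ∑ n, ‖(r • b.fn) n‖) ≤ _
    apply max_le
    · rw [norm_smul]
      exact mul_le_mul_of_nonneg_left (le_max_left _ _) (norm_nonneg _)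
    · have : wt g J j * ∑ n, ‖(r • b.fn) n‖ = ‖r‖ * (wt g J j * ∑ n, ‖b.fn n‖) := by
        simp only [Pi.smul_apply, norm_smul]
        rw [← Finset.mul_sum]; ring
      rw [this]
      exact mul_le_mul_of_nonneg_left (le_max_right _ _) (norm_nonneg _)

end B

section V

variable (𝕜 : Type) [RCLike 𝕜]

/-- a component: the sup-sum of the `J + 1` blocks -/
abbrev VV (g J : ℕ) : Type := (j : Fin (J + 1)) → BB 𝕜 g J j

/-- coordinate arrays -/
abbrev Arr (g J : ℕ) : Type := Fin (J + 1) → Fin (g ^ J) → 𝕜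

variable {𝕜} {g J : ℕ}

/-- the average of the `j`-th row -/
noncomputable def avg (a : Arr 𝕜 g J) (j : Fin (J + 1)) : 𝕜 :=
  (((g : ℝ) ^ J)⁻¹ : ℝ) • ∑ n, a j n

/-- the average of the previous row -/
noncomputable def pavg (a : Arr 𝕜 g J) (j : Fin (J + 1)) : 𝕜 :=
  if h : (j : ℕ) = 0 then 0 else avg a ⟨j - 1, by omega⟩

/-- the shear -/
noncomputable def shear (s : ℝ) : Arr 𝕜 g J →ₗ[𝕜] VV 𝕜 g J where
  toFun a j := (fun n => a j n - s • pavg a j : Fin (g ^ J) → 𝕜)
  map_add' a b := by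
    funext j
    change (fun n => (a + b) j n - s • pavg (a + b) j : Fin (g ^ J) → 𝕜) =
      (fun n => a j n - s • pavg a j : Fin (g ^ J) → 𝕜) + (fun n => b j n - s • pavg b j)
    funext n
    have : pavg (a + b) j = pavg a j + pavg b j := by
      unfold pavg avg
      split_ifs
      · rw [add_zero]
      · simp only [Pi.add_apply, Finset.sum_add_distrib, smul_add]
    simp only [Pi.add_apply, this, smul_add]
    ring
  map_smul' r a := by
    funext j
    change (fun n => (r • a) j n - s • pavg (r • a) j : Fin (g ^ J) → 𝕜) =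
      r • (fun n => a j n - s • pavg a j : Fin (g ^ J) → 𝕜)
    funext n
    have : pavg (r • a) j = r • pavg a j := by
      unfold pavg avg
      split_ifs
      · rw [smul_zero]
      · simp only [Pi.smul_apply, ← Finset.smul_sum]
        rw [smul_comm]
    simp only [Pi.smul_apply, this, smul_sub]
    rw [smul_comm]

lemma shear_apply (s : ℝ) (a : Arr 𝕜 g J) (j : Fin (J + 1)) (n : Fin (g ^ J)) :
    (shear s a j).fn n = a j n - s • pavg a j := rfl

lemma norm_row_le (v : VV 𝕜 g J) (j : Fin (J + 1)) (n : Fin (g ^ J)) :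
    ‖(v j).fn n‖ ≤ ‖v‖ :=
  (norm_le_pi_norm (v j).fn n).trans ((le_max_left _ _).trans (norm_le_pi_norm v j))

lemma wsum_le (v : VV 𝕜 g J) (j : Fin (J + 1)) :
    wt g J j * ∑ n, ‖(v j).fn n‖ ≤ ‖v‖ :=
  (le_max_right _ _).trans (norm_le_pi_norm v j)

lemma norm_avg_le (hg : 1 ≤ g) (a : Arr 𝕜 g J) (j : Fin (J + 1)) (D : ℝ)
    (h : ∀ n, ‖a j n‖ ≤ D) : ‖avg a j‖ ≤ D := by
  unfold avg
  have hpos : (0 : ℝ) < (g : ℝ) ^ J := by positivity
  rw [norm_smul, Real.norm_of_nonneg (by positivity), inv_mul_le_iff₀ hpos]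
  refine (norm_sum_le _ _).trans ?_
  refine (Finset.sum_le_sum fun n _ => h n).trans ?_
  simp

/-- the rows of `shear s a` control the averages -/
lemma avg_rel (hg : 1 ≤ g) (s : ℝ) (a : Arr 𝕜 g J) (j : Fin (J + 1)) :
    (g : ℝ) ^ (j : ℕ) * ‖avg a j - s • pavg a j‖ ≤ ‖shear s a‖ := by
  have hpos : (0 : ℝ) < (g : ℝ) ^ J := by positivity
  refine le_trans ?_ (wsum_le (shear s a) j)
  have h1 : avg a j - s • pavg a j =
      (((g : ℝ) ^ J)⁻¹ : ℝ) • ∑ n, (shear s a j).fn n := by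
    simp only [shear_apply, Finset.sum_sub_distrib, smul_sub]
    unfold avg
    congr 1
    simp only [Finset.sum_const, Finset.card_univ, Fintype.card_fin]
    rw [← Nat.cast_smul_eq_nsmul ℝ, smul_smul]
    push_cast
    rw [inv_mul_cancel₀ hpos.ne', one_smul]
  rw [h1, norm_smul, Real.norm_of_nonneg (by positivity)]
  unfold wt
  calc (g : ℝ) ^ (j : ℕ) * (((g : ℝ) ^ J)⁻¹ * ‖∑ n, (shear s a j).fn n‖)
      = (g : ℝ) ^ (j : ℕ) / (g : ℝ) ^ J * ‖∑ n, (shear s a j).fn n‖ := by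
        field_simp
    _ ≤ _ := by
        apply mul_le_mul_of_nonneg_left (norm_sum_le _ _)
        positivity

/-- the averages are bounded by twice the norm of the shear -/
lemma avg_le (hg : 1 ≤ g) {s : ℝ} (hs0 : 0 ≤ s) (hs : s ≤ 1 / 2) (a : Arr 𝕜 g J) :
    ∀ (k : ℕ) (hk : k < J + 1), ‖avg a ⟨k, hk⟩‖ ≤ 2 * ‖shear s a‖ := by
  intro k
  induction k with
  | zero =>
    intro hk
    have h1 := avg_rel hg s a ⟨0, hk⟩
    have h2 : pavg a ⟨0, hk⟩ = 0 := by unfold pavg; simp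
    rw [h2, smul_zero, sub_zero, pow_zero, one_mul] at h1
    have := norm_nonneg (shear s a)
    linarith
  | succ k ih =>
    intro hk
    have h1 := avg_rel hg s a ⟨k + 1, hk⟩
    have h2 : pavg a ⟨k + 1, hk⟩ = avg a ⟨k, by omega⟩ := by
      unfold pavg
      rw [dif_neg (by simp)]
      rfl
    rw [h2] at h1
    have h3 := ih (by omega)
    have h4 : (1 : ℝ) ≤ (g : ℝ) ^ (k + 1) := one_le_pow₀ (by exact_mod_cast hg)
    have h5 : ‖avg a ⟨k + 1, hk⟩ - s • avg a ⟨k, by omega⟩‖ ≤ ‖shear s a‖ := by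
      refine le_trans ?_ h1
      exact le_mul_of_one_le_left (norm_nonneg _) h4
    have h6 : ‖avg a ⟨k + 1, hk⟩‖ ≤
        ‖avg a ⟨k + 1, hk⟩ - s • avg a ⟨k, by omega⟩‖ + ‖s • avg a ⟨k, by omega⟩‖ := by
      have := norm_add_le (avg a ⟨k + 1, hk⟩ - s • avg a ⟨k, by omega⟩) (s • avg a ⟨k, by omega⟩)
      rwa [sub_add_cancel] at this
    rw [norm_smul, Real.norm_of_nonneg hs0] at h6
    have h7 := norm_nonneg (avg a ⟨k, by omega⟩)
    nlinarith

lemma pavg_le (hg : 1 ≤ g) {s : ℝ} (hs0 : 0 ≤ s) (hs : s ≤ 1 / 2) (a : Arr 𝕜 g J)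
    (j : Fin (J + 1)) : ‖pavg a j‖ ≤ 2 * ‖shear s a‖ := by
  unfold pavg
  split_ifs with h
  · rw [norm_zero]; positivity
  · exact avg_le hg hs0 hs a _ _

lemma coord_le (hg : 1 ≤ g) {s : ℝ} (hs0 : 0 ≤ s) (hs : s ≤ 1 / 2) (a : Arr 𝕜 g J)
    (j : Fin (J + 1)) (n : Fin (g ^ J)) : ‖a j n‖ ≤ 2 * ‖shear s a‖ := by
  have h1 := norm_row_le (shear s a) j n
  rw [shear_apply] at h1
  have h2 := pavg_le hg hs0 hs a j
  have h3 : ‖a j n‖ ≤ ‖a j n - s • pavg a j‖ + ‖s • pavg a j‖ := by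
    have := norm_add_le (a j n - s • pavg a j) (s • pavg a j)
    rwa [sub_add_cancel] at this
  rw [norm_smul, Real.norm_of_nonneg hs0] at h3
  have h4 := norm_nonneg (pavg a j)
  nlinarith

lemma shear_injective (hg : 1 ≤ g) {s : ℝ} (hs0 : 0 ≤ s) (hs : s ≤ 1 / 2) :
    Function.Injective (shear s : Arr 𝕜 g J →ₗ[𝕜] VV 𝕜 g J) := by
  rw [injective_iff_map_eq_zero]
  intro a ha
  funext j n
  have := coord_le hg hs0 hs a j n
  rw [ha, norm_zero, mul_zero] at this
  exact norm_le_zero_iff.mp this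

/-- upper estimate for the norm of the shear of an array -/
lemma norm_shear_le (s : ℝ) (a : Arr 𝕜 g J) (D : ℝ) (hD : 0 ≤ D)
    (h1 : ∀ j n, ‖a j n - s • pavg a j‖ ≤ D)
    (h2 : ∀ j : Fin (J + 1), wt g J j * ∑ n, ‖a j n - s • pavg a j‖ ≤ D) : ‖shear s a‖ ≤ D := by
  rw [pi_norm_le_iff_of_nonneg hD]
  intro j
  rw [bb_norm]
  apply max_le
  · rw [pi_norm_le_iff_of_nonneg hD]
    intro n
    exact h1 j n
  · exact h2 j

/-- The chain lemma: a large average forces the norm to be large. -/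
lemma chain (hg : 4 ≤ g) (a : Arr 𝕜 g J) (ha : ∀ j n, ‖a j n‖ ≤ 1) :
    ∀ (k : ℕ) (x : ℝ), 0 < x → 1 ≤ (3 / 2 : ℝ) ^ k * x → ∀ (j : ℕ) (hj : j < J + 1),
      x < ‖avg a ⟨j, hj⟩‖ → (g : ℝ) ^ j ≤ (g : ℝ) ^ (k + 1) / x * ‖shear (1 / 2 : ℝ) a‖ := by
  have hg1 : 1 ≤ g := by omega
  have hg4 : (4 : ℝ) ≤ g := by exact_mod_cast hg
  have hD := norm_nonneg (shear (1 / 2 : ℝ) a)
  intro k
  induction k with
  | zero =>
    intro x _ hx j hj hlt
    have := norm_avg_le hg1 a ⟨j, hj⟩ 1 (ha _)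
    rw [pow_zero, one_mul] at hx
    linarith
  | succ k ih =>
    intro x hx0 hx j hj hlt
    rcases Nat.eq_zero_or_pos j with rfl | hjpos
    · have h1 := avg_rel hg1 (1 / 2 : ℝ) a ⟨0, hj⟩
      have h2 : pavg a ⟨0, hj⟩ = 0 := by unfold pavg; simp
      rw [h2, smul_zero, sub_zero, pow_zero, one_mul] at h1
      rw [pow_zero, div_mul_eq_mul_div, le_div_iff₀ hx0, one_mul]
      have h3 : (1 : ℝ) ≤ (g : ℝ) ^ (k + 1 + 1) := one_le_pow₀ (by linarith)
      nlinarith
    · obtain ⟨i, rfl⟩ : ∃ i, j = i + 1 := ⟨j - 1, by omega⟩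
      have h1 := avg_rel hg1 (1 / 2 : ℝ) a ⟨i + 1, hj⟩
      have h2 : pavg a ⟨i + 1, hj⟩ = avg a ⟨i, by omega⟩ := by
        unfold pavg
        rw [dif_neg (by simp)]
        rfl
      rw [h2] at h1
      set D := ‖shear (1 / 2 : ℝ) a‖ with hDdef
      have hW : (0 : ℝ) < (g : ℝ) ^ (i + 1) := by positivity
      have hpow : (4 : ℝ) ≤ (g : ℝ) ^ (k + 1 + 1) := by
        calc (4 : ℝ) ≤ g := hg4
          _ = (g : ℝ) ^ 1 := (pow_one _).symm
          _ ≤ _ := pow_le_pow_right₀ (by linarith) (by omega)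
      by_cases hc : x / 4 ≤ D / (g : ℝ) ^ (i + 1)
      · rw [le_div_iff₀ hW] at hc
        rw [div_mul_eq_mul_div, le_div_iff₀ hx0]
        nlinarith
      · push Not at hc
        have h3 : ‖avg a ⟨i + 1, hj⟩ - (1 / 2 : ℝ) • avg a ⟨i, by omega⟩‖ < x / 4 := by
          refine lt_of_le_of_lt ?_ hc
          rw [le_div_iff₀ hW, mul_comm]
          exact h1
        have h4 : ‖avg a ⟨i + 1, hj⟩‖ ≤
            ‖avg a ⟨i + 1, hj⟩ - (1 / 2 : ℝ) • avg a ⟨i, by omega⟩‖ +
            ‖(1 / 2 : ℝ) • avg a ⟨i, by omega⟩‖ := by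
          have := norm_add_le (avg a ⟨i + 1, hj⟩ - (1 / 2 : ℝ) • avg a ⟨i, by omega⟩)
            ((1 / 2 : ℝ) • avg a ⟨i, by omega⟩)
          rwa [sub_add_cancel] at this
        rw [norm_smul, Real.norm_of_nonneg (by norm_num : (0 : ℝ) ≤ 1 / 2)] at h4
        have h5 : 3 / 2 * x < ‖avg a ⟨i, by omega⟩‖ := by linarith
        have h6 := ih (3 / 2 * x) (by positivity) (by
          rw [pow_succ] at hx
          linarith) i (by omega) h5
        have h7 : (g : ℝ) ^ (i + 1) = (g : ℝ) ^ i * g := pow_succ _ _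
        have h8 : (g : ℝ) ^ (k + 1 + 1) = (g : ℝ) ^ (k + 1) * g := pow_succ _ _
        rw [h7, h8]
        have hgpos : (0 : ℝ) < g := by linarith
        have h9 : (g : ℝ) ^ (k + 1) / (3 / 2 * x) * D ≤ (g : ℝ) ^ (k + 1) / x * D := by
          apply mul_le_mul_of_nonneg_right _ hD
          apply div_le_div_of_nonneg_left (by positivity) hx0
          linarith
        calc (g : ℝ) ^ i * g ≤ ((g : ℝ) ^ (k + 1) / x * D) * g :=
              mul_le_mul_of_nonneg_right (h6.trans h9) hgpos.le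
          _ = (g : ℝ) ^ (k + 1) * g / x * D := by ring

/-- restriction of an array to a set of positions -/
noncomputable def restr (a : Arr 𝕜 g J) (A : Fin (J + 1) → Fin (g ^ J) → Prop) : Arr 𝕜 g J :=
  open Classical in fun j n => if A j n then a j n else 0

/-- near unconditionality of a component with a constant depending only on `g` and the level -/
lemma near_unc (hg : 4 ≤ g) (l : ℝ) (hl0 : 0 < l) (k : ℕ) (hk : 1 ≤ (3 / 2 : ℝ) ^ k * l)
    (a : Arr 𝕜 g J) (ha : ∀ j n, ‖a j n‖ ≤ 1) (A : Fin (J + 1) → Fin (g ^ J) → Prop)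
    (hA : ∀ j n, A j n → l ≤ ‖a j n‖) :
    ‖shear (1 / 2 : ℝ) (restr a A)‖ ≤ (3 + g * ((g : ℝ) ^ (k + 2) / l)) * ‖shear (1 / 2 : ℝ) a‖ := by
  classical
  have hg1 : 1 ≤ g := by omega
  have hg4 : (4 : ℝ) ≤ g := by exact_mod_cast hg
  set D := ‖shear (1 / 2 : ℝ) a‖ with hD
  have hD0 : 0 ≤ D := norm_nonneg _
  have hpos : (0 : ℝ) < (g : ℝ) ^ J := by positivity
  set K : ℝ := (g : ℝ) ^ (k + 2) / l with hK
  have hK0 : 0 ≤ K := by positivity
  have hKl : 2 / l ≤ K := by
    rw [hK]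
    apply div_le_div_of_nonneg_right _ hl0.le
    calc (2 : ℝ) ≤ (g : ℝ) ^ 1 := by rw [pow_one]; linarith
      _ ≤ _ := pow_le_pow_right₀ (by linarith) (by omega)
  have hrest : ∀ j n, ‖restr a A j n‖ ≤ ‖a j n‖ := by
    intro j n
    unfold restr
    split_ifs
    · exact le_refl _
    · rw [norm_zero]; exact norm_nonneg _
  -- the key bound on the weighted sizes of the rows
  have key : ∀ j : Fin (J + 1), wt g J j * ∑ n, ‖restr a A j n‖ ≤ K * D := by
    intro j
    by_cases hc : ‖(1 / 2 : ℝ) • pavg a j‖ ≤ l / 2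
    · have h1 : ∀ n, ‖restr a A j n‖ ≤ (2 / l) * ‖(shear (1 / 2 : ℝ) a j).fn n‖ := by
        intro n
        unfold restr
        split_ifs with hAn
        · rw [shear_apply]
          have h2 := hA j n hAn
          have h3 := ha j n
          have h4 : ‖a j n‖ ≤ ‖a j n - (1 / 2 : ℝ) • pavg a j‖ + ‖(1 / 2 : ℝ) • pavg a j‖ := by
            have := norm_add_le (a j n - (1 / 2 : ℝ) • pavg a j) ((1 / 2 : ℝ) • pavg a j)
            rwa [sub_add_cancel] at this
          rw [div_mul_eq_mul_div, le_div_iff₀ hl0]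
          nlinarith
        · rw [norm_zero]; positivity
      calc wt g J j * ∑ n, ‖restr a A j n‖
          ≤ wt g J j * ∑ n, (2 / l) * ‖(shear (1 / 2 : ℝ) a j).fn n‖ := by
            apply mul_le_mul_of_nonneg_left _ (wt_nonneg _ _ _)
            exact Finset.sum_le_sum fun n _ => h1 n
        _ = (2 / l) * (wt g J j * ∑ n, ‖(shear (1 / 2 : ℝ) a j).fn n‖) := by
            rw [← Finset.mul_sum]; ring
        _ ≤ (2 / l) * D := mul_le_mul_of_nonneg_left (wsum_le _ _) (by positivity)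
        _ ≤ K * D := mul_le_mul_of_nonneg_right hKl hD0
    · push Not at hc
      have hj0 : (j : ℕ) ≠ 0 := by
        intro h0
        have : pavg a j = 0 := by unfold pavg; rw [dif_pos h0]
        rw [this, smul_zero, norm_zero] at hc
        linarith
      have hpa : pavg a j = avg a ⟨j - 1, by omega⟩ := by unfold pavg; rw [dif_neg hj0]
      rw [hpa, norm_smul, Real.norm_of_nonneg (by norm_num : (0 : ℝ) ≤ 1 / 2)] at hc
      have h1 := chain hg a ha k l hl0 hk (j - 1) (by omega) (by linarith)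
      have h2 : wt g J j * ∑ n, ‖restr a A j n‖ ≤ (g : ℝ) ^ (j : ℕ) := by
        have : ∑ n, ‖restr a A j n‖ ≤ (g : ℝ) ^ J := by
          refine (Finset.sum_le_sum fun n _ => (hrest j n).trans (ha j n)).trans ?_
          simp
        unfold wt
        rw [div_mul_eq_mul_div, div_le_iff₀ hpos]
        exact mul_le_mul_of_nonneg_left this (by positivity)
      refine h2.trans ?_
      have h3 : (g : ℝ) ^ (j : ℕ) = (g : ℝ) ^ ((j : ℕ) - 1) * g := by
        rw [← pow_succ]
        congr 1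
        omega
      rw [h3]
      calc (g : ℝ) ^ ((j : ℕ) - 1) * g ≤ ((g : ℝ) ^ (k + 1) / l * D) * g :=
            mul_le_mul_of_nonneg_right h1 (by linarith)
        _ = K * D := by rw [hK]; ring
  have hpr : ∀ j, ‖pavg (restr a A) j‖ ≤ 2 * D := by
    intro j
    unfold pavg
    split_ifs with h
    · rw [norm_zero]; positivity
    · apply norm_avg_le hg1
      intro n
      exact (hrest _ _).trans (coord_le hg1 (by norm_num) (by norm_num) a _ _)
  have hK3 : 3 * D ≤ (3 + g * K) * D := by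
    apply mul_le_mul_of_nonneg_right _ hD0
    have : 0 ≤ g * K := by positivity
    linarith
  apply norm_shear_le
  · positivity
  · intro j n
    refine (norm_sub_le _ _).trans (le_trans ?_ hK3)
    rw [norm_smul, Real.norm_of_nonneg (by norm_num : (0 : ℝ) ≤ 1 / 2)]
    have h1 := (hrest j n).trans (coord_le hg1 (s := 1 / 2) (by norm_num) (by norm_num) a j n)
    have h2 := hpr j
    change ‖restr a A j n‖ ≤ 2 * D at h1
    linarith
  · intro j
    have h1 : wt g J j * ∑ n, ‖restr a A j n - (1 / 2 : ℝ) • pavg (restr a A) j‖ ≤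
        wt g J j * ∑ n, ‖restr a A j n‖ + wt g J j * ((g : ℝ) ^ J * ‖(1 / 2 : ℝ) • pavg (restr a A) j‖) := by
      rw [← mul_add]
      apply mul_le_mul_of_nonneg_left _ (wt_nonneg _ _ _)
      calc ∑ n, ‖restr a A j n - (1 / 2 : ℝ) • pavg (restr a A) j‖
          ≤ ∑ n, (‖restr a A j n‖ + ‖(1 / 2 : ℝ) • pavg (restr a A) j‖) :=
            Finset.sum_le_sum fun n _ => norm_sub_le _ _
        _ = _ := by
            rw [Finset.sum_add_distrib]
            simp
    have h2 : wt g J j * ((g : ℝ) ^ J * ‖(1 / 2 : ℝ) • pavg (restr a A) j‖) ≤ g / 2 * (K * D) := by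
      by_cases h0 : (j : ℕ) = 0
      · have : pavg (restr a A) j = 0 := by unfold pavg; rw [dif_pos h0]
        rw [this, smul_zero, norm_zero, mul_zero, mul_zero]
        positivity
      · have hpa : pavg (restr a A) j = avg (restr a A) ⟨j - 1, by omega⟩ := by
          unfold pavg; rw [dif_neg h0]
        rw [hpa, norm_smul, Real.norm_of_nonneg (by norm_num : (0 : ℝ) ≤ 1 / 2)]
        have h3 := key ⟨j - 1, by omega⟩
        have h4 : ‖avg (restr a A) ⟨(j : ℕ) - 1, by omega⟩‖ ≤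
            ((g : ℝ) ^ J)⁻¹ * ∑ n, ‖restr a A ⟨(j : ℕ) - 1, by omega⟩ n‖ := by
          unfold avg
          rw [norm_smul, Real.norm_of_nonneg (by positivity)]
          exact mul_le_mul_of_nonneg_left (norm_sum_le _ _) (by positivity)
        have h5 : wt g J j = wt g J ((j : ℕ) - 1) * g := by
          unfold wt
          have : (g : ℝ) ^ (j : ℕ) = (g : ℝ) ^ ((j : ℕ) - 1) * g := by
            rw [← pow_succ]
            congr 1
            omega
          rw [this]; ring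
        have hw := wt_nonneg g J ((j : ℕ) - 1)
        rw [h5]
        calc wt g J ((j : ℕ) - 1) * g * ((g : ℝ) ^ J *
              (1 / 2 * ‖avg (restr a A) ⟨(j : ℕ) - 1, by omega⟩‖))
            ≤ wt g J ((j : ℕ) - 1) * g * ((g : ℝ) ^ J *
              (1 / 2 * (((g : ℝ) ^ J)⁻¹ * ∑ n, ‖restr a A ⟨(j : ℕ) - 1, by omega⟩ n‖))) := by
              gcongr
          _ = g / 2 * (wt g J ((j : ℕ) - 1) * ∑ n, ‖restr a A ⟨(j : ℕ) - 1, by omega⟩ n‖) := by
              field_simp
          _ ≤ g / 2 * (K * D) := by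
              apply mul_le_mul_of_nonneg_left h3
              positivity
    have h3 := key j
    have h4 : K * D + g / 2 * (K * D) ≤ (3 + g * K) * D := by
      have : 0 ≤ K * D := by positivity
      nlinarith
    linarith

/-- unit arrays -/
def unitArr (j : Fin (J + 1)) (n : Fin (g ^ J)) : Arr 𝕜 g J := Pi.single j (Pi.single n 1)

lemma wt_le_one (hg : 1 ≤ g) {j : ℕ} (hj : j ≤ J) : wt g J j ≤ 1 := by
  unfold wt
  rw [div_le_one (by positivity)]
  exact pow_le_pow_right₀ (by exact_mod_cast hg) hj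

/-- a cheap bound for the norm of the shear: total mass -/
lemma norm_shear_le_sum (hg : 1 ≤ g) {s : ℝ} (hs0 : 0 ≤ s) (hs : s ≤ 1 / 2) (a : Arr 𝕜 g J) :
    ‖shear s a‖ ≤ 2 * ∑ j, ∑ n, ‖a j n‖ := by
  have hpos : (0 : ℝ) < (g : ℝ) ^ J := by positivity
  set S := ∑ j, ∑ n, ‖a j n‖ with hS
  have hS0 : 0 ≤ S := Finset.sum_nonneg fun j _ => Finset.sum_nonneg fun n _ => norm_nonneg _
  have hrow : ∀ j, ∑ n, ‖a j n‖ ≤ S := fun j =>
    Finset.single_le_sum (f := fun j => ∑ n, ‖a j n‖)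
      (fun j _ => Finset.sum_nonneg fun n _ => norm_nonneg _) (Finset.mem_univ j)
  have hent : ∀ j n, ‖a j n‖ ≤ S := fun j n =>
    (Finset.single_le_sum (f := fun n => ‖a j n‖)
      (fun n _ => norm_nonneg _) (Finset.mem_univ n)).trans (hrow j)
  have hpa : ∀ j, (g : ℝ) ^ J * ‖pavg a j‖ ≤ S := by
    intro j
    unfold pavg
    split_ifs with h
    · rw [norm_zero, mul_zero]; exact hS0
    · unfold avg
      rw [norm_smul, Real.norm_of_nonneg (by positivity), ← mul_assoc, mul_inv_cancel₀ hpos.ne',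
        one_mul]
      exact (norm_sum_le _ _).trans (hrow _)
  have hpa1 : ∀ j, ‖pavg a j‖ ≤ S := by
    intro j
    have h1 : (1 : ℝ) ≤ (g : ℝ) ^ J := one_le_pow₀ (by exact_mod_cast hg)
    exact (le_mul_of_one_le_left (norm_nonneg _) h1).trans (hpa j)
  apply norm_shear_le
  · positivity
  · intro j n
    refine (norm_sub_le _ _).trans ?_
    rw [norm_smul, Real.norm_of_nonneg hs0]
    have h1 := hent j n
    have h2 := hpa1 j
    have h3 := norm_nonneg (pavg a j)
    nlinarith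
  · intro j
    have hj : (j : ℕ) ≤ J := by omega
    calc wt g J j * ∑ n, ‖a j n - s • pavg a j‖ ≤ 1 * ∑ n, ‖a j n - s • pavg a j‖ := by
          apply mul_le_mul_of_nonneg_right (wt_le_one hg hj)
          exact Finset.sum_nonneg fun n _ => norm_nonneg _
      _ ≤ ∑ n, (‖a j n‖ + ‖s • pavg a j‖) := by
          rw [one_mul]
          exact Finset.sum_le_sum fun n _ => norm_sub_le _ _
      _ = ∑ n, ‖a j n‖ + (g : ℝ) ^ J * ‖s • pavg a j‖ := by
          rw [Finset.sum_add_distrib]; simp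
      _ ≤ 2 * S := by
          rw [norm_smul, Real.norm_of_nonneg hs0]
          have h1 := hrow j
          have h2 := hpa j
          have h3 : 0 ≤ (g : ℝ) ^ J * ‖pavg a j‖ := by positivity
          nlinarith

/-- the special array -/
noncomputable def geo : Arr 𝕜 g J := fun j _ => (((1 / 2 : ℝ) ^ (j : ℕ) : ℝ) : 𝕜)

lemma avg_const (hg : 1 ≤ g) (a : Arr 𝕜 g J) (j : Fin (J + 1)) (c : 𝕜) (h : ∀ n, a j n = c) :
    avg a j = c := by
  unfold avg
  have hpos : (0 : ℝ) < (g : ℝ) ^ J := by positivity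
  simp only [h, Finset.sum_const, Finset.card_univ, Fintype.card_fin]
  rw [← Nat.cast_smul_eq_nsmul ℝ, smul_smul]
  push_cast
  rw [inv_mul_cancel₀ hpos.ne', one_smul]

lemma norm_geo_le (hg : 1 ≤ g) : ‖shear (1 / 2 : ℝ) (geo : Arr 𝕜 g J)‖ ≤ 1 := by
  have hpos : (0 : ℝ) < (g : ℝ) ^ J := by positivity
  have h0 : ∀ (j : Fin (J + 1)) (n : Fin (g ^ J)), (geo : Arr 𝕜 g J) j n -
      (1 / 2 : ℝ) • pavg (geo : Arr 𝕜 g J) j = if (j : ℕ) = 0 then 1 else 0 := by
    intro j n
    unfold pavg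
    split_ifs with h
    · rw [smul_zero, sub_zero]
      unfold geo
      rw [h, pow_zero]
      simp
    · rw [avg_const hg _ _ ((((1 / 2 : ℝ) ^ ((j : ℕ) - 1) : ℝ) : 𝕜)) (fun n => rfl)]
      unfold geo
      have : (1 / 2 : ℝ) ^ (j : ℕ) = (1 / 2) * (1 / 2 : ℝ) ^ ((j : ℕ) - 1) := by
        rw [← pow_succ']
        congr 1
        omega
      rw [this, RCLike.real_smul_eq_coe_mul]
      push_cast
      ring
  apply norm_shear_le _ _ _ zero_le_one
  · intro j n
    rw [h0]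
    split_ifs <;> simp
  · intro j
    simp only [h0]
    split_ifs with h
    · simp only [norm_one, Finset.sum_const, Finset.card_univ, Fintype.card_fin, nsmul_eq_mul,
        mul_one]
      unfold wt
      rw [h, pow_zero]
      push_cast
      rw [one_div, inv_mul_cancel₀ hpos.ne']
    · simp

/-- lower estimate: a constant last row with a smaller constant next-to-last row -/
lemma last_row_lower (hg : 1 ≤ g) (a : Arr 𝕜 g J) (c : ℝ)
    (h : ∀ n, c ≤ ‖a (Fin.last J) n - (1 / 2 : ℝ) • pavg a (Fin.last J)‖) :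
    (g : ℝ) ^ J * c ≤ ‖shear (1 / 2 : ℝ) a‖ := by
  have hpos : (0 : ℝ) < (g : ℝ) ^ J := by positivity
  refine le_trans ?_ (wsum_le (shear (1 / 2 : ℝ) a) (Fin.last J))
  have h1 : (g : ℝ) ^ J * c ≤
      ∑ n, ‖(shear (1 / 2 : ℝ) a (Fin.last J)).fn n‖ := by
    have := Finset.sum_le_sum (s := Finset.univ) fun (n : Fin (g ^ J)) _ => h n
    simp only [Finset.sum_const, Finset.card_univ, Fintype.card_fin, nsmul_eq_mul] at this
    push_cast at this
    exact this
  unfold wt
  rw [Fin.val_last, div_self hpos.ne', one_mul]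
  exact h1

end V

end Pool.Agent.R267.NU
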