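import Pool.Agent.R267.NUTop

set_option autoImplicit false

open Filter Topology
open scoped ENNReal

namespace Pool.Agent.R267.NU

variable {𝕜 : Type} [RCLike 𝕜] (P : Par)

/-- `N` is an equivalent norm -/
def EquivNorm {X : Type} [NormedAddCommGroup X] [NormedSpace 𝕜 X] (N : Seminorm 𝕜 X) : Prop :=
  ∃ a b : ℝ, 0 < a ∧ ∀ f : X, a * ‖f‖ ≤ N f ∧ N f ≤ b * ‖f‖

lemma arrVec_add (c : ℕ) (a b : Arr 𝕜 (P.g c) (P.J c)) :
    arrVec P c (a + b) = arrVec P c a + arrVec P c b := by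
  unfold arrVec
  rw [map_add, lp.single_add]

lemma arrVec_smul (c : ℕ) (r : 𝕜) (a : Arr 𝕜 (P.g c) (P.J c)) :
    arrVec P c (r • a) = r • arrVec P c a := by
  unfold arrVec
  rw [map_smul, lp.single_smul]

/-- levels `≥ i` of the special array, rescaled -/
noncomputable def lev (g J : ℕ) (i : ℕ) : Arr 𝕜 g J :=
  fun j _ => if i ≤ (j : ℕ) then (((1 / 2 : ℝ) ^ ((j : ℕ) - i) : ℝ) : 𝕜) else 0

/-- the constant row `i` -/
def rw1 (g J : ℕ) (i : ℕ) : Arr 𝕜 g J := fun j _ => if (j : ℕ) = i then 1 else 0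

lemma lev_eq (g J i : ℕ) :
    (lev g J i : Arr 𝕜 g J) = rw1 g J i + (((1 / 2 : ℝ) : ℝ) : 𝕜) • lev g J (i + 1) := by
  funext j n
  change lev g J i j n = rw1 g J i j n + (((1 / 2 : ℝ) : ℝ) : 𝕜) * lev g J (i + 1) j n
  unfold lev rw1
  rcases lt_trichotomy (j : ℕ) i with h | h | h
  · rw [if_neg (by omega), if_neg (by omega), if_neg (by omega)]
    simp
  · rw [if_pos (by omega), if_pos h, if_neg (by omega), h]
    simp
  · rw [if_pos (by omega), if_neg (by omega), if_pos (by omega)]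
    have : (1 / 2 : ℝ) ^ ((j : ℕ) - i) = (1 / 2) * (1 / 2 : ℝ) ^ ((j : ℕ) - (i + 1)) := by
      rw [← pow_succ']
      congr 1
      omega
    rw [this]
    push_cast
    ring

lemma lev_zero (g J : ℕ) : (lev g J 0 : Arr 𝕜 g J) = geo := by
  funext j n
  unfold lev geo
  simp

lemma norm_lev_le (g J i : ℕ) (j : Fin (J + 1)) (n : Fin (g ^ J)) :
    ‖(lev g J i : Arr 𝕜 g J) j n‖ ≤ 1 := by
  unfold lev
  split_ifs
  · rw [RCLike.norm_ofReal, abs_of_nonneg (by positivity)]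
    exact pow_le_one₀ (by norm_num) (by norm_num)
  · simp

/-- growth of equivalent norms along the levels -/
lemma step (x : ℕ → XX 𝕜 P) (hx : x = bx P) (N : Seminorm 𝕜 (XX 𝕜 P)) (L : ℝ)
    (hQ : ∀ (A : Finset ℕ) (ε : ℕ → 𝕜), (∀ n ∈ A, ‖ε n‖ = 1) → ∀ f : XX 𝕜 P,
      (∀ n, ‖bf P n f‖ ≤ 1) → (∀ n ∈ A, bf P n f = 0) →
      N (∑ n ∈ A, ε n • x n) ≤ L * N (∑ n ∈ A, ε n • x n + f))
    (c i : ℕ) :
    N (arrVec P c (lev (P.g c) (P.J c) (i + 1))) ≤
      (2 * (1 + L)) * N (arrVec P c (lev (P.g c) (P.J c) i)) := by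
  subst hx
  have hhalf : ‖(((1 / 2 : ℝ) : ℝ) : 𝕜)‖ = 1 / 2 := by
    rw [RCLike.norm_ofReal, abs_of_nonneg (by norm_num)]
  set f : XX 𝕜 P := (((1 / 2 : ℝ) : ℝ) : 𝕜) • arrVec P c (lev (P.g c) (P.J c) (i + 1)) with hf
  set r : XX 𝕜 P := arrVec P c (rw1 (P.g c) (P.J c) i) with hr
  have hsum : (∑ n ∈ rows P c (fun j => (j : ℕ) = i), (1 : 𝕜) • bx (𝕜 := 𝕜) P n : XX 𝕜 P) = r := by
    rw [sum_rows, hr]
    congr 1
    funext j m
    unfold rw1
    split_ifs <;> rfl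
  have htot : arrVec P c (lev (P.g c) (P.J c) i) = r + f := by
    rw [lev_eq, arrVec_add, arrVec_smul]
  have hco : ∀ n, bf P n f = (((1 / 2 : ℝ) : ℝ) : 𝕜) *
      bf P n (arrVec P c (lev (P.g c) (P.J c) (i + 1))) := by
    intro n
    rw [hf, map_smul, smul_eq_mul]
  have h1 := hQ (rows P c (fun j => (j : ℕ) = i)) (fun _ => 1) (fun _ _ => norm_one) f (by
      intro n
      rw [hco, norm_mul, hhalf]
      obtain ⟨⟨d, j, m⟩, rfl⟩ := (enm P).symm.surjective n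
      by_cases h : d = c
      · subst h
        rw [bf_arrVec]
        have := norm_lev_le (𝕜 := 𝕜) (P.g d) (P.J d) (i + 1) j m
        linarith
      · rw [bf_arrVec_ne P h, norm_zero]
        norm_num) (by
      intro n hn
      obtain ⟨⟨d, j, m⟩, rfl⟩ := (enm P).symm.surjective n
      obtain ⟨h, hj⟩ := (mem_rows P c _ d j m).mp hn
      subst h
      change (j : ℕ) = i at hj
      rw [hco, bf_arrVec]
      unfold lev
      rw [if_neg (by omega), mul_zero])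
  rw [hsum, ← htot] at h1
  have h2 : N f ≤ N (arrVec P c (lev (P.g c) (P.J c) i)) + N r := by
    have h3 : f = arrVec P c (lev (P.g c) (P.J c) i) - r := by
      rw [htot, add_sub_cancel_left]
    rw [h3]
    exact map_sub_le_add N _ _
  have h4 : N f = 1 / 2 * N (arrVec P c (lev (P.g c) (P.J c) (i + 1))) := by
    rw [hf, map_smul_eq_mul, hhalf]
  rw [h4] at h2
  linarith

/-- `L`-QGLC under an equivalent norm fails if there are long components of large growth. -/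
theorem not_qglc (N : Seminorm 𝕜 (XX 𝕜 P)) (hN : EquivNorm N) (L : ℝ) (hL : 0 ≤ L)
    (G : ℕ) (hG : 2 * (1 + L) < G)
    (hlong : ∀ J, ∃ c, P.g c = G ∧ P.J c = J ∧ P.s c = 1 / 2)
    (hQ : ∀ (A : Finset ℕ) (ε : ℕ → 𝕜), (∀ n ∈ A, ‖ε n‖ = 1) → ∀ f : XX 𝕜 P,
      (∀ n, ‖bf P n f‖ ≤ 1) → (∀ n ∈ A, bf P n f = 0) →
      N (∑ n ∈ A, ε n • bx (𝕜 := 𝕜) P n) ≤ L * N (∑ n ∈ A, ε n • bx (𝕜 := 𝕜) P n + f)) :
    False := by
  obtain ⟨a, b, ha, hab⟩ := hN
  have hρ : (0 : ℝ) < 2 * (1 + L) := by positivity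
  obtain ⟨J, hJ⟩ := pow_unbounded_of_one_lt (b / a) ((one_lt_div hρ).mpr hG)
  obtain ⟨c, hcg, hcJ, hcs⟩ := hlong J
  subst hcg
  subst hcJ
  have hgr : ∀ i, N (arrVec P c (lev (P.g c) (P.J c) i)) ≤
      (2 * (1 + L)) ^ i * N (arrVec P c (lev (P.g c) (P.J c) 0)) := by
    intro i
    induction i with
    | zero => rw [pow_zero, one_mul]
    | succ i ih =>
      refine (step P (bx P) rfl N L hQ c i).trans ((mul_le_mul_of_nonneg_left ih hρ.le).trans ?_)
      rw [pow_succ']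
      exact le_of_eq (by ring)
  have hg1 : 1 ≤ P.g c := by have := P.hg c; omega
  have h0 : N (arrVec P c (lev (P.g c) (P.J c) 0)) ≤ b := by
    have hb := (hab (arrVec P c (lev (P.g c) (P.J c) 0))).2
    have h1 : ‖arrVec P c (lev (𝕜 := 𝕜) (P.g c) (P.J c) 0)‖ ≤ 1 := by
      rw [norm_arrVec, lev_zero, hcs]
      exact norm_geo_le hg1
    have hb0 : 0 ≤ b := by
      by_contra hneg
      push Not at hneg
      have h2 := hab (arrVec P c (lev (𝕜 := 𝕜) (P.g c) (P.J c) (P.J c)))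
      have h3 : 0 < ‖arrVec P c (lev (𝕜 := 𝕜) (P.g c) (P.J c) (P.J c))‖ := by
        rw [norm_pos_iff]
        intro h
        have h4 := carr_arrVec_same P c (lev (𝕜 := 𝕜) (P.g c) (P.J c) (P.J c))
        rw [h] at h4
        have h5 := congrFun (congrFun h4 (Fin.last _)) ⟨0, by positivity⟩
        unfold lev carr at h5
        rw [map_zero] at h5
        simp at h5
      nlinarith
    calc _ ≤ b * ‖arrVec P c (lev (𝕜 := 𝕜) (P.g c) (P.J c) 0)‖ := hb
      _ ≤ b * 1 := mul_le_mul_of_nonneg_left h1 hb0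
      _ = b := mul_one b
  have h1 := hgr (P.J c)
  have h2 : (P.g c : ℝ) ^ (P.J c) * 1 ≤ ‖arrVec P c (lev (𝕜 := 𝕜) (P.g c) (P.J c) (P.J c))‖ := by
    rw [norm_arrVec, hcs]
    apply last_row_lower hg1
    intro n
    have hp : pavg (lev (𝕜 := 𝕜) (P.g c) (P.J c) (P.J c)) (Fin.last _) = 0 := by
      unfold pavg
      split_ifs with h
      · rfl
      · apply avg_const hg1
        intro m
        unfold lev
        rw [if_neg]
        have : ((Fin.last (P.J c) : Fin (P.J c + 1)) : ℕ) = P.J c := rfl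
        simp only [this] at h ⊢
        omega
    rw [hp, smul_zero, sub_zero]
    unfold lev
    simp
  have h3 := (hab (arrVec P c (lev (𝕜 := 𝕜) (P.g c) (P.J c) (P.J c)))).1
  rw [mul_one] at h2
  have h4 : a * (P.g c : ℝ) ^ (P.J c) ≤ (2 * (1 + L)) ^ (P.J c) * b := by
    calc a * (P.g c : ℝ) ^ (P.J c) ≤ a * ‖arrVec P c (lev (𝕜 := 𝕜) (P.g c) (P.J c) (P.J c))‖ :=
          mul_le_mul_of_nonneg_left h2 ha.le
      _ ≤ N (arrVec P c (lev (𝕜 := 𝕜) (P.g c) (P.J c) (P.J c))) := h3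
      _ ≤ _ := h1.trans (mul_le_mul_of_nonneg_left h0 (by positivity))
  rw [div_lt_iff₀ ha] at hJ
  have h5 : ((P.g c : ℝ) / (2 * (1 + L))) ^ (P.J c) * a ≤ b := by
    rw [div_pow, div_mul_eq_mul_div, div_le_iff₀ (by positivity)]
    linarith
  linarith

end Pool.Agent.R267.NU
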