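import Pool.Agent.R267.NUComp
import Pool.Agent.R267.BlockSum

set_option autoImplicit false

open Filter Topology
open scoped ENNReal

namespace Pool.Agent.R267.NU

variable {𝕜 : Type} [RCLike 𝕜]

/-- arrays and elements of a component have the same dimension -/
noncomputable def arrEquiv (g J : ℕ) : Arr 𝕜 g J ≃ₗ[𝕜] VV 𝕜 g J where
  toFun a := fun j => a j
  map_add' _ _ := rfl
  map_smul' _ _ := rfl
  invFun a := fun j => (a j).fn
  left_inv _ := rfl
  right_inv _ := rfl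

instance (g J : ℕ) : FiniteDimensional 𝕜 (VV 𝕜 g J) := Module.Finite.equiv (arrEquiv g J)

/-- the shear as an equivalence -/
noncomputable def shearE {g : ℕ} (J : ℕ) {s : ℝ} (hg : 1 ≤ g) (hs0 : 0 ≤ s) (hs : s ≤ 1 / 2) :
    Arr 𝕜 g J ≃ₗ[𝕜] VV 𝕜 g J :=
  LinearEquiv.ofInjectiveOfFinrankEq (shear s) (shear_injective hg hs0 hs)
    (arrEquiv g J).finrank_eq

lemma shearE_apply {g : ℕ} (J : ℕ) {s : ℝ} (hg : 1 ≤ g) (hs0 : 0 ≤ s) (hs : s ≤ 1 / 2)
    (a : Arr 𝕜 g J) : shearE J hg hs0 hs a = shear s a := by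
  unfold shearE
  rfl

/-- parameters of the construction -/
structure Par where
  g : ℕ → ℕ
  J : ℕ → ℕ
  s : ℕ → ℝ
  hg : ∀ c, 4 ≤ g c
  hs0 : ∀ c, 0 ≤ s c
  hs : ∀ c, s c ≤ 1 / 2

variable (P : Par)

/-- index set of a component -/
abbrev KK (P : Par) (c : ℕ) : Type := Fin (P.J c + 1) × Fin (P.g c ^ P.J c)

/-- the coordinate isomorphism of a component -/
noncomputable def TT (c : ℕ) : (KK P c → 𝕜) ≃ₗ[𝕜] VV 𝕜 (P.g c) (P.J c) :=
  (LinearEquiv.curry 𝕜 𝕜 (Fin (P.J c + 1)) (Fin (P.g c ^ P.J c))).trans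
    (shearE (P.J c) (by have := P.hg c; omega) (P.hs0 c) (P.hs c))

lemma TT_apply (c : ℕ) (b : KK P c → 𝕜) : TT P c b = shear (P.s c) (fun j n => b (j, n)) := by
  unfold TT
  rw [LinearEquiv.trans_apply, shearE_apply]
  rfl

instance (c : ℕ) : Nonempty (KK P c) := by
  have := P.hg c
  have h : 0 < P.g c ^ P.J c := by positivity
  exact ⟨(0, ⟨0, h⟩)⟩

/-- the index set of the basis -/
abbrev Idx (P : Par) : Type := Σ c, KK P c

instance : Infinite (Idx P) :=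
  Infinite.of_surjective (fun i : Idx P => i.1) (fun c => ⟨⟨c, Classical.arbitrary _⟩, rfl⟩)

/-- an enumeration of the index set -/
noncomputable def enm : ℕ ≃ Idx P := (nonempty_denumerable (Idx P)).some.eqv.symm


/-- the space: the `ℓ₁`-sum of the components -/
abbrev XX (𝕜 : Type) [RCLike 𝕜] (P : Par) : Type := lp (fun c => VV 𝕜 (P.g c) (P.J c)) 1

/-- the basis -/
noncomputable def bx (n : ℕ) : XX 𝕜 P := BS.vec 1 (TT P) (enm P n)

/-- the coordinate functionals -/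
noncomputable def bf (n : ℕ) : XX 𝕜 P →ₗ[𝕜] 𝕜 := BS.fnl 1 (TT P) (enm P n)

lemma bf_bx (m n : ℕ) : bf P m (bx P n : XX 𝕜 P) = if m = n then 1 else 0 := by
  unfold bf bx
  rw [BS.fnl_vec]
  simp only [EmbeddingLike.apply_eq_iff_eq]

lemma norm_bx (n : ℕ) : ‖(bx P n : XX 𝕜 P)‖ ≤ 2 := by
  unfold bx BS.vec
  obtain ⟨c, j0, n0⟩ := enm P n
  have hg1 : 1 ≤ P.g c := by have := P.hg c; omega
  rw [lp.norm_single (by norm_num), TT_apply]
  refine (norm_shear_le_sum hg1 (P.hs0 c) (P.hs c) _).trans ?_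
  have h1 : ∀ j, ∑ m, ‖(Pi.single (j0, n0) (1 : 𝕜) : KK P c → 𝕜) (j, m)‖ =
      if j = j0 then 1 else 0 := by
    intro j
    split_ifs with h
    · subst h
      rw [Finset.sum_eq_single n0]
      · simp
      · intro b _ hb
        rw [Pi.single_eq_of_ne, norm_zero]
        simpa using hb
      · simp
    · apply Finset.sum_eq_zero
      intro b _
      rw [Pi.single_eq_of_ne, norm_zero]
      simp [h]
  have h2 : ∑ j, ∑ m, ‖(Pi.single (j0, n0) (1 : 𝕜) : KK P c → 𝕜) (j, m)‖ = 1 := by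
    simp only [h1, Finset.sum_ite_eq', Finset.mem_univ, if_true]
  change 2 * ∑ j, ∑ m, ‖(Pi.single (j0, n0) (1 : 𝕜) : KK P c → 𝕜) (j, m)‖ ≤ 2
  rw [h2, mul_one]

/-- the array of coordinates in a component -/
noncomputable def carr (f : XX 𝕜 P) (c : ℕ) : Arr 𝕜 (P.g c) (P.J c) :=
  fun j n => BS.fnl 1 (TT P) ⟨c, (j, n)⟩ f

lemma apply_eq_shear (f : XX 𝕜 P) (c : ℕ) : f c = shear (P.s c) (carr P f c) := by
  rw [BS.apply_eq 1 (TT P) f c, TT_apply]
  rfl

lemma norm_fnl (i : Idx P) (f : XX 𝕜 P) : ‖BS.fnl 1 (TT P) i f‖ ≤ 2 * ‖f‖ := by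
  obtain ⟨c, j, n⟩ := i
  have hg1 : 1 ≤ P.g c := by have := P.hg c; omega
  have h1 := coord_le hg1 (P.hs0 c) (P.hs c) (carr P f c) j n
  rw [← apply_eq_shear] at h1
  have h2 := lp.norm_apply_le_norm one_ne_zero f c
  change ‖carr P f c j n‖ ≤ 2 * ‖f‖
  linarith

lemma norm_bf (n : ℕ) (f : XX 𝕜 P) : ‖bf P n f‖ ≤ 2 * ‖f‖ := norm_fnl P _ f

lemma range_bx : Set.range (bx (𝕜 := 𝕜) P) = Set.range (BS.vec 1 (TT (𝕜 := 𝕜) P)) := by
  ext v
  constructor
  · rintro ⟨n, rfl⟩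
    exact ⟨enm P n, rfl⟩
  · rintro ⟨i, rfl⟩
    exact ⟨(enm P).symm i, by unfold bx; rw [Equiv.apply_symm_apply]⟩

lemma dense_bx (f : XX 𝕜 P) :
    f ∈ closure ((Submodule.span 𝕜 (Set.range (bx (𝕜 := 𝕜) P)) : Submodule 𝕜 (XX 𝕜 P)) :
      Set (XX 𝕜 P)) := by
  rw [range_bx]
  exact BS.dense_span 1 (TT (𝕜 := 𝕜) P) (by norm_num) f

lemma carr_sum (A : Finset ℕ) (a : ℕ → 𝕜) (c : ℕ) :
    carr P (∑ n ∈ A, a n • bx P n) c = fun j m =>
      if (enm P).symm ⟨c, (j, m)⟩ ∈ A then a ((enm P).symm ⟨c, (j, m)⟩) else 0 := by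
  funext j m
  unfold carr
  rw [map_sum]
  unfold bx
  simp only [map_smul, BS.fnl_vec, smul_eq_mul, mul_ite, mul_one, mul_zero]
  have : ∀ n, ((⟨c, (j, m)⟩ : Idx P) = enm P n) ↔ ((enm P).symm ⟨c, (j, m)⟩ = n) := by
    intro n
    exact (Equiv.symm_apply_eq _).symm
  simp only [this]
  rw [Finset.sum_ite_eq]

/-- uniform near unconditionality of the components -/
def UNU (𝕜 : Type) [RCLike 𝕜] (P : Par) : Prop :=
  ∀ l : ℝ, 0 < l → ∃ C : ℝ, 0 ≤ C ∧ ∀ (c : ℕ) (a : Arr 𝕜 (P.g c) (P.J c)),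
    (∀ j n, ‖a j n‖ ≤ 1) → ∀ A : Fin (P.J c + 1) → Fin (P.g c ^ P.J c) → Prop,
      (∀ j n, A j n → l ≤ ‖a j n‖) →
      ‖shear (P.s c) (restr a A)‖ ≤ C * ‖shear (P.s c) a‖

theorem nearly_unc (hU : UNU 𝕜 P) (l : ℝ) (hl : 0 < l) :
    ∃ C : ℝ, ∀ f : XX 𝕜 P, (∀ n : ℕ, ‖bf P n f‖ ≤ 1) →
        ∀ A : Finset ℕ, (∀ n ∈ A, l ≤ ‖bf P n f‖) →
          ‖∑ n ∈ A, bf P n f • bx (𝕜 := 𝕜) P n‖ ≤ C * ‖f‖ := by
  obtain ⟨C, hC0, hC⟩ := hU l hl
  refine ⟨C, fun f hf A hA => ?_⟩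
  have hnorm : ‖(C : 𝕜) • f‖ = C * ‖f‖ := by
    rw [norm_smul, RCLike.norm_ofReal, abs_of_nonneg hC0]
  rw [← hnorm]
  apply lp.norm_mono one_ne_zero
  intro c
  rw [apply_eq_shear, lp.coeFn_smul, Pi.smul_apply, norm_smul, RCLike.norm_ofReal,
    abs_of_nonneg hC0, apply_eq_shear P f c]
  have h1 : carr P (∑ n ∈ A, bf P n f • bx P n) c =
      restr (carr P f c) (fun j m => (enm P).symm ⟨c, (j, m)⟩ ∈ A) := by
    rw [carr_sum]
    funext j m
    unfold restr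
    by_cases h : (enm P).symm ⟨c, (j, m)⟩ ∈ A
    · rw [if_pos h, if_pos h]
      unfold bf carr
      rw [Equiv.apply_symm_apply]
    · rw [if_neg h, if_neg h]
  rw [h1]
  apply hC
  · intro j m
    have := hf ((enm P).symm ⟨c, (j, m)⟩)
    unfold bf at this
    rwa [Equiv.apply_symm_apply] at this
  · intro j m hjm
    have := hA _ hjm
    unfold bf at this
    rwa [Equiv.apply_symm_apply] at this


/-- the vector with a given array of coordinates in one component -/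
noncomputable def arrVec (c : ℕ) (a : Arr 𝕜 (P.g c) (P.J c)) : XX 𝕜 P :=
  lp.single 1 c (shear (P.s c) a)

lemma norm_arrVec (c : ℕ) (a : Arr 𝕜 (P.g c) (P.J c)) : ‖arrVec P c a‖ = ‖shear (P.s c) a‖ := by
  unfold arrVec
  exact lp.norm_single (by norm_num) _ _

lemma carr_arrVec_same (c : ℕ) (a : Arr 𝕜 (P.g c) (P.J c)) : carr P (arrVec P c a) c = a := by
  have hg1 : 1 ≤ P.g c := by have := P.hg c; omega
  apply shear_injective hg1 (P.hs0 c) (P.hs c)
  rw [← apply_eq_shear]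
  unfold arrVec
  rw [lp.single_apply, Pi.single_eq_same]

lemma carr_arrVec_ne {c d : ℕ} (h : d ≠ c) (a : Arr 𝕜 (P.g c) (P.J c)) :
    carr P (arrVec P c a) d = 0 := by
  have hg1 : 1 ≤ P.g d := by have := P.hg d; omega
  apply shear_injective hg1 (P.hs0 d) (P.hs d)
  rw [← apply_eq_shear, map_zero]
  unfold arrVec
  rw [lp.single_apply, Pi.single_eq_of_ne h]

lemma ext_carr {f f' : XX 𝕜 P} (h : ∀ c, carr P f c = carr P f' c) : f = f' := by
  apply BS.ext_fnl 1 (TT P)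
  rintro ⟨c, j, n⟩
  exact congrFun (congrFun (h c) j) n

/-- the positions of a row-set in one component, as a set of basis indices -/
noncomputable def rows (c : ℕ) (R : Fin (P.J c + 1) → Prop) : Finset ℕ :=
  open Classical in
  (Finset.univ.filter (fun jn : KK P c => R jn.1)).image (fun jn => (enm P).symm ⟨c, jn⟩)

lemma mem_rows (c : ℕ) (R : Fin (P.J c + 1) → Prop) (d : ℕ) (j : Fin (P.J d + 1))
    (n : Fin (P.g d ^ P.J d)) :
    (enm P).symm ⟨d, (j, n)⟩ ∈ rows P c R ↔ ∃ h : d = c, R (h ▸ j) := by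
  classical
  unfold rows
  simp only [Finset.mem_image, Finset.mem_filter, Finset.mem_univ, true_and,
    EmbeddingLike.apply_eq_iff_eq]
  constructor
  · rintro ⟨⟨j', n'⟩, hR, h⟩
    have hcd := (Sigma.mk.inj h).1
    subst hcd
    simp only [Sigma.mk.injEq, heq_eq_eq, true_and, Prod.mk.injEq] at h
    refine ⟨rfl, ?_⟩
    rw [← h.1]
    exact hR
  · rintro ⟨h, hR⟩
    subst h
    exact ⟨(j, n), hR, rfl⟩

lemma sum_rows (c : ℕ) (R : Fin (P.J c + 1) → Prop) (a : ℕ → 𝕜) :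
    (∑ n ∈ rows P c R, a n • bx P n : XX 𝕜 P) =
      arrVec P c (open Classical in fun j m => if R j then a ((enm P).symm ⟨c, (j, m)⟩) else 0) := by
  classical
  apply ext_carr
  intro d
  by_cases h : d = c
  · subst h
    rw [carr_sum, carr_arrVec_same]
    funext j m
    have := mem_rows P d R d j m
    by_cases hR : R j
    · rw [if_pos hR, if_pos (this.mpr ⟨rfl, hR⟩)]
    · rw [if_neg hR, if_neg]
      intro hm
      obtain ⟨_, hR'⟩ := this.mp hm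
      exact hR hR'
  · rw [carr_sum, carr_arrVec_ne P h]
    funext j m
    rw [if_neg]
    · rfl
    · intro hm
      exact h ((mem_rows P c R d j m).mp hm).1

lemma bf_arrVec (c : ℕ) (a : Arr 𝕜 (P.g c) (P.J c)) (j : Fin (P.J c + 1))
    (m : Fin (P.g c ^ P.J c)) : bf P ((enm P).symm ⟨c, (j, m)⟩) (arrVec P c a) = a j m := by
  have := congrFun (congrFun (carr_arrVec_same P c a) j) m
  unfold bf
  rw [Equiv.apply_symm_apply]
  exact this

lemma bf_arrVec_ne {c d : ℕ} (h : d ≠ c) (a : Arr 𝕜 (P.g c) (P.J c)) (j : Fin (P.J d + 1))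
    (m : Fin (P.g d ^ P.J d)) : bf P ((enm P).symm ⟨d, (j, m)⟩) (arrVec P c a) = 0 := by
  have := congrFun (congrFun (carr_arrVec_ne P h a) j) m
  unfold bf
  rw [Equiv.apply_symm_apply]
  exact this


lemma shear_zero_mono {g J : ℕ} (a b : Arr 𝕜 g J) (h : ∀ j n, ‖b j n‖ ≤ ‖a j n‖) :
    ‖shear (0 : ℝ) b‖ ≤ ‖shear (0 : ℝ) a‖ := by
  apply norm_shear_le _ _ _ (norm_nonneg _)
  · intro j n
    rw [zero_smul, sub_zero]
    refine (h j n).trans ?_
    have := norm_row_le (shear (0 : ℝ) a) j n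
    rwa [shear_apply, zero_smul, sub_zero] at this
  · intro j
    refine le_trans ?_ (wsum_le (shear (0 : ℝ) a) j)
    apply mul_le_mul_of_nonneg_left _ (wt_nonneg _ _ _)
    apply Finset.sum_le_sum
    intro n _
    rw [shear_apply, zero_smul, sub_zero, zero_smul, sub_zero]
    exact h j n

lemma unu_of (G : ℕ) (hG : ∀ c, P.s c = 0 ∨ (P.s c = 1 / 2 ∧ P.g c = G)) : UNU 𝕜 P := by
  intro l hl
  obtain ⟨k, hk⟩ := pow_unbounded_of_one_lt (1 / l) (by norm_num : (1 : ℝ) < 3 / 2)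
  have hk' : 1 ≤ (3 / 2 : ℝ) ^ k * l := by
    rw [div_lt_iff₀ hl] at hk
    exact hk.le
  have hC0 : (0 : ℝ) ≤ G * ((G : ℝ) ^ (k + 2) / l) := by positivity
  refine ⟨3 + G * ((G : ℝ) ^ (k + 2) / l), by positivity, fun c a ha A hA => ?_⟩
  rcases hG c with h | ⟨h, hg⟩
  · rw [h]
    refine (shear_zero_mono a (restr a A) ?_).trans ?_
    · intro j n
      unfold restr
      split_ifs
      · exact le_refl _
      · rw [norm_zero]; exact norm_nonneg _
    · have := norm_nonneg (shear (0 : ℝ) a)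
      nlinarith
  · rw [h]
    have := near_unc (P.hg c) l hl k hk' a ha A hA
    rw [show ((P.g c : ℕ) : ℝ) = G from by rw [hg]] at this
    exact this

end Pool.Agent.R267.NU
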