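import Mathlib

set_option autoImplicit false

open Filter Topology

/-! A greedy ordering of finitely many scalars with bounded partial sums. -/

namespace Pool.Agent.R267.Ord

variable {𝕜 : Type} [RCLike 𝕜] {ι : Type} [DecidableEq ι]

lemma norm_add_sq' (P a : 𝕜) :
    ‖P + a‖ ^ 2 = ‖P‖ ^ 2 + ‖a‖ ^ 2 + 2 * RCLike.re (P * (starRingEnd 𝕜) a) := by
  rw [← RCLike.normSq_eq_def', RCLike.normSq_add, RCLike.normSq_eq_def', RCLike.normSq_eq_def']

omit [DecidableEq ι] in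
lemma exists_neg (a : ι → 𝕜) (R : Finset ι) (hR : R.Nonempty) (P T : 𝕜) (S : ℝ) (hT : ‖T‖ ≤ S)
    (hsum : P + ∑ i ∈ R, a i = T) (hP : S < ‖P‖) :
    ∃ i ∈ R, RCLike.re (P * (starRingEnd 𝕜) (a i)) ≤ 0 := by
  by_contra hcon
  push Not at hcon
  have h1 : 0 < ∑ i ∈ R, RCLike.re (P * (starRingEnd 𝕜) (a i)) :=
    Finset.sum_pos hcon hR
  have h2 : ∑ i ∈ R, RCLike.re (P * (starRingEnd 𝕜) (a i)) =
      RCLike.re (P * (starRingEnd 𝕜) T) - ‖P‖ ^ 2 := by
    have h3 : ∑ i ∈ R, a i = T - P := by rw [← hsum]; ring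
    have h4 : ∑ i ∈ R, P * (starRingEnd 𝕜) (a i) = P * (starRingEnd 𝕜) (T - P) := by
      rw [← h3, map_sum, Finset.mul_sum]
    rw [← map_sum, h4, map_sub, mul_sub, map_sub, RCLike.mul_conj]
    congr 1
    norm_cast
  have h5 : RCLike.re (P * (starRingEnd 𝕜) T) ≤ ‖P‖ * S := by
    refine (RCLike.re_le_norm _).trans ?_
    rw [norm_mul, RCLike.norm_conj]
    exact mul_le_mul_of_nonneg_left hT (norm_nonneg _)
  have h6 : 0 ≤ S := (norm_nonneg T).trans hT
  nlinarith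

/-- greedy ordering, as a list -/
lemma order (a : ι → 𝕜) (S M : ℝ) (T : 𝕜) (hT : ‖T‖ ≤ S) :
    ∀ (n : ℕ) (R : Finset ι), R.card = n → (∀ i ∈ R, ‖a i‖ ≤ M) → ∀ (P : 𝕜) (B : ℝ), 0 ≤ B →
      P + ∑ i ∈ R, a i = T → ‖P‖ ^ 2 ≤ (S + M) ^ 2 + B →
      ∃ l : List ι, l.Nodup ∧ (∀ i, i ∈ l ↔ i ∈ R) ∧
        ∀ k, ‖P + ((l.take k).map a).sum‖ ^ 2 ≤ (S + M) ^ 2 + B + ∑ i ∈ R, ‖a i‖ ^ 2 := by
  have hS : 0 ≤ S := (norm_nonneg T).trans hT
  intro n
  induction n with
  | zero =>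
    intro R hR _ P B hB _ hP
    rw [Finset.card_eq_zero] at hR
    subst hR
    refine ⟨[], List.nodup_nil, by simp, fun k => ?_⟩
    simpa using hP
  | succ n ih =>
    intro R hR ha P B hB hsum hP
    have hne : R.Nonempty := by
      rw [← Finset.card_pos]; omega
    have key : ∃ i ∈ R, ‖P + a i‖ ^ 2 ≤ (S + M) ^ 2 + (B + ‖a i‖ ^ 2) := by
      by_cases hc : ‖P‖ ≤ S
      · obtain ⟨i, hi⟩ := hne
        refine ⟨i, hi, ?_⟩
        have h1 : ‖P + a i‖ ≤ S + M := (norm_add_le _ _).trans (add_le_add hc (ha i hi))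
        have h2 : ‖P + a i‖ ^ 2 ≤ (S + M) ^ 2 := pow_le_pow_left₀ (norm_nonneg _) h1 2
        have h3 : 0 ≤ ‖a i‖ ^ 2 := by positivity
        linarith
      · push Not at hc
        obtain ⟨i, hi, h⟩ := exists_neg a R hne P T S hT hsum hc
        refine ⟨i, hi, ?_⟩
        rw [norm_add_sq']
        linarith
    obtain ⟨i, hi, hPi⟩ := key
    have hsum' : P + a i + ∑ j ∈ R.erase i, a j = T := by
      rw [← hsum, ← Finset.add_sum_erase R a hi]
      ring
    obtain ⟨l, hl1, hl2, hl3⟩ := ih (R.erase i) (by rw [Finset.card_erase_of_mem hi]; omega)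
      (fun j hj => ha j (Finset.mem_of_mem_erase hj)) (P + a i) (B + ‖a i‖ ^ 2) (by positivity)
      hsum' hPi
    have htot : ‖a i‖ ^ 2 + ∑ j ∈ R.erase i, ‖a j‖ ^ 2 = ∑ j ∈ R, ‖a j‖ ^ 2 :=
      Finset.add_sum_erase R (fun j => ‖a j‖ ^ 2) hi
    refine ⟨i :: l, ?_, ?_, ?_⟩
    · rw [List.nodup_cons]
      refine ⟨?_, hl1⟩
      rw [hl2]
      simp
    · intro j
      rw [List.mem_cons, hl2, Finset.mem_erase]
      constructor
      · rintro (h | h)
        · rw [h]; exact hi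
        · exact h.2
      · intro h
        by_cases hji : j = i
        · exact Or.inl hji
        · exact Or.inr ⟨hji, h⟩
    · intro k
      rcases k with _ | k
      · simp only [List.take_zero, List.map_nil, List.sum_nil, add_zero]
        have : 0 ≤ ∑ j ∈ R, ‖a j‖ ^ 2 := Finset.sum_nonneg fun _ _ => by positivity
        linarith
      · rw [List.take_succ_cons, List.map_cons, List.sum_cons, ← add_assoc]
        have := hl3 k
        linarith

/-- greedy ordering, as a permutation of `Fin N` -/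
theorem exists_perm {N : ℕ} (a : Fin N → 𝕜) (D : ℝ) (h1 : ∀ i, ‖a i‖ ≤ D) (h2 : ‖∑ i, a i‖ ≤ D)
    (h3 : ∑ i, ‖a i‖ ^ 2 ≤ D ^ 2) :
    ∃ π : Equiv.Perm (Fin N), ∀ k : ℕ,
      ‖∑ i ∈ Finset.univ.filter (fun i => ((π.symm i : Fin N) : ℕ) < k), a i‖ ≤ 3 * D := by
  have hD : 0 ≤ D := (norm_nonneg _).trans h2
  obtain ⟨l, hl1, hl2, hl3⟩ := order a D D (∑ i, a i) h2 _ Finset.univ rfl (fun i _ => h1 i) 0 0
    le_rfl (by rw [zero_add]) (by rw [norm_zero]; nlinarith [sq_nonneg (D + D)])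
  have hall : ∀ i, i ∈ l := fun i => (hl2 i).mpr (Finset.mem_univ i)
  have hlen : l.length = N := by
    have := Fintype.card_congr (hl1.getEquivOfForallMemList l hall)
    simpa using this
  set e : Fin N ≃ Fin N := (finCongr hlen.symm).trans (hl1.getEquivOfForallMemList l hall) with he
  refine ⟨e, fun k => ?_⟩
  have hmem : ∀ i, ((e.symm i : Fin N) : ℕ) < k ↔ i ∈ l.take k := by
    intro i
    obtain ⟨j, rfl⟩ := e.surjective i
    rw [Equiv.symm_apply_apply]
    have hej : e j = l[(j : ℕ)]'(by rw [hlen]; exact j.2) := rfl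
    constructor
    · intro hj
      rw [List.mem_take_iff_getElem]
      exact ⟨j, by rw [hlen]; exact lt_min hj j.2, hej.symm⟩
    · intro hj
      rw [List.mem_take_iff_getElem] at hj
      obtain ⟨m, hm, hm'⟩ := hj
      rw [hej] at hm'
      have := (List.Nodup.getElem_inj_iff hl1).mp hm'
      rw [← this]
      exact lt_of_lt_of_le hm (min_le_left _ _)
  have hset : Finset.univ.filter (fun i => ((e.symm i : Fin N) : ℕ) < k) = (l.take k).toFinset := by
    ext i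
    rw [Finset.mem_filter, List.mem_toFinset, ← hmem]
    simp
  rw [hset, List.sum_toFinset _ (hl1.sublist (List.take_sublist k l))]
  have h4 := hl3 k
  rw [zero_add, add_zero] at h4
  have h5 : ‖((l.take k).map a).sum‖ ^ 2 ≤ (3 * D) ^ 2 := by nlinarith
  exact (sq_le_sq₀ (norm_nonneg _) (by positivity)).mp h5

end Pool.Agent.R267.Ord
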