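import Mathlib

set_option autoImplicit false

open Filter Topology

namespace Pool.Agent.R267.PiBase

variable {X : Type*} [NormedAddCommGroup X] [NormedSpace ℝ X]

/-- finite-sum form of 1-unconditionality -/
def Unc (e : ℕ → X) : Prop :=
  ∀ (s : Finset ℕ) (a ε : ℕ → ℝ), (∀ n, ε n = 1 ∨ ε n = -1) →
          ‖∑ n ∈ s, (ε n * a n) • e n‖ ≤ ‖∑ n ∈ s, a n • e n‖

lemma step {e : ℕ → X} (hu : Unc e) (s : Finset ℕ) (a : ℕ → ℝ) (m : ℕ) (l : ℝ) (hl : |l| ≤ 1) :
    ‖∑ n ∈ s, (Function.update a m (l * a m)) n • e n‖ ≤ ‖∑ n ∈ s, a n • e n‖ := by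
  have h1 : ∑ n ∈ s, (Function.update a m (l * a m)) n • e n =
      ((1 + l) / 2) • ∑ n ∈ s, a n • e n +
      ((1 - l) / 2) • ∑ n ∈ s, ((if n = m then (-1 : ℝ) else 1) * a n) • e n := by
    rw [Finset.smul_sum, Finset.smul_sum, ← Finset.sum_add_distrib]
    apply Finset.sum_congr rfl
    intro n _
    by_cases h : n = m
    · subst h
      simp only [Function.update_self, if_true]
      rw [smul_smul, smul_smul, ← add_smul]
      congr 1
      ring
    · rw [Function.update_of_ne h, if_neg h, smul_smul, smul_smul, ← add_smul]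
      congr 1
      ring
  have h2 : ‖∑ n ∈ s, ((if n = m then (-1 : ℝ) else 1) * a n) • e n‖ ≤ ‖∑ n ∈ s, a n • e n‖ := by
    apply hu
    intro n
    by_cases h : n = m
    · right; simp [h]
    · left; simp [h]
  have h3 := abs_le.mp hl
  calc _ ≤ ‖((1 + l) / 2) • ∑ n ∈ s, a n • e n‖ +
      ‖((1 - l) / 2) • ∑ n ∈ s, ((if n = m then (-1 : ℝ) else 1) * a n) • e n‖ := by
        rw [h1]; exact norm_add_le _ _
    _ ≤ ((1 + l) / 2) * ‖∑ n ∈ s, a n • e n‖ + ((1 - l) / 2) * ‖∑ n ∈ s, a n • e n‖ := by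
        rw [norm_smul, norm_smul, Real.norm_of_nonneg (by linarith),
          Real.norm_of_nonneg (by linarith)]
        gcongr
        linarith
    _ = _ := by ring

lemma mono {e : ℕ → X} (hu : Unc e) (s : Finset ℕ) (a b : ℕ → ℝ) (h : ∀ n ∈ s, |a n| ≤ |b n|) :
    ‖∑ n ∈ s, a n • e n‖ ≤ ‖∑ n ∈ s, b n • e n‖ := by
  classical
  have key : ∀ t : Finset ℕ, t ⊆ s →
      ‖∑ n ∈ s, (if n ∈ t then a n else b n) • e n‖ ≤ ‖∑ n ∈ s, b n • e n‖ := by
    intro t
    induction t using Finset.induction_on with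
    | empty => intro _; simp
    | insert m t hm ih =>
      intro hts
      have hms : m ∈ s := hts (Finset.mem_insert_self _ _)
      have hts' : t ⊆ s := fun x hx => hts (Finset.mem_insert_of_mem hx)
      refine le_trans ?_ (ih hts')
      set c : ℕ → ℝ := fun n => if n ∈ t then a n else b n with hc
      obtain ⟨l, hl, hl'⟩ : ∃ l : ℝ, |l| ≤ 1 ∧ l * b m = a m := by
        by_cases hb : b m = 0
        · refine ⟨0, by simp, ?_⟩
          have := h m hms
          rw [hb, abs_zero] at this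
          have : a m = 0 := abs_eq_zero.mp (le_antisymm this (abs_nonneg _))
          rw [this]; ring
        · refine ⟨a m / b m, ?_, by field_simp⟩
          rw [abs_div]
          exact div_le_one_of_le₀ (h m hms) (abs_nonneg _)
      have h1 := step hu s c m l hl
      have h2 : ∀ n, (if n ∈ insert m t then a n else b n) =
          Function.update c m (l * c m) n := by
        intro n
        by_cases hn : n = m
        · subst hn
          rw [Function.update_self, if_pos (Finset.mem_insert_self _ _)]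
          simp only [hc, if_neg hm]
          exact hl'.symm
        · rw [Function.update_of_ne hn]
          simp [hc, hn]
      simp only [h2]
      exact h1
  have := key s (Finset.Subset.refl _)
  refine le_trans (le_of_eq ?_) this
  congr 1
  apply Finset.sum_congr rfl
  intro n hn
  rw [if_pos hn]

/-- the vector with the coefficients `a` on `[0, M)` -/
def vec (e : ℕ → X) (a : ℕ → ℝ) (M : ℕ) : X := ∑ n ∈ Finset.range M, a n • e n

lemma norm_vec_mono {e : ℕ → X} (hu : Unc e) (a b : ℕ → ℝ) (M : ℕ)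
    (h : ∀ n < M, |a n| ≤ |b n|) : ‖vec e a M‖ ≤ ‖vec e b M‖ :=
  mono hu _ a b (fun n hn => h n (Finset.mem_range.mp hn))

lemma norm_vec_le {e : ℕ → X} (hu : Unc e) (a : ℕ → ℝ) {M M' : ℕ} (h : M ≤ M') :
    ‖vec e a M‖ ≤ ‖vec e a M'‖ := by
  have h1 : vec e a M = vec e (fun n => if n < M then a n else 0) M' := by
    unfold vec
    rw [← Finset.sum_subset (Finset.range_mono h)]
    · apply Finset.sum_congr rfl
      intro n hn
      simp only [if_pos (Finset.mem_range.mp hn)]
    · intro n _ hn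
      rw [Finset.mem_range, not_lt] at hn
      simp only [if_neg (not_lt.mpr hn), zero_smul]
  rw [h1]
  apply norm_vec_mono hu
  intro n _
  by_cases hn : n < M
  · rw [if_pos hn]
  · rw [if_neg hn, abs_zero]; exact abs_nonneg _

/-- the weighted `ℓ_1` estimate -/
lemma weight_le {e : ℕ → X} (hu : Unc e) (F : X →L[ℝ] ℝ) (a : ℕ → ℝ) (M : ℕ) :
    ∑ n ∈ Finset.range M, |F (e n)| * |a n| ≤ ‖F‖ * ‖vec e a M‖ := by
  set b : ℕ → ℝ := fun n => if 0 ≤ F (e n) * a n then a n else - a n with hb
  have h1 : ∑ n ∈ Finset.range M, |F (e n)| * |a n| = F (vec e b M) := by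
    unfold vec
    rw [map_sum]
    apply Finset.sum_congr rfl
    intro n _
    rw [map_smul, smul_eq_mul, ← abs_mul, hb]
    by_cases h : 0 ≤ F (e n) * a n
    · simp only [if_pos h]
      rw [abs_of_nonneg h]; ring
    · simp only [if_neg h]
      rw [abs_of_neg (not_le.mp h)]; ring
  rw [h1]
  refine (le_abs_self _).trans ?_
  rw [← Real.norm_eq_abs]
  refine (F.le_opNorm _).trans ?_
  gcongr
  apply norm_vec_mono hu
  intro n _
  rw [hb]
  by_cases h : 0 ≤ F (e n) * a n
  · simp only [if_pos h]; exact le_refl _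
  · simp only [if_neg h]; rw [abs_neg]

lemma apply_vec (e : ℕ → X) (F : X →L[ℝ] ℝ) (a : ℕ → ℝ) (M : ℕ) :
    F (vec e a M) = ∑ n ∈ Finset.range M, a n * F (e n) := by
  unfold vec
  rw [map_sum]
  apply Finset.sum_congr rfl
  intro n _
  rw [map_smul, smul_eq_mul]

lemma sum_small {w g x : ℕ → ℝ} (s : Finset ℕ) (d : ℝ) (hg : ∀ n, |g n| ≤ w n)
    (hx : ∀ n ∈ s, |x n| ≤ d) : |∑ n ∈ s, x n * g n| ≤ d * ∑ n ∈ s, w n := by
  refine (Finset.abs_sum_le_sum_abs _ _).trans ?_
  rw [Finset.mul_sum]
  apply Finset.sum_le_sum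
  intro n hn
  rw [abs_mul]
  exact mul_le_mul (hx n hn) (hg n) (abs_nonneg _) ((abs_nonneg _).trans (hx n hn))

lemma sum_tail {w g x : ℕ → ℝ} (s : Finset ℕ) (hg : ∀ n, |g n| ≤ w n) :
    |∑ n ∈ s, x n * g n| ≤ ∑ n ∈ s, w n * |x n| := by
  refine (Finset.abs_sum_le_sum_abs _ _).trans ?_
  apply Finset.sum_le_sum
  intro n hn
  rw [abs_mul, mul_comm]
  exact mul_le_mul_of_nonneg_right (hg n) (abs_nonneg _)

theorem main_lemma {e : ℕ → X} (hu : Unc e) {ι : Type*} [Fintype ι] (F : ι → X →L[ℝ] ℝ)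
    (b : ℕ → ℝ) (N0 : ℕ) (hb : ∀ n, N0 ≤ n → b n = 0) (hb1 : ‖vec e b N0‖ ≤ 1)
    (ε : ℝ) (hε : 0 < ε) :
    ∃ (c : ℕ → ℝ) (N : ℕ) (δ : ℝ), 0 < δ ∧ ‖vec e c N‖ ≤ 1 ∧
      ∀ (a : ℕ → ℝ) (M : ℕ), N ≤ M → ‖vec e a M‖ ≤ 1 → (∀ n < N, |a n - c n| < δ) →
        ∀ l, |F l (vec e a M) - F l (vec e b N0)| ≤ ε := by
  classical
  set w : ℕ → ℝ := fun n => ∑ l, |F l (e n)| with hw
  have hw0 : ∀ n, 0 ≤ w n := fun n => Finset.sum_nonneg (fun l _ => abs_nonneg _)
  have hwF : ∀ l n, |F l (e n)| ≤ w n := fun l n =>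
    Finset.single_le_sum (f := fun l => |F l (e n)|) (fun l _ => abs_nonneg _) (Finset.mem_univ l)
  set C : ℝ := ∑ l, ‖F l‖ with hC
  have hC0 : 0 ≤ C := Finset.sum_nonneg (fun l _ => norm_nonneg _)
  set W : ℕ → ℝ := fun N => ∑ n ∈ Finset.range N, w n with hW
  have hW0 : ∀ N, 0 ≤ W N := fun N => Finset.sum_nonneg (fun n _ => hw0 n)
  have hWmono : ∀ {N N' : ℕ}, N ≤ N' → W N ≤ W N' := fun h =>
    Finset.sum_le_sum_of_subset_of_nonneg (Finset.range_mono h) (fun n _ _ => hw0 n)
  have hbound : ∀ (a : ℕ → ℝ) (N M : ℕ), N ≤ M → ‖vec e a M‖ ≤ 1 →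
      ∑ n ∈ Finset.Ico N M, w n * |a n| ≤ C := by
    intro a N M _ ha
    calc ∑ n ∈ Finset.Ico N M, w n * |a n| ≤ ∑ n ∈ Finset.range M, w n * |a n| := by
          apply Finset.sum_le_sum_of_subset_of_nonneg
          · intro n hn
            rw [Finset.mem_range]
            exact (Finset.mem_Ico.mp hn).2
          · intro n _ _
            exact mul_nonneg (hw0 n) (abs_nonneg _)
      _ = ∑ l, ∑ n ∈ Finset.range M, |F l (e n)| * |a n| := by
          rw [Finset.sum_comm]
          apply Finset.sum_congr rfl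
          intro n _
          rw [hw, Finset.sum_mul]
      _ ≤ ∑ l, ‖F l‖ * ‖vec e a M‖ := Finset.sum_le_sum (fun l _ => weight_le hu (F l) a M)
      _ ≤ C := by
          rw [hC]
          apply Finset.sum_le_sum
          intro l _
          have := norm_nonneg (F l)
          nlinarith
  -- the set of eventual tail bounds
  set Θ : Set ℝ := {t | ∃ N, N0 ≤ N ∧ ∃ δ : ℝ, 0 < δ ∧ ∀ (a : ℕ → ℝ) (M : ℕ), N ≤ M →
    ‖vec e a M‖ ≤ 1 → (∀ n < N, |a n - b n| < δ) → ∑ n ∈ Finset.Ico N M, w n * |a n| ≤ t} with hΘ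
  have hΘne : Θ.Nonempty := ⟨C, N0, le_refl _, 1, one_pos, fun a M h1 h2 _ => hbound a N0 M h1 h2⟩
  have hbN : ∀ N, N0 ≤ N → vec e b N = vec e b N0 := by
    intro N hN
    unfold vec
    symm
    apply Finset.sum_subset (Finset.range_mono hN)
    intro n _ hn
    rw [Finset.mem_range, not_lt] at hn
    rw [hb n hn, zero_smul]
  have hΘbdd : BddBelow Θ := by
    refine ⟨0, ?_⟩
    rintro t ⟨N, hN, δ, hδ, h⟩
    have := h b N (le_refl _) (by rw [hbN N hN]; exact hb1) (fun n _ => by simpa using hδ)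
    simpa using this
  set τ : ℝ := sInf Θ with hτ
  set η : ℝ := ε / 8 with hη
  have hη0 : 0 < η := by positivity
  obtain ⟨t, ⟨N1, hN1, δ1, hδ1, hT⟩, ht⟩ := exists_lt_of_csInf_lt hΘne (show sInf Θ < τ + η by
    rw [← hτ]; linarith)
  have hex : ∀ N, N0 ≤ N → ∀ δ : ℝ, 0 < δ → ∃ (a : ℕ → ℝ) (M : ℕ), N ≤ M ∧ ‖vec e a M‖ ≤ 1 ∧
      (∀ n < N, |a n - b n| < δ) ∧ τ - η < ∑ n ∈ Finset.Ico N M, w n * |a n| := by
    intro N hN δ hδ
    by_contra hcon
    push Not at hcon
    have : τ - η ∈ Θ := ⟨N, hN, δ, hδ, fun a M h1 h2 h3 => hcon a M h1 h2 h3⟩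
    have := csInf_le hΘbdd this
    rw [← hτ] at this
    linarith
  set κ : ℕ → ℕ := fun k => k + N0 + N1 with hκ
  set dd : ℕ → ℝ := fun k => min (δ1 / 2) (η / (1 + W (κ k))) with hdd
  have hdd0 : ∀ k, 0 < dd k := fun k => lt_min (by positivity)
    (div_pos hη0 (by have := hW0 (κ k); linarith))
  have hddW : ∀ k, dd k * W (κ k) ≤ η := by
    intro k
    have h1 := hW0 (κ k)
    have h2 : dd k ≤ η / (1 + W (κ k)) := min_le_right _ _
    calc dd k * W (κ k) ≤ η / (1 + W (κ k)) * W (κ k) := mul_le_mul_of_nonneg_right h2 h1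
      _ ≤ η := by
        rw [div_mul_eq_mul_div, div_le_iff₀ (by linarith)]
        nlinarith
  choose A Mk hAM hA1 hAb hAt using fun k => hex (κ k) (by simp only [hκ]; omega) (dd k) (hdd0 k)
  -- a convergent subsequence of the tail values
  set y : ℕ → ι → ℝ := fun k l => ∑ n ∈ Finset.Ico (κ k) (Mk k), A k n * F l (e n) with hy
  have hybd : ∀ k, y k ∈ Metric.closedBall (0 : ι → ℝ) C := by
    intro k
    rw [mem_closedBall_zero_iff, pi_norm_le_iff_of_nonneg hC0]
    intro l
    rw [Real.norm_eq_abs]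
    exact (sum_tail _ (hwF l)).trans (hbound _ _ _ (hAM k) (hA1 k))
  obtain ⟨z, -, φ, hφ, hlim⟩ := (isCompact_closedBall (0 : ι → ℝ) C).tendsto_subseq hybd
  obtain ⟨J, hJ⟩ := (Metric.tendsto_atTop.mp hlim) (η / 2) (by positivity)
  set k : ℕ := φ J with hk
  obtain ⟨j', hj'1, hj'2⟩ : ∃ j', J ≤ j' ∧ Mk k ≤ φ j' :=
    ⟨max J (Mk k), le_max_left _ _, (le_max_right _ _).trans (hφ.id_le _)⟩
  set k' : ℕ := φ j' with hk'
  have hkk' : Mk k ≤ κ k' := by simp only [hκ]; omega
  have hkm : κ k ≤ Mk k := hAM k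
  have hkm' : κ k' ≤ Mk k' := hAM k'
  have hN1k : N1 ≤ κ k := by simp only [hκ]; omega
  have hN0k : N0 ≤ κ k := by simp only [hκ]; omega
  have hyy : ∀ l, |y k l - y k' l| ≤ η := by
    intro l
    have h1 := hJ J (le_refl _)
    have h2 := hJ j' hj'1
    have h3 : dist (y k) (y k') < η := by
      calc dist (y k) (y k') ≤ dist (y k) z + dist z (y k') := dist_triangle _ _ _
        _ < η / 2 + η / 2 := by
          rw [dist_comm z]
          exact add_lt_add h1 h2
        _ = η := by ring
    have h4 := dist_le_pi_dist (y k) (y k') l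
    rw [Real.dist_eq] at h4
    linarith
  set u : ℕ → ℝ := fun n => if n < Mk k then A k n else 0 with hu'
  set v : ℕ → ℝ := fun n => if n < κ k' then A k' n else - A k' n with hv'
  set c : ℕ → ℝ := fun n => (u n + v n) / 2 with hc
  set N : ℕ := Mk k' with hN
  set δ2 : ℝ := min (δ1 / 2) (η / (1 + W N)) with hδ2
  have hδ20 : 0 < δ2 := lt_min (by positivity) (div_pos hη0 (by have := hW0 N; linarith))
  have hδ2W : δ2 * W N ≤ η := by
    have h1 := hW0 N
    have h2 : δ2 ≤ η / (1 + W N) := min_le_right _ _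
    calc δ2 * W N ≤ η / (1 + W N) * W N := mul_le_mul_of_nonneg_right h2 h1
      _ ≤ η := by
        rw [div_mul_eq_mul_div, div_le_iff₀ (by linarith)]
        nlinarith
  have hvecu : ‖vec e u N‖ ≤ 1 := by
    have : vec e u N = vec e (A k) (Mk k) := by
      unfold vec
      symm
      rw [← Finset.sum_subset (Finset.range_mono (show Mk k ≤ N by omega))]
      · apply Finset.sum_congr rfl
        intro n hn
        simp only [hu', if_pos (Finset.mem_range.mp hn)]
      · intro n _ hn
        rw [Finset.mem_range] at hn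
        simp only [hu', if_neg hn, zero_smul]
    rw [this]
    exact hA1 k
  have hvecv : ‖vec e v N‖ ≤ 1 := by
    refine (norm_vec_mono hu v (A k') N ?_).trans (hA1 k')
    intro n _
    by_cases h : n < κ k'
    · simp only [hv', if_pos h]; exact le_refl _
    · simp only [hv', if_neg h, abs_neg]; exact le_refl _
  refine ⟨c, N, δ2, hδ20, ?_, ?_⟩
  · have : vec e c N = (1 / 2 : ℝ) • vec e u N + (1 / 2 : ℝ) • vec e v N := by
      unfold vec
      rw [Finset.smul_sum, Finset.smul_sum, ← Finset.sum_add_distrib]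
      apply Finset.sum_congr rfl
      intro n _
      rw [smul_smul, smul_smul, ← add_smul]
      congr 1
      simp only [hc]
      ring
    rw [this]
    refine (norm_add_le _ _).trans ?_
    rw [norm_smul, norm_smul, Real.norm_of_nonneg (by norm_num)]
    linarith
  · intro a M hNM ha hac l
    -- tail of `a`
    have hanear : ∀ n < N1, |a n - b n| < δ1 := by
      intro n hn
      have h1 := hac n (by omega)
      have h2 := hAb k n (by omega)
      have h3 := hAb k' n (by omega)
      have h4 : dd k ≤ δ1 / 2 := min_le_left _ _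
      have h5 : dd k' ≤ δ1 / 2 := min_le_left _ _
      have h6 : δ2 ≤ δ1 / 2 := min_le_left _ _
      have h7 : c n = (A k n + A k' n) / 2 := by
        simp only [hc, hu', hv', if_pos (show n < Mk k by omega), if_pos (show n < κ k' by omega)]
      rw [h7] at h1
      rw [abs_lt] at h1 h2 h3 ⊢
      constructor <;> linarith [h1.1, h1.2, h2.1, h2.2, h3.1, h3.2]
    have hT1 := hT a M (by omega) ha hanear
    have hsplit : ∑ n ∈ Finset.Ico (κ k) (Mk k) , w n * |a n| +
        ∑ n ∈ Finset.Ico (κ k') N, w n * |a n| + ∑ n ∈ Finset.Ico N M, w n * |a n| ≤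
        ∑ n ∈ Finset.Ico N1 M, w n * |a n| := by
      have hnn : ∀ n, 0 ≤ w n * |a n| := fun n => mul_nonneg (hw0 n) (abs_nonneg _)
      rw [← Finset.sum_Ico_consecutive _ (show N1 ≤ κ k by omega) (show κ k ≤ M by omega),
        ← Finset.sum_Ico_consecutive _ (show κ k ≤ Mk k by omega) (show Mk k ≤ M by omega),
        ← Finset.sum_Ico_consecutive _ (show Mk k ≤ κ k' by omega) (show κ k' ≤ M by omega),
        ← Finset.sum_Ico_consecutive _ (show κ k' ≤ N by omega) (show N ≤ M by omega)]
      have h1 : 0 ≤ ∑ n ∈ Finset.Ico N1 (κ k), w n * |a n| := Finset.sum_nonneg fun n _ => hnn n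
      have h2 : 0 ≤ ∑ n ∈ Finset.Ico (Mk k) (κ k'), w n * |a n| :=
        Finset.sum_nonneg fun n _ => hnn n
      linarith
    have hvsmall : ∀ n, κ k ≤ n → n < κ k' → |A k' n| ≤ dd k' := by
      intro n h1 h2
      have := hAb k' n h2
      rw [hb n (by omega), sub_zero] at this
      exact this.le
    have hp1 : ∑ n ∈ Finset.Ico (κ k) (Mk k), w n * |a n| ≥
        (1 / 2) * ∑ n ∈ Finset.Ico (κ k) (Mk k), w n * |A k n| -
        (1 / 2) * (dd k' * ∑ n ∈ Finset.Ico (κ k) (Mk k), w n) -
        δ2 * ∑ n ∈ Finset.Ico (κ k) (Mk k), w n := by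
      rw [Finset.mul_sum, Finset.mul_sum, Finset.mul_sum, Finset.mul_sum,
        ← Finset.sum_sub_distrib, ← Finset.sum_sub_distrib]
      apply Finset.sum_le_sum
      intro n hn
      rw [Finset.mem_Ico] at hn
      have h1 := hac n (by omega)
      have h2 := hvsmall n hn.1 (by omega)
      have h7 : c n = (A k n + A k' n) / 2 := by
        simp only [hc, hu', hv', if_pos (show n < Mk k by omega), if_pos (show n < κ k' by omega)]
      rw [h7] at h1
      have h8 : |A k n| / 2 - |A k' n| / 2 - δ2 ≤ |a n| := by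
        have h9 : |A k n| ≤ |2 * (a n - (A k n + A k' n) / 2)| + |A k' n| + |2 * a n| := by
          have : A k n = - (2 * (a n - (A k n + A k' n) / 2)) - A k' n + 2 * a n := by ring
          calc |A k n| = |- (2 * (a n - (A k n + A k' n) / 2)) - A k' n + 2 * a n| := by
                rw [← this]
            _ ≤ |- (2 * (a n - (A k n + A k' n) / 2)) - A k' n| + |2 * a n| := abs_add_le _ _
            _ ≤ |- (2 * (a n - (A k n + A k' n) / 2))| + |A k' n| + |2 * a n| := by
                gcongr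
                exact abs_sub _ _
            _ = _ := by rw [abs_neg]
        rw [abs_mul, abs_mul, abs_two] at h9
        linarith
      have h9 := hw0 n
      have h10 : w n * (|A k n| / 2 - dd k' / 2 - δ2) ≤ w n * |a n| := by
        apply mul_le_mul_of_nonneg_left _ h9
        linarith
      linarith
    have hp2 : ∑ n ∈ Finset.Ico (κ k') N, w n * |a n| ≥
        (1 / 2) * ∑ n ∈ Finset.Ico (κ k') N, w n * |A k' n| -
        δ2 * ∑ n ∈ Finset.Ico (κ k') N, w n := by
      rw [Finset.mul_sum, Finset.mul_sum, ← Finset.sum_sub_distrib]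
      apply Finset.sum_le_sum
      intro n hn
      rw [Finset.mem_Ico] at hn
      have h1 := hac n (by omega)
      have h7 : c n = - A k' n / 2 := by
        simp only [hc, hu', hv', if_neg (show ¬ n < Mk k by omega),
          if_neg (show ¬ n < κ k' by omega)]
        ring
      rw [h7] at h1
      have h8 : |A k' n| / 2 - δ2 ≤ |a n| := by
        have h9 : |A k' n / 2| ≤ |a n - -A k' n / 2| + |a n| := by
          have : A k' n / 2 = (a n - -A k' n / 2) - a n := by ring
          calc |A k' n / 2| = |(a n - -A k' n / 2) - a n| := by rw [← this]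
            _ ≤ _ := abs_sub _ _
        rw [abs_div, abs_two] at h9
        linarith
      have h10 : w n * (|A k' n| / 2 - δ2) ≤ w n * |a n| :=
        mul_le_mul_of_nonneg_left h8 (hw0 n)
      linarith
    have hW1 : ∑ n ∈ Finset.Ico (κ k) (Mk k), w n ≤ W (κ k') := by
      apply Finset.sum_le_sum_of_subset_of_nonneg
      · intro n hn
        rw [Finset.mem_Ico] at hn
        rw [Finset.mem_range]
        omega
      · intro n _ _; exact hw0 n
    have hW2 : ∑ n ∈ Finset.Ico (κ k) (Mk k), w n + ∑ n ∈ Finset.Ico (κ k') N, w n ≤ W N := by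
      have h1 : W N = ∑ n ∈ Finset.Ico 0 N, w n := by simp only [hW, Finset.range_eq_Ico]
      rw [h1, ← Finset.sum_Ico_consecutive _ (show 0 ≤ κ k by omega) (show κ k ≤ N by omega),
        ← Finset.sum_Ico_consecutive _ (show κ k ≤ Mk k by omega) (show Mk k ≤ N by omega),
        ← Finset.sum_Ico_consecutive _ (show Mk k ≤ κ k' by omega) (show κ k' ≤ N by omega)]
      have h1 : 0 ≤ ∑ n ∈ Finset.Ico 0 (κ k), w n := Finset.sum_nonneg fun n _ => hw0 n
      have h2 : 0 ≤ ∑ n ∈ Finset.Ico (Mk k) (κ k'), w n := Finset.sum_nonneg fun n _ => hw0 n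
      linarith
    have htail : ∑ n ∈ Finset.Ico N M, w n * |a n| ≤ 4 * η := by
      have h1 := hAt k
      have h2 := hAt k'
      have h3 := hddW k'
      have h4 : dd k' * ∑ n ∈ Finset.Ico (κ k) (Mk k), w n ≤ η :=
        (mul_le_mul_of_nonneg_left hW1 (hdd0 k').le).trans h3
      have h5 : δ2 * ∑ n ∈ Finset.Ico (κ k) (Mk k), w n +
          δ2 * ∑ n ∈ Finset.Ico (κ k') N, w n ≤ η := by
        rw [← mul_add]
        exact (mul_le_mul_of_nonneg_left hW2 hδ20.le).trans hδ2W
      linarith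
    -- the main estimate
    rw [← hbN N (by omega), apply_vec, apply_vec]
    have hdecomp : ∑ n ∈ Finset.range M, a n * F l (e n) - ∑ n ∈ Finset.range N, b n * F l (e n) =
        ∑ n ∈ Finset.range N, (a n - c n) * F l (e n) + ∑ n ∈ Finset.Ico N M, a n * F l (e n) +
        ((1 / 2) * (∑ n ∈ Finset.range N, (u n - b n) * F l (e n)) +
        (1 / 2) * (∑ n ∈ Finset.range N, (v n - b n) * F l (e n))) := by
      rw [← Finset.sum_range_add_sum_Ico _ hNM]
      rw [Finset.mul_sum, Finset.mul_sum, ← Finset.sum_add_distrib]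
      rw [add_sub_right_comm, ← Finset.sum_sub_distrib, add_right_comm, ← Finset.sum_add_distrib]
      congr 1
      apply Finset.sum_congr rfl
      intro n _
      simp only [hc]
      ring
    have hU : ∑ n ∈ Finset.range N, (u n - b n) * F l (e n) =
        ∑ n ∈ Finset.range (κ k), (A k n - b n) * F l (e n) + y k l := by
      rw [← Finset.sum_range_add_sum_Ico _ (show κ k ≤ N by omega)]
      congr 1
      · apply Finset.sum_congr rfl
        intro n hn
        rw [Finset.mem_range] at hn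
        simp only [hu', if_pos (show n < Mk k by omega)]
      · rw [← Finset.sum_Ico_consecutive _ (show κ k ≤ Mk k by omega) (show Mk k ≤ N by omega)]
        rw [hy]
        have : ∑ n ∈ Finset.Ico (Mk k) N, (u n - b n) * F l (e n) = 0 := by
          apply Finset.sum_eq_zero
          intro n hn
          rw [Finset.mem_Ico] at hn
          simp only [hu', if_neg (show ¬ n < Mk k by omega)]
          rw [hb n (by omega)]; ring
        rw [this, add_zero]
        apply Finset.sum_congr rfl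
        intro n hn
        rw [Finset.mem_Ico] at hn
        simp only [hu', if_pos hn.2]
        rw [hb n (by omega)]; ring
    have hV : ∑ n ∈ Finset.range N, (v n - b n) * F l (e n) =
        ∑ n ∈ Finset.range (κ k'), (A k' n - b n) * F l (e n) - y k' l := by
      rw [← Finset.sum_range_add_sum_Ico _ (show κ k' ≤ N by omega), sub_eq_add_neg]
      congr 1
      · apply Finset.sum_congr rfl
        intro n hn
        rw [Finset.mem_range] at hn
        simp only [hv', if_pos hn]
      · rw [hy, ← Finset.sum_neg_distrib]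
        apply Finset.sum_congr rfl
        intro n hn
        rw [Finset.mem_Ico] at hn
        simp only [hv', if_neg (show ¬ n < κ k' by omega)]
        rw [hb n (by omega)]; ring
    have e1 : |∑ n ∈ Finset.range N, (a n - c n) * F l (e n)| ≤ η := by
      refine (sum_small _ δ2 (hwF l) ?_).trans hδ2W
      intro n hn
      exact (hac n (Finset.mem_range.mp hn)).le
    have e2 : |∑ n ∈ Finset.Ico N M, a n * F l (e n)| ≤ 4 * η := (sum_tail _ (hwF l)).trans htail
    have e3 : |∑ n ∈ Finset.range (κ k), (A k n - b n) * F l (e n)| ≤ η := by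
      refine (sum_small _ (dd k) (hwF l) ?_).trans (hddW k)
      intro n hn
      exact (hAb k n (Finset.mem_range.mp hn)).le
    have e4 : |∑ n ∈ Finset.range (κ k'), (A k' n - b n) * F l (e n)| ≤ η := by
      refine (sum_small _ (dd k') (hwF l) ?_).trans (hddW k')
      intro n hn
      exact (hAb k' n (Finset.mem_range.mp hn)).le
    rw [hdecomp, hU, hV]
    have e5 := hyy l
    rw [abs_le] at e1 e2 e3 e4 e5 ⊢
    constructor <;> linarith [e1.1, e1.2, e2.1, e2.2, e3.1, e3.2, e4.1, e4.2, e5.1, e5.2]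

end Pool.Agent.R267.PiBase
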