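import Mathlib
import Pool.Agent.R267.PiBase

set_option autoImplicit false

open Filter Topology

namespace Pool.Agent.R267.PiBase

variable {X : Type*} [NormedAddCommGroup X] [NormedSpace ℝ X]

lemma weak_open_basic (V : Set (WeakSpace ℝ X)) (hV : IsOpen V) (x0 : X)
    (hx : toWeakSpace ℝ X x0 ∈ V) :
    ∃ (I : Finset (StrongDual ℝ X)) (ε : ℝ), 0 < ε ∧
      ∀ x : X, (∀ f ∈ I, |f x - f x0| < ε) → toWeakSpace ℝ X x ∈ V := by
  obtain ⟨T, hT, hTV⟩ := isOpen_induced_iff.mp hV
  have hx' : (fun f : StrongDual ℝ X => f x0) ∈ T := by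
    have h := hx
    rw [← hTV] at h
    exact h
  obtain ⟨I, u, hu, hIu⟩ := isOpen_pi_iff.mp hT _ hx'
  have h1 : ∀ f ∈ I, ∃ ε : ℝ, 0 < ε ∧ ∀ y : ℝ, |y - f x0| < ε → y ∈ u f := by
    intro f hf
    obtain ⟨ho, hm⟩ := hu f hf
    obtain ⟨ε, hε, h⟩ := Metric.isOpen_iff.mp ho _ hm
    exact ⟨ε, hε, fun y hy => h (by rw [Metric.mem_ball, Real.dist_eq]; exact hy)⟩
  choose! r hr0 hr using h1
  by_cases hI : I.Nonempty
  · refine ⟨I, I.inf' hI r, ?_, ?_⟩
    · rw [Finset.lt_inf'_iff]
      exact fun f hf => hr0 f hf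
    · intro x hx
      rw [← hTV]
      apply hIu
      intro f hf
      exact hr f hf _ (lt_of_lt_of_le (hx f hf) (Finset.inf'_le r hf))
  · rw [Finset.not_nonempty_iff_eq_empty] at hI
    refine ⟨∅, 1, one_pos, ?_⟩
    intro x _
    rw [← hTV]
    apply hIu
    rw [hI]
    intro f hf
    simp at hf

section basis

variable {e : ℕ → X} (hb : ∀ x : X, ∃! a : ℕ → ℝ, HasSum (fun n => a n • e n) x)
include hb

/-- the coefficients -/
noncomputable def co (x : X) : ℕ → ℝ := (hb x).choose

lemma co_hasSum (x : X) : HasSum (fun n => co hb x n • e n) x := (hb x).choose_spec.1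

lemma co_unique (x : X) (a : ℕ → ℝ) (h : HasSum (fun n => a n • e n) x) : a = co hb x :=
  (hb x).choose_spec.2 a h

lemma co_add (x y : X) (n : ℕ) : co hb (x + y) n = co hb x n + co hb y n := by
  have := co_unique hb (x + y) (fun n => co hb x n + co hb y n) (by
    simp only [add_smul]
    exact (co_hasSum hb x).add (co_hasSum hb y))
  exact (congrFun this n).symm

lemma co_smul (r : ℝ) (x : X) (n : ℕ) : co hb (r • x) n = r * co hb x n := by
  have := co_unique hb (r • x) (fun n => r * co hb x n) (by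
    simp only [mul_smul]
    exact (co_hasSum hb x).const_smul r)
  exact (congrFun this n).symm

lemma co_vec (a : ℕ → ℝ) (M n : ℕ) : co hb (vec e a M) n = if n < M then a n else 0 := by
  have := co_unique hb (vec e a M) (fun n => if n < M then a n else 0) (by
    have h : HasSum (fun n => (if n < M then a n else 0) • e n)
        (∑ n ∈ Finset.range M, (if n < M then a n else 0) • e n) :=
      hasSum_sum_of_ne_finset_zero (by
        intro b hb
        rw [Finset.mem_range] at hb
        rw [if_neg hb, zero_smul])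
    have h2 : ∑ n ∈ Finset.range M, (if n < M then a n else 0) • e n = vec e a M := by
      unfold vec
      apply Finset.sum_congr rfl
      intro n hn
      rw [if_pos (Finset.mem_range.mp hn)]
    rw [h2] at h
    exact h)
  exact (congrFun this n).symm

lemma norm_fin_le (hu : Unc e) (x : X) (t : Finset ℕ) :
    ‖∑ n ∈ t, co hb x n • e n‖ ≤ ‖x‖ := by
  have h1 := (co_hasSum hb x).norm
  refine ge_of_tendsto h1 ?_
  filter_upwards [eventually_ge_atTop t] with s hs
  have h2 : ∑ n ∈ t, co hb x n • e n = ∑ n ∈ s, (if n ∈ t then co hb x n else 0) • e n := by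
    rw [← Finset.sum_subset hs]
    · apply Finset.sum_congr rfl
      intro n hn
      rw [if_pos hn]
    · intro n _ hn
      rw [if_neg hn, zero_smul]
  rw [h2]
  apply mono hu
  intro n _
  by_cases hn : n ∈ t
  · rw [if_pos hn]
  · rw [if_neg hn, abs_zero]; exact abs_nonneg _

lemma e_ne_zero (n : ℕ) : e n ≠ 0 := by
  intro h
  have h1 := co_unique hb 0 (fun _ => 0) (by simp only [zero_smul]; exact hasSum_zero)
  have h2 := co_unique hb 0 (Pi.single n 1) (by
    have : (fun m => (Pi.single n (1 : ℝ) : ℕ → ℝ) m • e m) = fun _ => 0 := by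
      funext m
      by_cases hm : m = n
      · subst hm; rw [h, smul_zero]
      · rw [Pi.single_eq_of_ne hm, zero_smul]
    rw [this]
    exact hasSum_zero)
  have h3 := congrFun (h1.trans h2.symm) n
  rw [Pi.single_eq_same] at h3
  exact zero_ne_one h3

/-- the coordinate functionals -/
noncomputable def cf (hu : Unc e) (n : ℕ) : StrongDual ℝ X :=
  LinearMap.mkContinuous
    { toFun := fun x => co hb x n
      map_add' := fun x y => co_add hb x y n
      map_smul' := fun r x => co_smul hb r x n } (‖e n‖⁻¹) (by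
    intro x
    have h1 := norm_fin_le hb hu x {n}
    rw [Finset.sum_singleton, norm_smul] at h1
    have h2 : 0 < ‖e n‖ := norm_pos_iff.mpr (e_ne_zero hb n)
    change ‖co hb x n‖ ≤ _
    rw [inv_mul_eq_div, le_div_iff₀ h2]
    exact h1)

lemma cf_apply (hu : Unc e) (n : ℕ) (x : X) : cf hb hu n x = co hb x n := rfl

theorem final (hu : Unc e) :
      ∃ U : ℕ → Set (WeakSpace ℝ X),
        (∀ n, IsOpen (U n) ∧
            (U n ∩ (toWeakSpace ℝ X) '' Metric.closedBall (0 : X) 1).Nonempty) ∧
        ∀ V : Set (WeakSpace ℝ X), IsOpen V →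
          (V ∩ (toWeakSpace ℝ X) '' Metric.closedBall (0 : X) 1).Nonempty →
            ∃ n, U n ∩ (toWeakSpace ℝ X) '' Metric.closedBall (0 : X) 1 ⊆ V := by
  classical
  let ι := (Σ N : ℕ, (Fin N → ℚ)) × ℕ
  have : Nonempty ι := ⟨(⟨0, fun i => i.elim0⟩, 0)⟩
  obtain ⟨enum, henum⟩ := exists_surjective_nat ι
  let B : ι → Set (WeakSpace ℝ X) := fun i =>
    {x | ∀ n : Fin i.1.1, |cf hb hu n ((toWeakSpace ℝ X).symm x) - (i.1.2 n : ℝ)| <
      1 / ((i.2 : ℝ) + 1)}
  have hBo : ∀ i, IsOpen (B i) := by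
    intro i
    have : B i = ⋂ n : Fin i.1.1, {x : WeakSpace ℝ X |
      |cf hb hu n ((toWeakSpace ℝ X).symm x) - (i.1.2 n : ℝ)| < 1 / ((i.2 : ℝ) + 1)} := by
      ext x; simp [B]
    rw [this]
    apply isOpen_iInter_of_finite
    intro n
    have hc : Continuous fun x : WeakSpace ℝ X => cf hb hu n ((toWeakSpace ℝ X).symm x) :=
      WeakBilin.eval_continuous (topDualPairing ℝ X).flip (cf hb hu n)
    exact isOpen_lt ((hc.sub continuous_const).abs) continuous_const
  let ball : Set (WeakSpace ℝ X) := (toWeakSpace ℝ X) '' Metric.closedBall (0 : X) 1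
  refine ⟨fun n => if (B (enum n) ∩ ball).Nonempty then B (enum n) else Set.univ, ?_, ?_⟩
  · intro n
    by_cases h : (B (enum n) ∩ ball).Nonempty
    · simp only [if_pos h]
      exact ⟨hBo _, h⟩
    · simp only [if_neg h]
      refine ⟨isOpen_univ, ⟨toWeakSpace ℝ X 0, Set.mem_univ _, 0, by simp, rfl⟩⟩
  · rintro V hV ⟨_, hxV, x0, hx0, rfl⟩
    rw [mem_closedBall_zero_iff] at hx0
    obtain ⟨I, ε, hε, hI⟩ := weak_open_basic V hV x0 hxV
    -- approximate by a finitely supported vector
    have hlim : Tendsto (fun N => vec e (co hb x0) N) atTop (𝓝 x0) :=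
      (co_hasSum hb x0).tendsto_sum_nat
    have h1 : ∀ᶠ N in atTop, ∀ f ∈ I, |f (vec e (co hb x0) N) - f x0| < ε / 3 := by
      rw [Filter.eventually_all_finset]
      intro f _
      have h2 : Tendsto (fun N => f (vec e (co hb x0) N)) atTop (𝓝 (f x0)) :=
        (f.continuous.tendsto x0).comp hlim
      have := (Metric.tendsto_nhds.mp h2) (ε / 3) (by positivity)
      filter_upwards [this] with N hN
      rwa [Real.dist_eq] at hN
    obtain ⟨N0, hN0⟩ := h1.exists
    let b : ℕ → ℝ := fun n => if n < N0 then co hb x0 n else 0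
    have hvb : vec e b N0 = vec e (co hb x0) N0 := by
      unfold vec
      apply Finset.sum_congr rfl
      intro n hn
      simp only [b, if_pos (Finset.mem_range.mp hn)]
    obtain ⟨c, N, δ, hδ, hc1, hc⟩ := main_lemma hu (ι := I) (fun f => (f : StrongDual ℝ X)) b N0
      (fun n hn => by simp only [b, if_neg (not_lt.mpr hn)])
      (by rw [hvb]; exact (norm_fin_le hb hu x0 _).trans hx0) (ε / 3) (by positivity)
    obtain ⟨k, hk⟩ := exists_nat_one_div_lt (show (0 : ℝ) < δ / 2 by positivity)
    have hq : ∀ n : Fin N, ∃ q : ℚ, |c n - q| < 1 / ((k : ℝ) + 1) := by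
      intro n
      obtain ⟨q, hq1, hq2⟩ := exists_rat_btwn (show c n - 1 / ((k : ℝ) + 1) < c n by
        have : 0 < 1 / ((k : ℝ) + 1) := by positivity
        linarith)
      refine ⟨q, ?_⟩
      rw [abs_lt]
      constructor <;> linarith
    choose q hq using hq
    obtain ⟨m, hm⟩ := henum (⟨N, q⟩, k)
    refine ⟨m, ?_⟩
    have hne : (B (enum m) ∩ ball).Nonempty := by
      rw [hm]
      refine ⟨toWeakSpace ℝ X (vec e c N), ?_, vec e c N, by
        rw [mem_closedBall_zero_iff]; exact hc1, rfl⟩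
      intro n
      change |co hb (vec e c N) n - (q n : ℝ)| < 1 / ((k : ℝ) + 1)
      rw [co_vec, if_pos n.2]
      exact hq n
    simp only [if_pos hne]
    rw [hm]
    rintro _ ⟨hxB, x, hx, rfl⟩
    rw [mem_closedBall_zero_iff] at hx
    apply hI
    intro f hf
    have hxB' : ∀ n : Fin N, |co hb x n - (q n : ℝ)| < 1 / ((k : ℝ) + 1) := hxB
    have hnear : ∀ n < N, |co hb x n - c n| < δ := by
      intro n hn
      have h3 := hxB' ⟨n, hn⟩
      have h4 := hq ⟨n, hn⟩
      simp only at h3 h4
      rw [abs_lt] at h3 h4 ⊢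
      constructor <;> linarith [h3.1, h3.2, h4.1, h4.2]
    have hlim2 : Tendsto (fun M => vec e (co hb x) M) atTop (𝓝 x) :=
      (co_hasSum hb x).tendsto_sum_nat
    have h5 : Tendsto (fun M => |f (vec e (co hb x) M) - f (vec e b N0)|) atTop
        (𝓝 |f x - f (vec e b N0)|) :=
      (((f.continuous.tendsto x).comp hlim2).sub_const _).abs
    have h6 : |f x - f (vec e b N0)| ≤ ε / 3 := by
      refine le_of_tendsto h5 ?_
      filter_upwards [eventually_ge_atTop N] with M hM
      exact hc (co hb x) M hM ((norm_fin_le hb hu x _).trans hx) hnear ⟨f, hf⟩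
    have h7 := hN0 f hf
    rw [← hvb] at h7
    calc |f x - f x0| = |(f x - f (vec e b N0)) + (f (vec e b N0) - f x0)| := by ring_nf
      _ ≤ |f x - f (vec e b N0)| + |f (vec e b N0) - f x0| := abs_add_le _ _
      _ < ε := by linarith

end basis

end Pool.Agent.R267.PiBase
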