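import Mathlib

set_option autoImplicit false

open Filter Topology

/-! Lorentz sequence spaces `d(w, r)`, `0 < r < 1`, with weights `(k+1)^r - k^r`. -/

namespace Pool.Agent.R267.QL

/-- the weights -/
noncomputable def w (r : ℝ) (k : ℕ) : ℝ := ((k : ℝ) + 1) ^ r - (k : ℝ) ^ r

section weights

variable {r : ℝ} (hr : 0 < r) (hr1 : r < 1)

include hr in
lemma w_nonneg (k : ℕ) : 0 ≤ w r k := by
  unfold w
  rw [sub_nonneg]
  exact Real.rpow_le_rpow (Nat.cast_nonneg k) (by linarith) hr.le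

include hr hr1 in
lemma w_succ_le (k : ℕ) : w r (k + 1) ≤ w r k := by
  unfold w
  have h := (Real.concaveOn_rpow hr.le hr1.le).2 (show (k : ℝ) ∈ Set.Ici 0 from Set.mem_Ici.mpr (Nat.cast_nonneg k))
    (show ((k : ℝ) + 2) ∈ Set.Ici (0 : ℝ) by rw [Set.mem_Ici]; positivity)
    (show (0 : ℝ) ≤ 1 / 2 by norm_num) (show (0 : ℝ) ≤ 1 / 2 by norm_num) (by norm_num)
  simp only [smul_eq_mul] at h
  have h2 : 1 / 2 * (k : ℝ) + 1 / 2 * ((k : ℝ) + 2) = (k : ℝ) + 1 := by ring
  rw [h2] at h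
  have h3 : (((k + 1 : ℕ) : ℝ) + 1) = (k : ℝ) + 2 := by push_cast; ring
  have h4 : ((k + 1 : ℕ) : ℝ) = (k : ℝ) + 1 := by push_cast; ring
  rw [h3, h4]
  linarith

include hr hr1 in
lemma w_anti : Antitone (w r) := antitone_nat_of_succ_le (w_succ_le hr hr1)

include hr in
lemma sum_w (m : ℕ) : ∑ k ∈ Finset.range m, w r k = (m : ℝ) ^ r := by
  induction m with
  | zero => simp [Real.zero_rpow hr.ne']
  | succ k ih =>
    rw [Finset.sum_range_succ, ih]
    unfold w
    push_cast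
    ring

include hr in
lemma w_zero : w r 0 = 1 := by
  unfold w
  simp [Real.zero_rpow hr.ne']

include hr hr1 in
lemma sum_w_le (J : Finset ℕ) : ∑ k ∈ J, w r k ≤ (J.card : ℝ) ^ r := by
  classical
  rw [← sum_w hr]
  -- compare with the initial segment
  have key : ∀ (m : ℕ) (J : Finset ℕ), J.card = m → ∑ k ∈ J, w r k ≤ ∑ k ∈ Finset.range m, w r k := by
    intro m
    induction m with
    | zero =>
      intro J hJ
      rw [Finset.card_eq_zero.mp hJ]
      simp
    | succ n ih =>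
      intro J hJ
      have hne : J.Nonempty := by
        rw [← Finset.card_pos, hJ]; exact Nat.succ_pos n
      obtain ⟨i, hi, hmax⟩ := J.exists_max_image id hne
      have hin : n ≤ i := by
        have h1 : J ⊆ Finset.range (i + 1) := by
          intro k hk
          have := hmax k hk
          simp only [id] at this
          exact Finset.mem_range.mpr (by omega)
        have := Finset.card_le_card h1
        rw [hJ, Finset.card_range] at this
        omega
      rw [← Finset.add_sum_erase J _ hi, Finset.sum_range_succ, add_comm]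
      refine add_le_add (ih _ ?_) (w_anti hr hr1 hin)
      rw [Finset.card_erase_of_mem hi, hJ]
      rfl
  exact key J.card J rfl

include hr hr1 in
/-- the cost of a shift of the ranks -/
lemma shift (A : Finset ℕ) (ρ : ℕ → ℕ) (hρ : Set.InjOn ρ A) (K : ℕ) :
    ∑ n ∈ A, (w r (ρ n) - w r (ρ n + K)) ≤ (K : ℝ) ^ r := by
  classical
  have h0 : ∀ k, 0 ≤ w r k - w r (k + K) := fun k =>
    sub_nonneg.mpr (w_anti hr hr1 (Nat.le_add_right k K))
  have h1 : ∑ n ∈ A, (w r (ρ n) - w r (ρ n + K)) = ∑ k ∈ A.image ρ, (w r k - w r (k + K)) := by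
    rw [Finset.sum_image hρ]
  obtain ⟨L, hL⟩ := (A.image ρ).exists_nat_subset_range
  rw [h1]
  refine (Finset.sum_le_sum_of_subset_of_nonneg hL (fun k _ _ => h0 k)).trans ?_
  rw [Finset.sum_sub_distrib]
  have h2 : ∑ k ∈ Finset.range L, w r (k + K) = ∑ k ∈ Finset.range (L + K), w r k -
      ∑ k ∈ Finset.range K, w r k := by
    rw [add_comm L K, Finset.sum_range_add, add_sub_cancel_left]
    exact Finset.sum_congr rfl fun k _ => by rw [add_comm]
  have h3 : ∑ k ∈ Finset.range L, w r k ≤ ∑ k ∈ Finset.range (L + K), w r k :=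
    Finset.sum_le_sum_of_subset_of_nonneg (Finset.range_mono (Nat.le_add_right L K))
      (fun k _ _ => w_nonneg hr k)
  rw [h2, sum_w hr K]
  linarith

end weights

variable {𝕜 : Type} [RCLike 𝕜]

/-- the weighted sum with ranks `ρ` -/
noncomputable def sw (r : ℝ) (A : Finset ℕ) (ρ : ℕ → ℕ) (x : ℕ → 𝕜) : ℝ :=
  ∑ n ∈ A, w r (ρ n) * ‖x n‖ ^ r

/-- the set of all weighted sums -/
def vals (r : ℝ) (x : ℕ → 𝕜) : Set ℝ :=
  {v | ∃ (A : Finset ℕ) (ρ : ℕ → ℕ), Set.InjOn ρ A ∧ v = sw r A ρ x}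

lemma zero_mem_vals (r : ℝ) (x : ℕ → 𝕜) : (0 : ℝ) ∈ vals r x :=
  ⟨∅, id, by simp, by unfold sw; simp⟩

/-- the supremum of the weighted sums -/
noncomputable def SS (r : ℝ) (x : ℕ → 𝕜) : ℝ := sSup (vals r x)

variable {r : ℝ}

lemma le_SS {x : ℕ → 𝕜} (hx : BddAbove (vals r x)) (A : Finset ℕ) (ρ : ℕ → ℕ)
    (hρ : Set.InjOn ρ A) : sw r A ρ x ≤ SS r x := le_csSup hx ⟨A, ρ, hρ, rfl⟩

lemma SS_le {x : ℕ → 𝕜} (C : ℝ) (hC : ∀ (A : Finset ℕ) (ρ : ℕ → ℕ), Set.InjOn ρ A →
    sw r A ρ x ≤ C) : SS r x ≤ C := by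
  apply csSup_le ⟨0, zero_mem_vals r x⟩
  rintro _ ⟨A, ρ, hρ, rfl⟩
  exact hC A ρ hρ

lemma SS_nonneg {x : ℕ → 𝕜} (hx : BddAbove (vals r x)) : 0 ≤ SS r x :=
  le_csSup hx (zero_mem_vals r x)

section main

variable (hr : 0 < r) (hr1 : r < 1)

include hr in
lemma sw_nonneg (A : Finset ℕ) (ρ : ℕ → ℕ) (x : ℕ → 𝕜) : 0 ≤ sw r A ρ x :=
  Finset.sum_nonneg fun _ _ => mul_nonneg (w_nonneg hr _) (Real.rpow_nonneg (norm_nonneg _) _)

include hr hr1 in
lemma sw_add (A : Finset ℕ) (ρ : ℕ → ℕ) (x y : ℕ → 𝕜) :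
    sw r A ρ (x + y) ≤ sw r A ρ x + sw r A ρ y := by
  unfold sw
  rw [← Finset.sum_add_distrib]
  apply Finset.sum_le_sum
  intro n _
  rw [← mul_add]
  apply mul_le_mul_of_nonneg_left _ (w_nonneg hr _)
  rw [Pi.add_apply]
  refine (Real.rpow_le_rpow (norm_nonneg _) (norm_add_le _ _) hr.le).trans ?_
  exact Real.rpow_add_le_add_rpow (norm_nonneg _) (norm_nonneg _) hr.le hr1.le

lemma sw_smul (A : Finset ℕ) (ρ : ℕ → ℕ) (c : 𝕜) (x : ℕ → 𝕜) :
    sw r A ρ (c • x) = ‖c‖ ^ r * sw r A ρ x := by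
  unfold sw
  rw [Finset.mul_sum]
  apply Finset.sum_congr rfl
  intro n _
  rw [Pi.smul_apply, norm_smul, Real.mul_rpow (norm_nonneg _) (norm_nonneg _)]
  ring

include hr hr1 in
lemma bdd_add {x y : ℕ → 𝕜} (hx : BddAbove (vals r x)) (hy : BddAbove (vals r y)) :
    BddAbove (vals r (x + y)) := by
  refine ⟨SS r x + SS r y, ?_⟩
  rintro _ ⟨A, ρ, hρ, rfl⟩
  exact (sw_add hr hr1 A ρ x y).trans (add_le_add (le_SS hx A ρ hρ) (le_SS hy A ρ hρ))

include hr hr1 in
lemma SS_add {x y : ℕ → 𝕜} (hx : BddAbove (vals r x)) (hy : BddAbove (vals r y)) :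
    SS r (x + y) ≤ SS r x + SS r y :=
  SS_le _ fun A ρ hρ =>
    (sw_add hr hr1 A ρ x y).trans (add_le_add (le_SS hx A ρ hρ) (le_SS hy A ρ hρ))

lemma bdd_smul {x : ℕ → 𝕜} (c : 𝕜) (hx : BddAbove (vals r x)) : BddAbove (vals r (c • x)) := by
  refine ⟨‖c‖ ^ r * SS r x, ?_⟩
  rintro _ ⟨A, ρ, hρ, rfl⟩
  rw [sw_smul]
  exact mul_le_mul_of_nonneg_left (le_SS hx A ρ hρ) (Real.rpow_nonneg (norm_nonneg _) _)

lemma SS_smul_le {x : ℕ → 𝕜} (c : 𝕜) (hx : BddAbove (vals r x)) :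
    SS r (c • x) ≤ ‖c‖ ^ r * SS r x :=
  SS_le _ fun A ρ hρ => by
    rw [sw_smul]
    exact mul_le_mul_of_nonneg_left (le_SS hx A ρ hρ) (Real.rpow_nonneg (norm_nonneg _) _)

include hr in
lemma SS_smul {x : ℕ → 𝕜} (c : 𝕜) (hx : BddAbove (vals r x)) :
    SS r (c • x) = ‖c‖ ^ r * SS r x := by
  apply le_antisymm (SS_smul_le c hx)
  by_cases hc : c = 0
  · rw [hc, norm_zero, Real.zero_rpow hr.ne', zero_mul]
    exact SS_nonneg (bdd_smul 0 hx)
  · have h1 := SS_smul_le c⁻¹ (bdd_smul c hx)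
    rw [smul_smul, inv_mul_cancel₀ hc, one_smul, norm_inv,
      Real.inv_rpow (norm_nonneg _)] at h1
    have h2 : 0 < ‖c‖ ^ r := Real.rpow_pos_of_pos (norm_pos_iff.mpr hc) r
    rw [inv_mul_eq_div, le_div_iff₀ h2] at h1
    linarith

include hr in
lemma norm_rpow_le {x : ℕ → 𝕜} (hx : BddAbove (vals r x)) (n : ℕ) : ‖x n‖ ^ r ≤ SS r x := by
  have h := le_SS hx {n} (fun _ => 0) (by simp)
  unfold sw at h
  rwa [Finset.sum_singleton, w_zero hr, one_mul] at h

include hr in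
lemma eq_zero_of {x : ℕ → 𝕜} (hx : BddAbove (vals r x)) (h : SS r x = 0) : x = 0 := by
  funext n
  have h1 := norm_rpow_le hr hx n
  rw [h] at h1
  have h2 : ‖x n‖ ^ r = 0 := le_antisymm h1 (Real.rpow_nonneg (norm_nonneg _) _)
  have h3 : ‖x n‖ = 0 := (Real.rpow_eq_zero (norm_nonneg _) hr.ne').mp h2
  exact norm_eq_zero.mp h3

include hr in
lemma SS_zero : SS r (0 : ℕ → 𝕜) = 0 := by
  apply le_antisymm
  · apply SS_le
    intro A ρ _
    unfold sw
    simp [Real.zero_rpow hr.ne']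
  · refine SS_nonneg ⟨0, ?_⟩
    rintro _ ⟨A, ρ, _, rfl⟩
    unfold sw
    simp [Real.zero_rpow hr.ne']

/-- sums over disjoint sets with shifted ranks -/
lemma exists_union (A B : Finset ℕ) (ρ τ : ℕ → ℕ) (K : ℕ)
    (hρ : Set.InjOn ρ A) (hτ : Set.InjOn τ B) (hK : ∀ n ∈ A, ρ n < K) (hd : Disjoint A B) :
    ∃ (A' : Finset ℕ) (ρ' : ℕ → ℕ), Set.InjOn ρ' A' ∧ ∀ x : ℕ → 𝕜,
      sw r A' ρ' x = sw r A ρ x + sw r B (fun n => τ n + K) x := by
  classical
  refine ⟨A ∪ B, fun n => if n ∈ A then ρ n else τ n + K, ?_, fun x => ?_⟩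
  · intro m hm n hn hmn
    simp only at hmn
    rw [Finset.mem_coe, Finset.mem_union] at hm hn
    by_cases hmA : m ∈ A
    · by_cases hnA : n ∈ A
      · rw [if_pos hmA, if_pos hnA] at hmn
        exact hρ hmA hnA hmn
      · rw [if_pos hmA, if_neg hnA] at hmn
        have := hK m hmA
        omega
    · by_cases hnA : n ∈ A
      · rw [if_neg hmA, if_pos hnA] at hmn
        have := hK n hnA
        omega
      · rw [if_neg hmA, if_neg hnA] at hmn
        exact hτ (hm.resolve_left hmA) (hn.resolve_left hnA) (by omega)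
  · unfold sw
    rw [Finset.sum_union hd]
    congr 1
    · apply Finset.sum_congr rfl
      intro n hn
      simp only [if_pos hn]
    · apply Finset.sum_congr rfl
      intro n hn
      simp only [if_neg (fun h => (Finset.disjoint_left.mp hd h) hn)]

lemma sw_union {x : ℕ → 𝕜} (hx : BddAbove (vals r x)) (A B : Finset ℕ) (ρ τ : ℕ → ℕ) (K : ℕ)
    (hρ : Set.InjOn ρ A) (hτ : Set.InjOn τ B) (hK : ∀ n ∈ A, ρ n < K) (hd : Disjoint A B) :
    sw r A ρ x + sw r B (fun n => τ n + K) x ≤ SS r x := by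
  obtain ⟨A', ρ', hρ', h⟩ := exists_union (𝕜 := 𝕜) (r := r) A B ρ τ K hρ hτ hK hd
  rw [← h]
  exact le_SS hx A' ρ' hρ'

include hr hr1 in
lemma sw_shift {x : ℕ → 𝕜} (B : Finset ℕ) (τ : ℕ → ℕ) (hτ : Set.InjOn τ B) (K : ℕ) (δ : ℝ)
    (hδ : ∀ n ∈ B, ‖x n‖ ^ r ≤ δ) (hδ0 : 0 ≤ δ) :
    sw r B τ x ≤ sw r B (fun n => τ n + K) x + δ * (K : ℝ) ^ r := by
  have h1 : sw r B τ x - sw r B (fun n => τ n + K) x =
      ∑ n ∈ B, (w r (τ n) - w r (τ n + K)) * ‖x n‖ ^ r := by
    unfold sw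
    rw [← Finset.sum_sub_distrib]
    exact Finset.sum_congr rfl fun n _ => by ring
  have h2 : ∑ n ∈ B, (w r (τ n) - w r (τ n + K)) * ‖x n‖ ^ r ≤
      ∑ n ∈ B, (w r (τ n) - w r (τ n + K)) * δ := by
    apply Finset.sum_le_sum
    intro n hn
    exact mul_le_mul_of_nonneg_left (hδ n hn)
      (sub_nonneg.mpr (w_anti hr hr1 (Nat.le_add_right _ K)))
  rw [← Finset.sum_mul] at h2
  have h3 := mul_le_mul_of_nonneg_right (shift hr hr1 B τ hτ K) hδ0
  linarith

include hr in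
/-- many large coordinates -/
lemma card_le {x : ℕ → 𝕜} (hx : BddAbove (vals r x)) (A : Finset ℕ) (ε : ℝ)
    (hA : ∀ n ∈ A, ε ≤ ‖x n‖ ^ r) : ε * (A.card : ℝ) ^ r ≤ SS r x := by
  -- ranks enumerating `A`
  classical
  set e := A.equivFin with he
  set ρ : ℕ → ℕ := fun n => if h : n ∈ A then (e ⟨n, h⟩ : ℕ) else 0 with hρ
  have hinj : Set.InjOn ρ A := by
    intro m hm n hn hmn
    rw [Finset.mem_coe] at hm hn
    rw [hρ] at hmn
    simp only [dif_pos hm, dif_pos hn] at hmn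
    have := e.injective (Fin.ext hmn)
    exact congrArg Subtype.val this
  have h1 := le_SS hx A ρ hinj
  have h2 : ε * ∑ j ∈ Finset.range A.card, w r j ≤ sw r A ρ x := by
    unfold sw
    have h3 : ∑ j ∈ Finset.range A.card, w r j = ∑ n ∈ A, w r (ρ n) := by
      rw [← Fin.sum_univ_eq_sum_range (fun j => w r j) A.card, ← Finset.sum_coe_sort A]
      rw [← Equiv.sum_comp e (fun i => w r i)]
      apply Finset.sum_congr rfl
      intro n _
      rw [hρ]
      simp only [dif_pos n.2]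
    rw [h3, Finset.mul_sum]
    apply Finset.sum_le_sum
    intro n hn
    rw [mul_comm]
    exact mul_le_mul_of_nonneg_left (hA n hn) (w_nonneg hr _)
  rw [sum_w hr] at h2
  exact h2.trans h1

include hr in
/-- the coordinates tend to zero -/
lemma small_coord {x : ℕ → 𝕜} (hx : BddAbove (vals r x)) (ε : ℝ) (hε : 0 < ε) :
    ∃ M, ∀ n, M ≤ n → ‖x n‖ ^ r < ε := by
  by_contra hcon
  push Not at hcon
  have hinf : Set.Infinite {n | ε ≤ ‖x n‖ ^ r} := by
    intro hfin
    obtain ⟨b, hb⟩ := hfin.bddAbove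
    obtain ⟨n, hn, hn2⟩ := hcon (b + 1)
    have := hb hn2
    omega
  obtain ⟨k, hk⟩ := exists_nat_gt ((SS r x / ε) ^ (1 / r))
  obtain ⟨A, hA, hAc⟩ := hinf.exists_subset_card_eq k
  have h2 := card_le hr hx A ε (fun n hn => hA hn)
  rw [hAc] at h2
  have h4 : SS r x / ε < (k : ℝ) ^ r := by
    have h5 : 0 ≤ SS r x / ε := div_nonneg (SS_nonneg hx) hε.le
    have h6 := Real.rpow_lt_rpow (Real.rpow_nonneg h5 _) hk hr
    rwa [← Real.rpow_mul h5, one_div, inv_mul_cancel₀ hr.ne', Real.rpow_one] at h6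
  rw [div_lt_iff₀ hε] at h4
  linarith

include hr hr1 in
/-- the tails tend to zero -/
lemma tail {x : ℕ → 𝕜} (hx : BddAbove (vals r x)) (ε : ℝ) (hε : 0 < ε) :
    ∃ M, ∀ (B : Finset ℕ) (τ : ℕ → ℕ), Set.InjOn τ B → (∀ n ∈ B, M ≤ n) → sw r B τ x ≤ ε := by
  classical
  obtain ⟨_, ⟨A, ρ, hρ, rfl⟩, hA⟩ := exists_lt_of_lt_csSup ⟨0, zero_mem_vals r x⟩
    (show SS r x - ε / 2 < sSup (vals r x) by
      change SS r x - ε / 2 < SS r x
      linarith)
  obtain ⟨K, hK⟩ := (A.image ρ).exists_nat_subset_range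
  obtain ⟨M1, hM1⟩ := A.exists_nat_subset_range
  have hKpos : 0 < ((K : ℝ) ^ r + 1) := by
    have := Real.rpow_nonneg (Nat.cast_nonneg K : (0 : ℝ) ≤ K) r
    linarith
  obtain ⟨M2, hM2⟩ := small_coord hr hx (ε / 2 / ((K : ℝ) ^ r + 1)) (by positivity)
  refine ⟨max M1 M2, fun B τ hτ hB => ?_⟩
  have hKρ : ∀ n ∈ A, ρ n < K := fun n hn =>
    Finset.mem_range.mp (hK (Finset.mem_image_of_mem ρ hn))
  have hdisj : Disjoint A B := by
    rw [Finset.disjoint_left]
    intro n hn hn'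
    have h1 := Finset.mem_range.mp (hM1 hn)
    have h2 := hB n hn'
    have := le_max_left M1 M2
    omega
  have h1 := sw_union hx A B ρ τ K hρ hτ hKρ hdisj
  have h2 := sw_shift hr hr1 (x := x) B τ hτ K (ε / 2 / ((K : ℝ) ^ r + 1))
    (fun n hn => (hM2 n (le_trans (le_max_right M1 M2) (hB n hn))).le) (by positivity)
  have h3 : ε / 2 / ((K : ℝ) ^ r + 1) * (K : ℝ) ^ r ≤ ε / 2 := by
    rw [div_mul_eq_mul_div, div_le_iff₀ hKpos]
    nlinarith
  linarith

/-- convexity -/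
lemma convex_incr (s u v d : ℝ) (hs : 1 ≤ s) (hv : 0 ≤ v) (huv : v ≤ u) (hd : 0 ≤ d) :
    (v + d) ^ s + u ^ s ≤ (u + d) ^ s + v ^ s := by
  rcases (show v ≤ u + d by linarith).lt_or_eq with h | h
  · have hpos : 0 < u + d - v := by linarith
    set l := d / (u + d - v) with hl
    have hl0 : 0 ≤ l := by positivity
    have hl1 : l ≤ 1 := by rw [hl, div_le_one hpos]; linarith
    have hc := convexOn_rpow hs
    have h1 := hc.2 (show v ∈ Set.Ici (0 : ℝ) from hv) (show u + d ∈ Set.Ici (0 : ℝ) from by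
      rw [Set.mem_Ici]; linarith) hl0 (show 0 ≤ 1 - l by linarith) (by ring)
    have h2 := hc.2 (show v ∈ Set.Ici (0 : ℝ) from hv) (show u + d ∈ Set.Ici (0 : ℝ) from by
      rw [Set.mem_Ici]; linarith) (show 0 ≤ 1 - l by linarith) hl0 (by ring)
    simp only [smul_eq_mul] at h1 h2
    have h3 : l * v + (1 - l) * (u + d) = u := by rw [hl]; field_simp; ring
    have h4 : (1 - l) * v + l * (u + d) = v + d := by rw [hl]; field_simp; ring
    rw [h3] at h1
    rw [h4] at h2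
    linarith
  · have h1 : u = v := by linarith
    have h2 : d = 0 := by linarith
    rw [h1, h2]

include hr hr1 in
/-- `d(w, r)` is contained in `ℓ₁` -/
lemma sum_norm_le (t : ℕ → ℝ) (ht : ∀ n, 0 ≤ t n) : ∀ (m : ℕ) (B : Finset ℕ), B.card = m →
    ∃ ρ : ℕ → ℕ, Set.InjOn ρ B ∧ (∀ n ∈ B, ρ n < m) ∧
      ∑ n ∈ B, t n ≤ (∑ n ∈ B, w r (ρ n) * t n ^ r) ^ (1 / r) := by
  classical
  intro m
  induction m with
  | zero =>
    intro B hB
    rw [Finset.card_eq_zero] at hB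
    subst hB
    refine ⟨id, by simp, by simp, ?_⟩
    simp only [Finset.sum_empty]
    exact Real.rpow_nonneg (le_refl _) _
  | succ k ih =>
    intro B hB
    have hne : B.Nonempty := by rw [← Finset.card_pos, hB]; exact Nat.succ_pos k
    obtain ⟨n0, hn0, hmin⟩ := B.exists_min_image t hne
    obtain ⟨ρ, hinj, hlt, hsum⟩ := ih (B.erase n0) (by
      rw [Finset.card_erase_of_mem hn0, hB]; rfl)
    set ρ' : ℕ → ℕ := fun n => if n = n0 then k else ρ n with hρ'
    have hρe : ∀ n ∈ B.erase n0, ρ' n = ρ n := fun n hn => by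
      rw [hρ']; simp only [if_neg (Finset.ne_of_mem_erase hn)]
    have hρ0 : ρ' n0 = k := by rw [hρ']; simp only [if_true]
    refine ⟨ρ', ?_, ?_, ?_⟩
    · intro a ha b hb hab
      rw [Finset.mem_coe] at ha hb
      by_cases ha0 : a = n0
      · by_cases hb0 : b = n0
        · rw [ha0, hb0]
        · have hbe := Finset.mem_erase.mpr ⟨hb0, hb⟩
          rw [ha0, hρ0, hρe b hbe] at hab
          have := hlt b hbe
          omega
      · have hae := Finset.mem_erase.mpr ⟨ha0, ha⟩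
        by_cases hb0 : b = n0
        · rw [hb0, hρ0, hρe a hae] at hab
          have := hlt a hae
          omega
        · have hbe := Finset.mem_erase.mpr ⟨hb0, hb⟩
          rw [hρe a hae, hρe b hbe] at hab
          exact hinj hae hbe hab
    · intro n hn
      by_cases h0 : n = n0
      · rw [h0, hρ0]; exact Nat.lt_succ_self k
      · have he := Finset.mem_erase.mpr ⟨h0, hn⟩
        rw [hρe n he]
        exact (hlt n he).trans (Nat.lt_succ_self k)
    · rw [← Finset.add_sum_erase B _ hn0, ← Finset.add_sum_erase B _ hn0, hρ0]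
      have h1 : ∑ n ∈ B.erase n0, w r (ρ' n) * t n ^ r = ∑ n ∈ B.erase n0, w r (ρ n) * t n ^ r :=
        Finset.sum_congr rfl fun n hn => by rw [hρe n hn]
      rw [h1]
      set U := ∑ n ∈ B.erase n0, w r (ρ n) * t n ^ r with hU
      have ht0 := ht n0
      have ht0r : 0 ≤ t n0 ^ r := Real.rpow_nonneg ht0 r
      -- the lower bound of `U`
      have h2 : (k : ℝ) ^ r * t n0 ^ r ≤ U := by
        have h3 : ∑ n ∈ B.erase n0, w r (ρ n) = (k : ℝ) ^ r := by
          rw [← sum_w hr, ← Finset.sum_image hinj]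
          congr 1
          apply Finset.eq_of_subset_of_card_le
          · intro j hj
            rw [Finset.mem_image] at hj
            obtain ⟨n, hn, rfl⟩ := hj
            exact Finset.mem_range.mpr (hlt n hn)
          · rw [Finset.card_range, Finset.card_image_of_injOn hinj,
              Finset.card_erase_of_mem hn0, hB]
            simp
        rw [← h3, Finset.sum_mul]
        apply Finset.sum_le_sum
        intro n hn
        apply mul_le_mul_of_nonneg_left _ (w_nonneg hr _)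
        exact Real.rpow_le_rpow ht0 (hmin n (Finset.mem_of_mem_erase hn)) hr.le
      have h4 : 1 ≤ 1 / r := by rw [le_div_iff₀ hr]; linarith
      have h5 := convex_incr (1 / r) U ((k : ℝ) ^ r * t n0 ^ r) (w r k * t n0 ^ r) h4
        (by positivity) h2 (mul_nonneg (w_nonneg hr k) ht0r)
      have h6 : (k : ℝ) ^ r * t n0 ^ r + w r k * t n0 ^ r = (((k : ℝ) + 1) * t n0) ^ r := by
        rw [Real.mul_rpow (by positivity) ht0]
        unfold w
        ring
      have h7 : (k : ℝ) ^ r * t n0 ^ r = ((k : ℝ) * t n0) ^ r := by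
        rw [Real.mul_rpow (by positivity) ht0]
      rw [h6, h7, ← Real.rpow_mul (by positivity), ← Real.rpow_mul (by positivity),
        mul_one_div_cancel hr.ne', Real.rpow_one, Real.rpow_one] at h5
      have h8 : w r k * t n0 ^ r + U = U + w r k * t n0 ^ r := add_comm _ _
      rw [h8]
      linarith

end main

end Pool.Agent.R267.QL
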