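import Pool.Agent.R267.QLor

set_option autoImplicit false

open Filter Topology

/-! Subspaces of `d(w, r)`. -/

namespace Pool.Agent.R267.QL

variable {𝕜 : Type} [RCLike 𝕜]

section sub

variable {r : ℝ} (hr : 0 < r) (hr1 : r < 1) (Y : Submodule 𝕜 (ℕ → 𝕜))
  (hY : ∀ y ∈ Y, BddAbove (vals r y)) (hinf : ¬ FiniteDimensional 𝕜 Y)

include hinf in
lemma exists_vanish (m : ℕ) : ∃ y ∈ Y, y ≠ 0 ∧ ∀ n < m, y n = 0 := by
  set L : Y →ₗ[𝕜] (Fin m → 𝕜) :=
    { toFun := fun y i => (y : ℕ → 𝕜) i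
      map_add' := fun _ _ => rfl
      map_smul' := fun _ _ => rfl } with hL
  have hni : ¬ Function.Injective L := by
    intro h
    exact hinf (Module.Finite.of_injective L h)
  rw [← LinearMap.ker_eq_bot] at hni
  obtain ⟨y, hy, hy0⟩ := (Submodule.ne_bot_iff _).mp hni
  refine ⟨y, y.2, fun h => hy0 (Subtype.ext h), fun n hn => ?_⟩
  have h1 : L y = 0 := LinearMap.mem_ker.mp hy
  exact congrFun h1 ⟨n, hn⟩

include hr hY hinf in
lemma exists_normalized (m : ℕ) : ∃ z ∈ Y, (∀ n < m, z n = 0) ∧ (∀ n, ‖z n‖ ≤ 1) ∧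
    ∃ n0, ‖z n0‖ = 1 := by
  obtain ⟨y, hyY, hy0, hym⟩ := exists_vanish Y hinf m
  obtain ⟨n1, hn1⟩ : ∃ n, y n ≠ 0 := by
    by_contra h
    push Not at h
    exact hy0 (funext h)
  have hpos : 0 < ‖y n1‖ := norm_pos_iff.mpr hn1
  obtain ⟨M, hM⟩ := small_coord hr (hY y hyY) (‖y n1‖ ^ r) (Real.rpow_pos_of_pos hpos r)
  obtain ⟨n0, _, hmax⟩ := (Finset.range (max M n1 + 1)).exists_max_image (fun n => ‖y n‖)
    ⟨n1, Finset.mem_range.mpr (by have := le_max_right M n1; omega)⟩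
  have hle1 : ‖y n1‖ ≤ ‖y n0‖ :=
    hmax n1 (Finset.mem_range.mpr (by have := le_max_right M n1; omega))
  have hle : ∀ n, ‖y n‖ ≤ ‖y n0‖ := by
    intro n
    by_cases hn : n < max M n1 + 1
    · exact hmax n (Finset.mem_range.mpr hn)
    · have h1 := hM n (by have := le_max_left M n1; omega)
      by_contra h2
      push Not at h2
      have h3 := Real.rpow_le_rpow (norm_nonneg _) (hle1.trans h2.le) hr.le
      linarith
  have hpos0 : 0 < ‖y n0‖ := hpos.trans_le hle1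
  refine ⟨((‖y n0‖⁻¹ : ℝ) : 𝕜) • y, Y.smul_mem _ hyY, fun n hn => ?_, fun n => ?_, n0, ?_⟩
  · rw [Pi.smul_apply, hym n hn, smul_zero]
  · rw [Pi.smul_apply, norm_smul, RCLike.norm_ofReal, abs_of_pos (by positivity),
      inv_mul_le_iff₀ hpos0, mul_one]
    exact hle n
  · rw [Pi.smul_apply, norm_smul, RCLike.norm_ofReal, abs_of_pos (by positivity),
      inv_mul_cancel₀ hpos0.ne']

include hr hY hinf in
lemma exists_many : ∀ (N : ℕ) (η : ℝ), 0 < η → η < 1 → ∀ m : ℕ,
    ∃ y ∈ Y, (∀ n < m, y n = 0) ∧ (∀ n, ‖y n‖ ≤ 1 + η) ∧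
      ∃ F : Finset ℕ, F.card = N ∧ ∀ n ∈ F, 1 - η ≤ ‖y n‖ := by
  classical
  intro N
  induction N with
  | zero =>
    intro η hη _ m
    refine ⟨0, Y.zero_mem, fun _ _ => rfl, fun n => ?_, ∅, rfl, by simp⟩
    rw [Pi.zero_apply, norm_zero]; linarith
  | succ k ih =>
    intro η hη hη1 m
    obtain ⟨y, hyY, hym, hyb, F, hF, hFy⟩ := ih (η / 2) (by linarith) (by linarith) m
    obtain ⟨M, hM⟩ := small_coord hr (hY y hyY) ((η / 2) ^ r) (Real.rpow_pos_of_pos (by linarith) r)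
    have hM' : ∀ n, M ≤ n → ‖y n‖ < η / 2 := fun n hn =>
      (Real.rpow_lt_rpow_iff (norm_nonneg _) (by linarith) hr).mp (hM n hn)
    obtain ⟨z, hzY, hzm, hzb, n0, hn0⟩ := exists_normalized hr Y hY hinf (max M m)
    have hFM : ∀ n ∈ F, n < M := by
      intro n hn
      by_contra h
      push Not at h
      have h1 := hM' n h
      have h2 := hFy n hn
      linarith
    have hn0M : max M m ≤ n0 := by
      by_contra h
      push Not at h
      rw [hzm n0 h, norm_zero] at hn0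
      exact zero_ne_one hn0
    refine ⟨y + z, Y.add_mem hyY hzY, fun n hn => ?_, fun n => ?_, insert n0 F, ?_, ?_⟩
    · rw [Pi.add_apply, hym n hn, hzm n (lt_of_lt_of_le hn (le_max_right _ _)), add_zero]
    · rw [Pi.add_apply]
      by_cases hn : n < max M m
      · rw [hzm n hn, add_zero]
        have := hyb n
        linarith
      · push Not at hn
        have h1 := hM' n (le_trans (le_max_left _ _) hn)
        have h2 := hzb n
        have h3 := norm_add_le (y n) (z n)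
        linarith
    · rw [Finset.card_insert_of_notMem, hF]
      intro h
      have h1 := hFM n0 h
      have h2 := le_max_left M m
      omega
    · intro n hn
      rw [Finset.mem_insert] at hn
      rcases hn with hn | hn
      · subst hn
        rw [Pi.add_apply]
        have h1 := hM' n (le_trans (le_max_left _ _) hn0M)
        have h2 : ‖z n‖ ≤ ‖y n + z n‖ + ‖y n‖ := by
          have := norm_sub_le (y n + z n) (y n)
          rwa [add_sub_cancel_left] at this
        linarith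
      · rw [Pi.add_apply, hzm n (lt_of_lt_of_le (hFM n hn) (le_max_left _ _)), add_zero]
        have := hFy n hn
        linarith

include hr hY hinf in
/-- flat vectors -/
lemma exists_flat (m : ℕ) (δ : ℝ) (hδ : 0 < δ) : ∃ z ∈ Y, (∀ n < m, z n = 0) ∧ SS r z = 1 ∧
    ∀ n, ‖z n‖ ^ r ≤ δ := by
  obtain ⟨N, hN⟩ := exists_nat_gt ((3 ^ r / δ) ^ (1 / r))
  have h3pos : (0 : ℝ) < 3 ^ r := Real.rpow_pos_of_pos (by norm_num) r
  have hNr : 3 ^ r / δ < (N : ℝ) ^ r := by
    have h5 : 0 ≤ (3 : ℝ) ^ r / δ := by positivity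
    have h6 := Real.rpow_lt_rpow (Real.rpow_nonneg h5 _) hN hr
    rwa [← Real.rpow_mul h5, one_div, inv_mul_cancel₀ hr.ne', Real.rpow_one] at h6
  obtain ⟨y, hyY, hym, hyb, F, hF, hFy⟩ := exists_many hr Y hY hinf N (1 / 2) (by norm_num)
    (by norm_num) m
  have hb := hY y hyY
  have hNpos : 0 < (N : ℝ) ^ r := lt_trans (by positivity) hNr
  have h1 : (1 / 2 : ℝ) ^ r * (N : ℝ) ^ r ≤ SS r y := by
    rw [← hF]
    apply card_le hr hb
    intro n hn
    apply Real.rpow_le_rpow (by norm_num) _ hr.le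
    have := hFy n hn
    linarith
  have h2pos : (0 : ℝ) < (1 / 2 : ℝ) ^ r := Real.rpow_pos_of_pos (by norm_num) r
  set s := SS r y with hs
  have hspos : 0 < s := lt_of_lt_of_le (mul_pos h2pos hNpos) h1
  set c : ℝ := (s ^ (1 / r))⁻¹ with hc
  have hspow : 0 < s ^ (1 / r) := Real.rpow_pos_of_pos hspos _
  have hcpos : 0 < c := inv_pos.mpr hspow
  have hcr : ‖((c : ℝ) : 𝕜)‖ ^ r = s⁻¹ := by
    rw [RCLike.norm_ofReal, abs_of_pos hcpos, hc, Real.inv_rpow hspow.le,
      ← Real.rpow_mul hspos.le, one_div, inv_mul_cancel₀ hr.ne', Real.rpow_one]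
  refine ⟨((c : ℝ) : 𝕜) • y, Y.smul_mem _ hyY, fun n hn => ?_, ?_, fun n => ?_⟩
  · rw [Pi.smul_apply, hym n hn, smul_zero]
  · rw [SS_smul hr _ hb, hcr, ← hs, inv_mul_cancel₀ hspos.ne']
  · rw [Pi.smul_apply, norm_smul, Real.mul_rpow (norm_nonneg _) (norm_nonneg _), hcr,
      inv_mul_le_iff₀ hspos]
    have h3 : ‖y n‖ ^ r ≤ (3 / 2 : ℝ) ^ r :=
      Real.rpow_le_rpow (norm_nonneg _) (by have := hyb n; linarith) hr.le
    have h4 : (3 / 2 : ℝ) ^ r = (1 / 2 : ℝ) ^ r * 3 ^ r := by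
      rw [← Real.mul_rpow (by norm_num) (by norm_num)]; norm_num
    rw [div_lt_iff₀ hδ] at hNr
    calc ‖y n‖ ^ r ≤ (1 / 2 : ℝ) ^ r * 3 ^ r := by rw [← h4]; exact h3
      _ ≤ (1 / 2 : ℝ) ^ r * ((N : ℝ) ^ r * δ) := mul_le_mul_of_nonneg_left hNr.le h2pos.le
      _ = ((1 / 2 : ℝ) ^ r * (N : ℝ) ^ r) * δ := by ring
      _ ≤ s * δ := mul_le_mul_of_nonneg_right h1 hδ.le

include hr hr1 hY hinf in
/-- the main induction -/
lemma exists_sum (Np : (ℕ → 𝕜) → ℝ) (p D : ℝ)
    (hadd : ∀ y ∈ Y, ∀ z ∈ Y, Np (y + z) ^ p ≤ Np y ^ p + Np z ^ p)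
    (hzero : Np 0 ^ p ≤ 0) (hD : ∀ z ∈ Y, SS r z = 1 → Np z ^ p ≤ D) :
    ∀ k : ℕ, ∃ y ∈ Y, Np y ^ p ≤ k * D ∧ (k : ℝ) / 4 ≤ SS r y := by
  classical
  have key : ∀ k : ℕ, ∃ y ∈ Y, Np y ^ p ≤ k * D ∧ ∃ (A : Finset ℕ) (ρ : ℕ → ℕ),
      Set.InjOn ρ A ∧ (k : ℝ) / 4 ≤ sw r A ρ y := by
    intro k
    induction k with
    | zero =>
      refine ⟨0, Y.zero_mem, by simpa using hzero, ∅, id, by simp, ?_⟩
      unfold sw; simp
    | succ k ih =>
      obtain ⟨y, hyY, hyN, A, ρ, hρ, hA⟩ := ih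
      have hyb := hY y hyY
      obtain ⟨K, hK⟩ := (A.image ρ).exists_nat_subset_range
      obtain ⟨M1, hM1⟩ := A.exists_nat_subset_range
      have hKρ : ∀ n ∈ A, ρ n < K := fun n hn =>
        Finset.mem_range.mp (hK (Finset.mem_image_of_mem ρ hn))
      obtain ⟨M2, hM2⟩ := tail hr hr1 hyb (1 / 4) (by norm_num)
      have hKr := Real.rpow_nonneg (Nat.cast_nonneg K : (0 : ℝ) ≤ K) r
      obtain ⟨z, hzY, hzm, hz1, hzf⟩ := exists_flat hr Y hY hinf (max M1 M2)
        (1 / 8 / ((K : ℝ) ^ r + 1)) (by positivity)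
      have hzb := hY z hzY
      obtain ⟨_, ⟨B0, τ, hτ, rfl⟩, hB0⟩ := exists_lt_of_lt_csSup ⟨0, zero_mem_vals r z⟩
        (show (7 / 8 : ℝ) < sSup (vals r z) by
          change (7 / 8 : ℝ) < SS r z
          rw [hz1]; norm_num)
      set B := B0.filter (fun n => max M1 M2 ≤ n) with hB
      have hsw : sw r B τ z = sw r B0 τ z := by
        unfold sw
        rw [hB, Finset.sum_filter]
        apply Finset.sum_congr rfl
        intro n _
        split_ifs with h
        · rfl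
        · push Not at h
          rw [hzm n h, norm_zero, Real.zero_rpow hr.ne', mul_zero]
      have hτB : Set.InjOn τ B := hτ.mono (by
        intro n hn
        exact (Finset.mem_filter.mp hn).1)
      have hBM : ∀ n ∈ B, max M1 M2 ≤ n := fun n hn => (Finset.mem_filter.mp hn).2
      have hdisj : Disjoint A B := by
        rw [Finset.disjoint_left]
        intro n hn hn'
        have h1 := Finset.mem_range.mp (hM1 hn)
        have h2 := hBM n hn'
        have := le_max_left M1 M2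
        omega
      obtain ⟨A', ρ', hρ', hsum⟩ := exists_union (𝕜 := 𝕜) (r := r) A B ρ τ K hρ hτB hKρ hdisj
      refine ⟨y + z, Y.add_mem hyY hzY, ?_, A', ρ', hρ', ?_⟩
      · have h1 := hadd y hyY z hzY
        have h2 := hD z hzY hz1
        push_cast
        linarith
      · rw [hsum]
        have h1 : sw r A ρ (y + z) = sw r A ρ y := by
          unfold sw
          apply Finset.sum_congr rfl
          intro n hn
          rw [Pi.add_apply, hzm n (lt_of_lt_of_le (Finset.mem_range.mp (hM1 hn))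
            (le_max_left _ _)), add_zero]
        have h2 := sw_shift hr hr1 (x := z) B τ hτB K (1 / 8 / ((K : ℝ) ^ r + 1))
          (fun n _ => hzf n) (by positivity)
        have h3 : 1 / 8 / ((K : ℝ) ^ r + 1) * (K : ℝ) ^ r ≤ 1 / 8 := by
          rw [div_mul_eq_mul_div, div_le_iff₀ (by linarith)]
          nlinarith
        have h4 : sw r B (fun n => τ n + K) z ≤ sw r B (fun n => τ n + K) (y + z) +
            sw r B (fun n => τ n + K) ((-1 : 𝕜) • y) := by
          have h5 := sw_add hr hr1 B (fun n => τ n + K) (y + z) ((-1 : 𝕜) • y)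
          have h6 : y + z + (-1 : 𝕜) • y = z := by
            rw [neg_one_smul]; abel
          rwa [h6] at h5
        have h5 : sw r B (fun n => τ n + K) ((-1 : 𝕜) • y) = sw r B (fun n => τ n + K) y := by
          rw [sw_smul, norm_neg, norm_one, Real.one_rpow, one_mul]
        have h6 : sw r B (fun n => τ n + K) y ≤ 1 / 4 := by
          apply hM2
          · intro m hm n hn hmn
            exact hτB hm hn (by simpa using hmn)
          · intro n hn
            exact le_trans (le_max_right _ _) (hBM n hn)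
        rw [h1]
        rw [hsw] at h2
        push_cast
        linarith
  intro k
  obtain ⟨y, hyY, hyN, A, ρ, hρ, hA⟩ := key k
  exact ⟨y, hyY, hyN, hA.trans (le_SS (hY y hyY) A ρ hρ)⟩

include hr hr1 hY hinf in
/-- no equivalent `p`-norm on infinite-dimensional subspaces -/
theorem no_pnorm (Np : (ℕ → 𝕜) → ℝ) (p C : ℝ) (hp : r < p) (hC : 0 < C)
    (hnn : ∀ y ∈ Y, 0 ≤ Np y)
    (hadd : ∀ y ∈ Y, ∀ z ∈ Y, Np (y + z) ^ p ≤ Np y ^ p + Np z ^ p)
    (hup : ∀ y ∈ Y, Np y ≤ C * SS r y ^ (1 / r))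
    (hlow : ∀ y ∈ Y, SS r y ^ (1 / r) ≤ C * Np y) : False := by
  have hp0 : 0 < p := hr.trans hp
  have hzero : Np 0 ^ p ≤ 0 := by
    have h1 := hup 0 Y.zero_mem
    rw [SS_zero hr, Real.zero_rpow (by positivity), mul_zero] at h1
    have h2 := hnn 0 Y.zero_mem
    rw [le_antisymm h1 h2, Real.zero_rpow hp0.ne']
  have hD : ∀ z ∈ Y, SS r z = 1 → Np z ^ p ≤ C ^ p := by
    intro z hz h1
    have h2 := hup z hz
    rw [h1, Real.one_rpow, mul_one] at h2
    exact Real.rpow_le_rpow (hnn z hz) h2 hp0.le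
  have key := exists_sum hr hr1 Y hY hinf Np p (C ^ p) hadd hzero hD
  set s := p / r with hs
  have hs1 : 1 < s := by rw [hs, one_lt_div hr]; exact hp
  obtain ⟨k, hk⟩ := exists_nat_gt (4 * (4 * (C ^ p * C ^ p)) ^ (1 / (s - 1)))
  obtain ⟨y, hyY, hyN, hyS⟩ := key k
  have hCp : 0 < C ^ p := Real.rpow_pos_of_pos hC p
  have hkpos : (0 : ℝ) < k := lt_of_le_of_lt (by positivity) hk
  -- `(k/4)^s ≤ C^p * (k * C^p)`
  have h1 : ((k : ℝ) / 4) ^ s ≤ C ^ p * (k * C ^ p) := by
    have h2 : ((k : ℝ) / 4) ^ (1 / r) ≤ C * Np y :=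
      (Real.rpow_le_rpow (by positivity) hyS (by positivity)).trans (hlow y hyY)
    have h3 := Real.rpow_le_rpow (by positivity) h2 hp0.le
    rw [← Real.rpow_mul (by positivity), Real.mul_rpow hC.le (hnn y hyY)] at h3
    have h4 : 1 / r * p = s := by rw [hs]; ring
    rw [h4] at h3
    exact h3.trans (mul_le_mul_of_nonneg_left hyN hCp.le)
  have h2 : (4 * (C ^ p * C ^ p)) < ((k : ℝ) / 4) ^ (s - 1) := by
    have h3 : (4 * (C ^ p * C ^ p)) ^ (1 / (s - 1)) < (k : ℝ) / 4 := by linarith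
    have h4 := Real.rpow_lt_rpow (by positivity) h3 (show 0 < s - 1 by linarith)
    rwa [← Real.rpow_mul (by positivity), one_div, inv_mul_cancel₀ (by linarith), Real.rpow_one]
      at h4
  have h3 : ((k : ℝ) / 4) ^ s = ((k : ℝ) / 4) ^ (s - 1) * ((k : ℝ) / 4) := by
    rw [← Real.rpow_add_one (by positivity)]
    congr 1
    ring
  rw [h3] at h1
  have h4 := mul_lt_mul_of_pos_right h2 (show 0 < (k : ℝ) / 4 by positivity)
  nlinarith

end sub

end Pool.Agent.R267.QL
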