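import Pool.Agent.R267.QLor2

set_option autoImplicit false

open Filter Topology

/-! The space `d(w, r)` as a quasi-Banach space with a bidemocratic basis. -/

namespace Pool.Agent.R267.QL

variable {𝕜 : Type} [RCLike 𝕜] {r : ℝ}

/-- the Lorentz space -/
def LL (𝕜 : Type) [RCLike 𝕜] {r : ℝ} (hr : 0 < r) (hr1 : r < 1) : Submodule 𝕜 (ℕ → 𝕜) where
  carrier := {x | BddAbove (vals r x)}
  add_mem' := fun hx hy => bdd_add hr hr1 hx hy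
  zero_mem' := ⟨0, by
    rintro _ ⟨A, ρ, _, rfl⟩
    unfold sw
    simp [Real.zero_rpow hr.ne']⟩
  smul_mem' := fun c _ hx => bdd_smul c hx

/-- the quasi-norm -/
noncomputable def qn (r : ℝ) (x : ℕ → 𝕜) : ℝ := SS r x ^ (1 / r)

variable (hr : 0 < r) (hr1 : r < 1)

lemma LL_bdd {x : ℕ → 𝕜} (hx : x ∈ LL 𝕜 hr hr1) : BddAbove (vals r x) := hx

include hr in
lemma qn_lt_iff {x : ℕ → 𝕜} (hx : BddAbove (vals r x)) (ε : ℝ) (hε : 0 < ε) :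
    qn r x < ε ↔ SS r x < ε ^ r := by
  unfold qn
  have h := SS_nonneg hx
  constructor
  · intro h1
    have h2 := Real.rpow_lt_rpow (Real.rpow_nonneg h _) h1 hr
    rwa [← Real.rpow_mul h, one_div, inv_mul_cancel₀ hr.ne', Real.rpow_one] at h2
  · intro h1
    have h2 := Real.rpow_lt_rpow h h1 (show 0 < 1 / r by positivity)
    rwa [← Real.rpow_mul hε.le, mul_one_div_cancel hr.ne', Real.rpow_one] at h2

include hr in
lemma qn_smul {x : ℕ → 𝕜} (hx : BddAbove (vals r x)) (c : 𝕜) : qn r (c • x) = ‖c‖ * qn r x := by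
  unfold qn
  rw [SS_smul hr c hx, Real.mul_rpow (Real.rpow_nonneg (norm_nonneg _) _) (SS_nonneg hx),
    ← Real.rpow_mul (norm_nonneg _), mul_one_div_cancel hr.ne', Real.rpow_one]

include hr hr1 in
lemma qn_add {x y : ℕ → 𝕜} (hx : BddAbove (vals r x)) (hy : BddAbove (vals r y)) :
    qn r (x + y) ≤ 2 ^ (1 / r) * (qn r x + qn r y) := by
  unfold qn
  have h1 := SS_add hr hr1 hx hy
  have hx0 := SS_nonneg hx
  have hy0 := SS_nonneg hy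
  have hxy0 := SS_nonneg (bdd_add hr hr1 hx hy)
  have hp : 0 ≤ 1 / r := by positivity
  have h2 : SS r (x + y) ≤ 2 * max (SS r x) (SS r y) := by
    have := le_max_left (SS r x) (SS r y)
    have := le_max_right (SS r x) (SS r y)
    linarith
  have h3 := Real.rpow_le_rpow hxy0 h2 hp
  rw [Real.mul_rpow (by norm_num) (le_max_of_le_left hx0)] at h3
  refine h3.trans (mul_le_mul_of_nonneg_left ?_ (by positivity))
  rcases le_total (SS r x) (SS r y) with h | h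
  · rw [max_eq_right h]
    have := Real.rpow_nonneg hx0 (1 / r)
    linarith
  · rw [max_eq_left h]
    have := Real.rpow_nonneg hy0 (1 / r)
    linarith

lemma qn_nonneg {x : ℕ → 𝕜} (hx : BddAbove (vals r x)) : 0 ≤ qn r x :=
  Real.rpow_nonneg (SS_nonneg hx) _

include hr in
lemma norm_le_qn {x : ℕ → 𝕜} (hx : BddAbove (vals r x)) (n : ℕ) : ‖x n‖ ≤ qn r x := by
  have h1 := Real.rpow_le_rpow (Real.rpow_nonneg (norm_nonneg _) _) (norm_rpow_le hr hx n)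
    (show 0 ≤ 1 / r by positivity)
  rwa [← Real.rpow_mul (norm_nonneg _), mul_one_div_cancel hr.ne', Real.rpow_one] at h1

include hr in
lemma eq_zero_of_qn {x : ℕ → 𝕜} (hx : BddAbove (vals r x)) (h : qn r x = 0) : x = 0 := by
  funext n
  have h1 := norm_le_qn hr hx n
  rw [h] at h1
  exact norm_le_zero_iff.mp h1

lemma continuous_term (hr : 0 < r) (A : Finset ℕ) (ρ : ℕ → ℕ) (u : ℕ → ℕ → 𝕜) (y : ℕ → 𝕜)
    (h : ∀ k, Tendsto (fun m => u m k) atTop (𝓝 (y k))) (x : ℕ → 𝕜) :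
    Tendsto (fun m => sw r A ρ (x - u m)) atTop (𝓝 (sw r A ρ (x - y))) := by
  unfold sw
  apply tendsto_finset_sum
  intro n _
  apply Tendsto.const_mul
  have h1 : Tendsto (fun m => ‖(x - u m) n‖) atTop (𝓝 ‖(x - y) n‖) :=
    (tendsto_const_nhds.sub (h n)).norm
  exact h1.rpow_const (Or.inr hr.le)

theorem complete (u : ℕ → LL 𝕜 hr hr1)
    (hu : ∀ ε : ℝ, 0 < ε → ∃ N, ∀ m, N ≤ m → ∀ n, N ≤ n →
      qn r ((u m - u n : LL 𝕜 hr hr1) : ℕ → 𝕜) < ε) :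
    ∃ y : LL 𝕜 hr hr1, ∀ ε : ℝ, 0 < ε → ∃ N, ∀ n, N ≤ n →
      qn r ((u n - y : LL 𝕜 hr hr1) : ℕ → 𝕜) < ε := by
  have hpt : ∀ k, CauchySeq (fun m => (u m : ℕ → 𝕜) k) := by
    intro k
    rw [Metric.cauchySeq_iff]
    intro ε hε
    obtain ⟨N, hN⟩ := hu ε hε
    refine ⟨N, fun m hm n hn => ?_⟩
    rw [dist_eq_norm]
    exact lt_of_le_of_lt (norm_le_qn hr (LL_bdd hr hr1 (u m - u n).2) k) (hN m hm n hn)
  choose y hy using fun k => cauchySeq_tendsto_of_complete (hpt k)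
  have hbound : ∀ ε : ℝ, 0 < ε → ∃ N, ∀ m, N ≤ m → ∀ (A : Finset ℕ) (ρ : ℕ → ℕ), Set.InjOn ρ A →
      sw r A ρ ((u m : ℕ → 𝕜) - y) ≤ ε := by
    intro ε hε
    obtain ⟨N, hN⟩ := hu (ε ^ (1 / r)) (Real.rpow_pos_of_pos hε _)
    refine ⟨N, fun m hm A ρ hρ => ?_⟩
    have h1 := continuous_term hr A ρ (fun n => (u n : ℕ → 𝕜)) y hy (u m : ℕ → 𝕜)
    refine le_of_tendsto h1 ?_
    filter_upwards [eventually_ge_atTop N] with n hn
    have h2 := hN m hm n hn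
    have hb := LL_bdd hr hr1 (u m - u n).2
    rw [qn_lt_iff hr hb _ (Real.rpow_pos_of_pos hε _), ← Real.rpow_mul hε.le, one_div,
      inv_mul_cancel₀ hr.ne', Real.rpow_one] at h2
    exact (le_SS hb A ρ hρ).trans h2.le
  have hmem : ∀ m, (∃ C, ∀ (A : Finset ℕ) (ρ : ℕ → ℕ), Set.InjOn ρ A →
      sw r A ρ ((u m : ℕ → 𝕜) - y) ≤ C) → ((u m : ℕ → 𝕜) - y) ∈ LL 𝕜 hr hr1 := by
    rintro m ⟨C, hC⟩
    refine ⟨C, ?_⟩
    rintro _ ⟨A, ρ, hρ, rfl⟩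
    exact hC A ρ hρ
  obtain ⟨N1, hN1⟩ := hbound 1 one_pos
  have h1 := hmem N1 ⟨1, hN1 N1 (le_refl _)⟩
  have hyL : y ∈ LL 𝕜 hr hr1 := by
    have h2 := (LL 𝕜 hr hr1).sub_mem (u N1).2 h1
    rwa [sub_sub_cancel] at h2
  refine ⟨⟨y, hyL⟩, fun ε hε => ?_⟩
  obtain ⟨N, hN⟩ := hbound (ε ^ r / 2) (by have := Real.rpow_pos_of_pos hε r; positivity)
  refine ⟨N, fun n hn => ?_⟩
  have hb := LL_bdd hr hr1 (u n - ⟨y, hyL⟩).2
  rw [qn_lt_iff hr hb ε hε]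
  have h3 : SS r ((u n - ⟨y, hyL⟩ : LL 𝕜 hr hr1) : ℕ → 𝕜) ≤ ε ^ r / 2 :=
    SS_le _ (fun A ρ hρ => hN n hn A ρ hρ)
  have h4 := Real.rpow_pos_of_pos hε r
  linarith

/-- finitely supported sequences -/
lemma bdd_ind (A : Finset ℕ) (x : ℕ → 𝕜) (C : ℝ) (hC : ∀ n, ‖x n‖ ^ r ≤ C)
    (hx : ∀ n, n ∉ A → x n = 0) (hr : 0 < r) (hr1 : r < 1) (B : Finset ℕ) (ρ : ℕ → ℕ)
    (hρ : Set.InjOn ρ B) : sw r B ρ x ≤ C * (A.card : ℝ) ^ r := by
  classical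
  have hC0 : 0 ≤ C := le_trans (Real.rpow_nonneg (norm_nonneg (x 0)) r) (hC 0)
  have h1 : sw r B ρ x = ∑ n ∈ B ∩ A, w r (ρ n) * ‖x n‖ ^ r := by
    unfold sw
    symm
    apply Finset.sum_subset Finset.inter_subset_left
    intro n hn hn'
    rw [hx n (fun h => hn' (Finset.mem_inter.mpr ⟨hn, h⟩)), norm_zero, Real.zero_rpow hr.ne',
      mul_zero]
  rw [h1]
  have h2 : ∑ n ∈ B ∩ A, w r (ρ n) * ‖x n‖ ^ r ≤ C * ∑ n ∈ B ∩ A, w r (ρ n) := by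
    rw [Finset.mul_sum]
    apply Finset.sum_le_sum
    intro n _
    rw [mul_comm]
    exact mul_le_mul_of_nonneg_right (hC n) (w_nonneg hr _)
  refine h2.trans (mul_le_mul_of_nonneg_left ?_ hC0)
  have hinj : Set.InjOn ρ (B ∩ A : Finset ℕ) := hρ.mono (by
    intro n hn
    exact (Finset.mem_inter.mp hn).1)
  rw [← Finset.sum_image hinj]
  refine (sum_w_le hr hr1 _).trans ?_
  apply Real.rpow_le_rpow (Nat.cast_nonneg _) _ hr.le
  rw [Finset.card_image_of_injOn hinj]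
  exact_mod_cast Finset.card_le_card Finset.inter_subset_right

/-- the unit vectors -/
lemma unit_mem (n : ℕ) : (Pi.single n (1 : 𝕜) : ℕ → 𝕜) ∈ LL 𝕜 hr hr1 := by
  refine ⟨1 * (({n} : Finset ℕ).card : ℝ) ^ r, ?_⟩
  rintro _ ⟨B, ρ, hρ, rfl⟩
  apply bdd_ind {n} _ 1 _ _ hr hr1 B ρ hρ
  · intro k
    by_cases h : k = n
    · rw [h, Pi.single_eq_same, norm_one, Real.one_rpow]
    · rw [Pi.single_eq_of_ne h, norm_zero, Real.zero_rpow hr.ne']; norm_num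
  · intro k hk
    rw [Finset.mem_singleton] at hk
    rw [Pi.single_eq_of_ne hk]

/-- the unit vector basis -/
noncomputable def ev (n : ℕ) : LL 𝕜 hr hr1 := ⟨Pi.single n 1, unit_mem hr hr1 n⟩

lemma ev_sum_apply (A : Finset ℕ) (a : ℕ → 𝕜) (k : ℕ) :
    ((∑ n ∈ A, a n • ev (𝕜 := 𝕜) hr hr1 n : LL 𝕜 hr hr1) : ℕ → 𝕜) k =
      if k ∈ A then a k else 0 := by
  classical
  have h1 : ((∑ n ∈ A, a n • ev (𝕜 := 𝕜) hr hr1 n : LL 𝕜 hr hr1) : ℕ → 𝕜) =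
      ∑ n ∈ A, a n • (Pi.single n (1 : 𝕜) : ℕ → 𝕜) := by
    rw [AddSubmonoidClass.coe_finset_sum]
    rfl
  rw [h1, Finset.sum_apply]
  simp only [Pi.smul_apply, Pi.single_apply, smul_eq_mul, mul_ite, mul_one, mul_zero]
  rw [Finset.sum_ite_eq]

lemma qn_ind_le (A : Finset ℕ) : qn r ((∑ n ∈ A, ev (𝕜 := 𝕜) hr hr1 n : LL 𝕜 hr hr1) : ℕ → 𝕜) ≤
    A.card := by
  have h0 : (∑ n ∈ A, ev (𝕜 := 𝕜) hr hr1 n : LL 𝕜 hr hr1) =
      ∑ n ∈ A, (1 : 𝕜) • ev (𝕜 := 𝕜) hr hr1 n := by simp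
  have h1 : SS r ((∑ n ∈ A, ev (𝕜 := 𝕜) hr hr1 n : LL 𝕜 hr hr1) : ℕ → 𝕜) ≤ (A.card : ℝ) ^ r := by
    apply SS_le
    intro B ρ hρ
    have h2 := bdd_ind (r := r) A ((∑ n ∈ A, ev (𝕜 := 𝕜) hr hr1 n : LL 𝕜 hr hr1) : ℕ → 𝕜) 1
      (fun n => by
        rw [h0, ev_sum_apply]
        split_ifs
        · rw [norm_one, Real.one_rpow]
        · rw [norm_zero, Real.zero_rpow hr.ne']; norm_num)
      (fun n hn => by rw [h0, ev_sum_apply, if_neg hn]) hr hr1 B ρ hρ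
    rwa [one_mul] at h2
  unfold qn
  have h2 := Real.rpow_le_rpow (SS_nonneg (LL_bdd hr hr1 (∑ n ∈ A, ev (𝕜 := 𝕜) hr hr1 n).2)) h1
    (show 0 ≤ 1 / r by positivity)
  rwa [← Real.rpow_mul (Nat.cast_nonneg _), mul_one_div_cancel hr.ne', Real.rpow_one] at h2

lemma dense (y : LL 𝕜 hr hr1) (ε : ℝ) (hε : 0 < ε) :
    ∃ z ∈ Submodule.span 𝕜 (Set.range (ev (𝕜 := 𝕜) hr hr1)),
      qn r ((y - z : LL 𝕜 hr hr1) : ℕ → 𝕜) < ε := by
  have hεr := Real.rpow_pos_of_pos hε r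
  obtain ⟨M, hM⟩ := tail hr hr1 (LL_bdd hr hr1 y.2) (ε ^ r / 2) (by positivity)
  refine ⟨∑ n ∈ Finset.range M, (y : ℕ → 𝕜) n • ev (𝕜 := 𝕜) hr hr1 n,
    Submodule.sum_mem _ fun n _ => Submodule.smul_mem _ _ (Submodule.subset_span ⟨n, rfl⟩), ?_⟩
  set z : LL 𝕜 hr hr1 := ∑ n ∈ Finset.range M, (y : ℕ → 𝕜) n • ev (𝕜 := 𝕜) hr hr1 n with hz
  have hyz : ∀ k, ((y - z : LL 𝕜 hr hr1) : ℕ → 𝕜) k = if k < M then 0 else (y : ℕ → 𝕜) k := by
    intro k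
    have h1 : ((y - z : LL 𝕜 hr hr1) : ℕ → 𝕜) k = (y : ℕ → 𝕜) k - (z : ℕ → 𝕜) k := rfl
    rw [h1, hz, ev_sum_apply]
    simp only [Finset.mem_range]
    split_ifs <;> simp
  rw [qn_lt_iff hr (LL_bdd hr hr1 (y - z).2) ε hε]
  have h1 : SS r ((y - z : LL 𝕜 hr hr1) : ℕ → 𝕜) ≤ ε ^ r / 2 := by
    apply SS_le
    intro B ρ hρ
    classical
    have h2 : sw r B ρ ((y - z : LL 𝕜 hr hr1) : ℕ → 𝕜) =
        sw r (B.filter (fun n => M ≤ n)) ρ (y : ℕ → 𝕜) := by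
      unfold sw
      rw [Finset.sum_filter]
      apply Finset.sum_congr rfl
      intro n _
      rw [hyz]
      by_cases h : n < M
      · rw [if_pos h, if_neg (by omega), norm_zero, Real.zero_rpow hr.ne', mul_zero]
      · rw [if_neg h, if_pos (by omega)]
    rw [h2]
    apply hM
    · exact hρ.mono (fun n hn => (Finset.mem_filter.mp hn).1)
    · intro n hn
      exact (Finset.mem_filter.mp hn).2
  linarith

lemma sum_coord_le (y : LL 𝕜 hr hr1) (B : Finset ℕ) :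
    ‖∑ n ∈ B, (y : ℕ → 𝕜) n‖ ≤ qn r (y : ℕ → 𝕜) := by
  refine (norm_sum_le _ _).trans ?_
  obtain ⟨ρ, hρ, _, h⟩ := sum_norm_le hr hr1 (fun n => ‖(y : ℕ → 𝕜) n‖) (fun _ => norm_nonneg _)
    B.card B rfl
  refine h.trans ?_
  unfold qn
  exact Real.rpow_le_rpow (sw_nonneg hr B ρ _) (le_SS (LL_bdd hr hr1 y.2) B ρ hρ) (by positivity)

lemma infinite_dim : ¬ FiniteDimensional 𝕜 (LL 𝕜 hr hr1) := by
  intro h
  have hli : LinearIndependent 𝕜 (ev (𝕜 := 𝕜) hr hr1) := by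
    rw [linearIndependent_iff']
    intro s g hg i hi
    have h1 := ev_sum_apply hr hr1 s g i
    rw [hg, if_pos hi] at h1
    exact h1.symm
  exact Set.infinite_univ.not_finite (Set.finite_univ_iff.mpr hli.finite) |>.elim

end Pool.Agent.R267.QL
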