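import Pool.Agent.R267.BlockSeries
import Pool.Agent.R267.Order

set_option autoImplicit false

open Filter Topology
open scoped ENNReal

namespace Pool.Agent.R267.RA

open Pool.Agent.R267 Pool.Agent.R267.Lex

/-- block sizes -/
def NN (c : ℕ) : ℕ := 16 ^ (c + 1)

lemma NN_pos (c : ℕ) : 0 < NN c := by unfold NN; positivity

variable (𝕜 : Type) [RCLike 𝕜]

/-- the embedding of a block -/
noncomputable def phi (c : ℕ) :
    (Fin (NN c) → 𝕜) →ₗ[𝕜] (EuclideanSpace 𝕜 (Fin (NN c)) × 𝕜) :=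
  LinearMap.prod ((WithLp.linearEquiv 2 𝕜 (Fin (NN c) → 𝕜)).symm.toLinearMap)
    (∑ k, LinearMap.proj k)

variable {𝕜}

lemma phi_apply (c : ℕ) (a : Fin (NN c) → 𝕜) : phi 𝕜 c a = (WithLp.toLp 2 a, ∑ k, a k) := by
  unfold phi
  rw [LinearMap.prod_apply]
  simp

lemma phi_injective (c : ℕ) : Function.Injective (phi 𝕜 c) := by
  intro a b h
  rw [phi_apply, phi_apply, Prod.mk.injEq] at h
  exact WithLp.toLp_injective 2 h.1

variable (𝕜)

/-- the block -/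
abbrev VV (c : ℕ) : Type := ↥(LinearMap.range (phi 𝕜 c))

/-- the coordinates of the block -/
noncomputable def TT (c : ℕ) : (Fin (NN c) → 𝕜) ≃ₗ[𝕜] VV 𝕜 c :=
  LinearEquiv.ofInjective (phi 𝕜 c) (phi_injective c)

variable {𝕜}

lemma norm_TT (c : ℕ) (a : Fin (NN c) → 𝕜) :
    ‖TT 𝕜 c a‖ = max (Real.sqrt (∑ k, ‖a k‖ ^ 2)) ‖∑ k, a k‖ := by
  have h : ‖TT 𝕜 c a‖ = ‖phi 𝕜 c a‖ := rfl
  rw [h, phi_apply, Prod.norm_mk, EuclideanSpace.norm_eq]

lemma coord_le (c : ℕ) (a : Fin (NN c) → 𝕜) (k : Fin (NN c)) : ‖a k‖ ≤ ‖TT 𝕜 c a‖ := by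
  rw [norm_TT]
  refine le_trans ?_ (le_max_left _ _)
  apply Real.le_sqrt_of_sq_le
  exact Finset.single_le_sum (f := fun k => ‖a k‖ ^ 2) (fun _ _ => by positivity)
    (Finset.mem_univ k)

lemma sum_le (c : ℕ) (a : Fin (NN c) → 𝕜) : ‖∑ k, a k‖ ≤ ‖TT 𝕜 c a‖ := by
  rw [norm_TT]
  exact le_max_right _ _

lemma sum_sq_le (c : ℕ) (a : Fin (NN c) → 𝕜) : ∑ k, ‖a k‖ ^ 2 ≤ ‖TT 𝕜 c a‖ ^ 2 := by
  have h : Real.sqrt (∑ k, ‖a k‖ ^ 2) ≤ ‖TT 𝕜 c a‖ := by
    rw [norm_TT]; exact le_max_left _ _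
  have h0 : 0 ≤ ∑ k, ‖a k‖ ^ 2 := Finset.sum_nonneg fun _ _ => by positivity
  calc ∑ k, ‖a k‖ ^ 2 = Real.sqrt (∑ k, ‖a k‖ ^ 2) ^ 2 := (Real.sq_sqrt h0).symm
    _ ≤ _ := pow_le_pow_left₀ (Real.sqrt_nonneg _) h 2

variable (𝕜)

/-- the space -/
abbrev XX : Type := lp (fun c => VV 𝕜 c) 1

variable {𝕜}

lemma norm_fnl_le (i : Σ c, Fin (NN c)) (f : XX 𝕜) : ‖BS.fnl 1 (TT 𝕜) i f‖ ≤ ‖f‖ := by
  obtain ⟨c, k⟩ := i
  refine le_trans ?_ (lp.norm_apply_le_norm one_ne_zero f c)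
  have := coord_le c ((TT 𝕜 c).symm (f c)) k
  rw [LinearEquiv.apply_symm_apply] at this
  exact this

lemma continuous_fnl (i : Σ c, Fin (NN c)) : Continuous (BS.fnl 1 (TT 𝕜) i) :=
  AddMonoidHomClass.continuous_of_bound (BS.fnl 1 (TT 𝕜) i) 1
    (fun f => by rw [one_mul]; exact norm_fnl_le i f)

/-- every vector has a convergent block ordering -/
lemma exists_ordering (y : XX 𝕜) : ∃ σ : ℕ ≃ Σ c, Fin (NN c),
    Tendsto (fun m => ∑ n ∈ Finset.range m, BS.fnl 1 (TT 𝕜) (σ n) y • BS.vec 1 (TT 𝕜) (σ n))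
      atTop (𝓝 y) := by
  have key : ∀ c, ∃ π : Equiv.Perm (Fin (NN c)), ∀ k' : ℕ,
      ‖TT 𝕜 c (fun l => if ((π.symm l : Fin (NN c)) : ℕ) < k' then
        BS.fnl 1 (TT 𝕜) ⟨c, l⟩ y else 0)‖ ≤ 3 * ‖y c‖ := by
    intro c
    set a : Fin (NN c) → 𝕜 := fun l => BS.fnl 1 (TT 𝕜) ⟨c, l⟩ y with ha
    have hya : y c = TT 𝕜 c a := BS.apply_eq 1 (TT 𝕜) y c
    obtain ⟨π, hπ⟩ := Ord.exists_perm a ‖y c‖ (fun i => by rw [hya]; exact coord_le c a i)
      (by rw [hya]; exact sum_le c a) (by rw [hya]; exact sum_sq_le c a)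
    refine ⟨π, fun k' => ?_⟩
    rw [norm_TT]
    apply max_le
    · apply Real.sqrt_le_iff.mpr
      refine ⟨by positivity, ?_⟩
      have h1 : ∑ l, ‖(if ((π.symm l : Fin (NN c)) : ℕ) < k' then a l else 0)‖ ^ 2 ≤
          ∑ l, ‖a l‖ ^ 2 := by
        apply Finset.sum_le_sum
        intro l _
        split_ifs
        · exact le_refl _
        · rw [norm_zero, zero_pow two_ne_zero]; positivity
      have h2 := sum_sq_le c a
      rw [← hya] at h2
      have h3 : 0 ≤ ‖y c‖ ^ 2 := by positivity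
      calc _ ≤ ∑ l, ‖a l‖ ^ 2 := h1
        _ ≤ ‖y c‖ ^ 2 := h2
        _ ≤ (3 * ‖y c‖) ^ 2 := by nlinarith
    · rw [← Finset.sum_filter]
      exact hπ k'
  choose π hπ using key
  exact ⟨BS.ordr NN NN_pos π, BS.tendsto_ordr NN NN_pos 1 (TT 𝕜) (by norm_num) π y 3
    (by norm_num) hπ⟩

lemma exists_half {N : ℕ} (g : Fin N → ℕ) (hg : Function.Injective g) (M : ℕ) (hM : M ≤ N) :
    ∃ m, (Finset.univ.filter (fun k => g k < m)).card = M := by
  have hex : ∃ m, M ≤ (Finset.univ.filter (fun k => g k < m)).card := by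
    refine ⟨∑ k, g k + 1, ?_⟩
    rw [Finset.filter_true_of_mem]
    · simpa using hM
    · intro k _
      have := Finset.single_le_sum (f := g) (fun _ _ => Nat.zero_le _) (Finset.mem_univ k)
      omega
  classical
  refine ⟨Nat.find hex, le_antisymm ?_ (Nat.find_spec hex)⟩
  rcases Nat.eq_zero_or_pos (Nat.find hex) with h0 | h0
  · rw [h0]
    simp
  · have h1 := Nat.find_min hex (m := Nat.find hex - 1) (by omega)
    push Not at h1
    have h2 : (Finset.univ.filter (fun k => g k < Nat.find hex)) ⊆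
        (Finset.univ.filter (fun k => g k < Nat.find hex - 1)) ∪
          (Finset.univ.filter (fun k => g k = Nat.find hex - 1)) := by
      intro k hk
      rw [Finset.mem_filter] at hk
      rw [Finset.mem_union, Finset.mem_filter, Finset.mem_filter]
      have := hk.2
      by_cases h : g k = Nat.find hex - 1
      · exact Or.inr ⟨Finset.mem_univ _, h⟩
      · exact Or.inl ⟨Finset.mem_univ _, by omega⟩
    have h3 : (Finset.univ.filter (fun k => g k = Nat.find hex - 1)).card ≤ 1 := by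
      rw [Finset.card_le_one]
      intro a ha b hb
      rw [Finset.mem_filter] at ha hb
      exact hg (ha.2.trans hb.2.symm)
    have h4 := (Finset.card_le_card h2).trans (Finset.card_union_le _ _)
    omega

/-- for every enumeration there is a vector whose series diverges -/
lemma exists_bad (σ : ℕ ≃ Σ c, Fin (NN c)) : ∃ y : XX 𝕜, ∀ B : ℝ, ∃ m : ℕ,
    B < ‖∑ n ∈ Finset.range m, BS.fnl 1 (TT 𝕜) (σ n) y • BS.vec 1 (TT 𝕜) (σ n)‖ := by
  have hinj : ∀ c, Function.Injective (fun k : Fin (NN c) => σ.symm ⟨c, k⟩) := by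
    intro c k l h
    have := σ.symm.injective h
    simpa using this
  have hhalf : ∀ c, ∃ m, (Finset.univ.filter (fun k : Fin (NN c) => σ.symm ⟨c, k⟩ < m)).card =
      8 * 16 ^ c := by
    intro c
    apply exists_half _ (hinj c)
    unfold NN
    rw [pow_succ]
    omega
  choose m hm using hhalf
  set a : ∀ c, Fin (NN c) → 𝕜 := fun c k =>
    if σ.symm ⟨c, k⟩ < m c then (((1 / 8 : ℝ) ^ (c + 1) : ℝ) : 𝕜)
    else -(((1 / 8 : ℝ) ^ (c + 1) : ℝ) : 𝕜) with ha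
  have hna : ∀ c k, ‖a c k‖ = (1 / 8 : ℝ) ^ (c + 1) := by
    intro c k
    simp only [ha]
    split_ifs
    · rw [RCLike.norm_ofReal, abs_of_nonneg (by positivity)]
    · rw [norm_neg, RCLike.norm_ofReal, abs_of_nonneg (by positivity)]
  have hsplit : ∀ c, (Finset.univ.filter (fun k : Fin (NN c) => ¬ σ.symm ⟨c, k⟩ < m c)).card =
      8 * 16 ^ c := by
    intro c
    have h1 := Finset.card_filter_add_card_filter_not (s := (Finset.univ : Finset (Fin (NN c))))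
      (fun k => σ.symm ⟨c, k⟩ < m c)
    rw [hm c, Finset.card_univ, Fintype.card_fin] at h1
    have hNN : NN c = 16 * 16 ^ c := by unfold NN; rw [pow_succ]; ring
    omega
  have hsum0 : ∀ c, ∑ k, a c k = 0 := by
    intro c
    rw [← Finset.sum_filter_add_sum_filter_not Finset.univ (fun k => σ.symm ⟨c, k⟩ < m c)]
    have h1 : ∑ k ∈ Finset.univ.filter (fun k : Fin (NN c) => σ.symm ⟨c, k⟩ < m c), a c k =
        ((8 * 16 ^ c : ℕ) : 𝕜) * (((1 / 8 : ℝ) ^ (c + 1) : ℝ) : 𝕜) := by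
      rw [Finset.sum_congr rfl (g := fun _ => (((1 / 8 : ℝ) ^ (c + 1) : ℝ) : 𝕜))]
      · rw [Finset.sum_const, hm c, nsmul_eq_mul]
      · intro k hk
        simp only [ha]
        rw [if_pos (Finset.mem_filter.mp hk).2]
    have h2 : ∑ k ∈ Finset.univ.filter (fun k : Fin (NN c) => ¬ σ.symm ⟨c, k⟩ < m c), a c k =
        ((8 * 16 ^ c : ℕ) : 𝕜) * -(((1 / 8 : ℝ) ^ (c + 1) : ℝ) : 𝕜) := by
      rw [Finset.sum_congr rfl (g := fun _ => -(((1 / 8 : ℝ) ^ (c + 1) : ℝ) : 𝕜))]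
      · rw [Finset.sum_const, hsplit c, nsmul_eq_mul]
      · intro k hk
        simp only [ha]
        rw [if_neg (Finset.mem_filter.mp hk).2]
    rw [h1, h2]
    ring
  have hnorm : ∀ c, ‖TT 𝕜 c (a c)‖ ≤ (1 / 2 : ℝ) ^ (c + 1) := by
    intro c
    rw [norm_TT, hsum0, norm_zero]
    apply max_le _ (by positivity)
    apply Real.sqrt_le_iff.mpr
    refine ⟨by positivity, ?_⟩
    simp only [hna, Finset.sum_const, Finset.card_univ, Fintype.card_fin, nsmul_eq_mul]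
    unfold NN
    push_cast
    rw [← pow_mul, mul_comm (c + 1) 2, pow_mul, ← mul_pow, ← pow_mul, mul_comm (c + 1) 2, pow_mul]
    norm_num
  have hmem : Memℓp (fun c => TT 𝕜 c (a c)) 1 := by
    apply memℓp_gen
    simp only [ENNReal.toReal_one, Real.rpow_one]
    refine Summable.of_nonneg_of_le (fun _ => norm_nonneg _) hnorm ?_
    exact (summable_nat_add_iff 1).mpr (summable_geometric_of_lt_one (by norm_num) (by norm_num))
  set y : XX 𝕜 := ⟨fun c => TT 𝕜 c (a c), hmem⟩ with hy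
  have hfy : ∀ c k, BS.fnl 1 (TT 𝕜) ⟨c, k⟩ y = a c k := by
    intro c k
    rw [BS.fnl_apply]
    change (TT 𝕜 c).symm (TT 𝕜 c (a c)) k = a c k
    rw [LinearEquiv.symm_apply_apply]
  refine ⟨y, fun B => ?_⟩
  obtain ⟨c, hc⟩ := pow_unbounded_of_one_lt B (by norm_num : (1 : ℝ) < 2)
  refine ⟨m c, hc.trans_le ?_⟩
  refine le_trans ?_ (lp.norm_apply_le_norm one_ne_zero _ c)
  rw [BS.psum_apply 1 (TT 𝕜) σ (fun i => BS.fnl 1 (TT 𝕜) i y) (m c) c]
  refine le_trans ?_ (sum_le c _)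
  rw [← Finset.sum_filter]
  have h1 : ∑ k ∈ Finset.univ.filter (fun k : Fin (NN c) => σ.symm ⟨c, k⟩ < m c),
      BS.fnl 1 (TT 𝕜) ⟨c, k⟩ y = ((8 * 16 ^ c : ℕ) : 𝕜) * (((1 / 8 : ℝ) ^ (c + 1) : ℝ) : 𝕜) := by
    rw [Finset.sum_congr rfl (g := fun _ => (((1 / 8 : ℝ) ^ (c + 1) : ℝ) : 𝕜))]
    · rw [Finset.sum_const, hm c, nsmul_eq_mul]
    · intro k hk
      rw [hfy]
      simp only [ha]
      rw [if_pos (Finset.mem_filter.mp hk).2]
  rw [h1, norm_mul, RCLike.norm_natCast, RCLike.norm_ofReal, abs_of_nonneg (by positivity)]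
  push_cast
  rw [pow_succ]
  have : (8 : ℝ) * 16 ^ c * ((1 / 8) ^ c * (1 / 8)) = (16 * (1 / 8)) ^ c := by
    rw [mul_pow]; ring
  rw [this]
  norm_num

end Pool.Agent.R267.RA
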