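import Mathlib

set_option autoImplicit false

open Filter Topology
open scoped ENNReal InnerProductSpace

/-! Renormings as actual normed spaces; reflexivity is an isomorphic invariant. -/

namespace Pool.Agent.R267.RN

variable {𝕜 : Type} [RCLike 𝕜]

/-- a Hilbert space is reflexive -/
theorem reflexive_hilbert {H : Type} [NormedAddCommGroup H] [InnerProductSpace 𝕜 H]
    [CompleteSpace H] : Function.Surjective (NormedSpace.inclusionInDoubleDual 𝕜 H) := by
  intro φ
  -- the functional `v ↦ conj (φ ⟪v, ·⟫)`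
  set g : H →ₗ[𝕜] 𝕜 :=
    { toFun := fun v => (starRingEnd 𝕜) (φ (InnerProductSpace.toDual 𝕜 H v))
      map_add' := fun v w => by rw [map_add, map_add, map_add]
      map_smul' := fun r v => by
        rw [map_smulₛₗ, map_smul, smul_eq_mul, map_mul]
        simp } with hg
  have hgb : ∀ v, ‖g v‖ ≤ ‖φ‖ * ‖v‖ := by
    intro v
    change ‖(starRingEnd 𝕜) (φ (InnerProductSpace.toDual 𝕜 H v))‖ ≤ _
    rw [RCLike.norm_conj]
    refine (φ.le_opNorm _).trans ?_
    rw [LinearIsometryEquiv.norm_map]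
  set G : StrongDual 𝕜 H := g.mkContinuous ‖φ‖ hgb with hG
  refine ⟨(InnerProductSpace.toDual 𝕜 H).symm G, ?_⟩
  ext f
  rw [NormedSpace.dual_def]
  obtain ⟨v, rfl⟩ := (InnerProductSpace.toDual 𝕜 H).surjective f
  rw [InnerProductSpace.toDual_apply_apply]
  have h1 := InnerProductSpace.toDual_symm_apply (𝕜 := 𝕜) (x := v) (y := G)
  have h2 : G v = (starRingEnd 𝕜) (φ (InnerProductSpace.toDual 𝕜 H v)) := rfl
  rw [h2] at h1
  have h3 := congrArg (starRingEnd 𝕜) h1
  rw [inner_conj_symm, starRingEnd_self_apply] at h3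
  exact h3

/-- reflexivity passes through isomorphisms -/
theorem reflexive_congr {E F : Type} [NormedAddCommGroup E] [NormedSpace 𝕜 E]
    [NormedAddCommGroup F] [NormedSpace 𝕜 F] (e : E ≃L[𝕜] F)
    (hF : Function.Surjective (NormedSpace.inclusionInDoubleDual 𝕜 F)) :
    Function.Surjective (NormedSpace.inclusionInDoubleDual 𝕜 E) := by
  intro φ
  set T : StrongDual 𝕜 F →L[𝕜] StrongDual 𝕜 E :=
    ContinuousLinearMap.precomp 𝕜 (e : E →L[𝕜] F) with hT
  have hTa : ∀ g v, T g v = g (e v) := fun g v => rfl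
  obtain ⟨y, hy⟩ := hF (φ.comp T)
  refine ⟨e.symm y, ?_⟩
  ext f
  rw [NormedSpace.dual_def]
  have h1 := congrArg (fun ψ => ψ (f.comp (e.symm : F →L[𝕜] E))) hy
  simp only [NormedSpace.dual_def] at h1
  have h2 : T (f.comp (e.symm : F →L[𝕜] E)) = f := by
    ext v
    rw [hTa]
    change f (e.symm (e v)) = f v
    rw [e.symm_apply_apply]
  have h3 : (φ.comp T) (f.comp (e.symm : F →L[𝕜] E)) = φ f := by
    change φ (T _) = φ f
    rw [h2]
  rw [← h3, ← h1]
  rfl

variable {H : Type} [NormedAddCommGroup H] [NormedSpace 𝕜 H]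

lemma eq_zero_of (N : Seminorm 𝕜 H)
    (hN : ∃ c C : ℝ, 0 < c ∧ 0 < C ∧ ∀ y, c * ‖y‖ ≤ N y ∧ N y ≤ C * ‖y‖) (y : H) (hy : N y = 0) :
    y = 0 := by
  obtain ⟨c, C, hc, -, h⟩ := hN
  have h1 := (h y).1
  rw [hy] at h1
  by_contra h3
  have := mul_pos hc (norm_pos_iff.mpr h3)
  linarith

/-- `H` with the equivalent norm `N` -/
def Ren (N : Seminorm 𝕜 H) (_ : ∃ c C : ℝ, 0 < c ∧ 0 < C ∧ ∀ y, c * ‖y‖ ≤ N y ∧ N y ≤ C * ‖y‖) :
    Type := H

variable (N : Seminorm 𝕜 H)
  (hN : ∃ c C : ℝ, 0 < c ∧ 0 < C ∧ ∀ y, c * ‖y‖ ≤ N y ∧ N y ≤ C * ‖y‖)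

instance : AddCommGroup (Ren N hN) := inferInstanceAs (AddCommGroup H)

instance : Module 𝕜 (Ren N hN) := inferInstanceAs (Module 𝕜 H)

/-- the identity map -/
def toH : Ren N hN ≃ₗ[𝕜] H := LinearEquiv.refl 𝕜 H

noncomputable instance : NormedAddCommGroup (Ren N hN) :=
  AddGroupNorm.toNormedAddCommGroup
    { toFun := fun y => N (toH N hN y)
      map_zero' := by rw [map_zero, map_zero]
      add_le' := fun y z => by rw [map_add]; exact map_add_le_add N _ _
      neg' := fun y => by rw [map_neg, map_neg_eq_map]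
      eq_zero_of_map_eq_zero' := fun y hy =>
        (LinearEquiv.map_eq_zero_iff _).mp (eq_zero_of N hN _ hy) }

lemma norm_eq (y : Ren N hN) : ‖y‖ = N (toH N hN y) := rfl

noncomputable instance : NormedSpace 𝕜 (Ren N hN) where
  norm_smul_le r y := by
    rw [norm_eq, norm_eq, map_smul, map_smul_eq_mul]

/-- the identity map as an isomorphism -/
theorem exists_iso : ∃ e : Ren N hN ≃L[𝕜] H, ∀ y, e y = toH N hN y := by
  obtain ⟨c, C, hc, hC, h⟩ := hN
  refine ⟨(toH N ⟨c, C, hc, hC, h⟩).toContinuousLinearEquivOfBounds c⁻¹ C (fun y => ?_)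
    (fun y => ?_), fun y => rfl⟩
  · rw [norm_eq, le_inv_mul_iff₀ hc]
    exact (h _).1
  · rw [norm_eq, LinearEquiv.apply_symm_apply]
    exact (h _).2

end Pool.Agent.R267.RN
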