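import Mathlib

set_option autoImplicit false

open Filter Topology

/-! The Schlumprecht norm. -/

namespace Pool.Agent.R267.SC

/-- The intervals `E i = [a i, b i]`, `i : Fin n`, of natural numbers are nonempty and successive:
`E 0 < E 1 < ... < E (n - 1)`. -/
def Succ {n : ℕ} (a b : Fin n → ℕ) : Prop := (∀ i, a i ≤ b i) ∧ ∀ i j, i < j → b i < a j

/-- The restriction of the finitely supported sequence `x` to the interval `[a, b]`. -/
noncomputable def res (a b : ℕ) (x : ℕ →₀ ℝ) : ℕ →₀ ℝ := x.filter (fun k => a ≤ k ∧ k ≤ b)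

/-- The defining equation of the norm of Schlumprecht space: for each finitely supported `x`,
`N x` is the maximum of `sup |x j|` and of the supremum, over `n ≥ 2` and all successive intervals
`E 1 < ... < E n`, of `(∑ i, N (E i x)) / log₂ (n + 1)`. It is stated as: `N x` is the least upper
bound of the union of the two sets of numbers. -/
def IsSchlumprecht (N : Seminorm ℝ (ℕ →₀ ℝ)) : Prop :=
  ∀ x : ℕ →₀ ℝ, IsLUB ({v | ∃ j, v = |x j|} ∪
    {v | ∃ n : ℕ, 2 ≤ n ∧ ∃ a b : Fin n → ℕ, Succ a b ∧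
      v = (1 / Real.logb 2 (n + 1)) * ∑ i, N (res (a i) (b i) x)}) (N x)

/-! ### numerical lemmas -/

lemma rpow_ineq (u b : ℝ) (hu : 1 ≤ u) (hb : 1 ≤ b) : 1 + b * (2 ^ u - 1) ≤ (1 + b) ^ u := by
  have hb0 : 0 < b := by linarith
  have h1 := convexOn_rpow hu
  have h2 := h1.2 (show (1 : ℝ) ∈ Set.Ici 0 by simp) (show (1 + b) ∈ Set.Ici (0 : ℝ) by
    rw [Set.mem_Ici]; linarith) (show (0 : ℝ) ≤ 1 - 1 / b by
      rw [sub_nonneg, div_le_one hb0]; exact hb) (show (0 : ℝ) ≤ 1 / b by positivity) (by ring)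
  simp only [smul_eq_mul, mul_one, Real.one_rpow] at h2
  have h3 : 1 - 1 / b + 1 / b * (1 + b) = 2 := by field_simp; ring
  rw [h3] at h2
  have h4 := mul_le_mul_of_nonneg_left h2 hb0.le
  have h5 : b * (1 - 1 / b + 1 / b * (1 + b) ^ u) = b - 1 + (1 + b) ^ u := by field_simp
  rw [h5] at h4
  linarith

lemma log_mul_ineq (a b : ℝ) (ha : 1 ≤ a) (hb : 1 ≤ b) :
    Real.log 2 * Real.log (1 + a * b) ≤ Real.log (1 + a) * Real.log (1 + b) := by
  have hl2 : 0 < Real.log 2 := Real.log_pos (by norm_num)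
  set u := Real.log (1 + a) / Real.log 2 with hu
  have hu1 : 1 ≤ u := by
    rw [hu, le_div_iff₀ hl2, one_mul]
    exact Real.log_le_log (by norm_num) (by linarith)
  have h2u : (2 : ℝ) ^ u = 1 + a := by
    rw [Real.rpow_def_of_pos (by norm_num), hu, mul_div_cancel₀ _ hl2.ne',
      Real.exp_log (by linarith)]
  have h1 := rpow_ineq u b hu1 hb
  rw [h2u] at h1
  have h2 : Real.log (1 + a * b) ≤ u * Real.log (1 + b) := by
    rw [← Real.log_rpow (by linarith)]
    apply Real.log_le_log (by nlinarith)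
    linarith
  calc Real.log 2 * Real.log (1 + a * b) ≤ Real.log 2 * (u * Real.log (1 + b)) :=
        mul_le_mul_of_nonneg_left h2 hl2.le
    _ = Real.log (1 + a) * Real.log (1 + b) := by
        rw [hu]; field_simp

/-- `k / log₂ (k + 1)` -/
noncomputable def G (k : ℕ) : ℝ := k / Real.logb 2 (k + 1)

lemma logb_pos {n : ℕ} (hn : 1 ≤ n) : 1 ≤ Real.logb 2 ((n : ℝ) + 1) := by
  rw [Real.le_logb_iff_rpow_le (by norm_num) (by positivity), Real.rpow_one]
  have : (1 : ℝ) ≤ n := by exact_mod_cast hn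
  linarith

lemma G_zero : G 0 = 0 := by unfold G; simp

lemma G_one : G 1 = 1 := by
  unfold G
  norm_num

/-- the numerical inequality for the norm of sums of unit vectors -/
lemma sum_G_le {ι : Type} (s : Finset ι) (k : ι → ℕ) (K : ℕ) (hK : ∑ i ∈ s, k i ≤ K) :
    ∑ i ∈ s, G (k i) ≤ Real.logb 2 (s.card + 1) * G K := by
  classical
  rcases Nat.eq_zero_or_pos K with rfl | hKpos
  · have h0 : ∀ i ∈ s, k i = 0 := fun i hi => by
      have := Finset.single_le_sum (f := k) (fun _ _ => Nat.zero_le _) hi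
      omega
    rw [G_zero, mul_zero]
    exact le_of_eq (Finset.sum_eq_zero fun i hi => by rw [h0 i hi, G_zero])
  have hK0 : (0 : ℝ) < K := by exact_mod_cast hKpos
  have hl2 : 0 < Real.log 2 := Real.log_pos (by norm_num)
  have hlK : 0 < Real.log ((K : ℝ) + 1) := Real.log_pos (by linarith)
  set n : ℝ := (s.card : ℝ) with hn
  have hn0 : 0 ≤ n := Nat.cast_nonneg _
  have hln : 1 - 1 / (n + 1) ≤ Real.log (n + 1) := by
    have := Real.one_sub_inv_le_log_of_pos (show 0 < n + 1 by linarith)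
    rwa [one_div]
  -- the bound of each term
  have key : ∀ i ∈ s, G (k i) ≤ (K : ℝ) / Real.log ((K : ℝ) + 1) *
      (((k i : ℝ) / K) * (Real.log (n + 1) - 1 + 1 / (n + 1)) + 1 / (n + 1)) := by
    intro i _
    rcases Nat.eq_zero_or_pos (k i) with h0 | hpos
    · rw [h0, G_zero]
      have : 0 ≤ 1 / (n + 1) := by positivity
      simp only [Nat.cast_zero, zero_div, zero_mul, zero_add]
      positivity
    · by_cases hle : k i ≤ K
      · have hk0 : (0 : ℝ) < k i := by exact_mod_cast hpos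
        have hk1 : (1 : ℝ) ≤ k i := by exact_mod_cast hpos
        have hkK : (1 : ℝ) ≤ (K : ℝ) / k i := by
          rw [le_div_iff₀ hk0, one_mul]; exact_mod_cast hle
        have h1 := log_mul_ineq (k i) ((K : ℝ) / k i) hk1 hkK
        rw [mul_div_cancel₀ _ hk0.ne'] at h1
        have hlk : 0 < Real.log (1 + (k i : ℝ)) := Real.log_pos (by linarith)
        have h2 : Real.log (1 + (K : ℝ) / k i) ≤
            Real.log (n + 1) + (1 + (K : ℝ) / k i) / (n + 1) - 1 := by
          have h3 := Real.log_le_sub_one_of_pos (show 0 < (1 + (K : ℝ) / k i) / (n + 1) by positivity)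
          rw [Real.log_div (by positivity) (by positivity)] at h3
          linarith
        have h4 : G (k i) = (k i : ℝ) * Real.log 2 / Real.log (1 + (k i : ℝ)) := by
          unfold G
          rw [Real.logb, add_comm ((k i : ℕ) : ℝ) 1]
          field_simp
        have h5 : Real.log 2 / Real.log (1 + (k i : ℝ)) ≤
            Real.log (1 + (K : ℝ) / k i) / Real.log ((K : ℝ) + 1) := by
          rw [div_le_div_iff₀ hlk hlK, add_comm (K : ℝ) 1]
          linarith
        calc G (k i) = (k i : ℝ) * (Real.log 2 / Real.log (1 + (k i : ℝ))) := by rw [h4]; ring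
          _ ≤ (k i : ℝ) * (Real.log (1 + (K : ℝ) / k i) / Real.log ((K : ℝ) + 1)) :=
              mul_le_mul_of_nonneg_left h5 hk0.le
          _ ≤ (k i : ℝ) * ((Real.log (n + 1) + (1 + (K : ℝ) / k i) / (n + 1) - 1) /
                Real.log ((K : ℝ) + 1)) := by
              apply mul_le_mul_of_nonneg_left _ hk0.le
              exact div_le_div_of_nonneg_right h2 hlK.le
          _ = _ := by field_simp; ring
      · exfalso
        have := Finset.single_le_sum (f := k) (fun _ _ => Nat.zero_le _) (by assumption : i ∈ s)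
        omega
  refine (Finset.sum_le_sum key).trans ?_
  rw [← Finset.mul_sum, Finset.sum_add_distrib, ← Finset.sum_mul, Finset.sum_const, nsmul_eq_mul,
    ← Finset.sum_div]
  have h6 : (∑ i ∈ s, (k i : ℝ)) / K ≤ 1 := by
    rw [div_le_one hK0]
    exact_mod_cast hK
  have h7 : 0 ≤ (∑ i ∈ s, (k i : ℝ)) / K := by positivity
  have h8 : 0 ≤ Real.log (n + 1) - 1 + 1 / (n + 1) := by linarith
  have h9 : (∑ i ∈ s, (k i : ℝ)) / K * (Real.log (n + 1) - 1 + 1 / (n + 1)) +
      (s.card : ℝ) * (1 / (n + 1)) ≤ Real.log (n + 1) := by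
    have h10 : (∑ i ∈ s, (k i : ℝ)) / K * (Real.log (n + 1) - 1 + 1 / (n + 1)) ≤
        1 * (Real.log (n + 1) - 1 + 1 / (n + 1)) := mul_le_mul_of_nonneg_right h6 h8
    have h11 : (s.card : ℝ) * (1 / (n + 1)) = 1 - 1 / (n + 1) := by
      rw [← hn]; field_simp; ring
    rw [h11]
    linarith
  have h12 : 0 ≤ (K : ℝ) / Real.log ((K : ℝ) + 1) := by positivity
  refine (mul_le_mul_of_nonneg_left h9 h12).trans (le_of_eq ?_)
  unfold G
  rw [Real.logb, Real.logb]
  field_simp

end Pool.Agent.R267.SC
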