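import Pool.Agent.R267.Schl

set_option autoImplicit false

open Filter Topology

/-! Existence and uniqueness of the Schlumprecht norm. -/

namespace Pool.Agent.R267.SC

/-- the result of one operation -/
noncomputable def opr {n : ℕ} (a b : Fin n → ℕ) (f : Fin n → ℕ → ℝ) : ℕ → ℝ :=
  fun k => (1 / Real.logb 2 (n + 1)) * ∑ i, if a i ≤ k ∧ k ≤ b i then f i k else 0

/-- the norming functionals -/
inductive W : (ℕ → ℝ) → Prop
  | zero : W 0
  | single (j : ℕ) : W (Pi.single j 1)
  | op (n : ℕ) (hn : 2 ≤ n) (a b : Fin n → ℕ) (h : Succ a b) (f : Fin n → ℕ → ℝ)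
      (hf : ∀ i, W (f i)) : W (opr a b f)

lemma succ_unique {n : ℕ} {a b : Fin n → ℕ} (h : Succ a b) {i j : Fin n} {k : ℕ}
    (hi : a i ≤ k ∧ k ≤ b i) (hj : a j ≤ k ∧ k ≤ b j) : i = j := by
  rcases lt_trichotomy i j with h1 | h1 | h1
  · have := h.2 i j h1; omega
  · exact h1
  · have := h.2 j i h1; omega

lemma W_bounds (f : ℕ → ℝ) (hf : W f) : ∀ k, 0 ≤ f k ∧ f k ≤ 1 := by
  induction hf with
  | zero => intro k; simp
  | single j =>
    intro k
    by_cases h : k = j
    · rw [h, Pi.single_eq_same]; norm_num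
    · rw [Pi.single_eq_of_ne h]; norm_num
  | op n hn a b h f hf ih =>
    intro k
    have hl := logb_pos (show 1 ≤ n by omega)
    have hl' : 1 / Real.logb 2 ((n : ℝ) + 1) ≤ 1 := by
      rw [div_le_one (by linarith)]; exact hl
    have hl0 : 0 ≤ 1 / Real.logb 2 ((n : ℝ) + 1) := by positivity
    have h0 : 0 ≤ ∑ i, if a i ≤ k ∧ k ≤ b i then f i k else 0 :=
      Finset.sum_nonneg fun i _ => by
        split_ifs
        · exact (ih i k).1
        · exact le_refl _
    have h1 : (∑ i, if a i ≤ k ∧ k ≤ b i then f i k else 0) ≤ 1 := by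
      by_cases hex : ∃ i, a i ≤ k ∧ k ≤ b i
      · obtain ⟨i, hi⟩ := hex
        rw [Finset.sum_eq_single i]
        · rw [if_pos hi]; exact (ih i k).2
        · intro j _ hj
          rw [if_neg (fun h' => hj (succ_unique h h' hi))]
        · intro h'; exact absurd (Finset.mem_univ _) h'
      · push Not at hex
        rw [Finset.sum_eq_zero]
        · norm_num
        · intro i _
          rw [if_neg]
          rintro ⟨h2, h3⟩
          exact absurd h3 (not_le.mpr (hex i h2))
    refine ⟨mul_nonneg hl0 h0, ?_⟩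
    exact mul_le_one₀ hl' h0 h1

lemma W_sum (f : ℕ → ℝ) (hf : W f) : ∀ A : Finset ℕ, ∑ k ∈ A, f k ≤ G A.card := by
  classical
  induction hf with
  | zero =>
    intro A
    simp only [Pi.zero_apply, Finset.sum_const_zero]
    unfold G
    have : 0 ≤ Real.logb 2 ((A.card : ℝ) + 1) := Real.logb_nonneg (by norm_num) (by
      have : (0 : ℝ) ≤ A.card := Nat.cast_nonneg _
      linarith)
    positivity
  | single j =>
    intro A
    by_cases hj : j ∈ A
    · rw [Finset.sum_eq_single j]
      · rw [Pi.single_eq_same]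
        have h1 : 1 ≤ A.card := Finset.card_pos.mpr ⟨j, hj⟩
        unfold G
        have h2 := logb_pos h1
        rw [le_div_iff₀ (by linarith), one_mul,
          Real.logb_le_iff_le_rpow (by norm_num) (by positivity)]
        rw [Real.rpow_natCast]
        have h3 : A.card + 1 ≤ 2 ^ A.card := by
          have := Nat.lt_two_pow_self (n := A.card)
          omega
        exact_mod_cast h3
      · intro k _ hk
        rw [Pi.single_eq_of_ne hk]
      · intro h; exact absurd hj h
    · rw [Finset.sum_eq_zero]
      · unfold G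
        have : 0 ≤ Real.logb 2 ((A.card : ℝ) + 1) := Real.logb_nonneg (by norm_num) (by
          have : (0 : ℝ) ≤ A.card := Nat.cast_nonneg _
          linarith)
        positivity
      · intro k hk
        rw [Pi.single_eq_of_ne (fun h => hj (by rw [← h]; exact hk))]
  | op n hn a b h f hf ih =>
    intro A
    unfold opr
    rw [← Finset.mul_sum, Finset.sum_comm]
    have h1 : ∀ i, (∑ k ∈ A, if a i ≤ k ∧ k ≤ b i then f i k else 0) ≤
        G (A.filter (fun k => a i ≤ k ∧ k ≤ b i)).card := by
      intro i
      rw [← Finset.sum_filter]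
      exact ih i _
    have h2 : ∑ i : Fin n, (A.filter (fun k => a i ≤ k ∧ k ≤ b i)).card ≤ A.card := by
      rw [← Finset.card_biUnion]
      · apply Finset.card_le_card
        intro k hk
        rw [Finset.mem_biUnion] at hk
        obtain ⟨i, _, hi⟩ := hk
        exact (Finset.mem_filter.mp hi).1
      · intro i _ j _ hij
        change Disjoint _ _
        rw [Finset.disjoint_left]
        intro k hk hk'
        exact hij (succ_unique h (Finset.mem_filter.mp hk).2 (Finset.mem_filter.mp hk').2)
    have h3 := sum_G_le Finset.univ (fun i : Fin n =>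
      (A.filter (fun k => a i ≤ k ∧ k ≤ b i)).card) A.card h2
    rw [Finset.card_univ, Fintype.card_fin] at h3
    have hl := logb_pos (show 1 ≤ n by omega)
    rw [one_div, inv_mul_le_iff₀ (by linarith)]
    exact (Finset.sum_le_sum fun i _ => h1 i).trans h3

/-- the pairing with moduli -/
noncomputable def pr (f : ℕ → ℝ) (x : ℕ →₀ ℝ) : ℝ := ∑ k ∈ x.support, f k * |x k|

lemma pr_eq (f : ℕ → ℝ) (x : ℕ →₀ ℝ) (S : Finset ℕ) (hS : x.support ⊆ S) :
    pr f x = ∑ k ∈ S, f k * |x k| := by
  unfold pr
  apply Finset.sum_subset hS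
  intro k _ hk
  rw [Finsupp.notMem_support_iff.mp hk, abs_zero, mul_zero]

/-- index type -/
abbrev Wx : Type := {f : ℕ → ℝ // W f}

instance : Nonempty Wx := ⟨⟨0, W.zero⟩⟩

lemma pr_bdd (x : ℕ →₀ ℝ) : BddAbove (Set.range (fun f : Wx => pr f.1 x)) := by
  refine ⟨∑ k ∈ x.support, |x k|, ?_⟩
  rintro _ ⟨f, rfl⟩
  unfold pr
  apply Finset.sum_le_sum
  intro k _
  have := W_bounds f.1 f.2 k
  calc f.1 k * |x k| ≤ 1 * |x k| := mul_le_mul_of_nonneg_right this.2 (abs_nonneg _)
    _ = |x k| := one_mul _

/-- the Schlumprecht norm -/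
noncomputable def nrm : Seminorm ℝ (ℕ →₀ ℝ) :=
  Seminorm.of (fun x => ⨆ f : Wx, pr f.1 x)
    (fun x y => by
      classical
      apply ciSup_le
      intro f
      refine le_trans ?_ (add_le_add (le_ciSup (pr_bdd x) f) (le_ciSup (pr_bdd y) f))
      set S := x.support ∪ y.support ∪ (x + y).support with hS
      rw [pr_eq f.1 (x + y) S (by intro k hk; simp [hS, hk]),
        pr_eq f.1 x S (by intro k hk; rw [hS]; exact Finset.mem_union_left _ (Finset.mem_union_left _ hk)),
        pr_eq f.1 y S (by intro k hk; rw [hS]; exact Finset.mem_union_left _ (Finset.mem_union_right _ hk)),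
        ← Finset.sum_add_distrib]
      apply Finset.sum_le_sum
      intro k _
      rw [← mul_add, Finsupp.add_apply]
      exact mul_le_mul_of_nonneg_left (abs_add_le _ _) (W_bounds f.1 f.2 k).1)
    (fun r x => by
      have h : ∀ f : Wx, pr f.1 (r • x) = ‖r‖ * pr f.1 x := by
        intro f
        rw [pr_eq f.1 (r • x) x.support (Finsupp.support_smul), pr, Finset.mul_sum]
        apply Finset.sum_congr rfl
        intro k _
        rw [Finsupp.smul_apply, smul_eq_mul, abs_mul, Real.norm_eq_abs]
        ring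
      simp only [h]
      rw [Real.mul_iSup_of_nonneg (norm_nonneg r)])

lemma nrm_apply (x : ℕ →₀ ℝ) : nrm x = ⨆ f : Wx, pr f.1 x := rfl

lemma le_nrm (f : ℕ → ℝ) (hf : W f) (x : ℕ →₀ ℝ) : pr f x ≤ nrm x :=
  le_ciSup (pr_bdd x) ⟨f, hf⟩

lemma nrm_le (x : ℕ →₀ ℝ) (C : ℝ) (hC : ∀ f, W f → pr f x ≤ C) : nrm x ≤ C :=
  ciSup_le fun f => hC f.1 f.2

lemma res_apply (a b : ℕ) (x : ℕ →₀ ℝ) (k : ℕ) :
    res a b x k = if a ≤ k ∧ k ≤ b then x k else 0 := by
  unfold res
  rw [Finsupp.filter_apply]

lemma pr_opr {n : ℕ} (a b : Fin n → ℕ) (f : Fin n → ℕ → ℝ) (x : ℕ →₀ ℝ) :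
    pr (opr a b f) x = (1 / Real.logb 2 (n + 1)) * ∑ i, pr (f i) (res (a i) (b i) x) := by
  unfold opr
  have h1 : ∀ i, pr (f i) (res (a i) (b i) x) =
      ∑ k ∈ x.support, (if a i ≤ k ∧ k ≤ b i then f i k else 0) * |x k| := by
    intro i
    rw [pr_eq (f i) _ x.support (by
      intro k hk
      rw [Finsupp.mem_support_iff, res_apply] at hk
      rw [Finsupp.mem_support_iff]
      intro h
      rw [h, ite_self] at hk
      exact hk rfl)]
    apply Finset.sum_congr rfl
    intro k _
    rw [res_apply]
    split_ifs <;> simp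
  simp only [h1]
  rw [Finset.sum_comm, Finset.mul_sum]
  unfold pr
  apply Finset.sum_congr rfl
  intro k _
  rw [← Finset.sum_mul, mul_assoc]

lemma abs_le_nrm (x : ℕ →₀ ℝ) (j : ℕ) : |x j| ≤ nrm x := by
  classical
  refine le_trans (le_of_eq ?_) (le_nrm _ (W.single j) x)
  rw [pr_eq _ x (insert j x.support) (Finset.subset_insert _ _), Finset.sum_eq_single j]
  · rw [Pi.single_eq_same, one_mul]
  · intro k _ hk
    rw [Pi.single_eq_of_ne hk, zero_mul]
  · intro h; exact absurd (Finset.mem_insert_self _ _) h

theorem isSchlumprecht_nrm : IsSchlumprecht nrm := by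
  intro x
  constructor
  · rintro v (⟨j, rfl⟩ | ⟨n, hn, a, b, hab, rfl⟩)
    · exact abs_le_nrm x j
    · have hl := logb_pos (show 1 ≤ n by omega)
      rw [one_div, inv_mul_le_iff₀ (by linarith)]
      apply le_of_forall_pos_lt_add
      intro ε hε
      have hn0 : (0 : ℝ) < n := by exact_mod_cast (by omega : 0 < n)
      have h1 : ∀ i, ∃ f : Wx, nrm (res (a i) (b i) x) - ε / n < pr f.1 (res (a i) (b i) x) := by
        intro i
        apply exists_lt_of_lt_ciSup
        change nrm (res (a i) (b i) x) - ε / n < nrm (res (a i) (b i) x)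
        have : 0 < ε / n := by positivity
        linarith
      choose f hf using h1
      have h2 := le_nrm _ (W.op n hn a b hab (fun i => (f i).1) (fun i => (f i).2)) x
      rw [pr_opr, one_div, inv_mul_le_iff₀ (by linarith)] at h2
      have hne : (Finset.univ : Finset (Fin n)).Nonempty := ⟨⟨0, by omega⟩, Finset.mem_univ _⟩
      have h3 := Finset.sum_lt_sum_of_nonempty hne (fun i _ => hf i)
      rw [Finset.sum_sub_distrib, Finset.sum_const, Finset.card_univ, Fintype.card_fin,
        nsmul_eq_mul, mul_div_cancel₀ _ hn0.ne'] at h3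
      linarith
  · intro C hC
    have habs : ∀ j, |x j| ≤ C := fun j => hC (Or.inl ⟨j, rfl⟩)
    have hop : ∀ (n : ℕ) (_ : 2 ≤ n) (a b : Fin n → ℕ) (_ : Succ a b),
        (1 / Real.logb 2 (n + 1)) * ∑ i, nrm (res (a i) (b i) x) ≤ C :=
      fun n hn a b hab => hC (Or.inr ⟨n, hn, a, b, hab, rfl⟩)
    apply nrm_le
    intro f hf
    cases hf with
    | zero =>
      unfold pr
      simp only [Pi.zero_apply, zero_mul, Finset.sum_const_zero]
      exact (abs_nonneg _).trans (habs 0)
    | single j =>
      refine le_trans ?_ (habs j)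
      classical
      rw [pr_eq _ x (insert j x.support) (Finset.subset_insert _ _), Finset.sum_eq_single j]
      · rw [Pi.single_eq_same, one_mul]
      · intro k _ hk
        rw [Pi.single_eq_of_ne hk, zero_mul]
      · intro h; exact absurd (Finset.mem_insert_self _ _) h
    | op n hn a b hab f hf =>
      refine le_trans ?_ (hop n hn a b hab)
      rw [pr_opr]
      have hl := logb_pos (show 1 ≤ n by omega)
      apply mul_le_mul_of_nonneg_left _ (by positivity)
      exact Finset.sum_le_sum fun i _ => le_nrm _ (hf i) _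

/-- uniqueness, one inequality -/
lemma le_of_isSchlumprecht (N N' : Seminorm ℝ (ℕ →₀ ℝ)) (hN : IsSchlumprecht N)
    (hN' : IsSchlumprecht N') : ∀ (m : ℕ) (x : ℕ →₀ ℝ), x.support.card = m → N x ≤ N' x := by
  intro m
  induction m using Nat.strong_induction_on with
  | _ m ih =>
    intro x hx
    by_cases hNx : N x ≤ 0
    · exact hNx.trans (apply_nonneg N' x)
    push Not at hNx
    have hl3 : 1 < Real.logb 2 3 := by
      rw [Real.lt_logb_iff_rpow_lt (by norm_num) (by norm_num)]
      norm_num
    -- the upper bound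
    have key : N x ≤ max (N' x) (N x / Real.logb 2 3) := by
      apply (hN x).2
      rintro v (⟨j, rfl⟩ | ⟨n, hn, a, b, hab, rfl⟩)
      · exact le_max_of_le_left ((hN' x).1 (Or.inl ⟨j, rfl⟩))
      · have hl := logb_pos (show 1 ≤ n by omega)
        have hl3n : Real.logb 2 3 ≤ Real.logb 2 ((n : ℝ) + 1) := by
          apply Real.logb_le_logb_of_le (by norm_num) (by norm_num)
          have : (2 : ℝ) ≤ n := by exact_mod_cast hn
          linarith
        by_cases hbig : ∃ i, res (a i) (b i) x = x
        · obtain ⟨i, hi⟩ := hbig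
          apply le_max_of_le_right
          have h1 : ∀ j, j ≠ i → res (a j) (b j) x = 0 := by
            intro j hj
            ext k
            rw [res_apply]
            by_cases hk : a j ≤ k ∧ k ≤ b j
            · rw [if_pos hk, Finsupp.zero_apply, ← hi, res_apply, if_neg]
              intro hk'
              exact hj (succ_unique hab hk hk')
            · rw [if_neg hk, Finsupp.zero_apply]
          rw [Finset.sum_eq_single i (fun j _ hj => by rw [h1 j hj, map_zero])
            (fun h => absurd (Finset.mem_univ _) h), hi, one_div, inv_mul_eq_div]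
          exact div_le_div_of_nonneg_left hNx.le (by linarith) hl3n
        · push Not at hbig
          apply le_max_of_le_left
          refine le_trans ?_ ((hN' x).1 (Or.inr ⟨n, hn, a, b, hab, rfl⟩))
          apply mul_le_mul_of_nonneg_left _ (by positivity)
          apply Finset.sum_le_sum
          intro i _
          apply ih (res (a i) (b i) x).support.card _ _ rfl
          rw [← hx]
          apply Finset.card_lt_card
          rw [Finset.ssubset_iff_subset_ne]
          constructor
          · intro k hk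
            rw [Finsupp.mem_support_iff, res_apply] at hk
            rw [Finsupp.mem_support_iff]
            intro h
            rw [h, ite_self] at hk
            exact hk rfl
          · intro h
            apply hbig i
            ext k
            rw [res_apply]
            by_cases hk : a i ≤ k ∧ k ≤ b i
            · rw [if_pos hk]
            · rw [if_neg hk]
              have h2 : k ∉ (res (a i) (b i) x).support := by
                rw [Finsupp.mem_support_iff, res_apply, if_neg hk]
                simp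
              rw [h, Finsupp.mem_support_iff] at h2
              push Not at h2
              exact h2.symm
    rcases le_max_iff.mp key with h | h
    · exact h
    · exfalso
      rw [le_div_iff₀ (by linarith)] at h
      nlinarith

theorem schlumprecht_unique (N N' : Seminorm ℝ (ℕ →₀ ℝ)) (hN : IsSchlumprecht N)
    (hN' : IsSchlumprecht N') : N = N' := by
  ext x
  exact le_antisymm (le_of_isSchlumprecht N N' hN hN' _ x rfl)
    (le_of_isSchlumprecht N' N hN' hN _ x rfl)

/-! ### properties -/

lemma nrm_mono (x y : ℕ →₀ ℝ) (h : ∀ k, |x k| ≤ |y k|) : nrm x ≤ nrm y := by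
  classical
  apply nrm_le
  intro f hf
  refine le_trans ?_ (le_nrm f hf y)
  rw [pr_eq f x (x.support ∪ y.support) Finset.subset_union_left,
    pr_eq f y (x.support ∪ y.support) Finset.subset_union_right]
  exact Finset.sum_le_sum fun k _ => mul_le_mul_of_nonneg_left (h k) (W_bounds f hf k).1

/-- the norm of sums of unit vectors -/
lemma nrm_le_card (x : ℕ →₀ ℝ) (A : Finset ℕ) (hA : x.support ⊆ A) (h : ∀ k, |x k| ≤ 1) :
    nrm x ≤ A.card / Real.logb 2 (A.card + 1) := by
  apply nrm_le
  intro f hf
  rw [pr_eq f x A hA]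
  refine le_trans (Finset.sum_le_sum fun k _ => ?_) (W_sum f hf A)
  calc f k * |x k| ≤ f k * 1 := mul_le_mul_of_nonneg_left (h k) (W_bounds f hf k).1
    _ = f k := mul_one _

/-- the lower estimate of the norm -/
lemma sum_le_nrm (x : ℕ →₀ ℝ) (F : Finset ℕ) :
    ∑ k ∈ F, |x k| ≤ Real.logb 2 (F.card + 1) * nrm x := by
  classical
  rcases Nat.lt_or_ge F.card 2 with h | h
  · rcases F.eq_empty_or_nonempty with h0 | ⟨j, hj⟩
    · rw [h0]; simp
    · have h0 := Finset.card_pos.mpr ⟨j, hj⟩
      obtain ⟨i, hi⟩ := Finset.card_eq_one.mp (show F.card = 1 by omega)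
      rw [hi, Finset.sum_singleton, Finset.card_singleton]
      have h2 : Real.logb 2 (((1 : ℕ) : ℝ) + 1) = 1 := by norm_num
      rw [h2, one_mul]
      exact abs_le_nrm x i
  · set n := F.card with hn
    set e : Fin n ↪o ℕ := F.orderEmbOfFin hn.symm with he
    have hsucc : Succ (fun i : Fin n => e i) (fun i : Fin n => e i) :=
      ⟨fun i => le_refl _, fun i j hij => e.strictMono hij⟩
    have h1 := (isSchlumprecht_nrm x).1 (Or.inr ⟨n, h, _, _, hsucc, rfl⟩)
    have hl := logb_pos (show 1 ≤ n by omega)
    rw [one_div, inv_mul_le_iff₀ (by linarith)] at h1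
    refine le_trans ?_ h1
    have h2 : ∑ k ∈ F, |x k| = ∑ i : Fin n, |x (e i)| := by
      rw [← Finset.sum_coe_sort F]
      exact (Fintype.sum_equiv (F.orderIsoOfFin hn.symm).toEquiv _ _ (fun i => rfl)).symm
    rw [h2]
    apply Finset.sum_le_sum
    intro i _
    refine le_trans (le_of_eq ?_) (abs_le_nrm _ (e i))
    rw [res_apply, if_pos ⟨le_refl _, le_refl _⟩]

end Pool.Agent.R267.SC
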