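import Pool.Agent.R267.Schl2
import Pool.Agent.R267.GreedyDual

set_option autoImplicit false

open Filter Topology

/-! The dual of Schlumprecht space and its isometrically greedy renorming. -/

namespace Pool.Agent.R267.SC

open Pool.Agent.R267

/-- the space `c₀₀` of finitely supported real sequences, normed by `N` -/
def C00 (_ : Seminorm ℝ (ℕ →₀ ℝ)) : Type := ℕ →₀ ℝ

section space

variable (N : Seminorm ℝ (ℕ →₀ ℝ))

noncomputable instance : AddCommGroup (C00 N) :=
  (Finsupp.instAddCommGroup : AddCommGroup (ℕ →₀ ℝ))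

noncomputable instance : Module ℝ (C00 N) :=
  (Finsupp.module ℕ ℝ : Module ℝ (ℕ →₀ ℝ))

/-- the identity map -/
noncomputable def toC00 : (ℕ →₀ ℝ) ≃ₗ[ℝ] C00 N := LinearEquiv.refl ℝ (ℕ →₀ ℝ)

noncomputable instance : SeminormedAddCommGroup (C00 N) :=
  AddGroupSeminorm.toSeminormedAddCommGroup
    { toFun := fun y => N ((toC00 N).symm y)
      map_zero' := by rw [map_zero, map_zero]
      add_le' := fun y z => by rw [map_add]; exact map_add_le_add N _ _
      neg' := fun y => by rw [map_neg, map_neg_eq_map] }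

lemma norm_C00 (y : C00 N) : ‖y‖ = N ((toC00 N).symm y) := rfl

noncomputable instance : NormedSpace ℝ (C00 N) where
  norm_smul_le r y := by
    rw [norm_C00, norm_C00, map_smul, map_smul_eq_mul]

/-- The completion of `c₀₀` in the norm `N`. For the solution `N` of `IsSchlumprecht` this is
Schlumprecht space. -/
abbrev Compl : Type := UniformSpace.Completion (C00 N)

/-- the unit vectors, in the completion -/
noncomputable def evec (n : ℕ) : Compl N := ((toC00 N (Finsupp.single n 1) : C00 N) : Compl N)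

end space

/-- the finitely supported sequence with given coefficients -/
noncomputable def fs (B : Finset ℕ) (g : ℕ → ℝ) : ℕ →₀ ℝ := ∑ n ∈ B, Finsupp.single n (g n)

lemma fs_apply (B : Finset ℕ) (g : ℕ → ℝ) (k : ℕ) : fs B g k = if k ∈ B then g k else 0 := by
  classical
  unfold fs
  rw [Finsupp.finsetSum_apply]
  simp only [Finsupp.single_apply]
  rw [Finset.sum_ite_eq']

/-- the image of a sequence -/
noncomputable def im (v : ℕ →₀ ℝ) : Compl nrm := ((toC00 nrm v : C00 nrm) : Compl nrm)

lemma norm_im (v : ℕ →₀ ℝ) : ‖im v‖ = nrm v := by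
  unfold im
  rw [UniformSpace.Completion.norm_coe, norm_C00, LinearEquiv.symm_apply_apply]

lemma im_fs (B : Finset ℕ) (g : ℕ → ℝ) : im (fs B g) = ∑ n ∈ B, g n • evec nrm n := by
  have h : ∀ v, im v = UniformSpace.Completion.toComplL (𝕜 := ℝ) (toC00 nrm v) := fun v => rfl
  rw [h]
  unfold fs
  rw [map_sum, map_sum]
  apply Finset.sum_congr rfl
  intro n _
  have h2 : Finsupp.single n (g n) = g n • Finsupp.single n (1 : ℝ) := by
    rw [Finsupp.smul_single, smul_eq_mul, mul_one]
  rw [h2, map_smul, map_smul]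
  rfl

lemma phi_fs (φ : StrongDual ℝ (Compl nrm)) (B : Finset ℕ) (g : ℕ → ℝ) :
    φ (im (fs B g)) = ∑ n ∈ B, g n * φ (evec nrm n) := by
  rw [im_fs, map_sum]
  apply Finset.sum_congr rfl
  intro n _
  rw [map_smul, smul_eq_mul]

/-- sums with moduli -/
lemma sum_abs_le (φ : StrongDual ℝ (Compl nrm)) (B : Finset ℕ) (g : ℕ → ℝ) (_ : ∀ n, 0 ≤ g n) :
    ∑ n ∈ B, g n * ‖φ (evec nrm n)‖ ≤ ‖φ‖ * nrm (fs B g) := by
  have h1 : ∑ n ∈ B, g n * ‖φ (evec nrm n)‖ =
      φ (im (fs B (fun n => g n * SignType.sign (φ (evec nrm n))))) := by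
    rw [phi_fs]
    apply Finset.sum_congr rfl
    intro n _
    rw [Real.norm_eq_abs, mul_assoc, sign_mul_self]
  rw [h1]
  refine (le_abs_self _).trans ?_
  rw [← Real.norm_eq_abs]
  refine (φ.le_opNorm _).trans (mul_le_mul_of_nonneg_left ?_ (norm_nonneg _))
  rw [norm_im]
  apply nrm_mono
  intro k
  rw [fs_apply, fs_apply]
  split_ifs
  · rw [abs_mul]
    have : |((SignType.sign (φ (evec nrm k)) : SignType) : ℝ)| ≤ 1 := by
      rcases lt_trichotomy (φ (evec nrm k)) 0 with h | h | h
      · rw [sign_neg h]; simp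
      · rw [h, sign_zero]; simp
      · rw [sign_pos h]; simp
    calc |g k| * |((SignType.sign (φ (evec nrm k)) : SignType) : ℝ)| ≤ |g k| * 1 :=
          mul_le_mul_of_nonneg_left this (abs_nonneg _)
      _ = |g k| := mul_one _
  · exact le_refl _

lemma dense_bound (φ : StrongDual ℝ (Compl nrm)) (c : ℝ)
    (h : ∀ v : ℕ →₀ ℝ, |φ (im v)| ≤ c * nrm v) (hc : 0 ≤ c) : ‖φ‖ ≤ c := by
  apply ContinuousLinearMap.opNorm_le_bound _ hc
  intro y
  induction y using UniformSpace.Completion.induction_on with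
  | hp => exact isClosed_le (by fun_prop) (by fun_prop)
  | ih v =>
    have h1 := h ((toC00 nrm).symm v)
    have h2 : im ((toC00 nrm).symm v) = ((v : C00 nrm) : Compl nrm) := rfl
    rw [h2] at h1
    rw [Real.norm_eq_abs, UniformSpace.Completion.norm_coe, norm_C00]
    exact h1

/-- the coordinate functional on `c₀₀` -/
noncomputable def cf (n : ℕ) : C00 nrm →L[ℝ] ℝ :=
  ((Finsupp.lapply n).comp ((toC00 nrm).symm : C00 nrm →ₗ[ℝ] (ℕ →₀ ℝ))).mkContinuous 1
    (fun y => by
      rw [one_mul]
      exact abs_le_nrm _ n)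

/-- the coordinate functionals -/
noncomputable def es (n : ℕ) : StrongDual ℝ (Compl nrm) :=
  (cf n).extend (UniformSpace.Completion.toComplL (𝕜 := ℝ))

lemma es_im (n : ℕ) (v : ℕ →₀ ℝ) : es n (im v) = v n := by
  have h1 : DenseRange (UniformSpace.Completion.toComplL (𝕜 := ℝ) : C00 nrm →L[ℝ] Compl nrm) :=
    UniformSpace.Completion.denseRange_coe
  have h2 : IsUniformInducing
      (UniformSpace.Completion.toComplL (𝕜 := ℝ) : C00 nrm →L[ℝ] Compl nrm) :=
    UniformSpace.Completion.isUniformInducing_coe (C00 nrm)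
  exact ContinuousLinearMap.extend_eq (cf n) h1 h2 (toC00 nrm v)

lemma es_evec (m n : ℕ) : es m (evec nrm n) = if m = n then 1 else 0 := by
  have h : evec nrm n = im (Finsupp.single n 1) := rfl
  rw [h, es_im, Finsupp.single_apply]
  by_cases h' : m = n
  · rw [if_pos h', if_pos h'.symm]
  · rw [if_neg h', if_neg (fun h'' => h' h''.symm)]

/-- `log₂ (m + 1)` -/
noncomputable def psi (m : ℕ) : ℝ := Real.logb 2 (m + 1)

lemma first_bound (A : Finset ℕ) (φ : StrongDual ℝ (Compl nrm)) :
    psi A.card / A.card * ∑ n ∈ A, ‖φ (evec nrm n)‖ ≤ 1 * ‖φ‖ := by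
  rcases Nat.eq_zero_or_pos A.card with h0 | hpos
  · rw [Finset.card_eq_zero.mp h0]
    simp
  · have hc : (0 : ℝ) < A.card := by exact_mod_cast hpos
    have h1 := sum_abs_le φ A (fun _ => 1) (fun _ => zero_le_one)
    simp only [one_mul] at h1
    have h2 : nrm (fs A (fun _ => 1)) ≤ A.card / Real.logb 2 (A.card + 1) := by
      apply nrm_le_card
      · intro k hk
        rw [Finsupp.mem_support_iff, fs_apply] at hk
        by_contra h
        rw [if_neg h] at hk
        exact hk rfl
      · intro k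
        rw [fs_apply]
        split_ifs <;> simp
    have hl := logb_pos (show 1 ≤ A.card by omega)
    have h3 : ∑ n ∈ A, ‖φ (evec nrm n)‖ ≤ ‖φ‖ * (A.card / Real.logb 2 (A.card + 1)) :=
      h1.trans (mul_le_mul_of_nonneg_left h2 (norm_nonneg _))
    unfold psi
    calc Real.logb 2 (A.card + 1) / A.card * ∑ n ∈ A, ‖φ (evec nrm n)‖
        ≤ Real.logb 2 (A.card + 1) / A.card * (‖φ‖ * (A.card / Real.logb 2 (A.card + 1))) :=
          mul_le_mul_of_nonneg_left h3 (by positivity)
      _ = 1 * ‖φ‖ := by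
          have : Real.logb 2 ((A.card : ℝ) + 1) ≠ 0 := by linarith
          field_simp

/-- the data for the dual of Schlumprecht space -/
noncomputable def DS : GR.Data ℝ (StrongDual ℝ (Compl nrm)) where
  xs n := (ContinuousLinearMap.apply ℝ ℝ (evec nrm n)).toLinearMap
  G := {p | (∀ n, 0 ≤ p.2 n) ∧ nrm (fs p.1 p.2) ≤ 1 / 2}
  ψ := psi
  C1 := 1
  C2 := 4
  C3 := 1
  ψ_zero := by unfold psi; simp
  ψ_mono m := by
    unfold psi
    apply Real.logb_le_logb_of_le (by norm_num) (by positivity)
    push_cast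
    linarith
  ψ_conc m := by
    unfold psi
    have h0 : (0 : ℝ) ≤ m := Nat.cast_nonneg m
    have h1 : Real.logb 2 (((m + 2 : ℕ) : ℝ) + 1) + Real.logb 2 ((m : ℝ) + 1) ≤
        Real.logb 2 (((m + 1 : ℕ) : ℝ) + 1) + Real.logb 2 (((m + 1 : ℕ) : ℝ) + 1) := by
      rw [← Real.logb_mul (by positivity) (by positivity),
        ← Real.logb_mul (by positivity) (by positivity)]
      apply Real.logb_le_logb_of_le (by norm_num) (by positivity)
      push_cast
      nlinarith
    linarith
  C1_nonneg := zero_le_one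
  C2_pos := by norm_num
  C3_nonneg := zero_le_one
  nonneg B g h := h.1
  bdd B g h φ := by
    refine (sum_abs_le φ B g h.1).trans ?_
    have h1 := mul_le_mul_of_nonneg_left h.2 (norm_nonneg φ)
    have h2 := norm_nonneg φ
    change ‖φ‖ * nrm (fs B g) ≤ ‖φ‖ * (1 / 2) at h1
    linarith
  norming φ := by
    by_cases h0 : ‖φ‖ = 0
    · refine ⟨∅, 0, ⟨fun n => le_refl _, ?_⟩, ?_⟩
      · have : fs ∅ 0 = 0 := by unfold fs; simp
        change nrm (fs ∅ 0) ≤ 1 / 2
        rw [this, map_zero]; norm_num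
      · rw [h0]; simp
    · have hpos : 0 < ‖φ‖ := lt_of_le_of_ne (norm_nonneg _) (Ne.symm h0)
      have h1 : ∃ v : ℕ →₀ ℝ, ‖φ‖ / 2 * nrm v < |φ (im v)| := by
        by_contra hcon
        push Not at hcon
        have := dense_bound φ (‖φ‖ / 2) hcon (by positivity)
        linarith
      obtain ⟨v, hv⟩ := h1
      have hv0 : 0 < nrm v := by
        rcases (apply_nonneg nrm v).lt_or_eq with h | h
        · exact h
        · exfalso
          have h2 : ‖im v‖ = 0 := by rw [norm_im, ← h]
          rw [norm_eq_zero.mp h2, map_zero, abs_zero, ← h, mul_zero] at hv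
          exact lt_irrefl _ hv
      set g : ℕ → ℝ := fun n => |v n| / (2 * nrm v) with hg
      have hg0 : ∀ n, 0 ≤ g n := fun n => by rw [hg]; positivity
      refine ⟨v.support, g, ⟨hg0, ?_⟩, ?_⟩
      · change nrm (fs v.support g) ≤ 1 / 2
        have h2 : nrm (fs v.support g) ≤ nrm ((1 / (2 * nrm v)) • v) := by
          apply nrm_mono
          intro k
          rw [fs_apply, Finsupp.smul_apply, smul_eq_mul, abs_mul]
          split_ifs
          · rw [hg, abs_div, abs_abs, abs_of_pos (show 0 < 2 * nrm v by positivity),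
              abs_of_pos (show 0 < 1 / (2 * nrm v) by positivity)]
            apply le_of_eq; ring
          · rw [abs_zero]; positivity
        rw [map_smul_eq_mul, Real.norm_eq_abs, abs_of_pos (show 0 < 1 / (2 * nrm v) by positivity)]
          at h2
        refine h2.trans (le_of_eq ?_)
        field_simp
      · change ‖φ‖ ≤ 4 * ∑ n ∈ v.support, g n * ‖φ (evec nrm n)‖
        have h3 : |φ (im v)| ≤ 2 * nrm v * ∑ n ∈ v.support, g n * ‖φ (evec nrm n)‖ := by
          have h4 : v = fs v.support (fun n => v n) := by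
            ext k
            rw [fs_apply]
            split_ifs with h5
            · rfl
            · exact Finsupp.notMem_support_iff.mp h5
          have h5 : φ (im v) = ∑ n ∈ v.support, v n * φ (evec nrm n) := by
            conv_lhs => rw [h4]
            rw [phi_fs]
          rw [h5, Finset.mul_sum]
          refine (Finset.abs_sum_le_sum_abs _ _).trans (Finset.sum_le_sum fun n _ => ?_)
          rw [abs_mul, Real.norm_eq_abs, hg]
          apply le_of_eq
          field_simp
        have h6 : ‖φ‖ / 2 * nrm v < 2 * nrm v * ∑ n ∈ v.support, g n * ‖φ (evec nrm n)‖ :=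
          hv.trans_le h3
        have h7 : ‖φ‖ / 2 < 2 * ∑ n ∈ v.support, g n * ‖φ (evec nrm n)‖ := by
          by_contra h8
          push Not at h8
          have := mul_le_mul_of_nonneg_right h8 hv0.le
          nlinarith
        linarith
  dem B g h F hF := by
    have h1 := sum_le_nrm (fs B g) F
    have h2 : ∑ k ∈ F, |fs B g k| = ∑ n ∈ F, g n := by
      apply Finset.sum_congr rfl
      intro n hn
      rw [fs_apply, if_pos (hF hn), abs_of_nonneg (h.1 n)]
    rw [h2] at h1
    have h3 : 0 ≤ psi F.card := by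
      unfold psi
      apply Real.logb_nonneg (by norm_num)
      have : (0 : ℝ) ≤ F.card := Nat.cast_nonneg _
      linarith
    have h4 : nrm (fs B g) ≤ 1 / 2 := h.2
    have h5 := mul_le_mul_of_nonneg_left h4 h3
    unfold psi at h5 ⊢
    linarith
  first A φ := first_bound A φ
  fin φ ε hε := by
    by_contra hinf
    obtain ⟨k, hk⟩ := exists_nat_gt (‖φ‖ / ε)
    obtain ⟨A, hA, hAc⟩ := Set.Infinite.exists_subset_card_eq hinf (2 ^ k)
    have h1 := first_bound A φ
    have hc : (0 : ℝ) < A.card := by rw [hAc]; positivity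
    have h2 : (A.card : ℝ) * ε ≤ ∑ n ∈ A, ‖φ (evec nrm n)‖ := by
      rw [← nsmul_eq_mul, ← Finset.sum_const]
      exact Finset.sum_le_sum fun n hn => hA hn
    have h3 : (k : ℝ) ≤ psi A.card := by
      unfold psi
      rw [hAc, Real.le_logb_iff_rpow_le (by norm_num) (by positivity), Real.rpow_natCast]
      push_cast
      linarith
    have h4 : 0 ≤ psi A.card := (Nat.cast_nonneg k).trans h3
    have h5 : psi A.card / A.card * (A.card * ε) ≤
        psi A.card / A.card * ∑ n ∈ A, ‖φ (evec nrm n)‖ :=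
      mul_le_mul_of_nonneg_left h2 (by positivity)
    have h6 : psi A.card / A.card * (A.card * ε) = psi A.card * ε := by field_simp
    rw [div_lt_iff₀ hε] at hk
    have h7 := mul_le_mul_of_nonneg_right h3 hε.le
    linarith

end Pool.Agent.R267.SC
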