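import Mathlib

set_option autoImplicit false

open Filter Topology
open scoped ENNReal

namespace Pool.Agent.R267.SR

section gen

variable {𝕜 : Type} [RCLike 𝕜] {B : Type} [NormedAddCommGroup B] [NormedSpace 𝕜 B]

/-- the coefficients of a convergent series are given by biorthogonal continuous functionals -/
lemma coeff_eq (x : ℕ → B) (f : ℕ → B →L[𝕜] 𝕜) (hbi : ∀ m n, f m (x n) = if m = n then 1 else 0)
    (α : ℕ → 𝕜) (y : B) (h : Tendsto (fun m => ∑ i ∈ Finset.range m, α i • x i) atTop (𝓝 y))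
    (n : ℕ) : α n = f n y := by
  have h1 := ((f n).continuous.tendsto y).comp h
  have h2 : Tendsto (fun m => f n (∑ i ∈ Finset.range m, α i • x i)) atTop (𝓝 (α n)) := by
    apply tendsto_const_nhds.congr'
    filter_upwards [eventually_gt_atTop n] with m hm
    rw [map_sum]
    simp only [map_smul, hbi, smul_eq_mul, mul_ite, mul_one, mul_zero]
    rw [Finset.sum_ite_eq, if_pos (Finset.mem_range.mpr hm)]
  exact tendsto_nhds_unique h2 h1

/-- sign choice -/
lemma signs (R : ℕ → ℕ → 𝕜) (K : Finset ℕ) : ∃ ε : ℕ → 𝕜, (∀ k, ‖ε k‖ = 1) ∧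
    ∑ j ∈ K, ‖R j j‖ ≤ ∑ j ∈ K, ‖∑ k ∈ K, ε k * R j k‖ := by
  classical
  induction K using Finset.induction_on with
  | empty => exact ⟨fun _ => 1, fun _ => norm_one, by simp⟩
  | insert k0 K hk0 ih =>
    obtain ⟨ε, hε, hle⟩ := ih
    set a : ℕ → 𝕜 := fun j => ∑ k ∈ K, ε k * R j k with ha
    have h1 : ∀ j ∈ insert k0 K, (if j = k0 then ‖R k0 k0‖ else ‖a j‖) ≤
        (‖a j + R j k0‖ + ‖a j - R j k0‖) / 2 := by
      intro j _
      split_ifs with h
      · subst h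
        have := norm_sub_le (a j + R j j) (a j - R j j)
        rw [show a j + R j j - (a j - R j j) = 2 * R j j by ring, norm_mul, RCLike.norm_ofNat] at this
        linarith
      · have := norm_add_le (a j + R j k0) (a j - R j k0)
        rw [show a j + R j k0 + (a j - R j k0) = 2 * a j by ring, norm_mul,
          RCLike.norm_ofNat] at this
        linarith
    have h2 := Finset.sum_le_sum h1
    have h3 : ∑ j ∈ insert k0 K, (if j = k0 then ‖R k0 k0‖ else ‖a j‖) =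
        ‖R k0 k0‖ + ∑ j ∈ K, ‖a j‖ := by
      rw [Finset.sum_insert hk0, if_pos rfl]
      congr 1
      apply Finset.sum_congr rfl
      intro j hj
      rw [if_neg]
      intro h
      exact hk0 (h ▸ hj)
    rw [h3, ← Finset.sum_div, Finset.sum_add_distrib] at h2
    have h4 : ∑ j ∈ insert k0 K, ‖R j j‖ = ‖R k0 k0‖ + ∑ j ∈ K, ‖R j j‖ :=
      Finset.sum_insert hk0
    have h5 : (∑ j ∈ insert k0 K, ‖R j j‖ ≤ ∑ j ∈ insert k0 K, ‖a j + R j k0‖) ∨
        (∑ j ∈ insert k0 K, ‖R j j‖ ≤ ∑ j ∈ insert k0 K, ‖a j - R j k0‖) := by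
      by_contra hcon
      push Not at hcon
      linarith [hcon.1, hcon.2]
    have fin : ∀ t : 𝕜, ‖t‖ = 1 →
        ∑ j ∈ insert k0 K, ‖R j j‖ ≤ ∑ j ∈ insert k0 K, ‖a j + t * R j k0‖ →
        ∃ ε : ℕ → 𝕜, (∀ k, ‖ε k‖ = 1) ∧ ∑ j ∈ insert k0 K, ‖R j j‖ ≤
          ∑ j ∈ insert k0 K, ‖∑ k ∈ insert k0 K, ε k * R j k‖ := by
      intro t ht hle'
      refine ⟨Function.update ε k0 t, fun k => ?_, ?_⟩
      · by_cases hk : k = k0
        · rw [hk, Function.update_self, ht]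
        · rw [Function.update_of_ne hk, hε k]
      · refine hle'.trans (le_of_eq ?_)
        apply Finset.sum_congr rfl
        intro j _
        rw [Finset.sum_insert hk0, Function.update_self, add_comm]
        congr 2
        apply Finset.sum_congr rfl
        intro k hk
        rw [Function.update_of_ne]
        intro h
        exact hk0 (h ▸ hk)
    rcases h5 with h5 | h5
    · exact fin 1 norm_one (by simpa only [one_mul] using h5)
    · exact fin (-1) (by rw [norm_neg, norm_one])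
        (by simpa only [neg_one_mul, ← sub_eq_add_neg] using h5)

end gen

variable (𝕜 : Type) [RCLike 𝕜]

/-- `ℓ₁` -/
abbrev L1 : Type := lp (fun _ : ℕ => 𝕜) 1

/-- `ℓ₂` -/
abbrev L2 : Type := lp (fun _ : ℕ => 𝕜) 2

/-- the space -/
abbrev BB : Type := L1 𝕜 × L2 𝕜

variable {𝕜}

/-- unit vectors -/
noncomputable def ee (k : ℕ) : L1 𝕜 := lp.single 1 k (1 : 𝕜)

/-- unit vectors -/
noncomputable def ff (k : ℕ) : L2 𝕜 := lp.single 2 k (1 : 𝕜)

lemma ee_apply (k j : ℕ) : (ee k : L1 𝕜) j = if j = k then 1 else 0 := by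
  unfold ee
  rw [lp.single_apply, Pi.single_apply]

lemma ff_apply (k j : ℕ) : (ff k : L2 𝕜) j = if j = k then 1 else 0 := by
  unfold ff
  rw [lp.single_apply, Pi.single_apply]

/-- coefficient of `ee` -/
def cc (n : ℕ) : 𝕜 := if n % 2 = 0 then 2 else 1

/-- the basis -/
noncomputable def xx (n : ℕ) : BB 𝕜 := ((cc n : 𝕜) • ee (n / 2), ff (n / 2))

/-- coordinates of `ℓ₁`, continuous -/
noncomputable def ev1 (k : ℕ) : L1 𝕜 →L[𝕜] 𝕜 := lp.evalCLM 𝕜 (fun _ : ℕ => 𝕜) 1 k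

/-- coordinates of `ℓ₂`, continuous -/
noncomputable def ev2 (k : ℕ) : L2 𝕜 →L[𝕜] 𝕜 := lp.evalCLM 𝕜 (fun _ : ℕ => 𝕜) 2 k

lemma ev1_apply (k : ℕ) (u : L1 𝕜) : ev1 k u = u k := rfl
lemma ev2_apply (k : ℕ) (u : L2 𝕜) : ev2 k u = u k := rfl

/-- the coordinate functionals -/
noncomputable def fn (n : ℕ) : BB 𝕜 →L[𝕜] 𝕜 :=
  if n % 2 = 0 then
    (ev1 (n / 2)).comp (ContinuousLinearMap.fst 𝕜 _ _) -
      (ev2 (n / 2)).comp (ContinuousLinearMap.snd 𝕜 _ _)
  else (2 : 𝕜) • (ev2 (n / 2)).comp (ContinuousLinearMap.snd 𝕜 _ _) -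
    (ev1 (n / 2)).comp (ContinuousLinearMap.fst 𝕜 _ _)

lemma fn_apply (n : ℕ) (y : BB 𝕜) : fn n y =
    if n % 2 = 0 then y.1 (n / 2) - y.2 (n / 2) else 2 * y.2 (n / 2) - y.1 (n / 2) := by
  unfold fn
  split_ifs <;> rfl

lemma fn_xx (m n : ℕ) : fn m (xx n : BB 𝕜) = if m = n then 1 else 0 := by
  rw [fn_apply]
  unfold xx
  simp only [lp.coeFn_smul, Pi.smul_apply, ee_apply, ff_apply, smul_eq_mul]
  unfold cc
  by_cases h : m / 2 = n / 2
  · rcases Nat.mod_two_eq_zero_or_one m with hm | hm <;>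
      rcases Nat.mod_two_eq_zero_or_one n with hn | hn
    · have : m = n := by omega
      simp [hm, hn, h, this]
      norm_num
    · have : m ≠ n := by omega
      simp [hm, hn, h, this]
    · have : m ≠ n := by omega
      simp [hm, hn, h, this]
    · have : m = n := by omega
      simp [hn, this]
      norm_num
  · have : m ≠ n := by
      intro h'
      exact h (by rw [h'])
    simp [h, this]

lemma psum_even (y : BB 𝕜) (m : ℕ) : ∑ i ∈ Finset.range (2 * m), fn i y • (xx i : BB 𝕜) =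
    (∑ k ∈ Finset.range m, y.1 k • ee k, ∑ k ∈ Finset.range m, y.2 k • ff k) := by
  induction m with
  | zero =>
    simp only [mul_zero, Finset.range_zero, Finset.sum_empty]
    rfl
  | succ m ih =>
    rw [show 2 * (m + 1) = 2 * m + 1 + 1 by ring, Finset.sum_range_succ, Finset.sum_range_succ, ih,
      Finset.sum_range_succ, Finset.sum_range_succ, fn_apply, fn_apply]
    have h1 : 2 * m % 2 = 0 := by omega
    have h2 : ¬ (2 * m + 1) % 2 = 0 := by omega
    have h3 : 2 * m / 2 = m := by omega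
    have h4 : (2 * m + 1) / 2 = m := by omega
    unfold xx cc
    rw [if_pos h1, if_neg h2, if_pos h1, if_neg h2, h3, h4]
    simp only [Prod.smul_mk, Prod.mk_add_mk, smul_smul, ← add_smul, add_assoc]
    congr 3
    · ring
    · ring


lemma smul_ee (r : 𝕜) (k : ℕ) : r • (ee k : L1 𝕜) = lp.single 1 k r := by
  unfold ee
  rw [← lp.single_smul, smul_eq_mul, mul_one]

lemma smul_ff (r : 𝕜) (k : ℕ) : r • (ff k : L2 𝕜) = lp.single 2 k r := by
  unfold ff
  rw [← lp.single_smul, smul_eq_mul, mul_one]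

lemma tendsto_even (y : BB 𝕜) :
    Tendsto (fun m => ∑ i ∈ Finset.range (2 * m), fn i y • (xx i : BB 𝕜)) atTop (𝓝 y) := by
  simp only [psum_even, smul_ee, smul_ff]
  exact ((lp.hasSum_single (E := fun _ : ℕ => 𝕜) (p := 1) (by norm_num) y.1).tendsto_sum_nat).prodMk_nhds
    ((lp.hasSum_single (E := fun _ : ℕ => 𝕜) (p := 2) (by norm_num) y.2).tendsto_sum_nat)

lemma coord1_tendsto (u : L1 𝕜) : Tendsto (fun k => ‖u k‖) atTop (𝓝 0) := by
  have h := (lp.hasSum_single (E := fun _ : ℕ => 𝕜) (p := 1) (by norm_num) u).summable.tendsto_atTop_zero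
  have h2 := h.norm
  rw [norm_zero] at h2
  refine h2.congr fun k => ?_
  exact lp.norm_single (E := fun _ : ℕ => 𝕜) (p := 1) (by norm_num) k (u k)

lemma coord2_tendsto (u : L2 𝕜) : Tendsto (fun k => ‖u k‖) atTop (𝓝 0) := by
  have h := (lp.hasSum_single (E := fun _ : ℕ => 𝕜) (p := 2) (by norm_num) u).summable.tendsto_atTop_zero
  have h2 := h.norm
  rw [norm_zero] at h2
  refine h2.congr fun k => ?_
  exact lp.norm_single (E := fun _ : ℕ => 𝕜) (p := 2) (by norm_num) k (u k)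

lemma norm_ee (k : ℕ) : ‖(ee k : L1 𝕜)‖ = 1 := by
  unfold ee
  rw [lp.norm_single (by norm_num), norm_one]

lemma norm_ff (k : ℕ) : ‖(ff k : L2 𝕜)‖ = 1 := by
  unfold ff
  rw [lp.norm_single (by norm_num), norm_one]

lemma norm_xx (n : ℕ) : ‖(xx n : BB 𝕜)‖ ≤ 2 := by
  unfold xx cc
  rw [Prod.norm_mk, norm_ff, norm_smul, norm_ee]
  split_ifs <;> simp

lemma half_tendsto : Tendsto (fun n : ℕ => n / 2) atTop atTop := by
  rw [tendsto_atTop]
  intro b
  filter_upwards [eventually_ge_atTop (2 * b)] with n hn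
  omega

lemma term_tendsto (y : BB 𝕜) : Tendsto (fun n => ‖fn n y • (xx n : BB 𝕜)‖) atTop (𝓝 0) := by
  have h1 := (coord1_tendsto y.1).comp half_tendsto
  have h2 := (coord2_tendsto y.2).comp half_tendsto
  have h3 := (h1.add h2).const_mul 4
  rw [add_zero, mul_zero] at h3
  refine squeeze_zero (fun _ => norm_nonneg _) (fun n => ?_) h3
  have hx := norm_xx (𝕜 := 𝕜) n
  have hf : ‖fn n y‖ ≤ 2 * (‖y.1 (n / 2)‖ + ‖y.2 (n / 2)‖) := by
    rw [fn_apply]
    have ha := norm_nonneg (y.1 (n / 2))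
    have hb := norm_nonneg (y.2 (n / 2))
    split_ifs
    · refine (norm_sub_le _ _).trans ?_
      linarith
    · refine (norm_sub_le _ _).trans ?_
      rw [norm_mul, RCLike.norm_ofNat]
      linarith
  rw [norm_smul]
  have hf0 := norm_nonneg (fn n y)
  have hx0 := norm_nonneg (xx n : BB 𝕜)
  change _ ≤ 4 * (‖y.1 (n / 2)‖ + ‖y.2 (n / 2)‖)
  nlinarith

lemma expansion (y : BB 𝕜) :
    Tendsto (fun m => ∑ i ∈ Finset.range m, fn i y • (xx i : BB 𝕜)) atTop (𝓝 y) := by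
  have h1 := (tendsto_even y).comp half_tendsto
  have h2 : Tendsto (fun n => if n % 2 = 1 then fn (n - 1) y • (xx (n - 1) : BB 𝕜) else 0)
      atTop (𝓝 0) := by
    rw [tendsto_zero_iff_norm_tendsto_zero]
    have h3 := (term_tendsto y).comp (tendsto_sub_atTop_nat 1)
    refine squeeze_zero (fun _ => norm_nonneg _) (fun n => ?_) h3
    split_ifs
    · exact le_refl _
    · rw [norm_zero]; exact norm_nonneg _
  have h3 := h1.add h2
  rw [add_zero] at h3
  refine h3.congr fun n => ?_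
  change ∑ i ∈ Finset.range (2 * (n / 2)), fn i y • (xx i : BB 𝕜) +
    (if n % 2 = 1 then fn (n - 1) y • (xx (n - 1) : BB 𝕜) else 0) = _
  rcases Nat.mod_two_eq_zero_or_one n with h | h
  · rw [if_neg (by omega), add_zero]
    congr 2
    omega
  · rw [if_pos h]
    have : n = 2 * (n / 2) + 1 := by omega
    conv_rhs => rw [this, Finset.sum_range_succ]
    have h4 : n - 1 = 2 * (n / 2) := by omega
    rw [h4]


section main

variable (N : Seminorm 𝕜 (BB 𝕜)) (a b : ℝ) (ha : 0 < a)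
  (hab : ∀ f : BB 𝕜, a * ‖f‖ ≤ N f ∧ N f ≤ b * ‖f‖)
  (hmono : ∀ (y : BB 𝕜) (n : ℕ), N (∑ i ∈ Finset.range n, fn i y • xx i) ≤ N y)
  (p : BB 𝕜 →ₗ[𝕜] BB 𝕜) (hp1 : ∀ y, (p y).2 = 0) (hp2 : ∀ y : BB 𝕜, y.2 = 0 → p y = y)
  (hp3 : ∀ y, N (p y) ≤ N y)

include hp1 hp2 hp3 hmono in
lemma op_step (k : ℕ) (y : BB 𝕜) (hy : y.2 = 0) :
    (p (∑ i ∈ Finset.range (2 * k + 1), fn i y • xx i)).2 = 0 ∧
    N (p (∑ i ∈ Finset.range (2 * k + 1), fn i y • xx i)) ≤ N y ∧
    (p (∑ i ∈ Finset.range (2 * k + 1), fn i y • xx i)).1 k =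
      (2 + (p (0, ff k)).1 k) * y.1 k := by
  refine ⟨hp1 _, (hp3 _).trans (hmono y _), ?_⟩
  have h1 : ∑ i ∈ Finset.range (2 * k + 1), fn i y • (xx i : BB 𝕜) =
      ((∑ j ∈ Finset.range k, y.1 j • ee j + (2 * y.1 k) • ee k, 0) : BB 𝕜) +
        y.1 k • ((0, ff k) : BB 𝕜) := by
    rw [Finset.sum_range_succ, psum_even, fn_apply, if_pos (by omega), hy]
    have h3 : 2 * k / 2 = k := by omega
    unfold xx cc
    rw [h3, if_pos (by omega)]
    simp only [lp.coeFn_zero, Pi.zero_apply, sub_zero, zero_smul, Finset.sum_const_zero,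
      Prod.smul_mk, Prod.mk_add_mk, smul_zero, add_zero, smul_smul]
    congr 3
    ring
  rw [h1, map_add, map_smul, hp2 _ rfl]
  rw [Prod.fst_add, Prod.smul_fst, lp.coeFn_add, Pi.add_apply, lp.coeFn_add, Pi.add_apply,
    lp.coeFn_smul, Pi.smul_apply, lp.coeFn_smul, Pi.smul_apply, lp.coeFn_sum, Finset.sum_apply]
  have h2 : ∑ j ∈ Finset.range k, (y.1 j • (ee j : L1 𝕜) : L1 𝕜) k = 0 := by
    apply Finset.sum_eq_zero
    intro j hj
    rw [lp.coeFn_smul, Pi.smul_apply, ee_apply, if_neg, smul_zero]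
    intro h
    rw [Finset.mem_range] at hj
    omega
  rw [h2, ee_apply, if_pos rfl]
  simp only [smul_eq_mul]
  ring

include ha hab hp1 hp2 hp3 hmono in
lemma diag_large (k : ℕ) : 1 ≤ ‖(p (0, ff k)).1 k‖ := by
  set ρ : 𝕜 := 2 + (p (0, ff k)).1 k with hρ
  have hit : ∀ m : ℕ, ∃ y : BB 𝕜, y.2 = 0 ∧ N y ≤ N (ee k, 0) ∧ y.1 k = ρ ^ m := by
    intro m
    induction m with
    | zero =>
      refine ⟨(ee k, 0), rfl, le_refl _, ?_⟩
      rw [pow_zero]
      change (ee k : L1 𝕜) k = 1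
      rw [ee_apply, if_pos rfl]
    | succ m ih =>
      obtain ⟨y, hy1, hy2, hy3⟩ := ih
      obtain ⟨h1, h2, h3⟩ := op_step N hmono p hp1 hp2 hp3 k y hy1
      refine ⟨_, h1, h2.trans hy2, ?_⟩
      rw [h3, hy3, pow_succ']
  have hle : ‖ρ‖ ≤ 1 := by
    by_contra hcon
    push Not at hcon
    obtain ⟨m, hm⟩ := pow_unbounded_of_one_lt (N (ee k, 0) / a) hcon
    obtain ⟨y, -, hy2, hy3⟩ := hit m
    have h1 : ‖ρ ^ m‖ ≤ ‖y‖ := by
      rw [← hy3]
      exact (lp.norm_apply_le_norm one_ne_zero y.1 k).trans (le_max_left _ _)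
    rw [norm_pow] at h1
    have h2 := (hab y).1
    rw [div_lt_iff₀ ha] at hm
    nlinarith
  have h2 : ‖(2 : 𝕜)‖ ≤ ‖ρ‖ + ‖(p (0, ff k)).1 k‖ := by
    have := norm_sub_le ρ ((p (0, ff k)).1 k)
    rwa [hρ, add_sub_cancel_right] at this
  rw [RCLike.norm_ofNat] at h2
  linarith

include ha hab hp1 hp2 hp3 hmono in
theorem contra : False := by
  obtain ⟨n, hn⟩ := exists_nat_gt ((b / a) ^ 2)
  obtain ⟨ε, hε, hle⟩ := signs (fun j k => (p (0, ff k)).1 j) (Finset.range n)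
  set y : BB 𝕜 := ∑ k ∈ Finset.range n, ε k • ((0, ff k) : BB 𝕜) with hy
  have h1 : (n : ℝ) ≤ ∑ j ∈ Finset.range n, ‖(p (0, ff j)).1 j‖ := by
    have := Finset.sum_le_sum (s := Finset.range n) (f := fun _ => (1 : ℝ))
      (g := fun j => ‖(p (0, ff j)).1 j‖)
      (fun j _ => diag_large N a b ha hab hmono p hp1 hp2 hp3 j)
    simpa using this
  have h2 : ∀ j, ∑ k ∈ Finset.range n, ε k * (p (0, ff k)).1 j = (p y).1 j := by
    intro j
    rw [hy, map_sum, Prod.fst_sum, lp.coeFn_sum, Finset.sum_apply]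
    apply Finset.sum_congr rfl
    intro k _
    rw [map_smul, Prod.smul_fst, lp.coeFn_smul, Pi.smul_apply, smul_eq_mul]
  simp only [h2] at hle
  have h3 : ∑ j ∈ Finset.range n, ‖(p y).1 j‖ ≤ ‖(p y).1‖ := by
    have := lp.sum_rpow_le_norm_rpow (p := 1) (by norm_num) (p y).1 (Finset.range n)
    simpa only [ENNReal.toReal_one, Real.rpow_one] using this
  have h4 : ‖(p y).1‖ ≤ ‖p y‖ := le_max_left _ _
  have h5 : ‖y‖ ^ 2 = n := by
    have hy1 : y.1 = 0 := by
      rw [hy, Prod.fst_sum]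
      apply Finset.sum_eq_zero
      intro k _
      rw [Prod.smul_fst, smul_zero]
    have hy2 : y.2 = ∑ k ∈ Finset.range n, lp.single 2 k (ε k) := by
      rw [hy, Prod.snd_sum]
      apply Finset.sum_congr rfl
      intro k _
      rw [Prod.smul_snd, smul_ff]
    have hny : ‖y‖ = ‖y.2‖ := by
      rw [Prod.norm_def, hy1, norm_zero, max_eq_right (norm_nonneg _)]
    have h6 := lp.norm_sum_single (E := fun _ : ℕ => 𝕜) (p := 2) (by norm_num) ε (Finset.range n)
    rw [← hy2, ← hny] at h6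
    simp only [hε, Real.one_rpow, Finset.sum_const, Finset.card_range, nsmul_eq_mul,
      mul_one] at h6
    have : ((2 : ℝ≥0∞).toReal) = 2 := by norm_num
    rw [this, Real.rpow_two] at h6
    exact h6
  have h6 : a * n ≤ b * ‖y‖ := by
    calc a * n ≤ a * ‖p y‖ := mul_le_mul_of_nonneg_left (by linarith) ha.le
      _ ≤ N (p y) := (hab _).1
      _ ≤ N y := hp3 y
      _ ≤ b * ‖y‖ := (hab _).2
  have hn0 : (0 : ℝ) < n := lt_of_le_of_lt (by positivity) hn
  have h7 : (a * n) ^ 2 ≤ (b * ‖y‖) ^ 2 := pow_le_pow_left₀ (by positivity) h6 2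
  rw [mul_pow, mul_pow, h5] at h7
  have h8 : a ^ 2 * n ≤ b ^ 2 := by
    have : a ^ 2 * n * n ≤ b ^ 2 * n := by nlinarith
    exact le_of_mul_le_mul_right this hn0
  rw [div_pow, div_lt_iff₀ (by positivity)] at hn
  nlinarith

end main

end Pool.Agent.R267.SR
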