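import Mathlib

set_option autoImplicit false

open Filter Topology
open scoped ENNReal

namespace Pool.Agent.R267.TB

variable (𝕜 : Type) [RCLike 𝕜]

/-- the matrix -/
noncomputable def tt (n j : ℕ) : 𝕜 := if j % 2 = 1 ∧ n ≤ j / 2 then (1 / 2) ^ (j / 2 - n + 1) else 0

/-- the space -/
abbrev EE : Type := lp (fun _ : ℕ => 𝕜) 2

variable {𝕜}

lemma geo_hasSum : HasSum (fun i : ℕ => (1 / 2 : 𝕜) ^ (i + 1)) 1 := by
  have h := (hasSum_geometric_of_norm_lt_one (K := 𝕜) (ξ := 1 / 2) (by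
    rw [norm_div, norm_one, RCLike.norm_ofNat]; norm_num)).mul_left (1 / 2)
  have h2 : (1 / 2 : 𝕜) * (1 - 1 / 2)⁻¹ = 1 := by
    rw [show (1 : 𝕜) - 1 / 2 = 1 / 2 by ring]
    exact mul_inv_cancel₀ (by norm_num)
  rw [h2] at h
  simpa only [← pow_succ'] using h

lemma inj_odd : Function.Injective (fun i : ℕ => 2 * i + 1) := by
  intro a b h
  simp only at h
  omega

/-- tails of the rows -/
lemma tail_hasSum (n k : ℕ) (hk : n ≤ k) :
    HasSum (fun j => (tt 𝕜 n (2 * k + j) : 𝕜)) ((1 / 2) ^ (k - n)) := by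
  rw [← inj_odd.hasSum_iff]
  · have h := (geo_hasSum (𝕜 := 𝕜)).mul_left ((1 / 2) ^ (k - n))
    rw [mul_one] at h
    have he : (fun j => (tt 𝕜 n (2 * k + j) : 𝕜)) ∘ (fun i : ℕ => 2 * i + 1) =
        fun i => (1 / 2) ^ (k - n) * (1 / 2) ^ (i + 1) := by
      funext i
      change tt 𝕜 n (2 * k + (2 * i + 1)) = _
      unfold tt
      rw [if_pos (by constructor <;> omega), ← pow_add]
      congr 1
      omega
    rw [he]
    exact h
  · intro j hj
    unfold tt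
    rw [if_neg]
    rintro ⟨h1, -⟩
    apply hj
    exact ⟨j / 2, by simp only; omega⟩

lemma row_hasSum (n : ℕ) : HasSum (tt 𝕜 n) 1 := by
  have h := tail_hasSum (𝕜 := 𝕜) n n le_rfl
  rw [Nat.sub_self, pow_zero] at h
  have h2 : ∑ j ∈ Finset.range (2 * n), tt 𝕜 n j = 0 := by
    apply Finset.sum_eq_zero
    intro j hj
    rw [Finset.mem_range] at hj
    unfold tt
    rw [if_neg]
    rintro ⟨h1, h3⟩
    omega
  have h3 : HasSum (fun j => tt 𝕜 n (j + 2 * n)) 1 := by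
    simpa only [add_comm] using h
  have h4 := (hasSum_nat_add_iff (2 * n)).mp h3
  rwa [h2, add_zero] at h4

lemma norm_tt (n j : ℕ) : ‖tt 𝕜 n j‖ = tt ℝ n j := by
  unfold tt
  split_ifs
  · rw [norm_pow, norm_div, norm_one, RCLike.norm_ofNat]
  · exact norm_zero

lemma tt_nonneg (n j : ℕ) : 0 ≤ tt ℝ n j := by
  rw [← norm_tt (𝕜 := ℝ)]; exact norm_nonneg _

lemma tt_eventually (j : ℕ) : Tendsto (fun n => tt 𝕜 n j) atTop (𝓝 0) := by
  apply tendsto_const_nhds.congr'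
  filter_upwards [eventually_gt_atTop (j / 2)] with n hn
  unfold tt
  rw [if_neg]
  rintro ⟨_, h⟩
  omega

/-- unit vectors -/
noncomputable def ee (k : ℕ) : EE 𝕜 := lp.single 2 k (1 : 𝕜)

lemma ee_apply (k j : ℕ) : (ee k : EE 𝕜) j = if j = k then 1 else 0 := by
  unfold ee
  rw [lp.single_apply, Pi.single_apply]

/-- the basis -/
noncomputable def xx (n : ℕ) : EE 𝕜 :=
  if n % 2 = 0 then ee n else ee (n - 1) + ((1 / 8 : 𝕜) ^ (n / 2)) • ee n

/-- coordinates, continuous -/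
noncomputable def ev (k : ℕ) : EE 𝕜 →L[𝕜] 𝕜 := lp.evalCLM 𝕜 (fun _ : ℕ => 𝕜) 2 k

lemma ev_apply (k : ℕ) (u : EE 𝕜) : ev k u = u k := rfl

/-- the coordinate functionals -/
noncomputable def fn (n : ℕ) : EE 𝕜 →L[𝕜] 𝕜 :=
  if n % 2 = 0 then ev n - ((8 : 𝕜) ^ (n / 2)) • ev (n + 1) else ((8 : 𝕜) ^ (n / 2)) • ev n

lemma fn_even (n : ℕ) (h : n % 2 = 0) (y : EE 𝕜) :
    fn n y = y n - (8 : 𝕜) ^ (n / 2) * y (n + 1) := by
  unfold fn
  rw [if_pos h]
  rfl

lemma fn_odd (n : ℕ) (h : ¬ n % 2 = 0) (y : EE 𝕜) : fn n y = (8 : 𝕜) ^ (n / 2) * y n := by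
  unfold fn
  rw [if_neg h]
  rfl

lemma pow_cancel (k : ℕ) : (8 : 𝕜) ^ k * (1 / 8) ^ k = 1 := by
  rw [← mul_pow]
  norm_num

lemma fn_xx (m n : ℕ) : fn m (xx n : EE 𝕜) = if m = n then 1 else 0 := by
  unfold xx
  by_cases hn : n % 2 = 0
  · rw [if_pos hn]
    by_cases hm : m % 2 = 0
    · rw [fn_even m hm, ee_apply, ee_apply, if_neg (by omega : ¬ m + 1 = n), mul_zero, sub_zero]
    · rw [fn_odd m hm, ee_apply, if_neg (by omega : ¬ m = n), mul_zero]
  · rw [if_neg hn]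
    by_cases hm : m % 2 = 0
    · rw [fn_even m hm]
      simp only [lp.coeFn_add, Pi.add_apply, lp.coeFn_smul, Pi.smul_apply, ee_apply, smul_eq_mul]
      rw [if_neg (by omega : ¬ m = n), if_neg (by omega : ¬ m + 1 = n - 1), mul_zero, add_zero,
        zero_add]
      by_cases h : m = n - 1
      · rw [if_pos h, if_pos (by omega : m + 1 = n), mul_one, show m / 2 = n / 2 by omega,
          pow_cancel, sub_self]
      · rw [if_neg h, if_neg (by omega : ¬ m + 1 = n), mul_zero, mul_zero, sub_zero]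
    · rw [fn_odd m hm]
      simp only [lp.coeFn_add, Pi.add_apply, lp.coeFn_smul, Pi.smul_apply, ee_apply, smul_eq_mul]
      rw [if_neg (by omega : ¬ m = n - 1), zero_add]
      by_cases h : m = n
      · rw [if_pos h, mul_one, h, pow_cancel]
      · rw [if_neg h, mul_zero, mul_zero]

/-- coordinates of a formal combination -/
noncomputable def beta (α : ℕ → 𝕜) (m : ℕ) : 𝕜 :=
  if m % 2 = 0 then α m + α (m + 1) else (1 / 8 : 𝕜) ^ (m / 2) * α m

lemma psum_pairs (α : ℕ → 𝕜) (K : ℕ) : ∑ m ∈ Finset.range (2 * K), α m • (xx m : EE 𝕜) =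
    ∑ m ∈ Finset.range (2 * K), beta α m • (ee m : EE 𝕜) := by
  induction K with
  | zero => simp
  | succ K ih =>
    rw [show 2 * (K + 1) = 2 * K + 1 + 1 by ring, Finset.sum_range_succ, Finset.sum_range_succ, ih,
      Finset.sum_range_succ _ (2 * K + 1), Finset.sum_range_succ _ (2 * K)]
    have h1 : 2 * K % 2 = 0 := by omega
    have h2 : ¬ (2 * K + 1) % 2 = 0 := by omega
    have h3 : (2 * K + 1) / 2 = K := by omega
    unfold xx beta
    rw [if_pos h1, if_neg h2, if_pos h1, if_neg h2, h3, Nat.add_sub_cancel, smul_add, smul_smul,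
      add_smul, mul_comm (α (2 * K + 1))]
    abel

lemma beta_fn (y : EE 𝕜) (m : ℕ) : beta (fun n => fn n y) m = y m := by
  unfold beta
  split_ifs with h
  · change fn m y + fn (m + 1) y = y m
    rw [fn_even m h, fn_odd (m + 1) (by omega), show (m + 1) / 2 = m / 2 by omega]
    ring
  · change (1 / 8 : 𝕜) ^ (m / 2) * fn m y = y m
    rw [fn_odd m h, ← mul_assoc, mul_comm ((1 / 8 : 𝕜) ^ _), pow_cancel, one_mul]

lemma fn_of_beta (α : ℕ → 𝕜) (y : EE 𝕜) (h : ∀ m, beta α m = y m) (n : ℕ) : α n = fn n y := by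
  by_cases hn : n % 2 = 0
  · rw [fn_even n hn, ← h n, ← h (n + 1)]
    unfold beta
    rw [if_pos hn, if_neg (by omega), show (n + 1) / 2 = n / 2 by omega, ← mul_assoc, pow_cancel]
    ring
  · rw [fn_odd n hn, ← h n]
    unfold beta
    rw [if_neg hn, ← mul_assoc, pow_cancel, one_mul]

lemma coord_psum (α : ℕ → 𝕜) (K i : ℕ) (hi : i < 2 * K) :
    (∑ m ∈ Finset.range (2 * K), α m • (xx m : EE 𝕜) : EE 𝕜) i = beta α i := by
  rw [psum_pairs, lp.coeFn_sum, Finset.sum_apply]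
  simp only [lp.coeFn_smul, Pi.smul_apply, ee_apply, smul_eq_mul, mul_ite, mul_one, mul_zero]
  rw [Finset.sum_ite_eq, if_pos (Finset.mem_range.mpr hi)]

lemma smul_ee (r : 𝕜) (k : ℕ) : r • (ee k : EE 𝕜) = lp.single 2 k r := by
  unfold ee
  rw [← lp.single_smul, smul_eq_mul, mul_one]

lemma tendsto_ee (y : EE 𝕜) :
    Tendsto (fun K => ∑ m ∈ Finset.range K, y m • (ee m : EE 𝕜)) atTop (𝓝 y) := by
  simp only [smul_ee]
  exact (lp.hasSum_single (E := fun _ : ℕ => 𝕜) (p := 2) (by norm_num) y).tendsto_sum_nat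


/-- partial sums of a formal series, the `j`-th one including the term `j` -/
noncomputable def psum {E : Type} [NormedAddCommGroup E] [NormedSpace 𝕜 E] (x : ℕ → E) (α : ℕ → 𝕜)
    (j : ℕ) : E := ∑ i ∈ Finset.range (j + 1), α i • x i

/-- `α` is a sequence of `T`-coefficients of `y` -/
def TCoeff {E : Type} [NormedAddCommGroup E] [NormedSpace 𝕜 E] (T : ℕ → ℕ → 𝕜) (x : ℕ → E)
    (α : ℕ → 𝕜) (y : E) : Prop :=
  ∃ σ : ℕ → E, (∀ n, Tendsto (fun m => ∑ j ∈ Finset.range m, T n j • psum x α j) atTop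
    (𝓝 (σ n))) ∧ Tendsto σ atTop (𝓝 y)

lemma psum_odd (y : EE 𝕜) (k : ℕ) : psum xx (fun i => fn i y) (2 * k + 1) =
    ∑ m ∈ Finset.range (2 * (k + 1)), y m • (ee m : EE 𝕜) := by
  unfold psum
  rw [show 2 * k + 1 + 1 = 2 * (k + 1) by ring, psum_pairs]
  simp only [beta_fn]

lemma exists_tcoeff (y : EE 𝕜) : TCoeff (tt 𝕜) xx (fun i => fn i y) y := by
  have hP := tendsto_ee y
  obtain ⟨B, hB⟩ := hP.norm.bddAbove_range
  have hB' : ∀ K, ‖∑ m ∈ Finset.range K, y m • (ee m : EE 𝕜)‖ ≤ B := fun K => hB ⟨K, rfl⟩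
  have hodd : ∀ j, j % 2 = 1 → ∃ k, j = 2 * k + 1 ∧ k = j / 2 := fun j hj => ⟨j / 2, by omega, rfl⟩
  have hs : ∀ n, Summable (fun j => tt 𝕜 n j • psum (xx : ℕ → EE 𝕜) (fun i => fn i y) j) := by
    intro n
    refine Summable.of_norm_bounded (g := fun j => tt ℝ n j * B)
      ((row_hasSum (𝕜 := ℝ) n).summable.mul_right B) (fun j => ?_)
    rw [norm_smul, norm_tt]
    by_cases hj : j % 2 = 1
    · obtain ⟨k, hk, -⟩ := hodd j hj
      rw [hk, psum_odd]
      exact mul_le_mul_of_nonneg_left (hB' _) (tt_nonneg _ _)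
    · have : tt ℝ n j = 0 := by
        unfold tt
        rw [if_neg]
        rintro ⟨h, _⟩
        exact hj h
      rw [this, zero_mul, zero_mul]
  refine ⟨fun n => ∑' j, tt 𝕜 n j • psum (xx : ℕ → EE 𝕜) (fun i => fn i y) j,
    fun n => (hs n).hasSum.tendsto_sum_nat, ?_⟩
  rw [Metric.tendsto_atTop]
  intro ε hε
  rw [Metric.tendsto_atTop] at hP
  obtain ⟨N0, hN0⟩ := hP (ε / 2) (by positivity)
  refine ⟨N0, fun n hn => ?_⟩
  have h1 := (hs n).hasSum
  have h2 := (row_hasSum (𝕜 := 𝕜) n).smul_const y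
  have h3 := h1.sub h2
  have h4 := (row_hasSum (𝕜 := ℝ) n).mul_right (ε / 2)
  have h5 : ∀ j, ‖tt 𝕜 n j • psum (xx : ℕ → EE 𝕜) (fun i => fn i y) j - tt 𝕜 n j • y‖ ≤
      tt ℝ n j * (ε / 2) := by
    intro j
    rw [← smul_sub, norm_smul, norm_tt]
    by_cases hj : j % 2 = 1 ∧ n ≤ j / 2
    · obtain ⟨k, hk, hk2⟩ := hodd j hj.1
      apply mul_le_mul_of_nonneg_left _ (tt_nonneg _ _)
      rw [hk, psum_odd, ← dist_eq_norm]
      exact (hN0 _ (by omega)).le
    · have : tt ℝ n j = 0 := by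
        unfold tt
        rw [if_neg hj]
      rw [this, zero_mul, zero_mul]
  have h6 := h3.norm_le_of_bounded h4 h5
  rw [one_smul, one_mul] at h6
  rw [dist_eq_norm]
  linarith

lemma tcoeff_unique (α : ℕ → 𝕜) (y : EE 𝕜) (h : TCoeff (tt 𝕜) xx α y) (n : ℕ) :
    α n = fn n y := by
  obtain ⟨σ, h1, h2⟩ := h
  apply fn_of_beta
  intro i
  have key : ∀ n, i / 2 ≤ n → σ n i = beta α i := by
    intro n hn
    have h3 := ((ev i).continuous.tendsto _).comp (h1 n)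
    have h4 : Tendsto (fun m => ∑ j ∈ Finset.range m, tt 𝕜 n j * beta α i) atTop
        (𝓝 (1 * beta α i)) := ((row_hasSum (𝕜 := 𝕜) n).mul_right (beta α i)).tendsto_sum_nat
    rw [one_mul] at h4
    refine tendsto_nhds_unique (h3.congr fun m => ?_) h4
    change ev i (∑ j ∈ Finset.range m, tt 𝕜 n j • psum xx α j) = _
    rw [map_sum]
    apply Finset.sum_congr rfl
    intro j _
    rw [map_smul, ev_apply, smul_eq_mul]
    by_cases hj : j % 2 = 1 ∧ n ≤ j / 2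
    · unfold psum
      have : j + 1 = 2 * (j / 2 + 1) := by omega
      rw [this, coord_psum _ _ _ (by omega)]
    · have : tt 𝕜 n j = 0 := by
        unfold tt
        rw [if_neg hj]
      rw [this, zero_mul, zero_mul]
  have h5 := ((ev i).continuous.tendsto _).comp h2
  have h6 : Tendsto (fun n => ev i (σ n)) atTop (𝓝 (beta α i)) := by
    apply tendsto_const_nhds.congr'
    filter_upwards [eventually_ge_atTop (i / 2)] with n hn
    rw [ev_apply, key n hn]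
  exact tendsto_nhds_unique h6 h5

/-- the tail-sum matrix -/
noncomputable def lam (T : ℕ → ℕ → 𝕜) (n m : ℕ) : 𝕜 := ∑' j, T n (m + j)

lemma lam_even (n k : ℕ) (hk : n ≤ k) : lam (tt 𝕜) n (2 * k) = (1 / 2) ^ (k - n) :=
  (tail_hasSum n k hk).tsum_eq

/-- the vector with a divergent series -/
noncomputable def yy : EE 𝕜 := ⟨fun j => if j % 2 = 1 then (1 / 2 : 𝕜) ^ (j / 2) else 0, by
  apply memℓp_gen
  have h2 : ((2 : ℝ≥0∞).toReal) = 2 := by norm_num
  simp only [h2, Real.rpow_two]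
  have hinj := inj_odd
  have : Summable ((fun j : ℕ => ‖(if j % 2 = 1 then (1 / 2 : 𝕜) ^ (j / 2) else 0)‖ ^ 2) ∘
      (fun i : ℕ => 2 * i + 1)) := by
    have he : ((fun j : ℕ => ‖(if j % 2 = 1 then (1 / 2 : 𝕜) ^ (j / 2) else 0)‖ ^ 2) ∘
      (fun i : ℕ => 2 * i + 1)) = fun i => (1 / 4 : ℝ) ^ i := by
      funext i
      change ‖(if (2 * i + 1) % 2 = 1 then (1 / 2 : 𝕜) ^ ((2 * i + 1) / 2) else 0)‖ ^ 2 = _
      rw [if_pos (by omega), norm_pow, norm_div, norm_one, RCLike.norm_ofNat,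
        show (2 * i + 1) / 2 = i by omega, ← pow_mul, mul_comm i 2, pow_mul]
      norm_num
    rw [he]
    exact summable_geometric_of_lt_one (by norm_num) (by norm_num)
  refine (hinj.summable_iff ?_).mp this
  intro j hj
  rw [if_neg, norm_zero, zero_pow two_ne_zero]
  intro h
  exact hj ⟨j / 2, by simp only; omega⟩⟩

lemma fn_yy (k : ℕ) : fn (2 * k) (yy : EE 𝕜) = -(4 : 𝕜) ^ k := by
  rw [fn_even _ (by omega)]
  change (if (2 * k) % 2 = 1 then (1 / 2 : 𝕜) ^ ((2 * k) / 2) else 0) -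
    (8 : 𝕜) ^ (2 * k / 2) * (if (2 * k + 1) % 2 = 1 then (1 / 2 : 𝕜) ^ ((2 * k + 1) / 2) else 0) = _
  rw [if_neg (by omega), if_pos (by omega), show 2 * k / 2 = k by omega,
    show (2 * k + 1) / 2 = k by omega, zero_sub, ← mul_pow]
  norm_num

lemma diverges (n : ℕ) : ¬ ∃ τ : EE 𝕜, Tendsto (fun m => ∑ i ∈ Finset.range m,
    lam (tt 𝕜) n i • (fn i (yy : EE 𝕜) • (xx i : EE 𝕜))) atTop (𝓝 τ) := by
  rintro ⟨τ, hτ⟩
  have h1 := (hτ.comp (tendsto_add_atTop_nat 1)).sub hτ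
  rw [sub_self] at h1
  have h2 : Tendsto (fun i => lam (tt 𝕜) n i • (fn i (yy : EE 𝕜) • (xx i : EE 𝕜))) atTop
      (𝓝 0) := by
    refine h1.congr fun m => ?_
    change ∑ i ∈ Finset.range (m + 1), _ - ∑ i ∈ Finset.range m, _ = _
    rw [Finset.sum_range_succ, add_sub_cancel_left]
  have h3 : Tendsto (fun k : ℕ => 2 * k) atTop atTop :=
    tendsto_id.const_mul_atTop' (by norm_num)
  have h4 := (h2.comp h3).norm
  rw [norm_zero] at h4
  have h5 := h4.eventually (gt_mem_nhds (one_pos : (0 : ℝ) < 1))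
  obtain ⟨k, hk1, hk2⟩ := (h5.and (eventually_ge_atTop n)).exists
  change ‖lam (tt 𝕜) n (2 * k) • (fn (2 * k) (yy : EE 𝕜) • (xx (2 * k) : EE 𝕜))‖ < 1 at hk1
  have hx : ‖(xx (2 * k) : EE 𝕜)‖ = 1 := by
    unfold xx ee
    rw [if_pos (by omega), lp.norm_single (by norm_num), norm_one]
  rw [lam_even n k hk2, fn_yy, norm_smul, norm_smul, hx, norm_neg, norm_pow, norm_pow, norm_div,
    norm_one, RCLike.norm_ofNat, RCLike.norm_ofNat, mul_one] at hk1
  have h6 : (1 / 2 : ℝ) ^ k ≤ (1 / 2 : ℝ) ^ (k - n) :=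
    pow_le_pow_of_le_one (by norm_num) (by norm_num) (by omega)
  have h7 : (1 : ℝ) ≤ (1 / 2 : ℝ) ^ k * 4 ^ k := by
    rw [← mul_pow]
    exact one_le_pow₀ (by norm_num)
  have h8 : (0 : ℝ) < 4 ^ k := by positivity
  nlinarith

end Pool.Agent.R267.TB
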