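import Mathlib

set_option autoImplicit false

open Filter Topology

/-! Radial truncation of scalars. -/

namespace Pool.Agent.R267.TR

variable {𝕜 : Type} [RCLike 𝕜]

/-- radial truncation at level `s` -/
noncomputable def tr (s : ℝ) (z : 𝕜) : 𝕜 := ((min 1 (s / ‖z‖) : ℝ) : 𝕜) * z

lemma tr_of_le {s : ℝ} {z : 𝕜} (h : ‖z‖ ≤ s) : tr s z = z := by
  unfold tr
  rcases eq_or_ne z 0 with rfl | hz
  · rw [mul_zero]
  · have hz' : 0 < ‖z‖ := norm_pos_iff.mpr hz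
    rw [min_eq_left ((one_le_div hz').mpr h)]
    simp

lemma tr_of_gt {s : ℝ} {z : 𝕜} (hs : 0 ≤ s) (h : s < ‖z‖) : tr s z = ((s / ‖z‖ : ℝ) : 𝕜) * z := by
  unfold tr
  have hz' : 0 < ‖z‖ := lt_of_le_of_lt hs h
  rw [min_eq_right ((div_le_one hz').mpr h.le)]

lemma tr_zero (s : ℝ) : tr s (0 : 𝕜) = 0 := by
  unfold tr; rw [mul_zero]

lemma norm_tr {s : ℝ} (hs : 0 ≤ s) (z : 𝕜) : ‖tr s z‖ = min ‖z‖ s := by
  rcases le_or_gt ‖z‖ s with h | h
  · rw [tr_of_le h, min_eq_left h]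
  · have hz' : 0 < ‖z‖ := lt_of_le_of_lt hs h
    rw [tr_of_gt hs h, norm_mul, RCLike.norm_ofReal, abs_of_nonneg (by positivity),
      div_mul_cancel₀ _ hz'.ne', min_eq_right h.le]

lemma norm_tr_le {s : ℝ} (hs : 0 ≤ s) (z : 𝕜) : ‖tr s z‖ ≤ s := by
  rw [norm_tr hs]; exact min_le_right _ _

lemma norm_tr_le' {s : ℝ} (hs : 0 ≤ s) (z : 𝕜) : ‖tr s z‖ ≤ ‖z‖ := by
  rw [norm_tr hs]; exact min_le_left _ _

lemma norm_sub_tr {s : ℝ} (hs : 0 ≤ s) (z : 𝕜) (b : ℝ) (hz : ‖z‖ ≤ b) (hb : s ≤ b) :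
    ‖z - tr s z‖ ≤ if s < ‖z‖ then b - s else 0 := by
  split_ifs with h
  · have hz' : 0 < ‖z‖ := lt_of_le_of_lt hs h
    rw [tr_of_gt hs h]
    have h1 : z - ((s / ‖z‖ : ℝ) : 𝕜) * z = ((1 - s / ‖z‖ : ℝ) : 𝕜) * z := by
      push_cast; ring
    have h2 : s / ‖z‖ ≤ 1 := (div_le_one hz').mpr h.le
    rw [h1, norm_mul, RCLike.norm_ofReal, abs_of_nonneg (by linarith), sub_mul, one_mul,
      div_mul_cancel₀ _ hz'.ne']
    linarith
  · push Not at h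
    rw [tr_of_le h, sub_self, norm_zero]

lemma tr_tr {s s' : ℝ} (hs : 0 ≤ s) (hs' : 0 ≤ s') (z : 𝕜) : tr s (tr s' z) = tr (min s s') z := by
  rcases le_or_gt ‖z‖ s' with h | h
  · rw [tr_of_le h]
    rcases le_or_gt s s' with h' | h'
    · rw [min_eq_left h']
    · rw [min_eq_right h'.le, tr_of_le h, tr_of_le (h.trans h'.le)]
  · have hz' : 0 < ‖z‖ := lt_of_le_of_lt hs' h
    have hn : ‖tr s' z‖ = s' := by rw [norm_tr hs', min_eq_right h.le]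
    rcases le_or_gt s' s with h' | h'
    · rw [min_eq_right h', tr_of_le (by rw [hn]; exact h')]
    · rw [min_eq_left h'.le, tr_of_gt hs (by rw [hn]; exact h'), hn, tr_of_gt hs' h,
        tr_of_gt hs (h'.trans h), ← mul_assoc, ← RCLike.ofReal_mul]
      congr 2
      have : 0 < s' := lt_of_le_of_lt hs h'
      field_simp

/-- scaling -/
lemma tr_mul {s δ : ℝ} (hδ : 0 < δ) (z : 𝕜) : tr s ((δ : 𝕜) * z) = (δ : 𝕜) * tr (s / δ) z := by
  unfold tr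
  rw [norm_mul, RCLike.norm_ofReal, abs_of_pos hδ, ← div_div]
  ring

lemma sq_expand (z w : 𝕜) :
    ‖z - w‖ ^ 2 = ‖z‖ ^ 2 + ‖w‖ ^ 2 - 2 * RCLike.re (z * (starRingEnd 𝕜) w) := by
  rw [← RCLike.normSq_eq_def', RCLike.normSq_sub, RCLike.normSq_eq_def', RCLike.normSq_eq_def']

lemma re_self (z : 𝕜) : RCLike.re (z * (starRingEnd 𝕜) z) = ‖z‖ ^ 2 := by
  rw [RCLike.mul_conj]
  norm_cast

/-- the variational inequality of the projection onto the disc -/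
lemma variational {s : ℝ} (hs : 0 ≤ s) (z y : 𝕜) (hy : ‖y‖ ≤ s) :
    RCLike.re ((z - tr s z) * (starRingEnd 𝕜) (y - tr s z)) ≤ 0 := by
  rcases le_or_gt ‖z‖ s with h | h
  · rw [tr_of_le h, sub_self, zero_mul]
    simp
  · have hz' : 0 < ‖z‖ := lt_of_le_of_lt hs h
    have h2 : s / ‖z‖ ≤ 1 := (div_le_one hz').mpr h.le
    rw [tr_of_gt hs h]
    have h1 : z - ((s / ‖z‖ : ℝ) : 𝕜) * z = ((1 - s / ‖z‖ : ℝ) : 𝕜) * z := by
      push_cast; ring
    rw [h1, mul_assoc, RCLike.re_ofReal_mul]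
    apply mul_nonpos_of_nonneg_of_nonpos (by linarith)
    have h5 : z * (starRingEnd 𝕜) (y - ((s / ‖z‖ : ℝ) : 𝕜) * z) =
        z * (starRingEnd 𝕜) y - ((s / ‖z‖ : ℝ) : 𝕜) * (z * (starRingEnd 𝕜) z) := by
      simp only [map_sub, map_mul, RCLike.conj_ofReal]
      ring
    rw [h5, map_sub, RCLike.re_ofReal_mul, re_self]
    have h3 : RCLike.re (z * (starRingEnd 𝕜) y) ≤ ‖z‖ * s := by
      refine (RCLike.re_le_norm _).trans ?_
      rw [norm_mul, RCLike.norm_conj]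
      exact mul_le_mul_of_nonneg_left hy hz'.le
    have h4 : s / ‖z‖ * ‖z‖ ^ 2 = ‖z‖ * s := by
      field_simp
    linarith

/-- the truncation is non-expansive -/
lemma tr_lipschitz {s : ℝ} (hs : 0 ≤ s) (z w : 𝕜) : ‖tr s z - tr s w‖ ≤ ‖z - w‖ := by
  have h1 := variational hs z (tr s w) (norm_tr_le hs w)
  have h2 := variational hs w (tr s z) (norm_tr_le hs z)
  set a := tr s z with ha
  set b := tr s w with hb
  have e1 : RCLike.re ((z - a) * (starRingEnd 𝕜) (b - a)) + RCLike.re ((w - b) * (starRingEnd 𝕜) (a - b))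
      = ‖a - b‖ ^ 2 - RCLike.re ((z - w) * (starRingEnd 𝕜) (a - b)) := by
    rw [← re_self (a - b), ← map_add, ← map_sub]
    congr 1
    simp only [map_sub]
    ring
  have h3 : RCLike.re ((z - w) * (starRingEnd 𝕜) (a - b)) ≤ ‖z - w‖ * ‖a - b‖ := by
    refine (RCLike.re_le_norm _).trans ?_
    rw [norm_mul, RCLike.norm_conj]
  have h4 : ‖a - b‖ ^ 2 ≤ ‖z - w‖ * ‖a - b‖ := by linarith
  rcases eq_or_lt_of_le (norm_nonneg (a - b)) with h | h
  · rw [← h]; exact norm_nonneg _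
  · rw [sq] at h4
    exact le_of_mul_le_mul_right h4 h

end Pool.Agent.R267.TR
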